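/-
MP_95f258_pr (three-colour Poisson stable matching) in dimension one: definitions.
Paper: /team-store/MP_95f258_pr_paper.md.  Author of the blueprint: helper41.
-/
import Mathlib

set_option autoImplicit false

open MeasureTheory Set

namespace Pool.SM3

/-- A coloured point of the line. -/
abbrev Pt : Type := ℝ × Fin 3

/-- A set of lists is measurable iff for every `n` its preimage under `List.ofFn` is. -/
instance instMeasurableSpaceListPt : MeasurableSpace (List Pt) :=
  ⨅ n : ℕ, MeasurableSpace.map (fun v : Fin n → Pt => List.ofFn v) inferInstance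

/-- the colour measure -/
noncomputable def colM (p : Fin 3 → ℝ) : Measure (Fin 3) :=
  ∑ c : Fin 3, ENNReal.ofReal (p c) • Measure.dirac c

instance (p : Fin 3 → ℝ) : IsFiniteMeasure (colM p) := by
  refine ⟨?_⟩
  simp only [colM, Measure.coe_finsetSum, Finset.sum_apply, Measure.smul_apply, smul_eq_mul]
  refine ENNReal.sum_lt_top.2 fun c _ => ENNReal.mul_lt_top ENNReal.ofReal_lt_top ?_
  exact measure_lt_top _ _

/-- intensity measure of the coloured Poisson process -/
noncomputable def muP (p : Fin 3 → ℝ) : Measure Pt := (volume : Measure ℝ).prod (colM p)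

instance (p : Fin 3 → ℝ) : SigmaFinite (muP p) := by unfold muP; infer_instance

/-- increasing `n`-tuples of coloured points in `(u,w)` -/
def SortedIn (n : ℕ) (u w : ℝ) : Set (Fin n → Pt) :=
  {v | (∀ i, u < (v i).1 ∧ (v i).1 < w) ∧ StrictMono (fun i => (v i).1)}

/-- Janossy measure of order `n` of the coloured Poisson process on `(u,w)` (without the exponential
factor), on sorted lists -/
noncomputable def Jm (p : Fin 3 → ℝ) (n : ℕ) (u w : ℝ) : Measure (List Pt) :=
  ((Measure.pi (fun _ : Fin n => muP p)).restrict (SortedIn n u w)).map (fun v => List.ofFn v)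

/-- law of the sorted list of the coloured points in `(u,w)` -/
noncomputable def Pm (p : Fin 3 → ℝ) (u w : ℝ) : Measure (List Pt) :=
  ENNReal.ofReal (Real.exp (-(w - u))) • Measure.sum (fun n => Jm p n u w)

/-- the sum over all ways to write `l = l₁ ++ y :: l₂` of `Ψ l₁ y l₂` -/
noncomputable def splitSum : (List Pt → Pt → List Pt → ENNReal) → List Pt → ENNReal
  | _, [] => 0
  | Ψ, y :: l => Ψ [] y l + splitSum (fun l₁ z l₂ => Ψ (y :: l₁) z l₂) l

/-- the recursion for the greedy matching, with fuel -/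
def MtN (Y : Set Pt) : ℕ → Pt → Pt → Prop
  | 0, _, _ => False
  | n + 1, x, y => x ∈ Y ∧ y ∈ Y ∧ x.2 ≠ y.2 ∧
      (∀ z, |x.1 - z.1| < |x.1 - y.1| → ¬ MtN Y n x z) ∧
      (∀ z, |y.1 - z.1| < |x.1 - y.1| → ¬ MtN Y n y z)

/-- `Mt Y x y`: the points `x` and `y` of the (finite) coloured set `Y` are matched to each other. -/
def Mt (Y : Set Pt) (x y : Pt) : Prop := ∃ N, ∀ n, N ≤ n → MtN Y n x y

/-- the recursion which characterises stable matchings, for pairs of length `< r` -/
def Rec (Y : Set Pt) (r : ℝ) (M : Pt → Pt → Prop) : Prop :=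
  ∀ x y : Pt, |x.1 - y.1| < r → (M x y ↔ (x ∈ Y ∧ y ∈ Y ∧ x.2 ≠ y.2 ∧
      (∀ z, |x.1 - z.1| < |x.1 - y.1| → ¬ M x z) ∧
      (∀ z, |y.1 - z.1| < |x.1 - y.1| → ¬ M y z)))

/-- `x` has no partner at distance `< r` -/
def Fr (Y : Set Pt) (r : ℝ) (x : Pt) : Prop := ∀ y, Mt Y x y → r ≤ |x.1 - y.1|

/-- no isosceles triples (in particular all positions are distinct) -/
def NoIso (Y : Set Pt) : Prop :=
  ∀ x ∈ Y, ∀ y ∈ Y, ∀ z ∈ Y, |x.1 - y.1| = |x.1 - z.1| → y = z

/-- the points of `Y` in the open interval `(u,w)` -/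
def Win (Y : Set Pt) (u w : ℝ) : Set Pt := {y | y ∈ Y ∧ u < y.1 ∧ y.1 < w}

/-- the closed system with interior `l` and end points `(u,a)`, `(w,b)` -/
def cl (u : ℝ) (a : Fin 3) (w : ℝ) (b : Fin 3) (l : List Pt) : Set Pt :=
  {y | y ∈ (u, a) :: (w, b) :: l}

/-- both ends of the closed system are free at level `r` -/
def Gd (u : ℝ) (a : Fin 3) (w : ℝ) (b : Fin 3) (r : ℝ) (l : List Pt) : Prop :=
  Fr (cl u a w b l) r (u, a) ∧ Fr (cl u a w b l) r (w, b)

/-- the two ends of the closed system are matched to each other -/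
def Md (u : ℝ) (a : Fin 3) (w : ℝ) (b : Fin 3) (l : List Pt) : Prop :=
  Mt (cl u a w b l) (u, a) (w, b)

/-- sorted lists in `(u,w)` -/
def SL (u w : ℝ) (l : List Pt) : Prop :=
  l.Pairwise (fun x y => x.1 < y.1) ∧ ∀ y ∈ l, u < y.1 ∧ y.1 < w

/-- no tie between the two ends of `[u,w]` -/
def NoTie (u w : ℝ) (l : List Pt) : Prop := ∀ y ∈ l, ∀ y' ∈ l, y.1 - u ≠ w - y'.1

/-- probability that both ends of `[0,z]` are free at level `r` and the number of interior points is
congruent to `e` modulo 2 -/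
noncomputable def PG (p : Fin 3 → ℝ) (a b : Fin 3) (e : ℕ) (z r : ℝ) : ℝ :=
  (Pm p 0 z).real {l | l.length % 2 = e ∧ Gd 0 a z b r l}

/-- probability that the two ends of `[0,z]` are matched to each other -/
noncomputable def PM (p : Fin 3 → ℝ) (a b : Fin 3) (z : ℝ) : ℝ :=
  (Pm p 0 z).real {l | Md 0 a z b l}

/-- the signed closed-system function `L_ab(z;r)` -/
noncomputable def LL (p : Fin 3 → ℝ) (a b : Fin 3) (z r : ℝ) : ℝ :=
  Real.sqrt (p a * p b) * (PG p a b 0 z r - PG p a b 1 z r)

/-- the contact function `N_ab(z)` -/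
noncomputable def NN (p : Fin 3 → ℝ) (a b : Fin 3) (z : ℝ) : ℝ :=
  Real.sqrt (p a * p b) * PM p a b z

/-- the pair function `k_a(z)` -/
noncomputable def Kf (p : Fin 3 → ℝ) (a : Fin 3) (z : ℝ) : ℝ :=
  p a * (Pm p 0 z).real {l | Gd 0 a z a z l}

open Classical in
/-- indicator of a proposition -/
noncomputable def ind (P : Prop) : ENNReal := if P then 1 else 0

open Classical in
/-- the sublist of the points in the open interval `(u,w)` -/
noncomputable def wf (u w : ℝ) (l : List Pt) : List Pt := l.filter (fun y => u < y.1 ∧ y.1 < w)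

/-- positions are distinct -/
def PosInj (Y : Set Pt) : Prop := ∀ x ∈ Y, ∀ y ∈ Y, x.1 = y.1 → x = y

/-- the part of `Y` to the left of `t` -/
def Lef (Y : Set Pt) (t : ℝ) : Set Pt := {y | y ∈ Y ∧ y.1 ≤ t}

/-- the part of `Y` to the right of `t` -/
def Rig (Y : Set Pt) (t : ℝ) : Set Pt := {y | y ∈ Y ∧ t ≤ y.1}

/-- probability vectors with positive entries -/
structure PV (p : Fin 3 → ℝ) : Prop where
  pos : ∀ i, 0 < p i
  sum : p 0 + p 1 + p 2 = 1

end Pool.SM3
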