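/-
SM3.A1 : the sigma-algebra on `List Pt`.
PROOF. `measurableSet_list_iff`: `MeasurableSpace.measurableSet_iInf` and the definition of `MeasurableSpace.map`.
`measurable_ofFn` is immediate from it.  `measurable_list_param`: `List.ofFn` (length `n`) is injective, measurable
and maps measurable sets to measurable sets (the preimage of its image of `B` under the `ofFn` of length `m` is
empty for `m ≠ n` and `B` for `m = n`), i.e. it is a `MeasurableEmbedding`; so is `Prod.map id ofFn`
(`MeasurableEmbedding.id.prodMap`).  For measurable `s`: `f ⁻¹' s = ⋃ n, (Prod.map id ofFn_n) '' ((fun q => f (q.1,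
ofFn q.2)) ⁻¹' s)`, a countable union of measurable sets (every list is `List.ofFn l.get`).
`measurable_list_foldr`: by `measurable_list_param` it is enough to treat `(θ, v) ↦ (ofFn v).foldr ..` for each
`n`; induction on `n`: `List.ofFn_succ`, foldr_cons.
-/
import Pool.Agent.Lib.SM3.Defs

set_option autoImplicit false

open MeasureTheory Set

namespace Pool.SM3

theorem measurableSet_list_iff {A : Set (List Pt)} :
    MeasurableSet A ↔ ∀ n : ℕ, MeasurableSet ((fun v : Fin n → Pt => List.ofFn v) ⁻¹' A) := by
  exact MeasurableSpace.measurableSet_iInf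

theorem measurable_ofFn (n : ℕ) : Measurable (fun v : Fin n → Pt => List.ofFn v) := by
  intro s hs
  exact measurableSet_list_iff.1 hs n

private theorem ofFn_emb (n : ℕ) : MeasurableEmbedding (fun v : Fin n → Pt => List.ofFn v) := by
  refine ⟨List.ofFn_injective, measurable_ofFn n, ?_⟩
  intro s hs
  rw [measurableSet_list_iff]
  intro m
  by_cases hmn : m = n
  · subst hmn
    rw [preimage_image_eq _ List.ofFn_injective]
    exact hs
  · have h1 : (fun v : Fin m → Pt => List.ofFn v) ⁻¹'
        ((fun v : Fin n → Pt => List.ofFn v) '' s) = ∅ := by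
      ext v
      simp only [mem_preimage, mem_image, mem_empty_iff_false, iff_false, not_exists, not_and]
      intro w _ hw
      have h2 := congrArg List.length hw
      simp only [List.length_ofFn] at h2
      exact hmn h2.symm
    rw [h1]
    exact MeasurableSet.empty

theorem measurable_list_param {Θ β : Type*} [MeasurableSpace Θ] [MeasurableSpace β]
    {f : Θ × List Pt → β}
    (h : ∀ n : ℕ, Measurable (fun q : Θ × (Fin n → Pt) => f (q.1, List.ofFn q.2))) :
    Measurable f := by
  intro s hs
  have h1 : f ⁻¹' s = ⋃ n : ℕ, (Prod.map id (fun v : Fin n → Pt => List.ofFn v)) ''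
      ((fun q : Θ × (Fin n → Pt) => f (q.1, List.ofFn q.2)) ⁻¹' s) := by
    ext ⟨t, l⟩
    simp only [mem_preimage, mem_iUnion, mem_image, Prod.exists, Prod.map_apply, id_eq,
      Prod.mk.injEq]
    constructor
    · intro hl
      exact ⟨l.length, t, l.get, by rwa [List.ofFn_get], rfl, List.ofFn_get l⟩
    · rintro ⟨n, t', v, hv, rfl, rfl⟩
      exact hv
  rw [h1]
  refine MeasurableSet.iUnion fun n => ?_
  exact (MeasurableEmbedding.id.prodMap (ofFn_emb n)).measurableSet_image.2 (h n hs)

theorem measurable_list_foldr {Θ β : Type*} [MeasurableSpace Θ] [MeasurableSpace β]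
    {g : Θ × Pt × β → β} {c : Θ → β} (hg : Measurable g) (hc : Measurable c) :
    Measurable (fun q : Θ × List Pt => q.2.foldr (fun y b => g (q.1, y, b)) (c q.1)) := by
  refine measurable_list_param fun n => ?_
  induction n with
  | zero =>
    simp only [List.ofFn_zero, List.foldr_nil]
    exact hc.comp measurable_fst
  | succ n ih =>
    simp only [List.ofFn_succ, List.foldr_cons]
    refine hg.comp (measurable_fst.prodMk (((measurable_pi_apply 0).comp measurable_snd).prodMk ?_))
    have h1 : Measurable (fun q : Θ × (Fin (n + 1) → Pt) =>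
        ((q.1, fun i : Fin n => q.2 i.succ) : Θ × (Fin n → Pt))) :=
      measurable_fst.prodMk (measurable_pi_lambda _
        (fun i => (measurable_pi_apply i.succ).comp measurable_snd))
    exact ih.comp h1

end Pool.SM3
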