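/-
SM3.A2 : measurability of list operations and of `splitSum`.
PROOF. All from `measurable_list_param`, `measurable_list_foldr` (A1).
cons: `(y, ofFn v) ↦ ofFn (Fin.cons y v)` (use `measurable_list_param` with `Θ = Pt`, then `measurable_ofFn`).
append: `l₁ ++ l₂ = l₁.foldr List.cons l₂`: `measurable_list_foldr` with `Θ = List Pt` (swap the factors), `g = cons`.
map, filter (`wf`): foldr with an if; reverse: foldr (fun y b => b ++ [y]) []; length: foldr with `+1` (β = ℕ).
exists/forall mem: foldr with β = Prop (`g (θ,y,b) = (Q θ y ∨ b)`); `Prop` has the discrete sigma-algebra,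
`measurableSet_setOf`.
`measurable_splitSum`: by `measurable_list_param`; prove for all `n`, for ALL `Θ` (in a fixed universe) and `Ψ`:
`(θ, v : Fin n → Pt) ↦ splitSum (Ψ θ) (ofFn v)` is measurable, by induction on `n`; step: `ofFn v = v 0 :: ofFn (tail v)`,
`splitSum (Ψ θ) (y :: l) = Ψ θ [] y l + splitSum (Ψ' (θ, y)) l` with `Ψ' (θ,y) l₁ z l₂ = Ψ θ (y :: l₁) z l₂`, a
measurable family over `Θ × Pt`.
-/
import Pool.Agent.Lib.SM3.A1

set_option autoImplicit false

open MeasureTheory Set

namespace Pool.SM3

theorem measurable_cons : Measurable (fun q : Pt × List Pt => q.1 :: q.2) := by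
  refine measurable_list_param (f := fun q : Pt × List Pt => q.1 :: q.2) fun n => ?_
  have h : (fun q : Pt × (Fin n → Pt) => q.1 :: List.ofFn q.2)
      = (fun v : Fin (n + 1) → Pt => List.ofFn v)
        ∘ (fun q : Pt × (Fin n → Pt) => (Fin.cons q.1 q.2 : Fin (n + 1) → Pt)) := by
    funext q
    simp [List.ofFn_succ]
  have hc : Measurable
      (fun q : Pt × (Fin n → Pt) => (Fin.cons q.1 q.2 : Fin (n + 1) → Pt)) := by
    refine measurable_pi_iff.2 fun i => ?_
    refine Fin.cases ?_ (fun j => ?_) i
    · simpa using measurable_fst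
    · simp only [Fin.cons_succ]
      exact (measurable_pi_apply j).comp measurable_snd
  show Measurable (fun q : Pt × (Fin n → Pt) => q.1 :: List.ofFn q.2)
  rw [h]
  exact (measurable_ofFn (n + 1)).comp hc

theorem measurable_append : Measurable (fun q : List Pt × List Pt => q.1 ++ q.2) := by
  have h := measurable_list_foldr (Θ := List Pt) (β := List Pt)
    (g := fun q : List Pt × Pt × List Pt => q.2.1 :: q.2.2) (c := fun θ => θ)
    (measurable_cons.comp measurable_snd) measurable_id
  have h2 := h.comp measurable_swap
  have h3 : (fun q : List Pt × List Pt => q.1 ++ q.2)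
      = (fun q : List Pt × List Pt => q.2.foldr (fun y b => y :: b) q.1) ∘ Prod.swap := by
    funext q
    obtain ⟨a, b⟩ := q
    show a ++ b = a.foldr (fun y b => y :: b) b
    induction a with
    | nil => rfl
    | cons x a ih =>
      rw [List.foldr_cons, ← ih]
      simp
  rw [h3]
  exact h2

theorem measurable_lengthL : Measurable (fun l : List Pt => l.length) := by
  have h := measurable_list_foldr (Θ := Unit) (β := ℕ)
    (g := fun q : Unit × Pt × ℕ => q.2.2 + 1) (c := fun _ => 0)
    ((measurable_snd.comp measurable_snd).add_const 1) measurable_const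
  have h2 := h.comp (measurable_const.prodMk measurable_id : Measurable (fun l : List Pt => ((), l)))
  have h3 : (fun l : List Pt => l.length)
      = (fun q : Unit × List Pt => q.2.foldr (fun _ b => b + 1) 0) ∘ (fun l => ((), l)) := by
    funext l
    show l.length = l.foldr (fun _ b => b + 1) 0
    induction l with
    | nil => rfl
    | cons x a ih =>
      rw [List.foldr_cons, ← ih]
      simp
  rw [h3]
  exact h2

theorem measurable_mapL {φ : Pt → Pt} (hφ : Measurable φ) : Measurable (fun l : List Pt => l.map φ) := by
  have h := measurable_list_foldr (Θ := Unit) (β := List Pt)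
    (g := fun q : Unit × Pt × List Pt => φ q.2.1 :: q.2.2) (c := fun _ => [])
    (measurable_cons.comp ((hφ.comp (measurable_fst.comp measurable_snd)).prodMk
      (measurable_snd.comp measurable_snd))) measurable_const
  have h2 := h.comp (measurable_const.prodMk measurable_id : Measurable (fun l : List Pt => ((), l)))
  have h3 : (fun l : List Pt => l.map φ)
      = (fun q : Unit × List Pt => q.2.foldr (fun y b => φ y :: b) []) ∘ (fun l => ((), l)) := by
    funext l
    show l.map φ = l.foldr (fun y b => φ y :: b) []
    induction l with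
    | nil => rfl
    | cons x a ih =>
      rw [List.foldr_cons, ← ih]
      simp
  rw [h3]
  exact h2

theorem measurable_map_param {Θ : Type*} [MeasurableSpace Θ] {φ : Θ × Pt → Pt} (hφ : Measurable φ) :
    Measurable (fun q : Θ × List Pt => q.2.map (fun y => φ (q.1, y))) := by
  have h := measurable_list_foldr (Θ := Θ) (β := List Pt)
    (g := fun q : Θ × Pt × List Pt => φ (q.1, q.2.1) :: q.2.2) (c := fun _ => [])
    (measurable_cons.comp ((hφ.comp (measurable_fst.prodMk
      (measurable_fst.comp measurable_snd))).prodMk
      (measurable_snd.comp measurable_snd))) measurable_const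
  have h3 : (fun q : Θ × List Pt => q.2.map (fun y => φ (q.1, y)))
      = (fun q : Θ × List Pt => q.2.foldr (fun y b => φ (q.1, y) :: b) []) := by
    funext q
    obtain ⟨θ, l⟩ := q
    show l.map (fun y => φ (θ, y)) = l.foldr (fun y b => φ (θ, y) :: b) []
    induction l with
    | nil => rfl
    | cons x a ih =>
      rw [List.foldr_cons, ← ih]
      simp
  rw [h3]
  exact h

theorem measurable_reverseL : Measurable (fun l : List Pt => l.reverse) := by
  have h := measurable_list_foldr (Θ := Unit) (β := List Pt)
    (g := fun q : Unit × Pt × List Pt => q.2.2 ++ [q.2.1]) (c := fun _ => [])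
    (measurable_append.comp ((measurable_snd.comp measurable_snd).prodMk
      (measurable_cons.comp ((measurable_fst.comp measurable_snd).prodMk measurable_const))))
    measurable_const
  have h2 := h.comp (measurable_const.prodMk measurable_id : Measurable (fun l : List Pt => ((), l)))
  have h3 : (fun l : List Pt => l.reverse)
      = (fun q : Unit × List Pt => q.2.foldr (fun y b => b ++ [y]) []) ∘ (fun l => ((), l)) := by
    funext l
    show l.reverse = l.foldr (fun y b => b ++ [y]) []
    induction l with
    | nil => rfl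
    | cons x a ih =>
      rw [List.foldr_cons, ← ih]
      simp
  rw [h3]
  exact h2

open Classical in
private theorem a2_wf_foldr (u w : ℝ) (l : List Pt) :
    wf u w l = l.foldr (fun y b => if u < y.1 ∧ y.1 < w then y :: b else b) [] := by
  induction l with
  | nil => rfl
  | cons x a ih =>
    simp only [List.foldr_cons]
    rw [← ih]
    unfold wf
    rw [List.filter_cons]
    by_cases hx : u < x.1 ∧ x.1 < w
    · simp [hx]
    · simp [hx]

theorem measurable_wf (u w : ℝ) : Measurable (wf u w) := by
  classical
  have hs : MeasurableSet {q : Unit × Pt × List Pt | u < q.2.1.1 ∧ q.2.1.1 < w} := by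
    have hm : Measurable (fun q : Unit × Pt × List Pt => q.2.1.1) :=
      measurable_fst.comp (measurable_fst.comp measurable_snd)
    exact (measurableSet_lt measurable_const hm).inter (measurableSet_lt hm measurable_const)
  have h := measurable_list_foldr (Θ := Unit) (β := List Pt)
    (g := fun q : Unit × Pt × List Pt => if u < q.2.1.1 ∧ q.2.1.1 < w then q.2.1 :: q.2.2 else q.2.2)
    (c := fun _ => [])
    (Measurable.ite hs (measurable_cons.comp measurable_snd) (measurable_snd.comp measurable_snd))
    measurable_const
  have h2 := h.comp (measurable_const.prodMk measurable_id : Measurable (fun l : List Pt => ((), l)))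
  have h3 : wf u w
      = (fun q : Unit × List Pt => q.2.foldr
          (fun y b => if u < y.1 ∧ y.1 < w then y :: b else b) []) ∘ (fun l => ((), l)) := by
    funext l
    exact a2_wf_foldr u w l
  rw [h3]
  exact h2

theorem measurableSet_exists_mem {Θ : Type*} [MeasurableSpace Θ] {Q : Θ → Pt → Prop}
    (hQ : MeasurableSet {q : Θ × Pt | Q q.1 q.2}) :
    MeasurableSet {q : Θ × List Pt | ∃ y ∈ q.2, Q q.1 y} := by
  have hg : Measurable (fun q : Θ × Pt × Prop => (Q q.1 q.2.1 ∨ q.2.2)) := by
    refine measurableSet_setOfPred.1 ?_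
    have h1 : MeasurableSet {q : Θ × Pt × Prop | Q q.1 q.2.1} :=
      (measurable_fst.prodMk (measurable_fst.comp measurable_snd) :
        Measurable (fun q : Θ × Pt × Prop => (q.1, q.2.1))) hQ
    have h2 : MeasurableSet {q : Θ × Pt × Prop | q.2.2} :=
      measurableSet_setOfPred.2 (measurable_snd.comp measurable_snd)
    exact h1.union h2
  have h := measurable_list_foldr (Θ := Θ) (β := Prop)
    (g := fun q : Θ × Pt × Prop => (Q q.1 q.2.1 ∨ q.2.2)) (c := fun _ => False)
    hg measurable_const
  refine measurableSet_setOfPred.2 ?_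
  have h3 : (fun q : Θ × List Pt => ∃ y ∈ q.2, Q q.1 y)
      = (fun q : Θ × List Pt => q.2.foldr (fun y b => (Q q.1 y ∨ b)) False) := by
    funext q
    obtain ⟨θ, l⟩ := q
    show (∃ y ∈ l, Q θ y) = l.foldr (fun y b => (Q θ y ∨ b)) False
    induction l with
    | nil => simp
    | cons x a ih => simp [← ih]
  rw [h3]
  exact h

theorem measurableSet_forall_mem {Θ : Type*} [MeasurableSpace Θ] {Q : Θ → Pt → Prop}
    (hQ : MeasurableSet {q : Θ × Pt | Q q.1 q.2}) :
    MeasurableSet {q : Θ × List Pt | ∀ y ∈ q.2, Q q.1 y} := by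
  have h := (measurableSet_exists_mem (Θ := Θ) (Q := fun θ y => ¬ Q θ y) hQ.compl).compl
  convert h using 1
  ext q
  simp

private theorem a2_splitSum_ofFn (n : ℕ) : ∀ {Θ : Type*} [MeasurableSpace Θ]
    {Ψ : Θ → List Pt → Pt → List Pt → ENNReal}
    (_ : Measurable (fun q : Θ × List Pt × Pt × List Pt => Ψ q.1 q.2.1 q.2.2.1 q.2.2.2)),
    Measurable (fun q : Θ × (Fin n → Pt) => splitSum (Ψ q.1) (List.ofFn q.2)) := by
  induction n with
  | zero =>
    intro Θ _ Ψ _
    simp only [List.ofFn_zero, splitSum]
    exact measurable_const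
  | succ n ih =>
    intro Θ _ Ψ hΨ
    have h0 : Measurable (fun q : Θ × (Fin (n + 1) → Pt) => q.2 0) :=
      (measurable_pi_apply 0).comp measurable_snd
    have ht : Measurable (fun q : Θ × (Fin (n + 1) → Pt) => (fun i : Fin n => q.2 i.succ)) :=
      measurable_pi_iff.2 fun i => (measurable_pi_apply i.succ).comp measurable_snd
    have e : (fun q : Θ × (Fin (n + 1) → Pt) => splitSum (Ψ q.1) (List.ofFn q.2))
        = (fun q : Θ × (Fin (n + 1) → Pt) =>
          Ψ q.1 [] (q.2 0) (List.ofFn (fun i : Fin n => q.2 i.succ))
          + splitSum (fun l₁ z l₂ => Ψ q.1 (q.2 0 :: l₁) z l₂)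
              (List.ofFn (fun i : Fin n => q.2 i.succ))) := by
      funext q
      rw [List.ofFn_succ]
      rfl
    rw [e]
    refine Measurable.add ?_ ?_
    · have hm : Measurable (fun q : Θ × (Fin (n + 1) → Pt) =>
          ((q.1, [], q.2 0, List.ofFn (fun i : Fin n => q.2 i.succ)) :
            Θ × List Pt × Pt × List Pt)) :=
        measurable_fst.prodMk (measurable_const.prodMk (h0.prodMk
          ((measurable_ofFn n).comp ht)))
      exact hΨ.comp hm
    · have hΨ' : Measurable (fun q : (Θ × Pt) × List Pt × Pt × List Pt =>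
          Ψ q.1.1 (q.1.2 :: q.2.1) q.2.2.1 q.2.2.2) := by
        have hm : Measurable (fun q : (Θ × Pt) × List Pt × Pt × List Pt =>
            ((q.1.1, q.1.2 :: q.2.1, q.2.2.1, q.2.2.2) : Θ × List Pt × Pt × List Pt)) := by
          refine (measurable_fst.comp measurable_fst).prodMk (Measurable.prodMk ?_ ?_)
          · exact measurable_cons.comp ((measurable_snd.comp measurable_fst).prodMk
              (measurable_fst.comp measurable_snd))
          · exact measurable_snd.comp measurable_snd
        exact hΨ.comp hm
      have h1 := ih (Θ := Θ × Pt) (Ψ := fun θ l₁ z l₂ => Ψ θ.1 (θ.2 :: l₁) z l₂) hΨ'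
      have hm : Measurable (fun q : Θ × (Fin (n + 1) → Pt) =>
          (((q.1, q.2 0), (fun i : Fin n => q.2 i.succ)) : (Θ × Pt) × (Fin n → Pt))) :=
        (measurable_fst.prodMk h0).prodMk ht
      exact h1.comp hm

theorem measurable_splitSum {Θ : Type*} [MeasurableSpace Θ]
    {Ψ : Θ → List Pt → Pt → List Pt → ENNReal}
    (hΨ : Measurable (fun q : Θ × List Pt × Pt × List Pt => Ψ q.1 q.2.1 q.2.2.1 q.2.2.2)) :
    Measurable (fun q : Θ × List Pt => splitSum (Ψ q.1) q.2) :=
  measurable_list_param (f := fun q : Θ × List Pt => splitSum (Ψ q.1) q.2)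
    fun n => a2_splitSum_ofFn n hΨ

theorem measurable_ind {Θ : Type*} [MeasurableSpace Θ] {Q : Θ → Prop} (hQ : MeasurableSet {θ | Q θ}) :
    Measurable (fun θ => ind (Q θ)) := by
  classical
  have h : (fun θ => ind (Q θ)) = (fun θ => if Q θ then (1 : ENNReal) else 0) := by
    funext θ
    by_cases h : Q θ
    · simp [ind, h]
    · simp [ind, h]
  rw [h]
  exact Measurable.ite hQ measurable_const measurable_const

end Pool.SM3
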