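/-
SM3.A3 : the first-point recursion for the Janossy measures.
PROOF. `∫⁻ l, Φ l ∂Jm p n u w = ∫⁻ v in SortedIn n u w, Φ (ofFn v) ∂pi` (lintegral_map, measurable_ofFn).
n = 0: `Measure.pi` over `Fin 0` is a dirac, `SortedIn 0 = univ`.
Step: `MeasureTheory.measurePreserving_piFinSuccAbove (fun _ => muP p) 0` turns the integral over `Fin (n+1) → Pt` into
one over `Pt × (Fin n → Pt)`; `Fin.cons y v ∈ SortedIn (n+1) u w ↔ u < y.1 ∧ y.1 < w ∧ v ∈ SortedIn n y.1 w`;
`List.ofFn (Fin.cons y v) = y :: List.ofFn v`.  Tonelli (`lintegral_prod`), then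
`muP p = volume.prod (colM p)`, `∫⁻ over colM p = ∑ c, ofReal (p c) * ·` (lintegral_finset_sum_measure, lintegral_smul_measure,
lintegral_dirac).  SortedIn is a measurable set (finitely many inequalities: StrictMono on `Fin n` is
`∀ i j, i < j → ..`).
ae_Jm: the measure is carried by the image of SortedIn (`ae_map_iff`, `ae_restrict_mem`; the target set is measurable
or use `ae_of_ae_map`/`Measure.map` of a subset): `List.pairwise_ofFn`, `List.mem_ofFn`.
-/
import Pool.Agent.Lib.SM3.A1

set_option autoImplicit false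

open MeasureTheory Set

namespace Pool.SM3

theorem measurableSet_SortedIn (n : ℕ) (u w : ℝ) : MeasurableSet (SortedIn n u w) := by
  have h1 : ∀ i : Fin n, Measurable (fun v : Fin n → Pt => (v i).1) := fun i =>
    measurable_fst.comp (measurable_pi_apply i)
  have h2 : SortedIn n u w = (⋂ i, {v : Fin n → Pt | u < (v i).1 ∧ (v i).1 < w}) ∩
      ⋂ i, ⋂ j, {v : Fin n → Pt | i < j → (v i).1 < (v j).1} := by
    ext v
    simp only [SortedIn, StrictMono, mem_ofPred_eq, mem_inter_iff, mem_iInter]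
  rw [h2]
  refine MeasurableSet.inter (MeasurableSet.iInter fun i => ?_)
    (MeasurableSet.iInter fun i => MeasurableSet.iInter fun j => ?_)
  · exact (measurableSet_lt measurable_const (h1 i)).inter (measurableSet_lt (h1 i) measurable_const)
  · by_cases hij : i < j
    · simp only [hij, true_imp_iff]
      exact measurableSet_lt (h1 i) (h1 j)
    · simp only [hij, false_imp_iff, ofPred_true]
      exact MeasurableSet.univ

theorem lintegral_Jm (p : Fin 3 → ℝ) (n : ℕ) (u w : ℝ) {Φ : List Pt → ENNReal} (hΦ : Measurable Φ) :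
    ∫⁻ l, Φ l ∂(Jm p n u w)
      = ∫⁻ v in SortedIn n u w, Φ (List.ofFn v) ∂(Measure.pi (fun _ : Fin n => muP p)) := by
  unfold Jm
  rw [lintegral_map hΦ (measurable_ofFn n)]

theorem lintegral_Jm_zero (p : Fin 3 → ℝ) (u w : ℝ) {Φ : List Pt → ENNReal} (hΦ : Measurable Φ) :
    ∫⁻ l, Φ l ∂(Jm p 0 u w) = Φ [] := by
  have h : SortedIn 0 u w = univ := by
    ext v
    simp only [SortedIn, mem_ofPred_eq, mem_univ, iff_true]
    exact ⟨fun i => i.elim0, fun i => i.elim0⟩
  rw [lintegral_Jm p 0 u w hΦ, h, Measure.restrict_univ, Measure.pi_of_empty,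
    lintegral_dirac' _ (show Measurable (fun v : Fin 0 → Pt => Φ (List.ofFn v)) from
      hΦ.comp (measurable_ofFn 0))]
  simp

private theorem measurable_cons_pi (n : ℕ) :
    Measurable (fun q : Pt × (Fin n → Pt) => (Fin.cons q.1 q.2 : Fin (n + 1) → Pt)) := by
  refine measurable_pi_lambda _ fun i => ?_
  refine Fin.cases ?_ (fun j => ?_) i
  · exact measurable_fst
  · exact (measurable_pi_apply j).comp measurable_snd

private theorem measurable_cons_list : Measurable (fun q : Pt × List Pt => q.1 :: q.2) := by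
  refine measurable_list_param fun n => ?_
  have h : (fun q : Pt × (Fin n → Pt) => ((q.1, List.ofFn q.2) : Pt × List Pt).1 ::
      ((q.1, List.ofFn q.2) : Pt × List Pt).2) =
      (fun v : Fin (n + 1) → Pt => List.ofFn v) ∘ (fun q : Pt × (Fin n → Pt) => Fin.cons q.1 q.2) := by
    funext q
    simp only [Function.comp]
    rw [List.ofFn_cons]
  rw [h]
  exact (measurable_ofFn (n + 1)).comp (measurable_cons_pi n)

private theorem cons_mem_SortedIn {n : ℕ} {u w : ℝ} (y : Pt) (v : Fin n → Pt) :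
    (Fin.cons y v : Fin (n + 1) → Pt) ∈ SortedIn (n + 1) u w ↔
      y.1 ∈ Ioo u w ∧ v ∈ SortedIn n y.1 w := by
  constructor
  · rintro ⟨h1, h2⟩
    refine ⟨by simpa using h1 0, fun i => ⟨?_, ?_⟩, fun i j hij => ?_⟩
    · have h := h2 (Fin.succ_pos i)
      simpa using h
    · have h := (h1 i.succ).2
      simpa using h
    · have h := h2 (Fin.succ_lt_succ_iff.2 hij)
      simpa using h
  · rintro ⟨⟨hy1, hy2⟩, h1, h2⟩
    refine ⟨fun i => ?_, fun i j hij => ?_⟩
    · refine Fin.cases ?_ (fun i => ?_) i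
      · simpa using ⟨hy1, hy2⟩
      · simpa using ⟨hy1.trans (h1 i).1, (h1 i).2⟩
    · revert hij
      refine Fin.cases ?_ (fun j => ?_) j
      · intro h
        exact absurd h (Fin.not_lt_zero _)
      · refine Fin.cases ?_ (fun i => ?_) i
        · intro _
          simpa using (h1 j).1
        · intro h
          simpa using h2 (Fin.succ_lt_succ_iff.1 h)

theorem lintegral_Jm_succ (p : Fin 3 → ℝ) (n : ℕ) (u w : ℝ) {Φ : List Pt → ENNReal}
    (hΦ : Measurable Φ) :
    ∫⁻ l, Φ l ∂(Jm p (n + 1) u w)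
      = ∫⁻ t in Ioo u w, ∑ c : Fin 3, ENNReal.ofReal (p c) * ∫⁻ l, Φ ((t, c) :: l) ∂(Jm p n t w) := by
  classical
  -- the integrand
  obtain ⟨F, hF⟩ : ∃ F : (Fin (n + 1) → Pt) → ENNReal,
      F = (SortedIn (n + 1) u w).indicator (fun v => Φ (List.ofFn v)) := ⟨_, rfl⟩
  have hFm : Measurable F := by
    rw [hF]
    exact (hΦ.comp (measurable_ofFn (n + 1))).indicator (measurableSet_SortedIn _ _ _)
  have hcm : Measurable (fun q : Pt × (Fin n → Pt) => (Fin.cons q.1 q.2 : Fin (n + 1) → Pt)) :=
    measurable_cons_pi n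
  obtain ⟨H, hH⟩ : ∃ H : Pt → ENNReal, H = fun y => ∫⁻ v, F (Fin.cons y v)
      ∂(Measure.pi (fun _ : Fin n => muP p)) := ⟨_, rfl⟩
  have hHm : Measurable H := by
    rw [hH]
    exact (hFm.comp hcm).lintegral_prod_right'
  have h1 : ∫⁻ v in SortedIn (n + 1) u w, Φ (List.ofFn v)
      ∂(Measure.pi (fun _ : Fin (n + 1) => muP p)) = ∫⁻ y, H y ∂(muP p) := by
    rw [← lintegral_indicator (measurableSet_SortedIn _ _ _), ← hF]
    have hmp := (measurePreserving_piFinSuccAbove (fun _ : Fin (n + 1) => muP p) 0).symm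
    have h : ∀ q : Pt × (Fin n → Pt),
        F ((MeasurableEquiv.piFinSuccAbove (fun _ : Fin (n + 1) => Pt) 0).symm q) =
        F (Fin.cons q.1 q.2) := fun q => congrArg F (Fin.insertNth_zero' q.1 q.2)
    rw [← hmp.lintegral_comp hFm, lintegral_congr h,
      lintegral_prod (fun q : Pt × (Fin n → Pt) => F (Fin.cons q.1 q.2))
        (hFm.comp hcm).aemeasurable, hH]
  have h2 : ∀ y : Pt, H y = (Ioo u w).indicator (fun _ : ℝ =>
      ∫⁻ l, Φ (y :: l) ∂(Jm p n y.1 w)) y.1 := by
    intro y
    have hΦy : Measurable (fun l : List Pt => Φ (y :: l)) :=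
      hΦ.comp (measurable_cons_list.comp (measurable_const.prodMk measurable_id))
    by_cases hy : y.1 ∈ Ioo u w
    · rw [indicator_of_mem hy, lintegral_Jm p n y.1 w hΦy,
        ← lintegral_indicator (measurableSet_SortedIn _ _ _), hH]
      refine lintegral_congr fun v => ?_
      rw [hF]
      by_cases hv : v ∈ SortedIn n y.1 w
      · rw [indicator_of_mem hv, indicator_of_mem ((cons_mem_SortedIn y v).2 ⟨hy, hv⟩),
          List.ofFn_cons]
      · rw [indicator_of_notMem hv, indicator_of_notMem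
          (fun h => hv ((cons_mem_SortedIn y v).1 h).2)]
    · rw [indicator_of_notMem hy, hH]
      have h : ∀ v : Fin n → Pt, F (Fin.cons y v) = 0 := fun v => by
        rw [hF]
        exact indicator_of_notMem (fun h => hy ((cons_mem_SortedIn y v).1 h).1) _
      simp only [h, lintegral_zero]
  rw [lintegral_Jm p (n + 1) u w hΦ, h1]
  unfold muP
  rw [lintegral_prod _ hHm.aemeasurable, ← lintegral_indicator measurableSet_Ioo]
  refine lintegral_congr fun t => ?_
  have h3 : Measurable (fun c : Fin 3 => H (t, c)) := measurable_of_finite _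
  rw [colM, lintegral_finsetSum_measure]
  by_cases ht : t ∈ Ioo u w
  · rw [indicator_of_mem ht]
    refine Finset.sum_congr rfl fun c _ => ?_
    rw [lintegral_smul_measure, lintegral_dirac' _ h3, h2, indicator_of_mem ht, smul_eq_mul]
  · rw [indicator_of_notMem ht]
    refine Finset.sum_eq_zero fun c _ => ?_
    rw [lintegral_smul_measure, lintegral_dirac' _ h3, h2, indicator_of_notMem ht, smul_zero]

theorem ae_Jm (p : Fin 3 → ℝ) (n : ℕ) (u w : ℝ) :
    ∀ᵐ l ∂(Jm p n u w), SL u w l ∧ l.length = n := by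
  unfold Jm
  have hm : ∀ m : ℕ, (fun v : Fin m → Pt => List.ofFn v) ⁻¹' {l | SL u w l ∧ l.length = n} =
      {v | v ∈ SortedIn m u w ∧ m = n} := by
    intro m
    ext v
    simp only [mem_preimage, mem_ofPred_eq, SL, List.pairwise_ofFn, List.forall_mem_ofFn_iff,
      List.length_ofFn, SortedIn]
    constructor
    · rintro ⟨⟨h1, h2⟩, h3⟩
      exact ⟨⟨h2, fun i j h => h1 h⟩, h3⟩
    · rintro ⟨⟨h1, h2⟩, h3⟩
      exact ⟨⟨fun i j h => h2 h, h1⟩, h3⟩
  have hms : MeasurableSet {l : List Pt | SL u w l ∧ l.length = n} := by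
    refine measurableSet_list_iff.2 fun m => ?_
    rw [hm m]
    by_cases h : m = n
    · simp only [h, and_true, ofPred_mem_eq]
      exact measurableSet_SortedIn _ _ _
    · simp only [h, and_false, ofPred_false]
      exact MeasurableSet.empty
  rw [ae_map_iff (measurable_ofFn n).aemeasurable hms]
  filter_upwards [ae_restrict_mem (measurableSet_SortedIn n u w)] with v hv
  have h : v ∈ (fun v : Fin n → Pt => List.ofFn v) ⁻¹' {l | SL u w l ∧ l.length = n} := by
    rw [hm n]
    exact ⟨hv, rfl⟩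
  exact h

end Pool.SM3
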