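/-
SM3.A4 : masses; `Pm` is a probability measure; parity; second moment.
PROOF. `Jm_univ`: induction on `n` with lintegral_Jm_succ (Φ = 1) and `∑ ofReal (p c) = 1`,
`∫_{u}^{w} (w-t)^n/n! dt = (w-u)^(n+1)/(n+1)!`.
`Pm` has mass `e^{-(w-u)} ∑ (w-u)^n/n! = 1`.
Under `Jm p n 0 z` the length is `n` a.e. (ae_Jm), so `(Pm p 0 z) {length = n} = e^{-z} z^n/n!`; the difference of the
even and odd parts is `e^{-z} ∑ (-z)^n/n! = e^{-2z}`; the second moment on `(0,1)` is
`e^{-1} ∑ n^2/n! = 2`.
-/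
import Pool.Agent.Lib.SM3.A2
import Pool.Agent.Lib.SM3.A3

set_option autoImplicit false

open MeasureTheory Set

namespace Pool.SM3

theorem lintegral_Pm (p : Fin 3 → ℝ) (u w : ℝ) (Φ : List Pt → ENNReal) :
    ∫⁻ l, Φ l ∂(Pm p u w)
      = ENNReal.ofReal (Real.exp (-(w - u))) * ∑' n : ℕ, ∫⁻ l, Φ l ∂(Jm p n u w) := by
  unfold Pm
  rw [lintegral_smul_measure, lintegral_sum_measure]
  rfl

private theorem a4_int (n : ℕ) {u w : ℝ} (h : u ≤ w) :
    ∫⁻ t in Ioo u w, ENNReal.ofReal ((w - t) ^ n / n.factorial)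
      = ENNReal.ofReal ((w - u) ^ (n + 1) / (n + 1).factorial) := by
  rw [restrict_Ioo_eq_restrict_Ioc]
  have hi : IntegrableOn (fun t => (w - t) ^ n / (n.factorial : ℝ)) (Ioc u w) :=
    ((by fun_prop : Continuous fun t => (w - t) ^ n / (n.factorial : ℝ)).integrableOn_Icc).mono_set
      Ioc_subset_Icc_self
  rw [← ofReal_integral_eq_lintegral_ofReal hi]
  · rw [← intervalIntegral.integral_of_le h]
    congr 1
    have hd : ∀ t ∈ uIcc u w, HasDerivAt (fun t => -((w - t) ^ (n + 1) / ((n + 1).factorial : ℝ)))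
        ((w - t) ^ n / (n.factorial : ℝ)) t := by
      intro t _
      have h1 : HasDerivAt (fun t => w - t) (-1) t := by
        simpa using (hasDerivAt_id t).const_sub w
      have h2 := ((h1.pow (n + 1)).div_const ((n + 1).factorial : ℝ)).neg
      refine h2.congr_deriv ?_
      have h3 : (n.factorial : ℝ) ≠ 0 := by positivity
      rw [Nat.factorial_succ]
      push_cast
      field_simp
    rw [intervalIntegral.integral_eq_sub_of_hasDerivAt hd]
    · simp
    · exact Continuous.intervalIntegrable (by fun_prop) _ _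
  · filter_upwards [self_mem_ae_restrict measurableSet_Ioc] with t ht
    have : 0 ≤ w - t := sub_nonneg.2 ht.2
    positivity

private theorem a4_sum {p : Fin 3 → ℝ} (hp : PV p) (x : ENNReal) :
    ∑ c : Fin 3, ENNReal.ofReal (p c) * x = x := by
  rw [← Finset.sum_mul, ← ENNReal.ofReal_sum_of_nonneg fun c _ => (hp.pos c).le, Fin.sum_univ_three,
    hp.sum, ENNReal.ofReal_one, one_mul]

private theorem a4_one {p : Fin 3 → ℝ} (hp : PV p) (n : ℕ) : ∀ {u w : ℝ}, u ≤ w →
    ∫⁻ _, 1 ∂(Jm p n u w) = ENNReal.ofReal ((w - u) ^ n / n.factorial) := by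
  induction n with
  | zero =>
    intro u w _
    rw [lintegral_Jm_zero p u w measurable_const]
    simp
  | succ n ih =>
    intro u w h
    rw [lintegral_Jm_succ p n u w measurable_const, ← a4_int n h]
    refine setLIntegral_congr_fun measurableSet_Ioo fun t ht => ?_
    rw [ih ht.2.le, a4_sum hp]

theorem Jm_univ {p : Fin 3 → ℝ} (hp : PV p) (n : ℕ) {u w : ℝ} (h : u ≤ w) :
    Jm p n u w univ = ENNReal.ofReal ((w - u) ^ n / n.factorial) := by
  rw [← a4_one hp n h, lintegral_one]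

private theorem a4_exp (z : ℝ) : HasSum (fun n : ℕ => z ^ n / (n.factorial : ℝ)) (Real.exp z) := by
  rw [Real.exp_eq_exp_ℝ]
  exact NormedSpace.expSeries_div_hasSum_exp z

theorem isProb_Pm {p : Fin 3 → ℝ} (hp : PV p) {u w : ℝ} (h : u ≤ w) :
    IsProbabilityMeasure (Pm p u w) := by
  constructor
  have h1 := lintegral_Pm p u w (fun _ => 1)
  rw [lintegral_one] at h1
  rw [h1]
  have h2 : ∀ n : ℕ, ∫⁻ _, 1 ∂(Jm p n u w) = ENNReal.ofReal ((w - u) ^ n / n.factorial) := fun n =>
    a4_one hp n h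
  simp only [h2]
  rw [← ENNReal.ofReal_tsum_of_nonneg (fun n => by
      have : 0 ≤ w - u := sub_nonneg.2 h
      positivity) (a4_exp (w - u)).summable, (a4_exp (w - u)).tsum_eq,
    ← ENNReal.ofReal_mul (Real.exp_nonneg _), ← Real.exp_add]
  simp

theorem ae_Pm (p : Fin 3 → ℝ) (u w : ℝ) : ∀ᵐ l ∂(Pm p u w), SL u w l := by
  unfold Pm
  refine Measure.ae_smul_measure ?_ _
  rw [Measure.ae_sum_iff]
  intro n
  filter_upwards [ae_Jm p n u w] with l hl
  exact hl.1

private theorem a4_Jset {p : Fin 3 → ℝ} (hp : PV p) (n : ℕ) {z : ℝ} (hz : 0 ≤ z) (e : ℕ) :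
    Jm p n 0 z {l | l.length % 2 = e}
      = ENNReal.ofReal (if n % 2 = e then z ^ n / n.factorial else 0) := by
  by_cases h : n % 2 = e
  · rw [if_pos h]
    have h1 : ({l | l.length % 2 = e} : Set (List Pt)) =ᵐ[Jm p n 0 z] univ := by
      filter_upwards [ae_Jm p n 0 z] with l hl
      exact propext ⟨fun _ => trivial, fun _ => by
        show l.length % 2 = e
        rw [hl.2, h]⟩
    rw [measure_congr h1, Jm_univ hp n hz, sub_zero]
  · rw [if_neg h, ENNReal.ofReal_zero]
    refine measure_eq_zero_iff_ae_notMem.2 ?_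
    filter_upwards [ae_Jm p n 0 z] with l hl
    show ¬ l.length % 2 = e
    rw [hl.2]
    exact h

private theorem a4_Pset {p : Fin 3 → ℝ} (hp : PV p) {z : ℝ} (hz : 0 ≤ z) (e : ℕ) :
    (Pm p 0 z).real {l | l.length % 2 = e}
      = Real.exp (-z) * ∑' n : ℕ, (if n % 2 = e then z ^ n / (n.factorial : ℝ) else 0) := by
  have hm : MeasurableSet ({l | l.length % 2 = e} : Set (List Pt)) :=
    measurable_lengthL (MeasurableSet.of_discrete (s := {k : ℕ | k % 2 = e}))
  have hs : Summable (fun n : ℕ => if n % 2 = e then z ^ n / (n.factorial : ℝ) else 0) := by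
    refine Summable.of_nonneg_of_le (fun n => ?_) (fun n => ?_) (a4_exp z).summable
    · split_ifs
      · positivity
      · exact le_rfl
    · split_ifs
      · exact le_rfl
      · positivity
  have h1 := lintegral_Pm p 0 z (indicator {l | l.length % 2 = e} 1)
  rw [lintegral_indicator_one hm] at h1
  simp only [lintegral_indicator_one hm, a4_Jset hp _ hz e] at h1
  rw [← ENNReal.ofReal_tsum_of_nonneg (fun n => by
      split_ifs
      · positivity
      · exact le_rfl) hs, ← ENNReal.ofReal_mul (Real.exp_nonneg _)] at h1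
  rw [Measure.real, h1, ENNReal.toReal_ofReal, sub_zero]
  refine mul_nonneg (Real.exp_nonneg _) (tsum_nonneg fun n => ?_)
  split_ifs
  · positivity
  · exact le_rfl

theorem Pm_parity {p : Fin 3 → ℝ} (hp : PV p) {z : ℝ} (hz : 0 ≤ z) :
    (Pm p 0 z).real {l | l.length % 2 = 0} - (Pm p 0 z).real {l | l.length % 2 = 1}
      = Real.exp (-(2 * z)) := by
  have hs : ∀ e : ℕ, Summable (fun n : ℕ => if n % 2 = e then z ^ n / (n.factorial : ℝ) else 0) := by
    intro e
    refine Summable.of_nonneg_of_le (fun n => ?_) (fun n => ?_) (a4_exp z).summable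
    · split_ifs
      · positivity
      · exact le_rfl
    · split_ifs
      · exact le_rfl
      · positivity
  rw [a4_Pset hp hz 0, a4_Pset hp hz 1, ← mul_sub, ← (hs 0).tsum_sub (hs 1)]
  have h1 : ∀ n : ℕ, ((if n % 2 = 0 then z ^ n / (n.factorial : ℝ) else 0) -
      (if n % 2 = 1 then z ^ n / (n.factorial : ℝ) else 0)) = (-z) ^ n / (n.factorial : ℝ) := by
    intro n
    rcases Nat.mod_two_eq_zero_or_one n with h | h
    · rw [if_pos h, if_neg (by omega), sub_zero, Even.neg_pow (Nat.even_iff.2 h)]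
    · rw [if_neg (by omega), if_pos h, zero_sub, Odd.neg_pow (Nat.odd_iff.2 h), neg_div]
  simp only [h1]
  rw [(a4_exp (-z)).tsum_eq, ← Real.exp_add]
  congr 1
  ring

private theorem a4_sq : HasSum (fun n : ℕ => (n : ℝ) ^ 2 * (1 / (n.factorial : ℝ))) (2 * Real.exp 1) := by
  have h0 := a4_exp 1
  simp only [one_pow] at h0
  have h1 : HasSum (fun n : ℕ => (n : ℝ) * (1 / (n.factorial : ℝ))) (Real.exp 1) := by
    rw [← hasSum_nat_add_iff' 1]
    simp only [Finset.range_one, Finset.sum_singleton, Nat.cast_zero, zero_mul, sub_zero]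
    refine h0.congr_fun fun n => ?_
    rw [Nat.factorial_succ]
    push_cast
    field_simp
  rw [← hasSum_nat_add_iff' 1]
  simp only [Finset.range_one, Finset.sum_singleton, Nat.cast_zero]
  have h2 := h1.add h0
  have e : (2 * Real.exp 1 - 0 ^ 2 * (1 / ((0 : ℕ).factorial : ℝ))) = Real.exp 1 + Real.exp 1 := by
    ring
  rw [e]
  refine h2.congr_fun fun n => ?_
  rw [Nat.factorial_succ]
  push_cast
  field_simp

theorem lintegral_length_sq {p : Fin 3 → ℝ} (hp : PV p) :
    ∫⁻ l, (l.length : ENNReal) ^ 2 ∂(Pm p 0 1) = 2 := by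
  rw [lintegral_Pm]
  have h1 : ∀ n : ℕ, ∫⁻ l, (l.length : ENNReal) ^ 2 ∂(Jm p n 0 1)
      = ENNReal.ofReal ((n : ℝ) ^ 2 * (1 / (n.factorial : ℝ))) := by
    intro n
    have h2 : ∫⁻ l, (l.length : ENNReal) ^ 2 ∂(Jm p n 0 1)
        = ∫⁻ _, (n : ENNReal) ^ 2 ∂(Jm p n 0 1) := by
      refine lintegral_congr_ae ?_
      filter_upwards [ae_Jm p n 0 1] with l hl
      rw [hl.2]
    rw [h2, lintegral_const, Jm_univ hp n zero_le_one, ENNReal.ofReal_mul (by positivity),
      ENNReal.ofReal_pow (by positivity), ENNReal.ofReal_natCast]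
    simp
  simp only [h1]
  rw [← ENNReal.ofReal_tsum_of_nonneg (fun n => by positivity) a4_sq.summable, a4_sq.tsum_eq,
    ← ENNReal.ofReal_mul (Real.exp_nonneg _)]
  have h3 : Real.exp (-(1 - 0)) * (2 * Real.exp 1) = 2 := by
    rw [mul_left_comm, ← Real.exp_add]
    simp
  rw [h3]
  simp

end Pool.SM3
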