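/-
SM3.A10 : reflection.
PROOF. For each `n`: `∫⁻ Φ ∂Jm n u w = ∫⁻ v in SortedIn n u w, Φ (ofFn v) ∂pi` (lintegral_Jm).  The map
`T v = fun i => ρ (v (Fin.rev i))`, `ρ y = (u+w-y.1, y.2)`, preserves `Measure.pi (fun _ => muP p)` (permutation of the
coordinates: `measurePreserving_piCongrLeft` (with `Fin.revPerm`), and `measurePreserving_pi` with `ρ` preserving
`muP p = volume.prod (colM p)`: `Measure.measurePreserving_sub_left`/`measurePreserving.prod`) and maps SortedIn n u w onto
itself; `List.ofFn (T v) = ((ofFn v).map ρ).reverse` (List.ofFn_rev or ext on indices).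
-/
import Pool.Agent.Lib.SM3.A4

set_option autoImplicit false

open MeasureTheory Set

namespace Pool.SM3

private noncomputable def A10_rho (u w : ℝ) (y : Pt) : Pt := (u + w - y.1, y.2)

private noncomputable def A10_T (n : ℕ) (u w : ℝ) (v : Fin n → Pt) : Fin n → Pt :=
  fun i => A10_rho u w (v (Fin.rev i))

private theorem A10_rho_mp (p : Fin 3 → ℝ) (u w : ℝ) :
    MeasurePreserving (A10_rho u w) (muP p) (muP p) := by
  unfold muP
  exact (Measure.measurePreserving_sub_left (volume : Measure ℝ) (u + w)).prod (MeasurePreserving.id (colM p))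

private theorem A10_T_mp (p : Fin 3 → ℝ) (n : ℕ) (u w : ℝ) :
    MeasurePreserving (A10_T n u w) (Measure.pi (fun _ : Fin n => muP p))
      (Measure.pi (fun _ : Fin n => muP p)) := by
  have h1 := measurePreserving_piCongrLeft (α := fun _ : Fin n => Pt) (fun _ => muP p)
    (Fin.revPerm (n := n))
  have h2 := measurePreserving_pi (fun _ : Fin n => muP p) (fun _ => muP p)
    (f := fun _ => A10_rho u w) (fun _ => A10_rho_mp p u w)
  have h3 := h1.comp h2
  have h4 : A10_T n u w = (MeasurableEquiv.piCongrLeft (fun _ : Fin n => Pt) (Fin.revPerm (n := n))) ∘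
      (fun a i => A10_rho u w (a i)) := by
    funext v i
    obtain ⟨j, rfl⟩ := (Fin.revPerm (n := n)).surjective i
    rw [Function.comp_apply, MeasurableEquiv.coe_piCongrLeft, Equiv.piCongrLeft_apply_apply]
    simp [A10_T]
  rw [h4]
  exact h3

private theorem A10_T_T (n : ℕ) (u w : ℝ) (v : Fin n → Pt) : A10_T n u w (A10_T n u w v) = v := by
  funext i
  simp only [A10_T, A10_rho, Fin.rev_rev]
  ext
  · simp
  · simp

private theorem A10_mem {n : ℕ} {u w : ℝ} {v : Fin n → Pt} (hv : v ∈ SortedIn n u w) :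
    A10_T n u w v ∈ SortedIn n u w := by
  obtain ⟨h1, h2⟩ := hv
  refine ⟨fun i => ?_, fun i j hij => ?_⟩
  · have h3 := h1 (Fin.rev i)
    simp only [A10_T, A10_rho]
    constructor <;> linarith [h3.1, h3.2]
  · have h3 := h2 (Fin.rev_lt_rev.2 hij)
    simp only at h3
    simp only [A10_T, A10_rho]
    linarith

private theorem A10_list (n : ℕ) (u w : ℝ) (v : Fin n → Pt) :
    List.ofFn (A10_T n u w v) = ((List.ofFn v).map (fun y : Pt => (u + w - y.1, y.2))).reverse := by
  apply List.ext_getElem
  · simp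
  · intro i h1 h2
    rw [List.length_ofFn] at h1
    rw [List.getElem_reverse, List.getElem_map, List.getElem_ofFn, List.getElem_ofFn]
    simp only [A10_T, A10_rho, List.length_map, List.length_ofFn]
    have h3 : Fin.rev (⟨i, h1⟩ : Fin n) = ⟨n - 1 - i, by omega⟩ := by
      ext
      simp only [Fin.val_rev]
      omega
    rw [h3]

theorem lintegral_Pm_reflect (p : Fin 3 → ℝ) (u w : ℝ) {Φ : List Pt → ENNReal} (hΦ : Measurable Φ) :
    ∫⁻ l, Φ l ∂(Pm p u w)
      = ∫⁻ l, Φ ((l.map (fun y : Pt => (u + w - y.1, y.2))).reverse) ∂(Pm p u w) := by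
  have hρ : Measurable (fun y : Pt => ((u + w - y.1, y.2) : Pt)) :=
    (measurable_fst.const_sub (u + w)).prodMk measurable_snd
  have hΦ' : Measurable (fun l : List Pt => Φ ((l.map (fun y : Pt => (u + w - y.1, y.2))).reverse)) :=
    hΦ.comp (measurable_reverseL.comp (measurable_mapL hρ))
  rw [lintegral_Pm, lintegral_Pm]
  congr 1
  refine tsum_congr fun n => ?_
  rw [lintegral_Jm p n u w hΦ, lintegral_Jm p n u w hΦ']
  have hpre : A10_T n u w ⁻¹' (SortedIn n u w) = SortedIn n u w := by
    ext v
    constructor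
    · intro h
      have h5 := A10_mem h
      rwa [A10_T_T] at h5
    · intro h
      exact A10_mem h
  have hm : Measurable (fun v : Fin n → Pt => Φ (List.ofFn v)) := hΦ.comp (measurable_ofFn n)
  rw [← (A10_T_mp p n u w).setLIntegral_comp_preimage (measurableSet_SortedIn n u w) hm, hpre]
  refine lintegral_congr fun v => ?_
  rw [A10_list]

end Pool.SM3
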