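/-
SM3.A11 : almost every configuration is generic.
PROOF. Enough: for every `n`, for a.e. `v : Fin n → Pt` under `pi (muP p)` (no restriction): for all `i, j, k`:
`(v i).1 ≠ (v j).1` (i ≠ j), `2 (v i).1 ≠ (v j).1 + (v k).1` (i ∉ {j,k}), `2 (v i).1 ≠ (v j).1 + u`, `2 (v i).1 ≠ (v j).1 + w`
(i ≠ j), `2 (v i).1 ≠ u + w`, `(v i).1 + (v j).1 ≠ u + w`.  Each is of the form `(v i).1 ≠ g (the other coordinates)`, a null set: `measurePreserving_piFinSuccAbove _ i` + Fubini
(`measure_prod_null`): a single position has `muP p`-measure zero (`{t} ×ˢ univ`).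
For `v ∈ SortedIn n u w` with these properties, `NoIso (cl u a w b (ofFn v))` and `NoTie u w (ofFn v)`: if
`|x-y| = |x-z|` and `y ≠ z` then (positions of different points are different) `2x = y + z`, and `x` is neither `(u,a)` nor `(w,b)` (all points are in `[u,w]`), so
`x = v i`, with `y, z` two different points among `(u,a)`, `(w,b)`, `v j`, none of them at the position of `x`.
Then pass to `Pm` (ae of a map, restrict, sum, smul of measures).
-/
import Pool.Agent.Lib.SM3.A4

set_option autoImplicit false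

open MeasureTheory Set

namespace Pool.SM3

private theorem a11_emb (n : ℕ) : MeasurableEmbedding (fun v : Fin n → Pt => List.ofFn v) where
  injective := List.ofFn_injective
  measurable := measurable_ofFn n
  measurableSet_image' := by
    intro B hB
    rw [measurableSet_list_iff]
    intro m
    by_cases h : m = n
    · subst h
      rw [preimage_image_eq _ List.ofFn_injective]
      exact hB
    · have he : (fun v : Fin m → Pt => List.ofFn v) ⁻¹' ((fun v : Fin n → Pt => List.ofFn v) '' B)
          = ∅ := by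
        ext v
        simp only [mem_preimage, mem_image, mem_empty_iff_false, iff_false]
        rintro ⟨v', -, h'⟩
        have h1 := congrArg List.length h'
        rw [List.length_ofFn, List.length_ofFn] at h1
        exact h h1.symm
      rw [he]
      exact MeasurableSet.empty

private theorem a11_pos (p : Fin 3 → ℝ) (t : ℝ) : muP p {y : Pt | y.1 = t} = 0 := by
  have h : {y : Pt | y.1 = t} = ({t} : Set ℝ) ×ˢ (univ : Set (Fin 3)) := by
    ext y
    simp
  rw [h, muP, Measure.prod_prod, Real.volume_singleton, zero_mul]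

private theorem a11_avoid (p : Fin 3 → ℝ) {n : ℕ} (i : Fin n) {g : (Fin n → Pt) → ℝ}
    (hg : Measurable g) (hi : ∀ v y, g (Function.update v i y) = g v) :
    ∀ᵐ v ∂(Measure.pi (fun _ : Fin n => muP p)), (v i).1 ≠ g v := by
  cases n with
  | zero => exact i.elim0
  | succ m =>
    have hmp := measurePreserving_piFinSuccAbove (fun _ : Fin (m + 1) => muP p) i
    set e := MeasurableEquiv.piFinSuccAbove (fun _ : Fin (m + 1) => Pt) i with he
    have hS : MeasurableSet {q : Pt × (Fin m → Pt) | q.1.1 = g (e.symm q)} :=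
      measurableSet_eq_fun (measurable_fst.comp measurable_fst) (hg.comp e.symm.measurable)
    have h0 : ((muP p).prod (Measure.pi fun _ : Fin m => muP p))
        {q : Pt × (Fin m → Pt) | q.1.1 = g (e.symm q)} = 0 := by
      rw [Measure.prod_apply_symm hS]
      refine lintegral_eq_zero_of_ae_eq_zero (Filter.Eventually.of_forall fun w => ?_)
      show muP p ((fun y : Pt => (y, w)) ⁻¹' {q : Pt × (Fin m → Pt) | q.1.1 = g (e.symm q)}) = 0
      have h1 : ((fun y : Pt => (y, w)) ⁻¹' {q : Pt × (Fin m → Pt) | q.1.1 = g (e.symm q)}) =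
          {y : Pt | y.1 = g (e.symm ((0, 0), w))} := by
        ext y
        simp only [mem_preimage, mem_ofPred_eq]
        have h2 : e.symm (y, w) = Function.update (e.symm ((0, 0), w)) i y :=
          (Fin.update_insertNth (α := fun _ => Pt) i ((0, 0) : Pt) y w).symm
        rw [h2, hi]
      rw [h1]
      exact a11_pos p _
    have h3 := hmp.measure_preimage hS.nullMeasurableSet
    rw [h0] at h3
    rw [ae_iff]
    rw [← h3]
    congr 1
    ext v
    simp only [mem_preimage, mem_ofPred_eq, not_not, ne_eq, MeasurableEquiv.symm_apply_apply]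
    rfl

private noncomputable def a11E (u w : ℝ) {n : ℕ} (v : Fin n → Pt) : Fin n ⊕ Bool → ℝ
  | Sum.inl j => (v j).1
  | Sum.inr false => u
  | Sum.inr true => w

private theorem a11_meas (u w : ℝ) {n : ℕ} (y : Fin n ⊕ Bool) :
    Measurable (fun v : Fin n → Pt => a11E u w v y) := by
  rcases y with j | b
  · exact measurable_fst.comp (measurable_pi_apply j)
  · cases b
    · exact measurable_const
    · exact measurable_const

private theorem a11_upd (u w : ℝ) {n : ℕ} (i : Fin n) (y : Fin n ⊕ Bool) (hy : y ≠ Sum.inl i)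
    (v : Fin n → Pt) (z : Pt) : a11E u w (Function.update v i z) y = a11E u w v y := by
  rcases y with j | b
  · have hj : j ≠ i := fun h => hy (by rw [h])
    show (Function.update v i z j).1 = (v j).1
    rw [Function.update_of_ne hj]
  · cases b <;> rfl

private def a11G (u w : ℝ) {n : ℕ} (v : Fin n → Pt) : Prop :=
  (∀ (i : Fin n) (y z : Fin n ⊕ Bool), y ≠ Sum.inl i → z ≠ Sum.inl i →
    2 * (v i).1 ≠ a11E u w v y + a11E u w v z) ∧
  ∀ i j : Fin n, j ≠ i → (v i).1 + (v j).1 ≠ u + w

private theorem a11_ae (p : Fin 3 → ℝ) (u w : ℝ) (n : ℕ) :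
    ∀ᵐ v ∂(Measure.pi (fun _ : Fin n => muP p)), a11G u w v := by
  refine Filter.Eventually.and ?_ ?_
  · refine ae_all_iff.2 fun i => ae_all_iff.2 fun y => ae_all_iff.2 fun z => ?_
    by_cases hy : y = Sum.inl i
    · exact Filter.Eventually.of_forall fun v h => absurd hy h
    by_cases hz : z = Sum.inl i
    · exact Filter.Eventually.of_forall fun v _ h => absurd hz h
    filter_upwards [a11_avoid p i (g := fun v => (a11E u w v y + a11E u w v z) / 2)
      (((a11_meas u w y).add (a11_meas u w z)).div_const 2)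
      (fun v x => by simp only [a11_upd u w i y hy v x, a11_upd u w i z hz v x])] with v hv _ _ h
    exact hv (by linarith)
  · refine ae_all_iff.2 fun i => ae_all_iff.2 fun j => ?_
    by_cases hj : j = i
    · exact Filter.Eventually.of_forall fun v h => absurd hj h
    filter_upwards [a11_avoid p i (g := fun v => u + w - (v j).1)
      (measurable_const.sub (measurable_fst.comp (measurable_pi_apply j)))
      (fun v x => by simp only [Function.update_of_ne hj])] with v hv _ h
    exact hv (by linarith)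

/-- every point of the closed system is an extended index -/
private theorem a11_idx {u w : ℝ} {a b : Fin 3} {n : ℕ} {v : Fin n → Pt} {x : Pt}
    (hx : x ∈ cl u a w b (List.ofFn v)) :
    ∃ e : Fin n ⊕ Bool, x.1 = a11E u w v e ∧
      ((e = Sum.inr false ∧ x = (u, a)) ∨ (e = Sum.inr true ∧ x = (w, b)) ∨
        ∃ j, e = Sum.inl j ∧ x = v j) := by
  have h1 : x ∈ (u, a) :: (w, b) :: List.ofFn v := hx
  rw [List.mem_cons, List.mem_cons, List.mem_ofFn] at h1
  rcases h1 with h | h | ⟨j, h⟩
  · exact ⟨Sum.inr false, by rw [h]; rfl, Or.inl ⟨rfl, h⟩⟩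
  · exact ⟨Sum.inr true, by rw [h]; rfl, Or.inr (Or.inl ⟨rfl, h⟩)⟩
  · exact ⟨Sum.inl j, by rw [← h]; rfl, Or.inr (Or.inr ⟨j, rfl, h.symm⟩)⟩

private theorem a11_det {u w : ℝ} (h : u < w) (a b : Fin 3) {n : ℕ} {v : Fin n → Pt}
    (hs : v ∈ SortedIn n u w) (hg : a11G u w v) :
    NoIso (cl u a w b (List.ofFn v)) ∧ NoTie u w (List.ofFn v) := by
  obtain ⟨hin, hmono⟩ := hs
  have hposv : ∀ i j : Fin n, (v i).1 = (v j).1 → i = j := fun i j hij => hmono.injective hij
  have hpos : ∀ y ∈ cl u a w b (List.ofFn v), ∀ z ∈ cl u a w b (List.ofFn v), y.1 = z.1 → y = z := by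
    intro y hy z hz hyz
    obtain ⟨e, -, he⟩ := a11_idx hy
    obtain ⟨e', -, he'⟩ := a11_idx hz
    rcases he with ⟨-, h1⟩ | ⟨-, h1⟩ | ⟨j, -, h1⟩ <;> rcases he' with ⟨-, h2⟩ | ⟨-, h2⟩ | ⟨k, -, h2⟩
    · rw [h1, h2]
    · rw [h1, h2] at hyz
      exact absurd hyz h.ne
    · rw [h1, h2] at hyz
      exact absurd hyz (hin k).1.ne
    · rw [h1, h2] at hyz
      exact absurd hyz h.ne'
    · rw [h1, h2]
    · rw [h1, h2] at hyz
      exact absurd hyz (hin k).2.ne'
    · rw [h1, h2] at hyz
      exact absurd hyz (hin j).1.ne'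
    · rw [h1, h2] at hyz
      exact absurd hyz (hin j).2.ne
    · rw [h1, h2] at hyz ⊢
      rw [hposv j k hyz]
  have hrange : ∀ y ∈ cl u a w b (List.ofFn v), u ≤ y.1 ∧ y.1 ≤ w := by
    intro y hy
    obtain ⟨e, -, he⟩ := a11_idx hy
    rcases he with ⟨-, h1⟩ | ⟨-, h1⟩ | ⟨j, -, h1⟩
    · rw [h1]
      exact ⟨le_rfl, h.le⟩
    · rw [h1]
      exact ⟨h.le, le_rfl⟩
    · rw [h1]
      exact ⟨(hin j).1.le, (hin j).2.le⟩
  constructor
  · intro x hx y hy z hz hxyz
    by_cases hyz : y.1 = z.1
    · exact hpos y hy z hz hyz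
    exfalso
    have hsum : 2 * x.1 = y.1 + z.1 := by
      rcases abs_eq_abs.1 hxyz with h1 | h1
      · exact absurd (by linarith) hyz
      · linarith
    obtain ⟨e, -, he⟩ := a11_idx hx
    obtain ⟨hy1, hy2⟩ := hrange y hy
    obtain ⟨hz1, hz2⟩ := hrange z hz
    rcases he with ⟨-, h1⟩ | ⟨-, h1⟩ | ⟨i, -, h1⟩
    · rw [h1] at hsum
      simp only at hsum
      exact hyz (by linarith)
    · rw [h1] at hsum
      simp only at hsum
      exact hyz (by linarith)
    · obtain ⟨ey, hey, hey'⟩ := a11_idx hy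
      obtain ⟨ez, hez, hez'⟩ := a11_idx hz
      rw [h1, hey, hez] at hsum
      have hne : ∀ (t : Pt) (et : Fin n ⊕ Bool), t.1 = a11E u w v et → t.1 ≠ x.1 →
          et ≠ Sum.inl i := by
        intro t et h3 h4 h5
        rw [h5] at h3
        rw [h1] at h4
        exact h4 h3
      refine hg.1 i ey ez (hne y ey hey fun h4 => ?_) (hne z ez hez fun h4 => ?_) hsum
      · have h5 : 2 * x.1 = y.1 + z.1 := by rw [hey, hez, ← hsum, h1]
        exact hyz (by linarith)
      · have h5 : 2 * x.1 = y.1 + z.1 := by rw [hey, hez, ← hsum, h1]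
        exact hyz (by linarith)
  · intro y hy y' hy' heq
    rw [List.mem_ofFn] at hy hy'
    obtain ⟨i, rfl⟩ := hy
    obtain ⟨j, rfl⟩ := hy'
    by_cases hij : j = i
    · subst hij
      refine hg.1 j (Sum.inr false) (Sum.inr true) (by simp) (by simp) ?_
      show 2 * (v j).1 = u + w
      linarith
    · exact hg.2 i j hij (by linarith)

theorem ae_generic (p : Fin 3 → ℝ) {u w : ℝ} (h : u < w) (a b : Fin 3) :
    ∀ᵐ l ∂(Pm p u w), NoIso (cl u a w b l) ∧ NoTie u w l := by
  unfold Pm
  refine Measure.ae_smul_measure ?_ _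
  rw [Measure.ae_sum_iff]
  intro n
  unfold Jm
  rw [(a11_emb n).ae_map_iff, ae_restrict_iff' (measurableSet_SortedIn n u w)]
  filter_upwards [a11_ae p u w n] with v hv hs
  exact a11_det h a b hs hv

end Pool.SM3
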