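/-
SM3.A5 : measurable dependence on parameters.
PROOF. By lintegral_Jm the integral is `∫⁻ v, indicator {v ∈ SortedIn n (u θ) (w θ)} (f θ (ofFn v)) ∂pi`; the integrand is
jointly measurable in `(θ, v)` (the set `{(θ,v) | v ∈ SortedIn n (u θ) (w θ)}` is given by finitely many measurable
inequalities); `Measurable.lintegral_prod_right'`.  For `Pm`: lintegral_Pm, `Measurable.tsum`.
For a measure of a set: `lintegral_indicator_one`, and `Measure.real = toReal`.
-/
import Pool.Agent.Lib.SM3.A4

set_option autoImplicit false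

open MeasureTheory Set

namespace Pool.SM3

theorem measurable_lintegral_Jm (p : Fin 3 → ℝ) (n : ℕ) {Θ : Type*} [MeasurableSpace Θ]
    {f : Θ → List Pt → ENNReal} (hf : Measurable (fun q : Θ × List Pt => f q.1 q.2))
    {u w : Θ → ℝ} (hu : Measurable u) (hw : Measurable w) :
    Measurable (fun θ => ∫⁻ l, f θ l ∂(Jm p n (u θ) (w θ))) := by
  have hfθ : ∀ θ, Measurable (f θ) := fun θ => hf.comp (measurable_const.prodMk measurable_id)
  have h1 : (fun θ => ∫⁻ l, f θ l ∂(Jm p n (u θ) (w θ))) = fun θ =>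
      ∫⁻ v, ({q : Θ × (Fin n → Pt) | q.2 ∈ SortedIn n (u q.1) (w q.1)}).indicator
        (fun q => f q.1 (List.ofFn q.2)) (θ, v) ∂(Measure.pi (fun _ : Fin n => muP p)) := by
    funext θ
    rw [lintegral_Jm p n _ _ (hfθ θ), ← lintegral_indicator (measurableSet_SortedIn n _ _)]
    rfl
  rw [h1]
  refine Measurable.lintegral_prod_right' (Measurable.indicator ?_ ?_)
  · exact hf.comp (measurable_fst.prodMk ((measurable_ofFn n).comp measurable_snd))
  · have hc : ∀ i : Fin n, Measurable (fun q : Θ × (Fin n → Pt) => (q.2 i).1) := fun i =>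
      measurable_fst.comp ((measurable_pi_apply i).comp measurable_snd)
    have hu' : Measurable (fun q : Θ × (Fin n → Pt) => u q.1) := hu.comp measurable_fst
    have hw' : Measurable (fun q : Θ × (Fin n → Pt) => w q.1) := hw.comp measurable_fst
    have h2 : {q : Θ × (Fin n → Pt) | q.2 ∈ SortedIn n (u q.1) (w q.1)} =
        (⋂ i : Fin n, ({q | u q.1 < (q.2 i).1} ∩ {q | (q.2 i).1 < w q.1})) ∩
          ⋂ i : Fin n, ⋂ j : Fin n, ⋂ (_ : i < j), {q | (q.2 i).1 < (q.2 j).1} := by
      ext q
      simp only [SortedIn, StrictMono, Set.mem_ofPred_eq, Set.mem_inter_iff, Set.mem_iInter]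
    rw [h2]
    refine MeasurableSet.inter (MeasurableSet.iInter fun i => ?_)
      (MeasurableSet.iInter fun i => MeasurableSet.iInter fun j => MeasurableSet.iInter fun _ => ?_)
    · exact (measurableSet_lt hu' (hc i)).inter (measurableSet_lt (hc i) hw')
    · exact measurableSet_lt (hc i) (hc j)

theorem measurable_lintegral_Pm (p : Fin 3 → ℝ) {Θ : Type*} [MeasurableSpace Θ]
    {f : Θ → List Pt → ENNReal} (hf : Measurable (fun q : Θ × List Pt => f q.1 q.2))
    {u w : Θ → ℝ} (hu : Measurable u) (hw : Measurable w) :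
    Measurable (fun θ => ∫⁻ l, f θ l ∂(Pm p (u θ) (w θ))) := by
  simp only [lintegral_Pm]
  refine Measurable.mul ?_ (Measurable.tsum fun n => measurable_lintegral_Jm p n hf hu hw)
  exact ENNReal.measurable_ofReal.comp (Real.measurable_exp.comp (hw.sub hu).neg)

theorem measurable_Pm_set (p : Fin 3 → ℝ) {Θ : Type*} [MeasurableSpace Θ]
    {Q : Θ → List Pt → Prop} (hQ : MeasurableSet {q : Θ × List Pt | Q q.1 q.2})
    {u w : Θ → ℝ} (hu : Measurable u) (hw : Measurable w) :
    Measurable (fun θ => Pm p (u θ) (w θ) {l | Q θ l}) := by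
  have hQθ : ∀ θ, MeasurableSet {l | Q θ l} := fun θ =>
    (measurable_const.prodMk measurable_id : Measurable fun l : List Pt => (θ, l)) hQ
  have h1 : (fun θ => Pm p (u θ) (w θ) {l | Q θ l}) = fun θ =>
      ∫⁻ l, ({q : Θ × List Pt | Q q.1 q.2}).indicator (fun _ => (1 : ENNReal)) (θ, l)
        ∂(Pm p (u θ) (w θ)) := by
    funext θ
    rw [← lintegral_indicator_one (hQθ θ)]
    rfl
  rw [h1]
  exact measurable_lintegral_Pm p
    (f := fun θ l => ({q : Θ × List Pt | Q q.1 q.2}).indicator (fun _ => (1 : ENNReal)) (θ, l))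
    (measurable_const.indicator hQ) hu hw

end Pool.SM3
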