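/-
SM3.A6 : Mecke's formula on sorted lists.
PROOF. Step 1 (induction on `n`, for all `u`, `Ψ`):
`∫⁻ l, splitSum Ψ l ∂Jm (n+1) u w = ∑ (k,m) ∈ antidiagonal n, ∫⁻ t in Ioo u w, ∑ c, ofReal (p c) *
   ∫⁻ l₁, ∫⁻ l₂, Ψ l₁ (t,c) l₂ ∂(Jm p m t w) ∂(Jm p k u t)`
(and `∫⁻ splitSum Ψ ∂Jm 0 = 0`).  By lintegral_Jm_succ the left side is
`∫⁻ x in Ioo u w, ∑ i, ofReal (p i) * ∫⁻ l, (Ψ [] (x,i) l + splitSum (Ψ_{(x,i)}) l) ∂Jm n x w`,
`Ψ_y l₁ z l₂ = Ψ (y :: l₁) z l₂`.  The first part is the term `k = 0`.  In the second part use the induction hypothesis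
(for `n = n'+1`), exchange `∫⁻ x in Ioo u w` and `∫⁻ t in Ioo x w` (Tonelli; write both with indicators of `u < x < t < w`; joint
measurability from A5), and read lintegral_Jm_succ backwards in the variable `x` on `(u,t)`:
`∫⁻ x in Ioo u t, ∑ i, ofReal (p i) * ∫⁻ l₁, F ((x,i) :: l₁) ∂Jm k x t = ∫⁻ l₁, F l₁ ∂Jm (k+1) u t`.
Step 2: sum over `n` (`ENNReal.tsum_add`, the sum over all `(k,m)`: `(Finset.sigmaAntidiagonalEquivProd)`,
`lintegral_tsum`), and `e^{-(w-u)} = e^{-(t-u)} e^{-(w-t)}`.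
-/
import Pool.Agent.Lib.SM3.A5

set_option autoImplicit false

open MeasureTheory Set

namespace Pool.SM3

private theorem a6_tri {H : ℝ → ℝ → ENNReal} (hH : Measurable (fun q : ℝ × ℝ => H q.1 q.2))
    (u w : ℝ) :
    ∫⁻ x in Ioo u w, (∫⁻ t in Ioo x w, H x t) = ∫⁻ t in Ioo u w, (∫⁻ x in Ioo u t, H x t) := by
  have hS : MeasurableSet {q : ℝ × ℝ | u < q.1 ∧ q.1 < q.2 ∧ q.2 < w} := by
    have h1 : {q : ℝ × ℝ | u < q.1 ∧ q.1 < q.2 ∧ q.2 < w} =
        {q : ℝ × ℝ | u < q.1} ∩ ({q | q.1 < q.2} ∩ {q | q.2 < w}) := by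
      ext q; simp only [Set.mem_ofPred_eq, Set.mem_inter_iff]
    rw [h1]
    exact (measurableSet_lt measurable_const measurable_fst).inter
      ((measurableSet_lt measurable_fst measurable_snd).inter
        (measurableSet_lt measurable_snd measurable_const))
  set S := {q : ℝ × ℝ | u < q.1 ∧ q.1 < q.2 ∧ q.2 < w} with hSdef
  have e1 : ∫⁻ x in Ioo u w, (∫⁻ t in Ioo x w, H x t) =
      ∫⁻ x, (∫⁻ t, S.indicator (fun q => H q.1 q.2) (x, t)) := by
    rw [← lintegral_indicator measurableSet_Ioo]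
    refine lintegral_congr fun x => ?_
    by_cases hx : x ∈ Ioo u w
    · rw [Set.indicator_of_mem hx, ← lintegral_indicator measurableSet_Ioo]
      refine lintegral_congr fun t => ?_
      by_cases ht : t ∈ Ioo x w
      · rw [Set.indicator_of_mem ht, Set.indicator_of_mem (show (x, t) ∈ S from
          ⟨hx.1, ht.1, ht.2⟩)]
      · rw [Set.indicator_of_notMem ht, Set.indicator_of_notMem]
        rintro ⟨_, h2, h3⟩
        exact ht ⟨h2, h3⟩
    · rw [Set.indicator_of_notMem hx]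
      symm
      refine (lintegral_congr fun t => ?_).trans lintegral_zero
      rw [Set.indicator_of_notMem]
      rintro ⟨h1, h2, h3⟩
      exact hx ⟨h1, lt_trans h2 h3⟩
  have e2 : ∫⁻ t in Ioo u w, (∫⁻ x in Ioo u t, H x t) =
      ∫⁻ t, (∫⁻ x, S.indicator (fun q => H q.1 q.2) (x, t)) := by
    rw [← lintegral_indicator measurableSet_Ioo]
    refine lintegral_congr fun t => ?_
    by_cases ht : t ∈ Ioo u w
    · rw [Set.indicator_of_mem ht, ← lintegral_indicator measurableSet_Ioo]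
      refine lintegral_congr fun x => ?_
      by_cases hx : x ∈ Ioo u t
      · rw [Set.indicator_of_mem hx, Set.indicator_of_mem (show (x, t) ∈ S from
          ⟨hx.1, hx.2, ht.2⟩)]
      · rw [Set.indicator_of_notMem hx, Set.indicator_of_notMem]
        rintro ⟨h1, h2, _⟩
        exact hx ⟨h1, h2⟩
    · rw [Set.indicator_of_notMem ht]
      symm
      refine (lintegral_congr fun x => ?_).trans lintegral_zero
      rw [Set.indicator_of_notMem]
      rintro ⟨h1, h2, h3⟩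
      exact ht ⟨lt_trans h1 h2, h3⟩
  rw [e1, e2]
  exact lintegral_lintegral_swap (f := fun x t => S.indicator (fun q => H q.1 q.2) (x, t))
    (hH.indicator hS).aemeasurable

private theorem a6_meas_Ioo {H : ℝ → ℝ → ENNReal}
    (hH : Measurable (fun q : ℝ × ℝ => H q.1 q.2)) (w : ℝ) :
    Measurable (fun x : ℝ => ∫⁻ t in Ioo x w, H x t) := by
  have hS : MeasurableSet {q : ℝ × ℝ | q.1 < q.2 ∧ q.2 < w} := by
    have h1 : {q : ℝ × ℝ | q.1 < q.2 ∧ q.2 < w} = {q : ℝ × ℝ | q.1 < q.2} ∩ {q | q.2 < w} := by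
      ext q; simp only [Set.mem_ofPred_eq, Set.mem_inter_iff]
    rw [h1]
    exact (measurableSet_lt measurable_fst measurable_snd).inter
        (measurableSet_lt measurable_snd measurable_const)
  have e1 : (fun x : ℝ => ∫⁻ t in Ioo x w, H x t) = fun x : ℝ =>
      ∫⁻ t, ({q : ℝ × ℝ | q.1 < q.2 ∧ q.2 < w}).indicator (fun q => H q.1 q.2) (x, t) := by
    funext x
    rw [← lintegral_indicator measurableSet_Ioo]
    rfl
  rw [e1]
  exact Measurable.lintegral_prod_right' (hH.indicator hS)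

/-- joint measurability of the inner integral -/
private theorem a6_meas_in (p : Fin 3 → ℝ) (m : ℕ) (w : ℝ) (c : Fin 3)
    {Ψ : List Pt → Pt → List Pt → ENNReal}
    (hΨ : Measurable (fun q : List Pt × Pt × List Pt => Ψ q.1 q.2.1 q.2.2)) :
    Measurable (fun q : ℝ × List Pt => ∫⁻ l₂, Ψ q.2 (q.1, c) l₂ ∂(Jm p m q.1 w)) := by
  refine measurable_lintegral_Jm p m (f := fun (q : ℝ × List Pt) l₂ => Ψ q.2 (q.1, c) l₂) ?_
    measurable_fst measurable_const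
  exact hΨ.comp ((measurable_snd.comp measurable_fst).prodMk
    (((measurable_fst.comp measurable_fst).prodMk measurable_const).prodMk measurable_snd))

private theorem a6_meas_t (p : Fin 3 → ℝ) (m : ℕ) (w t : ℝ) (c : Fin 3)
    {Ψ : List Pt → Pt → List Pt → ENNReal}
    (hΨ : Measurable (fun q : List Pt × Pt × List Pt => Ψ q.1 q.2.1 q.2.2)) :
    Measurable (fun l : List Pt => ∫⁻ l₂, Ψ l (t, c) l₂ ∂(Jm p m t w)) :=
  (a6_meas_in p m w c hΨ).comp (measurable_const.prodMk measurable_id)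

private theorem a6_meas_J (p : Fin 3 → ℝ) (k m : ℕ) (u w : ℝ) (c : Fin 3)
    {Ψ : List Pt → Pt → List Pt → ENNReal}
    (hΨ : Measurable (fun q : List Pt × Pt × List Pt => Ψ q.1 q.2.1 q.2.2)) :
    Measurable (fun t : ℝ => ∫⁻ l₁, (∫⁻ l₂, Ψ l₁ (t, c) l₂ ∂(Jm p m t w)) ∂(Jm p k u t)) :=
  measurable_lintegral_Jm p k
    (f := fun (t : ℝ) (l₁ : List Pt) => ∫⁻ l₂, Ψ l₁ (t, c) l₂ ∂(Jm p m t w))
    (a6_meas_in p m w c hΨ) measurable_const measurable_id

/-- the term `(k, m)` -/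
private noncomputable def a6K (p : Fin 3 → ℝ) (k m : ℕ) (u w : ℝ)
    (Ψ : List Pt → Pt → List Pt → ENNReal) : ENNReal :=
  ∫⁻ t in Ioo u w, ∑ c : Fin 3, ENNReal.ofReal (p c) *
    (∫⁻ l₁, (∫⁻ l₂, Ψ l₁ (t, c) l₂ ∂(Jm p m t w)) ∂(Jm p k u t))

private noncomputable def a6H (p : Fin 3 → ℝ) (k m : ℕ) (w : ℝ)
    (Ψ : List Pt → Pt → List Pt → ENNReal) (i : Fin 3) (x t : ℝ) : ENNReal :=
  ∑ c : Fin 3, ENNReal.ofReal (p c) *
    (∫⁻ l₁, (∫⁻ l₂, Ψ ((x, i) :: l₁) (t, c) l₂ ∂(Jm p m t w)) ∂(Jm p k x t))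

private theorem a6H_meas (p : Fin 3 → ℝ) (k m : ℕ) (w : ℝ)
    {Ψ : List Pt → Pt → List Pt → ENNReal}
    (hΨ : Measurable (fun q : List Pt × Pt × List Pt => Ψ q.1 q.2.1 q.2.2)) (i : Fin 3) :
    Measurable (fun q : ℝ × ℝ => a6H p k m w Ψ i q.1 q.2) := by
  unfold a6H
  refine Finset.measurable_sum _ fun c _ => Measurable.const_mul ?_ _
  refine measurable_lintegral_Jm p k (f := fun (θ : ℝ × ℝ) (l₁ : List Pt) =>
    ∫⁻ l₂, Ψ ((θ.1, i) :: l₁) (θ.2, c) l₂ ∂(Jm p m θ.2 w)) ?_ measurable_fst measurable_snd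
  have h1 : Measurable (fun q : (ℝ × ℝ) × List Pt => (q.1.2, (q.1.1, i) :: q.2)) := by
    refine (measurable_snd.comp measurable_fst).prodMk ?_
    exact measurable_cons.comp (((measurable_fst.comp measurable_fst).prodMk
      measurable_const).prodMk measurable_snd)
  exact (a6_meas_in p m w c hΨ).comp h1

private theorem a6_cons {Ψ : List Pt → Pt → List Pt → ENNReal}
    (hΨ : Measurable (fun q : List Pt × Pt × List Pt => Ψ q.1 q.2.1 q.2.2)) (y : Pt) :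
    Measurable (fun q : List Pt × Pt × List Pt => Ψ (y :: q.1) q.2.1 q.2.2) :=
  hΨ.comp ((measurable_cons.comp (measurable_const.prodMk measurable_fst)).prodMk
    measurable_snd)

private theorem a6_shift (p : Fin 3 → ℝ) (k m : ℕ) (u w : ℝ)
    {Ψ : List Pt → Pt → List Pt → ENNReal}
    (hΨ : Measurable (fun q : List Pt × Pt × List Pt => Ψ q.1 q.2.1 q.2.2)) :
    ∫⁻ x in Ioo u w, ∑ i : Fin 3, ENNReal.ofReal (p i) *
      a6K p k m x w (fun l₁ z l₂ => Ψ ((x, i) :: l₁) z l₂) = a6K p (k + 1) m u w Ψ := by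
  have e1 : ∀ x : ℝ, ∑ i : Fin 3, ENNReal.ofReal (p i) *
      a6K p k m x w (fun l₁ z l₂ => Ψ ((x, i) :: l₁) z l₂) =
      ∫⁻ t in Ioo x w, ∑ i : Fin 3, ENNReal.ofReal (p i) * a6H p k m w Ψ i x t := by
    intro x
    have hm : ∀ i, Measurable (fun t => a6H p k m w Ψ i x t) := fun i =>
      (a6H_meas p k m w hΨ i).comp (measurable_const.prodMk measurable_id)
    rw [lintegral_finsetSum _ fun i _ => (hm i).const_mul _]
    refine Finset.sum_congr rfl fun i _ => ?_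
    rw [lintegral_const_mul _ (hm i)]
    rfl
  have hH : Measurable (fun q : ℝ × ℝ => ∑ i : Fin 3, ENNReal.ofReal (p i) *
      a6H p k m w Ψ i q.1 q.2) :=
    Finset.measurable_sum _ fun i _ => (a6H_meas p k m w hΨ i).const_mul _
  rw [lintegral_congr e1, a6_tri (H := fun x t => ∑ i : Fin 3, ENNReal.ofReal (p i) *
      a6H p k m w Ψ i x t) hH u w]
  unfold a6K
  refine lintegral_congr fun t => ?_
  have e2 : ∀ x : ℝ, ∑ i : Fin 3, ENNReal.ofReal (p i) * a6H p k m w Ψ i x t =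
      ∑ c : Fin 3, ENNReal.ofReal (p c) * ∑ i : Fin 3, ENNReal.ofReal (p i) *
        (∫⁻ l₁, (∫⁻ l₂, Ψ ((x, i) :: l₁) (t, c) l₂ ∂(Jm p m t w)) ∂(Jm p k x t)) := by
    intro x
    simp only [a6H, Finset.mul_sum]
    rw [Finset.sum_comm]
    refine Finset.sum_congr rfl fun c _ => Finset.sum_congr rfl fun i _ => ?_
    ring
  have hm : ∀ c, Measurable (fun x : ℝ => ∑ i : Fin 3, ENNReal.ofReal (p i) *
        (∫⁻ l₁, (∫⁻ l₂, Ψ ((x, i) :: l₁) (t, c) l₂ ∂(Jm p m t w)) ∂(Jm p k x t))) := by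
    intro c
    refine Finset.measurable_sum _ fun i _ => Measurable.const_mul ?_ _
    refine measurable_lintegral_Jm p k (f := fun (x : ℝ) (l₁ : List Pt) =>
      ∫⁻ l₂, Ψ ((x, i) :: l₁) (t, c) l₂ ∂(Jm p m t w)) ?_ measurable_id measurable_const
    exact (a6_meas_t p m w t c hΨ).comp (measurable_cons.comp
      ((measurable_fst.prodMk measurable_const).prodMk measurable_snd))
  rw [lintegral_congr e2, lintegral_finsetSum _ fun c _ => (hm c).const_mul _]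
  refine Finset.sum_congr rfl fun c _ => ?_
  rw [lintegral_const_mul _ (hm c), lintegral_Jm_succ p k u t (a6_meas_t p m w t c hΨ)]

private theorem a6_measK (p : Fin 3 → ℝ) (k m : ℕ) (w : ℝ)
    {Ψ : List Pt → Pt → List Pt → ENNReal}
    (hΨ : Measurable (fun q : List Pt × Pt × List Pt => Ψ q.1 q.2.1 q.2.2)) :
    Measurable (fun x : ℝ => ∑ i : Fin 3, ENNReal.ofReal (p i) *
      a6K p k m x w (fun l₁ z l₂ => Ψ ((x, i) :: l₁) z l₂)) := by
  refine Finset.measurable_sum _ fun i _ => Measurable.const_mul ?_ _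
  exact a6_meas_Ioo (H := fun x t => a6H p k m w Ψ i x t) (a6H_meas p k m w hΨ i) w

private theorem a6_split_meas {Ψ : List Pt → Pt → List Pt → ENNReal}
    (hΨ : Measurable (fun q : List Pt × Pt × List Pt => Ψ q.1 q.2.1 q.2.2)) :
    Measurable (fun l => splitSum Ψ l) := by
  have h1 := measurable_splitSum (Θ := Unit) (Ψ := fun _ => Ψ) (hΨ.comp measurable_snd)
  exact h1.comp (measurable_const.prodMk measurable_id : Measurable fun l : List Pt => ((), l))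

private theorem a6_step (p : Fin 3 → ℝ) (w : ℝ) (n : ℕ) :
    ∀ (u : ℝ) {Ψ : List Pt → Pt → List Pt → ENNReal},
    Measurable (fun q : List Pt × Pt × List Pt => Ψ q.1 q.2.1 q.2.2) →
    ∫⁻ l, splitSum Ψ l ∂(Jm p (n + 1) u w) =
      ∑ q ∈ Finset.HasAntidiagonal.antidiagonal n, a6K p q.1 q.2 u w Ψ := by
  have first : ∀ (n : ℕ) (u : ℝ) {Ψ : List Pt → Pt → List Pt → ENNReal},
      Measurable (fun q : List Pt × Pt × List Pt => Ψ q.1 q.2.1 q.2.2) →
      ∫⁻ l, splitSum Ψ l ∂(Jm p (n + 1) u w) = a6K p 0 n u w Ψ +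
        ∫⁻ x in Ioo u w, ∑ i : Fin 3, ENNReal.ofReal (p i) *
          ∫⁻ l, splitSum (fun l₁ z l₂ => Ψ ((x, i) :: l₁) z l₂) l ∂(Jm p n x w) := by
    intro n u Ψ hΨ
    have hm0 : ∀ y : Pt, Measurable (fun l => Ψ [] y l) := fun y =>
      hΨ.comp (measurable_const.prodMk (measurable_const.prodMk measurable_id))
    rw [lintegral_Jm_succ p n u w (a6_split_meas hΨ)]
    have e1 : ∀ x : ℝ, ∑ i : Fin 3, ENNReal.ofReal (p i) *
        (∫⁻ l, splitSum Ψ ((x, i) :: l) ∂(Jm p n x w)) =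
        (∑ i : Fin 3, ENNReal.ofReal (p i) *
          (∫⁻ l₁, (∫⁻ l₂, Ψ l₁ (x, i) l₂ ∂(Jm p n x w)) ∂(Jm p 0 u x))) +
        ∑ i : Fin 3, ENNReal.ofReal (p i) *
          ∫⁻ l, splitSum (fun l₁ z l₂ => Ψ ((x, i) :: l₁) z l₂) l ∂(Jm p n x w) := by
      intro x
      rw [← Finset.sum_add_distrib]
      refine Finset.sum_congr rfl fun i _ => ?_
      rw [← mul_add, lintegral_Jm_zero p u x (a6_meas_t p n w x i hΨ),
        ← lintegral_add_left (hm0 (x, i))]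
      rfl
    rw [lintegral_congr e1, lintegral_add_left]
    · rfl
    · exact Finset.measurable_sum _ fun i _ => (a6_meas_J p 0 n u w i hΨ).const_mul _
  induction n with
  | zero =>
    intro u Ψ hΨ
    rw [first 0 u hΨ]
    simp only [Finset.Nat.antidiagonal_zero, Finset.sum_singleton]
    have e1 : ∀ x : ℝ, ∑ i : Fin 3, ENNReal.ofReal (p i) *
        ∫⁻ l, splitSum (fun l₁ z l₂ => Ψ ((x, i) :: l₁) z l₂) l ∂(Jm p 0 x w) = 0 := by
      intro x
      refine Finset.sum_eq_zero fun i _ => ?_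
      rw [lintegral_Jm_zero p x w (a6_split_meas (a6_cons hΨ (x, i)))]
      simp only [splitSum, mul_zero]
    rw [lintegral_congr e1, lintegral_zero, add_zero]
  | succ n ih =>
    intro u Ψ hΨ
    rw [first (n + 1) u hΨ, Finset.Nat.sum_antidiagonal_succ]
    congr 1
    have e1 : ∀ x : ℝ, ∑ i : Fin 3, ENNReal.ofReal (p i) *
        ∫⁻ l, splitSum (fun l₁ z l₂ => Ψ ((x, i) :: l₁) z l₂) l ∂(Jm p (n + 1) x w) =
        ∑ q ∈ Finset.HasAntidiagonal.antidiagonal n, ∑ i : Fin 3, ENNReal.ofReal (p i) *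
          a6K p q.1 q.2 x w (fun l₁ z l₂ => Ψ ((x, i) :: l₁) z l₂) := by
      intro x
      rw [Finset.sum_comm]
      refine Finset.sum_congr rfl fun i _ => ?_
      rw [ih x (a6_cons hΨ (x, i)), Finset.mul_sum]
    rw [lintegral_congr e1, lintegral_finsetSum _ fun q _ => a6_measK p q.1 q.2 w hΨ]
    exact Finset.sum_congr rfl fun q _ => a6_shift p q.1 q.2 u w hΨ

private theorem a6_tsum (I : ℕ × ℕ → ENNReal) :
    ∑' n, ∑ q ∈ Finset.HasAntidiagonal.antidiagonal n, I q = ∑' k, ∑' m, I (k, m) := by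
  rw [← ENNReal.tsum_prod (f := fun k m => I (k, m)),
    ← (Finset.HasAntidiagonal.sigmaAntidiagonalEquivProd (A := ℕ)).tsum_eq
      (fun q => I (q.1, q.2)), ENNReal.tsum_sigma']
  refine tsum_congr fun n => ?_
  rw [← Finset.tsum_subtype]
  rfl

theorem mecke (p : Fin 3 → ℝ) (u w : ℝ) {Ψ : List Pt → Pt → List Pt → ENNReal}
    (hΨ : Measurable (fun q : List Pt × Pt × List Pt => Ψ q.1 q.2.1 q.2.2)) :
    ∫⁻ l, splitSum Ψ l ∂(Pm p u w)
      = ∫⁻ t in Ioo u w, ∑ c : Fin 3, ENNReal.ofReal (p c) *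
          ∫⁻ l₁, ∫⁻ l₂, Ψ l₁ (t, c) l₂ ∂(Pm p t w) ∂(Pm p u t) := by
  have h0 : ∫⁻ l, splitSum Ψ l ∂(Jm p 0 u w) = 0 := by
    rw [lintegral_Jm_zero p u w (a6_split_meas hΨ)]
    rfl
  have hL : ∫⁻ l, splitSum Ψ l ∂(Pm p u w) = ENNReal.ofReal (Real.exp (-(w - u))) *
      ∑' k, ∑' m, a6K p k m u w Ψ := by
    rw [lintegral_Pm, tsum_eq_zero_add' ENNReal.summable, h0, zero_add,
      tsum_congr fun n => a6_step p w n u hΨ, a6_tsum (fun q => a6K p q.1 q.2 u w Ψ)]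
  have hmJ : ∀ k m, Measurable (fun t : ℝ => ∑ c : Fin 3, ENNReal.ofReal (p c) *
      (∫⁻ l₁, (∫⁻ l₂, Ψ l₁ (t, c) l₂ ∂(Jm p m t w)) ∂(Jm p k u t))) := fun k m =>
    Finset.measurable_sum _ fun c _ => (a6_meas_J p k m u w c hΨ).const_mul _
  have e1 : ∀ (t : ℝ) (c : Fin 3), ∫⁻ l₁, (∫⁻ l₂, Ψ l₁ (t, c) l₂ ∂(Pm p t w)) ∂(Pm p u t) =
      ENNReal.ofReal (Real.exp (-(w - u))) *
        ∑' k, ∑' m, ∫⁻ l₁, (∫⁻ l₂, Ψ l₁ (t, c) l₂ ∂(Jm p m t w)) ∂(Jm p k u t) := by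
    intro t c
    rw [lintegral_Pm]
    have e2 : ∀ k, ∫⁻ l₁, (∫⁻ l₂, Ψ l₁ (t, c) l₂ ∂(Pm p t w)) ∂(Jm p k u t) =
        ENNReal.ofReal (Real.exp (-(w - t))) *
          ∑' m, ∫⁻ l₁, (∫⁻ l₂, Ψ l₁ (t, c) l₂ ∂(Jm p m t w)) ∂(Jm p k u t) := by
      intro k
      simp only [lintegral_Pm]
      rw [lintegral_const_mul _ (Measurable.tsum fun m => a6_meas_t p m w t c hΨ),
        lintegral_tsum fun m => (a6_meas_t p m w t c hΨ).aemeasurable]
    rw [tsum_congr e2, ENNReal.tsum_mul_left, ← mul_assoc,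
      ← ENNReal.ofReal_mul (Real.exp_nonneg _), ← Real.exp_add]
    congr 3
    ring
  have e3 : ∀ t : ℝ, ∑ c : Fin 3, ENNReal.ofReal (p c) *
      (∫⁻ l₁, (∫⁻ l₂, Ψ l₁ (t, c) l₂ ∂(Pm p t w)) ∂(Pm p u t)) =
      ENNReal.ofReal (Real.exp (-(w - u))) * ∑' k, ∑' m, ∑ c : Fin 3, ENNReal.ofReal (p c) *
        (∫⁻ l₁, (∫⁻ l₂, Ψ l₁ (t, c) l₂ ∂(Jm p m t w)) ∂(Jm p k u t)) := by
    intro t
    simp only [e1, Fin.sum_univ_three, ENNReal.tsum_add, ENNReal.tsum_mul_left]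
    ring
  rw [hL, lintegral_congr e3, lintegral_const_mul]
  · congr 1
    rw [lintegral_tsum fun k => (Measurable.tsum fun m => hmJ k m).aemeasurable]
    refine tsum_congr fun k => ?_
    rw [lintegral_tsum fun m => (hmJ k m).aemeasurable]
    rfl
  · exact Measurable.tsum fun k => Measurable.tsum fun m => hmJ k m

end Pool.SM3
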