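/-
SM3.A7 : splitting at a fixed position (independence of disjoint intervals).
PROOF. Step 1 (induction on `n`, for all `u < s` and `Φ`; `s`, `w` fixed):
`∫⁻ Φ ∂Jm n u w = ∑ (k,m) ∈ antidiagonal n, ∫⁻ l₁, ∫⁻ l₂, Φ (l₁ ++ l₂) ∂(Jm p m s w) ∂(Jm p k u s)`.
Step: lintegral_Jm_succ; split `Ioo u w` into `Ioo u s`, the null set `{s}`, `Ioo s w`.  On `Ioo s w` one gets
`∫⁻ Φ ∂Jm (n+1) s w`, the term `k = 0`.  On `Ioo u s` use the induction hypothesis for `Φ ((x,i) :: ·)` on `(x,w)` and read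
lintegral_Jm_succ backwards on `(u,s)`.
Step 2: sum over `n` and `e^{-(w-u)} = e^{-(s-u)} e^{-(w-s)}`.  The cases `s = u`, `s = w`: `Jm p k u u` is `dirac []` for `k = 0` and
`0` for `k > 0` (`Ioo u u = ∅`); or treat `u ≤ s ≤ w` at once (a point `t ∈ Ioo u w` with `t = s` is null).
-/
import Pool.Agent.Lib.SM3.A5

set_option autoImplicit false

open MeasureTheory Set

namespace Pool.SM3

private theorem a7_meas_cons (y : Pt) {Φ : List Pt → ENNReal} (hΦ : Measurable Φ) :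
    Measurable (fun l => Φ (y :: l)) :=
  hΦ.comp (measurable_cons.comp (measurable_const.prodMk measurable_id))

private theorem a7_meas_first (p : Fin 3 → ℝ) (n : ℕ) (w : ℝ) {Φ : List Pt → ENNReal}
    (hΦ : Measurable Φ) :
    Measurable (fun t : ℝ => ∑ c : Fin 3, ENNReal.ofReal (p c) *
      ∫⁻ l, Φ ((t, c) :: l) ∂(Jm p n t w)) := by
  refine Finset.measurable_sum _ fun c _ => Measurable.const_mul ?_ _
  refine measurable_lintegral_Jm p n (f := fun t l => Φ ((t, c) :: l)) ?_ measurable_id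
    measurable_const
  exact hΦ.comp (measurable_cons.comp
    ((measurable_fst.prodMk measurable_const).prodMk measurable_snd))

private theorem a7_meas_app (p : Fin 3 → ℝ) (m : ℕ) (s w : ℝ) {Φ : List Pt → ENNReal}
    (hΦ : Measurable Φ) : Measurable (fun l => ∫⁻ l₂, Φ (l ++ l₂) ∂(Jm p m s w)) :=
  measurable_lintegral_Jm p m (f := fun l l₂ => Φ (l ++ l₂)) (hΦ.comp measurable_append)
    measurable_const measurable_const

private theorem a7_split {u s w : ℝ} (h1 : u ≤ s) (h2 : s ≤ w) (G : ℝ → ENNReal) :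
    ∫⁻ t in Ioo u w, G t = (∫⁻ t in Ioo u s, G t) + ∫⁻ t in Ioo s w, G t := by
  have e : ∀ a b : ℝ, ∫⁻ t in Ioo a b, G t = ∫⁻ t in Ioc a b, G t := fun a b => by
    rw [restrict_Ioo_eq_restrict_Ioc]
  rw [e u w, e u s, e s w, ← Ioc_union_Ioc_eq_Ioc h1 h2,
    lintegral_union measurableSet_Ioc (Ioc_disjoint_Ioc_of_le le_rfl)]

private theorem a7_step (p : Fin 3 → ℝ) {s w : ℝ} (h2 : s ≤ w) (n : ℕ) :
    ∀ {u : ℝ}, u ≤ s → ∀ {Φ : List Pt → ENNReal}, Measurable Φ →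
    ∫⁻ l, Φ l ∂(Jm p n u w) = ∑ q ∈ Finset.HasAntidiagonal.antidiagonal n,
      ∫⁻ l₁, ∫⁻ l₂, Φ (l₁ ++ l₂) ∂(Jm p q.2 s w) ∂(Jm p q.1 u s) := by
  induction n with
  | zero =>
    intro u h1 Φ hΦ
    rw [lintegral_Jm_zero p u w hΦ]
    simp only [Finset.Nat.antidiagonal_zero, Finset.sum_singleton]
    rw [lintegral_Jm_zero p u s (a7_meas_app p 0 s w hΦ)]
    simp only [List.nil_append]
    rw [lintegral_Jm_zero p s w hΦ]
  | succ n ih =>
    intro u h1 Φ hΦ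
    rw [lintegral_Jm_succ p n u w hΦ, a7_split h1 h2, Finset.Nat.sum_antidiagonal_succ, add_comm]
    congr 1
    · rw [lintegral_Jm_zero p u s (a7_meas_app p (n + 1) s w hΦ)]
      simp only [List.nil_append]
      rw [lintegral_Jm_succ p n s w hΦ]
    · have e1 : ∀ t ∈ Ioo u s, ∑ c : Fin 3, ENNReal.ofReal (p c) *
          ∫⁻ l, Φ ((t, c) :: l) ∂(Jm p n t w) = ∑ q ∈ Finset.HasAntidiagonal.antidiagonal n,
          ∑ c : Fin 3, ENNReal.ofReal (p c) *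
            ∫⁻ l₁, (fun l => ∫⁻ l₂, Φ (l ++ l₂) ∂(Jm p q.2 s w)) ((t, c) :: l₁)
              ∂(Jm p q.1 t s) := by
        intro t ht
        rw [Finset.sum_comm]
        refine Finset.sum_congr rfl fun c _ => ?_
        rw [ih ht.2.le (a7_meas_cons (t, c) hΦ), Finset.mul_sum]
        rfl
      rw [setLIntegral_congr_fun measurableSet_Ioo e1, lintegral_finsetSum]
      · refine Finset.sum_congr rfl fun q _ => ?_
        rw [lintegral_Jm_succ p q.1 u s (a7_meas_app p q.2 s w hΦ)]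
      · intro q _
        exact a7_meas_first p q.1 s (a7_meas_app p q.2 s w hΦ)

private theorem a7_tsum (I : ℕ × ℕ → ENNReal) :
    ∑' n, ∑ q ∈ Finset.HasAntidiagonal.antidiagonal n, I q = ∑' k, ∑' m, I (k, m) := by
  rw [← ENNReal.tsum_prod (f := fun k m => I (k, m)),
    ← (Finset.HasAntidiagonal.sigmaAntidiagonalEquivProd (A := ℕ)).tsum_eq
      (fun q => I (q.1, q.2)), ENNReal.tsum_sigma']
  refine tsum_congr fun n => ?_
  rw [← Finset.tsum_subtype]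
  rfl

theorem lintegral_Pm_append (p : Fin 3 → ℝ) {u s w : ℝ} (h1 : u ≤ s) (h2 : s ≤ w)
    {Φ : List Pt → ENNReal} (hΦ : Measurable Φ) :
    ∫⁻ l, Φ l ∂(Pm p u w) = ∫⁻ l₁, ∫⁻ l₂, Φ (l₁ ++ l₂) ∂(Pm p s w) ∂(Pm p u s) := by
  rw [lintegral_Pm, tsum_congr fun n => a7_step p h2 n h1 hΦ,
    a7_tsum (fun q => ∫⁻ l₁, ∫⁻ l₂, Φ (l₁ ++ l₂) ∂(Jm p q.2 s w) ∂(Jm p q.1 u s)),
    lintegral_Pm]
  have e1 : ∀ k, ∫⁻ l₁, ∫⁻ l₂, Φ (l₁ ++ l₂) ∂(Pm p s w) ∂(Jm p k u s) =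
      ENNReal.ofReal (Real.exp (-(w - s))) *
        ∑' m, ∫⁻ l₁, ∫⁻ l₂, Φ (l₁ ++ l₂) ∂(Jm p m s w) ∂(Jm p k u s) := by
    intro k
    simp only [lintegral_Pm]
    rw [lintegral_const_mul _ (Measurable.tsum fun m => a7_meas_app p m s w hΦ),
      lintegral_tsum fun m => (a7_meas_app p m s w hΦ).aemeasurable]
  rw [tsum_congr e1, ENNReal.tsum_mul_left, ← mul_assoc, ← ENNReal.ofReal_mul (Real.exp_nonneg _),
    ← Real.exp_add]
  congr 3
  ring

end Pool.SM3
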