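/-
SM3.A8 : restriction to windows.
PROOF. `wf` of an append is the append of the `wf`s; `wf u' w' l = l` if all points of `l` are in `(u',w')`, `= []` if none is
(a.e. facts from ae_Pm).  Apply lintegral_Pm_append at the end points of the windows, and isProb_Pm to integrate the
constant parts.
-/
import Pool.Agent.Lib.SM3.A7

set_option autoImplicit false

open MeasureTheory Set

namespace Pool.SM3

theorem wf_append (u w : ℝ) (l₁ l₂ : List Pt) : wf u w (l₁ ++ l₂) = wf u w l₁ ++ wf u w l₂ := by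
  classical
  unfold wf
  exact List.filter_append l₁ l₂

theorem mem_wf {u w : ℝ} {l : List Pt} {y : Pt} : y ∈ wf u w l ↔ y ∈ l ∧ u < y.1 ∧ y.1 < w := by
  classical
  unfold wf
  rw [List.mem_filter]
  simp

theorem wf_set (u w : ℝ) (l : List Pt) : {y | y ∈ wf u w l} = Win {y | y ∈ l} u w := by
  ext y
  show y ∈ wf u w l ↔ y ∈ l ∧ u < y.1 ∧ y.1 < w
  exact mem_wf

private theorem wf_eq_nil {u w : ℝ} {l : List Pt} (h : ∀ y ∈ l, ¬ (u < y.1 ∧ y.1 < w)) :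
    wf u w l = [] := by
  rw [List.eq_nil_iff_forall_not_mem]
  intro y hy
  rw [mem_wf] at hy
  exact h y hy.1 hy.2

private theorem wf_eq_self {u w : ℝ} {l : List Pt} (h : ∀ y ∈ l, u < y.1 ∧ y.1 < w) :
    wf u w l = l := by
  classical
  unfold wf
  rw [List.filter_eq_self]
  intro y hy
  simpa using h y hy

theorem lintegral_Pm_wf {p : Fin 3 → ℝ} (hp : PV p) {u u' w' w : ℝ} (h1 : u ≤ u') (h2 : u' ≤ w')
    (h3 : w' ≤ w) {Φ : List Pt → ENNReal} (hΦ : Measurable Φ) :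
    ∫⁻ l, Φ (wf u' w' l) ∂(Pm p u w) = ∫⁻ l, Φ l ∂(Pm p u' w') := by
  have hm : Measurable (fun l => Φ (wf u' w' l)) := hΦ.comp (measurable_wf u' w')
  have : IsProbabilityMeasure (Pm p u u') := isProb_Pm hp h1
  have : IsProbabilityMeasure (Pm p w' w) := isProb_Pm hp h3
  rw [lintegral_Pm_append p h1 (h2.trans h3) hm]
  have e1 : ∀ᵐ l₁ ∂(Pm p u u'), ∫⁻ l₂, Φ (wf u' w' (l₁ ++ l₂)) ∂(Pm p u' w)
      = ∫⁻ l₂, Φ (wf u' w' l₂) ∂(Pm p u' w) := by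
    filter_upwards [ae_Pm p u u'] with l₁ hl₁
    have h0 : wf u' w' l₁ = [] := wf_eq_nil fun y hy hc => by
      have := (hl₁.2 y hy).2
      exact absurd hc.1 (not_lt.2 this.le)
    refine lintegral_congr fun l₂ => ?_
    rw [wf_append, h0, List.nil_append]
  rw [lintegral_congr_ae e1, lintegral_const, measure_univ, mul_one]
  rw [lintegral_Pm_append p h2 h3 hm]
  have e2 : ∀ᵐ l₁ ∂(Pm p u' w'), ∫⁻ l₂, Φ (wf u' w' (l₁ ++ l₂)) ∂(Pm p w' w) = Φ l₁ := by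
    filter_upwards [ae_Pm p u' w'] with l₁ hl₁
    have h0 : wf u' w' l₁ = l₁ := wf_eq_self hl₁.2
    have e3 : ∀ᵐ l₂ ∂(Pm p w' w), Φ (wf u' w' (l₁ ++ l₂)) = Φ l₁ := by
      filter_upwards [ae_Pm p w' w] with l₂ hl₂
      have h4 : wf u' w' l₂ = [] := wf_eq_nil fun y hy hc => by
        have := (hl₂.2 y hy).1
        exact absurd hc.2 (not_lt.2 this.le)
      rw [wf_append, h0, h4, List.append_nil]
    rw [lintegral_congr_ae e3, lintegral_const, measure_univ, mul_one]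
  rw [lintegral_congr_ae e2]

theorem lintegral_Pm_wf2 {p : Fin 3 → ℝ} (hp : PV p) {u u₁ w₁ u₂ w₂ w : ℝ} (h1 : u ≤ u₁)
    (h2 : u₁ ≤ w₁) (h3 : w₁ ≤ u₂) (h4 : u₂ ≤ w₂) (h5 : w₂ ≤ w) {Φ Ψ : List Pt → ENNReal}
    (hΦ : Measurable Φ) (hΨ : Measurable Ψ) :
    ∫⁻ l, Φ (wf u₁ w₁ l) * Ψ (wf u₂ w₂ l) ∂(Pm p u w)
      = (∫⁻ l, Φ l ∂(Pm p u₁ w₁)) * ∫⁻ l, Ψ l ∂(Pm p u₂ w₂) := by
  have hm1 : Measurable (fun l => Φ (wf u₁ w₁ l)) := hΦ.comp (measurable_wf u₁ w₁)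
  have hm2 : Measurable (fun l => Ψ (wf u₂ w₂ l)) := hΨ.comp (measurable_wf u₂ w₂)
  have hm : Measurable (fun l => Φ (wf u₁ w₁ l) * Ψ (wf u₂ w₂ l)) := hm1.mul hm2
  rw [lintegral_Pm_append p (h1.trans h2) (h3.trans (h4.trans h5)) hm]
  have e1 : ∀ᵐ l₁ ∂(Pm p u w₁),
      ∫⁻ l₂, Φ (wf u₁ w₁ (l₁ ++ l₂)) * Ψ (wf u₂ w₂ (l₁ ++ l₂)) ∂(Pm p w₁ w)
        = Φ (wf u₁ w₁ l₁) * ∫⁻ l, Ψ l ∂(Pm p u₂ w₂) := by
    filter_upwards [ae_Pm p u w₁] with l₁ hl₁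
    have h0 : wf u₂ w₂ l₁ = [] := wf_eq_nil fun y hy hc => by
      have := (hl₁.2 y hy).2
      exact absurd hc.1 (not_lt.2 (this.le.trans h3))
    have e3 : ∀ᵐ l₂ ∂(Pm p w₁ w),
        Φ (wf u₁ w₁ (l₁ ++ l₂)) * Ψ (wf u₂ w₂ (l₁ ++ l₂))
          = Φ (wf u₁ w₁ l₁) * Ψ (wf u₂ w₂ l₂) := by
      filter_upwards [ae_Pm p w₁ w] with l₂ hl₂
      have h4 : wf u₁ w₁ l₂ = [] := wf_eq_nil fun y hy hc => by
        have := (hl₂.2 y hy).1
        exact absurd hc.2 (not_lt.2 this.le)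
      rw [wf_append, wf_append, h0, h4, List.append_nil, List.nil_append]
    rw [lintegral_congr_ae e3, lintegral_const_mul _ hm2, lintegral_Pm_wf hp h3 h4 h5 hΨ]
  rw [lintegral_congr_ae e1, lintegral_mul_const _ hm1, lintegral_Pm_wf hp h1 h2 le_rfl hΦ]

end Pool.SM3
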