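/-
SM3.A9 : affine maps and permutations of the colours.
PROOF. `lintegral_Jm_affine`: induction on `n` for all `u` with lintegral_Jm_succ and
`∫⁻ x in Ioo (c u + h) (c w + h), g x = ofReal c * ∫⁻ t in Ioo u w, g (c t + h)` (Measure.map of an affine map, or
`lintegral_image_eq_lintegral_abs_deriv_mul`); `ofReal (c^(n+1)) = ofReal c * ofReal (c^n)`.
`lintegral_Jm_colour`: induction on `n`, `Equiv.sum_comp σ`.
-/
import Pool.Agent.Lib.SM3.A4

set_option autoImplicit false

open MeasureTheory Set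

namespace Pool.SM3

private theorem A9_vol {c : ℝ} (hc : 0 < c) (h : ℝ) :
    ENNReal.ofReal c • Measure.map (fun s : ℝ => c * s + h) volume = (volume : Measure ℝ) := by
  have h1 : Measure.map (fun s : ℝ => c * s + h) volume =
      Measure.map (fun s : ℝ => s + h) (Measure.map (fun s : ℝ => c * s) volume) := by
    rw [Measure.map_map (measurable_add_const h) (measurable_const_mul c)]
    rfl
  rw [h1, Real.map_volume_mul_left hc.ne', Measure.map_smul, map_add_right_eq_self, smul_smul,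
    ← ENNReal.ofReal_mul hc.le, abs_of_pos (inv_pos.2 hc), mul_inv_cancel₀ hc.ne', ENNReal.ofReal_one,
    one_smul]

private theorem A9_emb {c : ℝ} (hc : 0 < c) (h : ℝ) :
    MeasurableEmbedding (fun s : ℝ => c * s + h) := by
  have h1 : (fun s : ℝ => c * s + h) = (fun s : ℝ => s + h) ∘ (fun s : ℝ => c * s) := rfl
  rw [h1]
  exact (measurableEmbedding_addRight h).comp (measurableEmbedding_mulLeft₀ hc.ne')

private theorem A9_subst {c : ℝ} (hc : 0 < c) (h u w : ℝ) (G : ℝ → ENNReal) :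
    ∫⁻ t in Ioo (c * u + h) (c * w + h), G t
      = ENNReal.ofReal c * ∫⁻ s in Ioo u w, G (c * s + h) := by
  have hpre : (fun s : ℝ => c * s + h) ⁻¹' (Ioo (c * u + h) (c * w + h)) = Ioo u w := by
    ext s
    simp only [mem_preimage, mem_Ioo]
    constructor
    · rintro ⟨h1, h2⟩
      exact ⟨lt_of_mul_lt_mul_left (by linarith) hc.le, lt_of_mul_lt_mul_left (by linarith) hc.le⟩
    · rintro ⟨h1, h2⟩
      have h3 := mul_lt_mul_of_pos_left h1 hc
      have h4 := mul_lt_mul_of_pos_left h2 hc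
      constructor <;> linarith
  conv_lhs => rw [← A9_vol hc h]
  rw [Measure.restrict_smul, lintegral_smul_measure, (A9_emb hc h).restrict_map, (A9_emb hc h).lintegral_map,
    hpre, smul_eq_mul]

theorem lintegral_Jm_affine (p : Fin 3 → ℝ) (n : ℕ) {c : ℝ} (hc : 0 < c) (h u w : ℝ)
    {Φ : List Pt → ENNReal} (hΦ : Measurable Φ) :
    ∫⁻ l, Φ l ∂(Jm p n (c * u + h) (c * w + h))
      = ENNReal.ofReal (c ^ n) * ∫⁻ l, Φ (l.map (fun y : Pt => (c * y.1 + h, y.2))) ∂(Jm p n u w) := by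
  have hφ : Measurable (fun y : Pt => ((c * y.1 + h, y.2) : Pt)) :=
    ((measurable_fst.const_mul c).add_const h).prodMk measurable_snd
  induction n generalizing u Φ with
  | zero =>
    have hΦ' : Measurable (fun l : List Pt => Φ (l.map (fun y : Pt => (c * y.1 + h, y.2)))) :=
      hΦ.comp (measurable_mapL hφ)
    rw [lintegral_Jm_zero p _ _ hΦ, lintegral_Jm_zero p _ _ hΦ', pow_zero,
      ENNReal.ofReal_one, one_mul, List.map_nil]
  | succ n ih =>
    have hΦ' : Measurable (fun l : List Pt => Φ (l.map (fun y : Pt => (c * y.1 + h, y.2)))) :=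
      hΦ.comp (measurable_mapL hφ)
    rw [lintegral_Jm_succ p n _ _ hΦ, lintegral_Jm_succ p n _ _ hΦ',
      A9_subst hc h u w]
    have hin : ∀ s : ℝ, (∑ k : Fin 3, ENNReal.ofReal (p k) *
          ∫⁻ l, Φ ((c * s + h, k) :: l) ∂(Jm p n (c * s + h) (c * w + h)))
        = ENNReal.ofReal (c ^ n) * ∑ k : Fin 3, ENNReal.ofReal (p k) *
          ∫⁻ l, Φ (((s, k) :: l).map (fun y : Pt => (c * y.1 + h, y.2))) ∂(Jm p n s w) := by
      intro s
      rw [Finset.mul_sum]
      refine Finset.sum_congr rfl fun k _ => ?_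
      have hcm : Measurable (fun l : List Pt => Φ ((c * s + h, k) :: l)) :=
        hΦ.comp (measurable_cons.comp (measurable_const.prodMk measurable_id))
      rw [ih s hcm, mul_left_comm]
      rfl
    simp_rw [hin]
    rw [lintegral_const_mul' _ _ ENNReal.ofReal_ne_top, ← mul_assoc, ← ENNReal.ofReal_mul hc.le, pow_succ']

theorem lintegral_Pm_shift (p : Fin 3 → ℝ) (h u w : ℝ) {Φ : List Pt → ENNReal} (hΦ : Measurable Φ) :
    ∫⁻ l, Φ l ∂(Pm p (u + h) (w + h))
      = ∫⁻ l, Φ (l.map (fun y : Pt => (y.1 + h, y.2))) ∂(Pm p u w) := by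
  rw [lintegral_Pm, lintegral_Pm, show w + h - (u + h) = w - u by ring]
  congr 1
  refine tsum_congr fun n => ?_
  have h1 := lintegral_Jm_affine p n one_pos h u w hΦ
  simpa using h1

private theorem A9_colour (p : Fin 3 → ℝ) (σ : Equiv.Perm (Fin 3)) (hσ : ∀ c, p (σ c) = p c)
    (n : ℕ) (u w : ℝ) {Φ : List Pt → ENNReal} (hΦ : Measurable Φ) :
    ∫⁻ l, Φ l ∂(Jm p n u w) = ∫⁻ l, Φ (l.map (fun y : Pt => (y.1, σ y.2))) ∂(Jm p n u w) := by
  have hφ : Measurable (fun y : Pt => ((y.1, σ y.2) : Pt)) :=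
    measurable_fst.prodMk ((measurable_of_countable (fun k : Fin 3 => σ k)).comp measurable_snd)
  induction n generalizing u Φ with
  | zero =>
    have hΦ' : Measurable (fun l : List Pt => Φ (l.map (fun y : Pt => (y.1, σ y.2)))) :=
      hΦ.comp (measurable_mapL hφ)
    rw [lintegral_Jm_zero p _ _ hΦ, lintegral_Jm_zero p _ _ hΦ', List.map_nil]
  | succ n ih =>
    have hΦ' : Measurable (fun l : List Pt => Φ (l.map (fun y : Pt => (y.1, σ y.2)))) :=
      hΦ.comp (measurable_mapL hφ)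
    rw [lintegral_Jm_succ p n _ _ hΦ, lintegral_Jm_succ p n _ _ hΦ']
    refine lintegral_congr fun t => ?_
    rw [← Equiv.sum_comp σ]
    refine Finset.sum_congr rfl fun k _ => ?_
    have hcm : Measurable (fun l : List Pt => Φ ((t, σ k) :: l)) :=
      hΦ.comp (measurable_cons.comp (measurable_const.prodMk measurable_id))
    rw [hσ k, ih t hcm]
    rfl

theorem lintegral_Pm_colour (p : Fin 3 → ℝ) (σ : Equiv.Perm (Fin 3)) (hσ : ∀ c, p (σ c) = p c)
    (u w : ℝ) {Φ : List Pt → ENNReal} (hΦ : Measurable Φ) :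
    ∫⁻ l, Φ l ∂(Pm p u w) = ∫⁻ l, Φ (l.map (fun y : Pt => (y.1, σ y.2))) ∂(Pm p u w) := by
  rw [lintegral_Pm, lintegral_Pm]
  congr 1
  exact tsum_congr fun n => A9_colour p σ hσ n u w hΦ

end Pool.SM3
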