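/-
SM3.B1 : the fuel recursion stabilises.
PROOF. `MtN_symm`: induction on the fuel.  `MtN_mem`: by cases on the fuel (fuel 0 is False).
`Mt_iff_MtN`: for a pair `(x,y)` let `rk x y` be the number of pairs `(a,b) ∈ Y ×ˢ Y` with `|a.1-b.1| < |x.1-y.1|`
(`≤ ncard Y ^ 2`).  Claim: for `m, m' ≥ rk x y + 1`: `MtN Y m x y ↔ MtN Y m' x y`, by strong induction on `rk x y`: if `x ∉ Y` or `y ∉ Y` both
sides are False.  If `x, y, z ∈ Y` and `|x.1-z.1| < |x.1-y.1|` then `rk x z < rk x y` (the pair `(x,z)` is counted in the second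
but not in the first), so `MtN Y (m-1) x z ↔ MtN Y (m'-1) x z` (for `z ∉ Y` both are False).
`Mt_rec`: `→`: if `MtN Y n x y` for all `n ≥ N`: membership is clear; if `|x-z| < |x-y|` and `Mt Y x z` then for large `n` both
`MtN Y (n+1) x y` and `MtN Y n x z`, contradiction.  `←`: by `Mt_iff_MtN`, `Mt Y x y ↔ MtN Y (n+1) x y` for `n ≥ ncard^2+1`,
and `MtN Y n x z ↔ Mt Y x z`.
-/
import Pool.Agent.Lib.SM3.Defs

set_option autoImplicit false

open MeasureTheory Set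

namespace Pool.SM3

theorem MtN_symm {Y : Set Pt} {n : ℕ} {x y : Pt} (h : MtN Y n x y) : MtN Y n y x := by
  cases n with
  | zero => exact h
  | succ n =>
    obtain ⟨hx, hy, hc, h1, h2⟩ := h
    refine ⟨hy, hx, hc.symm, ?_, ?_⟩
    · intro z hz
      rw [abs_sub_comm y.1 x.1] at hz
      exact h2 z hz
    · intro z hz
      rw [abs_sub_comm y.1 x.1] at hz
      exact h1 z hz

theorem MtN_mem {Y : Set Pt} {n : ℕ} {x y : Pt} (h : MtN Y n x y) : x ∈ Y ∧ y ∈ Y ∧ x.2 ≠ y.2 := by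
  cases n with
  | zero => exact h.elim
  | succ n => exact ⟨h.1, h.2.1, h.2.2.1⟩

theorem Mt_symm {Y : Set Pt} {x y : Pt} (h : Mt Y x y) : Mt Y y x := by
  obtain ⟨N, hN⟩ := h
  exact ⟨N, fun n hn => MtN_symm (hN n hn)⟩

theorem Mt_mem {Y : Set Pt} {x y : Pt} (h : Mt Y x y) : x ∈ Y ∧ y ∈ Y ∧ x.2 ≠ y.2 := by
  obtain ⟨N, hN⟩ := h
  exact MtN_mem (hN N le_rfl)

private def B1S (Y : Set Pt) (d : ℝ) : Set (Pt × Pt) :=
  {q | q.1 ∈ Y ∧ q.2 ∈ Y ∧ |q.1.1 - q.2.1| < d}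

private theorem B1S_fin {Y : Set Pt} (hY : Y.Finite) (d : ℝ) : (B1S Y d).Finite :=
  (hY.prod hY).subset (fun _ hq => ⟨hq.1, hq.2.1⟩)

private theorem B1S_card {Y : Set Pt} (hY : Y.Finite) (d : ℝ) : (B1S Y d).ncard ≤ Y.ncard ^ 2 := by
  have : (B1S Y d).ncard ≤ (Y ×ˢ Y).ncard :=
    Set.ncard_le_ncard (fun _ hq => ⟨hq.1, hq.2.1⟩) (hY.prod hY)
  rw [Set.ncard_prod] at this
  rw [pow_two]
  exact this

private theorem B1_rk {Y : Set Pt} (hY : Y.Finite) {x z : Pt} {d : ℝ} (hx : x ∈ Y) (hz : z ∈ Y)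
    (h : |x.1 - z.1| < d) : (B1S Y |x.1 - z.1|).ncard < (B1S Y d).ncard := by
  refine Set.ncard_lt_ncard ?_ (B1S_fin hY d)
  refine ⟨fun q hq => ⟨hq.1, hq.2.1, hq.2.2.trans h⟩, fun hsub => ?_⟩
  have : (x, z) ∈ B1S Y |x.1 - z.1| := hsub ⟨hx, hz, h⟩
  exact lt_irrefl _ this.2.2

private theorem B1_stab {Y : Set Pt} (hY : Y.Finite) : ∀ (k : ℕ) (x y : Pt),
    (B1S Y |x.1 - y.1|).ncard ≤ k → ∀ m m' : ℕ, k + 1 ≤ m → k + 1 ≤ m' →
    (MtN Y m x y ↔ MtN Y m' x y) := by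
  intro k
  induction k using Nat.strong_induction_on with
  | _ k ih =>
    intro x y hk m m' hm hm'
    obtain ⟨m, rfl⟩ : ∃ i, m = i + 1 := ⟨m - 1, by omega⟩
    obtain ⟨m', rfl⟩ : ∃ i, m' = i + 1 := ⟨m' - 1, by omega⟩
    have key : ∀ v ∈ Y, ∀ z : Pt, |v.1 - z.1| < |x.1 - y.1| → (MtN Y m v z ↔ MtN Y m' v z) := by
      intro v hv z hz
      by_cases hzY : z ∈ Y
      · have hlt := B1_rk hY hv hzY hz
        have hlt' : (B1S Y |v.1 - z.1|).ncard < k := lt_of_lt_of_le hlt hk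
        exact ih _ hlt' v z le_rfl m m' (by omega) (by omega)
      · constructor
        · intro h
          exact absurd (MtN_mem h).2.1 hzY
        · intro h
          exact absurd (MtN_mem h).2.1 hzY
    constructor
    · rintro ⟨hx, hy, hc, h1, h2⟩
      exact ⟨hx, hy, hc, fun z hz hh => h1 z hz ((key x hx z hz).2 hh),
        fun z hz hh => h2 z hz ((key y hy z hz).2 hh)⟩
    · rintro ⟨hx, hy, hc, h1, h2⟩
      exact ⟨hx, hy, hc, fun z hz hh => h1 z hz ((key x hx z hz).1 hh),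
        fun z hz hh => h2 z hz ((key y hy z hz).1 hh)⟩

theorem Mt_iff_MtN {Y : Set Pt} (hY : Y.Finite) {n : ℕ} (hn : Y.ncard ^ 2 + 1 ≤ n) (x y : Pt) :
    Mt Y x y ↔ MtN Y n x y := by
  have hs := B1_stab hY (Y.ncard ^ 2) x y (B1S_card hY _)
  constructor
  · rintro ⟨N, hN⟩
    exact (hs (max N n) n (le_trans hn (le_max_right _ _)) hn).1 (hN _ (le_max_left _ _))
  · intro h
    exact ⟨n, fun m hm => (hs m n (hn.trans hm) hn).2 h⟩

theorem Mt_rec {Y : Set Pt} (hY : Y.Finite) (r : ℝ) : Rec Y r (Mt Y) := by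
  intro x y _
  have h1 := Mt_iff_MtN hY (n := Y.ncard ^ 2 + 1) le_rfl
  have h2 := Mt_iff_MtN hY (n := Y.ncard ^ 2 + 1 + 1) (by omega)
  rw [h2 x y]
  constructor
  · rintro ⟨hx, hy, hc, ha, hb⟩
    exact ⟨hx, hy, hc, fun z hz hh => ha z hz ((h1 x z).1 hh),
      fun z hz hh => hb z hz ((h1 y z).1 hh)⟩
  · rintro ⟨hx, hy, hc, ha, hb⟩
    exact ⟨hx, hy, hc, fun z hz hh => ha z hz ((h1 x z).2 hh),
      fun z hz hh => hb z hz ((h1 y z).2 hh)⟩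

end Pool.SM3
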