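/-
SM3.B2 : uniqueness and restriction of the recursion.
PROOF. `Rec_unique`: strong induction on the number of pairs `(a,b) ∈ Y ×ˢ Y` with `|a-b| < |x-y|` (finite); in the recursion a `z` with
`M x z` or `M' x z`, `|x-z| < |x-y| < r` is in `Y` (by Rec), and `(x,z)` has smaller rank.
`Rec_restrict`: let `x, y ∈ H` (otherwise both sides are False), `|x-y| < r`.  `M x y ↔ ..` by `hM`; the conditions
`∀ z, |x-z| < |x-y| → ¬ M x z` and `∀ z, .. → ¬ (M x z ∧ x ∈ H ∧ z ∈ H)` are equivalent by `hiso`.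
`Mt_restrict`: `Rec_restrict`, `Mt_rec`, `Rec_unique`.
`Fr_iff_Mt`: from Mt_rec.
-/
import Pool.Agent.Lib.SM3.B1

set_option autoImplicit false

open MeasureTheory Set

namespace Pool.SM3

theorem Rec.mono {Y : Set Pt} {r r' : ℝ} {M : Pt → Pt → Prop} (h : Rec Y r M) (hr : r' ≤ r) :
    Rec Y r' M := fun x y hxy => h x y (lt_of_lt_of_le hxy hr)

/-- the pairs of points of `Y` at distance `< d` -/
private def b2P (Y : Set Pt) (d : ℝ) : Set (Pt × Pt) := {q | q ∈ Y ×ˢ Y ∧ |q.1.1 - q.2.1| < d}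

private theorem b2_lt {Y : Set Pt} (hY : Y.Finite) {d : ℝ} {x z : Pt} (hx : x ∈ Y) (hz : z ∈ Y)
    (hd : |x.1 - z.1| < d) : (b2P Y |x.1 - z.1|).ncard < (b2P Y d).ncard := by
  refine Set.ncard_lt_ncard ?_ ((hY.prod hY).subset fun q hq => hq.1)
  refine Set.ssubset_iff_subset_ne.mpr ⟨fun q hq => ⟨hq.1, hq.2.trans hd⟩, fun he => ?_⟩
  have h1 : (x, z) ∈ b2P Y d := ⟨⟨hx, hz⟩, hd⟩
  rw [← he] at h1
  exact lt_irrefl _ h1.2

private theorem b2_uniq {Y : Set Pt} (hY : Y.Finite) {r : ℝ} {M M' : Pt → Pt → Prop} (h : Rec Y r M)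
    (h' : Rec Y r M') (n : ℕ) : ∀ x y : Pt, |x.1 - y.1| < r → (b2P Y |x.1 - y.1|).ncard = n →
      (M x y ↔ M' x y) := by
  induction n using Nat.strong_induction_on with
  | _ n ih =>
    intro x y hxy hn
    have key : ∀ a z : Pt, |a.1 - z.1| < |x.1 - y.1| → (M a z ↔ M' a z) := by
      intro a z haz
      by_cases hm : a ∈ Y ∧ z ∈ Y
      · exact ih _ (by rw [← hn]; exact b2_lt hY hm.1 hm.2 haz) a z (haz.trans hxy) rfl
      · constructor
        · intro h1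
          have h2 := (h a z (haz.trans hxy)).mp h1
          exact absurd ⟨h2.1, h2.2.1⟩ hm
        · intro h1
          have h2 := (h' a z (haz.trans hxy)).mp h1
          exact absurd ⟨h2.1, h2.2.1⟩ hm
    rw [h x y hxy, h' x y hxy]
    have e1 : (∀ z, |x.1 - z.1| < |x.1 - y.1| → ¬ M x z) ↔
        (∀ z, |x.1 - z.1| < |x.1 - y.1| → ¬ M' x z) :=
      forall_congr' fun z => forall_congr' fun hz => not_congr (key x z hz)
    have e2 : (∀ z, |y.1 - z.1| < |x.1 - y.1| → ¬ M y z) ↔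
        (∀ z, |y.1 - z.1| < |x.1 - y.1| → ¬ M' y z) :=
      forall_congr' fun z => forall_congr' fun hz => not_congr (key y z hz)
    rw [e1, e2]

theorem Rec_unique {Y : Set Pt} (hY : Y.Finite) {r : ℝ} {M M' : Pt → Pt → Prop} (h : Rec Y r M)
    (h' : Rec Y r M') {x y : Pt} (hxy : |x.1 - y.1| < r) : M x y ↔ M' x y :=
  b2_uniq hY h h' _ x y hxy rfl

theorem Rec_restrict {Y H : Set Pt} (hH : H ⊆ Y) {r : ℝ} {M : Pt → Pt → Prop} (hM : Rec Y r M)
    (hs : ∀ x y, M x y → M y x)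
    (hiso : ∀ x ∈ H, ∀ z, M x z → |x.1 - z.1| < r → z ∈ H) :
    Rec H r (fun x y => M x y ∧ x ∈ H ∧ y ∈ H) := by
  intro x y hxy
  constructor
  · rintro ⟨hm, hx, hy⟩
    obtain ⟨_, _, hc, h1, h2⟩ := (hM x y hxy).mp hm
    exact ⟨hx, hy, hc, fun z hz hc' => h1 z hz hc'.1, fun z hz hc' => h2 z hz hc'.1⟩
  · rintro ⟨hx, hy, hc, h1, h2⟩
    refine ⟨(hM x y hxy).mpr ⟨hH hx, hH hy, hc, fun z hz hm => ?_, fun z hz hm => ?_⟩, hx, hy⟩
    · exact h1 z hz ⟨hm, hx, hiso x hx z hm (lt_trans hz hxy)⟩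
    · exact h2 z hz ⟨hm, hy, hiso y hy z hm (lt_trans hz hxy)⟩

theorem Mt_restrict {Y H : Set Pt} (hH : H ⊆ Y) (hHf : H.Finite) {r : ℝ} {M : Pt → Pt → Prop}
    (hM : Rec Y r M) (hs : ∀ x y, M x y → M y x)
    (hiso : ∀ x ∈ H, ∀ z, M x z → |x.1 - z.1| < r → z ∈ H)
    {x y : Pt} (hx : x ∈ H) (hy : y ∈ H) (hxy : |x.1 - y.1| < r) : M x y ↔ Mt H x y := by
  have h1 := Rec_unique hHf (Rec_restrict hH hM hs hiso) (Mt_rec hHf r) hxy
  exact ⟨fun h => h1.mp ⟨h, hx, hy⟩, fun h => (h1.mpr h).1⟩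

/-- for compatible points: matched iff none of the two has a partner which is closer -/
theorem Mt_iff_Fr {Y : Set Pt} (hY : Y.Finite) {x y : Pt} (hx : x ∈ Y) (hy : y ∈ Y)
    (hc : x.2 ≠ y.2) : Mt Y x y ↔ Fr Y |x.1 - y.1| x ∧ Fr Y |x.1 - y.1| y := by
  rw [Mt_rec hY (|x.1 - y.1| + 1) x y (lt_add_one _)]
  constructor
  · rintro ⟨_, _, _, h1, h2⟩
    exact ⟨fun z hz => le_of_not_gt fun hlt => h1 z hlt hz,
      fun z hz => le_of_not_gt fun hlt => h2 z hlt hz⟩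
  · rintro ⟨h1, h2⟩
    exact ⟨hx, hy, hc, fun z hlt hz => absurd (h1 z hz) (not_le_of_gt hlt),
      fun z hlt hz => absurd (h2 z hz) (not_le_of_gt hlt)⟩

theorem Fr.mono {Y : Set Pt} {r r' : ℝ} {x : Pt} (h : Fr Y r x) (hr : r' ≤ r) : Fr Y r' x :=
  fun y hy => le_trans hr (h y hy)

/-- without isosceles triples the partner is unique -/
theorem Mt_partner_unique {Y : Set Pt} (hY : Y.Finite) (hN : NoIso Y) {x y z : Pt} (h : Mt Y x y)
    (h' : Mt Y x z) : y = z := by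
  obtain ⟨hx, hy, _, h1, _⟩ := (Mt_rec hY (|x.1 - y.1| + 1) x y (lt_add_one _)).mp h
  obtain ⟨_, hz, _, h2, _⟩ := (Mt_rec hY (|x.1 - z.1| + 1) x z (lt_add_one _)).mp h'
  rcases lt_trichotomy |x.1 - y.1| |x.1 - z.1| with hlt | heq | hgt
  · exact absurd h (h2 y hlt)
  · exact hN x hx y hy z hz heq
  · exact absurd h' (h1 z hgt)

end Pool.SM3
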