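/-
SM3.B3 : a free point cuts the system.
PROOF.
`no_cross`: `u.2 ≠ w.2` (Rec), so `x.2 ≠ u.2` or `x.2 ≠ w.2`; say `x.2 ≠ u.2` (the other case is symmetric, use `hs`).
`|u-x| < |u-w| < r`, and `M u x` is false (else `M x u`, `r ≤ |x-u| < r`).  By Rec for the pair `(u,x)` there is `z` with
(`|u-z| < |u-x|` and `M u z`) or (`|x-z| < |u-x|` and `M x z`).  The second contradicts `hfr`.  The first contradicts
Rec for the pair `(u,w)` (`M u w`, `|u-z| < |u-w|`).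
`Mt_Rig`: `Mt_restrict` with `H = Rig Y x.1`, `M = Mt Y`: if `v ∈ H`, `Mt Y v z`, `|v-z| < r` and `z ∉ H` then `z.1 < x.1 ≤ v.1`; if
`v.1 = x.1` then `v = x` (PosInj), contradiction to `hf`; else `no_cross`.  If `y ∉ Y` or `z ∉ Y` both sides are False.
`Fr_Rig`: same argument: a partner `z` of `v` at distance `< r` is in `Rig Y x.1`.
`Fr_iff_cut`: `→`: `Fr_Rig`, `Fr_Lef` with `v = x`.  `←`: GLUING.  Let `H₁ = Lef Y x.1`, `H₂ = Rig Y x.1`,
`M u v := Mt H₁ u v ∨ Mt H₂ u v`.  Claim `Rec Y r M`; then `Mt Y = M` for pairs of length `< r` (Rec_unique), and `x` has no `M`-partner at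
distance `< r`.  Proof of the claim for `u, v ∈ Y`, `u.2 ≠ v.2`, `|u-v| < r` (else trivial): if both are in `H₁` (not both in `H₂`, since
`H₁ ∩ H₂ = {x}`): `M u v ↔ Mt H₁ u v`; for `z` with `|u-z| < |u-v|`: `Mt H₂ u z` would need `u = x`, impossible as `x` is free in
`H₂`; so the recursion for `H₁` gives it.  Same for `H₂`.  If `u ∈ H₁`, `v ∈ H₂`, `u.1 < x.1 < v.1`: `M u v` is false, and the
right side is false: say `x.2 ≠ u.2`; `Mt H₁ u x` is false, so by Mt_rec for `H₁` there is `z` with `|u-z| < |u-x|`, `Mt H₁ u z` (the alternative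
`Mt H₁ x z`, `|x-z| < |u-x| < r` contradicts freeness), and `|u-z| < |u-v|`.
-/
import Pool.Agent.Lib.SM3.B2

set_option autoImplicit false

open MeasureTheory Set

namespace Pool.SM3

private theorem b3_aux {Y : Set Pt} {r : ℝ} {M : Pt → Pt → Prop} (hM : Rec Y r M) {x u : Pt}
    {d : ℝ} (hx : x ∈ Y) (hu : u ∈ Y) (hc : u.2 ≠ x.2) (hfr : ∀ y, M x y → r ≤ |x.1 - y.1|)
    (hux : |u.1 - x.1| < d) (hd : d ≤ r) (ha : ∀ z, |u.1 - z.1| < d → ¬ M u z) : False := by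
  have hl : |u.1 - x.1| < r := lt_of_lt_of_le hux hd
  refine ha x hux ((hM u x hl).2 ⟨hu, hx, hc, fun z hz => ha z (hz.trans hux), fun z hz hm => ?_⟩)
  have h1 := hfr z hm
  linarith

theorem no_cross {Y : Set Pt} {r : ℝ} {M : Pt → Pt → Prop} (hM : Rec Y r M)
    (hs : ∀ x y, M x y → M y x) {x u w : Pt} (hx : x ∈ Y)
    (hfr : ∀ y, M x y → r ≤ |x.1 - y.1|) (huw : M u w) (hl : |u.1 - w.1| < r)
    (h1 : u.1 < x.1) (h2 : x.1 < w.1) : False := by
  obtain ⟨hu, hw, hc, a1, a2⟩ := (hM u w hl).1 huw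
  have e0 : |u.1 - w.1| = w.1 - u.1 := by
    rw [abs_of_neg (by linarith)]
    ring
  by_cases hxu : u.2 = x.2
  · have hxw : w.2 ≠ x.2 := fun h => hc (hxu.trans h.symm)
    refine b3_aux hM hx hw hxw hfr (d := |u.1 - w.1|) ?_ hl.le a2
    rw [e0, abs_of_pos (by linarith)]
    linarith
  · refine b3_aux hM hx hu hxu hfr (d := |u.1 - w.1|) ?_ hl.le a1
    rw [e0, abs_of_neg (by linarith)]
    linarith

theorem NoIso.posInj {Y : Set Pt} (h : NoIso Y) : PosInj Y := by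
  intro x hx y hy hxy
  refine h x hx x hx y hy ?_
  rw [hxy]

private theorem b3_rig_sub {Y : Set Pt} {t : ℝ} : Rig Y t ⊆ Y := fun _ h => h.1

private theorem b3_lef_sub {Y : Set Pt} {t : ℝ} : Lef Y t ⊆ Y := fun _ h => h.1

private theorem b3_iso_rig {Y : Set Pt} (hY : Y.Finite) (hi : PosInj Y) {x : Pt} (hx : x ∈ Y)
    {r : ℝ} (hf : Fr Y r x) : ∀ v ∈ Rig Y x.1, ∀ z, Mt Y v z → |v.1 - z.1| < r → z ∈ Rig Y x.1 := by
  intro v hv z hm hl
  refine ⟨(Mt_mem hm).2.1, ?_⟩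
  by_contra hz
  rw [not_le] at hz
  rcases eq_or_lt_of_le hv.2 with h | h
  · have h1 : x = v := hi x hx v hv.1 h
    subst h1
    exact absurd (hf z hm) (not_le.2 hl)
  · exact no_cross (Mt_rec hY r) (fun a b => Mt_symm) hx hf (Mt_symm hm)
      (by rw [abs_sub_comm]; exact hl) hz h

private theorem b3_iso_lef {Y : Set Pt} (hY : Y.Finite) (hi : PosInj Y) {x : Pt} (hx : x ∈ Y)
    {r : ℝ} (hf : Fr Y r x) : ∀ v ∈ Lef Y x.1, ∀ z, Mt Y v z → |v.1 - z.1| < r → z ∈ Lef Y x.1 := by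
  intro v hv z hm hl
  refine ⟨(Mt_mem hm).2.1, ?_⟩
  by_contra hz
  rw [not_le] at hz
  rcases eq_or_lt_of_le hv.2 with h | h
  · have h1 : v = x := hi v hv.1 x hx h
    subst h1
    exact absurd (hf z hm) (not_le.2 hl)
  · exact no_cross (Mt_rec hY r) (fun a b => Mt_symm) hx hf hm hl h hz

private theorem b3_mt {Y H : Set Pt} (hY : Y.Finite) (hH : H ⊆ Y) {r : ℝ}
    (hiso : ∀ v ∈ H, ∀ z, Mt Y v z → |v.1 - z.1| < r → z ∈ H) {y z : Pt}
    (hy : y ∈ Y → y ∈ H) (hz : z ∈ Y → z ∈ H) (hyz : |y.1 - z.1| < r) :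
    Mt Y y z ↔ Mt H y z := by
  constructor
  · intro h
    exact (Mt_restrict hH (hY.subset hH) (Mt_rec hY r) (fun a b => Mt_symm) hiso
      (hy (Mt_mem h).1) (hz (Mt_mem h).2.1) hyz).1 h
  · intro h
    exact (Mt_restrict hH (hY.subset hH) (Mt_rec hY r) (fun a b => Mt_symm) hiso
      (Mt_mem h).1 (Mt_mem h).2.1 hyz).2 h

theorem Mt_Rig {Y : Set Pt} (hY : Y.Finite) (hi : PosInj Y) {x : Pt} (hx : x ∈ Y) {r : ℝ}
    (hf : Fr Y r x) {y z : Pt} (hy : x.1 ≤ y.1) (hz : x.1 ≤ z.1) (hyz : |y.1 - z.1| < r) :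
    Mt Y y z ↔ Mt (Rig Y x.1) y z :=
  b3_mt hY b3_rig_sub (b3_iso_rig hY hi hx hf) (fun h => ⟨h, hy⟩) (fun h => ⟨h, hz⟩) hyz

theorem Mt_Lef {Y : Set Pt} (hY : Y.Finite) (hi : PosInj Y) {x : Pt} (hx : x ∈ Y) {r : ℝ}
    (hf : Fr Y r x) {y z : Pt} (hy : y.1 ≤ x.1) (hz : z.1 ≤ x.1) (hyz : |y.1 - z.1| < r) :
    Mt Y y z ↔ Mt (Lef Y x.1) y z :=
  b3_mt hY b3_lef_sub (b3_iso_lef hY hi hx hf) (fun h => ⟨h, hy⟩) (fun h => ⟨h, hz⟩) hyz

private theorem b3_fr {Y H : Set Pt} (hY : Y.Finite) (hH : H ⊆ Y) {r : ℝ}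
    (hiso : ∀ v ∈ H, ∀ z, Mt Y v z → |v.1 - z.1| < r → z ∈ H) {v : Pt} (hv : v ∈ Y → v ∈ H) :
    Fr Y r v ↔ Fr H r v := by
  constructor
  · intro h y hm
    by_contra hl
    rw [not_le] at hl
    have h1 : Mt Y v y := (b3_mt hY hH hiso hv (fun _ => (Mt_mem hm).2.1) hl).2 hm
    exact absurd (h y h1) (not_le.2 hl)
  · intro h y hm
    by_contra hl
    rw [not_le] at hl
    have h0 : y ∈ H := hiso v (hv (Mt_mem hm).1) y hm hl
    have h1 : Mt H v y := (b3_mt hY hH hiso hv (fun _ => h0) hl).1 hm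
    exact absurd (h y h1) (not_le.2 hl)

theorem Fr_Rig {Y : Set Pt} (hY : Y.Finite) (hi : PosInj Y) {x : Pt} (hx : x ∈ Y) {r : ℝ}
    (hf : Fr Y r x) {v : Pt} (hv : x.1 ≤ v.1) : Fr Y r v ↔ Fr (Rig Y x.1) r v :=
  b3_fr hY b3_rig_sub (b3_iso_rig hY hi hx hf) (fun h => ⟨h, hv⟩)

theorem Fr_Lef {Y : Set Pt} (hY : Y.Finite) (hi : PosInj Y) {x : Pt} (hx : x ∈ Y) {r : ℝ}
    (hf : Fr Y r x) {v : Pt} (hv : v.1 ≤ x.1) : Fr Y r v ↔ Fr (Lef Y x.1) r v :=
  b3_fr hY b3_lef_sub (b3_iso_lef hY hi hx hf) (fun h => ⟨h, hv⟩)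

/-- both points in `H`: the recursion for the glued matching -/
private theorem b3_same {Y H : Set Pt} (hH : H ⊆ Y) (hHf : H.Finite) {r : ℝ}
    {M : Pt → Pt → Prop} (hM : ∀ u ∈ H, ∀ z, |u.1 - z.1| < r → (M u z ↔ Mt H u z))
    {u v : Pt} (hu : u ∈ H) (hv : v ∈ H) (huv : |u.1 - v.1| < r) :
    M u v ↔ (u ∈ Y ∧ v ∈ Y ∧ u.2 ≠ v.2 ∧
      (∀ z, |u.1 - z.1| < |u.1 - v.1| → ¬ M u z) ∧
      (∀ z, |v.1 - z.1| < |u.1 - v.1| → ¬ M v z)) := by
  rw [hM u hu v huv, Mt_rec hHf r u v huv]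
  constructor
  · rintro ⟨-, -, hc, a1, a2⟩
    exact ⟨hH hu, hH hv, hc, fun z hz h => a1 z hz ((hM u hu z (hz.trans huv)).1 h),
      fun z hz h => a2 z hz ((hM v hv z (hz.trans huv)).1 h)⟩
  · rintro ⟨-, -, hc, a1, a2⟩
    exact ⟨hu, hv, hc, fun z hz h => a1 z hz ((hM u hu z (hz.trans huv)).2 h),
      fun z hz h => a2 z hz ((hM v hv z (hz.trans huv)).2 h)⟩

theorem Fr_iff_cut {Y : Set Pt} (hY : Y.Finite) (hi : PosInj Y) {x : Pt} (hx : x ∈ Y) {r : ℝ} :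
    Fr Y r x ↔ Fr (Lef Y x.1) r x ∧ Fr (Rig Y x.1) r x := by
  constructor
  · intro h
    exact ⟨(Fr_Lef hY hi hx h le_rfl).1 h, (Fr_Rig hY hi hx h le_rfl).1 h⟩
  rintro ⟨f1, f2⟩
  have hf1 : (Lef Y x.1).Finite := hY.subset b3_lef_sub
  have hf2 : (Rig Y x.1).Finite := hY.subset b3_rig_sub
  have hx1 : x ∈ Lef Y x.1 := ⟨hx, le_rfl⟩
  have hx2 : x ∈ Rig Y x.1 := ⟨hx, le_rfl⟩
  have R1 := Mt_rec hf1 r
  have R2 := Mt_rec hf2 r
  have hboth : ∀ u, u ∈ Lef Y x.1 → u ∈ Rig Y x.1 → u = x := fun u h1 h2 =>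
    hi u h1.1 x hx (le_antisymm h1.2 h2.2)
  let M : Pt → Pt → Prop := fun u v => Mt (Lef Y x.1) u v ∨ Mt (Rig Y x.1) u v
  have hM1 : ∀ u ∈ Lef Y x.1, ∀ z, |u.1 - z.1| < r → (M u z ↔ Mt (Lef Y x.1) u z) := by
    intro u hu z hz
    refine ⟨fun h => h.resolve_right fun h2 => ?_, Or.inl⟩
    have h3 := hboth u hu (Mt_mem h2).1
    rw [h3] at h2 hz
    exact absurd (f2 z h2) (not_le.2 hz)
  have hM2 : ∀ u ∈ Rig Y x.1, ∀ z, |u.1 - z.1| < r → (M u z ↔ Mt (Rig Y x.1) u z) := by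
    intro u hu z hz
    refine ⟨fun h => h.resolve_left fun h2 => ?_, Or.inr⟩
    have h3 := hboth u (Mt_mem h2).1 hu
    rw [h3] at h2 hz
    exact absurd (f1 z h2) (not_le.2 hz)
  have hR : Rec Y r M := by
    intro u v huv
    by_cases hu : u ∈ Y
    swap
    · constructor
      · rintro (h | h)
        · exact absurd (Mt_mem h).1.1 hu
        · exact absurd (Mt_mem h).1.1 hu
      · exact fun h => absurd h.1 hu
    by_cases hv : v ∈ Y
    swap
    · constructor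
      · rintro (h | h)
        · exact absurd (Mt_mem h).2.1.1 hv
        · exact absurd (Mt_mem h).2.1.1 hv
      · exact fun h => absurd h.2.1 hv
    rcases le_or_gt u.1 x.1 with hu1 | hu1
    · rcases le_or_gt v.1 x.1 with hv1 | hv1
      · exact b3_same b3_lef_sub hf1 hM1 ⟨hu, hu1⟩ ⟨hv, hv1⟩ huv
      · rcases eq_or_lt_of_le hu1 with hu2 | hu2
        · exact b3_same b3_rig_sub hf2 hM2 ⟨hu, hu2.ge⟩ ⟨hv, hv1.le⟩ huv
        · constructor
          · rintro (h | h)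
            · exact absurd (Mt_mem h).2.1.2 (not_le.2 hv1)
            · exact absurd (Mt_mem h).1.2 (not_le.2 hu2)
          · rintro ⟨-, -, hc, a1, a2⟩
            exfalso
            have e0 : |u.1 - v.1| = v.1 - u.1 := by
              rw [abs_of_neg (by linarith)]
              ring
            by_cases hxu : u.2 = x.2
            · have hxw : v.2 ≠ x.2 := fun h => hc (hxu.trans h.symm)
              refine b3_aux R2 hx2 ⟨hv, hv1.le⟩ hxw f2 (d := |u.1 - v.1|) ?_ huv.le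
                (fun z hz h => a2 z hz (Or.inr h))
              rw [e0, abs_of_pos (by linarith)]
              linarith
            · refine b3_aux R1 hx1 ⟨hu, hu1⟩ hxu f1 (d := |u.1 - v.1|) ?_ huv.le
                (fun z hz h => a1 z hz (Or.inl h))
              rw [e0, abs_of_neg (by linarith)]
              linarith
    · rcases le_or_gt v.1 x.1 with hv1 | hv1
      · rcases eq_or_lt_of_le hv1 with hv2 | hv2
        · exact b3_same b3_rig_sub hf2 hM2 ⟨hu, hu1.le⟩ ⟨hv, hv2.ge⟩ huv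
        · constructor
          · rintro (h | h)
            · exact absurd (Mt_mem h).1.2 (not_le.2 hu1)
            · exact absurd (Mt_mem h).2.1.2 (not_le.2 hv2)
          · rintro ⟨-, -, hc, a1, a2⟩
            exfalso
            have e0 : |u.1 - v.1| = u.1 - v.1 := abs_of_pos (by linarith)
            by_cases hxu : u.2 = x.2
            · have hxw : v.2 ≠ x.2 := fun h => hc (hxu.trans h.symm)
              refine b3_aux R1 hx1 ⟨hv, hv1⟩ hxw f1 (d := |u.1 - v.1|) ?_ huv.le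
                (fun z hz h => a2 z hz (Or.inl h))
              rw [e0, abs_of_neg (by linarith)]
              linarith
            · refine b3_aux R2 hx2 ⟨hu, hu1.le⟩ hxu f2 (d := |u.1 - v.1|) ?_ huv.le
                (fun z hz h => a1 z hz (Or.inr h))
              rw [e0, abs_of_pos (by linarith)]
              linarith
      · exact b3_same b3_rig_sub hf2 hM2 ⟨hu, hu1.le⟩ ⟨hv, hv1.le⟩ huv
  intro y hm
  by_contra hl
  rw [not_le] at hl
  rcases (Rec_unique hY (Mt_rec hY r) hR hl).1 hm with h | h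
  · exact absurd (f1 y h) (not_le.2 hl)
  · exact absurd (f2 y h) (not_le.2 hl)

end Pool.SM3
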