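/-
SM3.B4 : the splitting of the events of a closed system at an interior point.
PROOF. `l = l₁ ++ y :: l₂` sorted in `(u,w)`, `Y = cl u a w b l`; `Lef Y y.1 = cl u a y.1 y.2 l₁` and
`Rig Y y.1 = cl y.1 y.2 w b l₂` (set equalities; `(y.1, y.2) = y`).
`free_split`: `Gd u a w b r l ∧ Fr Y r y`: by Fr_iff_cut at `y`, `Fr Y r y ↔` both one-sided; given `Fr Y r y`, `Fr_Lef` for `(u,a)` and
`Fr_Rig` for `(w,b)`.
`left_split`: let `d = y.1 - u`.  `→`: `Mt Y (u,a) y` gives `Fr Y d (u,a)`, `Fr Y d y` (Mt_iff_Fr).  Cut at `y` at level `d`: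
`Fr (Rig Y y.1) d y`, and `Fr Y d (w,b) ↔ Fr (Rig Y y.1) d (w,b)` (Fr_Rig), so `Gd y.1 y.2 w b d l₂`.
`Fr (Lef Y y.1) d y` and `Fr (Lef Y y.1) d (u,a)` (Fr_Lef) give `Md u a y.1 y.2 l₁` by Mt_iff_Fr in `Lef Y y.1`.
`←`: `Md u a y.1 y.2 l₁` gives `Fr (Lef Y y.1) d y` and `Fr (Lef Y y.1) d (u,a)`; with `Fr (Rig Y y.1) d y` and Fr_iff_cut: `Fr Y d y`; then
`Fr Y d (u,a)` (Fr_Lef) and `Fr Y d (w,b)` (Fr_Rig), and `Mt Y (u,a) y` by Mt_iff_Fr.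
`right_split`: mirror image (`d = w - y.1`).
-/
import Pool.Agent.Lib.SM3.B3

set_option autoImplicit false

open MeasureTheory Set

namespace Pool.SM3

theorem cl_finite (u : ℝ) (a : Fin 3) (w : ℝ) (b : Fin 3) (l : List Pt) : (cl u a w b l).Finite :=
  List.finite_toSet _

private theorem B4_facts {u w : ℝ} {l₁ l₂ : List Pt} {y : Pt} (hl : SL u w (l₁ ++ y :: l₂)) :
    u < y.1 ∧ y.1 < w ∧ (∀ z ∈ l₁, z.1 < y.1) ∧ (∀ z ∈ l₂, y.1 < z.1) := by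
  obtain ⟨h1, h2⟩ := hl
  rw [List.pairwise_append] at h1
  obtain ⟨-, h3, h4⟩ := h1
  have hy := h2 y (by simp)
  refine ⟨hy.1, hy.2, fun z hz => h4 z hz y (by simp), fun z hz => ?_⟩
  exact (List.pairwise_cons.1 h3).1 z hz

theorem Lef_cl {u w : ℝ} (a b : Fin 3) {l₁ l₂ : List Pt} {y : Pt} (hl : SL u w (l₁ ++ y :: l₂)) :
    Lef (cl u a w b (l₁ ++ y :: l₂)) y.1 = cl u a y.1 y.2 l₁ := by
  obtain ⟨hu, hw, h1, h2⟩ := B4_facts hl
  ext z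
  simp only [Lef, cl, Set.mem_setOf_eq, List.mem_cons, List.mem_append]
  constructor
  · rintro ⟨h | h | h | h | h, hz⟩
    · exact Or.inl h
    · exfalso
      rw [h] at hz
      exact absurd hw (not_lt.2 hz)
    · exact Or.inr (Or.inr h)
    · exact Or.inr (Or.inl h)
    · exact absurd (h2 z h) (not_lt.2 hz)
  · rintro (h | h | h)
    · refine ⟨Or.inl h, ?_⟩
      rw [h]
      exact hu.le
    · refine ⟨Or.inr (Or.inr (Or.inr (Or.inl h))), ?_⟩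
      rw [h]
    · exact ⟨Or.inr (Or.inr (Or.inl h)), (h1 z h).le⟩

theorem Rig_cl {u w : ℝ} (a b : Fin 3) {l₁ l₂ : List Pt} {y : Pt} (hl : SL u w (l₁ ++ y :: l₂)) :
    Rig (cl u a w b (l₁ ++ y :: l₂)) y.1 = cl y.1 y.2 w b l₂ := by
  obtain ⟨hu, hw, h1, h2⟩ := B4_facts hl
  ext z
  simp only [Rig, cl, Set.mem_setOf_eq, List.mem_cons, List.mem_append]
  constructor
  · rintro ⟨h | h | h | h | h, hz⟩
    · exfalso
      rw [h] at hz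
      exact absurd hu (not_lt.2 hz)
    · exact Or.inr (Or.inl h)
    · exact absurd (h1 z h) (not_lt.2 hz)
    · exact Or.inl h
    · exact Or.inr (Or.inr h)
  · rintro (h | h | h)
    · refine ⟨Or.inr (Or.inr (Or.inr (Or.inl h))), ?_⟩
      rw [h]
    · refine ⟨Or.inr (Or.inl h), ?_⟩
      rw [h]
      exact hw.le
    · exact ⟨Or.inr (Or.inr (Or.inr (Or.inr h))), (h2 z h).le⟩

theorem posInj_cl {u w : ℝ} (h : u < w) (a b : Fin 3) {l : List Pt} (hl : SL u w l) :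
    PosInj (cl u a w b l) := by
  obtain ⟨hp, hi⟩ := hl
  have hp' : l.Pairwise (fun x y => x.1 ≠ y.1) := hp.imp fun h => h.ne
  have key : ∀ x ∈ l, ∀ y ∈ l, x.1 = y.1 → x = y := by
    intro x hx y hy hxy
    by_contra hne
    haveI : Std.Symm (fun x y : Pt => x.1 ≠ y.1) := ⟨fun _ _ h => h.symm⟩
    exact List.Pairwise.forall hp' hx hy hne hxy
  intro x hx y hy hxy
  simp only [cl, Set.mem_setOf_eq, List.mem_cons] at hx hy
  rcases hx with rfl | rfl | hx <;> rcases hy with rfl | rfl | hy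
  · rfl
  · exact absurd hxy h.ne
  · exact absurd hxy (hi y hy).1.ne
  · exact absurd hxy h.ne'
  · rfl
  · exact absurd hxy (hi y hy).2.ne'
  · exact absurd hxy (hi x hx).1.ne'
  · exact absurd hxy (hi x hx).2.ne
  · exact key x hx y hy hxy

theorem free_split {u w : ℝ} (h : u < w) (a b : Fin 3) {l₁ l₂ : List Pt} {y : Pt}
    (hl : SL u w (l₁ ++ y :: l₂)) (r : ℝ) :
    (Gd u a w b r (l₁ ++ y :: l₂) ∧ Fr (cl u a w b (l₁ ++ y :: l₂)) r y) ↔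
      (Gd u a y.1 y.2 r l₁ ∧ Gd y.1 y.2 w b r l₂) := by
  obtain ⟨hu, hw, -, -⟩ := B4_facts hl
  have hfin := cl_finite u a w b (l₁ ++ y :: l₂)
  have hinj := posInj_cl h a b hl
  have hy : y ∈ cl u a w b (l₁ ++ y :: l₂) := by simp [cl]
  have hL := Lef_cl a b hl
  have hR := Rig_cl a b hl
  have hcut := Fr_iff_cut hfin hinj hy (r := r)
  have hfl : Fr (cl u a w b (l₁ ++ y :: l₂)) r y → _ := fun hf =>
    Fr_Lef hfin hinj hy hf (v := (u, a)) hu.le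
  have hfr : Fr (cl u a w b (l₁ ++ y :: l₂)) r y → _ := fun hf =>
    Fr_Rig hfin hinj hy hf (v := (w, b)) hw.le
  rw [hL] at hcut hfl
  rw [hR] at hcut hfr
  unfold Gd
  constructor
  · rintro ⟨⟨h1, h2⟩, h3⟩
    exact ⟨⟨(hfl h3).1 h1, (hcut.1 h3).1⟩, ⟨(hcut.1 h3).2, (hfr h3).1 h2⟩⟩
  · rintro ⟨⟨h1, h2⟩, ⟨h3, h4⟩⟩
    have h5 := hcut.2 ⟨h2, h3⟩
    exact ⟨⟨(hfl h5).2 h1, (hfr h5).2 h4⟩, h5⟩

theorem left_split {u w : ℝ} (h : u < w) (a b : Fin 3) {l₁ l₂ : List Pt} {y : Pt}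
    (hl : SL u w (l₁ ++ y :: l₂)) :
    (Mt (cl u a w b (l₁ ++ y :: l₂)) (u, a) y ∧
        Fr (cl u a w b (l₁ ++ y :: l₂)) (y.1 - u) (w, b)) ↔
      (Md u a y.1 y.2 l₁ ∧ Gd y.1 y.2 w b (y.1 - u) l₂) := by
  obtain ⟨hu, hw, -, -⟩ := B4_facts hl
  have hfin := cl_finite u a w b (l₁ ++ y :: l₂)
  have hinj := posInj_cl h a b hl
  have hy : y ∈ cl u a w b (l₁ ++ y :: l₂) := by simp [cl]
  have hua : (u, a) ∈ cl u a w b (l₁ ++ y :: l₂) := by simp [cl]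
  have hL := Lef_cl a b hl
  have hR := Rig_cl a b hl
  have hcut := Fr_iff_cut hfin hinj hy (r := y.1 - u)
  have hfl : Fr (cl u a w b (l₁ ++ y :: l₂)) (y.1 - u) y → _ := fun hf =>
    Fr_Lef hfin hinj hy hf (v := (u, a)) hu.le
  have hfr : Fr (cl u a w b (l₁ ++ y :: l₂)) (y.1 - u) y → _ := fun hf =>
    Fr_Rig hfin hinj hy hf (v := (w, b)) hw.le
  rw [hL] at hcut hfl
  rw [hR] at hcut hfr
  have hd : |((u, a) : Pt).1 - y.1| = y.1 - u := by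
    rw [abs_sub_comm]
    exact abs_of_pos (sub_pos.2 hu)
  by_cases hc : a = y.2
  · constructor
    · rintro ⟨h1, -⟩
      exact absurd hc (Mt_mem h1).2.2
    · rintro ⟨h1, -⟩
      exact absurd hc (Mt_mem h1).2.2
  have hM := Mt_iff_Fr hfin hua hy (x := (u, a)) (y := y) hc
  have hM' := Mt_iff_Fr (cl_finite u a y.1 y.2 l₁) (x := (u, a)) (y := y) (by simp [cl])
    (by simp [cl]) hc
  rw [hd] at hM hM'
  unfold Md Gd
  constructor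
  · rintro ⟨h1, h2⟩
    obtain ⟨h3, h4⟩ := hM.1 h1
    exact ⟨hM'.2 ⟨(hfl h4).1 h3, (hcut.1 h4).1⟩, (hcut.1 h4).2, (hfr h4).1 h2⟩
  · rintro ⟨h1, h2, h3⟩
    obtain ⟨h4, h5⟩ := hM'.1 h1
    have h6 := hcut.2 ⟨h5, h2⟩
    exact ⟨hM.2 ⟨(hfl h6).2 h4, h6⟩, (hfr h6).2 h3⟩

theorem right_split {u w : ℝ} (h : u < w) (a b : Fin 3) {l₁ l₂ : List Pt} {y : Pt}
    (hl : SL u w (l₁ ++ y :: l₂)) :
    (Mt (cl u a w b (l₁ ++ y :: l₂)) (w, b) y ∧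
        Fr (cl u a w b (l₁ ++ y :: l₂)) (w - y.1) (u, a)) ↔
      (Gd u a y.1 y.2 (w - y.1) l₁ ∧ Md y.1 y.2 w b l₂) := by
  obtain ⟨hu, hw, -, -⟩ := B4_facts hl
  have hfin := cl_finite u a w b (l₁ ++ y :: l₂)
  have hinj := posInj_cl h a b hl
  have hy : y ∈ cl u a w b (l₁ ++ y :: l₂) := by simp [cl]
  have hwb : (w, b) ∈ cl u a w b (l₁ ++ y :: l₂) := by simp [cl]
  have hL := Lef_cl a b hl
  have hR := Rig_cl a b hl
  have hcut := Fr_iff_cut hfin hinj hy (r := w - y.1)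
  have hfl : Fr (cl u a w b (l₁ ++ y :: l₂)) (w - y.1) y → _ := fun hf =>
    Fr_Lef hfin hinj hy hf (v := (u, a)) hu.le
  have hfr : Fr (cl u a w b (l₁ ++ y :: l₂)) (w - y.1) y → _ := fun hf =>
    Fr_Rig hfin hinj hy hf (v := (w, b)) hw.le
  rw [hL] at hcut hfl
  rw [hR] at hcut hfr
  have hd : |((w, b) : Pt).1 - y.1| = w - y.1 := abs_of_pos (sub_pos.2 hw)
  by_cases hc : b = y.2
  · constructor
    · rintro ⟨h1, -⟩
      exact absurd hc (Mt_mem h1).2.2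
    · rintro ⟨-, h1⟩
      exact absurd hc.symm (Mt_mem h1).2.2
  have hM := Mt_iff_Fr hfin hwb hy (x := (w, b)) (y := y) hc
  have hM' := Mt_iff_Fr (cl_finite y.1 y.2 w b l₂) (x := (w, b)) (y := y) (by simp [cl])
    (by simp [cl]) hc
  rw [hd] at hM hM'
  unfold Md Gd
  constructor
  · rintro ⟨h1, h2⟩
    obtain ⟨h3, h4⟩ := hM.1 h1
    exact ⟨⟨(hfl h4).1 h2, (hcut.1 h4).1⟩, Mt_symm (hM'.2 ⟨(hfr h4).1 h3, (hcut.1 h4).2⟩)⟩
  · rintro ⟨⟨h1, h2⟩, h3⟩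
    obtain ⟨h4, h5⟩ := hM'.1 (Mt_symm h3)
    have h6 := hcut.2 ⟨h2, h5⟩
    exact ⟨hM.2 ⟨(hfr h6).2 h4, h6⟩, (hfl h6).2 h1⟩

end Pool.SM3
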