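/-
SM3.B5 : equivariance of the matching.
PROOF. `MtN_image`: induction on the fuel (every `z` is `φ z'`).  The corollaries: `φ '' cl u a w b l` is the closed system of the image.
Shift: `φ y = (y.1 + h, y.2)`; scaling `(c * y.1, y.2)`; colours `(y.1, σ y.2)`; reflection `(u + w - y.1, y.2)` exchanges
the two ends (`Mt_symm`).
-/
import Pool.Agent.Lib.SM3.B1

set_option autoImplicit false

open MeasureTheory Set

namespace Pool.SM3

private theorem b5_MtN (φ : Pt ≃ Pt) {c : ℝ} (hc : 0 < c)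
    (h1 : ∀ x y, |(φ x).1 - (φ y).1| = c * |x.1 - y.1|)
    (h2 : ∀ x y, (φ x).2 = (φ y).2 ↔ x.2 = y.2) (Y : Set Pt) (n : ℕ) : ∀ x y : Pt,
    MtN (φ '' Y) n (φ x) (φ y) ↔ MtN Y n x y := by
  induction n with
  | zero => intro x y; exact Iff.rfl
  | succ n ih =>
    intro x y
    unfold MtN
    have hlt : ∀ a b a' b' : Pt, |(φ a).1 - (φ b).1| < |(φ a').1 - (φ b').1| ↔
        |a.1 - b.1| < |a'.1 - b'.1| := by
      intro a b a' b'
      rw [h1, h1]
      exact mul_lt_mul_iff_right₀ hc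
    have hz : ∀ a : Pt, (∀ z, |(φ a).1 - z.1| < |(φ x).1 - (φ y).1| → ¬ MtN (φ '' Y) n (φ a) z) ↔
        ∀ z, |a.1 - z.1| < |x.1 - y.1| → ¬ MtN Y n a z := by
      intro a
      rw [φ.surjective.forall]
      refine forall_congr' fun z => ?_
      rw [hlt, ih]
    rw [hz, hz, φ.injective.mem_set_image, φ.injective.mem_set_image, Ne, Ne, h2]

theorem Mt_image (φ : Pt ≃ Pt) {c : ℝ} (hc : 0 < c)
    (h1 : ∀ x y, |(φ x).1 - (φ y).1| = c * |x.1 - y.1|)
    (h2 : ∀ x y, (φ x).2 = (φ y).2 ↔ x.2 = y.2) (Y : Set Pt) (x y : Pt) :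
    Mt (φ '' Y) (φ x) (φ y) ↔ Mt Y x y := by
  unfold Mt
  refine exists_congr fun N => forall_congr' fun n => ?_
  rw [b5_MtN φ hc h1 h2]

theorem Fr_image (φ : Pt ≃ Pt) {c : ℝ} (hc : 0 < c)
    (h1 : ∀ x y, |(φ x).1 - (φ y).1| = c * |x.1 - y.1|)
    (h2 : ∀ x y, (φ x).2 = (φ y).2 ↔ x.2 = y.2) (Y : Set Pt) (r : ℝ) (x : Pt) :
    Fr (φ '' Y) (c * r) (φ x) ↔ Fr Y r x := by
  unfold Fr
  rw [φ.surjective.forall]
  refine forall_congr' fun y => ?_
  rw [Mt_image φ hc h1 h2, h1, mul_le_mul_iff_right₀ hc]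

private theorem b5_cl (φ : Pt ≃ Pt) (u w : ℝ) (a b : Fin 3) (l : List Pt) :
    φ '' cl u a w b l = {y | y ∈ φ (u, a) :: φ (w, b) :: l.map φ} := by
  ext y
  constructor
  · rintro ⟨z, hz, rfl⟩
    exact List.mem_map_of_mem (f := φ) hz
  · intro hy
    have h : y ∈ List.map φ ((u, a) :: (w, b) :: l) := hy
    obtain ⟨z, hz, rfl⟩ := List.mem_map.1 h
    exact ⟨z, hz, rfl⟩

private theorem b5_Md (φ : Pt ≃ Pt) {c : ℝ} (hc : 0 < c)
    (h1 : ∀ x y, |(φ x).1 - (φ y).1| = c * |x.1 - y.1|)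
    (h2 : ∀ x y, (φ x).2 = (φ y).2 ↔ x.2 = y.2) {u w u' w' : ℝ} {a b a' b' : Fin 3}
    (hu : φ (u, a) = (u', a')) (hw : φ (w, b) = (w', b')) (l : List Pt) :
    Md u' a' w' b' (l.map φ) ↔ Md u a w b l := by
  have h := Mt_image φ hc h1 h2 (cl u a w b l) (u, a) (w, b)
  rw [b5_cl, hu, hw] at h
  exact h

private theorem b5_Gd (φ : Pt ≃ Pt) {c : ℝ} (hc : 0 < c)
    (h1 : ∀ x y, |(φ x).1 - (φ y).1| = c * |x.1 - y.1|)
    (h2 : ∀ x y, (φ x).2 = (φ y).2 ↔ x.2 = y.2) {u w u' w' : ℝ} {a b a' b' : Fin 3}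
    (hu : φ (u, a) = (u', a')) (hw : φ (w, b) = (w', b')) (r : ℝ) (l : List Pt) :
    Gd u' a' w' b' (c * r) (l.map φ) ↔ Gd u a w b r l := by
  have h := Fr_image φ hc h1 h2 (cl u a w b l) r (u, a)
  have h' := Fr_image φ hc h1 h2 (cl u a w b l) r (w, b)
  rw [b5_cl, hu, hw] at h h'
  exact and_congr h h'

private theorem b5_rev (x x' : Pt) (l : List Pt) :
    ({y | y ∈ x :: x' :: l.reverse} : Set Pt) = {y | y ∈ x' :: x :: l} := by
  ext y
  simp only [mem_ofPred_eq, List.mem_cons, List.mem_reverse]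
  tauto

/-- affine maps of the line and permutations of the colours -/
private noncomputable def b5_aff (c h : ℝ) (hc : c ≠ 0) (σ : Equiv.Perm (Fin 3)) : Pt ≃ Pt where
  toFun y := (c * y.1 + h, σ y.2)
  invFun y := ((y.1 - h) / c, σ.symm y.2)
  left_inv y := by
    refine Prod.ext ?_ ?_
    · show (c * y.1 + h - h) / c = y.1
      field_simp
      ring
    · simp
  right_inv y := by
    refine Prod.ext ?_ ?_
    · show c * ((y.1 - h) / c) + h = y.1
      field_simp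
      ring
    · simp

private theorem b5_aff_apply (c h : ℝ) (hc : c ≠ 0) (σ : Equiv.Perm (Fin 3)) (y : Pt) :
    b5_aff c h hc σ y = (c * y.1 + h, σ y.2) := rfl

private theorem b5_aff1 (c h : ℝ) (hc : c ≠ 0) (σ : Equiv.Perm (Fin 3)) (x y : Pt) :
    |(b5_aff c h hc σ x).1 - (b5_aff c h hc σ y).1| = |c| * |x.1 - y.1| := by
  rw [b5_aff_apply, b5_aff_apply, ← abs_mul]
  congr 1
  ring

private theorem b5_aff2 (c h : ℝ) (hc : c ≠ 0) (σ : Equiv.Perm (Fin 3)) (x y : Pt) :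
    (b5_aff c h hc σ x).2 = (b5_aff c h hc σ y).2 ↔ x.2 = y.2 := by
  rw [b5_aff_apply, b5_aff_apply]
  exact σ.injective.eq_iff

theorem Md_shift (h u w : ℝ) (a b : Fin 3) (l : List Pt) :
    Md (u + h) a (w + h) b (l.map (fun y : Pt => (y.1 + h, y.2))) ↔ Md u a w b l := by
  have e : (fun y : Pt => (y.1 + h, y.2)) = b5_aff 1 h one_ne_zero (Equiv.refl _) := by
    funext y
    rw [b5_aff_apply, one_mul]
    rfl
  rw [e]
  refine b5_Md _ (abs_pos.2 one_ne_zero) (b5_aff1 1 h one_ne_zero _) (b5_aff2 1 h one_ne_zero _) ?_ ?_ l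
  · rw [b5_aff_apply, one_mul]
    rfl
  · rw [b5_aff_apply, one_mul]
    rfl

theorem Gd_shift (h u w : ℝ) (a b : Fin 3) (r : ℝ) (l : List Pt) :
    Gd (u + h) a (w + h) b r (l.map (fun y : Pt => (y.1 + h, y.2))) ↔ Gd u a w b r l := by
  have e : (fun y : Pt => (y.1 + h, y.2)) = b5_aff 1 h one_ne_zero (Equiv.refl _) := by
    funext y
    rw [b5_aff_apply, one_mul]
    rfl
  have h0 := b5_Gd (b5_aff 1 h one_ne_zero (Equiv.refl _)) (abs_pos.2 one_ne_zero)
    (b5_aff1 1 h one_ne_zero _) (b5_aff2 1 h one_ne_zero _) (u := u) (w := w) (u' := u + h)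
    (w' := w + h) (a := a) (b := b) (a' := a) (b' := b) (by rw [b5_aff_apply, one_mul]; rfl)
    (by rw [b5_aff_apply, one_mul]; rfl) r l
  rw [abs_one, one_mul] at h0
  rw [e]
  exact h0

theorem Md_scale {c : ℝ} (hc : 0 < c) (u w : ℝ) (a b : Fin 3) (l : List Pt) :
    Md (c * u + 0) a (c * w + 0) b (l.map (fun y : Pt => (c * y.1 + 0, y.2))) ↔ Md u a w b l := by
  have e : (fun y : Pt => (c * y.1 + 0, y.2)) = b5_aff c 0 hc.ne' (Equiv.refl _) := rfl
  rw [e]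
  exact b5_Md (b5_aff c 0 hc.ne' (Equiv.refl _)) (abs_pos.2 hc.ne') (b5_aff1 c 0 hc.ne' _)
    (b5_aff2 c 0 hc.ne' _) (a := a) (b := b) (u := u) (w := w) rfl rfl l

theorem Md_colour (σ : Equiv.Perm (Fin 3)) (u w : ℝ) (a b : Fin 3) (l : List Pt) :
    Md u (σ a) w (σ b) (l.map (fun y : Pt => (y.1, σ y.2))) ↔ Md u a w b l := by
  have e : (fun y : Pt => (y.1, σ y.2)) = b5_aff 1 0 one_ne_zero σ := by
    funext y
    rw [b5_aff_apply, one_mul, add_zero]
  rw [e]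
  refine b5_Md _ (abs_pos.2 one_ne_zero) (b5_aff1 1 0 one_ne_zero _) (b5_aff2 1 0 one_ne_zero _) ?_ ?_ l
  · rw [b5_aff_apply, one_mul, add_zero]
  · rw [b5_aff_apply, one_mul, add_zero]

theorem Gd_colour (σ : Equiv.Perm (Fin 3)) (u w : ℝ) (a b : Fin 3) (r : ℝ) (l : List Pt) :
    Gd u (σ a) w (σ b) r (l.map (fun y : Pt => (y.1, σ y.2))) ↔ Gd u a w b r l := by
  have e : (fun y : Pt => (y.1, σ y.2)) = b5_aff 1 0 one_ne_zero σ := by
    funext y
    rw [b5_aff_apply, one_mul, add_zero]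
  have h0 := b5_Gd (b5_aff 1 0 one_ne_zero σ) (abs_pos.2 one_ne_zero)
    (b5_aff1 1 0 one_ne_zero _) (b5_aff2 1 0 one_ne_zero _) (u := u) (w := w) (u' := u)
    (w' := w) (a := a) (b := b) (a' := σ a) (b' := σ b)
    (by rw [b5_aff_apply, one_mul, add_zero])
    (by rw [b5_aff_apply, one_mul, add_zero]) r l
  rw [abs_one, one_mul] at h0
  rw [e]
  exact h0

private theorem b5_refl_eq (u w : ℝ) (a b : Fin 3) (l : List Pt) :
    b5_aff (-1) (u + w) (by norm_num) (Equiv.refl _) '' cl u a w b l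
      = cl u b w a ((l.map (fun y : Pt => (u + w - y.1, y.2))).reverse) := by
  have e : (b5_aff (-1) (u + w) (by norm_num) (Equiv.refl _) : Pt → Pt)
      = (fun y : Pt => (u + w - y.1, y.2)) := by
    funext y
    rw [b5_aff_apply]
    refine Prod.ext ?_ rfl
    show -1 * y.1 + (u + w) = u + w - y.1
    ring
  rw [b5_cl, e]
  unfold cl
  rw [b5_rev]
  have e1 : ((u + w - u, a) : Pt) = (w, a) := Prod.ext (by ring) rfl
  have e2 : ((u + w - w, b) : Pt) = (u, b) := Prod.ext (by ring) rfl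
  show {y | y ∈ ((u + w - u, a) : Pt) :: ((u + w - w, b) : Pt) :: _} = _
  rw [e1, e2]

theorem Md_reflect (u w : ℝ) (a b : Fin 3) (l : List Pt) :
    Md u b w a ((l.map (fun y : Pt => (u + w - y.1, y.2))).reverse) ↔ Md u a w b l := by
  have h := Mt_image (b5_aff (-1) (u + w) (by norm_num) (Equiv.refl _))
    (abs_pos.2 (by norm_num : (-1 : ℝ) ≠ 0)) (b5_aff1 (-1) (u + w) (by norm_num) _)
    (b5_aff2 (-1) (u + w) (by norm_num) _) (cl u a w b l) (u, a) (w, b)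
  rw [b5_refl_eq] at h
  have e1 : b5_aff (-1) (u + w) (by norm_num) (Equiv.refl _) (u, a) = (w, a) := by
    rw [b5_aff_apply]
    exact Prod.ext (by show -1 * u + (u + w) = w; ring) rfl
  have e2 : b5_aff (-1) (u + w) (by norm_num) (Equiv.refl _) (w, b) = (u, b) := by
    rw [b5_aff_apply]
    exact Prod.ext (by show -1 * w + (u + w) = u; ring) rfl
  rw [e1, e2] at h
  exact ⟨fun h' => h.1 (Mt_symm h'), fun h' => Mt_symm (h.2 h')⟩

theorem Gd_reflect (u w : ℝ) (a b : Fin 3) (r : ℝ) (l : List Pt) :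
    Gd u b w a r ((l.map (fun y : Pt => (u + w - y.1, y.2))).reverse) ↔ Gd u a w b r l := by
  have h := Fr_image (b5_aff (-1) (u + w) (by norm_num) (Equiv.refl _))
    (abs_pos.2 (by norm_num : (-1 : ℝ) ≠ 0)) (b5_aff1 (-1) (u + w) (by norm_num) _)
    (b5_aff2 (-1) (u + w) (by norm_num) _) (cl u a w b l) r
  have e1 : b5_aff (-1) (u + w) (by norm_num) (Equiv.refl _) (u, a) = (w, a) := by
    rw [b5_aff_apply]
    exact Prod.ext (by show -1 * u + (u + w) = w; ring) rfl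
  have e2 : b5_aff (-1) (u + w) (by norm_num) (Equiv.refl _) (w, b) = (u, b) := by
    rw [b5_aff_apply]
    exact Prod.ext (by show -1 * w + (u + w) = u; ring) rfl
  have hr : |(-1 : ℝ)| * r = r := by rw [abs_neg, abs_one, one_mul]
  have h3 := h (u, a)
  have h4 := h (w, b)
  rw [b5_refl_eq, e1, hr] at h3
  rw [b5_refl_eq, e2, hr] at h4
  unfold Gd
  rw [h3, h4]
  exact and_comm

end Pool.SM3
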