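/-
SM3.B6 : measurability of the matching.
PROOF. `measurableSet_Mt`: by `measurable_list_param` (with β = Prop) it is enough that for every `n`
`{(x, y, v) | Mt {z | z ∈ ofFn v} x y}` is measurable; by Mt_iff_MtN it equals `{MtN {z | z ∈ ofFn v} (n^2+1) x y}` (ncard ≤ n).  For each fuel `m`,
`{(x, y, v) | MtN (range v) m x y}` is measurable, by induction on `m`: the quantifier `∀ z` can be restricted to `z = v j`, `j : Fin n`
(`MtN` implies membership), so `MtN (m+1) x y` is a finite Boolean combination of `x ∈ range v` (`∃ i, x = v i`: `measurableSet_eq_fun`),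
`x.2 ≠ y.2`, `|x.1 - (v j).1| < |x.1 - y.1|` and `MtN m x (v j)` (preimage of a measurable set under a
measurable map).
`measurableSet_Fr`: `∀ y ∈ l, Mt {..l} x y → r ≤ |x.1 - y.1|` (a partner is an element of the list): `measurableSet_forall_mem`.
`measurableSet_Gd`, `measurableSet_Md`: compose with the measurable map `θ ↦ (u θ, a θ) :: (w θ, b θ) :: l θ`.
-/
import Pool.Agent.Lib.SM3.A2
import Pool.Agent.Lib.SM3.B1

set_option autoImplicit false

open MeasureTheory Set

namespace Pool.SM3

private theorem b6_eq {Θ : Type*} [MeasurableSpace Θ] {f g : Θ → Pt} (hf : Measurable f)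
    (hg : Measurable g) : Measurable (fun θ => f θ = g θ) := by
  have h1 : Measurable (fun θ => (f θ).1 = (g θ).1) :=
    measurableSet_setOf.mp (measurableSet_eq_fun (measurable_fst.comp hf) (measurable_fst.comp hg))
  have h2 : Measurable (fun θ => (f θ).2 = (g θ).2) := by
    have h3 : Measurable (fun θ => ((f θ).2, (g θ).2)) :=
      (measurable_snd.comp hf).prodMk (measurable_snd.comp hg)
    have h4 : MeasurableSet {q : Fin 3 × Fin 3 | q.1 = q.2} := MeasurableSet.of_discrete
    exact measurableSet_setOf.mp (h3 h4)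
  have h3 : (fun θ => f θ = g θ) = fun θ => (f θ).1 = (g θ).1 ∧ (f θ).2 = (g θ).2 := by
    funext θ
    exact propext Prod.ext_iff
  rw [h3]
  exact h1.and h2

private theorem b6_col {Θ : Type*} [MeasurableSpace Θ] {f g : Θ → Pt} (hf : Measurable f)
    (hg : Measurable g) : Measurable (fun θ => (f θ).2 ≠ (g θ).2) := by
  have h3 : Measurable (fun θ => ((f θ).2, (g θ).2)) :=
    (measurable_snd.comp hf).prodMk (measurable_snd.comp hg)
  have h4 : MeasurableSet {q : Fin 3 × Fin 3 | q.1 ≠ q.2} := MeasurableSet.of_discrete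
  exact measurableSet_setOf.mp (h3 h4)

private theorem b6_lt {Θ : Type*} [MeasurableSpace Θ] {f g h k : Θ → Pt} (hf : Measurable f)
    (hg : Measurable g) (hh : Measurable h) (hk : Measurable k) :
    Measurable (fun θ => |(f θ).1 - (g θ).1| < |(h θ).1 - (k θ).1|) := by
  have h1 : Measurable (fun θ => |(f θ).1 - (g θ).1|) :=
    continuous_abs.measurable.comp ((measurable_fst.comp hf).sub (measurable_fst.comp hg))
  have h2 : Measurable (fun θ => |(h θ).1 - (k θ).1|) :=
    continuous_abs.measurable.comp ((measurable_fst.comp hh).sub (measurable_fst.comp hk))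
  exact measurableSet_setOf.mp (measurableSet_lt h1 h2)

private theorem b6_N (n m : ℕ) : MeasurableSet
    {q : (Pt × Pt) × (Fin n → Pt) | MtN {z | z ∈ List.ofFn q.2} m q.1.1 q.1.2} := by
  induction m with
  | zero =>
    have h : {q : (Pt × Pt) × (Fin n → Pt) | MtN {z | z ∈ List.ofFn q.2} 0 q.1.1 q.1.2} = ∅ := by
      ext q
      simp [MtN]
    rw [h]
    exact MeasurableSet.empty
  | succ m ih =>
    have hx : Measurable (fun q : (Pt × Pt) × (Fin n → Pt) => q.1.1) :=
      measurable_fst.comp measurable_fst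
    have hy : Measurable (fun q : (Pt × Pt) × (Fin n → Pt) => q.1.2) :=
      measurable_snd.comp measurable_fst
    have hv : ∀ j : Fin n, Measurable (fun q : (Pt × Pt) × (Fin n → Pt) => q.2 j) := fun j =>
      (measurable_pi_apply j).comp measurable_snd
    have hM : ∀ (f : (Pt × Pt) × (Fin n → Pt) → Pt), Measurable f → ∀ j : Fin n,
        Measurable (fun q : (Pt × Pt) × (Fin n → Pt) =>
          MtN {z | z ∈ List.ofFn q.2} m (f q) (q.2 j)) := by
      intro f hf j
      have h1 : Measurable (fun q : (Pt × Pt) × (Fin n → Pt) => ((f q, q.2 j), q.2)) :=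
        (hf.prodMk (hv j)).prodMk measurable_snd
      exact measurableSet_setOf.mp (h1 ih)
    have hE : {q : (Pt × Pt) × (Fin n → Pt) | MtN {z | z ∈ List.ofFn q.2} (m + 1) q.1.1 q.1.2} =
        {q : (Pt × Pt) × (Fin n → Pt) | (∃ i, q.2 i = q.1.1) ∧ (∃ i, q.2 i = q.1.2) ∧
          q.1.1.2 ≠ q.1.2.2 ∧
          (∀ j, |q.1.1.1 - (q.2 j).1| < |q.1.1.1 - q.1.2.1| →
            ¬ MtN {z | z ∈ List.ofFn q.2} m q.1.1 (q.2 j)) ∧
          (∀ j, |q.1.2.1 - (q.2 j).1| < |q.1.1.1 - q.1.2.1| →
            ¬ MtN {z | z ∈ List.ofFn q.2} m q.1.2 (q.2 j))} := by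
      ext q
      simp only [mem_setOf_eq, MtN]
      have hmem : ∀ z : Pt, z ∈ List.ofFn q.2 ↔ ∃ i, q.2 i = z := fun z => List.mem_ofFn' q.2 z
      have hcond : ∀ a : Pt, (∀ z : Pt, |a.1 - z.1| < |q.1.1.1 - q.1.2.1| →
            ¬ MtN {z | z ∈ List.ofFn q.2} m a z) ↔
          (∀ j, |a.1 - (q.2 j).1| < |q.1.1.1 - q.1.2.1| →
            ¬ MtN {z | z ∈ List.ofFn q.2} m a (q.2 j)) := by
        intro a
        constructor
        · intro h j
          exact h (q.2 j)
        · intro h z hz hm
          have h1 : z ∈ List.ofFn q.2 := (MtN_mem hm).2.1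
          obtain ⟨i, rfl⟩ := (hmem z).mp h1
          exact h i hz hm
      rw [hmem, hmem, hcond q.1.1, hcond q.1.2]
    rw [hE, measurableSet_setOf]
    refine (Measurable.exists fun i => b6_eq (hv i) hx).and
      ((Measurable.exists fun i => b6_eq (hv i) hy).and ((b6_col hx hy).and
      ((Measurable.forall fun j => (b6_lt hx (hv j) hx hy).imp (hM _ hx j).not).and
      (Measurable.forall fun j => (b6_lt hy (hv j) hx hy).imp (hM _ hy j).not))))

theorem measurableSet_Mt :
    MeasurableSet {q : List Pt × Pt × Pt | Mt {y | y ∈ q.1} q.2.1 q.2.2} := by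
  have h1 : Measurable (fun q : (Pt × Pt) × List Pt => Mt {y | y ∈ q.2} q.1.1 q.1.2) := by
    refine measurable_list_param fun n => ?_
    have h2 : (fun q : (Pt × Pt) × (Fin n → Pt) => Mt {y | y ∈ List.ofFn q.2} q.1.1 q.1.2) =
        fun q : (Pt × Pt) × (Fin n → Pt) =>
          MtN {z | z ∈ List.ofFn q.2} (n ^ 2 + 1) q.1.1 q.1.2 := by
      funext q
      have h3 : {z | z ∈ List.ofFn q.2} = Set.range q.2 := by
        ext z
        exact List.mem_ofFn' q.2 z
      have h4 : {z | z ∈ List.ofFn q.2}.Finite := by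
        rw [h3]
        exact Set.finite_range _
      have h5 : {z | z ∈ List.ofFn q.2}.ncard ≤ n := by
        rw [h3, ← Set.image_univ]
        refine (Set.ncard_image_le Set.finite_univ).trans ?_
        rw [Set.ncard_univ, Nat.card_eq_fintype_card, Fintype.card_fin]
      exact propext (Mt_iff_MtN h4 (Nat.add_le_add_right (Nat.pow_le_pow_left h5 2) 1) _ _)
    change Measurable (fun q : (Pt × Pt) × (Fin n → Pt) => Mt {y | y ∈ List.ofFn q.2} q.1.1 q.1.2)
    rw [h2]
    exact measurableSet_setOf.mp (b6_N n _)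
  have h6 : Measurable (fun q : List Pt × Pt × Pt => (q.2, q.1)) :=
    measurable_snd.prodMk measurable_fst
  exact h6 (measurableSet_setOf.mpr h1)

theorem measurableSet_Fr :
    MeasurableSet {q : List Pt × ℝ × Pt | Fr {y | y ∈ q.1} q.2.1 q.2.2} := by
  have h1 : MeasurableSet {q : (List Pt × ℝ × Pt) × Pt |
      Mt {z | z ∈ q.1.1} q.1.2.2 q.2 → q.1.2.1 ≤ |q.1.2.2.1 - q.2.1|} := by
    rw [measurableSet_setOf]
    refine Measurable.imp ?_ ?_
    · have h2 : Measurable (fun q : (List Pt × ℝ × Pt) × Pt => (q.1.1, q.1.2.2, q.2)) :=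
        (measurable_fst.comp measurable_fst).prodMk
          ((measurable_snd.comp (measurable_snd.comp measurable_fst)).prodMk measurable_snd)
      exact measurableSet_setOf.mp (h2 measurableSet_Mt)
    · have h3 : Measurable (fun q : (List Pt × ℝ × Pt) × Pt => q.1.2.1) :=
        measurable_fst.comp (measurable_snd.comp measurable_fst)
      have h4 : Measurable (fun q : (List Pt × ℝ × Pt) × Pt => |q.1.2.2.1 - q.2.1|) :=
        continuous_abs.measurable.comp ((measurable_fst.comp (measurable_snd.comp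
          (measurable_snd.comp measurable_fst))).sub (measurable_fst.comp measurable_snd))
      exact measurableSet_setOf.mp (measurableSet_le h3 h4)
  have h2 := measurableSet_forall_mem (Θ := List Pt × ℝ × Pt)
    (Q := fun θ y => Mt {z | z ∈ θ.1} θ.2.2 y → θ.2.1 ≤ |θ.2.2.1 - y.1|) h1
  have h3 : Measurable (fun q : List Pt × ℝ × Pt => (q, q.1)) :=
    measurable_id.prodMk measurable_fst
  have h4 : {q : List Pt × ℝ × Pt | Fr {y | y ∈ q.1} q.2.1 q.2.2} =
      (fun q : List Pt × ℝ × Pt => (q, q.1)) ⁻¹' {q : (List Pt × ℝ × Pt) × List Pt |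
        ∀ y ∈ q.2, Mt {z | z ∈ q.1.1} q.1.2.2 y → q.1.2.1 ≤ |q.1.2.2.1 - y.1|} := by
    ext q
    simp only [mem_setOf_eq, mem_preimage, Fr]
    constructor
    · intro h y _ hm
      exact h y hm
    · intro h y hm
      exact h y (Mt_mem hm).2.1 hm
  rw [h4]
  exact h3 h2

private theorem b6_list {Θ : Type*} [MeasurableSpace Θ] {u w : Θ → ℝ}
    {a b : Θ → Fin 3} {l : Θ → List Pt} (hu : Measurable u) (hw : Measurable w)
    (ha : Measurable a) (hb : Measurable b) (hl : Measurable l) :
    Measurable (fun θ => (u θ, a θ) :: (w θ, b θ) :: l θ) := by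
  have h1 : Measurable (fun θ => (w θ, b θ) :: l θ) :=
    measurable_cons.comp ((hw.prodMk hb).prodMk hl)
  exact measurable_cons.comp ((hu.prodMk ha).prodMk h1)

theorem measurableSet_Gd {Θ : Type*} [MeasurableSpace Θ] {u w r : Θ → ℝ} {a b : Θ → Fin 3}
    {l : Θ → List Pt} (hu : Measurable u) (hw : Measurable w) (hr : Measurable r)
    (ha : Measurable a) (hb : Measurable b) (hl : Measurable l) :
    MeasurableSet {θ | Gd (u θ) (a θ) (w θ) (b θ) (r θ) (l θ)} := by
  have h0 := b6_list hu hw ha hb hl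
  have h1 : Measurable (fun θ => ((u θ, a θ) :: (w θ, b θ) :: l θ, r θ, (u θ, a θ))) :=
    h0.prodMk (hr.prodMk (hu.prodMk ha))
  have h2 : Measurable (fun θ => ((u θ, a θ) :: (w θ, b θ) :: l θ, r θ, (w θ, b θ))) :=
    h0.prodMk (hr.prodMk (hw.prodMk hb))
  exact (h1 measurableSet_Fr).inter (h2 measurableSet_Fr)

theorem measurableSet_Md {Θ : Type*} [MeasurableSpace Θ] {u w : Θ → ℝ} {a b : Θ → Fin 3}
    {l : Θ → List Pt} (hu : Measurable u) (hw : Measurable w)
    (ha : Measurable a) (hb : Measurable b) (hl : Measurable l) :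
    MeasurableSet {θ | Md (u θ) (a θ) (w θ) (b θ) (l θ)} := by
  have h0 := b6_list hu hw ha hb hl
  have h1 : Measurable (fun θ => ((u θ, a θ) :: (w θ, b θ) :: l θ, (u θ, a θ), (w θ, b θ))) :=
    h0.prodMk ((hu.prodMk ha).prodMk (hw.prodMk hb))
  exact h1 measurableSet_Mt

end Pool.SM3
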