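/-
SM3.B7 : the number of points between two partners is even.
PROOF. Let `Mt Y x y`, `x.1 < y.1`, `d = y.1 - x.1`, `I = {u ∈ Y | x.1 < u.1 < y.1}`.  Each `u ∈ I` has a partner `u' ∈ I`: `u.2 ≠ x.2`
or `u.2 ≠ y.2`; say `u.2 ≠ x.2` (else mirror).  `Mt Y x u` is false (partner of `x` is unique, Mt_partner_unique), so by Mt_rec there is `z` with
`|u-z| < |x-u|` and `Mt Y u z` (a `z` with `Mt Y x z`, `|x-z| < |x-u|` would be `y`, contradiction).  Then `z.1 > x.1`; `z ≠ y`
(the partner of `y` is `x`).  If `z.1 > y.1`: `y` is between `u` and `z`, `y` is `Fr Y d`, `|u-z| < |x-u| < d`: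
contradiction to `no_cross` (level `d`); `z.1 = y.1` gives `z = y`.  So `z ∈ I`.
The map `u ↦` its partner is an involution of the finite set `I` without fixed points, so `I.ncard` is even
(e.g. `Finset.sum_involution` in `ZMod 2`, or `Finset.card_involution`..).
`even_of_Md`: `I = {y | y ∈ l}`, `l` is nodup (sorted).
-/
import Pool.Agent.Lib.SM3.B4

set_option autoImplicit false

open MeasureTheory Set

namespace Pool.SM3

private theorem B7_rec {Y : Set Pt} (hY : Y.Finite) {x u : Pt} (hx : x ∈ Y) (hu : u ∈ Y)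
    (hc : x.2 ≠ u.2) (h : ¬ Mt Y x u) :
    (∃ z, |x.1 - z.1| < |x.1 - u.1| ∧ Mt Y x z) ∨ (∃ z, |u.1 - z.1| < |x.1 - u.1| ∧ Mt Y u z) := by
  by_contra hcon
  rw [not_or] at hcon
  apply h
  refine (Mt_rec hY (|x.1 - u.1| + 1) x u (lt_add_one _)).2 ⟨hx, hu, hc, ?_, ?_⟩
  · intro z hz hm
    exact hcon.1 ⟨z, hz, hm⟩
  · intro z hz hm
    exact hcon.2 ⟨z, hz, hm⟩

theorem partner_between {Y : Set Pt} (hY : Y.Finite) (hN : NoIso Y) {x y : Pt} (h : Mt Y x y)
    (hxy : x.1 < y.1) {u : Pt} (hu : u ∈ Y) (h1 : x.1 < u.1) (h2 : u.1 < y.1) :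
    ∃ z, Mt Y u z ∧ x.1 < z.1 ∧ z.1 < y.1 := by
  obtain ⟨hxY, hyY, hcol⟩ := Mt_mem h
  have hpos := hN.posInj
  have exu : |x.1 - u.1| = u.1 - x.1 := by rw [abs_sub_comm, abs_of_pos (by linarith)]
  have exy : |x.1 - y.1| = y.1 - x.1 := by rw [abs_sub_comm, abs_of_pos (by linarith)]
  have eyx : |y.1 - x.1| = y.1 - x.1 := abs_of_pos (by linarith)
  have eyu : |y.1 - u.1| = y.1 - u.1 := abs_of_pos (by linarith)
  by_cases hux : x.2 = u.2
  · have huy : y.2 ≠ u.2 := fun h0 => hcol (hux.trans h0.symm)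
    have hn : ¬ Mt Y y u := by
      intro h0
      have h3 := Mt_partner_unique hY hN (Mt_symm h) h0
      rw [h3] at h1
      exact lt_irrefl _ h1
    rcases B7_rec hY hyY hu huy hn with ⟨z, hz, hm⟩ | ⟨z, hz, hm⟩
    · have h3 := Mt_partner_unique hY hN (Mt_symm h) hm
      rw [← h3, eyx, eyu] at hz
      linarith
    · rw [eyu] at hz
      obtain ⟨hz1, hz2⟩ := abs_lt.1 hz
      refine ⟨z, hm, ?_, by linarith⟩
      by_contra hcon
      push Not at hcon
      rcases hcon.lt_or_eq with h3 | h3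
      · refine no_cross (Mt_rec hY (y.1 - x.1)) (fun _ _ => Mt_symm) hxY ?_ (Mt_symm hm) ?_ h3 h1
        · intro y' hy'
          rw [← Mt_partner_unique hY hN h hy', exy]
        · rw [abs_sub_comm]
          linarith
      · have h4 : z = x := hpos z (Mt_mem hm).2.1 x hxY h3
        rw [h4] at hm
        have h5 := Mt_partner_unique hY hN h (Mt_symm hm)
        rw [h5] at h2
        exact lt_irrefl _ h2
  · have hn : ¬ Mt Y x u := by
      intro h0
      have h3 := Mt_partner_unique hY hN h h0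
      rw [h3] at h2
      exact lt_irrefl _ h2
    rcases B7_rec hY hxY hu hux hn with ⟨z, hz, hm⟩ | ⟨z, hz, hm⟩
    · have h3 := Mt_partner_unique hY hN h hm
      rw [← h3, exy, exu] at hz
      linarith
    · rw [exu] at hz
      obtain ⟨hz1, hz2⟩ := abs_lt.1 hz
      refine ⟨z, hm, by linarith, ?_⟩
      by_contra hcon
      push Not at hcon
      rcases hcon.lt_or_eq with h3 | h3
      · refine no_cross (Mt_rec hY (y.1 - x.1)) (fun _ _ => Mt_symm) hyY ?_ hm ?_ h2 h3
        · intro y' hy'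
          rw [← Mt_partner_unique hY hN (Mt_symm h) hy', eyx]
        · linarith
      · have h4 : y = z := hpos y hyY z (Mt_mem hm).2.1 h3
        rw [← h4] at hm
        have h5 := Mt_partner_unique hY hN (Mt_symm h) (Mt_symm hm)
        rw [h5] at h1
        exact lt_irrefl _ h1

theorem even_between {Y : Set Pt} (hY : Y.Finite) (hN : NoIso Y) {x y : Pt} (h : Mt Y x y)
    (hxy : x.1 < y.1) : Even {u | u ∈ Y ∧ x.1 < u.1 ∧ u.1 < y.1}.ncard := by
  have hfin : {u | u ∈ Y ∧ x.1 < u.1 ∧ u.1 < y.1}.Finite := hY.subset fun u hu => hu.1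
  have hex : ∀ u ∈ hfin.toFinset, ∃ z, Mt Y u z ∧ x.1 < z.1 ∧ z.1 < y.1 := by
    intro u hu
    obtain ⟨h1, h2, h3⟩ := hfin.mem_toFinset.1 hu
    exact partner_between hY hN h hxy h1 h2 h3
  choose g hg using hex
  rw [Set.ncard_eq_toFinset_card _ hfin, even_iff_two_dvd, ← ZMod.natCast_eq_zero_iff]
  have h1 : ∑ _u ∈ hfin.toFinset, (1 : ZMod 2) = 0 := by
    refine Finset.sum_involution (fun u hu => g u hu) ?_ ?_ ?_ ?_
    · intro u hu
      decide
    · intro u hu _ h0
      exact (Mt_mem (hg u hu).1).2.2 (by rw [h0])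
    · intro u hu
      exact hfin.mem_toFinset.2 ⟨(Mt_mem (hg u hu).1).2.1, (hg u hu).2⟩
    · intro u hu
      exact Mt_partner_unique hY hN (hg _ _).1 (Mt_symm (hg u hu).1)
  rw [← h1]
  simp

theorem even_of_Md {u w : ℝ} (huw : u < w) {a b : Fin 3} {l : List Pt} (hl : SL u w l)
    (hN : NoIso (cl u a w b l)) (h : Md u a w b l) : l.length % 2 = 0 := by
  classical
  have h1 := even_between (cl_finite u a w b l) hN h huw
  have h2 : {v | v ∈ cl u a w b l ∧ ((u, a) : Pt).1 < v.1 ∧ v.1 < ((w, b) : Pt).1} =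
      (l.toFinset : Set Pt) := by
    ext v
    simp only [Set.mem_ofPred_eq, Finset.mem_coe, List.mem_toFinset]
    constructor
    · rintro ⟨h3, h4, h5⟩
      rcases List.mem_cons.1 h3 with h6 | h6
      · rw [h6] at h4
        exact absurd h4 (lt_irrefl _)
      rcases List.mem_cons.1 h6 with h7 | h7
      · rw [h7] at h5
        exact absurd h5 (lt_irrefl _)
      · exact h7
    · intro h3
      exact ⟨List.mem_cons_of_mem _ (List.mem_cons_of_mem _ h3), hl.2 v h3⟩
  rw [h2, Set.ncard_coe_finset, List.toFinset_card_of_nodup] at h1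
  · exact Nat.even_iff.1 h1
  · exact hl.1.imp fun h3 h4 => by
      rw [h4] at h3
      exact lt_irrefl _ h3

end Pool.SM3
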