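/-
SM3.B8 : which end is matched first.
PROOF. Let `Y = cl u a w b l`, `x = (u,a)`, `x' = (w,b)`.  For a split `l = l₁ ++ y :: l₂`, by left_split and even_of_Md
(`l.length = l₁.length + 1 + l₂.length`, `l₁.length` even) the first summand is
`ind (l.length % 2 = e ∧ y.1 - u < r ∧ Mt Y x y ∧ Fr Y (y.1-u) x')` =: `ind (l.length % 2 = e ∧ P y)`, and by right_split the second is
`ind (l.length % 2 = e ∧ w - y.1 < r ∧ Mt Y x' y ∧ Fr Y (w-y.1) x)` =: `ind (.. ∧ P' y)`; so the splitSums are sums over
the elements of the (nodup) list: `splitSum (fun _ y _ => f y) l = (l.map f).sum`.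
If `l.length % 2 ≠ e` everything is `0` (the last term: `Md` implies even length and `e = 0`).  Let `l.length % 2 = e`.  Exactly one of the following holds, for
exactly one `y`: (0) `Gd u a w b r l`; (1) `P y`, `y ∈ l`; (2) `P' y`, `y ∈ l`; (3) `w - u < r` and `Md u a w b l`:
if `Md` then `x`, `x'` are partners, (1), (2) are impossible (Mt_partner_unique) and `Gd` holds iff `r ≤ w - u`.  Let `¬ Md`.  If `Gd`, then (1),
(2), (3) fail.  If not `Gd`, let `t₀` (`t₁`) be the distance of `x` (`x'`) to its partner, if any (an element of `l`; unique); `min < r`;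
`t₀ ≠ t₁` by `NoTie`; if `t₀ < t₁` (or `x'` has no partner) then (1) holds for the partner of `x` and (2) fails; if `t₁ < t₀`
then (2).
TIP: reduce to the Prop-level statement `(exactly one)` first; `ind` of a disjunction of exclusive events is a sum.
-/
import Pool.Agent.Lib.SM3.B7

set_option autoImplicit false

open MeasureTheory Set

namespace Pool.SM3

theorem splitSum_elem (f : Pt → ENNReal) (l : List Pt) :
    splitSum (fun _ y _ => f y) l = (l.map f).sum := by
  induction l with
  | nil => rfl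
  | cons y l ih =>
    rw [List.map_cons, List.sum_cons, ← ih]
    rfl

theorem splitSum_congr {Ψ Ψ' : List Pt → Pt → List Pt → ENNReal} {l : List Pt}
    (h : ∀ l₁ y l₂, l = l₁ ++ y :: l₂ → Ψ l₁ y l₂ = Ψ' l₁ y l₂) : splitSum Ψ l = splitSum Ψ' l := by
  induction l generalizing Ψ Ψ' with
  | nil => rfl
  | cons y l ih =>
    have h1 : splitSum Ψ (y :: l) = Ψ [] y l + splitSum (fun l₁ z l₂ => Ψ (y :: l₁) z l₂) l := rfl
    have h2 : splitSum Ψ' (y :: l) =
        Ψ' [] y l + splitSum (fun l₁ z l₂ => Ψ' (y :: l₁) z l₂) l := rfl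
    rw [h1, h2, h [] y l rfl]
    congr 1
    refine ih fun l₁ z l₂ h3 => h (y :: l₁) z l₂ ?_
    rw [h3, List.cons_append]

private theorem ind_t {P : Prop} (h : P) : ind P = 1 := by
  unfold ind
  exact if_pos h

private theorem ind_f {P : Prop} (h : ¬ P) : ind P = 0 := by
  unfold ind
  exact if_neg h

private theorem ind_iff {P Q : Prop} (h : P ↔ Q) : ind P = ind Q := by
  rw [propext h]

private theorem sum_ind_none {P : Pt → Prop} {l : List Pt} (h : ∀ y ∈ l, ¬ P y) :
    (l.map (fun y => ind (P y))).sum = 0 := by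
  induction l with
  | nil => rfl
  | cons y l ih =>
    rw [List.map_cons, List.sum_cons, ind_f (h y List.mem_cons_self),
      ih fun z hz => h z (List.mem_cons_of_mem _ hz), add_zero]

private theorem sum_ind_one {P : Pt → Prop} {l : List Pt} (hl : l.Nodup) {y : Pt} (hy : y ∈ l)
    (hP : P y) (h : ∀ z ∈ l, P z → z = y) : (l.map (fun y => ind (P y))).sum = 1 := by
  induction l with
  | nil => simp at hy
  | cons x l ih =>
    rw [List.nodup_cons] at hl
    rw [List.map_cons, List.sum_cons]
    by_cases hx : x = y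
    · subst hx
      rw [ind_t hP, sum_ind_none, add_zero]
      intro z hz hPz
      have := h z (List.mem_cons_of_mem _ hz) hPz
      rw [this] at hz
      exact hl.1 hz
    · have hy' : y ∈ l := by
        rcases List.mem_cons.1 hy with h1 | h1
        · exact absurd h1.symm hx
        · exact h1
      rw [ind_f (fun hPx => hx (h x List.mem_cons_self hPx)), zero_add]
      exact ih hl.2 hy' fun z hz hPz => h z (List.mem_cons_of_mem _ hz) hPz

private theorem SL_left {u w : ℝ} {l₁ l₂ : List Pt} {y : Pt} (h : SL u w (l₁ ++ y :: l₂)) :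
    SL u y.1 l₁ := by
  refine ⟨(List.pairwise_append.1 h.1).1, fun z hz => ⟨?_, ?_⟩⟩
  · exact (h.2 z (List.mem_append_left _ hz)).1
  · exact (List.pairwise_append.1 h.1).2.2 z hz y List.mem_cons_self

private theorem SL_right {u w : ℝ} {l₁ l₂ : List Pt} {y : Pt} (h : SL u w (l₁ ++ y :: l₂)) :
    SL y.1 w l₂ := by
  have h1 := (List.pairwise_append.1 h.1).2.1
  rw [List.pairwise_cons] at h1
  refine ⟨h1.2, fun z hz => ⟨h1.1 z hz, ?_⟩⟩
  exact (h.2 z (List.mem_append_right _ (List.mem_cons_of_mem _ hz))).2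

private theorem noIso_sub {Y Z : Set Pt} (h : NoIso Y) (hs : Z ⊆ Y) : NoIso Z :=
  fun x hx y hy z hz he => h x (hs hx) y (hs hy) z (hs hz) he

private theorem SL_nodup {u w : ℝ} {l : List Pt} (h : SL u w l) : l.Nodup := by
  refine h.1.imp fun {a b} hab heq => ?_
  rw [heq] at hab
  exact lt_irrefl _ hab

/-- the two end points -/
private theorem cl_left (u : ℝ) (a : Fin 3) (w : ℝ) (b : Fin 3) (l : List Pt) :
    (u, a) ∈ cl u a w b l := List.mem_cons_self

private theorem cl_cases {u : ℝ} {a : Fin 3} {w : ℝ} {b : Fin 3} {l : List Pt} {y : Pt}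
    (h : y ∈ cl u a w b l) : y = (u, a) ∨ y = (w, b) ∨ y ∈ l := by
  have h1 : y ∈ (u, a) :: (w, b) :: l := h
  rcases List.mem_cons.1 h1 with h2 | h2
  · exact Or.inl h2
  · rcases List.mem_cons.1 h2 with h3 | h3
    · exact Or.inr (Or.inl h3)
    · exact Or.inr (Or.inr h3)

/-- the partner of the left end -/
private theorem partner_left {u w : ℝ} {a b : Fin 3} {l : List Pt}
    (hM : ¬ Md u a w b l) {y : Pt} (h : Mt (cl u a w b l) (u, a) y) : y ∈ l := by
  obtain ⟨_, h1, h2⟩ := Mt_mem h
  rcases cl_cases h1 with h3 | h3 | h3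
  · exact absurd (congrArg Prod.snd h3).symm h2
  · rw [h3] at h
    exact absurd h hM
  · exact h3

private theorem partner_right {u w : ℝ} {a b : Fin 3} {l : List Pt}
    (hM : ¬ Md u a w b l) {y : Pt} (h : Mt (cl u a w b l) (w, b) y) : y ∈ l := by
  obtain ⟨_, h1, h2⟩ := Mt_mem h
  rcases cl_cases h1 with h3 | h3 | h3
  · rw [h3] at h
    exact absurd (Mt_symm h) hM
  · exact absurd (congrArg Prod.snd h3).symm h2
  · exact h3

/-- the left event -/
private def EvP (u : ℝ) (a : Fin 3) (w : ℝ) (b : Fin 3) (r : ℝ) (l : List Pt) (y : Pt) : Prop :=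
  y.1 - u < r ∧ Mt (cl u a w b l) (u, a) y ∧ Fr (cl u a w b l) (y.1 - u) (w, b)

/-- the right event -/
private def EvQ (u : ℝ) (a : Fin 3) (w : ℝ) (b : Fin 3) (r : ℝ) (l : List Pt) (y : Pt) : Prop :=
  w - y.1 < r ∧ Mt (cl u a w b l) (w, b) y ∧ Fr (cl u a w b l) (w - y.1) (u, a)

/-- exactly one of the four events holds -/
private theorem one_event {u w : ℝ} (huw : u < w) (a b : Fin 3) {r : ℝ} {l : List Pt}
    (hl : SL u w l) (hN : NoIso (cl u a w b l)) (hT : NoTie u w l) :
    1 = ind (Gd u a w b r l) + (l.map (fun y => ind (EvP u a w b r l y))).sum +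
      (l.map (fun y => ind (EvQ u a w b r l y))).sum + ind (w - u < r ∧ Md u a w b l) := by
  have hnd := SL_nodup hl
  have hf := cl_finite u a w b l
  have hlu : ∀ y ∈ l, |u - y.1| = y.1 - u := by
    intro y hy
    rw [abs_sub_comm, abs_of_pos (sub_pos.2 (hl.2 y hy).1)]
  have hlw : ∀ y ∈ l, |w - y.1| = w - y.1 := by
    intro y hy
    rw [abs_of_pos (sub_pos.2 (hl.2 y hy).2)]
  have huw' : |u - w| = w - u := by
    rw [abs_sub_comm, abs_of_pos (sub_pos.2 huw)]
  by_cases hM : Md u a w b l
  · have hM' : Mt (cl u a w b l) (u, a) (w, b) := hM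
    have hP : ∀ y ∈ l, ¬ EvP u a w b r l y := by
      rintro y hy ⟨_, h2, _⟩
      have h3 := Mt_partner_unique hf hN h2 hM'
      have h4 := (hl.2 y hy).2
      rw [h3] at h4
      exact lt_irrefl _ h4
    have hQ : ∀ y ∈ l, ¬ EvQ u a w b r l y := by
      rintro y hy ⟨_, h2, _⟩
      have h3 := Mt_partner_unique hf hN h2 (Mt_symm hM')
      have h4 := (hl.2 y hy).1
      rw [h3] at h4
      exact lt_irrefl _ h4
    rw [sum_ind_none hP, sum_ind_none hQ, add_zero, add_zero]
    by_cases hr : w - u < r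
    · have hG : ¬ Gd u a w b r l := by
        rintro ⟨h1, _⟩
        have h2 := h1 (w, b) hM'
        simp only [huw'] at h2
        linarith
      rw [ind_f hG, ind_t ⟨hr, hM⟩, zero_add]
    · have hG : Gd u a w b r l := by
        refine ⟨fun y hy => ?_, fun y hy => ?_⟩
        · have h3 := Mt_partner_unique hf hN hy hM'
          rw [h3]
          simp only [huw']
          linarith
        · have h3 := Mt_partner_unique hf hN hy (Mt_symm hM')
          rw [h3]
          simp only [abs_sub_comm w u, huw']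
          linarith
      rw [ind_t hG, ind_f (fun h => hr h.1), add_zero]
  · rw [ind_f (fun h : w - u < r ∧ Md u a w b l => hM h.2), add_zero]
    by_cases hG : Gd u a w b r l
    · have hP : ∀ y ∈ l, ¬ EvP u a w b r l y := by
        rintro y hy ⟨h1, h2, _⟩
        have h3 := hG.1 y h2
        simp only [hlu y hy] at h3
        linarith
      have hQ : ∀ y ∈ l, ¬ EvQ u a w b r l y := by
        rintro y hy ⟨h1, h2, _⟩
        have h3 := hG.2 y h2
        simp only [hlw y hy] at h3
        linarith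
      rw [sum_ind_none hP, sum_ind_none hQ, ind_t hG, add_zero, add_zero]
    · rw [ind_f hG, zero_add]
      by_cases hA : ∃ y ∈ l, Mt (cl u a w b l) (u, a) y ∧ y.1 - u < r
      · obtain ⟨y, hy, hyM, hyr⟩ := hA
        by_cases hF : Fr (cl u a w b l) (y.1 - u) (w, b)
        · have hP : EvP u a w b r l y := ⟨hyr, hyM, hF⟩
          have hQ : ∀ z ∈ l, ¬ EvQ u a w b r l z := by
            rintro z hz ⟨h1, h2, h3⟩
            have h4 := h3 y hyM
            have h5 := hF z h2
            simp only [hlu y hy] at h4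
            simp only [hlw z hz] at h5
            exact hT y hy z hz (le_antisymm h5 h4)
          rw [sum_ind_one hnd hy hP fun z _ hz => Mt_partner_unique hf hN hz.2.1 hyM,
            sum_ind_none hQ, add_zero]
        · have hP : ∀ z ∈ l, ¬ EvP u a w b r l z := by
            rintro z hz ⟨_, h2, h3⟩
            rw [Mt_partner_unique hf hN h2 hyM] at h3
            exact hF h3
          have hF' : ∃ y', Mt (cl u a w b l) (w, b) y' ∧ |w - y'.1| < y.1 - u := by
            by_contra hcon
            push Not at hcon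
            exact hF fun y' hy' => hcon y' hy'
          obtain ⟨y', hy'M, hy'd⟩ := hF'
          have hy' : y' ∈ l := partner_right hM hy'M
          rw [hlw y' hy'] at hy'd
          have hQ : EvQ u a w b r l y' := by
            refine ⟨by linarith, hy'M, fun z hz => ?_⟩
            rw [Mt_partner_unique hf hN hz hyM]
            simp only [hlu y hy]
            linarith
          rw [sum_ind_none hP, sum_ind_one hnd hy' hQ
            fun z _ hz => Mt_partner_unique hf hN hz.2.1 hy'M, zero_add]
      · have hP : ∀ z ∈ l, ¬ EvP u a w b r l z := by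
          rintro z hz ⟨h1, h2, _⟩
          exact hA ⟨z, hz, h2, h1⟩
        have hx : Fr (cl u a w b l) r (u, a) := by
          intro z hz
          have hzl := partner_left hM hz
          simp only [hlu z hzl]
          by_contra hcon
          exact hA ⟨z, hzl, hz, not_le.1 hcon⟩
        have hB : ∃ y', Mt (cl u a w b l) (w, b) y' ∧ |w - y'.1| < r := by
          by_contra hcon
          push Not at hcon
          exact hG ⟨hx, fun y' hy' => hcon y' hy'⟩
        obtain ⟨y', hy'M, hy'd⟩ := hB
        have hy' : y' ∈ l := partner_right hM hy'M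
        rw [hlw y' hy'] at hy'd
        have hQ : EvQ u a w b r l y' := ⟨hy'd, hy'M, fun z hz => hy'd.le.trans (hx z hz)⟩
        rw [sum_ind_none hP, sum_ind_one hnd hy' hQ
          fun z _ hz => Mt_partner_unique hf hN hz.2.1 hy'M, zero_add]

theorem decomp {u w : ℝ} (huw : u < w) (a b : Fin 3) {r : ℝ} (hr : 0 ≤ r) {l : List Pt}
    (hl : SL u w l) (hN : NoIso (cl u a w b l)) (hT : NoTie u w l) {e : ℕ} (he : e < 2) :
    ind (l.length % 2 = e) = ind (l.length % 2 = e ∧ Gd u a w b r l)
      + splitSum (fun l₁ y l₂ => ind (y.1 - u < r ∧ Md u a y.1 y.2 l₁ ∧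
          (l₂.length % 2 = 1 - e ∧ Gd y.1 y.2 w b (y.1 - u) l₂))) l
      + splitSum (fun l₁ y l₂ => ind (w - y.1 < r ∧ (l₁.length % 2 = 1 - e ∧
          Gd u a y.1 y.2 (w - y.1) l₁) ∧ Md y.1 y.2 w b l₂)) l
      + ind (e = 0 ∧ w - u < r ∧ Md u a w b l) := by
  have h1 : splitSum (fun l₁ y l₂ => ind (y.1 - u < r ∧ Md u a y.1 y.2 l₁ ∧
      (l₂.length % 2 = 1 - e ∧ Gd y.1 y.2 w b (y.1 - u) l₂))) l =
      (l.map (fun y => ind (l.length % 2 = e ∧ EvP u a w b r l y))).sum := by
    rw [← splitSum_elem]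
    refine splitSum_congr fun l₁ y l₂ hs => ind_iff ?_
    subst hs
    have h2 := left_split huw a b hl
    have huy : u < y.1 := (hl.2 y (by simp)).1
    have hsub : cl u a y.1 y.2 l₁ ⊆ cl u a w b (l₁ ++ y :: l₂) := by
      rw [← Lef_cl a b hl]
      exact fun z hz => hz.1
    have hlen : (l₁ ++ y :: l₂).length = l₁.length + (l₂.length + 1) := by
      rw [List.length_append, List.length_cons]
    constructor
    · rintro ⟨h3, h4, h5, h6⟩
      have h7 := even_of_Md huy (SL_left hl) (noIso_sub hN hsub) h4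
      refine ⟨by omega, h3, ?_⟩
      exact h2.2 ⟨h4, h6⟩
    · rintro ⟨h3, h4, h5⟩
      obtain ⟨h6, h7⟩ := h2.1 h5
      have h8 := even_of_Md huy (SL_left hl) (noIso_sub hN hsub) h6
      exact ⟨h4, h6, by omega, h7⟩
  have h2 : splitSum (fun l₁ y l₂ => ind (w - y.1 < r ∧ (l₁.length % 2 = 1 - e ∧
      Gd u a y.1 y.2 (w - y.1) l₁) ∧ Md y.1 y.2 w b l₂)) l =
      (l.map (fun y => ind (l.length % 2 = e ∧ EvQ u a w b r l y))).sum := by
    rw [← splitSum_elem]
    refine splitSum_congr fun l₁ y l₂ hs => ind_iff ?_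
    subst hs
    have h2 := right_split huw a b hl
    have huy : y.1 < w := (hl.2 y (by simp)).2
    have hsub : cl y.1 y.2 w b l₂ ⊆ cl u a w b (l₁ ++ y :: l₂) := by
      rw [← Rig_cl a b hl]
      exact fun z hz => hz.1
    have hlen : (l₁ ++ y :: l₂).length = l₁.length + (l₂.length + 1) := by
      rw [List.length_append, List.length_cons]
    constructor
    · rintro ⟨h3, ⟨h5, h6⟩, h4⟩
      have h7 := even_of_Md huy (SL_right hl) (noIso_sub hN hsub) h4
      refine ⟨by omega, h3, ?_⟩
      exact h2.2 ⟨h6, h4⟩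
    · rintro ⟨h3, h4, h5⟩
      obtain ⟨h7, h6⟩ := h2.1 h5
      have h8 := even_of_Md huy (SL_right hl) (noIso_sub hN hsub) h6
      exact ⟨h4, ⟨by omega, h7⟩, h6⟩
  rw [h1, h2]
  by_cases hp : l.length % 2 = e
  · have h3 : ind (e = 0 ∧ w - u < r ∧ Md u a w b l) = ind (w - u < r ∧ Md u a w b l) := by
      refine ind_iff ⟨fun h => h.2, fun h => ⟨?_, h⟩⟩
      have h4 := even_of_Md huw hl hN h.2
      omega
    have h4 : (fun y => ind (l.length % 2 = e ∧ EvP u a w b r l y)) =
        fun y => ind (EvP u a w b r l y) := by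
      funext y
      exact ind_iff ⟨fun h => h.2, fun h => ⟨hp, h⟩⟩
    have h5 : (fun y => ind (l.length % 2 = e ∧ EvQ u a w b r l y)) =
        fun y => ind (EvQ u a w b r l y) := by
      funext y
      exact ind_iff ⟨fun h => h.2, fun h => ⟨hp, h⟩⟩
    have h6 : ind (l.length % 2 = e ∧ Gd u a w b r l) = ind (Gd u a w b r l) :=
      ind_iff ⟨fun h => h.2, fun h => ⟨hp, h⟩⟩
    rw [h3, h4, h5, h6, ind_t hp]
    exact one_event huw a b hl hN hT
  · have h3 : ¬ (e = 0 ∧ w - u < r ∧ Md u a w b l) := by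
      rintro ⟨h4, _, h5⟩
      have h6 := even_of_Md huw hl hN h5
      exact hp (by omega)
    rw [ind_f hp, ind_f (fun h : l.length % 2 = e ∧ Gd u a w b r l => hp h.1), ind_f h3,
      sum_ind_none (fun y _ h => hp h.1), sum_ind_none (fun y _ h => hp h.1)]
    simp

end Pool.SM3
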