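/-
SM3.B9 : alternating sum over the unmatched points of a closed system with free ends of the same colour.
PROOF. Let `Y = cl u a w a l`.  For a split `l = l₁ ++ y :: l₂` with `y.2 = a`: `Gd u a y.1 a (y.1-u) l₁` is the same as `Gd u a y.1 a r l₁` for
`r = w - u` (a partner of an end has another colour than `a`, so it is an interior point, at distance `< y.1-u`); the same for `l₂`.
By free_split (level `r = w - u`): both hold iff `Gd u a w a (w-u) l ∧ Fr Y (w-u) y`.  `Fr Y (w-u) y` means that `y` is
unmatched in `Y` (all distances from an interior point are `< w-u`).  If `Gd u a w a (w-u) l` fails both sides are `0`.  Assume it.  Both ends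
are unmatched; every unmatched interior point has colour `a` (else it would be compatible with the unmatched end: Mt_iff_Fr gives a
contradiction).  So the claim is: number of unmatched `y ∈ l` with an even number of points of `l` before it `=` the number with an odd number before it
`+ (l.length % 2)`.  Over ALL `y ∈ l` the alternating sum `∑_{k<n} (-1)^k` is `n % 2`.  The matched points come in pairs
`{y, y'}` of interior points (the ends are unmatched); by even_between there is an even number of points of `Y`, i.e. of `l`, between them, so their indices have different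
parity and their contribution to the alternating sum is `0` (`Finset.sum_involution` on the indices).
-/
import Pool.Agent.Lib.SM3.B8

set_option autoImplicit false

open MeasureTheory Set

namespace Pool.SM3

private theorem B9_mem {u w : ℝ} {a b : Fin 3} {l : List Pt} {y : Pt} :
    y ∈ cl u a w b l ↔ y = (u, a) ∨ y = (w, b) ∨ y ∈ l := by
  change y ∈ (u, a) :: (w, b) :: l ↔ _
  rw [List.mem_cons, List.mem_cons]

private theorem B9_nopart {u w : ℝ} (_ : u < w) {a : Fin 3} {l : List Pt} (hl : SL u w l)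
    {r : ℝ} (hr : w - u ≤ r) (h : Gd u a w a r l) :
    (∀ y, ¬ Mt (cl u a w a l) (u, a) y) ∧ (∀ y, ¬ Mt (cl u a w a l) (w, a) y) := by
  constructor
  · intro y hy
    have h1 := h.1 y hy
    obtain ⟨-, h2, h3⟩ := Mt_mem hy
    rcases B9_mem.1 h2 with h2 | h2 | h2
    · exact h3 (by rw [h2])
    · exact h3 (by rw [h2])
    · have h4 := hl.2 y h2
      simp only at h1
      rw [abs_of_neg (by linarith)] at h1
      linarith
  · intro y hy
    have h1 := h.2 y hy
    obtain ⟨-, h2, h3⟩ := Mt_mem hy
    rcases B9_mem.1 h2 with h2 | h2 | h2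
    · exact h3 (by rw [h2])
    · exact h3 (by rw [h2])
    · have h4 := hl.2 y h2
      simp only at h1
      rw [abs_of_pos (by linarith)] at h1
      linarith

private theorem B9_lev {u w : ℝ} (huw : u < w) {a : Fin 3} {l : List Pt} (hl : SL u w l)
    {r : ℝ} (r' : ℝ) (hr : w - u ≤ r) (h : Gd u a w a r l) : Gd u a w a r' l := by
  obtain ⟨h1, h2⟩ := B9_nopart huw hl hr h
  exact ⟨fun y hy => absurd hy (h1 y), fun y hy => absurd hy (h2 y)⟩

private theorem B9_sub {u w : ℝ} {l₁ l₂ : List Pt} {y : Pt} (hl : SL u w (l₁ ++ y :: l₂)) :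
    SL u y.1 l₁ ∧ SL y.1 w l₂ ∧ u < y.1 ∧ y.1 < w := by
  obtain ⟨h1, h2⟩ := hl
  rw [List.pairwise_append, List.pairwise_cons] at h1
  obtain ⟨h3, ⟨h4, h5⟩, h6⟩ := h1
  have hy := h2 y (by simp)
  exact ⟨⟨h3, fun z hz => ⟨(h2 z (by simp [hz])).1, h6 z hz y (by simp)⟩⟩,
    ⟨h5, fun z hz => ⟨h4 z hz, (h2 z (by simp [hz])).2⟩⟩, hy.1, hy.2⟩

private theorem B9_split (f : ℕ → Pt → ENNReal) (l : List Pt) :
    splitSum (fun l₁ y _ => f l₁.length y) l = ∑ i : Fin l.length, f i (l.get i) := by
  induction l generalizing f with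
  | nil => simp [splitSum]
  | cons y l ih =>
    have h1 : splitSum (fun l₁ y _ => f l₁.length y) (y :: l) =
        f 0 y + splitSum (fun l₁ z _ => f (l₁.length + 1) z) l := rfl
    have h2 : ∑ i : Fin (y :: l).length, f i ((y :: l).get i) =
        f 0 y + ∑ i : Fin l.length, f ((i : ℕ) + 1) (l.get i) := by
      have h3 := Fin.sum_univ_succ (n := l.length)
        (fun i : Fin (l.length + 1) => f (i : ℕ) ((y :: l).get i))
      exact h3
    rw [h1, h2, ih (fun n z => f (n + 1) z)]

private theorem B9_par (n : ℕ) : ∑ i ∈ Finset.range n, (if i % 2 = 0 then 1 else 0) =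
    ∑ i ∈ Finset.range n, (if i % 2 = 1 then 1 else 0) + n % 2 := by
  induction n with
  | zero => simp
  | succ n ih =>
    rw [Finset.sum_range_succ, Finset.sum_range_succ, ih]
    rcases Nat.mod_two_eq_zero_or_one n with h | h
    · simp only [h, if_true]
      norm_num
      omega
    · simp only [h, if_true]
      norm_num
      omega

private theorem B9_nc {n : ℕ} (P : Fin n → Prop) [DecidablePred P] :
    {i : Fin n | P i}.ncard = (Finset.univ.filter P).card := by
  rw [← Set.ncard_coe_finset]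
  congr 1
  ext i
  simp

private theorem B9_fin {n : ℕ} (R : Fin n → Fin n → Prop) (hs : ∀ i j, R i j → R j i)
    (hu : ∀ i j k, R i j → R i k → j = k) (hp : ∀ i j, R i j → ((i : ℕ) + j) % 2 = 1) :
    {i : Fin n | (∀ j, ¬ R i j) ∧ (i : ℕ) % 2 = 0}.ncard =
    {i : Fin n | (∀ j, ¬ R i j) ∧ (i : ℕ) % 2 = 1}.ncard + n % 2 := by
  classical
  rw [B9_nc, B9_nc]
  have h1 : (Finset.univ.filter (fun i : Fin n => (i : ℕ) % 2 = 0)).card =
      (Finset.univ.filter (fun i : Fin n => (i : ℕ) % 2 = 1)).card + n % 2 := by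
    rw [Finset.card_filter, Finset.card_filter,
      Finset.sum_range (fun i => if i % 2 = 0 then 1 else 0) |>.symm,
      Finset.sum_range (fun i => if i % 2 = 1 then 1 else 0) |>.symm]
    exact B9_par n
  have h2 : ∀ e : ℕ, (Finset.univ.filter (fun i : Fin n => (i : ℕ) % 2 = e)).card =
      (Finset.univ.filter (fun i : Fin n => (∀ j, ¬ R i j) ∧ (i : ℕ) % 2 = e)).card +
      (Finset.univ.filter (fun i : Fin n => (∃ j, R i j) ∧ (i : ℕ) % 2 = e)).card := by
    intro e
    rw [← Finset.card_union_of_disjoint]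
    · congr 1
      ext i
      simp only [Finset.mem_filter, Finset.mem_univ, true_and, Finset.mem_union]
      constructor
      · intro h
        by_cases h3 : ∃ j, R i j
        · exact Or.inr ⟨h3, h⟩
        · push Not at h3
          exact Or.inl ⟨h3, h⟩
      · rintro (h | h)
        · exact h.2
        · exact h.2
    · rw [Finset.disjoint_left]
      intro i hi hi'
      simp only [Finset.mem_filter, Finset.mem_univ, true_and] at hi hi'
      obtain ⟨j, hj⟩ := hi'.1
      exact hi.1 j hj
  have hg : ∀ i : Fin n, ∃ j, (∃ k, R i k) → R i j := by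
    intro i
    by_cases h : ∃ k, R i k
    · obtain ⟨k, hk⟩ := h
      exact ⟨k, fun _ => hk⟩
    · exact ⟨i, fun h' => absurd h' h⟩
  choose g hg using hg
  have h3 : (Finset.univ.filter (fun i : Fin n => (∃ j, R i j) ∧ (i : ℕ) % 2 = 0)).card =
      (Finset.univ.filter (fun i : Fin n => (∃ j, R i j) ∧ (i : ℕ) % 2 = 1)).card := by
    refine Finset.card_nbij' g g ?_ ?_ ?_ ?_
    · intro i hi
      simp only [Finset.coe_filter, Finset.mem_univ, true_and, Set.mem_ofPred_eq] at hi ⊢
      have h4 := hg i hi.1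
      have h5 := hp _ _ h4
      exact ⟨⟨i, hs _ _ h4⟩, by omega⟩
    · intro i hi
      simp only [Finset.coe_filter, Finset.mem_univ, true_and, Set.mem_ofPred_eq] at hi ⊢
      have h4 := hg i hi.1
      have h5 := hp _ _ h4
      exact ⟨⟨i, hs _ _ h4⟩, by omega⟩
    · intro i hi
      simp only [Finset.coe_filter, Finset.mem_univ, true_and, Set.mem_ofPred_eq] at hi
      have h4 := hg i hi.1
      exact hu _ _ _ (hg _ ⟨i, hs _ _ h4⟩) (hs _ _ h4)
    · intro i hi
      simp only [Finset.coe_filter, Finset.mem_univ, true_and, Set.mem_ofPred_eq] at hi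
      have h4 := hg i hi.1
      exact hu _ _ _ (hg _ ⟨i, hs _ _ h4⟩) (hs _ _ h4)
  have h4 := h2 0
  have h5 := h2 1
  omega

private theorem B9_count {n : ℕ} (P : Fin n → Prop) :
    ∑ i : Fin n, ind (P i) = ({i : Fin n | P i}.ncard : ENNReal) := by
  classical
  rw [B9_nc]
  simp only [ind]
  rw [Finset.sum_boole]

private theorem B9_ind_congr {P Q : Prop} (h : P ↔ Q) : ind P = ind Q := by
  rw [propext h]

private theorem B9_ind_false {P : Prop} (h : ¬ P) : ind P = 0 := by
  simp [ind, h]

private theorem B9_ind_true {P : Prop} (h : P) : ind P = 1 := by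
  simp [ind, h]

/-- the indices of two partners have different parity -/
private theorem B9_parity {u w : ℝ} (_ : u < w) (a : Fin 3) {l : List Pt} (hl : SL u w l)
    (hN : NoIso (cl u a w a l)) {i j : Fin l.length} (hij : i < j)
    (h : Mt (cl u a w a l) (l.get i) (l.get j)) : ((i : ℕ) + j) % 2 = 1 := by
  have hmono : ∀ p q : Fin l.length, p < q → (l.get p).1 < (l.get q).1 :=
    fun p q hpq => List.pairwise_iff_get.1 hl.1 p q hpq
  have hmono' : ∀ p q : Fin l.length, (l.get p).1 < (l.get q).1 → p < q := by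
    intro p q hpq
    by_contra hcon
    rcases (not_lt.1 hcon).eq_or_lt with h1 | h1
    · rw [h1] at hpq
      exact lt_irrefl _ hpq
    · exact lt_asymm hpq (hmono _ _ h1)
  have hinj : Function.Injective l.get := by
    intro p q hpq
    rcases lt_trichotomy p q with h1 | h1 | h1
    · exact absurd (hmono _ _ h1) (by rw [hpq]; exact lt_irrefl _)
    · exact h1
    · exact absurd (hmono _ _ h1) (by rw [hpq]; exact lt_irrefl _)
  have h1 := even_between (cl_finite u a w a l) hN h (hmono i j hij)
  have h2 : {v | v ∈ cl u a w a l ∧ (l.get i).1 < v.1 ∧ v.1 < (l.get j).1} =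
      l.get '' (Finset.Ioo i j : Set (Fin l.length)) := by
    ext v
    constructor
    · rintro ⟨h3, h4, h5⟩
      have hi := hl.2 (l.get i) (List.get_mem _ _)
      have hj := hl.2 (l.get j) (List.get_mem _ _)
      rcases B9_mem.1 h3 with h3 | h3 | h3
      · rw [h3] at h4
        simp only at h4
        linarith
      · rw [h3] at h5
        simp only at h5
        linarith
      · obtain ⟨p, hp⟩ := List.get_of_mem h3
        rw [← hp] at h4 h5
        exact ⟨p, by simpa using ⟨hmono' _ _ h4, hmono' _ _ h5⟩, hp⟩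
    · rintro ⟨p, hp, rfl⟩
      simp only [Finset.coe_Ioo, Set.mem_Ioo] at hp
      exact ⟨B9_mem.2 (Or.inr (Or.inr (List.get_mem _ _))), hmono _ _ hp.1, hmono _ _ hp.2⟩
  rw [h2, Set.ncard_image_of_injective _ hinj, Set.ncard_coe_finset, Fin.card_Ioo] at h1
  obtain ⟨c, hc⟩ := h1
  have h3 : (i : ℕ) < j := hij
  omega

theorem altern {u w : ℝ} (huw : u < w) (a : Fin 3) {l : List Pt} (hl : SL u w l)
    (hN : NoIso (cl u a w a l)) :
    splitSum (fun l₁ y l₂ => ind (y.2 = a ∧ (l₁.length % 2 = 0 ∧ Gd u a y.1 a (y.1 - u) l₁) ∧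
        Gd y.1 a w a (w - y.1) l₂)) l
      = splitSum (fun l₁ y l₂ => ind (y.2 = a ∧ (l₁.length % 2 = 1 ∧ Gd u a y.1 a (y.1 - u) l₁) ∧
          Gd y.1 a w a (w - y.1) l₂)) l
        + ind (l.length % 2 = 1 ∧ Gd u a w a (w - u) l) := by
  have hfin := cl_finite u a w a l
  have hkey : ∀ e : ℕ, splitSum (fun l₁ y l₂ => ind (y.2 = a ∧
        (l₁.length % 2 = e ∧ Gd u a y.1 a (y.1 - u) l₁) ∧ Gd y.1 a w a (w - y.1) l₂)) l =
      ∑ i : Fin l.length, ind (Gd u a w a (w - u) l ∧
        (∀ z, ¬ Mt (cl u a w a l) (l.get i) z) ∧ (i : ℕ) % 2 = e) := by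
    intro e
    have h0 := B9_split (fun n y => ind (Gd u a w a (w - u) l ∧
        (∀ z, ¬ Mt (cl u a w a l) y z) ∧ n % 2 = e)) l
    rw [← h0]
    refine splitSum_congr fun l₁ y l₂ hly => B9_ind_congr ?_
    have hl' : SL u w (l₁ ++ y :: l₂) := hly ▸ hl
    obtain ⟨hs1, hs2, hy1, hy2⟩ := B9_sub hl'
    have hymem : y ∈ l := by rw [hly]; simp
    have hfs := free_split huw a a hl' (w - u)
    rw [← hly] at hfs
    constructor
    · rintro ⟨hya, ⟨he, hG1⟩, hG2⟩
      have hG1' := B9_lev hy1 hs1 (w - u) le_rfl hG1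
      have hG2' := B9_lev hy2 hs2 (w - u) le_rfl hG2
      rw [hya] at hfs
      obtain ⟨hG, hF⟩ := hfs.2 ⟨hG1', hG2'⟩
      refine ⟨hG, fun z hz => ?_, he⟩
      obtain ⟨hn1, hn2⟩ := B9_nopart huw hl le_rfl hG
      obtain ⟨-, hz2, -⟩ := Mt_mem hz
      rcases B9_mem.1 hz2 with h3 | h3 | h3
      · rw [h3] at hz
        exact hn1 _ (Mt_symm hz)
      · rw [h3] at hz
        exact hn2 _ (Mt_symm hz)
      · have h4 := hF z hz
        have h5 := hl.2 z h3
        have h6 : |y.1 - z.1| < w - u := by
          rw [abs_lt]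
          constructor <;> linarith
        linarith
    · rintro ⟨hG, hU, he⟩
      obtain ⟨hn1, hn2⟩ := B9_nopart huw hl le_rfl hG
      have hya : y.2 = a := by
        by_contra hcon
        have h1 := (Mt_iff_Fr hfin (x := (u, a)) (y := y) (B9_mem.2 (Or.inl rfl))
          (B9_mem.2 (Or.inr (Or.inr hymem))) (fun h => hcon h.symm)).2
          ⟨fun z hz => absurd hz (hn1 z), fun z hz => absurd hz (hU z)⟩
        exact hn1 _ h1
      rw [hya] at hfs
      obtain ⟨hG1, hG2⟩ := hfs.1 ⟨hG, fun z hz => absurd hz (hU z)⟩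
      exact ⟨hya, ⟨he, B9_lev hy1 hs1 _ (by linarith) hG1⟩, B9_lev hy2 hs2 _ (by linarith) hG2⟩
  rw [hkey 0, hkey 1]
  by_cases hG : Gd u a w a (w - u) l
  · obtain ⟨hn1, hn2⟩ := B9_nopart huw hl le_rfl hG
    rw [B9_count, B9_count]
    have hR : ∀ i : Fin l.length, (∀ z, ¬ Mt (cl u a w a l) (l.get i) z) ↔
        ∀ j : Fin l.length, ¬ Mt (cl u a w a l) (l.get i) (l.get j) := by
      intro i
      refine ⟨fun h j => h _, fun h z hz => ?_⟩
      obtain ⟨-, hz2, -⟩ := Mt_mem hz
      rcases B9_mem.1 hz2 with h3 | h3 | h3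
      · rw [h3] at hz
        exact hn1 _ (Mt_symm hz)
      · rw [h3] at hz
        exact hn2 _ (Mt_symm hz)
      · obtain ⟨p, hp⟩ := List.get_of_mem h3
        rw [← hp] at hz
        exact h p hz
    have hsymm : ∀ i j : Fin l.length, Mt (cl u a w a l) (l.get i) (l.get j) →
        Mt (cl u a w a l) (l.get j) (l.get i) := fun i j h => Mt_symm h
    have hinj : Function.Injective l.get := by
      have hmono : ∀ p q : Fin l.length, p < q → (l.get p).1 < (l.get q).1 :=
        fun p q hpq => List.pairwise_iff_get.1 hl.1 p q hpq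
      intro p q hpq
      rcases lt_trichotomy p q with h1 | h1 | h1
      · exact absurd (hmono _ _ h1) (by rw [hpq]; exact lt_irrefl _)
      · exact h1
      · exact absurd (hmono _ _ h1) (by rw [hpq]; exact lt_irrefl _)
    have hmain := B9_fin (fun i j : Fin l.length => Mt (cl u a w a l) (l.get i) (l.get j))
      hsymm (fun i j k h1 h2 => hinj (Mt_partner_unique hfin hN h1 h2)) (by
        intro i j h
        rcases lt_trichotomy i j with h1 | h1 | h1
        · exact B9_parity huw a hl hN h1 h
        · exfalso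
          have h2 := (Mt_mem h).2.2
          rw [h1] at h2
          exact h2 rfl
        · rw [add_comm]
          exact B9_parity huw a hl hN h1 (Mt_symm h))
    have e : ∀ c : ℕ, {i : Fin l.length | Gd u a w a (w - u) l ∧
        (∀ z, ¬ Mt (cl u a w a l) (l.get i) z) ∧ (i : ℕ) % 2 = c} =
        {i : Fin l.length |
          (∀ j, ¬ Mt (cl u a w a l) (l.get i) (l.get j)) ∧ (i : ℕ) % 2 = c} := by
      intro c
      ext i
      have h1 := hR i
      exact ⟨fun h => ⟨h1.1 h.2.1, h.2.2⟩, fun h => ⟨hG, h1.2 h.1, h.2⟩⟩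
    rw [e 0, e 1, hmain]
    push_cast
    congr 1
    rcases Nat.mod_two_eq_zero_or_one l.length with h | h
    · rw [B9_ind_false (by omega), h]
      simp
    · rw [B9_ind_true ⟨h, hG⟩, h]
      simp
  · have h1 : ∀ e : ℕ, ∑ i : Fin l.length, ind (Gd u a w a (w - u) l ∧
        (∀ z, ¬ Mt (cl u a w a l) (l.get i) z) ∧ (i : ℕ) % 2 = e) = 0 := by
      intro e
      exact Finset.sum_eq_zero fun i _ => B9_ind_false fun h => hG h.1
    rw [h1 0, h1 1, B9_ind_false (fun h => hG h.2)]
    simp

end Pool.SM3
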