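/-
SM3.C1 : the decomposition B8 integrated with Mecke's formula (A6).
PROOF. Integrate `decomp` (with `u = 0`, `w = z`) over `Pm p 0 z` (it holds a.e.: ae_Pm, ae_generic).  The splitSums by `mecke`:
the first is `∫⁻ t in Ioo 0 z, ∑ c, ofReal (p c) * ∫⁻ l₁, ∫⁻ l₂, ind (t - 0 < r ∧ Md 0 a t c l₁ ∧ (l₂.length % 2 = 1-e ∧
Gd t c z b (t-0) l₂)) ∂Pm t z ∂Pm 0 t`; for `t < r` the inner double integral is the product of `Pm p 0 t {Md 0 a t c}` and
`Pm p t z {l₂ | l₂.length % 2 = 1-e ∧ Gd t c z b t l₂}`, and the latter equals `Pm p 0 (z-t) {l | l.length % 2 = 1-e ∧ Gd 0 c (z-t) b t l}` by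
lintegral_Pm_shift and Gd_shift.  The second is (substitute `t ↦ z - t`)
`∫⁻ t in Ioo 0 z, ind (t < r) ∑ c, ofReal (p c) * (Pm p 0 (z-t)) {.. Gd 0 a (z-t) c t ..} * (Pm p (z-t) z) {Md (z-t) c z b}`, shift by `z - t`.
Everything is finite (probabilities, A4: isProb_Pm), so pass to reals; `∫⁻ → intervalIntegral` over `(0, min r z)`
(nonnegative bounded measurable integrands: A5, B6).  C1a does the ENNReal form, C1 the real form.
-/
import Pool.Agent.Lib.SM3.A6
import Pool.Agent.Lib.SM3.A9
import Pool.Agent.Lib.SM3.A11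
import Pool.Agent.Lib.SM3.B5
import Pool.Agent.Lib.SM3.B6
import Pool.Agent.Lib.SM3.B8

set_option autoImplicit false

open MeasureTheory Set

namespace Pool.SM3

/-- integral of an indicator -/
private theorem lintegral_indQ {μ : Measure (List Pt)} {Q : List Pt → Prop}
    (hQ : MeasurableSet {l | Q l}) : ∫⁻ l, ind (Q l) ∂μ = μ {l | Q l} := by
  rw [← lintegral_indicator_one hQ]
  refine lintegral_congr fun l => ?_
  by_cases h : Q l
  · have h' : l ∈ {l | Q l} := h
    rw [indicator_of_mem h', ind, if_pos h]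
    rfl
  · have h' : l ∉ {l | Q l} := h
    rw [indicator_of_notMem h', ind, if_neg h]

private theorem ind_and (P Q : Prop) : ind (P ∧ Q) = ind P * ind Q := by
  unfold ind
  by_cases hP : P <;> by_cases hQ : Q <;> simp [hP, hQ]

private theorem mLen {Θ : Type*} [MeasurableSpace Θ] {l : Θ → List Pt} (hl : Measurable l) (e : ℕ) :
    MeasurableSet {θ | (l θ).length % 2 = e} :=
  (measurable_lengthL.comp hl) (MeasurableSet.of_discrete (s := {n : ℕ | n % 2 = e}))

private theorem mGd (u w r : ℝ) (a b : Fin 3) (e : ℕ) :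
    MeasurableSet {l : List Pt | l.length % 2 = e ∧ Gd u a w b r l} :=
  (mLen measurable_id e).inter (measurableSet_Gd (l := fun l : List Pt => l) measurable_const
    measurable_const measurable_const measurable_const measurable_const measurable_id)

private theorem mMd (u w : ℝ) (a b : Fin 3) : MeasurableSet {l : List Pt | Md u a w b l} :=
  measurableSet_Md (l := fun l : List Pt => l) measurable_const
    measurable_const measurable_const measurable_const measurable_id

/-- the two sets of closed systems, translated -/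
theorem Pm_Gd_shift (p : Fin 3 → ℝ) (a b : Fin 3) (e : ℕ) (h u w r : ℝ) :
    Pm p (u + h) (w + h) {l | l.length % 2 = e ∧ Gd (u + h) a (w + h) b r l}
      = Pm p u w {l | l.length % 2 = e ∧ Gd u a w b r l} := by
  have h1 := mGd (u + h) (w + h) r a b e
  rw [← lintegral_indQ h1, lintegral_Pm_shift p h u w (measurable_ind h1), ← lintegral_indQ (mGd u w r a b e)]
  refine lintegral_congr fun l => ?_
  rw [List.length_map, Gd_shift]

theorem Pm_Md_shift (p : Fin 3 → ℝ) (a b : Fin 3) (h u w : ℝ) :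
    Pm p (u + h) (w + h) {l | Md (u + h) a (w + h) b l} = Pm p u w {l | Md u a w b l} := by
  have h1 := mMd (u + h) (w + h) a b
  rw [← lintegral_indQ h1, lintegral_Pm_shift p h u w (measurable_ind h1), ← lintegral_indQ (mMd u w a b)]
  refine lintegral_congr fun l => ?_
  rw [Md_shift]

/-- the double integral of a product of indicators -/
private theorem dbl {μ ν : Measure (List Pt)} {P : Prop} {Q R : List Pt → Prop}
    (hQ : MeasurableSet {l | Q l}) (hR : MeasurableSet {l | R l}) :
    ∫⁻ l₁, ∫⁻ l₂, ind (P ∧ Q l₁ ∧ R l₂) ∂ν ∂μ = ind P * (μ {l | Q l} * ν {l | R l}) := by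
  have h1 : ∀ l₁, ∫⁻ l₂, ind (P ∧ Q l₁ ∧ R l₂) ∂ν = (ind P * ν {l | R l}) * ind (Q l₁) := by
    intro l₁
    have h2 : ∀ l₂, ind (P ∧ Q l₁ ∧ R l₂) = (ind P * ind (Q l₁)) * ind (R l₂) := by
      intro l₂
      rw [ind_and, ind_and, mul_assoc]
    rw [lintegral_congr h2, lintegral_const_mul _ (measurable_ind hR), lintegral_indQ hR]
    ring
  rw [lintegral_congr h1, lintegral_const_mul _ (measurable_ind hQ), lintegral_indQ hQ]
  ring

/-- restriction of the integral by an indicator -/
private theorem restr {r z : ℝ} (F : ℝ → ENNReal) :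
    ∫⁻ t in Ioo 0 z, ind (t < r) * F t = ∫⁻ t in Ioo 0 (min r z), F t := by
  rw [← lintegral_indicator measurableSet_Ioo, ← lintegral_indicator measurableSet_Ioo]
  refine lintegral_congr fun t => ?_
  by_cases h1 : t ∈ Ioo (0 : ℝ) z
  · by_cases h2 : t < r
    · have h3 : t ∈ Ioo (0 : ℝ) (min r z) := ⟨h1.1, lt_min h2 h1.2⟩
      rw [indicator_of_mem h1, indicator_of_mem h3, ind, if_pos h2, one_mul]
    · have h3 : t ∉ Ioo (0 : ℝ) (min r z) := fun h => h2 (h.2.trans_le (min_le_left _ _))
      rw [indicator_of_mem h1, indicator_of_notMem h3, ind, if_neg h2, zero_mul]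
  · have h3 : t ∉ Ioo (0 : ℝ) (min r z) := fun h => h1 ⟨h.1, h.2.trans_le (min_le_right _ _)⟩
    rw [indicator_of_notMem h1, indicator_of_notMem h3]

/-- reflection of the integral -/
private theorem refl_int {z : ℝ} (F : ℝ → ENNReal) :
    ∫⁻ t in Ioo 0 z, F t = ∫⁻ t in Ioo 0 z, F (z - t) := by
  rw [← lintegral_indicator measurableSet_Ioo, ← lintegral_indicator measurableSet_Ioo,
    ← lintegral_sub_left_eq_self _ z]
  refine lintegral_congr fun t => ?_
  by_cases h1 : t ∈ Ioo (0 : ℝ) z
  · have h2 : z - t ∈ Ioo (0 : ℝ) z := ⟨sub_pos.2 h1.2, sub_lt_self _ h1.1⟩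
    rw [indicator_of_mem h1, indicator_of_mem h2]
  · have h2 : z - t ∉ Ioo (0 : ℝ) z := fun h => h1 ⟨by linarith [h.2], by linarith [h.1]⟩
    rw [indicator_of_notMem h1, indicator_of_notMem h2]

private theorem meas_P1 (a b : Fin 3) (e : ℕ) (z r : ℝ) :
    MeasurableSet {q : List Pt × Pt × List Pt | q.2.1.1 - 0 < r ∧ Md 0 a q.2.1.1 q.2.1.2 q.1 ∧
      (q.2.2.length % 2 = 1 - e ∧ Gd q.2.1.1 q.2.1.2 z b (q.2.1.1 - 0) q.2.2)} := by
  have h1 : Measurable (fun q : List Pt × Pt × List Pt => q.2.1.1) :=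
    measurable_fst.comp (measurable_fst.comp measurable_snd)
  have h2 : Measurable (fun q : List Pt × Pt × List Pt => q.2.1.2) :=
    measurable_snd.comp (measurable_fst.comp measurable_snd)
  have h3 : Measurable (fun q : List Pt × Pt × List Pt => q.2.2) :=
    measurable_snd.comp measurable_snd
  refine (measurableSet_lt (h1.sub measurable_const) measurable_const).inter
    ((measurableSet_Md measurable_const h1 measurable_const h2 measurable_fst).inter
      ((mLen h3 (1 - e)).inter ?_))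
  exact measurableSet_Gd h1 measurable_const (h1.sub measurable_const) h2 measurable_const h3

private theorem meas_P2 (a b : Fin 3) (e : ℕ) (z r : ℝ) :
    MeasurableSet {q : List Pt × Pt × List Pt | z - q.2.1.1 < r ∧ (q.1.length % 2 = 1 - e ∧
      Gd 0 a q.2.1.1 q.2.1.2 (z - q.2.1.1) q.1) ∧ Md q.2.1.1 q.2.1.2 z b q.2.2} := by
  have h1 : Measurable (fun q : List Pt × Pt × List Pt => q.2.1.1) :=
    measurable_fst.comp (measurable_fst.comp measurable_snd)
  have h2 : Measurable (fun q : List Pt × Pt × List Pt => q.2.1.2) :=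
    measurable_snd.comp (measurable_fst.comp measurable_snd)
  have h3 : Measurable (fun q : List Pt × Pt × List Pt => q.2.2) :=
    measurable_snd.comp measurable_snd
  refine (measurableSet_lt (measurable_const.sub h1) measurable_const).inter
    (MeasurableSet.inter ((mLen measurable_fst (1 - e)).inter ?_)
      (measurableSet_Md h1 measurable_const h2 measurable_const h3))
  exact measurableSet_Gd measurable_const h1 (measurable_const.sub h1) measurable_const h2 measurable_fst

/-- measurability of `splitSum` for one function -/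
private theorem meas_split {Ψ : List Pt → Pt → List Pt → ENNReal}
    (hΨ : Measurable (fun q : List Pt × Pt × List Pt => Ψ q.1 q.2.1 q.2.2)) :
    Measurable (fun l : List Pt => splitSum Ψ l) := by
  have h1 := measurable_splitSum (Θ := Unit) (Ψ := fun _ => Ψ) (hΨ.comp measurable_snd)
  exact h1.comp ((measurable_const (a := ())).prodMk measurable_id)

theorem decomp_lintegral (p : Fin 3 → ℝ) (a b : Fin 3) {e : ℕ} (he : e < 2) {z : ℝ} (hz : 0 < z)
    {r : ℝ} (hr : 0 ≤ r) :
    Pm p 0 z {l | l.length % 2 = e} = Pm p 0 z {l | l.length % 2 = e ∧ Gd 0 a z b r l}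
      + (∫⁻ t in Ioo 0 (min r z), ∑ c : Fin 3, ENNReal.ofReal (p c) *
          (Pm p 0 t {l | Md 0 a t c l} *
            Pm p 0 (z - t) {l | l.length % 2 = 1 - e ∧ Gd 0 c (z - t) b t l}))
      + (∫⁻ t in Ioo 0 (min r z), ∑ c : Fin 3, ENNReal.ofReal (p c) *
          (Pm p 0 (z - t) {l | l.length % 2 = 1 - e ∧ Gd 0 a (z - t) c t l} *
            Pm p 0 t {l | Md 0 c t b l}))
      + (if e = 0 ∧ z < r then Pm p 0 z {l | Md 0 a z b l} else 0) := by
  have hm1 := measurable_ind (meas_P1 a b e z r)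
  have hm2 := measurable_ind (meas_P2 a b e z r)
  have key : ∫⁻ l, ind (l.length % 2 = e) ∂(Pm p 0 z) =
      ∫⁻ l, (ind (l.length % 2 = e ∧ Gd 0 a z b r l)
      + splitSum (fun l₁ y l₂ => ind (y.1 - 0 < r ∧ Md 0 a y.1 y.2 l₁ ∧
          (l₂.length % 2 = 1 - e ∧ Gd y.1 y.2 z b (y.1 - 0) l₂))) l
      + splitSum (fun l₁ y l₂ => ind (z - y.1 < r ∧ (l₁.length % 2 = 1 - e ∧
          Gd 0 a y.1 y.2 (z - y.1) l₁) ∧ Md y.1 y.2 z b l₂)) l
      + ind (e = 0 ∧ z - 0 < r ∧ Md 0 a z b l)) ∂(Pm p 0 z) := by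
    refine lintegral_congr_ae ?_
    filter_upwards [ae_Pm p 0 z, ae_generic p hz a b] with l h1 h2
    exact decomp hz a b hr h1 h2.1 h2.2 he
  have hm3 : MeasurableSet {l : List Pt | e = 0 ∧ z - 0 < r ∧ Md 0 a z b l} := by
    by_cases h : e = 0 ∧ z - 0 < r
    · have : {l : List Pt | e = 0 ∧ z - 0 < r ∧ Md 0 a z b l} = {l | Md 0 a z b l} := by
        ext l
        exact ⟨fun h' => h'.2.2, fun h' => ⟨h.1, h.2, h'⟩⟩
      rw [this]
      exact mMd 0 z a b
    · have : {l : List Pt | e = 0 ∧ z - 0 < r ∧ Md 0 a z b l} = ∅ := by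
        ext l
        exact ⟨fun h' => h ⟨h'.1, h'.2.1⟩, fun h' => h'.elim⟩
      rw [this]
      exact MeasurableSet.empty
  have hs1 := meas_split (Ψ := fun l₁ y l₂ => ind (y.1 - 0 < r ∧ Md 0 a y.1 y.2 l₁ ∧
          (l₂.length % 2 = 1 - e ∧ Gd y.1 y.2 z b (y.1 - 0) l₂))) hm1
  have hs2 := meas_split (Ψ := fun l₁ y l₂ => ind (z - y.1 < r ∧ (l₁.length % 2 = 1 - e ∧
          Gd 0 a y.1 y.2 (z - y.1) l₁) ∧ Md y.1 y.2 z b l₂)) hm2
  rw [lintegral_indQ (mLen (l := fun l : List Pt => l) measurable_id e), lintegral_add_right _ (measurable_ind hm3),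
    lintegral_add_right _ hs2, lintegral_add_right _ hs1, lintegral_indQ (mGd 0 z r a b e),
    mecke p 0 z hm1, mecke p 0 z hm2] at key
  rw [key]
  congr 1
  · congr 1
    · congr 1
      rw [← restr]
      refine setLIntegral_congr_fun measurableSet_Ioo fun t ht => ?_
      rw [Finset.mul_sum]
      refine Finset.sum_congr rfl fun c _ => ?_
      have h1 := dbl (μ := Pm p 0 t) (ν := Pm p t z) (P := t - 0 < r) (mMd 0 t a c)
        (mGd t z (t - 0) c b (1 - e))
      have h2 := Pm_Gd_shift p c b (1 - e) t 0 (z - t) (t - 0)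
      rw [zero_add, sub_add_cancel] at h2
      refine (congrArg (fun x => ENNReal.ofReal (p c) * x) h1).trans ?_
      rw [h2, sub_zero]
      ring
    · rw [← restr, refl_int]
      refine setLIntegral_congr_fun measurableSet_Ioo fun t ht => ?_
      rw [Finset.mul_sum]
      refine Finset.sum_congr rfl fun c _ => ?_
      have h1 := dbl (μ := Pm p 0 (z - t)) (ν := Pm p (z - t) z) (P := z - (z - t) < r)
        (mGd 0 (z - t) (z - (z - t)) a c (1 - e)) (mMd (z - t) z c b)
      have h2 := Pm_Md_shift p c b (z - t) 0 t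
      rw [zero_add, add_sub_cancel] at h2
      refine (congrArg (fun x => ENNReal.ofReal (p c) * x) h1).trans ?_
      rw [h2, sub_sub_cancel]
      ring
  · rw [lintegral_indQ hm3]
    by_cases h : e = 0 ∧ z < r
    · rw [if_pos h]
      congr 1
      ext l
      exact ⟨fun h' => h'.2.2, fun h' => ⟨h.1, by rw [sub_zero]; exact h.2, h'⟩⟩
    · rw [if_neg h]
      have : {l : List Pt | e = 0 ∧ z - 0 < r ∧ Md 0 a z b l} = ∅ := by
        ext l
        exact ⟨fun h' => h ⟨h'.1, by have := h'.2.1; rwa [sub_zero] at this⟩, fun h' => h'.elim⟩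
      rw [this, measure_empty]

end Pool.SM3
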