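/-
SM3.C2 : measurability, bounds, symmetries of the closed-system functions.
PROOF. Measurability: A5 (`measurable_Pm_set`) and B6, `ENNReal.toReal` measurable.  Bounds: for `0 < z` `Pm p 0 z` is a probability
measure; `sqrt (p a * p b) ≤ 1`; `PG .. 0 + PG .. 1 ≤ 1`.  `LL_zero`: for `a ≠ b`, `0 < z < r`: if `Gd 0 a z b r l` then both ends are
`Fr _ z` hence matched (Mt_iff_Fr), at distance `z < r`, contradiction; so both sets are empty.
Symmetry `a ↔ b`: lintegral_Pm_reflect with `u = 0`, `w = z`, Gd_reflect, Md_reflect, `length` of map/reverse.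
Colours: `σ = swap 1 2`, lintegral_Pm_colour, Gd_colour, Md_colour.  `NN p a a z = 0`: `Mt` needs different colours.
-/
import Pool.Agent.Lib.SM3.A5
import Pool.Agent.Lib.SM3.A9
import Pool.Agent.Lib.SM3.A10
import Pool.Agent.Lib.SM3.B2
import Pool.Agent.Lib.SM3.B5
import Pool.Agent.Lib.SM3.B6

set_option autoImplicit false

open MeasureTheory Set

namespace Pool.SM3

private theorem meas_len {Θ : Type*} [MeasurableSpace Θ] {l : Θ → List Pt} (hl : Measurable l)
    (e : ℕ) : MeasurableSet {θ | (l θ).length % 2 = e} :=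
  (measurable_lengthL.comp hl) (MeasurableSet.of_discrete (s := {n : ℕ | n % 2 = e}))

private theorem meas_PGset (a b : Fin 3) (e : ℕ) (z r : ℝ) :
    MeasurableSet {l : List Pt | l.length % 2 = e ∧ Gd 0 a z b r l} :=
  (meas_len measurable_id e).inter
    (measurableSet_Gd (Θ := List Pt) (u := fun _ => 0) (w := fun _ => z) (r := fun _ => r)
      (a := fun _ => a) (b := fun _ => b) (l := fun l => l) measurable_const measurable_const
      measurable_const measurable_const measurable_const measurable_id)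

private theorem meas_PMset (a b : Fin 3) (z : ℝ) :
    MeasurableSet {l : List Pt | Md 0 a z b l} :=
  measurableSet_Md (Θ := List Pt) (u := fun _ => 0) (w := fun _ => z)
      (a := fun _ => a) (b := fun _ => b) (l := fun l => l) measurable_const measurable_const
      measurable_const measurable_const measurable_id

private theorem real_eq_of (μ : Measure (List Pt)) (T : List Pt → List Pt)
    (h : ∀ Φ : List Pt → ENNReal, Measurable Φ → ∫⁻ l, Φ l ∂μ = ∫⁻ l, Φ (T l) ∂μ)
    {A B : Set (List Pt)} (hA : MeasurableSet A) (hB : MeasurableSet B)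
    (hAB : ∀ l, T l ∈ A ↔ l ∈ B) : μ.real A = μ.real B := by
  have h1 : μ A = μ B := by
    rw [← lintegral_indicator_one hA, ← lintegral_indicator_one hB,
      h _ (measurable_one.indicator hA)]
    refine lintegral_congr fun l => ?_
    by_cases hl : l ∈ B
    · rw [indicator_of_mem hl, indicator_of_mem ((hAB l).2 hl)]
      rfl
    · rw [indicator_of_notMem hl, indicator_of_notMem (fun h => hl ((hAB l).1 h))]
  rw [measureReal_def, measureReal_def, h1]

private theorem p_le {p : Fin 3 → ℝ} (hp : PV p) (a : Fin 3) : p a ≤ 1 := by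
  have h0 := hp.pos 0
  have h1 := hp.pos 1
  have h2 := hp.pos 2
  have h3 := hp.sum
  fin_cases a
  · change p 0 ≤ 1
    linarith
  · change p 1 ≤ 1
    linarith
  · change p 2 ≤ 1
    linarith

private theorem sqrt_le {p : Fin 3 → ℝ} (hp : PV p) (a b : Fin 3) : Real.sqrt (p a * p b) ≤ 1 := by
  have h : p a * p b ≤ 1 := mul_le_one₀ (p_le hp a) (hp.pos b).le (p_le hp b)
  exact (Real.sqrt_le_sqrt h).trans (le_of_eq Real.sqrt_one)

private theorem swap_p {p : Fin 3 → ℝ} (hq : p 1 = p 2) (c : Fin 3) :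
    p (Equiv.swap 1 2 c) = p c := by
  fin_cases c
  · change p (Equiv.swap 1 2 0) = p 0
    rw [Equiv.swap_apply_of_ne_of_ne (by decide) (by decide)]
  · change p (Equiv.swap 1 2 1) = p 1
    rw [Equiv.swap_apply_left, hq]
  · change p (Equiv.swap 1 2 2) = p 2
    rw [Equiv.swap_apply_right, hq]

theorem measurable_PG (p : Fin 3 → ℝ) (a b : Fin 3) (e : ℕ) :
    Measurable (fun q : ℝ × ℝ => PG p a b e q.1 q.2) := by
  have h : MeasurableSet {q : (ℝ × ℝ) × List Pt |
      q.2.length % 2 = e ∧ Gd 0 a q.1.1 b q.1.2 q.2} :=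
    (meas_len measurable_snd e).inter
      (measurableSet_Gd (Θ := (ℝ × ℝ) × List Pt) (u := fun _ => 0) (w := fun q => q.1.1)
        (r := fun q => q.1.2) (a := fun _ => a) (b := fun _ => b) (l := fun q => q.2)
        measurable_const (measurable_fst.comp measurable_fst)
        (measurable_snd.comp measurable_fst) measurable_const measurable_const measurable_snd)
  exact (measurable_Pm_set p (Θ := ℝ × ℝ)
    (Q := fun θ l => l.length % 2 = e ∧ Gd 0 a θ.1 b θ.2 l) h measurable_const
    measurable_fst).ennreal_toReal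

theorem measurable_PM (p : Fin 3 → ℝ) (a b : Fin 3) : Measurable (PM p a b) := by
  have h : MeasurableSet {q : ℝ × List Pt | Md 0 a q.1 b q.2} :=
    measurableSet_Md (Θ := ℝ × List Pt) (u := fun _ => 0) (w := fun q => q.1)
        (a := fun _ => a) (b := fun _ => b) (l := fun q => q.2)
        measurable_const measurable_fst measurable_const measurable_const measurable_snd
  exact (measurable_Pm_set p (Θ := ℝ) (Q := fun θ l => Md 0 a θ b l) h measurable_const
    measurable_id).ennreal_toReal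

theorem measurable_LL (p : Fin 3 → ℝ) (a b : Fin 3) :
    Measurable (fun q : ℝ × ℝ => LL p a b q.1 q.2) := by
  unfold LL
  exact ((measurable_PG p a b 0).sub (measurable_PG p a b 1)).const_mul _

theorem PG_bounds {p : Fin 3 → ℝ} (hp : PV p) (a b : Fin 3) {e : ℕ} {z : ℝ} (hz : 0 < z) (r : ℝ) :
    0 ≤ PG p a b e z r ∧ PG p a b e z r ≤ 1 := by
  have h := isProb_Pm hp hz.le
  refine ⟨measureReal_nonneg, ?_⟩
  exact measureReal_le_one

theorem PM_bounds {p : Fin 3 → ℝ} (hp : PV p) (a b : Fin 3) {z : ℝ} (hz : 0 ≤ z) :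
    0 ≤ PM p a b z ∧ PM p a b z ≤ 1 := by
  have h := isProb_Pm hp hz
  refine ⟨measureReal_nonneg, ?_⟩
  exact measureReal_le_one

theorem LL_abs {p : Fin 3 → ℝ} (hp : PV p) (a b : Fin 3) {z : ℝ} (hz : 0 < z) (r : ℝ) :
    |LL p a b z r| ≤ 1 := by
  have h0 := PG_bounds hp a b (e := 0) hz r
  have h1 := PG_bounds hp a b (e := 1) hz r
  unfold LL
  rw [abs_mul, abs_of_nonneg (Real.sqrt_nonneg _)]
  refine mul_le_one₀ (sqrt_le hp a b) (abs_nonneg _) ?_
  rw [abs_le]
  constructor <;> linarith [h0.1, h0.2, h1.1, h1.2]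

theorem NN_bounds {p : Fin 3 → ℝ} (hp : PV p) (a b : Fin 3) {z : ℝ} (hz : 0 ≤ z) :
    0 ≤ NN p a b z ∧ NN p a b z ≤ 1 := by
  have h := PM_bounds hp a b hz
  unfold NN
  exact ⟨mul_nonneg (Real.sqrt_nonneg _) h.1, mul_le_one₀ (sqrt_le hp a b) h.1 h.2⟩

theorem LL_zero (p : Fin 3 → ℝ) {a b : Fin 3} (hab : a ≠ b) {z r : ℝ} (hz : 0 < z) (hr : z < r) :
    LL p a b z r = 0 := by
  have key : ∀ l : List Pt, ¬ Gd 0 a z b r l := by
    intro l h
    have hY : (cl 0 a z b l).Finite := List.finite_toSet ((0, a) :: (z, b) :: l)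
    have hx : ((0, a) : Pt) ∈ cl 0 a z b l := List.mem_cons_self
    have hy : ((z, b) : Pt) ∈ cl 0 a z b l := List.mem_cons_of_mem _ List.mem_cons_self
    have hd : |((0, a) : Pt).1 - ((z, b) : Pt).1| = z := by
      simp only [zero_sub, abs_neg]
      exact abs_of_pos hz
    have hM : Mt (cl 0 a z b l) (0, a) (z, b) := by
      rw [Mt_iff_Fr hY hx hy hab, hd]
      exact ⟨h.1.mono hr.le, h.2.mono hr.le⟩
    have h1 := h.1 _ hM
    rw [hd] at h1
    linarith
  have hPG : ∀ e, PG p a b e z r = 0 := by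
    intro e
    unfold PG
    have h : {l : List Pt | l.length % 2 = e ∧ Gd 0 a z b r l} = ∅ := by
      ext l
      exact ⟨fun h => key l h.2, fun h => absurd h (notMem_empty l)⟩
    rw [h, measureReal_empty]
  unfold LL
  rw [hPG 0, hPG 1, sub_self, mul_zero]

theorem NN_self (p : Fin 3 → ℝ) (a : Fin 3) (z : ℝ) : NN p a a z = 0 := by
  unfold NN PM
  have h : {l : List Pt | Md 0 a z a l} = ∅ := by
    ext l
    exact ⟨fun h => (Mt_mem h).2.2 rfl, fun h => absurd h (notMem_empty l)⟩
  rw [h, measureReal_empty, mul_zero]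

theorem LL_comm (p : Fin 3 → ℝ) (a b : Fin 3) (z r : ℝ) : LL p a b z r = LL p b a z r := by
  have hPG : ∀ e, PG p a b e z r = PG p b a e z r := by
    intro e
    unfold PG
    refine real_eq_of (Pm p 0 z) (fun l => (l.map (fun y : Pt => (0 + z - y.1, y.2))).reverse)
      (fun Φ hΦ => lintegral_Pm_reflect p 0 z hΦ) (meas_PGset a b e z r) (meas_PGset b a e z r)
      fun l => ?_
    simp only [mem_ofPred_eq, List.length_reverse, List.length_map]
    rw [Gd_reflect 0 z b a r l]
  unfold LL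
  rw [hPG 0, hPG 1, mul_comm (p a) (p b)]

theorem NN_comm (p : Fin 3 → ℝ) (a b : Fin 3) (z : ℝ) : NN p a b z = NN p b a z := by
  have hPM : PM p a b z = PM p b a z := by
    unfold PM
    refine real_eq_of (Pm p 0 z) (fun l => (l.map (fun y : Pt => (0 + z - y.1, y.2))).reverse)
      (fun Φ hΦ => lintegral_Pm_reflect p 0 z hΦ) (meas_PMset a b z) (meas_PMset b a z)
      fun l => ?_
    exact Md_reflect 0 z b a l
  unfold NN
  rw [hPM, mul_comm (p a) (p b)]

theorem LL_swap {p : Fin 3 → ℝ} (hq : p 1 = p 2) (a b : Fin 3) (z r : ℝ) :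
    LL p (Equiv.swap 1 2 a) (Equiv.swap 1 2 b) z r = LL p a b z r := by
  have hPG : ∀ e, PG p (Equiv.swap 1 2 a) (Equiv.swap 1 2 b) e z r = PG p a b e z r := by
    intro e
    unfold PG
    refine real_eq_of (Pm p 0 z) (fun l => l.map (fun y : Pt => (y.1, Equiv.swap 1 2 y.2)))
      (fun Φ hΦ => lintegral_Pm_colour p (Equiv.swap 1 2) (swap_p hq) 0 z hΦ)
      (meas_PGset _ _ e z r) (meas_PGset a b e z r) fun l => ?_
    simp only [mem_ofPred_eq, List.length_map]
    rw [Gd_colour (Equiv.swap 1 2) 0 z a b r l]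
  unfold LL
  rw [hPG 0, hPG 1, swap_p hq a, swap_p hq b]

theorem NN_swap {p : Fin 3 → ℝ} (hq : p 1 = p 2) (a b : Fin 3) (z : ℝ) :
    NN p (Equiv.swap 1 2 a) (Equiv.swap 1 2 b) z = NN p a b z := by
  have hPM : PM p (Equiv.swap 1 2 a) (Equiv.swap 1 2 b) z = PM p a b z := by
    unfold PM
    refine real_eq_of (Pm p 0 z) (fun l => l.map (fun y : Pt => (y.1, Equiv.swap 1 2 y.2)))
      (fun Φ hΦ => lintegral_Pm_colour p (Equiv.swap 1 2) (swap_p hq) 0 z hΦ)
      (meas_PMset _ _ z) (meas_PMset a b z) fun l => ?_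
    exact Md_colour (Equiv.swap 1 2) 0 z a b l
  unfold NN
  rw [hPM, swap_p hq a, swap_p hq b]

end Pool.SM3
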