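/-
SM3.C3 : continuity of the contact functions.
PROOF. For `z > 0` by lintegral_Jm_affine (`c = z`, `h = 0`, `(0,1)`) and Md_scale: `Jm p m 0 z {Md 0 a z b} = z^m * g_m`, `g_m = Jm p m 0 1 {Md 0 a 1 b}
≤ 1/m!` (Jm_univ).  So `PM p a b z = e^{-z} ∑ z^m (g_m).toReal` for `z > 0`; also for `z = 0` if `a ≠ b` (`Pm p 0 0 = dirac []`,
and both sides are `g_0 = 1`: the two ends with no interior point are matched); for `a = b` everything is `0`.  A power series
with `g_m ≤ 1/m!` is continuous on ℝ (e.g. `continuous_tsum` on bounded sets, or `continuousOn_tsum`).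
-/
import Pool.Agent.Lib.SM3.A9
import Pool.Agent.Lib.SM3.B2
import Pool.Agent.Lib.SM3.B5
import Pool.Agent.Lib.SM3.B6

set_option autoImplicit false

open MeasureTheory Set

namespace Pool.SM3

theorem c3_Md_nil (u w : ℝ) (a b : Fin 3) : Md u a w b [] ↔ a ≠ b := by
  have hfin : (cl u a w b []).Finite := by
    have : cl u a w b [] = {y | y ∈ ([(u, a), (w, b)] : List Pt)} := rfl
    rw [this]
    exact List.finite_toSet _
  have hmem : ∀ z : Pt, z ∈ cl u a w b [] ↔ z = (u, a) ∨ z = (w, b) := by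
    intro z
    simp [cl]
  constructor
  · intro h
    exact (Mt_mem h).2.2
  · intro hab
    unfold Md
    have hr := Mt_rec hfin (|u - w| + 1) (u, a) (w, b) (by simp)
    rw [hr]
    refine ⟨(hmem _).2 (Or.inl rfl), (hmem _).2 (Or.inr rfl), hab, ?_, ?_⟩
    · intro z hz hM
      obtain ⟨_, hz2, hz3⟩ := Mt_mem hM
      rcases (hmem z).1 hz2 with h | h
      · subst h
        exact hz3 rfl
      · subst h
        exact lt_irrefl _ hz
    · intro z hz hM
      obtain ⟨_, hz2, hz3⟩ := Mt_mem hM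
      rcases (hmem z).1 hz2 with h | h
      · subst h
        have h1 : |w - u| < |u - w| := hz
        rw [abs_sub_comm] at h1
        exact lt_irrefl _ h1
      · subst h
        exact hz3 rfl

theorem c3_meas (u w : ℝ) (a b : Fin 3) : MeasurableSet {l : List Pt | Md u a w b l} :=
  measurableSet_Md (Θ := List Pt) (u := fun _ => u) (w := fun _ => w) (a := fun _ => a)
    (b := fun _ => b) (l := fun l => l) measurable_const measurable_const measurable_const
    measurable_const measurable_id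

theorem c3_pos {p : Fin 3 → ℝ} (a b : Fin 3) {z : ℝ} (hz : 0 < z) (n : ℕ) :
    Jm p n 0 z {l | Md 0 a z b l} = ENNReal.ofReal (z ^ n) * Jm p n 0 1 {l | Md 0 a 1 b l} := by
  have h := lintegral_Jm_affine p n hz 0 0 1
    (Φ := ({l | Md 0 a z b l} : Set (List Pt)).indicator 1)
    ((measurable_one).indicator (c3_meas 0 z a b))
  rw [mul_zero, mul_one, add_zero, add_zero, lintegral_indicator_one (c3_meas 0 z a b)] at h
  rw [h]
  congr 1
  rw [← lintegral_indicator_one (c3_meas 0 1 a b)]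
  refine lintegral_congr fun l => ?_
  have h2 := Md_scale hz 0 1 a b l
  rw [mul_zero, mul_one, add_zero, add_zero] at h2
  simp only [add_zero] at h2 ⊢
  by_cases hl : Md 0 a 1 b l
  · rw [indicator_of_mem (s := {l | Md 0 a z b l}) (h2.2 hl),
      indicator_of_mem (s := {l | Md 0 a 1 b l}) hl]
    rfl
  · rw [indicator_of_notMem (s := {l | Md 0 a z b l}) (fun h' => hl (h2.1 h')),
      indicator_of_notMem (s := {l | Md 0 a 1 b l}) hl]

theorem c3_zero {p : Fin 3 → ℝ} (hp : PV p) (a b : Fin 3) (n : ℕ) :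
    Jm p n 0 0 {l | Md 0 a 0 b l} = ENNReal.ofReal ((0 : ℝ) ^ n) * Jm p n 0 1 {l | Md 0 a 1 b l} := by
  rcases Nat.eq_zero_or_pos n with hn | hn
  · subst hn
    rw [pow_zero, ENNReal.ofReal_one, one_mul]
    rw [← lintegral_indicator_one (c3_meas 0 1 a b), ← lintegral_indicator_one (c3_meas 0 0 a b),
      lintegral_Jm_zero p 0 1 ((measurable_one).indicator (c3_meas 0 1 a b)),
      lintegral_Jm_zero p 0 0 ((measurable_one).indicator (c3_meas 0 0 a b))]
    by_cases hab : a = b
    · rw [indicator_of_notMem (s := {l | Md 0 a 0 b l}) (fun h' => (c3_Md_nil 0 0 a b).1 h' hab),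
        indicator_of_notMem (s := {l | Md 0 a 1 b l}) (fun h' => (c3_Md_nil 0 1 a b).1 h' hab)]
    · rw [indicator_of_mem (s := {l | Md 0 a 0 b l}) ((c3_Md_nil 0 0 a b).2 hab),
        indicator_of_mem (s := {l | Md 0 a 1 b l}) ((c3_Md_nil 0 1 a b).2 hab)]
  · rw [zero_pow (by omega), ENNReal.ofReal_zero, zero_mul]
    have h := Jm_univ hp n (le_refl (0 : ℝ))
    rw [sub_zero, zero_pow (by omega), zero_div, ENNReal.ofReal_zero] at h
    exact measure_mono_null (subset_univ _) h

theorem c3_all {p : Fin 3 → ℝ} (hp : PV p) (a b : Fin 3) {z : ℝ} (hz : 0 ≤ z) (n : ℕ) :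
    Jm p n 0 z {l | Md 0 a z b l} = ENNReal.ofReal (z ^ n) * Jm p n 0 1 {l | Md 0 a 1 b l} := by
  rcases hz.eq_or_lt with h | h
  · subst h
    exact c3_zero hp a b n
  · exact c3_pos a b h n

theorem c3_le {p : Fin 3 → ℝ} (hp : PV p) (a b : Fin 3) (n : ℕ) :
    Jm p n 0 1 {l | Md 0 a 1 b l} ≤ ENNReal.ofReal (1 / n.factorial) := by
  have h := Jm_univ hp n (zero_le_one (α := ℝ))
  rw [sub_zero, one_pow] at h
  rw [← h]
  exact measure_mono (subset_univ _)

theorem c3_PM {p : Fin 3 → ℝ} (hp : PV p) (a b : Fin 3) {z : ℝ} (hz : 0 ≤ z) :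
    PM p a b z = Real.exp (-z) * ∑' n : ℕ, z ^ n * (Jm p n 0 1 {l | Md 0 a 1 b l}).toReal := by
  unfold PM
  rw [Measure.real, ← lintegral_indicator_one (c3_meas 0 z a b), lintegral_Pm, sub_zero,
    ENNReal.toReal_mul, ENNReal.toReal_ofReal (Real.exp_pos _).le]
  congr 1
  have h1 : ∀ n : ℕ, ∫⁻ l, ({l | Md 0 a z b l} : Set (List Pt)).indicator 1 l ∂(Jm p n 0 z)
      = ENNReal.ofReal (z ^ n) * Jm p n 0 1 {l | Md 0 a 1 b l} := by
    intro n
    rw [lintegral_indicator_one (c3_meas 0 z a b), c3_all hp a b hz n]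
  simp only [h1]
  rw [ENNReal.tsum_toReal_eq]
  · refine tsum_congr fun n => ?_
    rw [ENNReal.toReal_mul, ENNReal.toReal_ofReal (pow_nonneg hz n)]
  · intro n
    exact ENNReal.mul_ne_top ENNReal.ofReal_ne_top
      (ne_top_of_le_ne_top ENNReal.ofReal_ne_top (c3_le hp a b n))

theorem c3_cont {g : ℕ → ℝ} (hg : ∀ n, |g n| ≤ 1 / n.factorial) :
    Continuous (fun z : ℝ => ∑' n : ℕ, z ^ n * g n) := by
  rw [continuous_iff_continuousAt]
  intro x
  have hs : Summable (fun n : ℕ => (|x| + 1) ^ n / (n.factorial : ℝ)) :=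
    Real.summable_pow_div_factorial (|x| + 1)
  have hc : ContinuousOn (fun z : ℝ => ∑' n : ℕ, z ^ n * g n) (Ioo (-(|x| + 1)) (|x| + 1)) := by
    refine continuousOn_tsum (fun n => ?_) hs ?_
    · exact ((continuous_pow n).mul continuous_const).continuousOn
    · intro n z hz
      rw [Real.norm_eq_abs, abs_mul, abs_pow]
      have hz' : |z| ≤ |x| + 1 := (abs_lt.2 ⟨hz.1, hz.2⟩).le
      have h1 : |z| ^ n ≤ (|x| + 1) ^ n := pow_le_pow_left₀ (abs_nonneg z) hz' n
      calc |z| ^ n * |g n| ≤ (|x| + 1) ^ n * (1 / n.factorial) :=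
            mul_le_mul h1 (hg n) (abs_nonneg _) (by positivity)
        _ = (|x| + 1) ^ n / n.factorial := by rw [mul_one_div]
  have hx : x ∈ Ioo (-(|x| + 1)) (|x| + 1) := by
    constructor
    · have := neg_abs_le x
      linarith
    · have := le_abs_self x
      linarith
  exact hc.continuousAt (isOpen_Ioo.mem_nhds hx)

theorem NN_continuousOn {p : Fin 3 → ℝ} (hp : PV p) (a b : Fin 3) :
    ContinuousOn (NN p a b) (Ici 0) := by
  have hc : Continuous (fun z : ℝ =>
      ∑' n : ℕ, z ^ n * (Jm p n 0 1 {l | Md 0 a 1 b l}).toReal) := by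
    refine c3_cont fun n => ?_
    rw [abs_of_nonneg ENNReal.toReal_nonneg]
    have h := ENNReal.toReal_mono ENNReal.ofReal_ne_top (c3_le hp a b n)
    rwa [ENNReal.toReal_ofReal (by positivity)] at h
  have hc2 : Continuous (fun z : ℝ => Real.sqrt (p a * p b) * (Real.exp (-z) *
      ∑' n : ℕ, z ^ n * (Jm p n 0 1 {l | Md 0 a 1 b l}).toReal)) :=
    continuous_const.mul ((Real.continuous_exp.comp continuous_neg).mul hc)
  refine hc2.continuousOn.congr fun z hz => ?_
  unfold NN
  rw [c3_PM hp a b hz]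

end Pool.SM3
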