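/-
SM3.C4 : equation (L).
PROOF. `decomp_lintegral` for `e = 0` and `e = 1`, converted to reals (all measures are `≤ 1`, the integrands are measurable:
measurable_PG, measurable_PM composed with `t ↦ (z - t, t)`; `∫⁻ ofReal = ofReal ∫`), subtract, multiply by `sqrt (p a p b)`, use Pm_parity
(`= e^{-2z}`) and
`sqrt (p a * p b) * (p c * (PM p a c t * (PG p c b 1 (z-t) t - PG p c b 0 (z-t) t))) = - NN p a c t * LL p c b (z-t) t`
(`sqrt (p a p c) sqrt (p c p b) = p c sqrt (p a p b)`).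
-/
import Pool.Agent.Lib.SM3.C1
import Pool.Agent.Lib.SM3.C2

set_option autoImplicit false

open MeasureTheory Set

namespace Pool.SM3

/-- first integrand -/
private noncomputable def c4F (p : Fin 3 → ℝ) (a b : Fin 3) (e : ℕ) (z t : ℝ) : ℝ :=
  ∑ c : Fin 3, p c * (PM p a c t * PG p c b e (z - t) t)

/-- second integrand -/
private noncomputable def c4G (p : Fin 3 → ℝ) (a b : Fin 3) (e : ℕ) (z t : ℝ) : ℝ :=
  ∑ c : Fin 3, p c * (PG p a c e (z - t) t * PM p c b t)

private theorem c4F_meas (p : Fin 3 → ℝ) (a b : Fin 3) (e : ℕ) (z : ℝ) :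
    Measurable (c4F p a b e z) := by
  have h0 : Measurable (fun t : ℝ => ((z - t, t) : ℝ × ℝ)) := by fun_prop
  have h1 : ∀ c, Measurable (fun t : ℝ => PG p c b e (z - t) t) := fun c =>
    Measurable.comp (g := fun q : ℝ × ℝ => PG p c b e q.1 q.2) (f := fun t : ℝ => (z - t, t))
      (measurable_PG p c b e) h0
  have h2 : ∀ c, Measurable (fun t : ℝ => p c * (PM p a c t * PG p c b e (z - t) t)) := fun c =>
    ((measurable_PM p a c).mul (h1 c)).const_mul (p c)
  exact Finset.measurable_fun_sum Finset.univ fun c _ => h2 c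

private theorem c4G_meas (p : Fin 3 → ℝ) (a b : Fin 3) (e : ℕ) (z : ℝ) :
    Measurable (c4G p a b e z) := by
  have h0 : Measurable (fun t : ℝ => ((z - t, t) : ℝ × ℝ)) := by fun_prop
  have h1 : ∀ c, Measurable (fun t : ℝ => PG p a c e (z - t) t) := fun c =>
    Measurable.comp (g := fun q : ℝ × ℝ => PG p a c e q.1 q.2) (f := fun t : ℝ => (z - t, t))
      (measurable_PG p a c e) h0
  have h2 : ∀ c, Measurable (fun t : ℝ => p c * (PG p a c e (z - t) t * PM p c b t)) := fun c =>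
    ((h1 c).mul (measurable_PM p c b)).const_mul (p c)
  exact Finset.measurable_fun_sum Finset.univ fun c _ => h2 c

private theorem c4F_bd {p : Fin 3 → ℝ} (hp : PV p) (a b : Fin 3) (e : ℕ) {z t : ℝ} (ht : 0 < t)
    (htz : t < z) : 0 ≤ c4F p a b e z t ∧ c4F p a b e z t ≤ 1 := by
  have h : ∀ c, 0 ≤ p c * (PM p a c t * PG p c b e (z - t) t) ∧
      p c * (PM p a c t * PG p c b e (z - t) t) ≤ p c := by
    intro c
    have h1 := PM_bounds hp a c ht.le
    have h2 := PG_bounds hp c b (e := e) (sub_pos.2 htz) t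
    have h3 : PM p a c t * PG p c b e (z - t) t ≤ 1 := mul_le_one₀ h1.2 h2.1 h2.2
    exact ⟨mul_nonneg (hp.pos c).le (mul_nonneg h1.1 h2.1), mul_le_of_le_one_right (hp.pos c).le h3⟩
  refine ⟨Finset.sum_nonneg fun c _ => (h c).1, ?_⟩
  refine (Finset.sum_le_sum fun c _ => (h c).2).trans ?_
  rw [Fin.sum_univ_three, hp.sum]

private theorem c4G_bd {p : Fin 3 → ℝ} (hp : PV p) (a b : Fin 3) (e : ℕ) {z t : ℝ} (ht : 0 < t)
    (htz : t < z) : 0 ≤ c4G p a b e z t ∧ c4G p a b e z t ≤ 1 := by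
  have h : ∀ c, 0 ≤ p c * (PG p a c e (z - t) t * PM p c b t) ∧
      p c * (PG p a c e (z - t) t * PM p c b t) ≤ p c := by
    intro c
    have h1 := PM_bounds hp c b ht.le
    have h2 := PG_bounds hp a c (e := e) (sub_pos.2 htz) t
    have h3 : PG p a c e (z - t) t * PM p c b t ≤ 1 := mul_le_one₀ h2.2 h1.1 h1.2
    exact ⟨mul_nonneg (hp.pos c).le (mul_nonneg h2.1 h1.1), mul_le_of_le_one_right (hp.pos c).le h3⟩
  refine ⟨Finset.sum_nonneg fun c _ => (h c).1, ?_⟩
  refine (Finset.sum_le_sum fun c _ => (h c).2).trans ?_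
  rw [Fin.sum_univ_three, hp.sum]

private theorem c4_int {f : ℝ → ℝ} (hf : Measurable f) {m : ℝ}
    (hb : ∀ t ∈ Ioo 0 m, 0 ≤ f t ∧ f t ≤ 1) : IntegrableOn f (Ioo 0 m) := by
  refine Measure.integrableOn_of_bounded (M := 1) (by simp) hf.aestronglyMeasurable ?_
  filter_upwards [self_mem_ae_restrict measurableSet_Ioo] with t ht
  rw [Real.norm_of_nonneg (hb t ht).1]
  exact (hb t ht).2

private theorem c4_ofReal {p : Fin 3 → ℝ} (hp : PV p) {t : ℝ} (ht : 0 ≤ t) (S : Set (List Pt)) :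
    Pm p 0 t S = ENNReal.ofReal ((Pm p 0 t).real S) := by
  have := isProb_Pm hp ht
  rw [Measure.real, ENNReal.ofReal_toReal (measure_ne_top _ _)]

private theorem c4_real {p : Fin 3 → ℝ} (hp : PV p) (a b : Fin 3) {e : ℕ} (he : e < 2) {z : ℝ}
    (hz : 0 < z) {r : ℝ} (hr : 0 ≤ r) :
    (Pm p 0 z).real {l | l.length % 2 = e} = PG p a b e z r
      + (∫ t in Ioo 0 (min r z), c4F p a b (1 - e) z t)
      + (∫ t in Ioo 0 (min r z), c4G p a b (1 - e) z t)
      + (if e = 0 ∧ z < r then PM p a b z else 0) := by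
  have hP := isProb_Pm hp hz.le
  have h := decomp_lintegral p a b he hz hr
  have h1 : (∫⁻ t in Ioo 0 (min r z), ∑ c : Fin 3, ENNReal.ofReal (p c) *
          (Pm p 0 t {l | Md 0 a t c l} *
            Pm p 0 (z - t) {l | l.length % 2 = 1 - e ∧ Gd 0 c (z - t) b t l})) =
      ENNReal.ofReal (∫ t in Ioo 0 (min r z), c4F p a b (1 - e) z t) := by
    rw [ofReal_integral_eq_lintegral_ofReal (c4_int (c4F_meas p a b (1 - e) z) fun t ht =>
      c4F_bd hp a b (1 - e) ht.1 (ht.2.trans_le (min_le_right _ _)))]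
    · refine setLIntegral_congr_fun measurableSet_Ioo fun t ht => ?_
      have htz : t < z := ht.2.trans_le (min_le_right _ _)
      unfold c4F
      rw [ENNReal.ofReal_sum_of_nonneg fun c _ => mul_nonneg (hp.pos c).le
        (mul_nonneg (PM_bounds hp a c ht.1.le).1 (PG_bounds hp c b (sub_pos.2 htz) t).1)]
      refine Finset.sum_congr rfl fun c _ => ?_
      rw [ENNReal.ofReal_mul (hp.pos c).le, ENNReal.ofReal_mul (PM_bounds hp a c ht.1.le).1,
        c4_ofReal hp ht.1.le, c4_ofReal hp (sub_pos.2 htz).le]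
      rfl
    · filter_upwards [self_mem_ae_restrict measurableSet_Ioo] with t ht
      exact (c4F_bd hp a b (1 - e) ht.1 (ht.2.trans_le (min_le_right _ _))).1
  have h2 : (∫⁻ t in Ioo 0 (min r z), ∑ c : Fin 3, ENNReal.ofReal (p c) *
          (Pm p 0 (z - t) {l | l.length % 2 = 1 - e ∧ Gd 0 a (z - t) c t l} *
            Pm p 0 t {l | Md 0 c t b l})) =
      ENNReal.ofReal (∫ t in Ioo 0 (min r z), c4G p a b (1 - e) z t) := by
    rw [ofReal_integral_eq_lintegral_ofReal (c4_int (c4G_meas p a b (1 - e) z) fun t ht =>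
      c4G_bd hp a b (1 - e) ht.1 (ht.2.trans_le (min_le_right _ _)))]
    · refine setLIntegral_congr_fun measurableSet_Ioo fun t ht => ?_
      have htz : t < z := ht.2.trans_le (min_le_right _ _)
      unfold c4G
      rw [ENNReal.ofReal_sum_of_nonneg fun c _ => mul_nonneg (hp.pos c).le
        (mul_nonneg (PG_bounds hp a c (sub_pos.2 htz) t).1 (PM_bounds hp c b ht.1.le).1)]
      refine Finset.sum_congr rfl fun c _ => ?_
      rw [ENNReal.ofReal_mul (hp.pos c).le, ENNReal.ofReal_mul (PG_bounds hp a c (sub_pos.2 htz) t).1,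
        c4_ofReal hp ht.1.le, c4_ofReal hp (sub_pos.2 htz).le]
      rfl
    · filter_upwards [self_mem_ae_restrict measurableSet_Ioo] with t ht
      exact (c4G_bd hp a b (1 - e) ht.1 (ht.2.trans_le (min_le_right _ _))).1
  have n1 : 0 ≤ ∫ t in Ioo 0 (min r z), c4F p a b (1 - e) z t :=
    setIntegral_nonneg measurableSet_Ioo fun t ht =>
      (c4F_bd hp a b (1 - e) ht.1 (ht.2.trans_le (min_le_right _ _))).1
  have n2 : 0 ≤ ∫ t in Ioo 0 (min r z), c4G p a b (1 - e) z t :=
    setIntegral_nonneg measurableSet_Ioo fun t ht =>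
      (c4G_bd hp a b (1 - e) ht.1 (ht.2.trans_le (min_le_right _ _))).1
  have h3 : (if e = 0 ∧ z < r then Pm p 0 z {l | Md 0 a z b l} else 0) =
      ENNReal.ofReal (if e = 0 ∧ z < r then PM p a b z else 0) := by
    split_ifs
    · exact c4_ofReal hp hz.le _
    · simp
  have n3 : (0 : ℝ) ≤ (if e = 0 ∧ z < r then PM p a b z else 0) := by
    split_ifs
    · exact (PM_bounds hp a b hz.le).1
    · exact le_rfl
  have n0 := (PG_bounds hp a b (e := e) hz r).1
  rw [h1, h2, h3, c4_ofReal hp hz.le {l | l.length % 2 = e ∧ Gd 0 a z b r l}] at h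
  change _ = ENNReal.ofReal (PG p a b e z r) + _ + _ + _ at h
  rw [← ENNReal.ofReal_add n0 n1, ← ENNReal.ofReal_add (add_nonneg n0 n1) n2,
    ← ENNReal.ofReal_add (add_nonneg (add_nonneg n0 n1) n2) n3] at h
  rw [Measure.real, h, ENNReal.toReal_ofReal (add_nonneg (add_nonneg (add_nonneg n0 n1) n2) n3)]

private theorem c4_sqrt {p : Fin 3 → ℝ} (hp : PV p) (a b c : Fin 3) :
    Real.sqrt (p a * p c) * Real.sqrt (p c * p b) = p c * Real.sqrt (p a * p b) := by
  rw [Real.sqrt_mul (hp.pos a).le, Real.sqrt_mul (hp.pos c).le, Real.sqrt_mul (hp.pos a).le]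
  have h := Real.mul_self_sqrt (hp.pos c).le
  calc _ = (Real.sqrt (p c) * Real.sqrt (p c)) * (Real.sqrt (p a) * Real.sqrt (p b)) := by ring
    _ = _ := by rw [h]

theorem LL_eq {p : Fin 3 → ℝ} (hp : PV p) (a b : Fin 3) {z : ℝ} (hz : 0 < z) {r : ℝ} (hr : 0 ≤ r) :
    LL p a b z r = Real.sqrt (p a * p b) * Real.exp (-(2 * z))
      + (∫ t in (0:ℝ)..(min r z), ∑ c : Fin 3,
          (NN p a c t * LL p c b (z - t) t + LL p a c (z - t) t * NN p c b t))
      - (if z < r then NN p a b z else 0) := by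
  have hF := fun e => c4_int (m := min r z) (c4F_meas p a b e z) fun t ht =>
    c4F_bd hp a b e ht.1 (ht.2.trans_le (min_le_right _ _))
  have hG := fun e => c4_int (m := min r z) (c4G_meas p a b e z) fun t ht =>
    c4G_bd hp a b e ht.1 (ht.2.trans_le (min_le_right _ _))
  have h0 := c4_real hp a b (e := 0) (by norm_num) hz hr
  have h1 := c4_real hp a b (e := 1) (by norm_num) hz hr
  have hpar := Pm_parity hp hz.le
  have hint : (∫ t in (0:ℝ)..(min r z), ∑ c : Fin 3,
      (NN p a c t * LL p c b (z - t) t + LL p a c (z - t) t * NN p c b t)) =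
      Real.sqrt (p a * p b) * (((∫ t in Ioo 0 (min r z), c4F p a b 0 z t)
        - (∫ t in Ioo 0 (min r z), c4F p a b 1 z t))
        + ((∫ t in Ioo 0 (min r z), c4G p a b 0 z t)
        - (∫ t in Ioo 0 (min r z), c4G p a b 1 z t))) := by
    have e1 : IntegrableOn (fun t => c4F p a b 0 z t - c4F p a b 1 z t) (Ioo 0 (min r z)) :=
      (hF 0).sub (hF 1)
    have e2 : IntegrableOn (fun t => c4G p a b 0 z t - c4G p a b 1 z t) (Ioo 0 (min r z)) :=
      (hG 0).sub (hG 1)
    rw [intervalIntegral.integral_of_le (le_min hr hz.le), integral_Ioc_eq_integral_Ioo,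
      ← integral_sub (hF 0) (hF 1), ← integral_sub (hG 0) (hG 1),
      ← integral_add e1 e2, ← integral_const_mul]
    refine integral_congr_ae (Filter.Eventually.of_forall fun t => ?_)
    simp only [c4F, c4G]
    rw [← Finset.sum_sub_distrib, ← Finset.sum_sub_distrib, ← Finset.sum_add_distrib, Finset.mul_sum]
    refine Finset.sum_congr rfl fun c _ => ?_
    unfold NN LL
    have hs := c4_sqrt hp a b c
    linear_combination (PM p a c t * (PG p c b 0 (z - t) t - PG p c b 1 (z - t) t)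
      + PM p c b t * (PG p a c 0 (z - t) t - PG p a c 1 (z - t) t)) * hs
  rw [hint]
  unfold NN
  have hif : (if z < r then Real.sqrt (p a * p b) * PM p a b z else 0) =
      Real.sqrt (p a * p b) * (if (0 : ℕ) = 0 ∧ z < r then PM p a b z else 0) := by
    by_cases h : z < r
    · rw [if_pos h, if_pos ⟨rfl, h⟩]
    · rw [if_neg h, if_neg fun h' => h h'.2, mul_zero]
  have hif1 : (if (1 : ℕ) = 0 ∧ z < r then PM p a b z else 0) = 0 :=
    if_neg fun h => one_ne_zero h.1
  rw [hif1] at h1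
  rw [hif, ← hpar, h0, h1]
  simp only [Nat.sub_zero, Nat.sub_self]
  unfold LL
  ring

end Pool.SM3
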