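/-
SM3.C5 : the pair function and the signed function: `k - l = 2 l * k`.
PROOF. Integrate `altern` (u = 0, w = z) over `Pm p 0 z` (a.e.: ae_Pm, ae_generic) with `mecke`: only the colour `c = a` contributes
(`ind (c = a ∧ ..)`); with `P e t := (Pm p 0 t) {l | l.length % 2 = e ∧ Gd 0 a t a t l}` and `Q t := Pm p 0 t {l | Gd 0 a t a t l}`
(shift the second interval: lintegral_Pm_shift, Gd_shift; `w - y.1 = z - t`):
`∫⁻ t in Ioo 0 z, ofReal (p a) * (P 0 t * Q (z-t)) = ∫⁻ t in Ioo 0 z, ofReal (p a) * (P 1 t * Q (z-t)) + P 1 z`.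
Convert to reals, multiply by `p a`; `LL p a a t t = p a * (P 0 t - P 1 t)` (sqrt of a square),
`Kf p a z = p a * (P 0 z + P 1 z)`, so `Kf - LL = 2 p a P 1`.
-/
import Pool.Agent.Lib.SM3.C1
import Pool.Agent.Lib.SM3.C2
import Pool.Agent.Lib.SM3.B9

set_option autoImplicit false

open MeasureTheory Set

namespace Pool.SM3

private theorem c5_mGd (a : Fin 3) (u w r : ℝ) : MeasurableSet {l : List Pt | Gd u a w a r l} :=
  measurableSet_Gd measurable_const measurable_const measurable_const measurable_const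
    measurable_const measurable_id

private theorem c5_mlen (e : ℕ) : MeasurableSet {l : List Pt | l.length % 2 = e} :=
  measurable_lengthL (MeasurableSet.of_discrete (s := {n : ℕ | n % 2 = e}))

private theorem c5_ind (μ : Measure (List Pt)) {P : List Pt → Prop} (hP : MeasurableSet {l | P l}) :
    ∫⁻ l, ind (P l) ∂μ = μ {l | P l} := by
  rw [← lintegral_indicator_one hP]
  refine lintegral_congr (fun l => ?_)
  by_cases h : P l
  · rw [indicator_of_mem (show l ∈ {l | P l} from h)]
    simp [ind, h]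
  · rw [indicator_of_notMem (show l ∉ {l | P l} from h)]
    simp [ind, h]

private theorem c5_ind_and (P Q : Prop) : ind (P ∧ Q) = ind P * ind Q := by
  by_cases hP : P <;> by_cases hQ : Q <;> simp [ind, hP, hQ]

private theorem c5_p_le {p : Fin 3 → ℝ} (hp : PV p) (a : Fin 3) : p a ≤ 1 := by
  have h0 := hp.pos 0
  have h1 := hp.pos 1
  have h2 := hp.pos 2
  have h3 := hp.sum
  fin_cases a
  · show p 0 ≤ 1
    linarith
  · show p 1 ≤ 1
    linarith
  · show p 2 ≤ 1
    linarith

theorem measurable_Kf (p : Fin 3 → ℝ) (a : Fin 3) : Measurable (Kf p a) := by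
  have hQ : MeasurableSet {q : ℝ × List Pt | Gd 0 a q.1 a q.1 q.2} :=
    measurableSet_Gd measurable_const measurable_fst measurable_fst measurable_const
      measurable_const measurable_snd
  have h := measurable_Pm_set p (Θ := ℝ) (Q := fun t l => Gd 0 a t a t l) hQ
    (u := fun _ => 0) (w := fun t => t) measurable_const measurable_id
  exact measurable_const.mul h.ennreal_toReal

theorem Kf_bounds {p : Fin 3 → ℝ} (hp : PV p) (a : Fin 3) {z : ℝ} (hz : 0 < z) :
    0 ≤ Kf p a z ∧ Kf p a z ≤ 1 := by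
  have := isProb_Pm hp hz.le
  have h1 : 0 ≤ (Pm p 0 z).real {l | Gd 0 a z a z l} := measureReal_nonneg
  have h2 : (Pm p 0 z).real {l | Gd 0 a z a z l} ≤ 1 := measureReal_le_one
  unfold Kf
  exact ⟨mul_nonneg (hp.pos a).le h1, mul_le_one₀ (c5_p_le hp a) h1 h2⟩

private theorem c5_shift (p : Fin 3 → ℝ) (a : Fin 3) (z t : ℝ) :
    Pm p t z {l | Gd t a z a (z - t) l} = Pm p 0 (z - t) {l | Gd 0 a (z - t) a (z - t) l} := by
  have h := lintegral_Pm_shift p t 0 (z - t) (Φ := fun l => ind (Gd t a z a (z - t) l))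
    (measurable_ind (c5_mGd a t z (z - t)))
  rw [zero_add, sub_add_cancel, c5_ind _ (c5_mGd a t z (z - t))] at h
  rw [h, ← c5_ind _ (c5_mGd a 0 (z - t) (z - t))]
  refine lintegral_congr (fun l => ?_)
  have h2 := Gd_shift t 0 (z - t) a a (z - t) l
  rw [zero_add, sub_add_cancel] at h2
  rw [h2]

/-- integrated splitSum -/
private theorem c5_mecke (p : Fin 3 → ℝ) (a : Fin 3) (e : ℕ) (z : ℝ) :
    ∫⁻ l, splitSum (fun l₁ y l₂ => ind (y.2 = a ∧
        (l₁.length % 2 = e ∧ Gd 0 a y.1 a (y.1 - 0) l₁) ∧ Gd y.1 a z a (z - y.1) l₂)) l ∂(Pm p 0 z)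
      = ∫⁻ t in Ioo 0 z, ENNReal.ofReal (p a) *
          (Pm p 0 t {l | l.length % 2 = e ∧ Gd 0 a t a t l} *
            Pm p 0 (z - t) {l | Gd 0 a (z - t) a (z - t) l}) := by
  have hΨ : Measurable (fun q : List Pt × Pt × List Pt => ind (q.2.1.2 = a ∧
      (q.1.length % 2 = e ∧ Gd 0 a q.2.1.1 a (q.2.1.1 - 0) q.1) ∧
        Gd q.2.1.1 a z a (z - q.2.1.1) q.2.2)) := by
    refine measurable_ind ?_
    have m1 : MeasurableSet {q : List Pt × Pt × List Pt | q.2.1.2 = a} :=
      (measurable_snd.comp (measurable_fst.comp measurable_snd)) (measurableSet_singleton a)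
    have m2 : MeasurableSet {q : List Pt × Pt × List Pt | q.1.length % 2 = e} :=
      measurable_fst (c5_mlen e)
    have mt : Measurable (fun q : List Pt × Pt × List Pt => q.2.1.1) :=
      measurable_fst.comp (measurable_fst.comp measurable_snd)
    have m3 : MeasurableSet {q : List Pt × Pt × List Pt |
        Gd 0 a q.2.1.1 a (q.2.1.1 - 0) q.1} :=
      measurableSet_Gd measurable_const mt (mt.sub measurable_const) measurable_const
        measurable_const measurable_fst
    have m4 : MeasurableSet {q : List Pt × Pt × List Pt |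
        Gd q.2.1.1 a z a (z - q.2.1.1) q.2.2} :=
      measurableSet_Gd mt measurable_const (measurable_const.sub mt) measurable_const
        measurable_const (measurable_snd.comp measurable_snd)
    exact m1.inter ((m2.inter m3).inter m4)
  rw [mecke p 0 z hΨ]
  refine lintegral_congr (fun t => ?_)
  rw [Finset.sum_eq_single a]
  · congr 1
    rw [← c5_shift]
    have h1 : ∀ l₁ l₂ : List Pt, ind ((t, a).2 = a ∧
        (l₁.length % 2 = e ∧ Gd 0 a (t, a).1 a ((t, a).1 - 0) l₁) ∧
          Gd (t, a).1 a z a (z - (t, a).1) l₂)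
        = ind (l₁.length % 2 = e ∧ Gd 0 a t a t l₁) * ind (Gd t a z a (z - t) l₂) := by
      intro l₁ l₂
      rw [← c5_ind_and]
      simp
    have h2 : ∀ l₁ : List Pt, ∫⁻ l₂, ind ((t, a).2 = a ∧
        (l₁.length % 2 = e ∧ Gd 0 a (t, a).1 a ((t, a).1 - 0) l₁) ∧
          Gd (t, a).1 a z a (z - (t, a).1) l₂) ∂(Pm p t z)
        = ind (l₁.length % 2 = e ∧ Gd 0 a t a t l₁) * Pm p t z {l | Gd t a z a (z - t) l} := by
      intro l₁
      rw [lintegral_congr (fun l₂ => h1 l₁ l₂),
        lintegral_const_mul _ (measurable_ind (c5_mGd a t z (z - t))),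
        c5_ind _ (c5_mGd a t z (z - t))]
    refine (lintegral_congr h2).trans ?_
    have m5 : MeasurableSet {l : List Pt | l.length % 2 = e ∧ Gd 0 a t a t l} :=
      (c5_mlen e).inter (c5_mGd a 0 t t)
    rw [lintegral_mul_const _ (measurable_ind m5), c5_ind _ m5]
  · intro c _ hc
    have h1 : ∀ l₁ l₂ : List Pt, ind ((t, c).2 = a ∧
        (l₁.length % 2 = e ∧ Gd 0 a (t, c).1 a ((t, c).1 - 0) l₁) ∧
          Gd (t, c).1 a z a (z - (t, c).1) l₂) = 0 := by
      intro l₁ l₂
      have : ¬ ((t, c).2 = a ∧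
        (l₁.length % 2 = e ∧ Gd 0 a (t, c).1 a ((t, c).1 - 0) l₁) ∧
          Gd (t, c).1 a z a (z - (t, c).1) l₂) := fun h => hc h.1
      simp only [ind, if_neg this]
    have h2 : ∫⁻ l₁, ∫⁻ l₂, ind ((t, c).2 = a ∧
        (l₁.length % 2 = e ∧ Gd 0 a (t, c).1 a ((t, c).1 - 0) l₁) ∧
          Gd (t, c).1 a z a (z - (t, c).1) l₂) ∂(Pm p t z) ∂(Pm p 0 t) = 0 := by
      refine (lintegral_congr (fun l₁ => (lintegral_congr (fun l₂ => h1 l₁ l₂)).trans
        lintegral_zero)).trans lintegral_zero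
    exact (congrArg (ENNReal.ofReal (p c) * ·) h2).trans (mul_zero _)
  · intro h
    exact absurd (Finset.mem_univ a) h

theorem Kf_eq {p : Fin 3 → ℝ} (hp : PV p) (a : Fin 3) {z : ℝ} (hz : 0 < z) :
    Kf p a z = LL p a a z z + 2 * ∫ t in (0:ℝ)..z, LL p a a t t * Kf p a (z - t) := by
  -- notation
  set P : ℕ → ℝ → ENNReal := fun e t => Pm p 0 t {l | l.length % 2 = e ∧ Gd 0 a t a t l} with hPdef
  set Q : ℝ → ENNReal := fun t => Pm p 0 t {l | Gd 0 a t a t l} with hQdef
  have mP : ∀ e, Measurable (P e) := by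
    intro e
    have hm : MeasurableSet {q : ℝ × List Pt | q.2.length % 2 = e ∧ Gd 0 a q.1 a q.1 q.2} :=
      (measurable_snd (c5_mlen e)).inter
        (measurableSet_Gd measurable_const measurable_fst measurable_fst measurable_const
          measurable_const measurable_snd)
    exact measurable_Pm_set p (Θ := ℝ) (Q := fun t l => l.length % 2 = e ∧ Gd 0 a t a t l) hm
      (u := fun _ => 0) (w := fun t => t) measurable_const measurable_id
  have mQ : Measurable Q := by
    have hm : MeasurableSet {q : ℝ × List Pt | Gd 0 a q.1 a q.1 q.2} :=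
      measurableSet_Gd measurable_const measurable_fst measurable_fst measurable_const
        measurable_const measurable_snd
    exact measurable_Pm_set p (Θ := ℝ) (Q := fun t l => Gd 0 a t a t l) hm
      (u := fun _ => 0) (w := fun t => t) measurable_const measurable_id
  have P1 : ∀ e t, 0 ≤ t → P e t ≤ 1 := by
    intro e t ht
    have := isProb_Pm hp ht
    exact prob_le_one
  have Q1 : ∀ t, 0 ≤ t → Q t ≤ 1 := by
    intro t ht
    have := isProb_Pm hp ht
    exact prob_le_one
  -- the alternating identity, integrated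
  have key : (∫⁻ t in Ioo 0 z, ENNReal.ofReal (p a) * (P 0 t * Q (z - t)))
      = (∫⁻ t in Ioo 0 z, ENNReal.ofReal (p a) * (P 1 t * Q (z - t))) + P 1 z := by
    have h0 := c5_mecke p a 0 z
    have h1 := c5_mecke p a 1 z
    have m6 : MeasurableSet {l : List Pt | l.length % 2 = 1 ∧ Gd 0 a z a z l} :=
      (c5_mlen 1).inter (c5_mGd a 0 z z)
    have h2 : ∫⁻ l, ind (l.length % 2 = 1 ∧ Gd 0 a z a z l) ∂(Pm p 0 z) = P 1 z := c5_ind _ m6
    rw [← h0, ← h1, ← h2, ← lintegral_add_right _ (measurable_ind m6)]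
    refine lintegral_congr_ae ?_
    filter_upwards [ae_Pm p 0 z, ae_generic p hz a a] with l hl hg
    have h3 := altern hz a hl hg.1
    rw [sub_zero z] at h3
    exact h3
  -- real versions
  have hpa : 0 ≤ p a := (hp.pos a).le
  have hreal : ∀ e, (∫⁻ t in Ioo 0 z, ENNReal.ofReal (p a) * (P e t * Q (z - t))).toReal
      = ∫ t in Ioo 0 z, p a * ((P e t).toReal * (Q (z - t)).toReal) := by
    intro e
    rw [← integral_toReal]
    · refine integral_congr_ae (Filter.Eventually.of_forall (fun t => ?_))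
      show (ENNReal.ofReal (p a) * (P e t * Q (z - t))).toReal
        = p a * ((P e t).toReal * (Q (z - t)).toReal)
      rw [ENNReal.toReal_mul, ENNReal.toReal_mul, ENNReal.toReal_ofReal hpa]
    · exact (measurable_const.mul ((mP e).mul
        (mQ.comp (measurable_const.sub measurable_id)))).aemeasurable
    · filter_upwards [ae_restrict_mem measurableSet_Ioo] with t ht
      exact ENNReal.mul_lt_top ENNReal.ofReal_lt_top (ENNReal.mul_lt_top
        ((P1 e t ht.1.le).trans_lt ENNReal.one_lt_top)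
        ((Q1 (z - t) (by linarith [ht.2])).trans_lt ENNReal.one_lt_top))
  have hfin : ∀ e, (∫⁻ t in Ioo 0 z, ENNReal.ofReal (p a) * (P e t * Q (z - t))) ≠ ⊤ := by
    intro e
    refine ne_of_lt (lt_of_le_of_lt (b := ∫⁻ _ in Ioo 0 z, (1:ENNReal)) ?_ ?_)
    · refine setLIntegral_mono' measurableSet_Ioo (fun t ht => ?_)
      have h1 : ENNReal.ofReal (p a) ≤ 1 := by
        rw [← ENNReal.ofReal_one]
        exact ENNReal.ofReal_le_ofReal (c5_p_le hp a)
      calc ENNReal.ofReal (p a) * (P e t * Q (z - t)) ≤ 1 * (1 * 1) :=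
            mul_le_mul' h1 (mul_le_mul' (P1 e t ht.1.le) (Q1 (z - t) (by linarith [ht.2])))
        _ = 1 := by simp
    · simp
  have key2 : (∫ t in Ioo 0 z, p a * ((P 0 t).toReal * (Q (z - t)).toReal))
      = (∫ t in Ioo 0 z, p a * ((P 1 t).toReal * (Q (z - t)).toReal)) + (P 1 z).toReal := by
    rw [← hreal 0, ← hreal 1, key, ENNReal.toReal_add (hfin 1)]
    exact ne_of_lt ((P1 1 z hz.le).trans_lt ENNReal.one_lt_top)
  have hint : ∀ e, IntegrableOn (fun t => p a * ((P e t).toReal * (Q (z - t)).toReal))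
      (Ioo 0 z) := by
    intro e
    refine Measure.integrableOn_of_bounded (M := 1) (by simp) ?_ ?_
    · exact (measurable_const.mul ((mP e).ennreal_toReal.mul
        (mQ.comp (measurable_const.sub measurable_id)).ennreal_toReal)).aestronglyMeasurable
    · filter_upwards [ae_restrict_mem measurableSet_Ioo] with t ht
      have h1 : (P e t).toReal ≤ 1 := ENNReal.toReal_le_of_le_ofReal zero_le_one
        (by rw [ENNReal.ofReal_one]; exact P1 e t ht.1.le)
      have h2 : (Q (z - t)).toReal ≤ 1 := ENNReal.toReal_le_of_le_ofReal zero_le_one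
        (by rw [ENNReal.ofReal_one]; exact Q1 (z - t) (by linarith [ht.2]))
      have h3 : 0 ≤ (P e t).toReal := ENNReal.toReal_nonneg
      have h4 : 0 ≤ (Q (z - t)).toReal := ENNReal.toReal_nonneg
      rw [Real.norm_eq_abs, abs_of_nonneg (by positivity)]
      exact mul_le_one₀ (c5_p_le hp a) (by positivity) (mul_le_one₀ h1 h4 h2)
  -- the sum of the two parities
  have hsum : (Q z).toReal = (P 0 z).toReal + (P 1 z).toReal := by
    have m0 : MeasurableSet {l : List Pt | l.length % 2 = 1 ∧ Gd 0 a z a z l} :=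
      (c5_mlen 1).inter (c5_mGd a 0 z z)
    have h1 : Q z = P 0 z + P 1 z := by
      rw [hQdef, hPdef]
      show Pm p 0 z {l | Gd 0 a z a z l} = Pm p 0 z {l | l.length % 2 = 0 ∧ Gd 0 a z a z l}
        + Pm p 0 z {l | l.length % 2 = 1 ∧ Gd 0 a z a z l}
      rw [← measure_union _ m0]
      · congr 1
        ext l
        simp only [mem_ofPred_eq, mem_union]
        have : l.length % 2 = 0 ∨ l.length % 2 = 1 := Nat.mod_two_eq_zero_or_one _
        tauto
      · rw [Set.disjoint_left]
        rintro l ⟨h1, _⟩ ⟨h2, _⟩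
        omega
    rw [h1, ENNReal.toReal_add (ne_of_lt ((P1 0 z hz.le).trans_lt ENNReal.one_lt_top))
      (ne_of_lt ((P1 1 z hz.le).trans_lt ENNReal.one_lt_top))]
  have hLL : ∀ t, LL p a a t t = p a * ((P 0 t).toReal - (P 1 t).toReal) := by
    intro t
    unfold LL PG
    rw [Real.sqrt_mul_self hpa]
    rfl
  have hK : ∀ t, Kf p a t = p a * (Q t).toReal := fun t => rfl
  rw [hK z, hLL z, intervalIntegral.integral_of_le hz.le, integral_Ioc_eq_integral_Ioo]
  have h5 : ∫ t in Ioo 0 z, LL p a a t t * Kf p a (z - t)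
      = p a * (P 1 z).toReal := by
    have h6 : ∫ t in Ioo 0 z, LL p a a t t * Kf p a (z - t)
        = p a * ((∫ t in Ioo 0 z, p a * ((P 0 t).toReal * (Q (z - t)).toReal))
          - ∫ t in Ioo 0 z, p a * ((P 1 t).toReal * (Q (z - t)).toReal)) := by
      rw [← integral_sub (hint 0) (hint 1), ← integral_const_mul]
      refine integral_congr_ae (Filter.Eventually.of_forall (fun t => ?_))
      show LL p a a t t * Kf p a (z - t) = p a * (p a * ((P 0 t).toReal * (Q (z - t)).toReal)
        - p a * ((P 1 t).toReal * (Q (z - t)).toReal))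
      rw [hK, hLL]
      ring
    rw [h6, key2]
    ring
  rw [h5, hsum]
  ring

end Pool.SM3
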