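/-
SM3.DDefs : definitions for the analytic part.
-/
import Mathlib

set_option autoImplicit false

open MeasureTheory Set

namespace Pool.SM3

/-- Laplace transform on the half line -/
noncomputable def Lp (f : ℝ → ℝ) (s : ℝ) : ℝ := ∫ z in Ioi (0:ℝ), Real.exp (-(s * z)) * f z

/-- convolution on the half line -/
noncomputable def conv (f g : ℝ → ℝ) (z : ℝ) : ℝ := ∫ t in (0:ℝ)..z, f t * g (z - t)

/-- the scalar system of the closed-system functions `A = L_11`, `B = L_12 = L_13`, `C = L_22 = L_33`, `D = L_23`,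
`n = N_12 = N_13`, `k = N_23` -/
structure Sys (p q : ℝ) (A B C D : ℝ → ℝ → ℝ) (n k : ℝ → ℝ) : Prop where
  p0 : 0 < p
  q0 : 0 < q
  pq : p + 2 * q = 1
  mA : Measurable (fun x : ℝ × ℝ => A x.1 x.2)
  mB : Measurable (fun x : ℝ × ℝ => B x.1 x.2)
  mC : Measurable (fun x : ℝ × ℝ => C x.1 x.2)
  mD : Measurable (fun x : ℝ × ℝ => D x.1 x.2)
  bA : ∀ z r : ℝ, 0 < z → |A z r| ≤ 1
  bB : ∀ z r : ℝ, 0 < z → |B z r| ≤ 1
  bC : ∀ z r : ℝ, 0 < z → |C z r| ≤ 1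
  bD : ∀ z r : ℝ, 0 < z → |D z r| ≤ 1
  nm : Measurable n
  km : Measurable k
  nc : ContinuousOn n (Ici 0)
  kc : ContinuousOn k (Ici 0)
  n0 : ∀ z : ℝ, 0 ≤ z → 0 ≤ n z
  n1 : ∀ z : ℝ, 0 ≤ z → n z ≤ 1
  k0 : ∀ z : ℝ, 0 ≤ z → 0 ≤ k z
  k1 : ∀ z : ℝ, 0 ≤ z → k z ≤ 1
  eA : ∀ z r : ℝ, 0 < z → 0 ≤ r → A z r = p * Real.exp (-(2 * z))
      + ∫ t in (0:ℝ)..(min r z), 4 * (n t * B (z - t) t)
  eB : ∀ z r : ℝ, 0 < z → 0 ≤ r → B z r = Real.sqrt (p * q) * Real.exp (-(2 * z))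
      + (∫ t in (0:ℝ)..(min r z),
          (n t * (A (z - t) t + C (z - t) t + D (z - t) t) + k t * B (z - t) t))
      - (if z < r then n z else 0)
  eC : ∀ z r : ℝ, 0 < z → 0 ≤ r → C z r = q * Real.exp (-(2 * z))
      + ∫ t in (0:ℝ)..(min r z), (2 * (n t * B (z - t) t) + 2 * (k t * D (z - t) t))
  eD : ∀ z r : ℝ, 0 < z → 0 ≤ r → D z r = q * Real.exp (-(2 * z))
      + (∫ t in (0:ℝ)..(min r z), (2 * (n t * B (z - t) t) + 2 * (k t * C (z - t) t)))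
      - (if z < r then k z else 0)
  zB : ∀ z r : ℝ, 0 < z → z < r → B z r = 0
  zD : ∀ z r : ℝ, 0 < z → z < r → D z r = 0

/-- the ordinary differential equations (in integrated form) of the Laplace transforms at a fixed `s` -/
structure OdeL (p q s : ℝ) (n k a b c d : ℝ → ℝ) : Prop where
  ca : ContinuousOn a (Ici 0)
  cb : ContinuousOn b (Ici 0)
  cc : ContinuousOn c (Ici 0)
  cd : ContinuousOn d (Ici 0)
  ea : ∀ r : ℝ, 0 ≤ r → a r = p / (s + 2) + ∫ t in (0:ℝ)..r, Real.exp (-(s * t)) * (4 * (n t * b t))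
  eb : ∀ r : ℝ, 0 ≤ r → b r = Real.sqrt (p * q) / (s + 2)
      + ∫ t in (0:ℝ)..r, Real.exp (-(s * t)) * (n t * (a t + c t + d t - 1) + k t * b t)
  ec : ∀ r : ℝ, 0 ≤ r → c r = q / (s + 2)
      + ∫ t in (0:ℝ)..r, Real.exp (-(s * t)) * (2 * (n t * b t) + 2 * (k t * d t))
  ed : ∀ r : ℝ, 0 ≤ r → d r = q / (s + 2)
      + ∫ t in (0:ℝ)..r, Real.exp (-(s * t)) * (2 * (n t * b t) + 2 * (k t * c t) - k t)

/-- the dressing factor in Laplace space -/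
noncomputable def phi (n : ℝ → ℝ) (s r : ℝ) : ℝ :=
  Real.exp (∫ t in (0:ℝ)..r, Real.exp (-(s * t)) * n t)

/-- `ψ` (first argument `z`, second `r`) is the function part of the convolution exponential
`exp_* (n 1_(0,r)) = δ + ψ_r` -/
structure IsPsi (n : ℝ → ℝ) (ψ : ℝ → ℝ → ℝ) : Prop where
  meas : Measurable (fun x : ℝ × ℝ => ψ x.1 x.2)
  nonneg : ∀ z r : ℝ, 0 < z → 0 ≤ r → 0 ≤ ψ z r
  le : ∀ z r : ℝ, 0 < z → 0 ≤ r → ψ z r ≤ Real.exp r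
  mass : ∀ z r : ℝ, 0 ≤ z → 0 ≤ r → (∫ u in (0:ℝ)..z, ψ u r) ≤ Real.exp r
  lap : ∀ s r : ℝ, 0 < s → 0 ≤ r → 1 + Lp (fun z => ψ z r) s = phi n s r

/-- `δ + ψ_r` convolved with `X(·;r)` -/
noncomputable def hat (ψ X : ℝ → ℝ → ℝ) (z r : ℝ) : ℝ :=
  X z r + conv (fun u => ψ u r) (fun u => X u r) z

/-- the function `Z = (A + C - B)^ - ψ` -/
noncomputable def Zt (ψ A B C : ℝ → ℝ → ℝ) (z r : ℝ) : ℝ :=
  hat ψ (fun z r => A z r + C z r - B z r) z r - ψ z r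

end Pool.SM3
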