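/-
SM3.C6 : the scalar system.
PROOF. LL_eq with `∑ c` expanded (Fin.sum_univ_three), NN_self, NN_comm, LL_comm, and the colour exchange (LL_swap, NN_swap with
`(a,b) = (0,1), (1,1), (1,2)`): `LL 0 2 = LL 0 1`, `LL 2 2 = LL 1 1`, `NN 0 2 = NN 0 1`; `sqrt (p a * p a) = p a`.
-/
import Pool.Agent.Lib.SM3.C3
import Pool.Agent.Lib.SM3.C4
import Pool.Agent.Lib.SM3.DDefs

set_option autoImplicit false

open MeasureTheory Set

namespace Pool.SM3

theorem sys_of_poisson {p : Fin 3 → ℝ} (hp : PV p) (hq : p 1 = p 2) :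
    Sys (p 0) (p 1) (LL p 0 0) (LL p 0 1) (LL p 1 1) (LL p 1 2) (NN p 0 1) (NN p 1 2) := by
  have s0 : (Equiv.swap (1 : Fin 3) 2) 0 = 0 := by decide
  have s1 : (Equiv.swap (1 : Fin 3) 2) 1 = 2 := by decide
  have s2 : (Equiv.swap (1 : Fin 3) 2) 2 = 1 := by decide
  have n02 : ∀ z, NN p 0 2 z = NN p 0 1 z := fun z => by
    have h := NN_swap hq 0 1 z
    rwa [s0, s1] at h
  have l02 : ∀ z r, LL p 0 2 z r = LL p 0 1 z r := fun z r => by
    have h := LL_swap hq 0 1 z r
    rwa [s0, s1] at h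
  have l22 : ∀ z r, LL p 2 2 z r = LL p 1 1 z r := fun z r => by
    have h := LL_swap hq 1 1 z r
    rwa [s1] at h
  have n10 : ∀ z, NN p 1 0 z = NN p 0 1 z := fun z => NN_comm p 1 0 z
  have n20 : ∀ z, NN p 2 0 z = NN p 0 1 z := fun z => by rw [NN_comm, n02]
  have n21 : ∀ z, NN p 2 1 z = NN p 1 2 z := fun z => NN_comm p 2 1 z
  have l10 : ∀ z r, LL p 1 0 z r = LL p 0 1 z r := fun z r => LL_comm p 1 0 z r
  have l20 : ∀ z r, LL p 2 0 z r = LL p 0 1 z r := fun z r => by rw [LL_comm, l02]
  have l21 : ∀ z r, LL p 2 1 z r = LL p 1 2 z r := fun z r => LL_comm p 2 1 z r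
  have p0 := hp.pos 0
  have p1 := hp.pos 1
  have hsum := hp.sum
  have q00 : Real.sqrt (p 0 * p 0) = p 0 := Real.sqrt_mul_self p0.le
  have q11 : Real.sqrt (p 1 * p 1) = p 1 := Real.sqrt_mul_self p1.le
  have q12 : Real.sqrt (p 1 * p 2) = p 1 := by rw [← hq]; exact q11
  refine
    { p0 := p0
      q0 := p1
      pq := by rw [← hq] at hsum; linarith
      mA := measurable_LL p 0 0
      mB := measurable_LL p 0 1
      mC := measurable_LL p 1 1
      mD := measurable_LL p 1 2
      bA := fun z r hz => LL_abs hp 0 0 hz r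
      bB := fun z r hz => LL_abs hp 0 1 hz r
      bC := fun z r hz => LL_abs hp 1 1 hz r
      bD := fun z r hz => LL_abs hp 1 2 hz r
      nm := (measurable_PM p 0 1).const_mul _
      km := (measurable_PM p 1 2).const_mul _
      nc := NN_continuousOn hp 0 1
      kc := NN_continuousOn hp 1 2
      n0 := fun z hz => (NN_bounds hp 0 1 hz).1
      n1 := fun z hz => (NN_bounds hp 0 1 hz).2
      k0 := fun z hz => (NN_bounds hp 1 2 hz).1
      k1 := fun z hz => (NN_bounds hp 1 2 hz).2
      eA := ?_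
      eB := ?_
      eC := ?_
      eD := ?_
      zB := fun z r hz hr => LL_zero p (by decide) hz hr
      zD := fun z r hz hr => LL_zero p (by decide) hz hr }
  · intro z r hz hr
    rw [LL_eq hp 0 0 hz hr, q00, NN_self, ite_self, sub_zero]
    congr 1
    refine intervalIntegral.integral_congr fun t _ => ?_
    simp only [Fin.sum_univ_three, NN_self, n02, n10, n20, l10, l02, l20]
    ring
  · intro z r hz hr
    rw [LL_eq hp 0 1 hz hr]
    congr 2
    refine intervalIntegral.integral_congr fun t _ => ?_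
    simp only [Fin.sum_univ_three, NN_self, n02, n21, l02, l21]
    ring
  · intro z r hz hr
    rw [LL_eq hp 1 1 hz hr, q11, NN_self, ite_self, sub_zero]
    congr 1
    refine intervalIntegral.integral_congr fun t _ => ?_
    simp only [Fin.sum_univ_three, NN_self, n10, n21, l10, l21]
    ring
  · intro z r hz hr
    rw [LL_eq hp 1 2 hz hr, q12]
    congr 2
    refine intervalIntegral.integral_congr fun t _ => ?_
    simp only [Fin.sum_univ_three, NN_self, n10, n02, l10, l02, l22]
    ring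

end Pool.SM3
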