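/-
SM3.D1 : Laplace transform: basics.
PROOF. All integrands are measurable and bounded by `K e^{-sz}` on `(0,∞)`: `integrableOn_Ioi` of `exp (-(s z))`.
`Lp_exp`: `∫_0^∞ e^{-sz} e^{-2z} dz = 1/(s+2)`.
`Lp_shift`: Fubini: `∫_0^∞ e^{-sz} ∫_0^{min r z} G (z-t) t dt dz = ∫_0^r e^{-st} (∫_0^∞ e^{-sz'} G z' t dz') dt` (substitute `z' = z - t` in the inner integral over `z ∈ (t,∞)`); the
double integrand on `{0 < t < r, t < z}` is bounded by `K e^{-sz}`, integrable.  (`intervalIntegral` over `0..min r z` with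
`0 ≤ r`: set integral over `Ioc 0 (min r z)`.)
`Lp_cut`: `Lp (fun z => if z < r then f z else 0) s = ∫ t in 0..r, e^{-st} f t`.
`measurable_Lp_param`, `measurable_shift`: parametric integrals of jointly measurable functions
(`StronglyMeasurable.integral_prod_right` with indicators).
-/
import Pool.Agent.Lib.SM3.DDefs

set_option autoImplicit false

open MeasureTheory Set

namespace Pool.SM3

private theorem d1_exp {s : ℝ} (hs : 0 < s) :
    IntegrableOn (fun z => Real.exp (-(s * z))) (Ioi 0) := by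
  have h1 := exp_neg_integrableOn_Ioi 0 hs
  have h2 : (fun z => Real.exp (-(s * z))) = fun z => Real.exp (-s * z) := by
    funext z
    rw [neg_mul]
  rw [h2]
  exact h1

private theorem d1_exp_int {s : ℝ} (hs : 0 < s) :
    ∫ z in Ioi (0 : ℝ), Real.exp (-(s * z)) = 1 / s := by
  have h1 := integral_exp_mul_Ioi (neg_lt_zero.2 hs) 0
  rw [mul_zero, Real.exp_zero] at h1
  have h2 : (fun z => Real.exp (-(s * z))) = fun z => Real.exp (-s * z) := by
    funext z
    rw [neg_mul]
  rw [h2, h1, neg_div_neg_eq]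

theorem Lp_integrable {f : ℝ → ℝ} (hf : Measurable f) {K s : ℝ} (hs : 0 < s)
    (hK : ∀ z, 0 < z → |f z| ≤ K) : IntegrableOn (fun z => Real.exp (-(s * z)) * f z) (Ioi 0) := by
  refine ((d1_exp hs).const_mul K).mono' ?_ ?_
  · exact ((Real.measurable_exp.comp ((measurable_const.mul measurable_id).neg)).mul
      hf).aestronglyMeasurable
  · refine (ae_restrict_iff' measurableSet_Ioi).2 (ae_of_all _ fun z hz => ?_)
    rw [Real.norm_eq_abs, abs_mul, abs_of_pos (Real.exp_pos _), mul_comm]
    exact mul_le_mul_of_nonneg_right (hK z hz) (Real.exp_pos _).le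

theorem Lp_add {f g : ℝ → ℝ} (hf : Measurable f) (hg : Measurable g) {K s : ℝ} (hs : 0 < s)
    (hf' : ∀ z, 0 < z → |f z| ≤ K) (hg' : ∀ z, 0 < z → |g z| ≤ K) :
    Lp (fun z => f z + g z) s = Lp f s + Lp g s := by
  unfold Lp
  rw [← integral_add (Lp_integrable hf hs hf') (Lp_integrable hg hs hg')]
  refine integral_congr_ae (ae_of_all _ fun z => ?_)
  simp only
  ring

theorem Lp_sub {f g : ℝ → ℝ} (hf : Measurable f) (hg : Measurable g) {K s : ℝ} (hs : 0 < s)
    (hf' : ∀ z, 0 < z → |f z| ≤ K) (hg' : ∀ z, 0 < z → |g z| ≤ K) :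
    Lp (fun z => f z - g z) s = Lp f s - Lp g s := by
  unfold Lp
  rw [← integral_sub (Lp_integrable hf hs hf') (Lp_integrable hg hs hg')]
  refine integral_congr_ae (ae_of_all _ fun z => ?_)
  simp only
  ring

theorem Lp_const_mul (c : ℝ) (f : ℝ → ℝ) (s : ℝ) : Lp (fun z => c * f z) s = c * Lp f s := by
  unfold Lp
  rw [← integral_const_mul]
  refine integral_congr_ae (ae_of_all _ fun z => ?_)
  simp only
  ring

theorem Lp_nonneg {f : ℝ → ℝ} (hf : ∀ᵐ z, 0 < z → 0 ≤ f z) (s : ℝ) : 0 ≤ Lp f s := by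
  unfold Lp
  refine setIntegral_nonneg_ae measurableSet_Ioi ?_
  filter_upwards [hf] with z hz hz0
  exact mul_nonneg (Real.exp_pos _).le (hz hz0)

theorem Lp_abs_le {f : ℝ → ℝ} {K s : ℝ} (hs : 0 < s) (hK : ∀ z, 0 < z → |f z| ≤ K) :
    |Lp f s| ≤ K / s := by
  unfold Lp
  have h1 := norm_integral_le_of_norm_le (f := fun z => Real.exp (-(s * z)) * f z)
    ((d1_exp hs).const_mul K) ((ae_restrict_iff' measurableSet_Ioi).2
      (ae_of_all _ fun z hz => by
        rw [Real.norm_eq_abs, abs_mul, abs_of_pos (Real.exp_pos _), mul_comm]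
        exact mul_le_mul_of_nonneg_right (hK z hz) (Real.exp_pos _).le))
  rw [Real.norm_eq_abs, integral_const_mul, d1_exp_int hs, mul_one_div] at h1
  exact h1

theorem Lp_congr {f g : ℝ → ℝ} (h : ∀ᵐ z, 0 < z → f z = g z) (s : ℝ) : Lp f s = Lp g s := by
  unfold Lp
  refine setIntegral_congr_ae measurableSet_Ioi ?_
  filter_upwards [h] with z hz hz0
  rw [hz hz0]

theorem Lp_exp (c : ℝ) {s : ℝ} (hs : 0 < s) :
    Lp (fun z => c * Real.exp (-(2 * z))) s = c / (s + 2) := by
  unfold Lp
  have h1 : (fun z => Real.exp (-(s * z)) * (c * Real.exp (-(2 * z)))) =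
      fun z => c * Real.exp (-((s + 2) * z)) := by
    funext z
    rw [show -((s + 2) * z) = -(s * z) + -(2 * z) by ring, Real.exp_add]
    ring
  rw [h1, integral_const_mul, d1_exp_int (by linarith : 0 < s + 2), mul_one_div]

theorem Lp_cut (f : ℝ → ℝ) {r s : ℝ} (hr : 0 ≤ r) :
    Lp (fun z => if z < r then f z else 0) s = ∫ t in (0:ℝ)..r, Real.exp (-(s * t)) * f t := by
  unfold Lp
  have h1 : (fun z => Real.exp (-(s * z)) * (if z < r then f z else 0)) =
      (Iio r).indicator (fun z => Real.exp (-(s * z)) * f z) := by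
    funext z
    by_cases hz : z < r
    · rw [if_pos hz, indicator_of_mem (mem_Iio.2 hz)]
    · rw [if_neg hz, mul_zero, indicator_of_notMem (fun h => hz (mem_Iio.1 h))]
  rw [h1, setIntegral_indicator measurableSet_Iio, Ioi_inter_Iio,
    intervalIntegral.integral_of_le hr, integral_Ioc_eq_integral_Ioo]

theorem measurable_Lp_param {Y : ℝ → ℝ → ℝ} (hY : Measurable (fun x : ℝ × ℝ => Y x.1 x.2)) (s : ℝ) :
    Measurable (fun t => Lp (fun z => Y z t) s) := by
  have h1 : StronglyMeasurable (Function.uncurry fun (t z : ℝ) => Real.exp (-(s * z)) * Y z t) := by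
    have h2 : Measurable fun x : ℝ × ℝ => Real.exp (-(s * x.2)) :=
      Real.measurable_exp.comp ((measurable_const.mul measurable_snd).neg)
    have h3 : Measurable fun x : ℝ × ℝ => Y x.2 x.1 := hY.comp measurable_swap
    exact (h2.mul h3).stronglyMeasurable
  exact (h1.integral_prod_right (ν := volume.restrict (Ioi (0 : ℝ)))).measurable

theorem measurable_shift {G : ℝ → ℝ → ℝ} (hG : Measurable (fun x : ℝ × ℝ => G x.1 x.2)) :
    Measurable (fun x : ℝ × ℝ => ∫ t in (0:ℝ)..(min x.2 x.1), G (x.1 - t) t) := by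
  have hS1 : MeasurableSet {x : (ℝ × ℝ) × ℝ | 0 < x.2 ∧ x.2 ≤ min x.1.2 x.1.1} := by
    refine (measurableSet_lt measurable_const measurable_snd).inter ?_
    exact measurableSet_le measurable_snd
      ((measurable_snd.comp measurable_fst).min (measurable_fst.comp measurable_fst))
  have hS2 : MeasurableSet {x : (ℝ × ℝ) × ℝ | min x.1.2 x.1.1 < x.2 ∧ x.2 ≤ 0} := by
    refine (measurableSet_lt
      ((measurable_snd.comp measurable_fst).min (measurable_fst.comp measurable_fst))
      measurable_snd).inter ?_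
    exact measurableSet_le measurable_snd measurable_const
  have hF : Measurable fun x : (ℝ × ℝ) × ℝ => G (x.1.1 - x.2) x.2 :=
    hG.comp (((measurable_fst.comp measurable_fst).sub measurable_snd).prodMk measurable_snd)
  have h1 : ∀ S : Set ((ℝ × ℝ) × ℝ), MeasurableSet S →
      Measurable fun x : ℝ × ℝ => ∫ t, S.indicator (fun x => G (x.1.1 - x.2) x.2) (x, t) :=
    fun S hS => ((hF.indicator hS).stronglyMeasurable.integral_prod_right').measurable
  have h2 : (fun x : ℝ × ℝ => ∫ t in (0:ℝ)..(min x.2 x.1), G (x.1 - t) t) = fun x : ℝ × ℝ =>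
      (∫ t, {x : (ℝ × ℝ) × ℝ | 0 < x.2 ∧ x.2 ≤ min x.1.2 x.1.1}.indicator
        (fun x => G (x.1.1 - x.2) x.2) (x, t)) -
      ∫ t, {x : (ℝ × ℝ) × ℝ | min x.1.2 x.1.1 < x.2 ∧ x.2 ≤ 0}.indicator
        (fun x => G (x.1.1 - x.2) x.2) (x, t) := by
    funext x
    rw [intervalIntegral, ← integral_indicator measurableSet_Ioc,
      ← integral_indicator measurableSet_Ioc]
    rfl
  rw [h2]
  exact (h1 _ hS1).sub (h1 _ hS2)

theorem Lp_shift {G : ℝ → ℝ → ℝ} (hG : Measurable (fun x : ℝ × ℝ => G x.1 x.2)) {K r s : ℝ}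
    (hs : 0 < s) (hr : 0 ≤ r) (hK : ∀ z t : ℝ, 0 < z → 0 ≤ t → t ≤ r → |G z t| ≤ K) :
    Lp (fun z => ∫ t in (0:ℝ)..(min r z), G (z - t) t) s
      = ∫ t in (0:ℝ)..r, Real.exp (-(s * t)) * Lp (fun z => G z t) s := by
  have hK0 : 0 ≤ K := (abs_nonneg _).trans (hK 1 0 one_pos le_rfl hr)
  -- the double integrand
  set F : ℝ → ℝ → ℝ := fun z t => Real.exp (-(s * z)) * (if t < z then G (z - t) t else 0) with hF
  have hFm : Measurable (Function.uncurry F) := by
    have h2 : Measurable fun x : ℝ × ℝ => Real.exp (-(s * x.1)) :=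
      Real.measurable_exp.comp ((measurable_const.mul measurable_fst).neg)
    have h3 : Measurable fun x : ℝ × ℝ => if x.2 < x.1 then G (x.1 - x.2) x.2 else 0 :=
      Measurable.ite (measurableSet_lt measurable_snd measurable_fst)
        (hG.comp ((measurable_fst.sub measurable_snd).prodMk measurable_snd)) measurable_const
    exact h2.mul h3
  have hFb : ∀ z t : ℝ, 0 < z → 0 < t → t ≤ r → |F z t| ≤ K * Real.exp (-(s * z)) := by
    intro z t hz ht htr
    rw [hF]
    simp only
    rw [abs_mul, abs_of_pos (Real.exp_pos _), mul_comm]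
    refine mul_le_mul_of_nonneg_right ?_ (Real.exp_pos _).le
    split_ifs with h
    · exact hK _ _ (by linarith) ht.le htr
    · rw [abs_zero]
      exact hK0
  have hFi : Integrable (Function.uncurry F)
      ((volume.restrict (Ioi (0 : ℝ))).prod (volume.restrict (Ioc 0 r))) := by
    have h1 : Integrable (fun x : ℝ × ℝ => K * Real.exp (-(s * x.1)))
        ((volume.restrict (Ioi (0 : ℝ))).prod (volume.restrict (Ioc 0 r))) :=
      ((d1_exp hs).const_mul K).comp_fst _
    refine h1.mono' hFm.aestronglyMeasurable ?_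
    rw [Measure.prod_restrict]
    refine (ae_restrict_iff' (measurableSet_Ioi.prod measurableSet_Ioc)).2 (ae_of_all _ ?_)
    rintro ⟨z, t⟩ ⟨hz, ht⟩
    rw [Real.norm_eq_abs]
    exact hFb z t hz ht.1 ht.2
  -- left side
  have hL : Lp (fun z => ∫ t in (0:ℝ)..(min r z), G (z - t) t) s =
      ∫ z in Ioi (0 : ℝ), ∫ t in Ioc 0 r, F z t := by
    unfold Lp
    refine setIntegral_congr_fun measurableSet_Ioi fun z hz => ?_
    simp only
    have hz0 : (0 : ℝ) < z := hz
    rw [intervalIntegral.integral_of_le (le_min hr hz0.le), hF]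
    simp only
    rw [integral_const_mul]
    congr 1
    have h1 : (fun t => if t < z then G (z - t) t else 0) =
        (Iio z).indicator (fun t => G (z - t) t) := by
      funext t
      by_cases h : t < z
      · rw [if_pos h, indicator_of_mem (mem_Iio.2 h)]
      · rw [if_neg h, indicator_of_notMem (fun h' => h (mem_Iio.1 h'))]
    rw [h1, setIntegral_indicator measurableSet_Iio]
    refine setIntegral_congr_set ?_
    have h2 : (Ioc 0 r ∩ Iic z : Set ℝ) =ᵐ[volume] (Ioc 0 r ∩ Iio z : Set ℝ) :=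
      (ae_eq_refl _).inter Iio_ae_eq_Iic.symm
    have h3 : (Ioc 0 (min r z) : Set ℝ) = Ioc 0 r ∩ Iic z := by
      ext t
      simp only [mem_Ioc, le_min_iff, mem_inter_iff, mem_Iic]
      tauto
    rw [h3]
    exact h2
  rw [hL, integral_integral_swap hFi, intervalIntegral.integral_of_le hr]
  refine setIntegral_congr_fun measurableSet_Ioc fun t ht => ?_
  unfold Lp
  rw [← integral_const_mul, ← integral_indicator measurableSet_Ioi,
    ← integral_indicator measurableSet_Ioi,
    ← integral_add_right_eq_self (fun z => (Ioi (0 : ℝ)).indicator (fun z => F z t) z) t]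
  refine integral_congr_ae (ae_of_all _ fun z => ?_)
  show (Ioi (0 : ℝ)).indicator (fun z => F z t) (z + t) = (Ioi (0 : ℝ)).indicator
    (fun z => Real.exp (-(s * t)) * (Real.exp (-(s * z)) * G z t)) z
  by_cases hz : 0 < z
  · have h1 : z + t ∈ Ioi (0 : ℝ) := by
      have := ht.1
      exact mem_Ioi.2 (by linarith)
    rw [indicator_of_mem h1, indicator_of_mem (mem_Ioi.2 hz), hF]
    simp only
    rw [if_pos (by linarith : t < z + t), add_sub_cancel_right,
      show -(s * (z + t)) = -(s * t) + -(s * z) by ring, Real.exp_add]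
    ring
  · rw [indicator_of_notMem (fun h => hz (mem_Ioi.1 h))]
    by_cases h1 : z + t ∈ Ioi (0 : ℝ)
    · rw [indicator_of_mem h1, hF]
      simp only
      rw [if_neg (by linarith : ¬ t < z + t), mul_zero]
    · rw [indicator_of_notMem h1]

end Pool.SM3
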