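/-
SM3.D10a : almost everywhere statements along the shear (prove ae_shear here).
PROOF. `ae_shear`: the set `{(z', t) | ¬ P z' t, 0 < z', 0 ≤ t ≤ T}` is measurable and each of its `t`-sections is null, so it is null; the map
`(z, t) ↦ (z - t, t)` preserves the Lebesgue measure of `ℝ × ℝ` (`measurePreserving_sub_prod`-like: compose
`MeasureTheory.measurePreserving_sub_prod`/`map_prod_sub...`, or shear via `measure_prod_null`), so for a.e. `z`, for a.e. `t`.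
`volterra_nonneg`: with `u m z = K (C z)^m / m!`, `C = 5 K`, show by induction on `m` that a.e. in `(0,T)`:
`e z ≥ - u m z`, and for every `r ∈ [0,T]`: `E, F, G (z,r) ≥ - u m z` (a.e. z).  `m = 0`: the bounds by `K`.  Step: at `(z - t, t)`, for a.e. `z`, for a.e. `t`
(ae_shear), with `0 ≤ n, k, c ≤ K`, `|e|, |E|, |F|, |G|, |H| ≤ K`, `0 ≤ H, S`:
`n F ≥ -K u m (z-t)`, `2 n E ≥ -2K u m (z-t)`, `2 e H ≥ -2 K u m t`,
`c E ≥ -K u m (z-t)`, `e E ≥ -K (u m t + u m (z-t))`, `k F ≥ -K u m (z-t)`, `e G ≥ -K (u m t + u m (z-t))`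
(a product `x y` with `x ≥ -α`, `y ≥ -β`, `|x|, |y| ≤ K`, `α, β ≥ 0` is `≥ -K(α + β)`), and
`∫_0^z u m = u (m+1) z / C`; the integrals over `0..min r z` are `≥` minus the integral over `0..z`.
Let `m → ∞`: `u m z → 0`.
-/
import Pool.Agent.Lib.SM3.DDefs

set_option autoImplicit false

open MeasureTheory Set

namespace Pool.SM3

theorem ae_shear {P : ℝ → ℝ → Prop} (hP : MeasurableSet {x : ℝ × ℝ | P x.1 x.2}) {T : ℝ}
    (h : ∀ t, 0 ≤ t → t ≤ T → ∀ᵐ z, 0 < z → P z t) :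
    ∀ᵐ z, ∀ᵐ t, 0 < t → t < z → t ≤ T → P (z - t) t := by
  have hm : MeasurableSet {x : ℝ × ℝ | 0 ≤ x.2 → x.2 ≤ T → 0 < x.1 → P x.1 x.2} := by
    have e : {x : ℝ × ℝ | 0 ≤ x.2 → x.2 ≤ T → 0 < x.1 → P x.1 x.2} =
        ({x : ℝ × ℝ | 0 ≤ x.2} ∩ {x : ℝ × ℝ | x.2 ≤ T} ∩ {x : ℝ × ℝ | 0 < x.1})ᶜ
          ∪ {x : ℝ × ℝ | P x.1 x.2} := by
      ext x
      constructor
      · intro hx
        by_cases h1 : (0 ≤ x.2 ∧ x.2 ≤ T) ∧ 0 < x.1
        · exact Or.inr (hx h1.1.1 h1.1.2 h1.2)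
        · exact Or.inl h1
      · rintro (hx | hx) h1 h2 h3
        · exact absurd ⟨⟨h1, h2⟩, h3⟩ hx
        · exact hx
    rw [e]
    exact (((measurableSet_le measurable_const measurable_snd).inter
      (measurableSet_le measurable_snd measurable_const)).inter
      (measurableSet_lt measurable_const measurable_fst)).compl.union hP
  have h1 : ∀ᵐ t : ℝ, ∀ᵐ z : ℝ, 0 ≤ t → t ≤ T → 0 < z → P z t := by
    refine Filter.Eventually.of_forall fun t => ?_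
    by_cases ht : 0 ≤ t ∧ t ≤ T
    · filter_upwards [h t ht.1 ht.2] with z hz _ _ h3
      exact hz h3
    · exact Filter.Eventually.of_forall fun z h1 h2 => absurd ⟨h1, h2⟩ ht
  have hm' : MeasurableSet {x : ℝ × ℝ | 0 ≤ x.1 → x.1 ≤ T → 0 < x.2 → P x.2 x.1} :=
    measurable_swap hm
  have h2 : ∀ᵐ z : ℝ, ∀ᵐ t : ℝ, 0 ≤ t → t ≤ T → 0 < z → P z t :=
    (Measure.ae_ae_comm (μ := (volume : Measure ℝ)) (ν := (volume : Measure ℝ))
      (p := fun t z => 0 ≤ t → t ≤ T → 0 < z → P z t) hm').1 h1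
  have h3 : ∀ᵐ x : ℝ × ℝ ∂((volume : Measure ℝ).prod (volume : Measure ℝ)),
      0 ≤ x.2 → x.2 ≤ T → 0 < x.1 → P x.1 x.2 :=
    (Measure.ae_prod_iff_ae_ae (p := fun x : ℝ × ℝ => 0 ≤ x.2 → x.2 ≤ T → 0 < x.1 → P x.1 x.2) hm).2 h2
  have h4 := (measurePreserving_sub_prod (volume : Measure ℝ) (volume : Measure ℝ)).quasiMeasurePreserving.ae h3
  have h5 := Measure.ae_ae_of_ae_prod h4
  filter_upwards [h5] with z hz
  filter_upwards [hz] with t ht h6 h7 h8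
  exact ht h6.le h8 (sub_pos.2 h7)

end Pool.SM3
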