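/-
SM3.D10 : (prove volterra_nonneg here; ae_shear is in D10a) the bootstrap (a Volterra system with non-negative coefficients has non-negative solutions).
PROOF. `ae_shear`: the set `{(z', t) | ¬ P z' t, 0 < z', 0 ≤ t ≤ T}` is measurable and each of its `t`-sections is null, so it is null; the map
`(z, t) ↦ (z - t, t)` preserves the Lebesgue measure of `ℝ × ℝ` (`measurePreserving_sub_prod`-like: compose
`MeasureTheory.measurePreserving_sub_prod`/`map_prod_sub...`, or shear via `measure_prod_null`), so for a.e. `z`, for a.e. `t`.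
`volterra_nonneg`: with `u m z = K (C z)^m / m!`, `C = 5 K`, show by induction on `m` that a.e. in `(0,T)`:
`e z ≥ - u m z`, and for every `r ∈ [0,T]`: `E, F, G (z,r) ≥ - u m z` (a.e. z).  `m = 0`: the bounds by `K`.  Step: at `(z - t, t)`, for a.e. `z`, for a.e. `t`
(ae_shear), with `0 ≤ n, k, c ≤ K`, `|e|, |E|, |F|, |G|, |H| ≤ K`, `0 ≤ H, S`:
`n F ≥ -K u m (z-t)`, `2 n E ≥ -2K u m (z-t)`, `2 e H ≥ -2 K u m t`,
`c E ≥ -K u m (z-t)`, `e E ≥ -K (u m t + u m (z-t))`, `k F ≥ -K u m (z-t)`, `e G ≥ -K (u m t + u m (z-t))`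
(a product `x y` with `x ≥ -α`, `y ≥ -β`, `|x|, |y| ≤ K`, `α, β ≥ 0` is `≥ -K(α + β)`), and
`∫_0^z u m = u (m+1) z / C`; the integrals over `0..min r z` are `≥` minus the integral over `0..z`.
Let `m → ∞`: `u m z → 0`.
-/
import Pool.Agent.Lib.SM3.D10a

set_option autoImplicit false

open MeasureTheory Set

namespace Pool.SM3

private noncomputable def du (K : ℝ) (m : ℕ) (z : ℝ) : ℝ := K * (5 * K * z) ^ m / m.factorial

private theorem du_cont (K : ℝ) (m : ℕ) : Continuous (du K m) := by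
  unfold du
  fun_prop

private theorem du_nonneg {K : ℝ} (hK : 1 ≤ K) (m : ℕ) {z : ℝ} (hz : 0 ≤ z) : 0 ≤ du K m z := by
  unfold du
  positivity

private theorem du_int (K : ℝ) (m : ℕ) (z : ℝ) :
    5 * K * ∫ t in (0:ℝ)..z, du K m t = du K (m + 1) z := by
  have h1 : ∀ t : ℝ, du K m t = (K * (5 * K) ^ m / m.factorial) * t ^ m := by
    intro t
    unfold du
    rw [mul_pow]
    ring
  have h2 : (∫ t in (0:ℝ)..z, du K m t) = (K * (5 * K) ^ m / m.factorial) *
      ∫ t in (0:ℝ)..z, t ^ m := by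
    rw [← intervalIntegral.integral_const_mul]
    exact intervalIntegral.integral_congr fun t _ => h1 t
  rw [h2, integral_pow]
  unfold du
  have h3 : ((m.factorial : ℕ) : ℝ) ≠ 0 := by exact_mod_cast m.factorial_ne_zero
  have h4 : ((m : ℝ) + 1) ≠ 0 := by positivity
  rw [Nat.factorial_succ]
  push_cast
  rw [zero_pow (Nat.succ_ne_zero m), sub_zero, mul_pow (5 * K) z (m + 1)]
  field_simp
  ring

private theorem du_low {K z b : ℝ} (hK : 1 ≤ K) (hb : 0 ≤ b) (hbz : b ≤ z) (m : ℕ)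
    {g : ℝ → ℝ}
    (hg : ∀ᵐ t, 0 < t → t < b → -(3 * K * du K m (z - t) + 2 * K * du K m t) ≤ g t) :
    -du K (m + 1) z ≤ ∫ t in (0:ℝ)..b, g t := by
  have hz : 0 ≤ z := hb.trans hbz
  set h : ℝ → ℝ := fun t => 3 * K * du K m (z - t) + 2 * K * du K m t with hh
  have hc1 : Continuous (fun t => du K m (z - t)) :=
    (du_cont K m).comp (continuous_const.sub continuous_id)
  have hc : Continuous h := (hc1.const_mul (3 * K)).add ((du_cont K m).const_mul (2 * K))
  have hh0 : ∀ t, 0 ≤ t → t ≤ z → 0 ≤ h t := by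
    intro t h0 h1
    have h2 := du_nonneg hK m h0
    have h3 := du_nonneg hK m (sub_nonneg.2 h1)
    rw [hh]
    positivity
  have hint : ∫ t in (0:ℝ)..z, h t = du K (m + 1) z := by
    rw [hh, intervalIntegral.integral_add ((hc1.const_mul (3 * K)).intervalIntegrable _ _)
      (((du_cont K m).const_mul (2 * K)).intervalIntegrable _ _),
      intervalIntegral.integral_const_mul, intervalIntegral.integral_const_mul,
      intervalIntegral.integral_comp_sub_left (fun t => du K m t) z, sub_self, sub_zero,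
      ← du_int]
    ring
  have hle : ∫ t in (0:ℝ)..b, h t ≤ du K (m + 1) z := by
    rw [← hint, ← intervalIntegral.integral_add_adjacent_intervals (hc.intervalIntegrable 0 b)
      (hc.intervalIntegrable b z)]
    have h3 : 0 ≤ ∫ t in b..z, h t :=
      intervalIntegral.integral_nonneg hbz fun t ht => hh0 t (hb.trans ht.1) ht.2
    linarith
  by_cases hgi : IntervalIntegrable g volume 0 b
  · have h4 : ∫ t in (0:ℝ)..b, -h t ≤ ∫ t in (0:ℝ)..b, g t := by
      refine intervalIntegral.integral_mono_ae_restrict hb (hc.neg.intervalIntegrable _ _) hgi ?_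
      rw [Filter.EventuallyLE, ae_restrict_iff' measurableSet_Icc]
      filter_upwards [hg, (Set.countable_singleton (0 : ℝ)).ae_notMem volume,
        (Set.countable_singleton b).ae_notMem volume] with t h5 h6 h7 h8
      exact h5 (lt_of_le_of_ne h8.1 (fun h => h6 h.symm)) (lt_of_le_of_ne h8.2 h7)
    rw [intervalIntegral.integral_neg] at h4
    linarith
  · rw [intervalIntegral.integral_undef hgi]
    have := du_nonneg hK (m + 1) hz
    linarith

private theorem mul_low1 {K x y α : ℝ} (h0 : 0 ≤ x) (h1 : x ≤ K) (h2 : 0 ≤ α) (h3 : -α ≤ y) :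
    -(K * α) ≤ x * y := by
  have h4 : x * (-α) ≤ x * y := mul_le_mul_of_nonneg_left h3 h0
  have h5 : x * α ≤ K * α := mul_le_mul_of_nonneg_right h1 h2
  linarith

private theorem mul_low2 {K x y α β : ℝ} (hx : |x| ≤ K) (hy : |y| ≤ K) (hα : 0 ≤ α)
    (hβ : 0 ≤ β) (h1 : -α ≤ x) (h2 : -β ≤ y) : -(K * (α + β)) ≤ x * y := by
  have hK : 0 ≤ K := (abs_nonneg x).trans hx
  rcases le_total 0 x with h0 | h0
  · have h3 := mul_low1 h0 ((le_abs_self x).trans hx) hβ h2
    have h4 : 0 ≤ K * α := mul_nonneg hK hα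
    linarith
  · rcases le_total 0 y with h5 | h5
    · have h3 := mul_low1 h5 ((le_abs_self y).trans hy) hα h1
      have h4 : 0 ≤ K * β := mul_nonneg hK hβ
      linarith
    · have h3 : 0 ≤ x * y := mul_nonneg_of_nonpos_of_nonpos h0 h5
      have h4 : 0 ≤ K * α := mul_nonneg hK hα
      have h6 : 0 ≤ K * β := mul_nonneg hK hβ
      linarith

private theorem du_meas {T K : ℝ} (m : ℕ) {E : ℝ → ℝ → ℝ}
    (mE : Measurable (fun x : ℝ × ℝ => E x.1 x.2)) :
    MeasurableSet {x : ℝ × ℝ | x.1 < T → -du K m x.1 ≤ E x.1 x.2} := by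
  have h1 : {x : ℝ × ℝ | x.1 < T → -du K m x.1 ≤ E x.1 x.2} =
      {x : ℝ × ℝ | x.1 < T}ᶜ ∪ {x : ℝ × ℝ | -du K m x.1 ≤ E x.1 x.2} := by
    ext x
    simp only [Set.mem_ofPred_eq, Set.mem_union, Set.mem_compl_iff, imp_iff_not_or]
  rw [h1]
  refine (measurableSet_lt measurable_fst measurable_const).compl.union ?_
  exact measurableSet_le ((du_cont K m).measurable.comp measurable_fst).neg mE

private theorem du_shear {T K : ℝ} (m : ℕ) {E : ℝ → ℝ → ℝ}
    (mE : Measurable (fun x : ℝ × ℝ => E x.1 x.2))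
    (h : ∀ r, 0 ≤ r → r ≤ T → ∀ᵐ z, 0 < z → z < T → -du K m z ≤ E z r) :
    ∀ᵐ z, ∀ᵐ t, 0 < t → t < z → t ≤ T → z - t < T → -du K m (z - t) ≤ E (z - t) t :=
  ae_shear (P := fun z t => z < T → -du K m z ≤ E z t) (du_meas m mE) h

private theorem du_lim (K z : ℝ) : Filter.Tendsto (fun m : ℕ => du K m z) Filter.atTop
    (nhds 0) := by
  have h1 := (FloorSemiring.tendsto_pow_div_factorial_atTop (5 * K * z)).const_mul K
  rw [mul_zero] at h1
  refine h1.congr fun m => ?_
  unfold du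
  ring

theorem volterra_nonneg {T K : ℝ} (hT : 0 < T) (hK : 1 ≤ K)
    {n k c e : ℝ → ℝ} {E F G H S : ℝ → ℝ → ℝ} {e₀ f₀ g₀ : ℝ → ℝ}
    (nm : Measurable n) (km : Measurable k) (cm : Measurable c) (em : Measurable e)
    (mE : Measurable (fun x : ℝ × ℝ => E x.1 x.2)) (mF : Measurable (fun x : ℝ × ℝ => F x.1 x.2))
    (mG : Measurable (fun x : ℝ × ℝ => G x.1 x.2)) (mH : Measurable (fun x : ℝ × ℝ => H x.1 x.2))
    (mS : Measurable (fun x : ℝ × ℝ => S x.1 x.2))
    (hn : ∀ t, 0 < t → t < T → 0 ≤ n t ∧ n t ≤ K) (hk : ∀ t, 0 < t → t < T → 0 ≤ k t ∧ k t ≤ K)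
    (hc : ∀ t, 0 < t → t < T → 0 ≤ c t ∧ c t ≤ K) (he : ∀ t, 0 < t → t < T → |e t| ≤ K)
    (bE : ∀ z r, 0 < z → z < T → 0 ≤ r → r ≤ T → |E z r| ≤ K)
    (bF : ∀ z r, 0 < z → z < T → 0 ≤ r → r ≤ T → |F z r| ≤ K)
    (bG : ∀ z r, 0 < z → z < T → 0 ≤ r → r ≤ T → |G z r| ≤ K)
    (bH : ∀ z r, 0 < z → z < T → 0 ≤ r → r ≤ T → 0 ≤ H z r ∧ H z r ≤ K)
    (bS : ∀ z r, 0 < z → z < T → 0 ≤ r → r ≤ T → 0 ≤ S z r ∧ S z r ≤ K)
    (he₀ : ∀ z, 0 < z → 0 ≤ e₀ z) (hf₀ : ∀ z, 0 < z → 0 ≤ f₀ z) (hg₀ : ∀ z, 0 < z → 0 ≤ g₀ z)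
    (eqF : ∀ r, 0 ≤ r → r ≤ T → ∀ᵐ z, 0 < z → z < T → F z r = f₀ z
      + ∫ t in (0:ℝ)..(min r z), (n t * F (z - t) t + 2 * (n t * E (z - t) t)
          + 2 * (e t * H (z - t) t)))
    (eqG : ∀ r, 0 ≤ r → r ≤ T → ∀ᵐ z, 0 < z → z < T → G z r = g₀ z
      + ∫ t in (0:ℝ)..(min r z), (S (z - t) t + (c t + e t) * E (z - t) t))
    (eqE : ∀ r, 0 ≤ r → r ≤ T → ∀ᵐ z, 0 < z → z < T → r < z → E z r = e₀ z
      + ∫ t in (0:ℝ)..r, (k t * F (z - t) t + e t * G (z - t) t))
    (zE : ∀ z r, 0 < z → z < r → r ≤ T → E z r = 0)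
    (eqe : ∀ᵐ z, 0 < z → z < T → e z = e₀ z
      + ∫ t in (0:ℝ)..z, (k t * F (z - t) t + e t * G (z - t) t)) :
    (∀ᵐ z, 0 < z → z < T → 0 ≤ e z) ∧
      ∀ r, 0 ≤ r → r ≤ T → ∀ᵐ z, 0 < z → z < T → 0 ≤ E z r := by
  have hK0 : 0 ≤ K := by linarith
  have key : ∀ m : ℕ, (∀ᵐ z, 0 < z → z < T → -du K m z ≤ e z) ∧
      (∀ r, 0 ≤ r → r ≤ T → ∀ᵐ z, 0 < z → z < T → -du K m z ≤ E z r) ∧
      (∀ r, 0 ≤ r → r ≤ T → ∀ᵐ z, 0 < z → z < T → -du K m z ≤ F z r) ∧
      (∀ r, 0 ≤ r → r ≤ T → ∀ᵐ z, 0 < z → z < T → -du K m z ≤ G z r) := by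
    intro m
    induction m with
    | zero =>
      have h0 : ∀ z, du K 0 z = K := by
        intro z
        unfold du
        simp
      refine ⟨?_, ?_, ?_, ?_⟩
      · refine Filter.Eventually.of_forall fun z h1 h2 => ?_
        rw [h0]
        exact (abs_le.1 (he z h1 h2)).1
      · refine fun r hr hrT => Filter.Eventually.of_forall fun z h1 h2 => ?_
        rw [h0]
        exact (abs_le.1 (bE z r h1 h2 hr hrT)).1
      · refine fun r hr hrT => Filter.Eventually.of_forall fun z h1 h2 => ?_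
        rw [h0]
        exact (abs_le.1 (bF z r h1 h2 hr hrT)).1
      · refine fun r hr hrT => Filter.Eventually.of_forall fun z h1 h2 => ?_
        rw [h0]
        exact (abs_le.1 (bG z r h1 h2 hr hrT)).1
    | succ m ih =>
      obtain ⟨ihe, ihE, ihF, ihG⟩ := ih
      have sE := du_shear m mE ihE
      have sF := du_shear m mF ihF
      have sG := du_shear m mG ihG
      -- the integrands
      have wF : ∀ᵐ z, 0 < z → z < T → ∀ᵐ t, 0 < t → t < z →
          -(3 * K * du K m (z - t) + 2 * K * du K m t) ≤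
            n t * F (z - t) t + 2 * (n t * E (z - t) t) + 2 * (e t * H (z - t) t) := by
        filter_upwards [sE, sF] with z h1 h2 hz0 hzT
        filter_upwards [h1, h2, ihe] with t h3 h4 h5 ht0 htz
        have htT : t < T := htz.trans hzT
        have hzt : 0 < z - t := sub_pos.2 htz
        have hzt' : z - t < T := by linarith
        have a0 := du_nonneg hK m hzt.le
        have b0 := du_nonneg hK m ht0.le
        have h6 := h3 ht0 htz htT.le hzt'
        have h7 := h4 ht0 htz htT.le hzt'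
        have h8 := h5 ht0 htT
        obtain ⟨n0, n1⟩ := hn t ht0 htT
        obtain ⟨H0, H1⟩ := bH (z - t) t hzt hzt' ht0.le htT.le
        have q1 := mul_low1 n0 n1 a0 h7
        have q2 := mul_low1 n0 n1 a0 h6
        have q3 := mul_low1 H0 H1 b0 h8
        have q4 : e t * H (z - t) t = H (z - t) t * e t := mul_comm _ _
        rw [q4]
        linarith
      have wG : ∀ᵐ z, 0 < z → z < T → ∀ᵐ t, 0 < t → t < z →
          -(3 * K * du K m (z - t) + 2 * K * du K m t) ≤
            S (z - t) t + (c t + e t) * E (z - t) t := by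
        filter_upwards [sE] with z h1 hz0 hzT
        filter_upwards [h1, ihe] with t h3 h5 ht0 htz
        have htT : t < T := htz.trans hzT
        have hzt : 0 < z - t := sub_pos.2 htz
        have hzt' : z - t < T := by linarith
        have a0 := du_nonneg hK m hzt.le
        have b0 := du_nonneg hK m ht0.le
        have h6 := h3 ht0 htz htT.le hzt'
        have h8 := h5 ht0 htT
        obtain ⟨c0, c1⟩ := hc t ht0 htT
        obtain ⟨S0, S1⟩ := bS (z - t) t hzt hzt' ht0.le htT.le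
        have q1 := mul_low1 c0 c1 a0 h6
        have q2 := mul_low2 (he t ht0 htT) (bE (z - t) t hzt hzt' ht0.le htT.le) b0 a0 h8 h6
        have q5 := mul_nonneg hK0 a0
        have q6 := mul_nonneg hK0 b0
        rw [add_mul]
        linarith
      have wE : ∀ᵐ z, 0 < z → z < T → ∀ᵐ t, 0 < t → t < z →
          -(3 * K * du K m (z - t) + 2 * K * du K m t) ≤
            k t * F (z - t) t + e t * G (z - t) t := by
        filter_upwards [sF, sG] with z h1 h2 hz0 hzT
        filter_upwards [h1, h2, ihe] with t h3 h4 h5 ht0 htz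
        have htT : t < T := htz.trans hzT
        have hzt : 0 < z - t := sub_pos.2 htz
        have hzt' : z - t < T := by linarith
        have a0 := du_nonneg hK m hzt.le
        have b0 := du_nonneg hK m ht0.le
        have h6 := h3 ht0 htz htT.le hzt'
        have h7 := h4 ht0 htz htT.le hzt'
        have h8 := h5 ht0 htT
        obtain ⟨k0, k1⟩ := hk t ht0 htT
        have q1 := mul_low1 k0 k1 a0 h6
        have q2 := mul_low2 (he t ht0 htT) (bG (z - t) t hzt hzt' ht0.le htT.le) b0 a0 h8 h7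
        have q5 := mul_nonneg hK0 a0
        have q6 := mul_nonneg hK0 b0
        linarith
      refine ⟨?_, ?_, ?_, ?_⟩
      · filter_upwards [eqe, wE] with z h1 h2 hz0 hzT
        rw [h1 hz0 hzT]
        have h3 := du_low hK hz0.le le_rfl m (h2 hz0 hzT)
        have h4 := he₀ z hz0
        linarith
      · intro r hr hrT
        filter_upwards [eqE r hr hrT, wE, (Set.countable_singleton r).ae_notMem volume]
          with z h1 h2 h5 hz0 hzT
        rcases lt_trichotomy z r with h6 | h6 | h6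
        · rw [zE z r hz0 h6 hrT]
          have := du_nonneg hK (m + 1) hz0.le
          linarith
        · exact absurd h6 h5
        · rw [h1 hz0 hzT h6]
          have h3 := du_low hK hr h6.le m ((h2 hz0 hzT).mono fun t ht h7 h8 =>
            ht h7 (h8.trans h6))
          have h4 := he₀ z hz0
          linarith
      · intro r hr hrT
        filter_upwards [eqF r hr hrT, wF] with z h1 h2 hz0 hzT
        rw [h1 hz0 hzT]
        have h3 := du_low hK (le_min hr hz0.le) (min_le_right r z) m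
          ((h2 hz0 hzT).mono fun t ht h7 h8 => ht h7 (h8.trans_le (min_le_right r z)))
        have h4 := hf₀ z hz0
        linarith
      · intro r hr hrT
        filter_upwards [eqG r hr hrT, wG] with z h1 h2 hz0 hzT
        rw [h1 hz0 hzT]
        have h3 := du_low hK (le_min hr hz0.le) (min_le_right r z) m
          ((h2 hz0 hzT).mono fun t ht h7 h8 => ht h7 (h8.trans_le (min_le_right r z)))
        have h4 := hg₀ z hz0
        linarith
  have hfin : ∀ x z : ℝ, (∀ m : ℕ, -du K m z ≤ x) → 0 ≤ x := by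
    intro x z h
    have h1 := (du_lim K z).neg
    rw [neg_zero] at h1
    exact le_of_tendsto h1 (Filter.Eventually.of_forall h)
  refine ⟨?_, ?_⟩
  · have h1 : ∀ᵐ z, ∀ m : ℕ, 0 < z → z < T → -du K m z ≤ e z :=
      ae_all_iff.2 fun m => (key m).1
    filter_upwards [h1] with z h2 hz0 hzT
    exact hfin _ z fun m => h2 m hz0 hzT
  · intro r hr hrT
    have h1 : ∀ᵐ z, ∀ m : ℕ, 0 < z → z < T → -du K m z ≤ E z r :=
      ae_all_iff.2 fun m => (key m).2.1 r hr hrT
    filter_upwards [h1] with z h2 hz0 hzT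
    exact hfin _ z fun m => h2 m hz0 hzT

end Pool.SM3
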