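/-
SM3.D11 : positivity of `A, B, C, D`.
PROOF. Fix `T > 0`.  By induction on `m`: for all `0 < z < T`, `r ≥ 0`: `A, B, C, D (z,r) ≥ - (4 z)^m / m!`.
`m = 0`: the bounds.  Step: for `B`, `D` and `z < r` the value is `0`; for `r ≤ z` the if-term vanishes (`¬ z < r`), the first term is `≥ 0`, and the integrand
is `≥ - 4 (4 (z-t))^m / m!` (`0 ≤ n, k ≤ 1`; for `A`: `4 n B`, for `B`: `n (A + C + D) + k B`, for `C`: `2nB + 2kD`,
`D`: `2nB + 2kC`); `∫_0^z 4 (4u)^m/m! du = (4z)^(m+1)/(m+1)!`.  For `A`, `C` (no if-term) all `r ≥ 0`.  (Interval integrability: bounded measurable integrands; if an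
integrand were not integrable the integral is `0`, also fine.)  Let `m → ∞`.
-/
import Pool.Agent.Lib.SM3.DDefs

set_option autoImplicit false

open MeasureTheory Set

namespace Pool.SM3

private theorem d11_int (z v : ℝ) (m : ℕ) :
    ∫ t in (0:ℝ)..v, -(4 * ((4 * (z - t)) ^ m / (m.factorial : ℝ))) =
      (4 * (z - v)) ^ (m + 1) / ((m + 1).factorial : ℝ) -
        (4 * z) ^ (m + 1) / ((m + 1).factorial : ℝ) := by
  have hm : ((m + 1).factorial : ℝ) = (m + 1) * (m.factorial : ℝ) := by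
    rw [Nat.factorial_succ]
    push_cast
    ring
  have hf : (m.factorial : ℝ) ≠ 0 := by exact_mod_cast (Nat.factorial_pos m).ne'
  have hm1 : (m : ℝ) + 1 ≠ 0 := by positivity
  have hd : ∀ t ∈ uIcc (0:ℝ) v, HasDerivAt
      (fun t => (4 * (z - t)) ^ (m + 1) / ((m + 1).factorial : ℝ))
      (-(4 * ((4 * (z - t)) ^ m / (m.factorial : ℝ)))) t := by
    intro t _
    have h1 : HasDerivAt (fun t : ℝ => 4 * (z - t)) (4 * (-1)) t :=
      ((hasDerivAt_id t).const_sub z).const_mul 4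
    have h2 := (h1.pow (m + 1)).div_const ((m + 1).factorial : ℝ)
    refine h2.congr_deriv ?_
    rw [hm]
    push_cast
    field_simp
  rw [intervalIntegral.integral_eq_sub_of_hasDerivAt hd]
  · simp only [sub_zero]
  · apply Continuous.intervalIntegrable
    fun_prop

private theorem d11_step {f : ℝ → ℝ} {z v : ℝ} {m : ℕ} (hz : 0 < z) (hv0 : 0 ≤ v) (hvz : v ≤ z)
    (h : ∀ t, 0 < t → t < v → -(4 * ((4 * (z - t)) ^ m / (m.factorial : ℝ))) ≤ f t) :
    -((4 * z) ^ (m + 1) / ((m + 1).factorial : ℝ)) ≤ ∫ t in (0:ℝ)..v, f t := by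
  by_cases hi : IntervalIntegrable f volume 0 v
  · have h1 : ∫ t in (0:ℝ)..v, -(4 * ((4 * (z - t)) ^ m / (m.factorial : ℝ))) ≤
        ∫ t in (0:ℝ)..v, f t := by
      refine intervalIntegral.integral_mono_on_of_le_Ioo hv0 ?_ hi fun t ht => h t ht.1 ht.2
      apply Continuous.intervalIntegrable
      fun_prop
    rw [d11_int] at h1
    have h2 : 0 ≤ (4 * (z - v)) ^ (m + 1) / ((m + 1).factorial : ℝ) :=
      div_nonneg (pow_nonneg (by linarith) _) (Nat.cast_nonneg _)
    linarith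
  · rw [intervalIntegral.integral_undef hi]
    have h2 : 0 ≤ (4 * z) ^ (m + 1) / ((m + 1).factorial : ℝ) :=
      div_nonneg (pow_nonneg (by linarith) _) (Nat.cast_nonneg _)
    linarith

/-- `w * x ≥ - X` if `0 ≤ w ≤ 1`, `x ≥ - X`, `X ≥ 0` -/
private theorem d11_mul {w x X : ℝ} (h0 : 0 ≤ w) (h1 : w ≤ 1) (hx : -X ≤ x) (hX : 0 ≤ X) :
    -X ≤ w * x := by
  nlinarith [mul_nonneg h0 (by linarith : 0 ≤ x + X), mul_nonneg (by linarith : 0 ≤ 1 - w) hX]

private theorem d11_ind {p q : ℝ} {A B C D : ℝ → ℝ → ℝ} {n k : ℝ → ℝ}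
    (h : Sys p q A B C D n k) (m : ℕ) : ∀ z r : ℝ, 0 < z → 0 ≤ r →
      -((4 * z) ^ m / (m.factorial : ℝ)) ≤ A z r ∧ -((4 * z) ^ m / (m.factorial : ℝ)) ≤ B z r ∧
      -((4 * z) ^ m / (m.factorial : ℝ)) ≤ C z r ∧ -((4 * z) ^ m / (m.factorial : ℝ)) ≤ D z r := by
  induction m with
  | zero =>
    intro z r hz _
    simp only [pow_zero, Nat.factorial_zero, Nat.cast_one, div_one]
    exact ⟨(abs_le.1 (h.bA z r hz)).1, (abs_le.1 (h.bB z r hz)).1, (abs_le.1 (h.bC z r hz)).1,
      (abs_le.1 (h.bD z r hz)).1⟩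
  | succ m ih =>
    intro z r hz hr
    have hp := h.p0
    have hq := h.q0
    have hX : ∀ t : ℝ, t < z → 0 ≤ (4 * (z - t)) ^ m / (m.factorial : ℝ) := fun t ht =>
      div_nonneg (pow_nonneg (by linarith) _) (Nat.cast_nonneg _)
    have hneg : -((4 * z) ^ (m + 1) / ((m + 1).factorial : ℝ)) ≤ 0 := by
      have h2 : 0 ≤ (4 * z) ^ (m + 1) / ((m + 1).factorial : ℝ) :=
        div_nonneg (pow_nonneg (by linarith) _) (Nat.cast_nonneg _)
      linarith
    have hv0 : 0 ≤ min r z := le_min hr hz.le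
    have hvz : min r z ≤ z := min_le_right _ _
    have htz : ∀ t : ℝ, t < min r z → t < z := fun t ht => lt_of_lt_of_le ht hvz
    have hE := Real.exp_pos (-(2 * z))
    refine ⟨?_, ?_, ?_, ?_⟩
    · rw [h.eA z r hz hr]
      have h1 := d11_step (f := fun t => 4 * (n t * B (z - t) t)) (m := m) hz hv0 hvz (by
        intro t ht ht'
        have h2 := (ih (z - t) t (sub_pos.2 (htz t ht')) ht.le).2.1
        have h3 := d11_mul (h.n0 t ht.le) (h.n1 t ht.le) h2 (hX t (htz t ht'))
        linarith)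
      have h2 : 0 ≤ p * Real.exp (-(2 * z)) := by positivity
      linarith
    · by_cases hzr : z < r
      · rw [h.zB z r hz hzr]
        exact hneg
      · rw [h.eB z r hz hr, if_neg hzr]
        have h1 := d11_step (f := fun t => n t * (A (z - t) t + C (z - t) t + D (z - t) t) +
          k t * B (z - t) t) (m := m) hz hv0 hvz (by
          intro t ht ht'
          obtain ⟨a1, a2, a3, a4⟩ := ih (z - t) t (sub_pos.2 (htz t ht')) ht.le
          have b1 := d11_mul (h.n0 t ht.le) (h.n1 t ht.le) a1 (hX t (htz t ht'))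
          have b2 := d11_mul (h.k0 t ht.le) (h.k1 t ht.le) a2 (hX t (htz t ht'))
          have b3 := d11_mul (h.n0 t ht.le) (h.n1 t ht.le) a3 (hX t (htz t ht'))
          have b4 := d11_mul (h.n0 t ht.le) (h.n1 t ht.le) a4 (hX t (htz t ht'))
          have e1 : n t * (A (z - t) t + C (z - t) t + D (z - t) t) =
            n t * A (z - t) t + n t * C (z - t) t + n t * D (z - t) t := by ring
          rw [e1]
          linarith)
        have h2 : 0 ≤ Real.sqrt (p * q) * Real.exp (-(2 * z)) := by positivity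
        linarith
    · rw [h.eC z r hz hr]
      have h1 := d11_step (f := fun t => 2 * (n t * B (z - t) t) + 2 * (k t * D (z - t) t))
        (m := m) hz hv0 hvz (by
        intro t ht ht'
        obtain ⟨a1, a2, a3, a4⟩ := ih (z - t) t (sub_pos.2 (htz t ht')) ht.le
        have b2 := d11_mul (h.n0 t ht.le) (h.n1 t ht.le) a2 (hX t (htz t ht'))
        have b4 := d11_mul (h.k0 t ht.le) (h.k1 t ht.le) a4 (hX t (htz t ht'))
        linarith)
      have h2 : 0 ≤ q * Real.exp (-(2 * z)) := by positivity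
      linarith
    · by_cases hzr : z < r
      · rw [h.zD z r hz hzr]
        exact hneg
      · rw [h.eD z r hz hr, if_neg hzr]
        have h1 := d11_step (f := fun t => 2 * (n t * B (z - t) t) + 2 * (k t * C (z - t) t))
          (m := m) hz hv0 hvz (by
          intro t ht ht'
          obtain ⟨a1, a2, a3, a4⟩ := ih (z - t) t (sub_pos.2 (htz t ht')) ht.le
          have b2 := d11_mul (h.n0 t ht.le) (h.n1 t ht.le) a2 (hX t (htz t ht'))
          have b3 := d11_mul (h.k0 t ht.le) (h.k1 t ht.le) a3 (hX t (htz t ht'))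
          linarith)
        have h2 : 0 ≤ q * Real.exp (-(2 * z)) := by positivity
        linarith

private theorem d11_lim {x z : ℝ} (h : ∀ m : ℕ, -((4 * z) ^ m / (m.factorial : ℝ)) ≤ x) :
    0 ≤ x := by
  have h1 := (FloorSemiring.tendsto_pow_div_factorial_atTop (4 * z)).neg
  rw [neg_zero] at h1
  exact le_of_tendsto' h1 h

theorem sys_nonneg {p q : ℝ} {A B C D : ℝ → ℝ → ℝ} {n k : ℝ → ℝ} (h : Sys p q A B C D n k) {z r : ℝ}
    (hz : 0 < z) (hr : 0 ≤ r) : 0 ≤ A z r ∧ 0 ≤ B z r ∧ 0 ≤ C z r ∧ 0 ≤ D z r := by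
  exact ⟨d11_lim fun m => (d11_ind h m z r hz hr).1, d11_lim fun m => (d11_ind h m z r hz hr).2.1,
    d11_lim fun m => (d11_ind h m z r hz hr).2.2.1, d11_lim fun m => (d11_ind h m z r hz hr).2.2.2⟩

end Pool.SM3
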