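/-
SM3.D2 : convolution and Laplace transform.
PROOF. Fubini: `∫_0^∞ e^{-sz} ∫_0^z f t g (z-t) dt dz = ∫_0^∞ e^{-st} f t dt ∫_0^∞ e^{-su} g u du`; with `|f|, |g| ≤ K` the double
integral is absolutely convergent (`K² z e^{-sz}` is integrable).
-/
import Pool.Agent.Lib.SM3.D1

set_option autoImplicit false

open MeasureTheory Set

namespace Pool.SM3

theorem Lp_conv {f g : ℝ → ℝ} (hf : Measurable f) (hg : Measurable g) {K s : ℝ} (hs : 0 < s)
    (hf' : ∀ z, 0 < z → |f z| ≤ K) (hg' : ∀ z, 0 < z → |g z| ≤ K) :
    Lp (conv f g) s = Lp f s * Lp g s := by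
  have hF := (integrable_indicator_iff measurableSet_Ioi).2 (Lp_integrable hf hs hf')
  have hG := (integrable_indicator_iff measurableSet_Ioi).2 (Lp_integrable hg hs hg')
  have key := integral_convolution (ContinuousLinearMap.mul ℝ ℝ) (μ := volume) (ν := volume) hF hG
  rw [integral_indicator measurableSet_Ioi, integral_indicator measurableSet_Ioi] at key
  have e1 : ∀ z : ℝ, convolution ((Ioi (0:ℝ)).indicator (fun z => Real.exp (-(s * z)) * f z))
        ((Ioi (0:ℝ)).indicator (fun z => Real.exp (-(s * z)) * g z))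
        (ContinuousLinearMap.mul ℝ ℝ) volume z
      = (Ioi (0:ℝ)).indicator (fun z => Real.exp (-(s * z)) * conv f g z) z := by
    intro z
    rw [convolution_def]
    by_cases hz : 0 < z
    · rw [indicator_of_mem (show z ∈ Ioi (0:ℝ) from hz), conv,
        intervalIntegral.integral_of_le hz.le, integral_Ioc_eq_integral_Ioo,
        ← integral_const_mul, ← integral_indicator measurableSet_Ioo]
      refine integral_congr_ae (Filter.Eventually.of_forall fun t => ?_)
      show (Ioi (0:ℝ)).indicator (fun z => Real.exp (-(s * z)) * f z) t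
          * (Ioi (0:ℝ)).indicator (fun z => Real.exp (-(s * z)) * g z) (z - t) = _
      by_cases ht : t ∈ Ioo (0:ℝ) z
      · rw [indicator_of_mem ht, indicator_of_mem (show t ∈ Ioi (0:ℝ) from ht.1),
          indicator_of_mem (show z - t ∈ Ioi (0:ℝ) from sub_pos.2 ht.2)]
        have h1 : Real.exp (-(s * z)) = Real.exp (-(s * t)) * Real.exp (-(s * (z - t))) := by
          rw [← Real.exp_add]
          congr 1
          ring
        rw [h1]
        ring
      · rw [indicator_of_notMem ht]
        by_cases h0 : 0 < t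
        · have h2 : z - t ∉ Ioi (0:ℝ) := fun h => ht ⟨h0, sub_pos.1 h⟩
          rw [indicator_of_notMem h2, mul_zero]
        · rw [indicator_of_notMem (show t ∉ Ioi (0:ℝ) from h0), zero_mul]
    · rw [indicator_of_notMem (show z ∉ Ioi (0:ℝ) from hz)]
      refine integral_eq_zero_of_ae (Filter.Eventually.of_forall fun t => ?_)
      show (Ioi (0:ℝ)).indicator (fun z => Real.exp (-(s * z)) * f z) t
          * (Ioi (0:ℝ)).indicator (fun z => Real.exp (-(s * z)) * g z) (z - t) = 0
      by_cases h0 : 0 < t
      · have h2 : z - t ∉ Ioi (0:ℝ) := fun h => by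
          have : 0 < z - t := h
          exact hz (by linarith)
        rw [indicator_of_notMem h2, mul_zero]
      · rw [indicator_of_notMem (show t ∉ Ioi (0:ℝ) from h0), zero_mul]
  rw [integral_congr_ae (Filter.Eventually.of_forall e1),
    integral_indicator measurableSet_Ioi] at key
  exact key

theorem measurable_conv_param {ψ X : ℝ → ℝ → ℝ} (hψ : Measurable (fun x : ℝ × ℝ => ψ x.1 x.2))
    (hX : Measurable (fun x : ℝ × ℝ => X x.1 x.2)) :
    Measurable (fun x : ℝ × ℝ => conv (fun u => ψ u x.2) (fun u => X u x.2) x.1) := by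
  have hint : Measurable (fun y : (ℝ × ℝ) × ℝ => ψ y.2 y.1.2 * X (y.1.1 - y.2) y.1.2) := by
    refine Measurable.mul ?_ ?_
    · exact hψ.comp (measurable_snd.prodMk (measurable_snd.comp measurable_fst))
    · exact hX.comp (((measurable_fst.comp measurable_fst).sub measurable_snd).prodMk
        (measurable_snd.comp measurable_fst))
  have hs1 : MeasurableSet {y : (ℝ × ℝ) × ℝ | y.2 ∈ Ioc (0:ℝ) y.1.1} := by
    refine MeasurableSet.inter ?_ ?_
    · exact measurableSet_lt measurable_const measurable_snd
    · exact measurableSet_le measurable_snd (measurable_fst.comp measurable_fst)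
  have hs2 : MeasurableSet {y : (ℝ × ℝ) × ℝ | y.2 ∈ Ioc y.1.1 (0:ℝ)} := by
    refine MeasurableSet.inter ?_ ?_
    · exact measurableSet_lt (measurable_fst.comp measurable_fst) measurable_snd
    · exact measurableSet_le measurable_snd measurable_const
  have h1 := (StronglyMeasurable.integral_prod_right' (ν := (volume : Measure ℝ))
    ((hint.indicator hs1).stronglyMeasurable)).measurable
  have h2 := (StronglyMeasurable.integral_prod_right' (ν := (volume : Measure ℝ))
    ((hint.indicator hs2).stronglyMeasurable)).measurable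
  have h3 := h1.sub h2
  convert h3 using 1
  funext x
  show ∫ t in (0:ℝ)..x.1, ψ t x.2 * X (x.1 - t) x.2 = _
  rw [intervalIntegral]
  show _ = (∫ y, ({y : (ℝ × ℝ) × ℝ | y.2 ∈ Ioc (0:ℝ) y.1.1}).indicator
      (fun y : (ℝ × ℝ) × ℝ => ψ y.2 y.1.2 * X (y.1.1 - y.2) y.1.2) (x, y))
    - (∫ y, ({y : (ℝ × ℝ) × ℝ | y.2 ∈ Ioc y.1.1 (0:ℝ)}).indicator
      (fun y : (ℝ × ℝ) × ℝ => ψ y.2 y.1.2 * X (y.1.1 - y.2) y.1.2) (x, y))
  congr 1
  · rw [← integral_indicator measurableSet_Ioc]
    rfl
  · rw [← integral_indicator measurableSet_Ioc]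
    rfl

theorem conv_comm (f g : ℝ → ℝ) (z : ℝ) : conv f g z = conv g f z := by
  unfold conv
  have h := intervalIntegral.integral_comp_sub_left (a := 0) (b := z)
    (fun t => g t * f (z - t)) z
  rw [sub_self, sub_zero] at h
  rw [← h]
  refine intervalIntegral.integral_congr fun t _ => ?_
  show f t * g (z - t) = g (z - t) * f (z - (z - t))
  rw [sub_sub_cancel, mul_comm]

end Pool.SM3
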