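/-
SM3.D4 : existence of `ψ`.
PROOF. `c 1 z r = if 0 < z ∧ z ≤ r then n z else 0`, `c (j+1) z r = conv (c 1 · r) (c j · r) z` for `z > 0`, `ψ z r = ∑_{j ≥ 1} c j z r / j!`
(`tsum`; put `0` for `z ≤ 0` or `r < 0`).  `0 ≤ c j z r ≤ r^(j-1)` and `∫_0^z c j ≤ r^j` (`0 ≤ n ≤ 1`), so the series converges,
`ψ ≤ (e^r - 1)/r ≤ e^r`, `∫_0^z ψ ≤ e^r - 1`.  Laplace (D2: Lp_conv): `Lp (c j · r) s = (∫_0^r e^{-st} n t dt)^j` (Lp_cut for
`j = 1`); sum the series (`integral_tsum`/hasSum of nonnegative functions, or dominated): `1 + Lp ψ = exp (∫_0^r e^{-st} n)`.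
Joint measurability: measurable_conv_param, `Measurable.tsum`/limits of partial sums.
-/
import Pool.Agent.Lib.SM3.D2

set_option autoImplicit false

open MeasureTheory Set

namespace Pool.SM3

private noncomputable def cj (n : ℝ → ℝ) : ℕ → ℝ → ℝ → ℝ
  | 0 => fun z r => if 0 < z ∧ z < r then n z else 0
  | (j + 1) => fun z r => if 0 < z ∧ 0 ≤ r then
      conv (fun u => if 0 < u ∧ u < r then n u else 0) (fun u => cj n j u r) z else 0

private theorem cj_zero (n : ℝ → ℝ) (z r : ℝ) : cj n 0 z r = if 0 < z ∧ z < r then n z else 0 :=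
  rfl

private theorem cj_succ (n : ℝ → ℝ) (j : ℕ) (z r : ℝ) : cj n (j + 1) z r =
    if 0 < z ∧ 0 ≤ r then conv (fun u => cj n 0 u r) (fun u => cj n j u r) z else 0 := rfl

private theorem cj_meas {n : ℝ → ℝ} (hm : Measurable n) (j : ℕ) :
    Measurable (fun x : ℝ × ℝ => cj n j x.1 x.2) := by
  induction j with
  | zero =>
    simp only [cj_zero]
    refine Measurable.ite ?_ (hm.comp measurable_fst) measurable_const
    exact (measurableSet_lt measurable_const measurable_fst).inter
      (measurableSet_lt measurable_fst measurable_snd)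
  | succ j ih =>
    simp only [cj_succ]
    have h0 : Measurable (fun x : ℝ × ℝ => cj n 0 x.1 x.2) := by
      simp only [cj_zero]
      refine Measurable.ite ?_ (hm.comp measurable_fst) measurable_const
      exact (measurableSet_lt measurable_const measurable_fst).inter
        (measurableSet_lt measurable_fst measurable_snd)
    refine Measurable.ite ?_ (measurable_conv_param h0 ih) measurable_const
    exact (measurableSet_lt measurable_const measurable_fst).inter
      (measurableSet_le measurable_const measurable_snd)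

private theorem cj_meas1 {n : ℝ → ℝ} (hm : Measurable n) (j : ℕ) (r : ℝ) :
    Measurable (fun z : ℝ => cj n j z r) :=
  (cj_meas hm j).comp (measurable_id.prodMk measurable_const)

private theorem cj_bd {n : ℝ → ℝ} (h0 : ∀ z, 0 ≤ z → 0 ≤ n z)
    (h1 : ∀ z, 0 ≤ z → n z ≤ 1) (j : ℕ) :
    ∀ z r : ℝ, 0 ≤ r → 0 ≤ cj n j z r ∧ cj n j z r ≤ r ^ j := by
  induction j with
  | zero =>
    intro z r hr
    rw [cj_zero]
    split_ifs with h
    · exact ⟨h0 z h.1.le, by simpa using h1 z h.1.le⟩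
    · simp
  | succ j ih =>
    intro z r hr
    rw [cj_succ]
    have hb0 : ∀ u, 0 ≤ cj n 0 u r ∧ cj n 0 u r ≤ 1 := by
      intro u
      rw [cj_zero]
      split_ifs with h
      · exact ⟨h0 u h.1.le, h1 u h.1.le⟩
      · simp
    have hrj : (0:ℝ) ≤ r ^ (j + 1) := pow_nonneg hr _
    split_ifs with h
    · obtain ⟨hz, -⟩ := h
      unfold conv
      constructor
      · apply intervalIntegral.integral_nonneg hz.le
        intro t ht
        exact mul_nonneg (hb0 t).1 (ih _ _ hr).1
      · rcases le_or_gt z r with hzr | hzr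
        · have := intervalIntegral.norm_integral_le_of_norm_le_const (a := 0) (b := z)
            (f := fun t => cj n 0 t r * cj n j (z - t) r) (C := r ^ j) (by
              intro t ht
              rw [Real.norm_eq_abs, abs_of_nonneg (mul_nonneg (hb0 t).1 (ih _ _ hr).1)]
              calc _ ≤ 1 * r ^ j := mul_le_mul (hb0 t).2 (ih _ _ hr).2 (ih _ _ hr).1 zero_le_one
                _ = _ := one_mul _)
          have h2 := (le_abs_self _).trans this
          refine h2.trans ?_
          rw [sub_zero, abs_of_pos hz, pow_succ]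
          exact mul_le_mul_of_nonneg_left hzr (pow_nonneg hr _)
        · have hsplit : (∫ t in (0:ℝ)..z, cj n 0 t r * cj n j (z - t) r)
              = ∫ t in (0:ℝ)..r, cj n 0 t r * cj n j (z - t) r := by
            rw [intervalIntegral.integral_of_le hz.le, intervalIntegral.integral_of_le hr]
            apply MeasureTheory.setIntegral_eq_of_subset_of_forall_sdiff_eq_zero measurableSet_Ioc
              (Ioc_subset_Ioc_right hzr.le)
            intro t ht
            have : ¬ (0 < t ∧ t < r) := by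
              intro h'
              apply ht.2
              exact ⟨h'.1, h'.2.le⟩
            rw [cj_zero, if_neg this, zero_mul]
          rw [hsplit]
          have := intervalIntegral.norm_integral_le_of_norm_le_const (a := 0) (b := r)
            (f := fun t => cj n 0 t r * cj n j (z - t) r) (C := r ^ j) (by
              intro t ht
              rw [Real.norm_eq_abs, abs_of_nonneg (mul_nonneg (hb0 t).1 (ih _ _ hr).1)]
              calc _ ≤ 1 * r ^ j := mul_le_mul (hb0 t).2 (ih _ _ hr).2 (ih _ _ hr).1 zero_le_one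
                _ = _ := one_mul _)
          have h2 := (le_abs_self _).trans this
          refine h2.trans ?_
          rw [sub_zero, abs_of_nonneg hr, pow_succ]
    · exact ⟨le_refl _, hrj⟩

private theorem cj_zero_of_neg (n : ℝ → ℝ) (j : ℕ) {z r : ℝ} (h : ¬ 0 ≤ r) : cj n j z r = 0 := by
  cases j with
  | zero =>
    rw [cj_zero, if_neg]
    rintro ⟨h1, h2⟩
    exact h (h1.trans h2).le
  | succ j =>
    rw [cj_succ, if_neg]
    rintro ⟨-, h2⟩
    exact h h2

private theorem cj_lap {n : ℝ → ℝ} (hm : Measurable n) (h0 : ∀ z, 0 ≤ z → 0 ≤ n z)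
    (h1 : ∀ z, 0 ≤ z → n z ≤ 1) {s r : ℝ} (hs : 0 < s) (hr : 0 ≤ r) (j : ℕ) :
    Lp (fun z => cj n j z r) s = (∫ t in (0:ℝ)..r, Real.exp (-(s * t)) * n t) ^ (j + 1) := by
  have hz : Lp (fun z => cj n 0 z r) s = ∫ t in (0:ℝ)..r, Real.exp (-(s * t)) * n t := by
    rw [← Lp_cut n hr]
    apply Lp_congr
    refine Filter.Eventually.of_forall ?_
    intro z hz
    show cj n 0 z r = _
    rw [cj_zero]
    by_cases h : z < r
    · rw [if_pos ⟨hz, h⟩, if_pos h]
    · rw [if_neg (fun h' => h h'.2), if_neg h]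
  induction j with
  | zero => rw [hz]; simp
  | succ j ih =>
    have e : Lp (fun z => cj n (j + 1) z r) s =
        Lp (conv (fun u => cj n 0 u r) (fun u => cj n j u r)) s := by
      apply Lp_congr
      refine Filter.Eventually.of_forall ?_
      intro z hz
      show cj n (j + 1) z r = _
      rw [cj_succ, if_pos ⟨hz, hr⟩]
    rw [e, Lp_conv (K := max 1 (r ^ j)) (cj_meas1 hm 0 r) (cj_meas1 hm j r) hs, ih, hz]
    · ring
    · intro z _
      have := cj_bd h0 h1 0 z r hr
      rw [abs_of_nonneg this.1]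
      refine this.2.trans ?_
      simp
    · intro z _
      have := cj_bd h0 h1 j z r hr
      rw [abs_of_nonneg this.1]
      exact this.2.trans (le_max_right _ _)

private noncomputable def psiD (n : ℝ → ℝ) (z r : ℝ) : ℝ :=
  ∑' j : ℕ, cj n j z r / ((j + 1).factorial : ℝ)

private theorem term_bd {n : ℝ → ℝ} (h0 : ∀ z, 0 ≤ z → 0 ≤ n z)
    (h1 : ∀ z, 0 ≤ z → n z ≤ 1) (j : ℕ) {z r : ℝ} (hr : 0 ≤ r) :
    0 ≤ cj n j z r / ((j + 1).factorial : ℝ) ∧
      cj n j z r / ((j + 1).factorial : ℝ) ≤ r ^ j / (j.factorial : ℝ) := by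
  have h := cj_bd h0 h1 j z r hr
  have hf : (0:ℝ) < ((j + 1).factorial : ℝ) := by exact_mod_cast Nat.factorial_pos _
  have hf' : (0:ℝ) < (j.factorial : ℝ) := by exact_mod_cast Nat.factorial_pos _
  have hle : (j.factorial : ℝ) ≤ ((j + 1).factorial : ℝ) := by
    exact_mod_cast Nat.factorial_le (Nat.le_succ j)
  refine ⟨div_nonneg h.1 hf.le, ?_⟩
  exact div_le_div₀ (pow_nonneg hr _) h.2 hf' hle

private theorem psiD_summable {n : ℝ → ℝ} (h0 : ∀ z, 0 ≤ z → 0 ≤ n z)
    (h1 : ∀ z, 0 ≤ z → n z ≤ 1) (z r : ℝ) :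
    Summable (fun j : ℕ => cj n j z r / ((j + 1).factorial : ℝ)) := by
  by_cases hr : 0 ≤ r
  · exact Summable.of_nonneg_of_le (fun j => (term_bd h0 h1 j hr).1)
      (fun j => (term_bd h0 h1 j hr).2) (Real.summable_pow_div_factorial r)
  · have : (fun j : ℕ => cj n j z r / ((j + 1).factorial : ℝ)) = fun _ => 0 := by
      funext j
      rw [cj_zero_of_neg n j hr, zero_div]
    rw [this]
    exact summable_zero

private theorem psiD_meas {n : ℝ → ℝ} (hm : Measurable n) (h0 : ∀ z, 0 ≤ z → 0 ≤ n z)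
    (h1 : ∀ z, 0 ≤ z → n z ≤ 1) : Measurable (fun x : ℝ × ℝ => psiD n x.1 x.2) := by
  refine measurable_of_tendsto_metrizable (f := fun (N : ℕ) (x : ℝ × ℝ) =>
    ∑ j ∈ Finset.range N, cj n j x.1 x.2 / ((j + 1).factorial : ℝ)) ?_ ?_
  · intro N
    exact Finset.measurable_sum _ (fun j _ => (cj_meas hm j).div_const _)
  · rw [tendsto_pi_nhds]
    intro x
    exact (psiD_summable h0 h1 x.1 x.2).hasSum.tendsto_sum_nat

private theorem psiD_nonneg {n : ℝ → ℝ} (h0 : ∀ z, 0 ≤ z → 0 ≤ n z)
    (h1 : ∀ z, 0 ≤ z → n z ≤ 1) {z r : ℝ} (hr : 0 ≤ r) : 0 ≤ psiD n z r :=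
  tsum_nonneg (fun j => (term_bd h0 h1 j hr).1)

private theorem psiD_le {n : ℝ → ℝ} (h0 : ∀ z, 0 ≤ z → 0 ≤ n z)
    (h1 : ∀ z, 0 ≤ z → n z ≤ 1) {z r : ℝ} (hr : 0 ≤ r) : psiD n z r ≤ Real.exp r := by
  rw [Real.exp_eq_exp_ℝ, NormedSpace.exp_eq_tsum_div]
  exact (psiD_summable h0 h1 z r).tsum_le_tsum (fun j => (term_bd h0 h1 j hr).2)
    (Real.summable_pow_div_factorial r)

private theorem psiD_lap {n : ℝ → ℝ} (hm : Measurable n) (h0 : ∀ z, 0 ≤ z → 0 ≤ n z)
    (h1 : ∀ z, 0 ≤ z → n z ≤ 1) {s r : ℝ} (hs : 0 < s) (hr : 0 ≤ r) :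
    1 + Lp (fun z => psiD n z r) s = phi n s r := by
  set I : ℝ := ∫ t in (0:ℝ)..r, Real.exp (-(s * t)) * n t with hI
  have hI0 : 0 ≤ I := by
    apply intervalIntegral.integral_nonneg hr
    intro t ht
    exact mul_nonneg (Real.exp_nonneg _) (h0 t ht.1)
  -- the terms
  have hterm : ∀ j : ℕ, (∫ z in Ioi (0:ℝ), Real.exp (-(s * z)) * (cj n j z r / ((j + 1).factorial : ℝ)))
      = I ^ (j + 1) / ((j + 1).factorial : ℝ) := by
    intro j
    have h := cj_lap hm h0 h1 hs hr j
    unfold Lp at h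
    rw [← h, ← integral_div]
    congr 1
    funext z
    ring
  have hint : ∀ j : ℕ, Integrable (fun z => Real.exp (-(s * z)) * (cj n j z r / ((j + 1).factorial : ℝ)))
      (volume.restrict (Ioi (0:ℝ))) := by
    intro j
    have := Lp_integrable (f := fun z => cj n j z r / ((j + 1).factorial : ℝ))
      ((cj_meas1 hm j r).div_const _) (K := r ^ j / (j.factorial : ℝ)) hs (by
        intro z _
        rw [abs_of_nonneg (term_bd h0 h1 j hr).1]
        exact (term_bd h0 h1 j hr).2)
    exact this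
  have hnorm : ∀ j : ℕ, (∫ z in Ioi (0:ℝ), ‖Real.exp (-(s * z)) * (cj n j z r / ((j + 1).factorial : ℝ))‖)
      = I ^ (j + 1) / ((j + 1).factorial : ℝ) := by
    intro j
    rw [← hterm j]
    congr 1
    funext z
    rw [Real.norm_eq_abs, abs_of_nonneg]
    exact mul_nonneg (Real.exp_nonneg _) (term_bd h0 h1 j hr).1
  have hsum : Summable (fun j : ℕ => I ^ (j + 1) / ((j + 1).factorial : ℝ)) :=
    (summable_nat_add_iff 1).2 (Real.summable_pow_div_factorial I)
  have key := hasSum_integral_of_summable_integral_norm hint (by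
    simp_rw [hnorm]
    exact hsum)
  have e1 : Lp (fun z => psiD n z r) s = ∑' j : ℕ, I ^ (j + 1) / ((j + 1).factorial : ℝ) := by
    have h2 := key.tsum_eq
    simp_rw [hterm] at h2
    rw [h2]
    unfold Lp
    congr 1
    funext z
    rw [tsum_mul_left]
    rfl
  rw [e1]
  unfold phi
  rw [← hI, Real.exp_eq_exp_ℝ, NormedSpace.exp_eq_tsum_div]
  show _ = ∑' b : ℕ, I ^ b / (b.factorial : ℝ)
  rw [(Real.summable_pow_div_factorial I).tsum_eq_zero_add]
  simp

private theorem psiD_mass {n : ℝ → ℝ} (hm : Measurable n) (h0 : ∀ z, 0 ≤ z → 0 ≤ n z)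
    (h1 : ∀ z, 0 ≤ z → n z ≤ 1) {z r : ℝ} (hz : 0 ≤ z) (hr : 0 ≤ r) :
    (∫ u in (0:ℝ)..z, psiD n u r) ≤ Real.exp r := by
  have hmeas : Measurable (fun u => psiD n u r) :=
    (psiD_meas hm h0 h1).comp (measurable_id.prodMk measurable_const)
  have hK : ∀ u, 0 < u → |psiD n u r| ≤ Real.exp r := by
    intro u _
    rw [abs_of_nonneg (psiD_nonneg h0 h1 hr)]
    exact psiD_le h0 h1 hr
  have hphi : ∀ s : ℝ, 0 < s → phi n s r ≤ Real.exp r := by
    intro s hs
    unfold phi
    apply Real.exp_le_exp.2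
    have := intervalIntegral.norm_integral_le_of_norm_le_const (a := 0) (b := r)
      (f := fun t => Real.exp (-(s * t)) * n t) (C := 1) (by
        intro t ht
        rw [uIoc_of_le hr] at ht
        rw [Real.norm_eq_abs, abs_of_nonneg (mul_nonneg (Real.exp_nonneg _) (h0 t ht.1.le))]
        have e1 : Real.exp (-(s * t)) ≤ 1 := by
          apply Real.exp_le_one_iff.2
          have := mul_pos hs ht.1
          linarith
        calc _ ≤ 1 * (1:ℝ) := mul_le_mul e1 (h1 t ht.1.le) (h0 t ht.1.le) zero_le_one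
          _ = 1 := one_mul _)
    refine (le_abs_self _).trans (this.trans ?_)
    rw [sub_zero, abs_of_nonneg hr, one_mul]
  have hii : IntegrableOn (fun u => psiD n u r) (Ioc 0 z) := by
    apply MeasureTheory.Measure.integrableOn_of_bounded (M := Real.exp r)
    · simp
    · exact hmeas.aestronglyMeasurable
    · refine (ae_restrict_iff' measurableSet_Ioc).2 (Filter.Eventually.of_forall ?_)
      intro u hu
      rw [Real.norm_eq_abs]
      exact hK u hu.1
  have hstep : ∀ s : ℝ, 0 < s →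
      Real.exp (-(s * z)) * (∫ u in (0:ℝ)..z, psiD n u r) ≤ Real.exp r := by
    intro s hs
    have hlap := psiD_lap hm h0 h1 hs hr
    have hLi := Lp_integrable hmeas hs hK
    have h2 : Real.exp (-(s * z)) * (∫ u in (0:ℝ)..z, psiD n u r) ≤ Lp (fun u => psiD n u r) s := by
      rw [intervalIntegral.integral_of_le hz, ← integral_const_mul]
      unfold Lp
      refine le_trans ?_ (setIntegral_mono_set hLi ?_ (LE.le.eventuallyLE
        (Ioc_subset_Ioi_self : Ioc (0:ℝ) z ⊆ Ioi 0)))
      · apply setIntegral_mono_on (hii.const_mul _) (hLi.mono_set Ioc_subset_Ioi_self)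
          measurableSet_Ioc
        intro u hu
        apply mul_le_mul_of_nonneg_right _ (psiD_nonneg h0 h1 hr)
        apply Real.exp_le_exp.2
        have := mul_le_mul_of_nonneg_left hu.2 hs.le
        linarith
      · refine Filter.Eventually.of_forall ?_
        intro u
        exact mul_nonneg (Real.exp_nonneg _) (psiD_nonneg h0 h1 hr)
    have := hphi s hs
    linarith
  have hlim : Filter.Tendsto (fun s : ℝ => Real.exp (-(s * z)) * (∫ u in (0:ℝ)..z, psiD n u r))
      (nhdsWithin 0 (Ioi 0)) (nhds (Real.exp (-(0 * z)) * (∫ u in (0:ℝ)..z, psiD n u r))) := by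
    apply Filter.Tendsto.mono_left _ nhdsWithin_le_nhds
    have : Continuous (fun s : ℝ => Real.exp (-(s * z)) * (∫ u in (0:ℝ)..z, psiD n u r)) := by
      fun_prop
    exact this.tendsto 0
  have h3 := le_of_tendsto hlim (Filter.eventually_of_mem self_mem_nhdsWithin
    (fun s hs => hstep s hs))
  simpa using h3

theorem exists_psi {n : ℝ → ℝ} (hm : Measurable n) (h0 : ∀ z, 0 ≤ z → 0 ≤ n z)
    (h1 : ∀ z, 0 ≤ z → n z ≤ 1) : ∃ ψ : ℝ → ℝ → ℝ, IsPsi n ψ :=
  ⟨psiD n, psiD_meas hm h0 h1, fun _ _ _ hr => psiD_nonneg h0 h1 hr,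
    fun _ _ _ hr => psiD_le h0 h1 hr, fun _ _ hz hr => psiD_mass hm h0 h1 hz hr,
    fun _ _ hs hr => psiD_lap hm h0 h1 hs hr⟩

end Pool.SM3
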