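/-
SM3.D3 : injectivity of the Laplace transform (bounded functions on the half line).
PROOF. Let `h = f - g`, `|h| ≤ 2K`, `∫_0^∞ e^{-sz} h(z) dz = 0` for all `s > 0`; take `s = 1, 2, 3, ..`.  Split `h = h⁺ - h⁻` and consider the
finite measures `μ± = e^{-z} h±(z) dz` on `(0,∞)`, pushed forward by `z ↦ e^{-z}` to `(0,1)`: all moments `∫ y^n dμ±'` (n ≥ 0) agree, so
(polynomials are dense in `C[0,1]`: `ContinuousMap`/Weierstrass) the integrals of all continuous functions agree, the measures are
equal (`ext_of_forall_integral_eq_of_IsFiniteMeasure`), hence `μ+ = μ-` (injective measurable map), `h⁺ = h⁻` a.e.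
Alternatives: Mathlib's `Measure.ext_of_complexMGF_eq` / `ext_of_charFun` + analyticity, or
`MeasureTheory.ae_eq_zero_of_forall...`.  Any proof is fine.
-/
import Pool.Agent.Lib.SM3.D1

set_option autoImplicit false

open MeasureTheory Set

namespace Pool.SM3

private theorem d3_poly {h : ℝ → ℝ} (hm : Measurable h) {K : ℝ} (hK : ∀ z, 0 < z → |h z| ≤ K)
    (h0 : ∀ s : ℝ, 0 < s → Lp h s = 0) (P : Polynomial ℝ) :
    IntegrableOn (fun z => P.eval (Real.exp (-z)) * (Real.exp (-z) * h z)) (Ioi 0) ∧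
      ∫ z in Ioi (0:ℝ), P.eval (Real.exp (-z)) * (Real.exp (-z) * h z) = 0 := by
  induction P using Polynomial.induction_on' with
  | add p q hp hq =>
    have e : (fun z => (p + q).eval (Real.exp (-z)) * (Real.exp (-z) * h z)) = fun z =>
        p.eval (Real.exp (-z)) * (Real.exp (-z) * h z) +
          q.eval (Real.exp (-z)) * (Real.exp (-z) * h z) := by
      funext z
      rw [Polynomial.eval_add, add_mul]
    rw [e]
    refine ⟨hp.1.add hq.1, ?_⟩
    rw [integral_add hp.1 hq.1, hp.2, hq.2, add_zero]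
  | monomial n a =>
    have e : (fun z => (Polynomial.monomial n a).eval (Real.exp (-z)) *
        (Real.exp (-z) * h z)) = fun z => a * (Real.exp (-(((n : ℝ) + 1) * z)) * h z) := by
      funext z
      have h1 : Real.exp (-(((n : ℝ) + 1) * z)) = Real.exp (-z) ^ n * Real.exp (-z) := by
        rw [← Real.exp_nat_mul, ← Real.exp_add]
        congr 1
        ring
      rw [Polynomial.eval_monomial, h1]
      ring
    have hn : (0 : ℝ) < (n : ℝ) + 1 := by positivity
    rw [e]
    refine ⟨(Lp_integrable hm hn hK).const_mul a, ?_⟩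
    rw [integral_const_mul]
    have h2 := h0 _ hn
    unfold Lp at h2
    rw [h2, mul_zero]

private theorem d3_cont {φ : ℝ → ℝ} (hc : Continuous φ) (hs : HasCompactSupport φ)
    (ht : tsupport φ ⊆ Ioi 0) : ContinuousOn (fun y => φ (-Real.log y)) (Icc 0 1) := by
  intro y hy
  rcases eq_or_lt_of_le hy.1 with h0 | h0
  · subst h0
    obtain ⟨R, hR⟩ := hs.isCompact.isBounded.subset_closedBall (0 : ℝ)
    have hz : ∀ x : ℝ, x ∈ Icc (0:ℝ) 1 → x < Real.exp (-R) → φ (-Real.log x) = 0 := by
      intro x hx hx1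
      by_contra hne
      have h1 : -Real.log x ∈ tsupport φ := subset_tsupport φ hne
      have h2 : -Real.log x ≤ R := by
        have := hR h1
        rw [mem_closedBall_zero_iff, Real.norm_eq_abs] at this
        exact (le_abs_self _).trans this
      have h3 : 0 < -Real.log x := ht h1
      rcases eq_or_lt_of_le hx.1 with hx0 | hx0
      · rw [← hx0, Real.log_zero, neg_zero] at h3
        exact lt_irrefl _ h3
      · have h4 : Real.log x < -R := by
          rw [← Real.log_exp (-R)]
          exact Real.log_lt_log hx0 hx1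
        linarith
    have hev : (fun x => φ (-Real.log x)) =ᶠ[nhdsWithin 0 (Icc (0:ℝ) 1)] fun _ => (0 : ℝ) := by
      have h1 : Iio (Real.exp (-R)) ∈ nhds (0:ℝ) := Iio_mem_nhds (Real.exp_pos _)
      filter_upwards [mem_nhdsWithin_of_mem_nhds h1, self_mem_nhdsWithin] with x hx1 hx2
      exact hz x hx2 hx1
    refine (continuousWithinAt_const (b := (0:ℝ))).congr_of_eventuallyEq hev ?_
    exact hz 0 ⟨le_rfl, zero_le_one⟩ (Real.exp_pos _)
  · refine ContinuousAt.continuousWithinAt ?_
    exact hc.continuousAt.comp (Real.continuousAt_log h0.ne').neg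

private theorem d3_zero {h : ℝ → ℝ} (hm : Measurable h) {K : ℝ} (hK : ∀ z, 0 < z → |h z| ≤ K)
    (h0 : ∀ s : ℝ, 0 < s → Lp h s = 0) {φ : ℝ → ℝ} (hc : Continuous φ)
    (hs : HasCompactSupport φ) (ht : tsupport φ ⊆ Ioi 0) :
    ∫ z, φ z • (Real.exp (-z) * h z) = 0 := by
  have hK0 : 0 ≤ K := (abs_nonneg _).trans (hK 1 one_pos)
  have hint : IntegrableOn (fun z => Real.exp (-z) * h z) (Ioi 0) := by
    have h1 := Lp_integrable hm one_pos hK
    simpa only [one_mul] using h1
  have hset : ∫ z, φ z • (Real.exp (-z) * h z) =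
      ∫ z in Ioi (0:ℝ), φ z * (Real.exp (-z) * h z) := by
    symm
    refine setIntegral_eq_integral_of_forall_compl_eq_zero fun z hz => ?_
    have h1 : φ z = 0 := by
      by_contra hne
      exact hz (ht (subset_tsupport φ hne))
    rw [h1, zero_mul]
  rw [hset]
  obtain ⟨B, hB⟩ := hc.bounded_above_of_compact_support hs
  have hφi : IntegrableOn (fun z => φ z * (Real.exp (-z) * h z)) (Ioi 0) := by
    refine Integrable.bdd_mul (c := B) hint hc.aestronglyMeasurable ?_
    exact Filter.Eventually.of_forall hB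
  have hexp : IntegrableOn (fun z : ℝ => Real.exp (-z)) (Ioi 0) := by
    have h1 := Lp_integrable (f := fun _ => (1 : ℝ)) (K := 1) measurable_const one_pos
      (fun z _ => by simp)
    simpa only [one_mul, mul_one] using h1
  have hmain : ∀ ε : ℝ, 0 < ε →
      |∫ z in Ioi (0:ℝ), φ z * (Real.exp (-z) * h z)| ≤ ε * K := by
    intro ε hε
    obtain ⟨P, hP⟩ := exists_polynomial_near_of_continuousOn 0 1 _ (d3_cont hc hs ht) ε hε
    obtain ⟨hPi, hP0⟩ := d3_poly hm hK h0 P
    have e1 : ∫ z in Ioi (0:ℝ), φ z * (Real.exp (-z) * h z) =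
        ∫ z in Ioi (0:ℝ), (φ z * (Real.exp (-z) * h z) -
          P.eval (Real.exp (-z)) * (Real.exp (-z) * h z)) := by
      rw [integral_sub hφi hPi, hP0, sub_zero]
    rw [e1, ← Real.norm_eq_abs]
    have e2 : ∫ z in Ioi (0:ℝ), Real.exp (-z) * (ε * K) = ε * K := by
      rw [integral_mul_const, integral_exp_neg_Ioi_zero, one_mul]
    rw [← e2]
    refine norm_integral_le_of_norm_le (hexp.mul_const _) ?_
    filter_upwards [ae_restrict_mem measurableSet_Ioi] with z hz
    have hz0 : 0 < z := hz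
    have h1 := hP (Real.exp (-z)) ⟨(Real.exp_pos _).le, Real.exp_le_one_iff.2 (by linarith)⟩
    simp only [Real.log_exp, neg_neg] at h1
    have e3 : φ z * (Real.exp (-z) * h z) - P.eval (Real.exp (-z)) * (Real.exp (-z) * h z) =
        Real.exp (-z) * ((φ z - P.eval (Real.exp (-z))) * h z) := by ring
    rw [e3, norm_mul, Real.norm_eq_abs, Real.abs_exp, norm_mul, Real.norm_eq_abs,
      Real.norm_eq_abs, abs_sub_comm]
    exact mul_le_mul_of_nonneg_left (mul_le_mul h1.le (hK z hz0) (abs_nonneg _) hε.le)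
      (Real.exp_pos _).le
  by_contra hne
  have hpos : 0 < |∫ z in Ioi (0:ℝ), φ z * (Real.exp (-z) * h z)| := abs_pos.2 hne
  have h1 := hmain (|∫ z in Ioi (0:ℝ), φ z * (Real.exp (-z) * h z)| / (2 * (K + 1)))
    (by positivity)
  have h2 : |∫ z in Ioi (0:ℝ), φ z * (Real.exp (-z) * h z)| / (2 * (K + 1)) * K ≤
      |∫ z in Ioi (0:ℝ), φ z * (Real.exp (-z) * h z)| / 2 := by
    rw [div_mul_eq_mul_div, div_le_div_iff₀ (by positivity) (by norm_num)]
    nlinarith
  linarith

theorem Lp_inj {f g : ℝ → ℝ} (hf : Measurable f) (hg : Measurable g) {K : ℝ}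
    (hf' : ∀ z, 0 < z → |f z| ≤ K) (hg' : ∀ z, 0 < z → |g z| ≤ K)
    (h : ∀ s : ℝ, 0 < s → Lp f s = Lp g s) : ∀ᵐ z, 0 < z → f z = g z := by
  have hK' : ∀ z, 0 < z → |f z - g z| ≤ 2 * K := by
    intro z hz
    have h1 := abs_sub (f z) (g z)
    have h2 := hf' z hz
    have h3 := hg' z hz
    linarith
  have h0 : ∀ s : ℝ, 0 < s → Lp (fun z => f z - g z) s = 0 := by
    intro s hs
    rw [Lp_sub hf hg hs hf' hg', h s hs, sub_self]
  have hm : Measurable fun z => f z - g z := hf.sub hg
  have hint : IntegrableOn (fun z => Real.exp (-z) * (f z - g z)) (Ioi 0) := by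
    have h1 := Lp_integrable hm one_pos hK'
    simpa only [one_mul] using h1
  have h1 := IsOpen.ae_eq_zero_of_integral_contDiff_smul_eq_zero (μ := volume) isOpen_Ioi
    hint.locallyIntegrableOn
    (fun φ hφ hs ht => d3_zero hm hK' h0 hφ.continuous hs ht)
  filter_upwards [h1] with z hz hz0
  have h2 := hz hz0
  have h3 := (mul_eq_zero.1 h2).resolve_left (Real.exp_pos _).ne'
  linarith

end Pool.SM3
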