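/-
SM3.D5 : the Laplace transforms of the scalar system satisfy `OdeL`.
PROOF. Take the Laplace transform of eA, .., eD (Lp_exp, Lp_shift with `G z t = 4 * (n t * B z t)` etc., Lp_cut, Lp_add, Lp_sub):
e.g. `Lp (B · r) s = sqrt(pq)/(s+2) + ∫_0^r e^{-st} (n t (a t + c t + d t) + k t b t) dt - ∫_0^r e^{-st} n t dt`.  Boundedness: `|A|,.. ≤ 1`,
`0 ≤ n, k ≤ 1` on `[0,∞)`.  Continuity of `a(r) = Lp (A · r) s`: it equals a constant plus `∫_0^r` of a bounded measurable function
(measurable_Lp_param, Lp_abs_le), for `r ≥ 0`.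
-/
import Pool.Agent.Lib.SM3.D1

set_option autoImplicit false

open MeasureTheory Set

namespace Pool.SM3

/-- sections of jointly measurable functions -/
private lemma D5_sec {Y : ℝ → ℝ → ℝ} (hY : Measurable (fun x : ℝ × ℝ => Y x.1 x.2)) (r : ℝ) :
    Measurable (fun z => Y z r) :=
  hY.comp (measurable_id.prodMk measurable_const)

private lemma D5_int {G : ℝ → ℝ → ℝ} {K : ℝ} (hK0 : 0 ≤ K)
    (hK : ∀ z t : ℝ, 0 < z → 0 ≤ t → |G z t| ≤ K) {z r : ℝ} (hz : 0 < z) (hr : 0 ≤ r) :
    |∫ t in (0:ℝ)..(min r z), G (z - t) t| ≤ K * r := by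
  have hm : 0 ≤ min r z := le_min hr hz.le
  have h1 : ‖∫ t in (0:ℝ)..(min r z), G (z - t) t‖ ≤ K * |min r z - 0| := by
    apply intervalIntegral.norm_integral_le_of_norm_le_const_ae
    have : ∀ᵐ t : ℝ, t ≠ z := by
      simp [ae_iff, measure_singleton]
    filter_upwards [this] with t ht hmem
    rw [uIoc_of_le hm] at hmem
    have : t < z := lt_of_le_of_ne (hmem.2.trans (min_le_right _ _)) ht
    exact hK _ _ (sub_pos.2 this) hmem.1.le
  rw [Real.norm_eq_abs] at h1
  refine h1.trans ?_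
  rw [sub_zero, abs_of_nonneg hm]
  exact mul_le_mul_of_nonneg_left (min_le_left _ _) hK0

private lemma D5_gen {Y G : ℝ → ℝ → ℝ} {k : ℝ → ℝ} {c K s : ℝ} (hs : 0 < s)
    (hG : Measurable (fun x : ℝ × ℝ => G x.1 x.2)) (hK0 : 0 ≤ K)
    (hK : ∀ z t : ℝ, 0 < z → 0 ≤ t → |G z t| ≤ K) (hk : Measurable k)
    (hk1 : ∀ z, 0 ≤ z → |k z| ≤ 1)
    (e : ∀ z r : ℝ, 0 < z → 0 ≤ r → Y z r = c * Real.exp (-(2 * z))
      + (∫ t in (0:ℝ)..(min r z), G (z - t) t) - (if z < r then k z else 0))
    {r : ℝ} (hr : 0 ≤ r) :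
    Lp (fun z => Y z r) s
      = c / (s + 2) + ∫ t in (0:ℝ)..r, Real.exp (-(s * t)) * (Lp (fun z => G z t) s - k t) := by
  have hce : Measurable (fun z : ℝ => c * Real.exp (-(2 * z))) := by fun_prop
  have hsh : Measurable (fun z : ℝ => ∫ t in (0:ℝ)..(min r z), G (z - t) t) :=
    (measurable_shift hG).comp (measurable_id.prodMk measurable_const)
  have hcut : Measurable (fun z : ℝ => if z < r then k z else 0) :=
    Measurable.ite measurableSet_Iio hk measurable_const
  have hb1 : ∀ z : ℝ, 0 < z → |c * Real.exp (-(2 * z))| ≤ |c| := by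
    intro z hz
    rw [abs_mul, abs_of_pos (Real.exp_pos _)]
    have : Real.exp (-(2 * z)) ≤ 1 := Real.exp_le_one_iff.2 (by linarith)
    nlinarith [abs_nonneg c]
  have hb2 : ∀ z : ℝ, 0 < z → |∫ t in (0:ℝ)..(min r z), G (z - t) t| ≤ K * r :=
    fun z hz => D5_int hK0 hK hz hr
  have hb3 : ∀ z : ℝ, 0 < z → |(if z < r then k z else 0)| ≤ 1 := by
    intro z hz
    split_ifs
    · exact hk1 z hz.le
    · simp
  set M : ℝ := |c| + K * r + 1 with hM
  have hKr : 0 ≤ K * r := mul_nonneg hK0 hr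
  have hc0 : 0 ≤ |c| := abs_nonneg c
  have hEq : Lp (fun z => Y z r) s = Lp (fun z => (c * Real.exp (-(2 * z))
      + (∫ t in (0:ℝ)..(min r z), G (z - t) t)) - (if z < r then k z else 0)) s := by
    apply Lp_congr
    filter_upwards with z hz
    exact e z r hz hr
  rw [hEq]
  have hsum : Measurable (fun z : ℝ => c * Real.exp (-(2 * z))
      + (∫ t in (0:ℝ)..(min r z), G (z - t) t)) := hce.add hsh
  rw [Lp_sub (K := M) hsum hcut hs
    (fun z hz => (abs_add_le _ _).trans (by have := hb1 z hz; have := hb2 z hz; simp only [hM]; linarith))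
    (fun z hz => (hb3 z hz).trans (by simp only [hM]; linarith))]
  rw [Lp_add (K := M) hce hsh hs
    (fun z hz => (hb1 z hz).trans (by simp only [hM]; linarith))
    (fun z hz => (hb2 z hz).trans (by simp only [hM]; linarith))]
  rw [Lp_exp c hs, Lp_cut _ hr, Lp_shift hG (K := K) hs hr (fun z t hz ht _ => hK z t hz ht)]
  rw [add_sub_assoc, ← intervalIntegral.integral_sub]
  · congr 1
    apply intervalIntegral.integral_congr
    intro t _
    simp only []
    ring
  · -- integrability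
    have hmeas : Measurable (fun t => Real.exp (-(s * t)) * Lp (fun z => G z t) s) :=
      (by fun_prop : Measurable (fun t : ℝ => Real.exp (-(s * t)))).mul (measurable_Lp_param hG s)
    rw [intervalIntegrable_iff_integrableOn_Ioc_of_le hr]
    refine Measure.integrableOn_of_bounded (M := K / s) (by simp) hmeas.aestronglyMeasurable ?_
    refine (ae_restrict_iff' measurableSet_Ioc).2 (Filter.Eventually.of_forall fun t ht => ?_)
    rw [norm_mul, Real.norm_eq_abs, Real.norm_eq_abs, abs_of_pos (Real.exp_pos _)]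
    have h1 : Real.exp (-(s * t)) ≤ 1 := Real.exp_le_one_iff.2 (by have := mul_pos hs ht.1; linarith)
    have h2 : |Lp (fun z => G z t) s| ≤ K / s := Lp_abs_le hs (fun z hz => hK z t hz ht.1.le)
    calc _ ≤ 1 * (K / s) := mul_le_mul h1 h2 (abs_nonneg _) zero_le_one
      _ = K / s := one_mul _
  · have hmeas : Measurable (fun t => Real.exp (-(s * t)) * k t) :=
      (by fun_prop : Measurable (fun t : ℝ => Real.exp (-(s * t)))).mul hk
    rw [intervalIntegrable_iff_integrableOn_Ioc_of_le hr]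
    refine Measure.integrableOn_of_bounded (M := 1) (by simp) hmeas.aestronglyMeasurable ?_
    refine (ae_restrict_iff' measurableSet_Ioc).2 (Filter.Eventually.of_forall fun t ht => ?_)
    rw [norm_mul, Real.norm_eq_abs, Real.norm_eq_abs, abs_of_pos (Real.exp_pos _)]
    have h1 : Real.exp (-(s * t)) ≤ 1 := Real.exp_le_one_iff.2 (by have := mul_pos hs ht.1; linarith)
    calc _ ≤ 1 * (1:ℝ) := mul_le_mul h1 (hk1 t ht.1.le) (abs_nonneg _) zero_le_one
      _ = 1 := one_mul _

/-- continuity of a primitive on the half line -/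
private lemma D5_cont {a F : ℝ → ℝ} {c M : ℝ} (hF : Measurable F)
    (hM : ∀ t, 0 ≤ t → |F t| ≤ M)
    (e : ∀ r : ℝ, 0 ≤ r → a r = c + ∫ t in (0:ℝ)..r, F t) : ContinuousOn a (Ici 0) := by
  have hM0 : 0 ≤ M := (abs_nonneg _).trans (hM 0 le_rfl)
  set F' : ℝ → ℝ := (Ici (0:ℝ)).indicator F with hF'
  have hF'm : Measurable F' := hF.indicator measurableSet_Ici
  have hF'b : ∀ t, |F' t| ≤ M := by
    intro t
    by_cases ht : 0 ≤ t
    · rw [hF', indicator_of_mem (mem_Ici.2 ht)]; exact hM t ht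
    · rw [hF', indicator_of_notMem (by simpa using ht)]; simpa using hM0
  have hc : Continuous (fun r => c + ∫ t in (0:ℝ)..r, F' t) := by
    refine continuous_const.add (intervalIntegral.continuous_primitive ?_ 0)
    intro u v
    rw [intervalIntegrable_iff]
    refine Measure.integrableOn_of_bounded (M := M) ?_ hF'm.aestronglyMeasurable
      (Filter.Eventually.of_forall hF'b)
    rw [uIoc]; simp
  refine hc.continuousOn.congr ?_
  intro r hr
  rw [e r hr]
  congr 1
  apply intervalIntegral.integral_congr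
  intro t ht
  rw [uIcc_of_le hr] at ht
  simp only [hF']
  rw [indicator_of_mem (mem_Ici.2 ht.1)]

theorem sys_ode {p q : ℝ} {A B C D : ℝ → ℝ → ℝ} {n k : ℝ → ℝ} (h : Sys p q A B C D n k) {s : ℝ}
    (hs : 0 < s) :
    OdeL p q s n k (fun r => Lp (fun z => A z r) s) (fun r => Lp (fun z => B z r) s)
      (fun r => Lp (fun z => C z r) s) (fun r => Lp (fun z => D z r) s) := by
  have hn2 : Measurable (fun x : ℝ × ℝ => n x.2) := h.nm.comp measurable_snd
  have hk2 : Measurable (fun x : ℝ × ℝ => k x.2) := h.km.comp measurable_snd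
  have hnb : ∀ t, 0 ≤ t → |n t| ≤ 1 := fun t ht => by
    rw [abs_of_nonneg (h.n0 t ht)]; exact h.n1 t ht
  have hkb : ∀ t, 0 ≤ t → |k t| ≤ 1 := fun t ht => by
    rw [abs_of_nonneg (h.k0 t ht)]; exact h.k1 t ht
  have hmul : ∀ x y : ℝ, |x| ≤ 1 → |y| ≤ 1 → |x * y| ≤ 1 := by
    intro x y hx hy
    rw [abs_mul]
    calc _ ≤ 1 * (1:ℝ) := mul_le_mul hx hy (abs_nonneg _) zero_le_one
      _ = 1 := one_mul _
  have h0m : Measurable (fun _ : ℝ => (0:ℝ)) := measurable_const
  have h0b : ∀ z : ℝ, 0 ≤ z → |(0:ℝ)| ≤ 1 := fun z _ => by simp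
  have sA := fun r => D5_sec h.mA r
  have sB := fun r => D5_sec h.mB r
  have sC := fun r => D5_sec h.mC r
  have sD := fun r => D5_sec h.mD r
  -- the kernels
  have GA : Measurable (fun x : ℝ × ℝ => (fun z t : ℝ => 4 * (n t * B z t)) x.1 x.2) :=
    (hn2.mul h.mB).const_mul 4
  have GB : Measurable (fun x : ℝ × ℝ => (fun z t : ℝ =>
      n t * (A z t + C z t + D z t) + k t * B z t) x.1 x.2) :=
    (hn2.mul ((h.mA.add h.mC).add h.mD)).add (hk2.mul h.mB)
  have GC : Measurable (fun x : ℝ × ℝ => (fun z t : ℝ =>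
      2 * (n t * B z t) + 2 * (k t * D z t)) x.1 x.2) :=
    ((hn2.mul h.mB).const_mul 2).add ((hk2.mul h.mD).const_mul 2)
  have GD : Measurable (fun x : ℝ × ℝ => (fun z t : ℝ =>
      2 * (n t * B z t) + 2 * (k t * C z t)) x.1 x.2) :=
    ((hn2.mul h.mB).const_mul 2).add ((hk2.mul h.mC).const_mul 2)
  have bGA : ∀ z t : ℝ, 0 < z → 0 ≤ t → |(fun z t : ℝ => 4 * (n t * B z t)) z t| ≤ 4 := by
    intro z t hz ht
    have := hmul _ _ (hnb t ht) (h.bB z t hz)
    simp only [abs_mul, abs_of_pos (show (0:ℝ) < 4 by norm_num)] at this ⊢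
    linarith
  have bGB : ∀ z t : ℝ, 0 < z → 0 ≤ t → |(fun z t : ℝ =>
      n t * (A z t + C z t + D z t) + k t * B z t) z t| ≤ 4 := by
    intro z t hz ht
    have h1 := hmul _ _ (hnb t ht) (h.bA z t hz)
    have h2 := hmul _ _ (hnb t ht) (h.bC z t hz)
    have h3 := hmul _ _ (hnb t ht) (h.bD z t hz)
    have h4 := hmul _ _ (hkb t ht) (h.bB z t hz)
    simp only []
    rw [abs_le] at *
    constructor <;> nlinarith [h1.1, h1.2, h2.1, h2.2, h3.1, h3.2, h4.1, h4.2]
  have bGC : ∀ z t : ℝ, 0 < z → 0 ≤ t → |(fun z t : ℝ =>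
      2 * (n t * B z t) + 2 * (k t * D z t)) z t| ≤ 4 := by
    intro z t hz ht
    have h1 := hmul _ _ (hnb t ht) (h.bB z t hz)
    have h2 := hmul _ _ (hkb t ht) (h.bD z t hz)
    simp only []
    rw [abs_le] at *
    constructor <;> linarith [h1.1, h1.2, h2.1, h2.2]
  have bGD : ∀ z t : ℝ, 0 < z → 0 ≤ t → |(fun z t : ℝ =>
      2 * (n t * B z t) + 2 * (k t * C z t)) z t| ≤ 4 := by
    intro z t hz ht
    have h1 := hmul _ _ (hnb t ht) (h.bB z t hz)
    have h2 := hmul _ _ (hkb t ht) (h.bC z t hz)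
    simp only []
    rw [abs_le] at *
    constructor <;> linarith [h1.1, h1.2, h2.1, h2.2]
  -- linearity
  have cB : ∀ (x t : ℝ), Lp (fun z => x * B z t) s = x * Lp (fun z => B z t) s :=
    fun x t => Lp_const_mul _ _ _
  have LA : ∀ t, 0 ≤ t → Lp (fun z => 4 * (n t * B z t)) s = 4 * (n t * Lp (fun z => B z t) s) := by
    intro t _
    rw [Lp_const_mul, Lp_const_mul]
  have LB : ∀ t, 0 ≤ t → Lp (fun z => n t * (A z t + C z t + D z t) + k t * B z t) s
      = n t * (Lp (fun z => A z t) s + Lp (fun z => C z t) s + Lp (fun z => D z t) s)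
        + k t * Lp (fun z => B z t) s := by
    intro t ht
    have e1 : ∀ z : ℝ, 0 < z → |A z t + C z t| ≤ 4 := by
      intro z hz
      have h1 := h.bA z t hz
      have h2 := h.bC z t hz
      rw [abs_le] at *
      constructor <;> linarith [h1.1, h1.2, h2.1, h2.2]
    have e2 : ∀ z : ℝ, 0 < z → |n t * (A z t + C z t + D z t)| ≤ 4 := by
      intro z hz
      have h1 := hmul _ _ (hnb t ht) (h.bA z t hz)
      have h2 := hmul _ _ (hnb t ht) (h.bC z t hz)
      have h3 := hmul _ _ (hnb t ht) (h.bD z t hz)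
      rw [abs_le] at *
      constructor <;> nlinarith [h1.1, h1.2, h2.1, h2.2, h3.1, h3.2]
    have m1 : Measurable (fun z => n t * (A z t + C z t + D z t)) :=
      (((sA t).add (sC t)).add (sD t)).const_mul _
    have m2 : Measurable (fun z => A z t + C z t) := (sA t).add (sC t)
    rw [Lp_add (K := 4) m1 ((sB t).const_mul _) hs e2
      (fun z hz => (hmul _ _ (hkb t ht) (h.bB z t hz)).trans (by norm_num)), Lp_const_mul,
      Lp_const_mul, Lp_add (K := 4) m2 (sD t) hs e1
      (fun z hz => (h.bD z t hz).trans (by norm_num)),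
      Lp_add (K := 1) (sA t) (sC t) hs (fun z hz => h.bA z t hz) (fun z hz => h.bC z t hz)]
  have LC : ∀ t, 0 ≤ t → Lp (fun z => 2 * (n t * B z t) + 2 * (k t * D z t)) s
      = 2 * (n t * Lp (fun z => B z t) s) + 2 * (k t * Lp (fun z => D z t) s) := by
    intro t ht
    rw [Lp_add (K := 4) (((sB t).const_mul _).const_mul _) (((sD t).const_mul _).const_mul _) hs
      (fun z hz => by
        have := hmul _ _ (hnb t ht) (h.bB z t hz)
        rw [abs_mul, abs_of_pos (show (0:ℝ) < 2 by norm_num)]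
        linarith)
      (fun z hz => by
        have := hmul _ _ (hkb t ht) (h.bD z t hz)
        rw [abs_mul, abs_of_pos (show (0:ℝ) < 2 by norm_num)]
        linarith), Lp_const_mul, Lp_const_mul, Lp_const_mul, Lp_const_mul]
  have LD : ∀ t, 0 ≤ t → Lp (fun z => 2 * (n t * B z t) + 2 * (k t * C z t)) s
      = 2 * (n t * Lp (fun z => B z t) s) + 2 * (k t * Lp (fun z => C z t) s) := by
    intro t ht
    rw [Lp_add (K := 4) (((sB t).const_mul _).const_mul _) (((sC t).const_mul _).const_mul _) hs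
      (fun z hz => by
        have := hmul _ _ (hnb t ht) (h.bB z t hz)
        rw [abs_mul, abs_of_pos (show (0:ℝ) < 2 by norm_num)]
        linarith)
      (fun z hz => by
        have := hmul _ _ (hkb t ht) (h.bC z t hz)
        rw [abs_mul, abs_of_pos (show (0:ℝ) < 2 by norm_num)]
        linarith), Lp_const_mul, Lp_const_mul, Lp_const_mul, Lp_const_mul]
  -- transforms
  have TA : ∀ r : ℝ, 0 ≤ r → Lp (fun z => A z r) s = p / (s + 2)
      + ∫ t in (0:ℝ)..r, Real.exp (-(s * t)) * (Lp (fun z => 4 * (n t * B z t)) s - 0) :=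
    fun r hr => D5_gen (Y := A) (G := fun z t => 4 * (n t * B z t)) (k := fun _ => 0) (K := 4)
      hs GA (by norm_num) bGA h0m h0b (fun z r hz hr => by
        rw [h.eA z r hz hr]; simp) hr
  have TB : ∀ r : ℝ, 0 ≤ r → Lp (fun z => B z r) s = Real.sqrt (p * q) / (s + 2)
      + ∫ t in (0:ℝ)..r, Real.exp (-(s * t)) *
        (Lp (fun z => n t * (A z t + C z t + D z t) + k t * B z t) s - n t) :=
    fun r hr => D5_gen (Y := B) (G := fun z t => n t * (A z t + C z t + D z t) + k t * B z t)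
      (k := n) (K := 4) hs GB (by norm_num) bGB h.nm hnb (fun z r hz hr => h.eB z r hz hr) hr
  have TC : ∀ r : ℝ, 0 ≤ r → Lp (fun z => C z r) s = q / (s + 2)
      + ∫ t in (0:ℝ)..r, Real.exp (-(s * t)) *
        (Lp (fun z => 2 * (n t * B z t) + 2 * (k t * D z t)) s - 0) :=
    fun r hr => D5_gen (Y := C) (G := fun z t => 2 * (n t * B z t) + 2 * (k t * D z t))
      (k := fun _ => 0) (K := 4) hs GC (by norm_num) bGC h0m h0b (fun z r hz hr => by
        rw [h.eC z r hz hr]; simp) hr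
  have TD : ∀ r : ℝ, 0 ≤ r → Lp (fun z => D z r) s = q / (s + 2)
      + ∫ t in (0:ℝ)..r, Real.exp (-(s * t)) *
        (Lp (fun z => 2 * (n t * B z t) + 2 * (k t * C z t)) s - k t) :=
    fun r hr => D5_gen (Y := D) (G := fun z t => 2 * (n t * B z t) + 2 * (k t * C z t))
      (k := k) (K := 4) hs GD (by norm_num) bGD h.km hkb (fun z r hz hr => h.eD z r hz hr) hr
  -- continuity
  have hexp : Measurable (fun t : ℝ => Real.exp (-(s * t))) := by fun_prop
  have cont : ∀ {Y G : ℝ → ℝ → ℝ} {κ : ℝ → ℝ} {c : ℝ},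
      Measurable (fun x : ℝ × ℝ => G x.1 x.2) → (∀ z t : ℝ, 0 < z → 0 ≤ t → |G z t| ≤ 4) →
      Measurable κ → (∀ z, 0 ≤ z → |κ z| ≤ 1) →
      (∀ r : ℝ, 0 ≤ r → Lp (fun z => Y z r) s = c
        + ∫ t in (0:ℝ)..r, Real.exp (-(s * t)) * (Lp (fun z => G z t) s - κ t)) →
      ContinuousOn (fun r => Lp (fun z => Y z r) s) (Ici 0) := by
    intro Y G κ c hG hGb hκ hκb e
    have m1 : Measurable (fun t => Real.exp (-(s * t)) * (Lp (fun z => G z t) s - κ t)) :=
      hexp.mul ((measurable_Lp_param hG s).sub hκ)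
    refine D5_cont (M := 4 / s + 1) m1 ?_ e
    intro t ht
    rw [abs_mul, abs_of_pos (Real.exp_pos _)]
    have h1 : Real.exp (-(s * t)) ≤ 1 :=
      Real.exp_le_one_iff.2 (by have := mul_nonneg hs.le ht; linarith)
    have h2 : |Lp (fun z => G z t) s| ≤ 4 / s := Lp_abs_le hs (fun z hz => hGb z t hz ht)
    have h3 : |Lp (fun z => G z t) s - κ t| ≤ 4 / s + 1 :=
      (abs_sub _ _).trans (add_le_add h2 (hκb t ht))
    calc _ ≤ 1 * (4 / s + 1) := mul_le_mul h1 h3 (abs_nonneg _) zero_le_one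
      _ = 4 / s + 1 := one_mul _
  refine ⟨cont GA bGA h0m h0b TA, cont GB bGB h.nm hnb TB, cont GC bGC h0m h0b TC,
    cont GD bGD h.km hkb TD, ?_, ?_, ?_, ?_⟩
  · intro r hr
    rw [TA r hr]
    congr 1
    apply intervalIntegral.integral_congr
    intro t ht
    rw [uIcc_of_le hr] at ht
    simp only [LA t ht.1, sub_zero]
  · intro r hr
    rw [TB r hr]
    congr 1
    apply intervalIntegral.integral_congr
    intro t ht
    rw [uIcc_of_le hr] at ht
    simp only [LB t ht.1]
    ring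
  · intro r hr
    rw [TC r hr]
    congr 1
    apply intervalIntegral.integral_congr
    intro t ht
    rw [uIcc_of_le hr] at ht
    simp only [LC t ht.1, sub_zero]
  · intro r hr
    rw [TD r hr]
    congr 1
    apply intervalIntegral.integral_congr
    intro t ht
    rw [uIcc_of_le hr] at ht
    simp only [LD t ht.1]

end Pool.SM3
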