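/-
SM3.D7 : the dressed equations in Laplace space.
PROOF. `φ(r) = exp (∫_0^r e^{-st} n)` is `C¹` on `[0,∞)` with `φ' = n e^{-sr} φ`, `φ(0) = 1`; `a, b, c, d` are `C¹` (see D6).
With `E = e^{-sr}`, `e = k - n`:
`(φ (d-b))' = E φ (n (d-b) + 2nb + 2kc - k - n(a+c+d-1) - kb) = E (k φ(c-a) + e (Z - 1))`, `Z = 1 + φ (a+c-b-1)`;
`(φ (c-a))' = E φ (n (c-a) + 2kd - 2nb) = E (n φ(c-a) + 2n φ(d-b) + 2e φ d)`;
`Z' = E φ (n(a+c-b-1) + 6nb + 2kd - n(a+c+d-1) - kb) = E ((5n-k) φ b + (2k-n) φ d) = E ((4n+k) φ b + (2k-n) φ (d-b))`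
(all by ring).  Integrate (FTC: `intervalIntegral.integral_eq_sub_of_hasDeriv_right` on `[0,r]`).
-/
import Pool.Agent.Lib.SM3.DDefs

set_option autoImplicit false

open MeasureTheory Set

namespace Pool.SM3

private theorem d7_uIcc {r : ℝ} (hr : 0 ≤ r) : uIcc (0:ℝ) r ⊆ Ici 0 := by
  rw [uIcc_of_le hr]
  exact Icc_subset_Ici_self

private theorem d7_hasDeriv {G : ℝ → ℝ} (hG : ContinuousOn G (Ici 0)) {x : ℝ} (hx : 0 < x) :
    HasDerivAt (fun r => ∫ t in (0:ℝ)..r, G t) (G x) x := by
  refine intervalIntegral.integral_hasDerivAt_right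
    (hG.mono (d7_uIcc hx.le)).intervalIntegrable ?_ (hG.continuousAt (Ici_mem_nhds hx))
  exact (hG.mono Ioi_subset_Ici_self).stronglyMeasurableAtFilter isOpen_Ioi x hx

private theorem d7_deriv_of {X G : ℝ → ℝ} {x0 : ℝ} (hG : ContinuousOn G (Ici 0))
    (hX : ∀ r : ℝ, 0 ≤ r → X r = x0 + ∫ t in (0:ℝ)..r, G t) {x : ℝ} (hx : 0 < x) :
    HasDerivAt X (G x) x := by
  have h1 : HasDerivAt (fun r => x0 + ∫ t in (0:ℝ)..r, G t) (G x) x :=
    (d7_hasDeriv hG hx).const_add x0
  refine h1.congr_of_eventuallyEq ?_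
  filter_upwards [Ioi_mem_nhds hx] with y hy
  exact hX y (le_of_lt hy)

private theorem d7_expc (s : ℝ) : Continuous (fun t : ℝ => Real.exp (-(s * t))) := by
  fun_prop

private theorem d7_ftc {n X G : ℝ → ℝ} {s r : ℝ} (hr : 0 ≤ r) (nc : ContinuousOn n (Ici 0))
    (cX : ContinuousOn X (Ici 0)) (cG : ContinuousOn G (Ici 0))
    (dX : ∀ x : ℝ, 0 < x → HasDerivAt X (Real.exp (-(s * x)) * G x) x) :
    phi n s r * X r = X 0 + ∫ t in (0:ℝ)..r, Real.exp (-(s * t)) *
      (phi n s t * (n t * X t + G t)) := by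
  have cE : ContinuousOn (fun t : ℝ => Real.exp (-(s * t))) (Ici 0) := (d7_expc s).continuousOn
  have cEn : ContinuousOn (fun t : ℝ => Real.exp (-(s * t)) * n t) (Ici 0) := cE.mul nc
  have cI : ContinuousOn (fun r => ∫ t in (0:ℝ)..r, Real.exp (-(s * t)) * n t) (uIcc 0 r) := by
    apply intervalIntegral.continuousOn_primitive_interval
    exact (cEn.mono (d7_uIcc hr)).integrableOn_uIcc
  have cphi : ContinuousOn (phi n s) (uIcc 0 r) := Real.continuous_exp.comp_continuousOn cI
  have hmono := d7_uIcc hr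
  have cF : ContinuousOn (fun t => phi n s t * X t) (uIcc 0 r) := cphi.mul (cX.mono hmono)
  have cF' : ContinuousOn (fun t => Real.exp (-(s * t)) * (phi n s t * (n t * X t + G t)))
      (uIcc 0 r) :=
    (cE.mono hmono).mul (cphi.mul (((nc.mono hmono).mul (cX.mono hmono)).add (cG.mono hmono)))
  have hder : ∀ x ∈ Ioo (min 0 r) (max 0 r), HasDerivWithinAt (fun t => phi n s t * X t)
      (Real.exp (-(s * x)) * (phi n s x * (n x * X x + G x))) (Ioi x) x := by
    intro x hx
    rw [min_eq_left hr, max_eq_right hr] at hx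
    have h1 := d7_hasDeriv cEn hx.1
    have h2 : HasDerivAt (phi n s) (Real.exp (∫ t in (0:ℝ)..x, Real.exp (-(s * t)) * n t) *
        (Real.exp (-(s * x)) * n x)) x := h1.exp
    have h3 := (h2.mul (dX x hx.1)).hasDerivWithinAt (s := Ioi x)
    have h4 : Real.exp (∫ t in (0:ℝ)..x, Real.exp (-(s * t)) * n t) = phi n s x := rfl
    rw [h4] at h3
    refine HasDerivWithinAt.congr_deriv h3 ?_
    ring
  have h5 := intervalIntegral.integral_eq_sub_of_hasDeriv_right cF hder cF'.intervalIntegrable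
  have h6 : phi n s 0 = 1 := by simp [phi]
  rw [h5, h6]
  ring

theorem hat_E {p q s : ℝ} {n k a b c d : ℝ → ℝ} (hs : 0 < s) (nc : ContinuousOn n (Ici 0))
    (kc : ContinuousOn k (Ici 0)) (h : OdeL p q s n k a b c d) {r : ℝ} (hr : 0 ≤ r) :
    phi n s r * (d r - b r) = (q - Real.sqrt (p * q)) / (s + 2)
      + ∫ t in (0:ℝ)..r, Real.exp (-(s * t)) *
          (k t * (phi n s t * (c t - a t)) + (k t - n t) * (phi n s t * (a t + c t - b t - 1))) := by
  have cE : ContinuousOn (fun t : ℝ => Real.exp (-(s * t))) (Ici 0) := (d7_expc s).continuousOn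
  have cb : ContinuousOn (fun t => Real.exp (-(s * t)) *
      (n t * (a t + c t + d t - 1) + k t * b t)) (Ici 0) :=
    cE.mul ((nc.mul (((h.ca.add h.cc).add h.cd).sub continuousOn_const)).add (kc.mul h.cb))
  have cd : ContinuousOn (fun t => Real.exp (-(s * t)) *
      (2 * (n t * b t) + 2 * (k t * c t) - k t)) (Ici 0) :=
    cE.mul (((continuousOn_const.mul (nc.mul h.cb)).add
      (continuousOn_const.mul (kc.mul h.cc))).sub kc)
  have h1 := d7_ftc (n := n) (X := fun t => d t - b t)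
    (G := fun t => (2 * (n t * b t) + 2 * (k t * c t) - k t)
      - (n t * (a t + c t + d t - 1) + k t * b t)) (s := s) hr nc (h.cd.sub h.cb)
    ((((continuousOn_const.mul (nc.mul h.cb)).add
      (continuousOn_const.mul (kc.mul h.cc))).sub kc).sub
      ((nc.mul (((h.ca.add h.cc).add h.cd).sub continuousOn_const)).add (kc.mul h.cb)))
    (fun x hx => by
      have h2 := (d7_deriv_of cd h.ed hx).sub (d7_deriv_of cb h.eb hx)
      refine HasDerivAt.congr_deriv h2 ?_
      ring)
  have hb0 := h.eb 0 le_rfl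
  have hd0 := h.ed 0 le_rfl
  simp only [intervalIntegral.integral_same, add_zero] at hb0 hd0
  rw [h1]
  simp only [hb0, hd0]
  congr 1
  · ring
  · refine intervalIntegral.integral_congr fun t _ => ?_
    ring

theorem hat_F {p q s : ℝ} {n k a b c d : ℝ → ℝ} (hs : 0 < s) (nc : ContinuousOn n (Ici 0))
    (kc : ContinuousOn k (Ici 0)) (h : OdeL p q s n k a b c d) {r : ℝ} (hr : 0 ≤ r) :
    phi n s r * (c r - a r) = (q - p) / (s + 2)
      + ∫ t in (0:ℝ)..r, Real.exp (-(s * t)) *
          (n t * (phi n s t * (c t - a t)) + 2 * (n t * (phi n s t * (d t - b t)))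
            + 2 * ((k t - n t) * (phi n s t * d t))) := by
  have cE : ContinuousOn (fun t : ℝ => Real.exp (-(s * t))) (Ici 0) := (d7_expc s).continuousOn
  have ca : ContinuousOn (fun t => Real.exp (-(s * t)) * (4 * (n t * b t))) (Ici 0) :=
    cE.mul (continuousOn_const.mul (nc.mul h.cb))
  have cc : ContinuousOn (fun t => Real.exp (-(s * t)) *
      (2 * (n t * b t) + 2 * (k t * d t))) (Ici 0) :=
    cE.mul ((continuousOn_const.mul (nc.mul h.cb)).add (continuousOn_const.mul (kc.mul h.cd)))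
  have h1 := d7_ftc (n := n) (X := fun t => c t - a t)
    (G := fun t => (2 * (n t * b t) + 2 * (k t * d t)) - (4 * (n t * b t))) (s := s) hr nc
    (h.cc.sub h.ca)
    (((continuousOn_const.mul (nc.mul h.cb)).add
      (continuousOn_const.mul (kc.mul h.cd))).sub (continuousOn_const.mul (nc.mul h.cb)))
    (fun x hx => by
      have h2 := (d7_deriv_of cc h.ec hx).sub (d7_deriv_of ca h.ea hx)
      refine HasDerivAt.congr_deriv h2 ?_
      ring)
  have ha0 := h.ea 0 le_rfl
  have hc0 := h.ec 0 le_rfl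
  simp only [intervalIntegral.integral_same, add_zero] at ha0 hc0
  rw [h1]
  simp only [ha0, hc0]
  congr 1
  · ring
  · refine intervalIntegral.integral_congr fun t _ => ?_
    ring

theorem hat_Z {p q s : ℝ} {n k a b c d : ℝ → ℝ} (hs : 0 < s) (nc : ContinuousOn n (Ici 0))
    (kc : ContinuousOn k (Ici 0)) (h : OdeL p q s n k a b c d) {r : ℝ} (hr : 0 ≤ r) :
    1 + phi n s r * (a r + c r - b r - 1) = (p + q - Real.sqrt (p * q)) / (s + 2)
      + ∫ t in (0:ℝ)..r, Real.exp (-(s * t)) *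
          ((4 * n t + k t) * (phi n s t * b t) + (2 * k t - n t) * (phi n s t * (d t - b t))) := by
  have cE : ContinuousOn (fun t : ℝ => Real.exp (-(s * t))) (Ici 0) := (d7_expc s).continuousOn
  have ca : ContinuousOn (fun t => Real.exp (-(s * t)) * (4 * (n t * b t))) (Ici 0) :=
    cE.mul (continuousOn_const.mul (nc.mul h.cb))
  have cb : ContinuousOn (fun t => Real.exp (-(s * t)) *
      (n t * (a t + c t + d t - 1) + k t * b t)) (Ici 0) :=
    cE.mul ((nc.mul (((h.ca.add h.cc).add h.cd).sub continuousOn_const)).add (kc.mul h.cb))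
  have cc : ContinuousOn (fun t => Real.exp (-(s * t)) *
      (2 * (n t * b t) + 2 * (k t * d t))) (Ici 0) :=
    cE.mul ((continuousOn_const.mul (nc.mul h.cb)).add (continuousOn_const.mul (kc.mul h.cd)))
  have h1 := d7_ftc (n := n) (X := fun t => a t + c t - b t - 1)
    (G := fun t => (4 * (n t * b t)) + (2 * (n t * b t) + 2 * (k t * d t))
      - (n t * (a t + c t + d t - 1) + k t * b t)) (s := s) hr nc
    (((h.ca.add h.cc).sub h.cb).sub continuousOn_const)
    (((continuousOn_const.mul (nc.mul h.cb)).add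
      ((continuousOn_const.mul (nc.mul h.cb)).add (continuousOn_const.mul (kc.mul h.cd)))).sub
      ((nc.mul (((h.ca.add h.cc).add h.cd).sub continuousOn_const)).add (kc.mul h.cb)))
    (fun x hx => by
      have h2 := (((d7_deriv_of ca h.ea hx).add (d7_deriv_of cc h.ec hx)).sub
        (d7_deriv_of cb h.eb hx)).sub_const (1:ℝ)
      refine HasDerivAt.congr_deriv h2 ?_
      ring)
  have ha0 := h.ea 0 le_rfl
  have hb0 := h.eb 0 le_rfl
  have hc0 := h.ec 0 le_rfl
  simp only [intervalIntegral.integral_same, add_zero] at ha0 hb0 hc0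
  rw [h1]
  simp only [ha0, hb0, hc0]
  rw [← add_assoc]
  congr 1
  · ring
  · refine intervalIntegral.integral_congr fun t _ => ?_
    ring

end Pool.SM3
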