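/-
SM3.D8 : the hatted functions: measurability, bounds, Laplace transform.
PROOF. `hat ψ X z r = X z r + conv (ψ · r) (X · r) z`.  Measurable: measurable_conv_param.  Bound: `|conv| ≤ K ∫_0^z ψ ≤ K e^r`
(IsPsi.mass).  Laplace: Lp_add, Lp_conv, IsPsi.lap.  `hat_nonneg`: the integrand of conv is nonnegative.  `hat_zero`: if
`X z' r = 0` for `0 < z' < r` then for `0 < z < r` the convolution only sees `X` on `(0,z)`.
-/
import Pool.Agent.Lib.SM3.D2

set_option autoImplicit false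

open MeasureTheory Set

namespace Pool.SM3

private theorem D8_int {n : ℝ → ℝ} {ψ : ℝ → ℝ → ℝ} (hψ : IsPsi n ψ) {X : ℝ → ℝ → ℝ}
    (hX : Measurable (fun x : ℝ × ℝ => X x.1 x.2)) {K : ℝ}
    {r : ℝ} (hr : 0 ≤ r) (hK : ∀ z, 0 < z → |X z r| ≤ K) {z : ℝ} (hz : 0 < z) :
    IntervalIntegrable (fun u => ψ u r * X (z - u) r) volume 0 z := by
  have hK0 : 0 ≤ K := le_trans (abs_nonneg _) (hK z hz)
  rw [intervalIntegrable_iff_integrableOn_Ioo_of_le hz.le]
  have hm : Measurable (fun u => ψ u r * X (z - u) r) := by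
    have h1 : Measurable (fun u : ℝ => ψ u r) :=
      hψ.meas.comp (measurable_id.prodMk measurable_const)
    have h2 : Measurable (fun u : ℝ => X (z - u) r) :=
      hX.comp ((measurable_const.sub measurable_id).prodMk measurable_const)
    exact h1.mul h2
  refine Measure.integrableOn_of_bounded (M := Real.exp r * K) (by simp) hm.aestronglyMeasurable ?_
  refine (ae_restrict_iff' measurableSet_Ioo).mpr (Filter.Eventually.of_forall ?_)
  intro u hu
  have h1 := hψ.nonneg u r hu.1 hr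
  have h2 := hψ.le u r hu.1 hr
  have h3 := hK (z - u) (by linarith [hu.2])
  rw [Real.norm_eq_abs, abs_mul, abs_of_nonneg h1]
  exact mul_le_mul h2 h3 (abs_nonneg _) (Real.exp_pos r).le

private theorem D8_psi {n : ℝ → ℝ} {ψ : ℝ → ℝ → ℝ} (hψ : IsPsi n ψ) {r : ℝ} (hr : 0 ≤ r) {z : ℝ}
    (hz : 0 < z) : IntervalIntegrable (fun u => ψ u r) volume 0 z := by
  rw [intervalIntegrable_iff_integrableOn_Ioo_of_le hz.le]
  have h1 : Measurable (fun u : ℝ => ψ u r) :=
    hψ.meas.comp (measurable_id.prodMk measurable_const)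
  refine Measure.integrableOn_of_bounded (M := Real.exp r) (by simp) h1.aestronglyMeasurable ?_
  refine (ae_restrict_iff' measurableSet_Ioo).mpr (Filter.Eventually.of_forall ?_)
  intro u hu
  rw [Real.norm_eq_abs, abs_of_nonneg (hψ.nonneg u r hu.1 hr)]
  exact hψ.le u r hu.1 hr

private theorem D8_conv_abs {n : ℝ → ℝ} {ψ : ℝ → ℝ → ℝ} (hψ : IsPsi n ψ) {X : ℝ → ℝ → ℝ} {K : ℝ}
    {r : ℝ} (hr : 0 ≤ r) (hK : ∀ z, 0 < z → |X z r| ≤ K) {z : ℝ} (hz : 0 < z) :
    |conv (fun u => ψ u r) (fun u => X u r) z| ≤ K * Real.exp r := by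
  have hK0 : 0 ≤ K := le_trans (abs_nonneg _) (hK z hz)
  have hne : ∀ᵐ t : ℝ, t ≠ z := by
    rw [ae_iff]
    simp
  have h1 : ‖∫ u in (0:ℝ)..z, ψ u r * X (z - u) r‖ ≤ ∫ u in (0:ℝ)..z, K * ψ u r := by
    refine intervalIntegral.norm_integral_le_of_norm_le hz.le ?_ ((D8_psi hψ hr hz).const_mul K)
    filter_upwards [hne] with u hu hu'
    have hu2 : u < z := lt_of_le_of_ne hu'.2 hu
    have h1 := hψ.nonneg u r hu'.1 hr
    have h3 := hK (z - u) (by linarith)
    rw [Real.norm_eq_abs, abs_mul, abs_of_nonneg h1, mul_comm]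
    exact mul_le_mul_of_nonneg_right h3 h1
  rw [intervalIntegral.integral_const_mul] at h1
  refine le_trans h1 ?_
  exact mul_le_mul_of_nonneg_left (hψ.mass z r hz.le hr) hK0

theorem measurable_hat {n : ℝ → ℝ} {ψ : ℝ → ℝ → ℝ} (hψ : IsPsi n ψ) {X : ℝ → ℝ → ℝ}
    (hX : Measurable (fun x : ℝ × ℝ => X x.1 x.2)) :
    Measurable (fun x : ℝ × ℝ => hat ψ X x.1 x.2) := by
  unfold hat
  exact hX.add (measurable_conv_param hψ.meas hX)

theorem hat_abs {n : ℝ → ℝ} {ψ : ℝ → ℝ → ℝ} (hψ : IsPsi n ψ) {X : ℝ → ℝ → ℝ}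
    (hX : Measurable (fun x : ℝ × ℝ => X x.1 x.2)) {K : ℝ}
    {r : ℝ} (hr : 0 ≤ r) (hK : ∀ z, 0 < z → |X z r| ≤ K) {z : ℝ} (hz : 0 < z) :
    |hat ψ X z r| ≤ K * (1 + Real.exp r) := by
  unfold hat
  refine le_trans (abs_add_le _ _) ?_
  have h1 := hK z hz
  have h2 := D8_conv_abs hψ hr hK hz
  nlinarith

theorem Lp_hat {n : ℝ → ℝ} {ψ : ℝ → ℝ → ℝ} (hψ : IsPsi n ψ) {X : ℝ → ℝ → ℝ}
    (hX : Measurable (fun x : ℝ × ℝ => X x.1 x.2)) {K : ℝ}
    {r : ℝ} (hr : 0 ≤ r) (hK : ∀ z, 0 < z → |X z r| ≤ K) {s : ℝ} (hs : 0 < s) :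
    Lp (fun z => hat ψ X z r) s = phi n s r * Lp (fun z => X z r) s := by
  have hK0 : 0 ≤ K := le_trans (abs_nonneg _) (hK 1 one_pos)
  have he : 0 < Real.exp r := Real.exp_pos r
  have mX : Measurable (fun z => X z r) := hX.comp (measurable_id.prodMk measurable_const)
  have mψ : Measurable (fun z => ψ z r) := hψ.meas.comp (measurable_id.prodMk measurable_const)
  have mc : Measurable (fun z => conv (fun u => ψ u r) (fun u => X u r) z) :=
    (measurable_conv_param hψ.meas hX).comp (measurable_id.prodMk measurable_const)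
  have h1 : Lp (fun z => hat ψ X z r) s = Lp (fun z => X z r) s
      + Lp (conv (fun u => ψ u r) (fun u => X u r)) s := by
    unfold hat
    refine Lp_add mX mc (K := K + K * Real.exp r) hs ?_ ?_
    · intro z hz
      have := hK z hz
      nlinarith
    · intro z hz
      have := D8_conv_abs hψ hr hK hz
      nlinarith
  have h2 : Lp (conv (fun u => ψ u r) (fun u => X u r)) s
      = Lp (fun u => ψ u r) s * Lp (fun u => X u r) s := by
    refine Lp_conv mψ mX (K := K + Real.exp r) hs ?_ ?_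
    · intro z hz
      rw [abs_of_nonneg (hψ.nonneg z r hz hr)]
      have := hψ.le z r hz hr
      linarith
    · intro z hz
      have := hK z hz
      linarith
  rw [h1, h2, ← hψ.lap s r hs hr]
  ring

theorem hat_nonneg {n : ℝ → ℝ} {ψ : ℝ → ℝ → ℝ} (hψ : IsPsi n ψ) {X : ℝ → ℝ → ℝ}
    {r : ℝ} (hr : 0 ≤ r) (h0 : ∀ z, 0 < z → 0 ≤ X z r) {z : ℝ} (hz : 0 < z) :
    0 ≤ hat ψ X z r := by
  unfold hat conv
  refine add_nonneg (h0 z hz) ?_
  rw [intervalIntegral.integral_of_le hz.le, integral_Ioc_eq_integral_Ioo]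
  refine setIntegral_nonneg measurableSet_Ioo ?_
  intro u hu
  exact mul_nonneg (hψ.nonneg u r hu.1 hr) (h0 (z - u) (by linarith [hu.2]))

theorem hat_zero {n : ℝ → ℝ} {ψ : ℝ → ℝ → ℝ} (hψ : IsPsi n ψ) {X : ℝ → ℝ → ℝ}
    {r : ℝ} (h0 : ∀ z, 0 < z → z < r → X z r = 0) {z : ℝ} (hz : 0 < z) (hzr : z < r) :
    hat ψ X z r = 0 := by
  unfold hat conv
  rw [h0 z hz hzr, zero_add, intervalIntegral.integral_of_le hz.le, integral_Ioc_eq_integral_Ioo]
  refine setIntegral_eq_zero_of_forall_eq_zero ?_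
  intro u hu
  have h1 : X (z - u) r = 0 := h0 (z - u) (by linarith [hu.2]) (by linarith [hu.1])
  simp [h1]

/-- `hat` is additive -/
theorem hat_sub {n : ℝ → ℝ} {ψ : ℝ → ℝ → ℝ} (hψ : IsPsi n ψ) {X Y : ℝ → ℝ → ℝ}
    (hX : Measurable (fun x : ℝ × ℝ => X x.1 x.2)) (hY : Measurable (fun x : ℝ × ℝ => Y x.1 x.2))
    {K : ℝ} {r : ℝ} (hr : 0 ≤ r) (hK : ∀ z, 0 < z → |X z r| ≤ K) (hK' : ∀ z, 0 < z → |Y z r| ≤ K)
    {z : ℝ} (hz : 0 < z) :
    hat ψ (fun z r => X z r - Y z r) z r = hat ψ X z r - hat ψ Y z r := by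
  have h1 : conv (fun u => ψ u r) (fun u => X u r - Y u r) z
      = conv (fun u => ψ u r) (fun u => X u r) z - conv (fun u => ψ u r) (fun u => Y u r) z := by
    unfold conv
    rw [← intervalIntegral.integral_sub (D8_int hψ hX hr hK hz) (D8_int hψ hY hr hK' hz)]
    refine intervalIntegral.integral_congr ?_
    intro u _
    simp only
    ring
  unfold hat
  rw [h1]
  ring

end Pool.SM3
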