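/-
SM3.D9b : the dressed equations in real space (prove eqF here).
PROOF. Fix `r ≥ 0`.  Both sides are measurable and bounded functions of `z > 0` (hat_abs with the bound `e^t ≤ e^r` for `t ≤ r`; the integral
over `0..min r z` is bounded by `r · const`), and for every `s > 0` their Laplace transforms agree: left: Lp_hat, Lp_sub, IsPsi.lap (for
`Z`: `Lp (hat ψ (A+C-B) - ψ) = φ (a+c-b) - (φ - 1) = 1 + φ (a+c-b-1)`); right: Lp_exp, Lp_shift (with
`G z t = k t * hat ψ (C-A) z t + (k t - n t) * Z z t` etc.; its Laplace transform is a linear combination), Lp_cut; and the identities hat_E,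
hat_F, hat_Z of D7 for `sys_ode` (for hat_E: `(k-n)(Z-1)` gives the term `- ∫_0^r e^{-st} (k-n)` = the transform of
`- if z < r then k z - n z else 0`).  Conclude by Lp_inj.
Write `Eh = hat ψ (fun z r => D z r - B z r)` etc.
-/
import Pool.Agent.Lib.SM3.D3
import Pool.Agent.Lib.SM3.D5
import Pool.Agent.Lib.SM3.D7
import Pool.Agent.Lib.SM3.D8

set_option autoImplicit false

open MeasureTheory Set

namespace Pool.SM3

private theorem d9_main {G : ℝ → ℝ → ℝ} (hG : Measurable (fun x : ℝ × ℝ => G x.1 x.2)) {K r : ℝ}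
    (hr : 0 ≤ r) (hK0 : 0 ≤ K) (hK : ∀ z t : ℝ, 0 < z → 0 ≤ t → t ≤ r → |G z t| ≤ K) (c : ℝ)
    {w : ℝ → ℝ} (hw : Measurable w) (hwb : ∀ z, 0 ≤ z → |w z| ≤ 1) {f : ℝ → ℝ} (hf : Measurable f)
    {K' : ℝ} (hfb : ∀ z, 0 < z → |f z| ≤ K')
    (hL : ∀ s : ℝ, 0 < s → Lp f s = c / (s + 2) +
      ∫ t in (0:ℝ)..r, Real.exp (-(s * t)) * (Lp (fun z => G z t) s - w t)) :
    ∀ᵐ z, 0 < z → f z = c * Real.exp (-(2 * z)) + (∫ t in (0:ℝ)..(min r z), G (z - t) t)
      - (if z < r then w z else 0) := by
  have m1 : Measurable (fun z : ℝ => c * Real.exp (-(2 * z))) := by fun_prop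
  have m2 : Measurable (fun z : ℝ => ∫ t in (0:ℝ)..(min r z), G (z - t) t) := by
    have h1 := measurable_shift hG
    exact h1.comp (measurable_id.prodMk measurable_const)
  have m3 : Measurable (fun z : ℝ => if z < r then w z else 0) :=
    Measurable.ite (measurableSet_lt measurable_id measurable_const) hw measurable_const
  have b1 : ∀ z, 0 < z → |c * Real.exp (-(2 * z))| ≤ |c| + K * r + 1 := by
    intro z hz
    rw [abs_mul, abs_of_pos (Real.exp_pos _)]
    have h1 : Real.exp (-(2 * z)) ≤ 1 := Real.exp_le_one_iff.2 (by linarith)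
    have h2 := mul_le_mul_of_nonneg_left h1 (abs_nonneg c)
    have h3 : 0 ≤ K * r := mul_nonneg hK0 hr
    linarith
  have b2 : ∀ z, 0 < z → |∫ t in (0:ℝ)..(min r z), G (z - t) t| ≤ |c| + K * r + 1 := by
    intro z hz
    have hm : 0 ≤ min r z := le_min hr hz.le
    have h1 : ‖∫ t in (0:ℝ)..(min r z), G (z - t) t‖ ≤ K * |min r z - 0| := by
      apply intervalIntegral.norm_integral_le_of_norm_le_const_ae
      have h2 : ∀ᵐ t : ℝ, t ≠ z := by
        have : (volume : Measure ℝ) {z} = 0 := Real.volume_singleton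
        exact compl_mem_ae_iff.2 this
      filter_upwards [h2] with t ht ht'
      rw [uIoc_of_le hm] at ht'
      have h3 : t ≤ r := ht'.2.trans (min_le_left _ _)
      have h4 : t < z := lt_of_le_of_ne (ht'.2.trans (min_le_right _ _)) ht
      rw [Real.norm_eq_abs]
      exact hK _ _ (by linarith) ht'.1.le h3
    rw [Real.norm_eq_abs, sub_zero, abs_of_nonneg hm] at h1
    have h2 : K * min r z ≤ K * r := mul_le_mul_of_nonneg_left (min_le_left _ _) hK0
    have h3 := abs_nonneg c
    linarith
  have b3 : ∀ z, 0 < z → |if z < r then w z else 0| ≤ |c| + K * r + 1 := by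
    intro z hz
    have h3 := abs_nonneg c
    have h4 : 0 ≤ K * r := mul_nonneg hK0 hr
    split_ifs
    · have := hwb z hz.le
      linarith
    · rw [abs_zero]; linarith
  have b12 : ∀ z, 0 < z → |c * Real.exp (-(2 * z)) + ∫ t in (0:ℝ)..(min r z), G (z - t) t| ≤
      2 * (|c| + K * r + 1) := by
    intro z hz
    refine (abs_add_le _ _).trans ?_
    have := b1 z hz
    have := b2 z hz
    linarith
  have b123 : ∀ z, 0 < z → |c * Real.exp (-(2 * z)) + (∫ t in (0:ℝ)..(min r z), G (z - t) t)
      - (if z < r then w z else 0)| ≤ 3 * (|c| + K * r + 1) := by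
    intro z hz
    refine (abs_sub _ _).trans ?_
    have := b12 z hz
    have := b3 z hz
    linarith
  have hpos : 0 ≤ |c| + K * r + 1 := (abs_nonneg _).trans (b1 1 one_pos)
  refine Lp_inj (K := max K' (3 * (|c| + K * r + 1))) hf ((m1.add m2).sub m3)
    (fun z hz => (hfb z hz).trans (le_max_left _ _))
    (fun z hz => (b123 z hz).trans (le_max_right _ _)) ?_
  intro s hs
  have l1 : Lp (fun z => c * Real.exp (-(2 * z)) + (∫ t in (0:ℝ)..(min r z), G (z - t) t)
      - (if z < r then w z else 0)) s =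
      Lp (fun z => c * Real.exp (-(2 * z)) + (∫ t in (0:ℝ)..(min r z), G (z - t) t)) s -
        Lp (fun z => if z < r then w z else 0) s :=
    Lp_sub (K := 2 * (|c| + K * r + 1)) (m1.add m2) m3 hs b12 (fun z hz => by
      have := b3 z hz
      linarith)
  have l2 : Lp (fun z => c * Real.exp (-(2 * z)) + (∫ t in (0:ℝ)..(min r z), G (z - t) t)) s =
      Lp (fun z => c * Real.exp (-(2 * z))) s +
        Lp (fun z => ∫ t in (0:ℝ)..(min r z), G (z - t) t) s :=
    Lp_add m1 m2 hs b1 b2
  rw [hL s hs, l1, l2, Lp_exp c hs, Lp_cut w hr, Lp_shift hG hs hr hK]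
  have i1 : IntervalIntegrable (fun t => Real.exp (-(s * t)) * Lp (fun z => G z t) s) volume 0 r := by
    rw [intervalIntegrable_iff_integrableOn_Ioc_of_le hr]
    have hmm : Measurable (fun t => Real.exp (-(s * t)) * Lp (fun z => G z t) s) :=
      (by fun_prop : Measurable (fun t : ℝ => Real.exp (-(s * t)))).mul (measurable_Lp_param hG s)
    refine IntegrableOn.of_bound measure_Ioc_lt_top hmm.aestronglyMeasurable (K / s) ?_
    refine (ae_restrict_iff' measurableSet_Ioc).2 (Filter.Eventually.of_forall ?_)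
    intro t ht
    rw [Real.norm_eq_abs, abs_mul, abs_of_pos (Real.exp_pos _)]
    have h1 : Real.exp (-(s * t)) ≤ 1 := Real.exp_le_one_iff.2 (by
      have := mul_nonneg hs.le ht.1.le
      linarith)
    have h2 : |Lp (fun z => G z t) s| ≤ K / s := Lp_abs_le hs (fun z hz => hK z t hz ht.1.le ht.2)
    calc Real.exp (-(s * t)) * |Lp (fun z => G z t) s| ≤ 1 * (K / s) :=
          mul_le_mul h1 h2 (abs_nonneg _) zero_le_one
      _ = K / s := one_mul _
  have i2 : IntervalIntegrable (fun t => Real.exp (-(s * t)) * w t) volume 0 r := by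
    rw [intervalIntegrable_iff_integrableOn_Ioc_of_le hr]
    have hmm : Measurable (fun t => Real.exp (-(s * t)) * w t) :=
      (by fun_prop : Measurable (fun t : ℝ => Real.exp (-(s * t)))).mul hw
    refine IntegrableOn.of_bound measure_Ioc_lt_top hmm.aestronglyMeasurable 1 ?_
    refine (ae_restrict_iff' measurableSet_Ioc).2 (Filter.Eventually.of_forall ?_)
    intro t ht
    rw [Real.norm_eq_abs, abs_mul, abs_of_pos (Real.exp_pos _)]
    have h1 : Real.exp (-(s * t)) ≤ 1 := Real.exp_le_one_iff.2 (by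
      have := mul_nonneg hs.le ht.1.le
      linarith)
    calc Real.exp (-(s * t)) * |w t| ≤ 1 * 1 :=
          mul_le_mul h1 (hwb t ht.1.le) (abs_nonneg _) zero_le_one
      _ = 1 := one_mul _
  rw [add_sub_assoc, ← intervalIntegral.integral_sub i1 i2]
  congr 1
  apply intervalIntegral.integral_congr
  intro t _
  ring

private theorem d9_hatLp {n : ℝ → ℝ} {ψ : ℝ → ℝ → ℝ} (hψ : IsPsi n ψ) {X Y : ℝ → ℝ → ℝ}
    (hX : Measurable (fun x : ℝ × ℝ => X x.1 x.2)) (hY : Measurable (fun x : ℝ × ℝ => Y x.1 x.2))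
    (bX : ∀ z r : ℝ, 0 < z → |X z r| ≤ 1) (bY : ∀ z r : ℝ, 0 < z → |Y z r| ≤ 1) {t : ℝ}
    (ht : 0 ≤ t) {s : ℝ} (hs : 0 < s) :
    Lp (fun z => hat ψ (fun z r => X z r - Y z r) z t) s =
      phi n s t * (Lp (fun z => X z t) s - Lp (fun z => Y z t) s) := by
  have mX : ∀ t, Measurable (fun z => X z t) := fun t => hX.comp (measurable_id.prodMk measurable_const)
  have mY : ∀ t, Measurable (fun z => Y z t) := fun t => hY.comp (measurable_id.prodMk measurable_const)
  rw [Lp_hat (K := 2) hψ (hX.sub hY) ht (fun z hz => by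
    refine (abs_sub _ _).trans ?_
    have := bX z t hz
    have := bY z t hz
    linarith) hs, Lp_sub (K := 1) (mX t) (mY t) hs (fun z hz => bX z t hz) (fun z hz => bY z t hz)]

theorem eqF {p q : ℝ} {A B C D : ℝ → ℝ → ℝ} {n k : ℝ → ℝ} (h : Sys p q A B C D n k)
    {ψ : ℝ → ℝ → ℝ} (hψ : IsPsi n ψ) {r : ℝ} (hr : 0 ≤ r) :
    ∀ᵐ z, 0 < z → hat ψ (fun z r => C z r - A z r) z r
      = (q - p) * Real.exp (-(2 * z))
        + (∫ t in (0:ℝ)..(min r z), (n t * hat ψ (fun z r => C z r - A z r) (z - t) t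
            + 2 * (n t * hat ψ (fun z r => D z r - B z r) (z - t) t)
            + 2 * ((k t - n t) * hat ψ D (z - t) t))) := by
  have mDB : Measurable (fun x : ℝ × ℝ => (fun z r => D z r - B z r) x.1 x.2) := h.mD.sub h.mB
  have mCA : Measurable (fun x : ℝ × ℝ => (fun z r => C z r - A z r) x.1 x.2) := h.mC.sub h.mA
  have bDB : ∀ z t : ℝ, 0 < z → |D z t - B z t| ≤ 2 := fun z t hz => by
    refine (abs_sub _ _).trans ?_
    have := h.bD z t hz
    have := h.bB z t hz
    linarith
  have bCA : ∀ z t : ℝ, 0 < z → |C z t - A z t| ≤ 2 := fun z t hz => by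
    refine (abs_sub _ _).trans ?_
    have := h.bC z t hz
    have := h.bA z t hz
    linarith
  have bF : ∀ z t : ℝ, 0 < z → 0 ≤ t → t ≤ r →
      |hat ψ (fun z r => C z r - A z r) z t| ≤ 2 * (1 + Real.exp r) := by
    intro z t hz ht htr
    have h1 := hat_abs (X := fun z r => C z r - A z r) hψ mCA ht (fun z hz => bCA z t hz) hz
    have h4 : Real.exp t ≤ Real.exp r := Real.exp_le_exp.2 htr
    linarith
  have bE : ∀ z t : ℝ, 0 < z → 0 ≤ t → t ≤ r →
      |hat ψ (fun z r => D z r - B z r) z t| ≤ 2 * (1 + Real.exp r) := by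
    intro z t hz ht htr
    have h1 := hat_abs (X := fun z r => D z r - B z r) hψ mDB ht (fun z hz => bDB z t hz) hz
    have h4 : Real.exp t ≤ Real.exp r := Real.exp_le_exp.2 htr
    linarith
  have bD' : ∀ z t : ℝ, 0 < z → 0 ≤ t → t ≤ r →
      |hat ψ D z t| ≤ 2 * (1 + Real.exp r) := by
    intro z t hz ht htr
    have h1 := hat_abs hψ h.mD ht (fun z hz => h.bD z t hz) hz
    have h4 : Real.exp t ≤ Real.exp r := Real.exp_le_exp.2 htr
    have h5 := Real.exp_pos r
    linarith
  have hn1 : ∀ t : ℝ, 0 ≤ t → |n t| ≤ 1 := fun t ht => by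
    rw [abs_of_nonneg (h.n0 t ht)]; exact h.n1 t ht
  have hkn : ∀ t : ℝ, 0 ≤ t → |k t - n t| ≤ 1 := fun t ht => by
    have := h.k0 t ht
    have := h.k1 t ht
    have := h.n0 t ht
    have := h.n1 t ht
    rw [abs_le]
    constructor <;> linarith
  have er : 0 < Real.exp r := Real.exp_pos r
  have mG : Measurable (fun x : ℝ × ℝ => (fun z t => n t * hat ψ (fun z r => C z r - A z r) z t
      + 2 * (n t * hat ψ (fun z r => D z r - B z r) z t)
      + 2 * ((k t - n t) * hat ψ D z t)) x.1 x.2) := by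
    have m1 := (h.nm.comp measurable_snd).mul (measurable_hat (X := fun z r => C z r - A z r) hψ mCA)
    have m2 := ((h.nm.comp measurable_snd).mul (measurable_hat (X := fun z r => D z r - B z r) hψ mDB)).const_mul 2
    have m3 := (((h.km.comp measurable_snd).sub (h.nm.comp measurable_snd)).mul
      (measurable_hat hψ h.mD)).const_mul 2
    exact (m1.add m2).add m3
  have key := d9_main (G := fun z t => n t * hat ψ (fun z r => C z r - A z r) z t
      + 2 * (n t * hat ψ (fun z r => D z r - B z r) z t)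
      + 2 * ((k t - n t) * hat ψ D z t))
    (K := 10 * (1 + Real.exp r)) mG hr (by positivity) ?_
    (q - p) (w := fun _ => 0) measurable_const (fun z hz => by simp)
    (f := fun z => hat ψ (fun z r => C z r - A z r) z r)
    ((measurable_hat (X := fun z r => C z r - A z r) hψ mCA).comp (measurable_id.prodMk measurable_const))
    (K' := 2 * (1 + Real.exp r)) (fun z hz => hat_abs (X := fun z r => C z r - A z r) hψ mCA hr (fun z hz => bCA z r hz) hz) ?_
  · filter_upwards [key] with z hz hz0
    rw [hz hz0]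
    simp
  · intro z t hz ht htr
    have h1 := mul_le_mul (hn1 t ht) (bF z t hz ht htr) (abs_nonneg _) zero_le_one
    have h2 := mul_le_mul (hn1 t ht) (bE z t hz ht htr) (abs_nonneg _) zero_le_one
    have h3 := mul_le_mul (hkn t ht) (bD' z t hz ht htr) (abs_nonneg _) zero_le_one
    refine (abs_add_le _ _).trans ?_
    have h4 := abs_add_le (n t * hat ψ (fun z r => C z r - A z r) z t)
      (2 * (n t * hat ψ (fun z r => D z r - B z r) z t))
    rw [abs_mul, abs_mul 2, abs_mul (n t)] at h4
    rw [abs_mul 2, abs_mul (k t - n t)]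
    have h5 : |(2:ℝ)| = 2 := abs_of_pos two_pos
    rw [h5] at h4 ⊢
    linarith
  · intro s hs
    have hode := sys_ode h hs
    have hF := hat_F hs h.nc h.kc hode hr
    rw [d9_hatLp hψ h.mC h.mA h.bC h.bA hr hs, hF]
    congr 1
    apply intervalIntegral.integral_congr
    intro t ht
    rw [uIcc_of_le hr] at ht
    have l1 := d9_hatLp hψ h.mC h.mA h.bC h.bA ht.1 hs
    have l2 := d9_hatLp hψ h.mD h.mB h.bD h.bB ht.1 hs
    have l3 := Lp_hat (K := 1) hψ h.mD ht.1 (fun z hz => h.bD z t hz) hs
    have mX : Measurable (fun z => hat ψ (fun z r => C z r - A z r) z t) :=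
      (measurable_hat (X := fun z r => C z r - A z r) hψ mCA).comp (measurable_id.prodMk measurable_const)
    have mY : Measurable (fun z => hat ψ (fun z r => D z r - B z r) z t) :=
      (measurable_hat (X := fun z r => D z r - B z r) hψ mDB).comp (measurable_id.prodMk measurable_const)
    have mW : Measurable (fun z => hat ψ D z t) :=
      (measurable_hat hψ h.mD).comp (measurable_id.prodMk measurable_const)
    have b1 : ∀ z, 0 < z → |n t * hat ψ (fun z r => C z r - A z r) z t| ≤
        4 * (1 + Real.exp r) := fun z hz => by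
      rw [abs_mul]
      have h1 := mul_le_mul (hn1 t ht.1) (bF z t hz ht.1 ht.2) (abs_nonneg _) zero_le_one
      linarith
    have b2 : ∀ z, 0 < z → |2 * (n t * hat ψ (fun z r => D z r - B z r) z t)| ≤
        4 * (1 + Real.exp r) := fun z hz => by
      rw [abs_mul, abs_mul, abs_of_pos (two_pos : (0:ℝ) < 2)]
      have h1 := mul_le_mul (hn1 t ht.1) (bE z t hz ht.1 ht.2) (abs_nonneg _) zero_le_one
      linarith
    have b3 : ∀ z, 0 < z → |2 * ((k t - n t) * hat ψ D z t)| ≤
        8 * (1 + Real.exp r) := fun z hz => by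
      rw [abs_mul, abs_mul, abs_of_pos (two_pos : (0:ℝ) < 2)]
      have h1 := mul_le_mul (hkn t ht.1) (bD' z t hz ht.1 ht.2) (abs_nonneg _) zero_le_one
      linarith
    have b12 : ∀ z, 0 < z → |n t * hat ψ (fun z r => C z r - A z r) z t +
        2 * (n t * hat ψ (fun z r => D z r - B z r) z t)| ≤ 8 * (1 + Real.exp r) := fun z hz => by
      refine (abs_add_le _ _).trans ?_
      have := b1 z hz
      have := b2 z hz
      linarith
    have l6 : Lp (fun z => n t * hat ψ (fun z r => C z r - A z r) z t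
        + 2 * (n t * hat ψ (fun z r => D z r - B z r) z t)
        + 2 * ((k t - n t) * hat ψ D z t)) s =
        n t * Lp (fun z => hat ψ (fun z r => C z r - A z r) z t) s +
          2 * (n t * Lp (fun z => hat ψ (fun z r => D z r - B z r) z t) s) +
          2 * ((k t - n t) * Lp (fun z => hat ψ D z t) s) := by
      rw [Lp_add (f := fun z => n t * hat ψ (fun z r => C z r - A z r) z t
          + 2 * (n t * hat ψ (fun z r => D z r - B z r) z t))
        (g := fun z => 2 * ((k t - n t) * hat ψ D z t))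
        ((mX.const_mul _).add ((mY.const_mul _).const_mul _))
        ((mW.const_mul _).const_mul _) hs b12 b3,
        Lp_add (mX.const_mul _) ((mY.const_mul _).const_mul _) hs b1 b2,
        Lp_const_mul, Lp_const_mul, Lp_const_mul, Lp_const_mul, Lp_const_mul]
    simp only
    rw [l6, l1, l2, l3]
    ring

end Pool.SM3
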