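/-
SM3.D9c : the dressed equations in real space (prove eqZ here).
PROOF. Fix `r ≥ 0`.  Both sides are measurable and bounded functions of `z > 0` (hat_abs with the bound `e^t ≤ e^r` for `t ≤ r`; the integral
over `0..min r z` is bounded by `r · const`), and for every `s > 0` their Laplace transforms agree: left: Lp_hat, Lp_sub, IsPsi.lap (for
`Z`: `Lp (hat ψ (A+C-B) - ψ) = φ (a+c-b) - (φ - 1) = 1 + φ (a+c-b-1)`); right: Lp_exp, Lp_shift (with
`G z t = k t * hat ψ (C-A) z t + (k t - n t) * Z z t` etc.; its Laplace transform is a linear combination), Lp_cut; and the identities hat_E,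
hat_F, hat_Z of D7 for `sys_ode` (for hat_E: `(k-n)(Z-1)` gives the term `- ∫_0^r e^{-st} (k-n)` = the transform of
`- if z < r then k z - n z else 0`).  Conclude by Lp_inj.
Write `Eh = hat ψ (fun z r => D z r - B z r)` etc.
-/
import Pool.Agent.Lib.SM3.D3
import Pool.Agent.Lib.SM3.D5
import Pool.Agent.Lib.SM3.D7
import Pool.Agent.Lib.SM3.D8

set_option autoImplicit false

open MeasureTheory Set

namespace Pool.SM3

theorem eqZ {p q : ℝ} {A B C D : ℝ → ℝ → ℝ} {n k : ℝ → ℝ} (h : Sys p q A B C D n k)
    {ψ : ℝ → ℝ → ℝ} (hψ : IsPsi n ψ) {r : ℝ} (hr : 0 ≤ r) :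
    ∀ᵐ z, 0 < z → Zt ψ A B C z r
      = (p + q - Real.sqrt (p * q)) * Real.exp (-(2 * z))
        + (∫ t in (0:ℝ)..(min r z), ((4 * n t + k t) * hat ψ B (z - t) t
            + (2 * k t - n t) * hat ψ (fun z r => D z r - B z r) (z - t) t)) := by
  have hE1 : (1 : ℝ) ≤ Real.exp r := Real.one_le_exp hr
  have hEp : (0 : ℝ) < 1 + Real.exp r := by linarith
  have hE : ∀ t, t ≤ r → 1 + Real.exp t ≤ 1 + Real.exp r := fun t ht =>
    add_le_add le_rfl (Real.exp_le_exp.2 ht)
  have mX : Measurable (fun x : ℝ × ℝ => A x.1 x.2 + C x.1 x.2 - B x.1 x.2) :=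
    (h.mA.add h.mC).sub h.mB
  have mDB : Measurable (fun x : ℝ × ℝ => D x.1 x.2 - B x.1 x.2) := h.mD.sub h.mB
  have bX : ∀ t z, 0 < z → |A z t + C z t - B z t| ≤ 3 := by
    intro t z hz
    have h1 := abs_le.1 (h.bA z t hz)
    have h2 := abs_le.1 (h.bC z t hz)
    have h3 := abs_le.1 (h.bB z t hz)
    rw [abs_le]
    constructor <;> linarith [h1.1, h1.2, h2.1, h2.2, h3.1, h3.2]
  have bDB : ∀ t z, 0 < z → |D z t - B z t| ≤ 2 := by
    intro t z hz
    have h1 := abs_le.1 (h.bD z t hz)
    have h3 := abs_le.1 (h.bB z t hz)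
    rw [abs_le]
    constructor <;> linarith [h1.1, h1.2, h3.1, h3.2]
  obtain ⟨G, hG⟩ : ∃ G : ℝ → ℝ → ℝ, G = fun z t => (4 * n t + k t) * hat ψ B z t +
      (2 * k t - n t) * hat ψ (fun z r => D z r - B z r) z t := ⟨_, rfl⟩
  have mn : Measurable (fun x : ℝ × ℝ => n x.2) := h.nm.comp measurable_snd
  have mk : Measurable (fun x : ℝ × ℝ => k x.2) := h.km.comp measurable_snd
  have mG : Measurable (fun x : ℝ × ℝ => G x.1 x.2) := by
    rw [hG]
    exact (((mn.const_mul 4).add mk).mul (measurable_hat hψ h.mB)).add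
      (((mk.const_mul 2).sub mn).mul (measurable_hat hψ (X := fun z r => D z r - B z r) mDB))
  have bB' : ∀ z t, 0 < z → 0 ≤ t → |hat ψ B z t| ≤ 1 * (1 + Real.exp t) := fun z t hz ht =>
    hat_abs hψ h.mB ht (fun z hz => h.bB z t hz) hz
  have bDB' : ∀ z t, 0 < z → 0 ≤ t →
      |hat ψ (fun z r => D z r - B z r) z t| ≤ 2 * (1 + Real.exp t) := fun z t hz ht =>
    hat_abs hψ (X := fun z r => D z r - B z r) mDB ht (fun z hz => bDB t z hz) hz
  have h5 : ∀ t, 0 ≤ t → |4 * n t + k t| ≤ 5 := by
    intro t ht
    rw [abs_le]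
    constructor <;> linarith [h.n0 t ht, h.n1 t ht, h.k0 t ht, h.k1 t ht]
  have h2 : ∀ t, 0 ≤ t → |2 * k t - n t| ≤ 2 := by
    intro t ht
    rw [abs_le]
    constructor <;> linarith [h.n0 t ht, h.n1 t ht, h.k0 t ht, h.k1 t ht]
  have b1 : ∀ z t, 0 < z → 0 ≤ t → |(4 * n t + k t) * hat ψ B z t| ≤
      5 * (1 * (1 + Real.exp t)) := by
    intro z t hz ht
    rw [abs_mul]
    exact mul_le_mul (h5 t ht) (bB' z t hz ht) (abs_nonneg _) (by norm_num)
  have b2 : ∀ z t, 0 < z → 0 ≤ t →
      |(2 * k t - n t) * hat ψ (fun z r => D z r - B z r) z t| ≤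
      2 * (2 * (1 + Real.exp t)) := by
    intro z t hz ht
    rw [abs_mul]
    exact mul_le_mul (h2 t ht) (bDB' z t hz ht) (abs_nonneg _) (by norm_num)
  have bG : ∀ z t : ℝ, 0 < z → 0 ≤ t → t ≤ r → |G z t| ≤ 9 * (1 + Real.exp r) := by
    intro z t hz ht htr
    rw [hG]
    refine (abs_add_le _ _).trans ?_
    have := b1 z t hz ht
    have := b2 z t hz ht
    have := hE t htr
    linarith
  -- the left side
  have mf1 : Measurable (fun z => hat ψ (fun z r => A z r + C z r - B z r) z r) :=
    (measurable_hat hψ (X := fun z r => A z r + C z r - B z r) mX).comp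
      (measurable_id.prodMk measurable_const)
  have mψ : Measurable (fun z => ψ z r) := hψ.meas.comp (measurable_id.prodMk measurable_const)
  have bf1 : ∀ z, 0 < z → |hat ψ (fun z r => A z r + C z r - B z r) z r| ≤
      3 * (1 + Real.exp r) := fun z hz =>
    hat_abs hψ (X := fun z r => A z r + C z r - B z r) mX hr (fun z hz => bX r z hz) hz
  have bψ : ∀ z, 0 < z → |ψ z r| ≤ 3 * (1 + Real.exp r) := fun z hz => by
    rw [abs_of_nonneg (hψ.nonneg z r hz hr)]
    have := hψ.le z r hz hr
    linarith
  -- the right side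
  have bI : ∀ z, 0 < z → |∫ t in (0:ℝ)..(min r z), G (z - t) t| ≤ 9 * (1 + Real.exp r) * r := by
    intro z hz
    have hm : 0 ≤ min r z := le_min hr hz.le
    have h1 : ‖∫ t in (0:ℝ)..(min r z), G (z - t) t‖ ≤ (9 * (1 + Real.exp r)) * |min r z - 0| := by
      apply intervalIntegral.norm_integral_le_of_norm_le_const_ae
      have hne : ∀ᵐ t : ℝ, t ≠ z := by simp [ae_iff]
      filter_upwards [hne] with t ht hmem
      rw [uIoc_of_le hm] at hmem
      rw [Real.norm_eq_abs]
      exact bG (z - t) t (sub_pos.2 (lt_of_le_of_ne (hmem.2.trans (min_le_right _ _)) ht))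
        hmem.1.le (hmem.2.trans (min_le_left _ _))
    rw [Real.norm_eq_abs, sub_zero, abs_of_nonneg hm] at h1
    refine h1.trans ?_
    exact mul_le_mul_of_nonneg_left (min_le_left _ _) (by positivity)
  have mI : Measurable (fun z => ∫ t in (0:ℝ)..(min r z), G (z - t) t) :=
    (measurable_shift mG).comp (measurable_id.prodMk measurable_const)
  have me : Measurable (fun z : ℝ => (p + q - Real.sqrt (p * q)) * Real.exp (-(2 * z))) := by
    fun_prop
  have be : ∀ z : ℝ, 0 < z → |(p + q - Real.sqrt (p * q)) * Real.exp (-(2 * z))| ≤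
      |p + q - Real.sqrt (p * q)| := by
    intro z hz
    rw [abs_mul, abs_of_pos (Real.exp_pos _)]
    refine mul_le_of_le_one_right (abs_nonneg _) ?_
    exact Real.exp_le_one_iff.2 (by linarith)
  obtain ⟨K, hK⟩ : ∃ K : ℝ, K = |p + q - Real.sqrt (p * q)| + 9 * (1 + Real.exp r) * r +
      6 * (1 + Real.exp r) := ⟨_, rfl⟩
  have hK1 : |p + q - Real.sqrt (p * q)| ≤ K := by
    rw [hK]
    have : 0 ≤ 9 * (1 + Real.exp r) * r := by positivity
    linarith
  have hK2 : 9 * (1 + Real.exp r) * r ≤ K := by
    rw [hK]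
    have := abs_nonneg (p + q - Real.sqrt (p * q))
    linarith
  have hK3 : |p + q - Real.sqrt (p * q)| + 9 * (1 + Real.exp r) * r ≤ K := by
    rw [hK]
    linarith
  have hK4 : 6 * (1 + Real.exp r) ≤ K := by
    rw [hK]
    have : 0 ≤ 9 * (1 + Real.exp r) * r := by positivity
    have := abs_nonneg (p + q - Real.sqrt (p * q))
    linarith
  have main := Lp_inj (f := fun z => Zt ψ A B C z r)
    (g := fun z => (p + q - Real.sqrt (p * q)) * Real.exp (-(2 * z))
        + ∫ t in (0:ℝ)..(min r z), G (z - t) t) (mf1.sub mψ) (me.add mI) (K := K)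
    (fun z hz => by
      refine (abs_sub _ _).trans ?_
      have := bf1 z hz
      have := bψ z hz
      linarith)
    (fun z hz => by
      refine (abs_add_le _ _).trans ?_
      have := be z hz
      have := bI z hz
      linarith)
    (fun s hs => by
      have e1 : Lp (fun z => Zt ψ A B C z r) s = 1 + phi n s r * (Lp (fun z => A z r) s +
          Lp (fun z => C z r) s - Lp (fun z => B z r) s - 1) := by
        have l1 := Lp_sub mf1 mψ hs bf1 bψ
        have l2 := Lp_hat hψ (X := fun z r => A z r + C z r - B z r) mX hr (K := 3)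
          (fun z hz => bX r z hz) hs
        have mAr : Measurable (fun z => A z r) := h.mA.comp (measurable_id.prodMk measurable_const)
        have mBr : Measurable (fun z => B z r) := h.mB.comp (measurable_id.prodMk measurable_const)
        have mCr : Measurable (fun z => C z r) := h.mC.comp (measurable_id.prodMk measurable_const)
        have l3 := Lp_sub (f := fun z => A z r + C z r) (g := fun z => B z r) (mAr.add mCr) mBr
          (K := 2) hs (fun z hz => (abs_add_le _ _).trans (by
            have := h.bA z r hz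
            have := h.bC z r hz
            linarith)) (fun z hz => (h.bB z r hz).trans (by norm_num))
        have l4 := Lp_add mAr mCr (K := 1) hs (fun z hz => h.bA z r hz) (fun z hz => h.bC z r hz)
        have l5 := hψ.lap s r hs hr
        have l6 : Lp (fun z => Zt ψ A B C z r) s =
            Lp (fun z => hat ψ (fun z r => A z r + C z r - B z r) z r - ψ z r) s := rfl
        rw [l6, l1, l2, l3, l4]
        linear_combination -l5
      have e2 : Lp (fun z => (p + q - Real.sqrt (p * q)) * Real.exp (-(2 * z))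
          + ∫ t in (0:ℝ)..(min r z), G (z - t) t) s = (p + q - Real.sqrt (p * q)) / (s + 2) +
          ∫ t in (0:ℝ)..r, Real.exp (-(s * t)) * Lp (fun z => G z t) s := by
        rw [Lp_add me mI hs (K := K) (fun z hz => (be z hz).trans hK1)
          (fun z hz => (bI z hz).trans hK2), Lp_exp _ hs, Lp_shift mG hs hr bG]
      have e3 : ∀ t, 0 ≤ t → t ≤ r → Lp (fun z => G z t) s =
          (4 * n t + k t) * (phi n s t * Lp (fun z => B z t) s) +
          (2 * k t - n t) * (phi n s t * (Lp (fun z => D z t) s - Lp (fun z => B z t) s)) := by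
        intro t ht htr
        have mBt : Measurable (fun z => B z t) := h.mB.comp (measurable_id.prodMk measurable_const)
        have mDt : Measurable (fun z => D z t) := h.mD.comp (measurable_id.prodMk measurable_const)
        have m1 : Measurable (fun z => (4 * n t + k t) * hat ψ B z t) :=
          ((measurable_hat hψ h.mB).comp (measurable_id.prodMk measurable_const)).const_mul _
        have m2 : Measurable (fun z => (2 * k t - n t) *
            hat ψ (fun z r => D z r - B z r) z t) :=
          ((measurable_hat hψ (X := fun z r => D z r - B z r) mDB).comp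
            (measurable_id.prodMk measurable_const)).const_mul _
        have l1 := Lp_add m1 m2 (K := 5 * (1 * (1 + Real.exp t))) hs
          (fun z hz => b1 z t hz ht) (fun z hz => (b2 z t hz ht).trans (by
            have : 0 < 1 + Real.exp t := by positivity
            linarith))
        have l2 := Lp_const_mul (4 * n t + k t) (fun z => hat ψ B z t) s
        have l3 := Lp_const_mul (2 * k t - n t) (fun z => hat ψ (fun z r => D z r - B z r) z t) s
        have l4 := Lp_hat hψ h.mB ht (K := 1) (fun z hz => h.bB z t hz) hs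
        have l5 := Lp_hat hψ (X := fun z r => D z r - B z r) mDB ht (K := 2)
          (fun z hz => bDB t z hz) hs
        have l6 := Lp_sub mDt mBt (K := 1) hs (fun z hz => h.bD z t hz) (fun z hz => h.bB z t hz)
        rw [hG, l1, l2, l3, l4, l5, l6]
      have e4 : (∫ t in (0:ℝ)..r, Real.exp (-(s * t)) * Lp (fun z => G z t) s) =
          ∫ t in (0:ℝ)..r, Real.exp (-(s * t)) *
            ((4 * n t + k t) * (phi n s t * Lp (fun z => B z t) s) +
          (2 * k t - n t) * (phi n s t * (Lp (fun z => D z t) s - Lp (fun z => B z t) s))) := by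
        refine intervalIntegral.integral_congr fun t ht => ?_
        rw [uIcc_of_le hr] at ht
        rw [e3 t ht.1 ht.2]
      have e5 := hat_Z hs h.nc h.kc (sys_ode h hs) hr
      rw [e1, e2, e4]
      exact e5)
  filter_upwards [main] with z hz hz0
  rw [hz hz0, hG]

end Pool.SM3
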