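/-
SM3.D12a (prove key_lt here) : THE KEY LEMMA: `n ≤ k` if `p < q`, `k ≤ n` if `q < p`.
PROOF. Let `ψ` be from exists_psi.  Case `p ≤ q`: for every `T > 0` apply volterra_nonneg with `K` large (a bound for everything on `(0,T)`, e.g.
`K = 100 e^T`), `e = k - n`, `c = k`, `E = hat (D-B)`, `F = hat (C-A)`, `G = Zt`, `H = hat D`, `S z t = (4 n t + k t) * hat B z t`
(`2k - n = k + e`), `e₀ = (q - sqrt(pq)) e^{-2z} ≥ 0`, `f₀ = (q-p) e^{-2z}`, `g₀ = (p+q-sqrt(pq)) e^{-2z} ≥ 0`.
Hypotheses: eqF, eqZ, eqE of D9; hat B, hat D ≥ 0 by sys_nonneg and hat_nonneg; `zE`: hat_zero (`D - B = 0` for `z < r`);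
`eqe`: eqE of D9 with `r = T`: for a.e. `z < T`: `0 = e₀ z + ∫_0^z (..) - e z` (`min T z = z`).
Case `q ≤ p`: the same with `e = n - k`, `E = - hat (D-B)`, `F = - hat (C-A)`, `c = 4 n`, `S z t = (4 n t + k t) * hat D z t`:
`(4n+k) hat B + (2k-n) hat(D-B) = (4n+k) hat D + (k - 5n) hat(D-B)` (hat_sub: `hat B = hat D - hat (D-B)`), `5n - k = 4n + e`.
Result for Laplace transforms: `φ Lp (D-B) = Lp (hat (D-B))` (Lp_hat), `φ > 0`, Lp_nonneg.
-/
import Pool.Agent.Lib.SM3.D4
import Pool.Agent.Lib.SM3.D9a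
import Pool.Agent.Lib.SM3.D9b
import Pool.Agent.Lib.SM3.D9c
import Pool.Agent.Lib.SM3.D10
import Pool.Agent.Lib.SM3.D11

set_option autoImplicit false

open MeasureTheory Set

namespace Pool.SM3

theorem key_lt {p q : ℝ} {A B C D : ℝ → ℝ → ℝ} {n k : ℝ → ℝ} (h : Sys p q A B C D n k)
    (hpq : p ≤ q) :
    (∀ᵐ z, 0 < z → n z ≤ k z) ∧
      ∀ s r : ℝ, 0 < s → 0 ≤ r → Lp (fun z => B z r) s ≤ Lp (fun z => D z r) s := by
  obtain ⟨ψ, hψ⟩ := exists_psi h.nm h.n0 h.n1
  have mDB : Measurable (fun x : ℝ × ℝ => D x.1 x.2 - B x.1 x.2) := h.mD.sub h.mB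
  have mCA : Measurable (fun x : ℝ × ℝ => C x.1 x.2 - A x.1 x.2) := h.mC.sub h.mA
  have mACB : Measurable (fun x : ℝ × ℝ => A x.1 x.2 + C x.1 x.2 - B x.1 x.2) :=
    (h.mA.add h.mC).sub h.mB
  have bDB : ∀ z r : ℝ, 0 < z → |D z r - B z r| ≤ 2 := by
    intro z r hz
    have h1 := abs_le.1 (h.bD z r hz)
    have h2 := abs_le.1 (h.bB z r hz)
    exact abs_le.2 ⟨by linarith [h1.1, h2.2], by linarith [h1.2, h2.1]⟩
  have bCA : ∀ z r : ℝ, 0 < z → |C z r - A z r| ≤ 2 := by
    intro z r hz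
    have h1 := abs_le.1 (h.bC z r hz)
    have h2 := abs_le.1 (h.bA z r hz)
    exact abs_le.2 ⟨by linarith [h1.1, h2.2], by linarith [h1.2, h2.1]⟩
  have bACB : ∀ z r : ℝ, 0 < z → |A z r + C z r - B z r| ≤ 3 := by
    intro z r hz
    have h1 := abs_le.1 (h.bC z r hz)
    have h2 := abs_le.1 (h.bA z r hz)
    have h3 := abs_le.1 (h.bB z r hz)
    exact abs_le.2 ⟨by linarith [h1.1, h2.1, h3.2], by linarith [h1.2, h2.2, h3.1]⟩
  have hsq : Real.sqrt (p * q) ≤ q := by
    have h1 : p * q ≤ q * q := mul_le_mul_of_nonneg_right hpq h.q0.le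
    calc Real.sqrt (p * q) ≤ Real.sqrt (q * q) := Real.sqrt_le_sqrt h1
      _ = q := Real.sqrt_mul_self h.q0.le
  have hzero : ∀ z r : ℝ, 0 < z → z < r → hat ψ (fun z r => D z r - B z r) z r = 0 := by
    intro z r hz hzr
    refine hat_zero hψ (fun z' hz' hzr' => ?_) hz hzr
    rw [h.zB z' r hz' hzr', h.zD z' r hz' hzr', sub_zero]
  -- the main step, for every `T`
  have main : ∀ T : ℝ, 0 < T → (∀ᵐ z, 0 < z → z < T → 0 ≤ k z - n z) ∧
      ∀ r, 0 ≤ r → r ≤ T → ∀ᵐ z, 0 < z → z < T → 0 ≤ hat ψ (fun z r => D z r - B z r) z r := by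
    intro T hT
    have hexp1 : (1:ℝ) ≤ Real.exp T := Real.one_le_exp hT.le
    have hexpr : ∀ r : ℝ, r ≤ T → Real.exp r ≤ Real.exp T := fun r hr => Real.exp_le_exp.2 hr
    have hexp0 : ∀ r : ℝ, 0 < Real.exp r := fun r => Real.exp_pos r
    have hK : (1:ℝ) ≤ 100 * Real.exp T := by linarith
    refine volterra_nonneg (T := T) (K := 100 * Real.exp T) hT hK (n := n) (k := k) (c := k)
      (e := fun t => k t - n t) (E := hat ψ (fun z r => D z r - B z r))
      (F := hat ψ (fun z r => C z r - A z r)) (G := Zt ψ A B C) (H := hat ψ D)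
      (S := fun z t => (4 * n t + k t) * hat ψ B z t)
      (e₀ := fun z => (q - Real.sqrt (p * q)) * Real.exp (-(2 * z)))
      (f₀ := fun z => (q - p) * Real.exp (-(2 * z)))
      (g₀ := fun z => (p + q - Real.sqrt (p * q)) * Real.exp (-(2 * z)))
      h.nm h.km h.km (h.km.sub h.nm) (measurable_hat hψ mDB) (measurable_hat hψ mCA) ?_
      (measurable_hat hψ h.mD) ?_ ?_ ?_ ?_ ?_ ?_ ?_ ?_ ?_ ?_ ?_ ?_ ?_ ?_ ?_ ?_ ?_ ?_
    · -- mG
      exact (measurable_hat hψ mACB).sub hψ.meas
    · -- mS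
      exact ((measurable_const.mul (h.nm.comp measurable_snd)).add
        (h.km.comp measurable_snd)).mul (measurable_hat hψ h.mB)
    · intro t ht _
      exact ⟨h.n0 t ht.le, (h.n1 t ht.le).trans hK⟩
    · intro t ht _
      exact ⟨h.k0 t ht.le, (h.k1 t ht.le).trans hK⟩
    · intro t ht _
      exact ⟨h.k0 t ht.le, (h.k1 t ht.le).trans hK⟩
    · intro t ht _
      have h1 := h.n0 t ht.le
      have h2 := h.n1 t ht.le
      have h3 := h.k0 t ht.le
      have h4 := h.k1 t ht.le
      exact abs_le.2 ⟨by linarith, by linarith⟩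
    · intro z r hz _ hr hrT
      have h1 := hat_abs hψ (X := fun z r => D z r - B z r) mDB hr (K := 2) (fun z hz => bDB z r hz) hz
      have h2 := hexpr r hrT
      exact h1.trans (by linarith)
    · intro z r hz _ hr hrT
      have h1 := hat_abs hψ (X := fun z r => C z r - A z r) mCA hr (K := 2) (fun z hz => bCA z r hz) hz
      have h2 := hexpr r hrT
      exact h1.trans (by linarith)
    · intro z r hz _ hr hrT
      have h1 := hat_abs hψ (X := fun z r => A z r + C z r - B z r) mACB hr (K := 3) (fun z hz => bACB z r hz) hz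
      have h2 := hexpr r hrT
      have h3 := hψ.nonneg z r hz hr
      have h4 := hψ.le z r hz hr
      have h5 := abs_le.1 h1
      unfold Zt
      exact abs_le.2 ⟨by linarith [h5.1], by linarith [h5.2]⟩
    · intro z r hz _ hr hrT
      have h1 := hat_abs hψ h.mD hr (K := 1) (fun z hz => h.bD z r hz) hz
      have h2 := hexpr r hrT
      have h3 := hat_nonneg hψ hr (X := D) (fun z hz => (sys_nonneg h hz hr).2.2.2) hz
      exact ⟨h3, (le_abs_self _).trans (h1.trans (by linarith))⟩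
    · intro z r hz _ hr hrT
      have h1 := hat_abs hψ h.mB hr (K := 1) (fun z hz => h.bB z r hz) hz
      have h2 := hexpr r hrT
      have h3 := hat_nonneg hψ hr (X := B) (fun z hz => (sys_nonneg h hz hr).2.1) hz
      have h4 := h.n0 r hr
      have h5 := h.n1 r hr
      have h6 := h.k0 r hr
      have h7 := h.k1 r hr
      have h8 : hat ψ B z r ≤ 1 + Real.exp r := by
        have := (le_abs_self _).trans h1
        linarith
      refine ⟨mul_nonneg (by linarith) h3, ?_⟩
      calc (4 * n r + k r) * hat ψ B z r ≤ 5 * (1 + Real.exp r) :=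
            mul_le_mul (by linarith) h8 h3 (by norm_num)
        _ ≤ 100 * Real.exp T := by linarith
    · intro z _
      exact mul_nonneg (by linarith) (hexp0 _).le
    · intro z _
      exact mul_nonneg (by linarith) (hexp0 _).le
    · intro z _
      exact mul_nonneg (by linarith [h.p0]) (hexp0 _).le
    · intro r hr _
      filter_upwards [eqF h hψ hr] with z hz hz0 _
      exact hz hz0
    · intro r hr _
      filter_upwards [eqZ h hψ hr] with z hz hz0 _
      rw [hz hz0]
      congr 1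
      refine intervalIntegral.integral_congr (fun t _ => ?_)
      ring
    · intro r hr _
      filter_upwards [eqE h hψ hr] with z hz hz0 _ hrz
      have h1 := hz hz0
      rw [if_neg (not_lt.2 hrz.le), sub_zero, min_eq_left hrz.le] at h1
      exact h1
    · intro z r hz hzr _
      exact hzero z r hz hzr
    · filter_upwards [eqE h hψ hT.le] with z hz hz0 hzT
      have h1 := hz hz0
      rw [if_pos hzT, min_eq_right hzT.le, hzero z T hz0 hzT] at h1
      linarith
  refine ⟨?_, ?_⟩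
  · have h1 : ∀ᵐ z : ℝ, ∀ N : ℕ, 0 < z → z < (N:ℝ) + 1 → 0 ≤ k z - n z :=
      ae_all_iff.2 fun N => (main ((N:ℝ) + 1) (by positivity)).1
    filter_upwards [h1] with z hz hz0
    obtain ⟨N, hN⟩ := exists_nat_gt z
    have := hz N hz0 (by linarith)
    linarith
  · intro s r hs hr
    have h1 : ∀ᵐ z : ℝ, ∀ N : ℕ, 0 < z → z < (N:ℝ) + 1 + r →
        0 ≤ hat ψ (fun z r => D z r - B z r) z r :=
      ae_all_iff.2 fun N => (main ((N:ℝ) + 1 + r) (by positivity)).2 r hr
        (by have : (0:ℝ) ≤ N := Nat.cast_nonneg N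
            linarith)
    have h2 : 0 ≤ Lp (fun z => hat ψ (fun z r => D z r - B z r) z r) s := by
      refine Lp_nonneg ?_ s
      filter_upwards [h1] with z hz hz0
      obtain ⟨N, hN⟩ := exists_nat_gt z
      exact hz N hz0 (by linarith)
    rw [Lp_hat hψ mDB hr (K := 2) (fun z hz => bDB z r hz) hs] at h2
    have hφ : 0 < phi n s r := Real.exp_pos _
    have h3 : 0 ≤ Lp (fun z => D z r - B z r) s := nonneg_of_mul_nonneg_right h2 hφ
    have h4 : Lp (fun z => D z r - B z r) s = Lp (fun z => D z r) s - Lp (fun z => B z r) s :=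
      Lp_sub (h.mD.comp (measurable_id.prodMk measurable_const))
        (h.mB.comp (measurable_id.prodMk measurable_const)) (K := 1) hs
        (fun z hz => h.bD z r hz) (fun z hz => h.bB z r hz)
    rw [h4] at h3
    linarith

end Pool.SM3
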