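/-
SM3.D12b (key_gt) : THE KEY LEMMA: `k ≤ n` if `q ≤ p`.
PROOF. Let `ψ` be from exists_psi.  For every `T > 0` apply volterra_nonneg with `K = 10 (1 + e^T)`,
`e = n - k`, `E = - hat (D-B)`, `F = - hat (C-A)`, `G = Zt`, `H = hat D`, `c = 4 n`,
`S z t = (4 n t + k t) * hat D z t`:
`(4n+k) hat B + (2k-n) hat(D-B) = (4n+k) hat D + (k - 5n) hat(D-B)` (hat_sub: `hat B = hat D - hat (D-B)`), `5n - k = 4n + e`.
Result for Laplace transforms: `φ Lp (D-B) = Lp (hat (D-B))` (Lp_hat), `φ > 0`, Lp_nonneg.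
-/
import Pool.Agent.Lib.SM3.D4
import Pool.Agent.Lib.SM3.D9a
import Pool.Agent.Lib.SM3.D9b
import Pool.Agent.Lib.SM3.D9c
import Pool.Agent.Lib.SM3.D10
import Pool.Agent.Lib.SM3.D11

set_option autoImplicit false

open MeasureTheory Set

namespace Pool.SM3

private theorem sqrt_ge {p q : ℝ} (hq : 0 < q) (hpq : q ≤ p) :
    q ≤ Real.sqrt (p * q) := by
  have h1 : q * q ≤ p * q := mul_le_mul_of_nonneg_right hpq hq.le
  have h2 := Real.sqrt_le_sqrt h1
  rwa [Real.sqrt_mul_self hq.le] at h2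

private theorem sqrt_le {p q : ℝ} (hp : 0 < p) (hpq : q ≤ p) :
    Real.sqrt (p * q) ≤ p := by
  have h1 : p * q ≤ p * p := mul_le_mul_of_nonneg_left hpq hp.le
  have h2 := Real.sqrt_le_sqrt h1
  rwa [Real.sqrt_mul_self hp.le] at h2

private theorem key_T {p q : ℝ} {A B C D : ℝ → ℝ → ℝ} {n k : ℝ → ℝ} (h : Sys p q A B C D n k)
    (hpq : q ≤ p) {ψ : ℝ → ℝ → ℝ} (hψ : IsPsi n ψ) {T : ℝ} (hT : 0 < T) :
    (∀ᵐ z, 0 < z → z < T → 0 ≤ n z - k z) ∧
      ∀ r, 0 ≤ r → r ≤ T → ∀ᵐ z, 0 < z → z < T →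
        0 ≤ -(hat ψ (fun z r => D z r - B z r) z r) := by
  have mDB : Measurable (fun x : ℝ × ℝ => D x.1 x.2 - B x.1 x.2) := h.mD.sub h.mB
  have mCA : Measurable (fun x : ℝ × ℝ => C x.1 x.2 - A x.1 x.2) := h.mC.sub h.mA
  have mACB : Measurable (fun x : ℝ × ℝ => A x.1 x.2 + C x.1 x.2 - B x.1 x.2) :=
    (h.mA.add h.mC).sub h.mB
  have mhDB : Measurable (fun x : ℝ × ℝ => hat ψ (fun z r => D z r - B z r) x.1 x.2) :=
    measurable_hat hψ mDB
  have mhCA : Measurable (fun x : ℝ × ℝ => hat ψ (fun z r => C z r - A z r) x.1 x.2) :=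
    measurable_hat hψ mCA
  have mhD : Measurable (fun x : ℝ × ℝ => hat ψ D x.1 x.2) := measurable_hat hψ h.mD
  have mZ : Measurable (fun x : ℝ × ℝ => Zt ψ A B C x.1 x.2) :=
    (measurable_hat hψ mACB).sub hψ.meas
  have hexp : ∀ r, r ≤ T → Real.exp r ≤ Real.exp T := fun r hr => Real.exp_le_exp.2 hr
  have hexp0 : 0 < Real.exp T := Real.exp_pos T
  set K : ℝ := 10 * (1 + Real.exp T) with hK
  have bDB : ∀ z r, 0 < z → 0 ≤ r → r ≤ T →
      |hat ψ (fun z r => D z r - B z r) z r| ≤ K := by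
    intro z r hz hr hrT
    have h1 := hat_abs hψ (X := fun z r => D z r - B z r) mDB (K := 2) hr (fun z hz => by
      have h1 := abs_le.1 (h.bD z r hz)
      have h2 := abs_le.1 (h.bB z r hz)
      exact abs_le.2 ⟨by linarith [h1.1, h2.2], by linarith [h1.2, h2.1]⟩) hz
    have h2 := hexp r hrT
    linarith
  have bCA : ∀ z r, 0 < z → 0 ≤ r → r ≤ T →
      |hat ψ (fun z r => C z r - A z r) z r| ≤ K := by
    intro z r hz hr hrT
    have h1 := hat_abs hψ (X := fun z r => C z r - A z r) mCA (K := 2) hr (fun z hz => by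
      have h1 := abs_le.1 (h.bC z r hz)
      have h2 := abs_le.1 (h.bA z r hz)
      exact abs_le.2 ⟨by linarith [h1.1, h2.2], by linarith [h1.2, h2.1]⟩) hz
    have h2 := hexp r hrT
    linarith
  have bZ : ∀ z r, 0 < z → 0 ≤ r → r ≤ T → |Zt ψ A B C z r| ≤ K := by
    intro z r hz hr hrT
    have h1 := hat_abs hψ (X := fun z r => A z r + C z r - B z r) mACB (K := 3) hr (fun z hz => by
      have h1 := abs_le.1 (h.bC z r hz)
      have h2 := abs_le.1 (h.bA z r hz)
      have h3 := abs_le.1 (h.bB z r hz)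
      exact abs_le.2 ⟨by linarith [h1.1, h2.1, h3.2], by linarith [h1.2, h2.2, h3.1]⟩) hz
    have h2 := hexp r hrT
    have h3 := hψ.nonneg z r hz hr
    have h4 := hψ.le z r hz hr
    have h5 := abs_le.1 h1
    unfold Zt
    exact abs_le.2 ⟨by linarith [h5.1], by linarith [h5.2]⟩
  have bD0 : ∀ z r, 0 < z → 0 ≤ r → 0 ≤ hat ψ D z r := fun z r hz hr =>
    hat_nonneg hψ hr (fun z hz => (sys_nonneg h hz hr).2.2.2) hz
  have bD1 : ∀ z r, 0 < z → 0 ≤ r → r ≤ T → hat ψ D z r ≤ 1 + Real.exp T := by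
    intro z r hz hr hrT
    have h1 := hat_abs hψ h.mD (K := 1) hr (fun z hz => h.bD z r hz) hz
    have h2 := hexp r hrT
    have h3 := (abs_le.1 h1).2
    linarith
  have hsub : ∀ z r, 0 < z → 0 ≤ r →
      hat ψ (fun z r => D z r - B z r) z r = hat ψ D z r - hat ψ B z r := fun z r hz hr =>
    hat_sub hψ h.mD h.mB (K := 1) hr (fun z hz => h.bD z r hz) (fun z hz => h.bB z r hz) hz
  have hzero : ∀ z r, 0 < z → z < r → hat ψ (fun z r => D z r - B z r) z r = 0 := by
    intro z r hz hzr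
    refine hat_zero hψ (fun z hz hzr => ?_) hz hzr
    simp only [h.zB z r hz hzr, h.zD z r hz hzr, sub_zero]
  have hs1 := sqrt_ge h.q0 hpq
  have hs2 := sqrt_le h.p0 hpq
  have hn01 : ∀ t, 0 < t → 0 ≤ n t ∧ n t ≤ 1 := fun t ht => ⟨h.n0 t ht.le, h.n1 t ht.le⟩
  have hk01 : ∀ t, 0 < t → 0 ≤ k t ∧ k t ≤ 1 := fun t ht => ⟨h.k0 t ht.le, h.k1 t ht.le⟩
  -- S at r = 0 is not bounded by 0 ≤ r only: use the values of n, k on [0, ∞)
  have hn01' : ∀ t, 0 ≤ t → 0 ≤ n t ∧ n t ≤ 1 := fun t ht => ⟨h.n0 t ht, h.n1 t ht⟩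
  have hk01' : ∀ t, 0 ≤ t → 0 ≤ k t ∧ k t ≤ 1 := fun t ht => ⟨h.k0 t ht, h.k1 t ht⟩
  have mS : Measurable (fun x : ℝ × ℝ => (4 * n x.2 + k x.2) * hat ψ D x.1 x.2) :=
    (((h.nm.comp measurable_snd).const_mul 4).add (h.km.comp measurable_snd)).mul mhD
  refine volterra_nonneg (K := K) (n := n) (k := k) (c := fun t => 4 * n t)
    (e := fun t => n t - k t)
    (E := fun z r => -(hat ψ (fun z r => D z r - B z r) z r))
    (F := fun z r => -(hat ψ (fun z r => C z r - A z r) z r))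
    (G := fun z r => Zt ψ A B C z r) (H := fun z r => hat ψ D z r)
    (S := fun z t => (4 * n t + k t) * hat ψ D z t)
    (e₀ := fun z => (Real.sqrt (p * q) - q) * Real.exp (-(2 * z)))
    (f₀ := fun z => (p - q) * Real.exp (-(2 * z)))
    (g₀ := fun z => (p + q - Real.sqrt (p * q)) * Real.exp (-(2 * z)))
    hT (by linarith) h.nm h.km (h.nm.const_mul 4) (h.nm.sub h.km) mhDB.neg mhCA.neg mZ mhD mS
    ?_ ?_ ?_ ?_ ?_ ?_ ?_ ?_ ?_ ?_ ?_ ?_ ?_ ?_ ?_ ?_ ?_
  · intro t ht _
    exact ⟨(hn01 t ht).1, by linarith [(hn01 t ht).2]⟩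
  · intro t ht _
    exact ⟨(hk01 t ht).1, by linarith [(hk01 t ht).2]⟩
  · intro t ht _
    exact ⟨by linarith [(hn01 t ht).1], by linarith [(hn01 t ht).2]⟩
  · intro t ht _
    exact abs_le.2 ⟨by linarith [(hn01 t ht).1, (hk01 t ht).2],
      by linarith [(hn01 t ht).2, (hk01 t ht).1]⟩
  · intro z r hz _ hr hrT
    rw [abs_neg]
    exact bDB z r hz hr hrT
  · intro z r hz _ hr hrT
    rw [abs_neg]
    exact bCA z r hz hr hrT
  · intro z r hz _ hr hrT
    exact bZ z r hz hr hrT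
  · intro z r hz _ hr hrT
    exact ⟨bD0 z r hz hr, by linarith [bD1 z r hz hr hrT]⟩
  · intro z r hz _ hr hrT
    have h1 := hn01' r hr
    have h2 := hk01' r hr
    have h3 := bD0 z r hz hr
    have h4 := bD1 z r hz hr hrT
    refine ⟨mul_nonneg (by linarith [h1.1, h2.1]) h3, ?_⟩
    calc (4 * n r + k r) * hat ψ D z r ≤ 5 * (1 + Real.exp T) :=
          mul_le_mul (by linarith [h1.2, h2.2]) h4 h3 (by norm_num)
      _ ≤ K := by linarith
  · intro z _
    exact mul_nonneg (by linarith) (Real.exp_pos _).le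
  · intro z _
    exact mul_nonneg (by linarith) (Real.exp_pos _).le
  · intro z _
    exact mul_nonneg (by linarith [h.q0]) (Real.exp_pos _).le
  · intro r hr hrT
    filter_upwards [eqF h hψ hr] with z hz hz0 _
    simp only [hz hz0]
    rw [neg_add, ← intervalIntegral.integral_neg]
    congr 1
    · ring
    · refine intervalIntegral.integral_congr fun t _ => ?_
      ring
  · intro r hr hrT
    filter_upwards [eqZ h hψ hr] with z hz hz0 _
    rw [hz hz0]
    congr 1
    refine intervalIntegral.integral_congr_ae ?_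
    have hne : ∀ᵐ t : ℝ, t ≠ z := by
      simp [ae_iff]
    filter_upwards [hne] with t ht1 ht2
    rw [uIoc_of_le (le_min hr hz0.le)] at ht2
    have ht3 : t < z := lt_of_le_of_ne (ht2.2.trans (min_le_right _ _)) ht1
    have h1 := hsub (z - t) t (by linarith) ht2.1.le
    rw [h1]
    ring
  · intro r hr hrT
    filter_upwards [eqE h hψ hr] with z hz hz0 _ hrz
    rw [hz hz0, min_eq_left hrz.le, if_neg (not_lt.2 hrz.le), sub_zero, neg_add,
      ← intervalIntegral.integral_neg]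
    congr 1
    · ring
    · refine intervalIntegral.integral_congr fun t _ => ?_
      ring
  · intro z r hz hzr _
    simp only [hzero z r hz hzr, neg_zero]
  · filter_upwards [eqE h hψ hT.le] with z hz hz0 hzT
    have h1 := hz hz0
    rw [hzero z T hz0 hzT, min_eq_right hzT.le, if_pos hzT] at h1
    have h2 : (∫ t in (0:ℝ)..z, (k t * -(hat ψ (fun z r => C z r - A z r) (z - t) t)
        + (n t - k t) * Zt ψ A B C (z - t) t))
        = -∫ t in (0:ℝ)..z, (k t * hat ψ (fun z r => C z r - A z r) (z - t) t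
            + (k t - n t) * Zt ψ A B C (z - t) t) := by
      rw [← intervalIntegral.integral_neg]
      refine intervalIntegral.integral_congr fun t _ => ?_
      ring
    rw [h2]
    linarith

theorem key_gt {p q : ℝ} {A B C D : ℝ → ℝ → ℝ} {n k : ℝ → ℝ} (h : Sys p q A B C D n k)
    (hpq : q ≤ p) :
    (∀ᵐ z, 0 < z → k z ≤ n z) ∧
      ∀ s r : ℝ, 0 < s → 0 ≤ r → Lp (fun z => D z r) s ≤ Lp (fun z => B z r) s := by
  obtain ⟨ψ, hψ⟩ := exists_psi h.nm h.n0 h.n1
  have key : ∀ m : ℕ, _ := fun m => key_T h hpq hψ (T := (m : ℝ) + 1) (by positivity)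
  refine ⟨?_, fun s r hs hr => ?_⟩
  · have h1 : ∀ᵐ z, ∀ m : ℕ, 0 < z → z < (m : ℝ) + 1 → 0 ≤ n z - k z :=
      ae_all_iff.2 fun m => (key m).1
    filter_upwards [h1] with z hz hz0
    obtain ⟨m, hm⟩ := exists_nat_gt z
    have := hz m hz0 (by linarith)
    linarith
  · have h1 : ∀ᵐ z, ∀ m : ℕ, r ≤ (m : ℝ) + 1 → 0 < z → z < (m : ℝ) + 1 →
        0 ≤ -(hat ψ (fun z r => D z r - B z r) z r) := by
      refine ae_all_iff.2 fun m => ?_
      by_cases hm : r ≤ (m : ℝ) + 1
      · filter_upwards [(key m).2 r hr hm] with z hz _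
        exact hz
      · exact Filter.Eventually.of_forall fun z hz => absurd hz hm
    have h2 : ∀ᵐ z, 0 < z → 0 ≤ -(hat ψ (fun z r => D z r - B z r) z r) := by
      filter_upwards [h1] with z hz hz0
      obtain ⟨m, hm⟩ := exists_nat_gt (max z r)
      have h3 := le_max_left z r
      have h4 := le_max_right z r
      exact hz m (by linarith) hz0 (by linarith)
    have h3 := Lp_nonneg h2 s
    have h4 : Lp (fun z => -(hat ψ (fun z r => D z r - B z r) z r)) s =
        -Lp (fun z => hat ψ (fun z r => D z r - B z r) z r) s := by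
      have := Lp_const_mul (-1) (fun z => hat ψ (fun z r => D z r - B z r) z r) s
      simpa only [neg_mul, one_mul] using this
    have mDB : Measurable (fun x : ℝ × ℝ => D x.1 x.2 - B x.1 x.2) := h.mD.sub h.mB
    have h5 := Lp_hat hψ (X := fun z r => D z r - B z r) mDB (K := 2) hr (fun z hz => by
      have h1 := abs_le.1 (h.bD z r hz)
      have h2 := abs_le.1 (h.bB z r hz)
      exact abs_le.2 ⟨by linarith [h1.1, h2.2], by linarith [h1.2, h2.1]⟩) hs
    have mD : Measurable (fun z => D z r) := h.mD.comp (measurable_id.prodMk measurable_const)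
    have mB : Measurable (fun z => B z r) := h.mB.comp (measurable_id.prodMk measurable_const)
    have h6 := Lp_sub mD mB hs (fun z hz => h.bD z r hz) (fun z hz => h.bB z r hz)
    rw [h4] at h3
    rw [h5] at h3
    have h7 : 0 < phi n s r := Real.exp_pos _
    have h8 : Lp (fun z => D z r - B z r) s ≤ 0 := by
      by_contra hcon
      push Not at hcon
      have := mul_pos h7 hcon
      linarith
    rw [h6] at h8
    linarith

end Pool.SM3
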