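/-
SM3.D13 : the difference of the diagonal transforms.
PROOF. By sys_ode (ec, ea): `c - a = (q-p)/(s+2) + ∫_0^r e^{-st} (2 n b + 2 k d - 4 n b) dt`
`= (q-p)/(s+2) + ∫_0^r e^{-st} (2 n (d - b) + 2 (k - n) d) dt`.  With key_lt: the integrand is `≥ 0` a.e. (`d ≥ 0` by sys_nonneg, Lp_nonneg); key_gt: `≤ 0`.
-/
import Pool.Agent.Lib.SM3.D12a
import Pool.Agent.Lib.SM3.D12b
import Pool.Agent.Lib.SM3.D5

set_option autoImplicit false

open MeasureTheory Set

namespace Pool.SM3

private theorem diff_eq {p q : ℝ} {A B C D : ℝ → ℝ → ℝ} {n k : ℝ → ℝ} (h : Sys p q A B C D n k)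
    {s r : ℝ} (hs : 0 < s) (hr : 0 ≤ r) :
    Lp (fun z => C z r) s - Lp (fun z => A z r) s = (q - p) / (s + 2) +
      ∫ t in (0:ℝ)..r, Real.exp (-(s * t)) * (2 * (n t * (Lp (fun z => D z t) s -
        Lp (fun z => B z t) s)) + 2 * ((k t - n t) * Lp (fun z => D z t) s)) := by
  have o := sys_ode h hs
  have hsub : uIcc (0:ℝ) r ⊆ Ici 0 := by
    rw [uIcc_of_le hr]
    exact fun x hx => hx.1
  have hn := h.nc.mono hsub
  have hk := h.kc.mono hsub
  have hb := o.cb.mono hsub
  have hd := o.cd.mono hsub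
  have he : ContinuousOn (fun t : ℝ => Real.exp (-(s * t))) (uIcc (0:ℝ) r) :=
    (Real.continuous_exp.comp (continuous_const.mul continuous_id).neg).continuousOn
  have i1 : IntervalIntegrable (fun t => Real.exp (-(s * t)) *
      (2 * (n t * Lp (fun z => B z t) s) + 2 * (k t * Lp (fun z => D z t) s))) volume 0 r :=
    (he.mul ((continuousOn_const.mul (hn.mul hb)).add
      (continuousOn_const.mul (hk.mul hd)))).intervalIntegrable
  have i2 : IntervalIntegrable (fun t => Real.exp (-(s * t)) *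
      (4 * (n t * Lp (fun z => B z t) s))) volume 0 r :=
    (he.mul (continuousOn_const.mul (hn.mul hb))).intervalIntegrable
  have e1 := o.ec r hr
  have e2 := o.ea r hr
  rw [e1, e2]
  have e3 : (∫ t in (0:ℝ)..r, Real.exp (-(s * t)) * (2 * (n t * (Lp (fun z => D z t) s -
        Lp (fun z => B z t) s)) + 2 * ((k t - n t) * Lp (fun z => D z t) s))) =
      (∫ t in (0:ℝ)..r, Real.exp (-(s * t)) *
      (2 * (n t * Lp (fun z => B z t) s) + 2 * (k t * Lp (fun z => D z t) s))) -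
      ∫ t in (0:ℝ)..r, Real.exp (-(s * t)) * (4 * (n t * Lp (fun z => B z t) s)) := by
    rw [← intervalIntegral.integral_sub i1 i2]
    refine intervalIntegral.integral_congr fun t _ => ?_
    ring
  rw [e3, sub_div]
  ring

theorem diff_lt {p q : ℝ} {A B C D : ℝ → ℝ → ℝ} {n k : ℝ → ℝ} (h : Sys p q A B C D n k)
    (hpq : p ≤ q) {s r : ℝ} (hs : 0 < s) (hr : 0 ≤ r) :
    (q - p) / (s + 2) ≤ Lp (fun z => C z r) s - Lp (fun z => A z r) s := by
  rw [diff_eq h hs hr]
  obtain ⟨h1, h2⟩ := key_lt h hpq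
  refine le_add_of_nonneg_right (intervalIntegral.integral_nonneg_of_ae_restrict hr ?_)
  have h0 : ∀ᵐ z : ℝ, z ≠ 0 := by
    rw [ae_iff]
    simp
  rw [Filter.EventuallyLE, ae_restrict_iff' measurableSet_Icc]
  filter_upwards [h1, h0] with t ht ht0 htr
  have hpos : 0 < t := lt_of_le_of_ne htr.1 (Ne.symm ht0)
  have hd : 0 ≤ Lp (fun z => D z t) s :=
    Lp_nonneg (Filter.Eventually.of_forall fun z hz => (sys_nonneg h hz htr.1).2.2.2) s
  have h3 := ht hpos
  have h4 := h2 s t hs htr.1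
  have h5 := h.n0 t htr.1
  have h6 : 0 ≤ n t * (Lp (fun z => D z t) s - Lp (fun z => B z t) s) :=
    mul_nonneg h5 (by linarith)
  have h7 : 0 ≤ (k t - n t) * Lp (fun z => D z t) s := mul_nonneg (by linarith) hd
  exact mul_nonneg (Real.exp_pos _).le (by linarith)

theorem diff_gt {p q : ℝ} {A B C D : ℝ → ℝ → ℝ} {n k : ℝ → ℝ} (h : Sys p q A B C D n k)
    (hpq : q ≤ p) {s r : ℝ} (hs : 0 < s) (hr : 0 ≤ r) :
    Lp (fun z => C z r) s - Lp (fun z => A z r) s ≤ (q - p) / (s + 2) := by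
  rw [diff_eq h hs hr]
  obtain ⟨h1, h2⟩ := key_gt h hpq
  have key : 0 ≤ ∫ t in (0:ℝ)..r, -(Real.exp (-(s * t)) * (2 * (n t * (Lp (fun z => D z t) s -
        Lp (fun z => B z t) s)) + 2 * ((k t - n t) * Lp (fun z => D z t) s))) := by
    refine intervalIntegral.integral_nonneg_of_ae_restrict hr ?_
    have h0 : ∀ᵐ z : ℝ, z ≠ 0 := by
      rw [ae_iff]
      simp
    rw [Filter.EventuallyLE, ae_restrict_iff' measurableSet_Icc]
    filter_upwards [h1, h0] with t ht ht0 htr
    have hpos : 0 < t := lt_of_le_of_ne htr.1 (Ne.symm ht0)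
    have hd : 0 ≤ Lp (fun z => D z t) s :=
      Lp_nonneg (Filter.Eventually.of_forall fun z hz => (sys_nonneg h hz htr.1).2.2.2) s
    have h3 := ht hpos
    have h4 := h2 s t hs htr.1
    have h5 := h.n0 t htr.1
    have h6 : n t * (Lp (fun z => D z t) s - Lp (fun z => B z t) s) ≤ 0 :=
      mul_nonpos_of_nonneg_of_nonpos h5 (by linarith)
    have h7 : (k t - n t) * Lp (fun z => D z t) s ≤ 0 :=
      mul_nonpos_of_nonpos_of_nonneg (by linarith) hd
    have h8 := mul_nonpos_of_nonneg_of_nonpos (Real.exp_pos (-(s * t))).le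
      (by linarith : 2 * (n t * (Lp (fun z => D z t) s - Lp (fun z => B z t) s)) +
        2 * ((k t - n t) * Lp (fun z => D z t) s) ≤ 0)
    simp only [Pi.zero_apply]
    linarith
  rw [intervalIntegral.integral_neg] at key
  linarith

end Pool.SM3
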