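/-
SM3.D6 : the two invariants.
PROOF. All integrands are continuous on `[0,∞)`, so the functions are differentiable for `r > 0` (right derivative at 0) with
`a' = E 4 n b`, `b' = E (n (a+c+d-1) + k b)`, `c' = E (2 n b + 2 k d)`, `d' = E (2 n b + 2 k c - k)`, `E = e^{-sr}`.
(1) `y = 1 - 2(c-d)`: `y' = -2 k E y`, `y(0) = 1`: `y(r) = exp (-2 ∫_0^r e^{-st} k) > 0` (the derivative of `y exp(2 ∫)` is 0).
(2) `I = ((1-2a)(1-2(c+d)) - 8 b²) y`: with `α = 1-2a`, `w = 1-2(c+d)`: `α' = -8 n b E`, `w' = (-8 n b + 2 k w) E`,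
`b' = (-n (α+w)/2 + k b) E`, so `(αw - 8b²)' = 2 k E (αw - 8 b²)` and `I' = 0`; `I(0) = (1 - 2p/(s+2))(1 - 4q/(s+2)) - 8pq/(s+2)² =
s/(s+2)` (`p + 2q = 1`; `sqrt(pq)² = pq`).  Use `constant_of_has_deriv_right_zero` or `is_const` on `[0,R]`.
-/
import Pool.Agent.Lib.SM3.DDefs

set_option autoImplicit false

open MeasureTheory Set

namespace Pool.SM3

private theorem d6_deriv {x F : ℝ → ℝ} {x0 : ℝ} (hF : ContinuousOn F (Ici 0))
    (hx : ∀ r : ℝ, 0 ≤ r → x r = x0 + ∫ t in (0:ℝ)..r, F t) {r : ℝ} (hr : 0 ≤ r) :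
    HasDerivWithinAt x (F r) (Ici r) r := by
  have hi : IntervalIntegrable F volume 0 r := by
    apply ContinuousOn.intervalIntegrable
    rw [uIcc_of_le hr]
    exact hF.mono Icc_subset_Ici_self
  have h1 : HasDerivWithinAt (fun u => ∫ t in (0:ℝ)..u, F t) (F r) (Ici r) r := by
    refine intervalIntegral.integral_hasDerivWithinAt_right hi (t := Ioi r) ?_ ?_
    · exact (hF.mono fun y hy => hr.trans (le_of_lt hy)).stronglyMeasurableAtFilter_nhdsWithin
        measurableSet_Ioi r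
    · exact (hF r hr).mono fun y hy => hr.trans (le_of_lt hy)
  exact (h1.const_add x0).congr (fun y hy => hx y (hr.trans hy)) (hx r hr)

private theorem d6_const {G : ℝ → ℝ} {R : ℝ} (hR : 0 ≤ R) (hc : ContinuousOn G (Icc 0 R))
    (hd : ∀ r : ℝ, 0 ≤ r → HasDerivWithinAt G 0 (Ici r) r) : G R = G 0 :=
  constant_of_has_deriv_right_zero hc (fun x hx => hd x hx.1) R ⟨hR, le_refl R⟩

private theorem d6_E (s : ℝ) : ContinuousOn (fun t : ℝ => Real.exp (-(s * t))) (Ici 0) := by
  fun_prop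

private theorem d6_dc {p q s : ℝ} {n k a b c d : ℝ → ℝ} (nc : ContinuousOn n (Ici 0))
    (kc : ContinuousOn k (Ici 0)) (h : OdeL p q s n k a b c d) {r : ℝ} (hr : 0 ≤ r) :
    HasDerivWithinAt c (Real.exp (-(s * r)) * (2 * (n r * b r) + 2 * (k r * d r))) (Ici r) r := by
  refine d6_deriv (F := fun t => Real.exp (-(s * t)) * (2 * (n t * b t) + 2 * (k t * d t)))
    ?_ h.ec hr
  exact (d6_E s).mul ((continuousOn_const.mul (nc.mul h.cb)).add
    (continuousOn_const.mul (kc.mul h.cd)))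

private theorem d6_dd {p q s : ℝ} {n k a b c d : ℝ → ℝ} (nc : ContinuousOn n (Ici 0))
    (kc : ContinuousOn k (Ici 0)) (h : OdeL p q s n k a b c d) {r : ℝ} (hr : 0 ≤ r) :
    HasDerivWithinAt d (Real.exp (-(s * r)) * (2 * (n r * b r) + 2 * (k r * c r) - k r))
      (Ici r) r := by
  refine d6_deriv
    (F := fun t => Real.exp (-(s * t)) * (2 * (n t * b t) + 2 * (k t * c t) - k t)) ?_ h.ed hr
  exact (d6_E s).mul (((continuousOn_const.mul (nc.mul h.cb)).add
    (continuousOn_const.mul (kc.mul h.cc))).sub kc)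

private theorem d6_da {p q s : ℝ} {n k a b c d : ℝ → ℝ} (nc : ContinuousOn n (Ici 0))
    (h : OdeL p q s n k a b c d) {r : ℝ} (hr : 0 ≤ r) :
    HasDerivWithinAt a (Real.exp (-(s * r)) * (4 * (n r * b r))) (Ici r) r := by
  refine d6_deriv (F := fun t => Real.exp (-(s * t)) * (4 * (n t * b t))) ?_ h.ea hr
  exact (d6_E s).mul (continuousOn_const.mul (nc.mul h.cb))

private theorem d6_db {p q s : ℝ} {n k a b c d : ℝ → ℝ} (nc : ContinuousOn n (Ici 0))
    (kc : ContinuousOn k (Ici 0)) (h : OdeL p q s n k a b c d) {r : ℝ} (hr : 0 ≤ r) :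
    HasDerivWithinAt b (Real.exp (-(s * r)) * (n r * (a r + c r + d r - 1) + k r * b r))
      (Ici r) r := by
  refine d6_deriv
    (F := fun t => Real.exp (-(s * t)) * (n t * (a t + c t + d t - 1) + k t * b t)) ?_ h.eb hr
  exact (d6_E s).mul ((nc.mul (((h.ca.add h.cc).add h.cd).sub continuousOn_const)).add
    (kc.mul h.cb))

theorem ode_pos {p q s : ℝ} {n k a b c d : ℝ → ℝ} (hs : 0 < s) (nc : ContinuousOn n (Ici 0))
    (kc : ContinuousOn k (Ici 0)) (h : OdeL p q s n k a b c d) {r : ℝ} (hr : 0 ≤ r) :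
    0 < 1 - 2 * (c r - d r) := by
  have kE : ContinuousOn (fun t : ℝ => Real.exp (-(s * t)) * k t) (Ici 0) := (d6_E s).mul kc
  have hK : ∀ r : ℝ, 0 ≤ r → HasDerivWithinAt (fun u => ∫ t in (0:ℝ)..u, Real.exp (-(s * t)) * k t)
      (Real.exp (-(s * r)) * k r) (Ici r) r := fun r hr =>
    d6_deriv (x0 := 0) kE (fun r _ => by rw [zero_add]) hr
  have hKc : ContinuousOn (fun u => ∫ t in (0:ℝ)..u, Real.exp (-(s * t)) * k t) (Icc 0 r) := by
    have h1 := intervalIntegral.continuousOn_primitive_interval (μ := volume) (a := 0) (b := r)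
      (f := fun t : ℝ => Real.exp (-(s * t)) * k t) (by
        rw [uIcc_of_le hr]
        exact (kE.mono Icc_subset_Ici_self).integrableOn_Icc)
    rwa [uIcc_of_le hr] at h1
  have hG := d6_const (G := fun u => (1 - 2 * (c u - d u)) *
    Real.exp (2 * ∫ t in (0:ℝ)..u, Real.exp (-(s * t)) * k t)) hr
    ((continuousOn_const.sub (continuousOn_const.mul ((h.cc.sub h.cd).mono
      Icc_subset_Ici_self))).mul ((continuousOn_const.mul hKc).rexp)) (by
      intro u hu
      have h1 := (((d6_dc nc kc h hu).sub (d6_dd nc kc h hu)).const_mul 2).const_sub 1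
      have h2 := ((hK u hu).const_mul 2).exp
      refine (h1.mul h2).congr_deriv ?_
      simp only [Pi.sub_apply]
      ring)
  have hc0 := h.ec 0 le_rfl
  have hd0 := h.ed 0 le_rfl
  rw [intervalIntegral.integral_same, add_zero] at hc0 hd0
  simp only [intervalIntegral.integral_same, mul_zero, Real.exp_zero, mul_one, hc0, hd0, sub_self,
    sub_zero] at hG
  by_contra hcon
  push Not at hcon
  have h3 := mul_nonpos_of_nonpos_of_nonneg hcon
    (Real.exp_pos (2 * ∫ t in (0:ℝ)..r, Real.exp (-(s * t)) * k t)).le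
  rw [hG] at h3
  linarith

theorem ode_inv {p q s : ℝ} {n k a b c d : ℝ → ℝ} (hp : 0 < p) (hq : 0 < q) (hpq : p + 2 * q = 1)
    (hs : 0 < s) (nc : ContinuousOn n (Ici 0))
    (kc : ContinuousOn k (Ici 0)) (h : OdeL p q s n k a b c d) {r : ℝ} (hr : 0 ≤ r) :
    ((1 - 2 * a r) * (1 - 2 * (c r + d r)) - 8 * b r ^ 2) * (1 - 2 * (c r - d r)) = s / (s + 2) := by
  have hcont : ContinuousOn (fun u => ((1 - 2 * a u) * (1 - 2 * (c u + d u)) - 8 * b u ^ 2) *
      (1 - 2 * (c u - d u))) (Ici 0) :=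
    (((continuousOn_const.sub (continuousOn_const.mul h.ca)).mul
      (continuousOn_const.sub (continuousOn_const.mul (h.cc.add h.cd)))).sub
      (continuousOn_const.mul (h.cb.pow 2))).mul
      (continuousOn_const.sub (continuousOn_const.mul (h.cc.sub h.cd)))
  have hG := d6_const (G := fun u => ((1 - 2 * a u) * (1 - 2 * (c u + d u)) - 8 * b u ^ 2) *
      (1 - 2 * (c u - d u))) hr (hcont.mono Icc_subset_Ici_self) (by
      intro u hu
      have ha := ((d6_da nc h hu).const_mul 2).const_sub 1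
      have hw := (((d6_dc nc kc h hu).add (d6_dd nc kc h hu)).const_mul 2).const_sub 1
      have hb := ((d6_db nc kc h hu).pow 2).const_mul 8
      have hy := (((d6_dc nc kc h hu).sub (d6_dd nc kc h hu)).const_mul 2).const_sub 1
      refine (((ha.mul hw).sub hb).mul hy).congr_deriv ?_
      simp only [Pi.sub_apply, Pi.add_apply, Pi.mul_apply, Pi.pow_apply]
      push_cast
      ring)
  have ha0 := h.ea 0 le_rfl
  have hb0 := h.eb 0 le_rfl
  have hc0 := h.ec 0 le_rfl
  have hd0 := h.ed 0 le_rfl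
  rw [intervalIntegral.integral_same, add_zero] at ha0 hb0 hc0 hd0
  have hsq : Real.sqrt (p * q) ^ 2 = p * q := Real.sq_sqrt (mul_pos hp hq).le
  have hs2 : s + 2 ≠ 0 := by positivity
  have hp' : p = 1 - 2 * q := by linarith
  simp only [ha0, hb0, hc0, hd0, sub_self, mul_zero, sub_zero, mul_one] at hG
  rw [hG, div_pow, hsq, hp']
  field_simp
  ring

end Pool.SM3
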