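/-
SM3.D14 : the limit `r → ∞` and the bounds for the transform of `l_1(z) = A z z`.
PROOF. Let `l₁ z = A z z`, `l₂ z = C z z`.  For `r ≥ z`: `A z r = A z z`, `C z r = C z z` (eA, eC: `min r z = z`), and `B z r = D z r = 0` for `z < r`.  So
`|Lp (A · r) s - Lp l₁ s| ≤ ∫_r^∞ 2 e^{-sz} dz → 0` and likewise for `C`; `|Lp (B · r) s|, |Lp (D · r) s| ≤ ∫_r^∞ e^{-sz} dz → 0`.
Pass to the limit in ode_pos, ode_inv (for sys_ode), diff_lt, diff_gt: with `x = 1 - 2 Lp l₁ s`, `y = 1 - 2 Lp l₂ s`: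
`0 ≤ y`, `x y² = s/(s+2)`, and `(q-p)/(s+2) ≤ Lp l₂ s - Lp l₁ s` (case `p ≤ q`), `≤` (case `q ≤ p`).
So `y > 0`, `x > 0`.  `p < q`: `x - y ≥ 2(q-p)/(s+2)`.  `q < p`: `y ≥ x + 2(p-q)/(s+2) ≥ 2(p-q)/(s+2)`, so
`x = (s/(s+2))/y² ≤ s(s+2)/(4(p-q)²)`.
-/
import Pool.Agent.Lib.SM3.D6
import Pool.Agent.Lib.SM3.D13

set_option autoImplicit false

open MeasureTheory Set

namespace Pool.SM3

private theorem d14_lim {X : ℝ → ℝ → ℝ} {Y : ℝ → ℝ}
    (mX : Measurable (fun x : ℝ × ℝ => X x.1 x.2)) (bX : ∀ z r : ℝ, 0 < z → |X z r| ≤ 1)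
    (ev : ∀ z : ℝ, 0 < z → ∀ᶠ r in Filter.atTop, X z r = Y z) {s : ℝ} (hs : 0 < s) :
    Filter.Tendsto (fun r => Lp (fun z => X z r) s) Filter.atTop (nhds (Lp Y s)) := by
  unfold Lp
  refine tendsto_integral_filter_of_dominated_convergence
    (fun z => Real.exp (-(s * z))) ?_ ?_ ?_ ?_
  · refine Filter.Eventually.of_forall fun r => ?_
    have h1 : Measurable (fun z : ℝ => X z r) :=
      mX.comp (measurable_id.prodMk measurable_const)
    exact ((by fun_prop : Measurable fun z : ℝ => Real.exp (-(s * z))).mul h1).aestronglyMeasurable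
  · refine Filter.Eventually.of_forall fun r => ?_
    refine (ae_restrict_iff' measurableSet_Ioi).2 (Filter.Eventually.of_forall fun z hz => ?_)
    rw [Real.norm_eq_abs, abs_mul, abs_of_pos (Real.exp_pos _)]
    exact mul_le_of_le_one_right (Real.exp_pos _).le (bX z r hz)
  · have := integrableOn_exp_mul_Ioi (a := -s) (by linarith) 0
    refine this.congr_fun (fun z _ => ?_) measurableSet_Ioi
    simp
  · refine (ae_restrict_iff' measurableSet_Ioi).2 (Filter.Eventually.of_forall fun z hz => ?_)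
    refine Filter.Tendsto.congr' ?_ tendsto_const_nhds
    filter_upwards [ev z hz] with r hr
    rw [hr]

private theorem d14_A {p q : ℝ} {A B C D : ℝ → ℝ → ℝ} {n k : ℝ → ℝ} (h : Sys p q A B C D n k)
    {s : ℝ} (hs : 0 < s) :
    Filter.Tendsto (fun r => Lp (fun z => A z r) s) Filter.atTop
      (nhds (Lp (fun z => A z z) s)) := by
  refine d14_lim h.mA h.bA (fun z hz => ?_) hs
  filter_upwards [Filter.eventually_ge_atTop z] with r hr
  rw [h.eA z r hz (hz.le.trans hr), h.eA z z hz hz.le, min_eq_right hr, min_self]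

private theorem d14_C {p q : ℝ} {A B C D : ℝ → ℝ → ℝ} {n k : ℝ → ℝ} (h : Sys p q A B C D n k)
    {s : ℝ} (hs : 0 < s) :
    Filter.Tendsto (fun r => Lp (fun z => C z r) s) Filter.atTop
      (nhds (Lp (fun z => C z z) s)) := by
  refine d14_lim h.mC h.bC (fun z hz => ?_) hs
  filter_upwards [Filter.eventually_ge_atTop z] with r hr
  rw [h.eC z r hz (hz.le.trans hr), h.eC z z hz hz.le, min_eq_right hr, min_self]

private theorem d14_B {p q : ℝ} {A B C D : ℝ → ℝ → ℝ} {n k : ℝ → ℝ} (h : Sys p q A B C D n k)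
    {s : ℝ} (hs : 0 < s) :
    Filter.Tendsto (fun r => Lp (fun z => B z r) s) Filter.atTop (nhds 0) := by
  have h0 := d14_lim (Y := fun _ => 0) h.mB h.bB (fun z hz => by
    filter_upwards [Filter.eventually_gt_atTop z] with r hr
    exact h.zB z r hz hr) hs
  simpa [Lp] using h0

private theorem d14_D {p q : ℝ} {A B C D : ℝ → ℝ → ℝ} {n k : ℝ → ℝ} (h : Sys p q A B C D n k)
    {s : ℝ} (hs : 0 < s) :
    Filter.Tendsto (fun r => Lp (fun z => D z r) s) Filter.atTop (nhds 0) := by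
  have h0 := d14_lim (Y := fun _ => 0) h.mD h.bD (fun z hz => by
    filter_upwards [Filter.eventually_gt_atTop z] with r hr
    exact h.zD z r hz hr) hs
  simpa [Lp] using h0

private theorem d14_main {p q : ℝ} {A B C D : ℝ → ℝ → ℝ} {n k : ℝ → ℝ}
    (h : Sys p q A B C D n k) {s : ℝ} (hs : 0 < s) :
    0 < 1 - 2 * Lp (fun z => C z z) s ∧
    (1 - 2 * Lp (fun z => A z z) s) * (1 - 2 * Lp (fun z => C z z) s) ^ 2 = s / (s + 2) := by
  have hA := d14_A h hs
  have hB := d14_B h hs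
  have hC := d14_C h hs
  have hD := d14_D h hs
  have ho := sys_ode h hs
  have h1 : 0 ≤ 1 - 2 * (Lp (fun z => C z z) s - 0) := by
    refine ge_of_tendsto (((hC.sub hD).const_mul 2).const_sub 1) ?_
    filter_upwards [Filter.eventually_ge_atTop 0] with r hr
    exact (ode_pos hs h.nc h.kc ho hr).le
  have h2 : ((1 - 2 * Lp (fun z => A z z) s) * (1 - 2 * (Lp (fun z => C z z) s + 0))
      - 8 * 0 ^ 2) * (1 - 2 * (Lp (fun z => C z z) s - 0)) = s / (s + 2) := by
    refine tendsto_nhds_unique (((((hA.const_mul 2).const_sub 1).mul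
      (((hC.add hD).const_mul 2).const_sub 1)).sub ((hB.pow 2).const_mul 8)).mul
      (((hC.sub hD).const_mul 2).const_sub 1)) ?_
    refine Filter.Tendsto.congr' ?_ tendsto_const_nhds
    filter_upwards [Filter.eventually_ge_atTop 0] with r hr
    exact (ode_inv h.p0 h.q0 h.pq hs h.nc h.kc ho hr).symm
  have h3 : 0 < s / (s + 2) := by positivity
  have h4 : (1 - 2 * Lp (fun z => A z z) s) * (1 - 2 * Lp (fun z => C z z) s) ^ 2 = s / (s + 2) := by
    rw [← h2]; ring
  refine ⟨?_, h4⟩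
  rcases (show 0 ≤ 1 - 2 * Lp (fun z => C z z) s by linarith).lt_or_eq with h5 | h5
  · exact h5
  · exfalso
    rw [← h5] at h4
    norm_num at h4
    linarith

theorem diag_lt {p q : ℝ} {A B C D : ℝ → ℝ → ℝ} {n k : ℝ → ℝ} (h : Sys p q A B C D n k)
    (hpq : p < q) {s : ℝ} (hs : 0 < s) :
    2 * (q - p) / (s + 2) ≤ 1 - 2 * Lp (fun z => A z z) s := by
  obtain ⟨h1, -⟩ := d14_main h hs
  have h2 : (q - p) / (s + 2) ≤ Lp (fun z => C z z) s - Lp (fun z => A z z) s := by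
    refine ge_of_tendsto ((d14_C h hs).sub (d14_A h hs)) ?_
    filter_upwards [Filter.eventually_ge_atTop 0] with r hr
    exact diff_lt h hpq.le hs hr
  have h3 : 2 * (q - p) / (s + 2) = 2 * ((q - p) / (s + 2)) := by ring
  rw [h3]
  linarith

theorem diag_gt {p q : ℝ} {A B C D : ℝ → ℝ → ℝ} {n k : ℝ → ℝ} (h : Sys p q A B C D n k)
    (hpq : q < p) {s : ℝ} (hs : 0 < s) :
    0 < 1 - 2 * Lp (fun z => A z z) s ∧
      1 - 2 * Lp (fun z => A z z) s ≤ s * (s + 2) / (4 * (p - q) ^ 2) := by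
  obtain ⟨h1, h4⟩ := d14_main h hs
  have h2 : Lp (fun z => C z z) s - Lp (fun z => A z z) s ≤ (q - p) / (s + 2) := by
    refine le_of_tendsto ((d14_C h hs).sub (d14_A h hs)) ?_
    filter_upwards [Filter.eventually_ge_atTop 0] with r hr
    exact diff_gt h hpq.le hs hr
  have hs2 : 0 < s + 2 := by linarith
  have hx : 0 < 1 - 2 * Lp (fun z => A z z) s := by
    have h5 : 0 < (1 - 2 * Lp (fun z => A z z) s) * (1 - 2 * Lp (fun z => C z z) s) ^ 2 := by
      rw [h4]; positivity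
    exact (pos_iff_pos_of_mul_pos h5).2 (by positivity)
  refine ⟨hx, ?_⟩
  set x := 1 - 2 * Lp (fun z => A z z) s with hxd
  set y := 1 - 2 * Lp (fun z => C z z) s with hyd
  have h6 : 2 * (p - q) / (s + 2) ≤ y := by
    have h7 : 2 * (p - q) / (s + 2) = - (2 * ((q - p) / (s + 2))) := by ring
    rw [h7]
    linarith
  have h8 : 0 < 2 * (p - q) / (s + 2) := by
    have : 0 < p - q := by linarith
    positivity
  have h9 : (2 * (p - q) / (s + 2)) ^ 2 ≤ y ^ 2 := pow_le_pow_left₀ h8.le h6 2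
  have h10 : x * (2 * (p - q) / (s + 2)) ^ 2 ≤ s / (s + 2) := by
    rw [← h4]
    exact mul_le_mul_of_nonneg_left h9 hx.le
  have hpq' : 0 < p - q := by linarith
  rw [le_div_iff₀ (by positivity)]
  have h11 : x * (4 * (p - q) ^ 2) = (x * (2 * (p - q) / (s + 2)) ^ 2) * (s + 2) ^ 2 := by
    field_simp
    ring
  rw [h11]
  calc (x * (2 * (p - q) / (s + 2)) ^ 2) * (s + 2) ^ 2 ≤ s / (s + 2) * (s + 2) ^ 2 := by
        exact mul_le_mul_of_nonneg_right h10 (by positivity)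
    _ = s * (s + 2) := by field_simp

end Pool.SM3
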