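/-
SM3.D15 : the bounds for the pair function of colour 1 (index 0).
PROOF. Kf_eq (C5): `k = l + 2 (l * k)` with `l z = LL p 0 0 z z`, `k = Kf p 0`.  Laplace transform (Lp_conv, `|l| ≤ 1`, `0 ≤ k ≤ 1`, measurable):
`κ = λ + 2 λ κ`, i.e. `κ (1 - 2λ) = λ`, `(1 + 2κ)(1 - 2λ) = 1`.  With sys_of_poisson and D14 (`p := p 0`, `q := p 1`):
`p 0 < p 1`: `1 + 2κ ≤ (s+2)/(2 (p 1 - p 0))`, so `κ ≤ (s+2)/(4 (p 1 - p 0))`.
For `T > 0`: `∫_0^T k ≤ e^{sT} Lp k s ≤ e^{sT} (s+2)/(4 (p 1 - p 0))` for all `s > 0`; let `s → 0`.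
`p 1 < p 0`: `1 + 2κ ≥ 4 (p 0 - p 1)²/(s (s+2))`.  If `k z ≤ c` for all `z ≥ Z` (`Z > 0`), then
`s κ ≤ s Z + c`, so `2 (p 0 - p 1)²/(s+2) - s/2 ≤ s Z + c` for all `s > 0`, hence `(p 0 - p 1)² ≤ c`.
-/
import Pool.Agent.Lib.SM3.C5
import Pool.Agent.Lib.SM3.C6
import Pool.Agent.Lib.SM3.D14

set_option autoImplicit false

open MeasureTheory Set

namespace Pool.SM3

private theorem lap_rel {p : Fin 3 → ℝ} (hp : PV p) (hq : p 1 = p 2) {s : ℝ} (hs : 0 < s) :
    (1 + 2 * Lp (Kf p 0) s) * (1 - 2 * Lp (fun z => LL p 0 0 z z) s) = 1 := by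
  have h := sys_of_poisson hp hq
  have hdiag : Measurable (fun z : ℝ => (z, z)) := measurable_id.prodMk measurable_id
  have ml0 := h.mA.comp hdiag
  have ml : Measurable (fun z : ℝ => LL p 0 0 z z) := ml0
  have mk := measurable_Kf p 0
  have bl : ∀ z : ℝ, 0 < z → |LL p 0 0 z z| ≤ 1 := fun z hz => h.bA z z hz
  have bk : ∀ z : ℝ, 0 < z → |Kf p 0 z| ≤ 1 := by
    intro z hz
    obtain ⟨h1, h2⟩ := Kf_bounds hp 0 hz
    rwa [abs_of_nonneg h1]
  have h1 := Lp_sub mk ml hs bk bl
  have h2 : Lp (fun z => Kf p 0 z - LL p 0 0 z z) s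
      = Lp (fun z => 2 * conv (fun z => LL p 0 0 z z) (Kf p 0) z) s := by
    refine Lp_congr (Filter.Eventually.of_forall fun z hz => ?_) s
    rw [Kf_eq hp 0 hz]
    unfold conv
    ring
  rw [h2, Lp_const_mul, Lp_conv ml mk hs bl bk] at h1
  linear_combination (-2) * h1

theorem Kf_integral_le {p : Fin 3 → ℝ} (hp : PV p) (hq : p 1 = p 2) (h : p 0 < p 1) {T : ℝ}
    (hT : 0 < T) : (∫ z in (0:ℝ)..T, Kf p 0 z) ≤ 1 / (2 * (p 1 - p 0)) := by
  have hd : 0 < p 1 - p 0 := by linarith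
  have hsys := sys_of_poisson hp hq
  have mk := measurable_Kf p 0
  have bk : ∀ z : ℝ, 0 < z → |Kf p 0 z| ≤ 1 := by
    intro z hz
    obtain ⟨h1, h2⟩ := Kf_bounds hp 0 hz
    rwa [abs_of_nonneg h1]
  have hkap : ∀ s : ℝ, 0 < s → Lp (Kf p 0) s ≤ (s + 2) / (4 * (p 1 - p 0)) := by
    intro s hs
    have h1 := diag_lt hsys h hs
    have h2 := lap_rel hp hq hs
    have h3 : 0 < 2 * (p 1 - p 0) / (s + 2) := by positivity
    have h4 : 0 ≤ Lp (Kf p 0) s :=
      Lp_nonneg (Filter.Eventually.of_forall fun z hz => (Kf_bounds hp 0 hz).1) s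
    have h5 : (1 + 2 * Lp (Kf p 0) s) * (2 * (p 1 - p 0) / (s + 2)) ≤ 1 := by
      calc (1 + 2 * Lp (Kf p 0) s) * (2 * (p 1 - p 0) / (s + 2)) ≤
          (1 + 2 * Lp (Kf p 0) s) * (1 - 2 * Lp (fun z => LL p 0 0 z z) s) :=
            mul_le_mul_of_nonneg_left h1 (by linarith)
        _ = 1 := h2
    have h6 : (1 + 2 * Lp (Kf p 0) s) * (2 * (p 1 - p 0)) ≤ s + 2 := by
      rw [mul_div_assoc', div_le_one (by linarith)] at h5
      exact h5
    rw [le_div_iff₀ (by positivity)]
    nlinarith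
  have hint : IntervalIntegrable (Kf p 0) volume 0 T := by
    rw [intervalIntegrable_iff_integrableOn_Ioc_of_le hT.le]
    refine Measure.integrableOn_of_bounded (M := 1) measure_Ioc_lt_top.ne
      mk.aestronglyMeasurable ?_
    refine (ae_restrict_iff' measurableSet_Ioc).2 (Filter.Eventually.of_forall fun z hz => ?_)
    rw [Real.norm_eq_abs]
    exact bk z hz.1
  have hkey : ∀ s : ℝ, 0 < s → (∫ z in (0:ℝ)..T, Kf p 0 z) ≤
      Real.exp (s * T) * ((s + 2) / (4 * (p 1 - p 0))) := by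
    intro s hs
    have hcutm : Measurable (fun z => if z < T then Kf p 0 z else 0) :=
      Measurable.ite measurableSet_Iio mk measurable_const
    have hcutb : ∀ z : ℝ, 0 < z → |(fun z => if z < T then Kf p 0 z else 0) z| ≤ 1 := by
      intro z hz
      by_cases hzT : z < T
      · simp only [hzT, if_true]
        exact bk z hz
      · simp [hzT]
    have h1 : Lp (fun z => if z < T then Kf p 0 z else 0) s ≤ Lp (Kf p 0) s := by
      have h2 := Lp_sub mk hcutm hs bk hcutb
      have h3 : 0 ≤ Lp (fun z => Kf p 0 z - (if z < T then Kf p 0 z else 0)) s := by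
        refine Lp_nonneg (Filter.Eventually.of_forall fun z hz => ?_) s
        by_cases hzT : z < T
        · simp [hzT]
        · simp only [hzT, if_false, sub_zero]
          exact (Kf_bounds hp 0 hz).1
      linarith
    rw [Lp_cut _ hT.le] at h1
    have h4 : (∫ z in (0:ℝ)..T, Kf p 0 z) ≤
        ∫ z in (0:ℝ)..T, Real.exp (s * T) * (Real.exp (-(s * z)) * Kf p 0 z) := by
      refine intervalIntegral.integral_mono_on_of_le_Ioo hT.le hint ?_ fun z hz => ?_
      · refine IntervalIntegrable.const_mul ?_ _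
        exact hint.continuousOn_mul (by fun_prop)
      · rw [← mul_assoc, ← Real.exp_add]
        refine le_mul_of_one_le_left (Kf_bounds hp 0 hz.1).1 ?_
        rw [Real.one_le_exp_iff]
        nlinarith [hz.2]
    rw [intervalIntegral.integral_const_mul] at h4
    refine h4.trans (mul_le_mul_of_nonneg_left (h1.trans (hkap s hs)) (Real.exp_pos _).le)
  have hlim : Filter.Tendsto (fun s : ℝ => Real.exp (s * T) * ((s + 2) / (4 * (p 1 - p 0))))
      (nhdsWithin 0 (Ioi 0)) (nhds (1 / (2 * (p 1 - p 0)))) := by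
    have h1 : Continuous (fun s : ℝ => Real.exp (s * T) * ((s + 2) / (4 * (p 1 - p 0)))) := by
      fun_prop
    have h2 := (h1.tendsto 0).mono_left (nhdsWithin_le_nhds (s := Ioi 0))
    have h3 : Real.exp (0 * T) * ((0 + 2) / (4 * (p 1 - p 0))) = 1 / (2 * (p 1 - p 0)) := by
      rw [zero_mul, Real.exp_zero]
      field_simp
      norm_num
    rwa [h3] at h2
  exact ge_of_tendsto hlim (by
    filter_upwards [self_mem_nhdsWithin] with s hs
    exact hkey s hs)

theorem Kf_large {p : Fin 3 → ℝ} (hp : PV p) (hq : p 1 = p 2) (h : p 1 < p 0) (Z : ℝ) :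
    ∃ z, Z ≤ z ∧ 0 < z ∧ (p 0 - p 1) ^ 2 / 2 < Kf p 0 z := by
  by_contra hcon
  push Not at hcon
  set Z1 : ℝ := max Z 1 with hZ1
  have hZ10 : 0 < Z1 := lt_of_lt_of_le one_pos (le_max_right _ _)
  set d : ℝ := (p 0 - p 1) ^ 2 with hd
  have hd0 : 0 < d := by
    have : 0 < p 0 - p 1 := by linarith
    positivity
  have hsys := sys_of_poisson hp hq
  have mk := measurable_Kf p 0
  have bk : ∀ z : ℝ, 0 < z → |Kf p 0 z| ≤ 1 + d := by
    intro z hz
    obtain ⟨h1, h2⟩ := Kf_bounds hp 0 hz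
    rw [abs_of_nonneg h1]
    linarith
  have hbig : ∀ s : ℝ, 0 < s → Lp (Kf p 0) s ≤ Z1 + d / 2 / s := by
    intro s hs
    have hcutm : Measurable (fun z : ℝ => if z < Z1 then (1 : ℝ) else 0) :=
      Measurable.ite measurableSet_Iio measurable_const measurable_const
    have hcutb : ∀ z : ℝ, 0 < z → |(fun z : ℝ => if z < Z1 then (1 : ℝ) else 0) z| ≤ 1 + d := by
      intro z hz
      by_cases hzT : z < Z1
      · simp [hzT, hd0.le]
      · simp only [hzT, if_false, abs_zero]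
        linarith
    have hcb : ∀ z : ℝ, 0 < z → |(fun _ : ℝ => d / 2) z| ≤ 1 + d := by
      intro z _
      change |d / 2| ≤ 1 + d
      rw [abs_of_nonneg (by linarith)]
      linarith
    have h1 := Lp_add hcutm (measurable_const (a := d / 2)) hs hcutb hcb
    have hgm : Measurable (fun z : ℝ => (if z < Z1 then (1 : ℝ) else 0) + d / 2) :=
      hcutm.add measurable_const
    have hgb : ∀ z : ℝ, 0 < z →
        |(fun z : ℝ => (if z < Z1 then (1 : ℝ) else 0) + d / 2) z| ≤ 1 + d := by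
      intro z _
      by_cases hzT : z < Z1
      · simp only [hzT, if_true]
        rw [abs_of_nonneg (by linarith)]
        linarith
      · simp only [hzT, if_false, zero_add]
        rw [abs_of_nonneg (by linarith)]
        linarith
    have h2 := Lp_sub hgm mk hs hgb bk
    have h3 : 0 ≤ Lp (fun z => ((if z < Z1 then (1 : ℝ) else 0) + d / 2) - Kf p 0 z) s := by
      refine Lp_nonneg (Filter.Eventually.of_forall fun z hz => ?_) s
      by_cases hzT : z < Z1
      · simp only [hzT, if_true]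
        have := (Kf_bounds hp 0 hz).2
        linarith
      · simp only [hzT, if_false, zero_add]
        push Not at hzT
        have := hcon z ((le_max_left _ _).trans hzT) hz
        linarith
    have h4 : Lp (fun z : ℝ => if z < Z1 then (1 : ℝ) else 0) s ≤ Z1 := by
      rw [Lp_cut (fun _ => (1 : ℝ)) hZ10.le]
      have h5 := intervalIntegral.norm_integral_le_of_norm_le_const
        (a := (0 : ℝ)) (b := Z1) (C := 1) (f := fun t => Real.exp (-(s * t)) * 1) (by
          intro t ht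
          rw [uIoc_of_le hZ10.le] at ht
          rw [mul_one, Real.norm_eq_abs, Real.abs_exp, Real.exp_le_one_iff]
          nlinarith [ht.1])
      rw [sub_zero, abs_of_pos hZ10, one_mul, Real.norm_eq_abs] at h5
      exact (le_abs_self _).trans h5
    have h6 : Lp (fun _ : ℝ => d / 2) s ≤ d / 2 / s := by
      refine (le_abs_self _).trans (Lp_abs_le hs fun z _ => ?_)
      rw [abs_of_nonneg (by linarith)]
    linarith
  have hmain : ∀ s : ℝ, 0 < s → 4 * d ≤ (s * (1 + 2 * Z1) + d) * (s + 2) := by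
    intro s hs
    obtain ⟨h1, h2⟩ := diag_gt hsys h hs
    have h3 := lap_rel hp hq hs
    have h4 : 0 ≤ Lp (Kf p 0) s :=
      Lp_nonneg (Filter.Eventually.of_forall fun z hz => (Kf_bounds hp 0 hz).1) s
    have h5 : 1 ≤ (1 + 2 * Lp (Kf p 0) s) * (s * (s + 2) / (4 * d)) := by
      calc (1 : ℝ) = (1 + 2 * Lp (Kf p 0) s) * (1 - 2 * Lp (fun z => LL p 0 0 z z) s) := h3.symm
        _ ≤ _ := mul_le_mul_of_nonneg_left h2 (by linarith)
    rw [mul_div_assoc', le_div_iff₀ (by positivity), one_mul] at h5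
    have h6 := hbig s hs
    have h7 : s * Lp (Kf p 0) s ≤ s * Z1 + d / 2 := by
      calc s * Lp (Kf p 0) s ≤ s * (Z1 + d / 2 / s) := mul_le_mul_of_nonneg_left h6 hs.le
        _ = s * Z1 + d / 2 := by field_simp
    calc 4 * d ≤ (1 + 2 * Lp (Kf p 0) s) * (s * (s + 2)) := h5
      _ = (s + 2 * (s * Lp (Kf p 0) s)) * (s + 2) := by ring
      _ ≤ (s + 2 * (s * Z1 + d / 2)) * (s + 2) :=
          mul_le_mul_of_nonneg_right (by linarith) (by linarith)
      _ = _ := by ring
  set W : ℝ := 3 * (1 + 2 * Z1) + d with hW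
  have hW0 : 0 < W := by positivity
  have hs0 : 0 < min 1 (d / W) := by positivity
  have h1 := hmain _ hs0
  set s : ℝ := min 1 (d / W) with hs
  have hs1 : s ≤ 1 := min_le_left _ _
  have hs2 : s * W ≤ d := by
    have : s ≤ d / W := min_le_right _ _
    rwa [le_div_iff₀ hW0] at this
  have h2 : s * s * (1 + 2 * Z1) ≤ s * (1 + 2 * Z1) := by
    have : s * s ≤ s := by nlinarith
    exact mul_le_mul_of_nonneg_right this (by linarith)
  nlinarith

end Pool.SM3
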