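/-
SM3.E1 : almost surely no point has two colours.
PROOF. For `i ≠ j` and `N ∈ ℕ`: the event `E = {ω | ∃ x ∈ S i ω ∩ S j ω, x ∈ Ico (-N) N}` is for every `m ≥ 1` contained in
`⋃_{k < 2Nm} {(S i ω ∩ I_k).ncard ≥ 1} ∩ {(S j ω ∩ I_k).ncard ≥ 1}`, `I_k = Ico (-N + k/m) (-N + (k+1)/m)`.  The two counts are
independent (`Hyp.ind` with `n = 2`, colours `i ≠ j`), each event has probability `1 - e^{-p/m} ≤ p/m`; the union has
probability `≤ 2 N m p_i p_j / m² → 0`.
-/
import Pool.Agent.Lib.SM3.EDefs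

set_option autoImplicit false

open MeasureTheory Set

namespace Pool.SM3

private theorem prob_one_le {p : Fin 3 → ℝ} {Ω : Type} [MeasurableSpace Ω] {P : Measure Ω}
    [IsProbabilityMeasure P] {S : Fin 3 → Ω → Set ℝ} (h : Hyp p P S) (i : Fin 3) {A : Set ℝ}
    (hA : MeasurableSet A) (hb : Bornology.IsBounded A) :
    P {ω | 1 ≤ (S i ω ∩ A).ncard} ≤ ENNReal.ofReal (p i * (volume A).toReal) := by
  have hm : MeasurableSet {ω | (S i ω ∩ A).ncard = 0} :=
    h.meas i A hA hb (measurableSet_singleton 0)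
  have h1 : {ω | 1 ≤ (S i ω ∩ A).ncard} = {ω | (S i ω ∩ A).ncard = 0}ᶜ := by
    ext ω
    simp only [mem_ofPred_eq, mem_compl_iff]
    omega
  rw [h1, prob_compl_eq_one_sub hm, h.law i A hA hb 0]
  set x := p i * (volume A).toReal with hx
  have h2 : Real.exp (-x) * x ^ 0 / (Nat.factorial 0 : ℝ) = Real.exp (-x) := by simp
  rw [h2, ← ENNReal.ofReal_one, ← ENNReal.ofReal_sub _ (Real.exp_pos _).le]
  apply ENNReal.ofReal_le_ofReal
  have := Real.add_one_le_exp (-x)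
  linarith

private theorem prob_both_le {p : Fin 3 → ℝ} {Ω : Type} [MeasurableSpace Ω] {P : Measure Ω}
    [IsProbabilityMeasure P] {S : Fin 3 → Ω → Set ℝ} (h : Hyp p P S) {i j : Fin 3} (hij : i ≠ j)
    {A : Set ℝ} (hA : MeasurableSet A) (hb : Bornology.IsBounded A) :
    P ({ω | 1 ≤ (S i ω ∩ A).ncard} ∩ {ω | 1 ≤ (S j ω ∩ A).ncard}) ≤
      ENNReal.ofReal (p i * (volume A).toReal) * ENNReal.ofReal (p j * (volume A).toReal) := by
  have hI := h.ind 2 ![i, j] ![A, A] (by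
    intro k
    fin_cases k <;> exact ⟨hA, hb⟩) (by
    intro k l hkl hc
    exfalso
    fin_cases k <;> fin_cases l <;> simp_all)
  have hI2 := hI.indepFun (i := 0) (j := 1) (by decide)
  have h3 := hI2.measure_inter_preimage_eq_mul {n : ℕ | 1 ≤ n} {n : ℕ | 1 ≤ n}
    (MeasurableSet.of_discrete) (MeasurableSet.of_discrete)
  have h4 : P ({ω | 1 ≤ (S i ω ∩ A).ncard} ∩ {ω | 1 ≤ (S j ω ∩ A).ncard}) =
      P {ω | 1 ≤ (S i ω ∩ A).ncard} * P {ω | 1 ≤ (S j ω ∩ A).ncard} := h3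
  rw [h4]
  exact mul_le_mul' (prob_one_le h i hA hb) (prob_one_le h j hA hb)

private theorem null_event {p : Fin 3 → ℝ} (hp : PV p) {Ω : Type} [MeasurableSpace Ω]
    {P : Measure Ω} [IsProbabilityMeasure P] {S : Fin 3 → Ω → Set ℝ} (h : Hyp p P S)
    {i j : Fin 3} (hij : i ≠ j) (N : ℕ) :
    P {ω | ∃ x, x ∈ S i ω ∧ x ∈ S j ω ∧ -(N : ℝ) ≤ x ∧ x < N} = 0 := by
  have hbound : ∀ m : ℕ, 1 ≤ m → P {ω | ∃ x, x ∈ S i ω ∧ x ∈ S j ω ∧ -(N : ℝ) ≤ x ∧ x < N} ≤
      ENNReal.ofReal (2 * N * (p i * p j) / m) := by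
    intro m hm
    have hm0 : (0 : ℝ) < m := by exact_mod_cast hm
    let I : ℕ → Set ℝ := fun k => Ico (-(N : ℝ) + k / m) (-(N : ℝ) + (k + 1) / m)
    have hIm : ∀ k, MeasurableSet (I k) := fun k => measurableSet_Ico
    have hIb : ∀ k, Bornology.IsBounded (I k) := fun k => Metric.isBounded_Ico _ _
    have hIv : ∀ k, (volume (I k)).toReal = 1 / m := by
      intro k
      simp only [I, Real.volume_Ico]
      rw [show -(N : ℝ) + (k + 1) / m - (-(N : ℝ) + k / m) = 1 / m by ring]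
      rw [ENNReal.toReal_ofReal (by positivity)]
    have hsub : {ω | ∃ x, x ∈ S i ω ∧ x ∈ S j ω ∧ -(N : ℝ) ≤ x ∧ x < N} ⊆
        ⋃ k ∈ Finset.range (2 * N * m),
          ({ω | 1 ≤ (S i ω ∩ I k).ncard} ∩ {ω | 1 ≤ (S j ω ∩ I k).ncard}) := by
      rintro ω ⟨x, hx1, hx2, hx3, hx4⟩
      have hxN : 0 ≤ (x + N) * m := mul_nonneg (by linarith) hm0.le
      have hk1 : ((⌊(x + N) * m⌋₊ : ℕ) : ℝ) ≤ (x + N) * m := Nat.floor_le hxN
      have hk2 : (x + N) * m < (⌊(x + N) * m⌋₊ : ℕ) + 1 := Nat.lt_floor_add_one _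
      have hxI : x ∈ I ⌊(x + N) * m⌋₊ := by
        constructor
        · have : ((⌊(x + N) * m⌋₊ : ℕ) : ℝ) / m ≤ x + N := by
            rw [div_le_iff₀ hm0]; exact hk1
          linarith
        · have : x + N < (((⌊(x + N) * m⌋₊ : ℕ) : ℝ) + 1) / m := by
            rw [lt_div_iff₀ hm0]; exact hk2
          linarith
      have hkr : ⌊(x + N) * m⌋₊ ∈ Finset.range (2 * N * m) := by
        rw [Finset.mem_range, Nat.floor_lt hxN]
        push_cast
        have : x + N < 2 * N := by linarith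
        nlinarith
      have hcard : ∀ l : Fin 3, x ∈ S l ω → 1 ≤ (S l ω ∩ I ⌊(x + N) * m⌋₊).ncard := by
        intro l hl
        have hne : (S l ω ∩ I ⌊(x + N) * m⌋₊).Nonempty := ⟨x, hl, hxI⟩
        have := (Set.ncard_pos (h.fin l ω _ (hIb _))).2 hne
        omega
      simp only [mem_iUnion]
      exact ⟨_, hkr, hcard i hx1, hcard j hx2⟩
    refine (measure_mono hsub).trans ((measure_biUnion_finset_le _ _).trans ?_)
    have hle : ∀ k ∈ Finset.range (2 * N * m),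
        P ({ω | 1 ≤ (S i ω ∩ I k).ncard} ∩ {ω | 1 ≤ (S j ω ∩ I k).ncard}) ≤
          ENNReal.ofReal (p i * (1 / m)) * ENNReal.ofReal (p j * (1 / m)) := by
      intro k _
      have := prob_both_le h hij (hIm k) (hIb k)
      rw [hIv k] at this
      exact this
    refine (Finset.sum_le_sum hle).trans ?_
    have hpi := hp.pos i
    have hpj := hp.pos j
    rw [Finset.sum_const, Finset.card_range, nsmul_eq_mul, ← ENNReal.ofReal_mul (by positivity),
      ← ENNReal.ofReal_natCast, ← ENNReal.ofReal_mul (by positivity)]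
    apply ENNReal.ofReal_le_ofReal
    apply le_of_eq
    push_cast
    field_simp
  have htend : Filter.Tendsto (fun m : ℕ => ENNReal.ofReal (2 * N * (p i * p j) / m))
      Filter.atTop (nhds 0) := by
    have := ENNReal.tendsto_ofReal (tendsto_const_div_atTop_nhds_zero_nat (2 * N * (p i * p j)))
    rwa [ENNReal.ofReal_zero] at this
  refine le_antisymm (ge_of_tendsto htend ?_) zero_le
  filter_upwards [Filter.eventually_ge_atTop 1] with m hm using hbound m hm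

theorem ae_disjoint {p : Fin 3 → ℝ} (hp : PV p) {Ω : Type} [MeasurableSpace Ω] {P : Measure Ω}
    [IsProbabilityMeasure P] {S : Fin 3 → Ω → Set ℝ} (h : Hyp p P S) :
    ∀ᵐ ω ∂P, ∀ i j : Fin 3, i ≠ j → Disjoint (S i ω) (S j ω) := by
  have h1 : ∀ᵐ ω ∂P, ∀ i j : Fin 3, i ≠ j → ∀ N : ℕ,
      ¬ ∃ x, x ∈ S i ω ∧ x ∈ S j ω ∧ -(N : ℝ) ≤ x ∧ x < N := by
    rw [ae_all_iff]
    intro i
    rw [ae_all_iff]
    intro j
    rw [ae_all_iff]
    intro hij
    rw [ae_all_iff]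
    intro N
    rw [ae_iff]
    simp only [not_not]
    exact null_event hp h hij N
  filter_upwards [h1] with ω hω i j hij
  rw [Set.disjoint_left]
  intro x hx1 hx2
  obtain ⟨N, hN⟩ := exists_nat_gt |x|
  have h2 := abs_lt.1 hN
  exact hω i j hij N ⟨x, hx1, hx2, h2.1.le, h2.2⟩

end Pool.SM3
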