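/-
SM3.EDefs : definitions for the full line.
-/
import Pool.Agent.Lib.SM3.Defs

set_option autoImplicit false

open MeasureTheory Set

namespace Pool.SM3

/-- the hypotheses: three independent Poisson processes on the line with intensities `p 0, p 1, p 2`
(in the format of the frozen statement) -/
structure Hyp (p : Fin 3 → ℝ) {Ω : Type} [MeasurableSpace Ω] (P : Measure Ω)
    (S : Fin 3 → Ω → Set ℝ) : Prop where
  fin : ∀ (i : Fin 3) (ω : Ω) (A : Set ℝ), Bornology.IsBounded A → (S i ω ∩ A).Finite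
  meas : ∀ (i : Fin 3) (A : Set ℝ), MeasurableSet A → Bornology.IsBounded A →
    Measurable (fun ω => (S i ω ∩ A).ncard)
  law : ∀ (i : Fin 3) (A : Set ℝ), MeasurableSet A → Bornology.IsBounded A → ∀ k : ℕ,
    P {ω | (S i ω ∩ A).ncard = k} =
      ENNReal.ofReal (Real.exp (-(p i * (volume A).toReal)) *
        (p i * (volume A).toReal) ^ k / (k.factorial : ℝ))
  ind : ∀ (n : ℕ) (c : Fin n → Fin 3) (A : Fin n → Set ℝ),
    (∀ j, MeasurableSet (A j) ∧ Bornology.IsBounded (A j)) →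
    (∀ j k, j ≠ k → c j = c k → Disjoint (A j) (A k)) →
    ProbabilityTheory.iIndepFun (fun j ω => (S (c j) ω ∩ A j).ncard) P

/-- the coloured point set -/
def SS {Ω : Type} (S : Fin 3 → Ω → Set ℝ) (ω : Ω) : Set Pt := {y | y.1 ∈ S y.2 ω}

/-- `l` is the sorted list of the points of `Y` in `(u,w)` -/
def IsConf (Y : Set Pt) (u w : ℝ) (l : List Pt) : Prop :=
  l.Pairwise (fun x y => x.1 < y.1) ∧ ∀ y, y ∈ l ↔ y ∈ Win Y u w

/-- no pair of points of `Y` at distance `< r` is separated by `c` (for `r > 0`: also `c` is not a point) -/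
def Cut (Y : Set Pt) (r c : ℝ) : Prop := ∀ x ∈ Y, ∀ y ∈ Y, x.1 ≤ c → c ≤ y.1 → r ≤ y.1 - x.1

/-- the matching on the line -/
def MS (Y : Set Pt) (x y : Pt) : Prop :=
  ∃ N : ℕ, ∀ n : ℕ, N ≤ n → Mt (Win Y (-(n : ℝ)) n) x y

/-- typical configurations on the line -/
structure Good (Y : Set Pt) : Prop where
  noIso : NoIso Y
  fin : ∀ u w : ℝ, (Win Y u w).Finite
  right : ∀ r t : ℝ, ∃ c, t < c ∧ Cut Y r c
  left : ∀ r t : ℝ, ∃ c, c < t ∧ Cut Y r c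

/-- stable matchings of three sets of reals, as in the frozen statement -/
def Stable (T : Fin 3 → Set ℝ) (M : ℝ → ℝ → Prop) : Prop :=
  (∀ x y, M x y → M y x) ∧
  (∀ x y, M x y → x ≠ y ∧ ∃ i j : Fin 3, i ≠ j ∧ x ∈ T i ∧ y ∈ T j) ∧
  (∀ x y z, M x y → M x z → y = z) ∧
  (∀ x y, x ≠ y → (∃ i j : Fin 3, i ≠ j ∧ x ∈ T i ∧ y ∈ T j) →
    ¬ ((∀ z, M x z → dist x y < dist x z) ∧ (∀ z, M y z → dist x y < dist y z)))

/-- window event: some point of colour `a` in `(j,j+1)` is free at level `r` in the window of half width `r m` -/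
def Ev (a : Fin 3) (j : ℤ) (r m : ℕ) (Y : Set Pt) : Prop :=
  ∃ x ∈ Y, x.2 = a ∧ (j : ℝ) < x.1 ∧ x.1 < j + 1 ∧
    Fr (Win Y ((j : ℝ) - r * m) (j + 1 + r * m)) r x

/-- its probability -/
noncomputable def al (p : Fin 3 → ℝ) (a : Fin 3) (r m : ℕ) : ℝ :=
  (Pm p (-((r : ℝ) * m)) (1 + (r : ℝ) * m)).real
    {l | ∃ x ∈ l, x.2 = a ∧ 0 < x.1 ∧ x.1 < 1 ∧ Fr {y | y ∈ l} r x}

/-- some point of colour `a` in `(j,j+1)` has no partner at distance `< r` on the line -/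
def UEr (a : Fin 3) (j : ℤ) (r : ℕ) (Y : Set Pt) : Prop :=
  ∃ x ∈ Y, x.2 = a ∧ (j : ℝ) < x.1 ∧ x.1 < j + 1 ∧ ∀ y, MS Y x y → (r : ℝ) ≤ |x.1 - y.1|

/-- some point of colour `a` in `(j,j+1)` is unmatched -/
def UE (a : Fin 3) (j : ℤ) (Y : Set Pt) : Prop :=
  ∃ x ∈ Y, x.2 = a ∧ (j : ℝ) < x.1 ∧ x.1 < j + 1 ∧ ∀ y, ¬ MS Y x y

/-- every grid interval of length `r` in `(t, t + m r)` contains a point -/
def Full (t : ℝ) (r m : ℕ) (Y : Set Pt) : Prop :=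
  ∀ i : ℕ, i < m → ∃ y ∈ Y, t + i * r < y.1 ∧ y.1 < t + (i + 1) * r

/-- one-sided probabilities: the end `0` of `[0,s]` (no point at `s`) is free at level `r` -/
noncomputable def rhoP (p : Fin 3 → ℝ) (a : Fin 3) (r s : ℝ) : ℝ :=
  (Pm p 0 s).real {l | Fr {y | y ∈ ((0 : ℝ), a) :: l} r (0, a)}

/-- the end `s` of `[0,s]` is free at level `r` -/
noncomputable def rhoM (p : Fin 3 → ℝ) (a : Fin 3) (r s : ℝ) : ℝ :=
  (Pm p 0 s).real {l | Fr {y | y ∈ (s, a) :: l} r (s, a)}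

/-- admissible boxes of sorted tuples -/
def Boxes (n : ℕ) (u w : ℝ) : Set (Set (Fin n → Pt)) :=
  {B | ∃ (γ : Fin n → Fin 3) (α β : Fin n → ℝ), (∀ i, u ≤ α i ∧ α i < β i ∧ β i ≤ w) ∧
    (∀ i j, i < j → β i ≤ α j) ∧ B = {v | ∀ i, α i < (v i).1 ∧ (v i).1 < β i ∧ (v i).2 = γ i}}

end Pool.SM3
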