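/-
SM3.E2 : probability that the points are in given boxes.
PROOF. `J i = Ioo (α i) (β i)` are disjoint subintervals of `(u,w)`, `R c = Ioo u w \ ⋃_{γ i = c} J i`.  If the total count on `(u,w)` is `n` and every
`S (γ i) ∩ J i` has exactly one point, then the counts `S c ∩ R c` are 0, and conversely.  These `n + 3` counts
are independent, with probabilities `e^{-p|J|} p |J|` and `e^{-p_c |R c|}`; the product is `e^{-(w-u)} ∏ p (γ i) (β i - α i)`.
-/
import Pool.Agent.Lib.SM3.EDefs

set_option autoImplicit false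

open MeasureTheory Set

namespace Pool.SM3

private theorem ncard_inter_biUnion {ι : Type*} [DecidableEq ι] {T : Set ℝ} (J : ι → Set ℝ)
    (F : Finset ι) (hT : ∀ i ∈ F, (T ∩ J i).Finite)
    (hd : ∀ i ∈ F, ∀ k ∈ F, i ≠ k → Disjoint (J i) (J k)) :
    (T ∩ ⋃ i ∈ F, J i).ncard = ∑ i ∈ F, (T ∩ J i).ncard := by
  classical
  induction F using Finset.induction_on with
  | empty => simp
  | insert a F ha ih =>
    rw [Finset.sum_insert ha, Finset.set_biUnion_insert, inter_union_distrib_left,
      Set.ncard_union_eq ?_ (hT a (Finset.mem_insert_self a F)) ?_, ih]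
    · intro i hi
      exact hT i (Finset.mem_insert_of_mem hi)
    · intro i hi k hk hik
      exact hd i (Finset.mem_insert_of_mem hi) k (Finset.mem_insert_of_mem hk) hik
    · rw [Set.disjoint_left]
      rintro x ⟨_, hx⟩ ⟨_, hx'⟩
      simp only [mem_iUnion] at hx'
      obtain ⟨i, hi, hxi⟩ := hx'
      refine Set.disjoint_left.1 (hd a (Finset.mem_insert_self a F) i
        (Finset.mem_insert_of_mem hi) ?_) hx hxi
      rintro rfl
      exact ha hi
    · have : (T ∩ ⋃ i ∈ F, J i) = ⋃ i ∈ F, (T ∩ J i) := by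
        simp only [inter_iUnion]
      rw [this]
      exact Set.Finite.biUnion F.finite_toSet (fun i hi => hT i (Finset.mem_insert_of_mem hi))

theorem box_prob {p : Fin 3 → ℝ} (hp : PV p) {Ω : Type} [MeasurableSpace Ω] {P : Measure Ω}
    [IsProbabilityMeasure P] {S : Fin 3 → Ω → Set ℝ} (h : Hyp p P S) {u w : ℝ} (huw : u < w)
    (n : ℕ) (γ : Fin n → Fin 3) (α β : Fin n → ℝ) (h1 : ∀ i, u ≤ α i ∧ α i < β i ∧ β i ≤ w)
    (h2 : ∀ i j, i < j → β i ≤ α j) :
    P {ω | (∀ i, (S (γ i) ω ∩ Ioo (α i) (β i)).ncard = 1) ∧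
        ∑ c : Fin 3, (S c ω ∩ Ioo u w).ncard = n}
      = ENNReal.ofReal (Real.exp (-(w - u)) * ∏ i, (p (γ i) * (β i - α i))) := by
  classical
  set J : Fin n → Set ℝ := fun i => Ioo (α i) (β i) with hJ
  set F : Fin 3 → Finset (Fin n) := fun c => Finset.univ.filter (fun i => γ i = c) with hF
  set R : Fin 3 → Set ℝ := fun c => Ioo u w \ ⋃ i ∈ F c, J i with hR
  have hJsub : ∀ i, J i ⊆ Ioo u w := fun i x hx =>
    ⟨lt_of_le_of_lt (h1 i).1 hx.1, lt_of_lt_of_le hx.2 (h1 i).2.2⟩
  have hJd : ∀ i k, i ≠ k → Disjoint (J i) (J k) := by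
    intro i k hik
    rw [Set.disjoint_left]
    intro x hx hx'
    rcases lt_or_gt_of_ne hik with hlt | hlt
    · have := h2 i k hlt
      exact absurd (lt_of_lt_of_le (lt_of_lt_of_le hx.2 this) (le_of_lt hx'.1)) (lt_irrefl _)
    · have := h2 k i hlt
      exact absurd (lt_of_lt_of_le (lt_of_lt_of_le hx'.2 this) (le_of_lt hx.1)) (lt_irrefl _)
  have hJm : ∀ i, MeasurableSet (J i) := fun i => measurableSet_Ioo
  have hRm : ∀ c, MeasurableSet (R c) := fun c =>
    measurableSet_Ioo.diff (Finset.measurableSet_biUnion _ (fun i _ => hJm i))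
  have hRsub : ∀ c, R c ⊆ Ioo u w := fun c => sdiff_subset
  have hbd : Bornology.IsBounded (Ioo u w) := Metric.isBounded_Ioo u w
  -- the counting identity
  have hcount : ∀ (c : Fin 3) (ω : Ω), (S c ω ∩ Ioo u w).ncard
      = (S c ω ∩ R c).ncard + ∑ i ∈ F c, (S c ω ∩ J i).ncard := by
    intro c ω
    have hfin : (S c ω ∩ Ioo u w).Finite := h.fin c ω _ hbd
    rw [← ncard_inter_biUnion J (F c) (fun i _ => hfin.subset (inter_subset_inter_right _ (hJsub i)))
      (fun i _ k _ hik => hJd i k hik)]
    rw [← Set.ncard_union_eq ?_ (hfin.subset (inter_subset_inter_right _ (hRsub c)))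
      (hfin.subset (inter_subset_inter_right _ (iUnion₂_subset (fun i _ => hJsub i))))]
    · congr 1
      rw [← inter_union_distrib_left, hR]
      congr 1
      rw [sdiff_union_of_subset]
      exact iUnion₂_subset (fun i _ => hJsub i)
    · rw [Set.disjoint_left]
      rintro x ⟨_, hx⟩ ⟨_, hx'⟩
      exact hx.2 hx'
  -- combined family
  let cc : Fin (n + 3) → Fin 3 := Fin.append γ id
  let AA : Fin (n + 3) → Set ℝ := Fin.append J R
  let vv : Fin (n + 3) → ℕ := Fin.append (fun _ => 1) (fun _ => 0)
  have hAA : ∀ j, MeasurableSet (AA j) ∧ Bornology.IsBounded (AA j) := by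
    intro j
    refine Fin.addCases (fun i => ?_) (fun c => ?_) j
    · simp only [AA, Fin.append_left]
      exact ⟨hJm i, hbd.subset (hJsub i)⟩
    · simp only [AA, Fin.append_right]
      exact ⟨hRm c, hbd.subset (hRsub c)⟩
  have hdis : ∀ j k, j ≠ k → cc j = cc k → Disjoint (AA j) (AA k) := by
    intro j k
    refine Fin.addCases (fun i => ?_) (fun c => ?_) j <;>
      refine Fin.addCases (fun i' => ?_) (fun c' => ?_) k
    · intro hne _
      simp only [AA, Fin.append_left]
      exact hJd i i' (fun hh => hne (by rw [hh]))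
    · intro _ hc
      simp only [AA, cc, Fin.append_left, Fin.append_right, id] at hc ⊢
      rw [Set.disjoint_left]
      intro x hx hx'
      refine hx'.2 ?_
      simp only [mem_iUnion]
      exact ⟨i, by simp [hF, hc], hx⟩
    · intro _ hc
      simp only [AA, cc, Fin.append_left, Fin.append_right, id] at hc ⊢
      rw [Set.disjoint_right]
      intro x hx hx'
      refine hx'.2 ?_
      simp only [mem_iUnion]
      exact ⟨i', by simp [hF, hc], hx⟩
    · intro hne hc
      simp only [cc, Fin.append_right, id] at hc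
      exact absurd (by rw [hc]) hne
  have hind := h.ind (n + 3) cc AA hAA hdis
  have hset : {ω | (∀ i, (S (γ i) ω ∩ Ioo (α i) (β i)).ncard = 1) ∧
        ∑ c : Fin 3, (S c ω ∩ Ioo u w).ncard = n}
      = ⋂ j, {ω | (S (cc j) ω ∩ AA j).ncard = vv j} := by
    ext ω
    simp only [mem_ofPred_eq, mem_iInter]
    have hsumJ : (∀ i, (S (γ i) ω ∩ J i).ncard = 1) →
        ∑ c : Fin 3, ∑ i ∈ F c, (S c ω ∩ J i).ncard = n := by
      intro hone
      have : ∀ c : Fin 3, ∑ i ∈ F c, (S c ω ∩ J i).ncard = (F c).card := by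
        intro c
        rw [Finset.card_eq_sum_ones]
        refine Finset.sum_congr rfl (fun i hi => ?_)
        have : γ i = c := by simpa [hF] using hi
        rw [← this]
        exact hone i
      simp only [this]
      rw [hF, ← Finset.card_eq_sum_card_fiberwise (f := γ) (s := Finset.univ)
        (t := (Finset.univ : Finset (Fin 3))) (by intro x _; simp)]
      simp
    constructor
    · rintro ⟨hone, htot⟩ j
      simp only [hcount, Finset.sum_add_distrib] at htot
      rw [hsumJ hone] at htot
      have hz : ∑ c : Fin 3, (S c ω ∩ R c).ncard = 0 := by omega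
      refine Fin.addCases (fun i => ?_) (fun c => ?_) j
      · simp only [AA, cc, vv, Fin.append_left]
        exact hone i
      · simp only [AA, cc, vv, Fin.append_right, id]
        exact (Finset.sum_eq_zero_iff.1 hz) c (Finset.mem_univ c)
    · intro hall
      have hone : ∀ i, (S (γ i) ω ∩ J i).ncard = 1 := by
        intro i
        have := hall (Fin.castAdd 3 i)
        simpa only [AA, cc, vv, Fin.append_left] using this
      refine ⟨hone, ?_⟩
      simp only [hcount, Finset.sum_add_distrib]
      rw [hsumJ hone]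
      have hz : ∑ c : Fin 3, (S c ω ∩ R c).ncard = 0 := by
        refine Finset.sum_eq_zero (fun c _ => ?_)
        have := hall (Fin.natAdd n c)
        simpa only [AA, cc, vv, Fin.append_right, id] using this
      omega
  rw [hset, hind.meas_iInter]
  · rw [Fin.prod_univ_add]
    simp only [AA, cc, vv, Fin.append_left, Fin.append_right, id]
    have hpJ : ∀ i, P {ω | (S (γ i) ω ∩ J i).ncard = 1}
        = ENNReal.ofReal (Real.exp (-(p (γ i) * (β i - α i))) * (p (γ i) * (β i - α i))) := by
      intro i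
      rw [h.law (γ i) (J i) (hJm i) (hbd.subset (hJsub i)) 1]
      simp only [hJ, Real.volume_Ioo]
      rw [ENNReal.toReal_ofReal (by linarith [(h1 i).2.1])]
      simp
    have hvolR : ∀ c, (volume (R c)).toReal = (w - u) - ∑ i ∈ F c, (β i - α i) := by
      intro c
      have hsub : (⋃ i ∈ F c, J i) ⊆ Ioo u w := iUnion₂_subset (fun i _ => hJsub i)
      have hU : volume (⋃ i ∈ F c, J i) = ENNReal.ofReal (∑ i ∈ F c, (β i - α i)) := by
        rw [measure_biUnion_finset (fun i _ k _ hik => hJd i k hik) (fun i _ => hJm i)]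
        rw [ENNReal.ofReal_sum_of_nonneg (fun i _ => by linarith [(h1 i).2.1])]
        refine Finset.sum_congr rfl (fun i _ => ?_)
        simp [hJ, Real.volume_Ioo]
      have hnn : 0 ≤ ∑ i ∈ F c, (β i - α i) :=
        Finset.sum_nonneg (fun i _ => by linarith [(h1 i).2.1])
      rw [hR]
      simp only
      rw [measure_sdiff hsub
        (Finset.measurableSet_biUnion _ (fun i _ => hJm i)).nullMeasurableSet
        (by rw [hU]; exact ENNReal.ofReal_ne_top), hU, Real.volume_Ioo]
      rw [← ENNReal.ofReal_sub _ hnn, ENNReal.toReal_ofReal]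
      have : ENNReal.ofReal (∑ i ∈ F c, (β i - α i)) ≤ ENNReal.ofReal (w - u) := by
        rw [← hU, ← Real.volume_Ioo]
        exact measure_mono hsub
      rw [ENNReal.ofReal_le_ofReal_iff (by linarith)] at this
      linarith
    have hpR : ∀ c, P {ω | (S c ω ∩ R c).ncard = 0}
        = ENNReal.ofReal (Real.exp (-(p c * ((w - u) - ∑ i ∈ F c, (β i - α i))))) := by
      intro c
      rw [h.law c (R c) (hRm c) (hbd.subset (hRsub c)) 0, hvolR c]
      simp
    simp only [hpJ, hpR]
    rw [← ENNReal.ofReal_prod_of_nonneg, ← ENNReal.ofReal_prod_of_nonneg, ← ENNReal.ofReal_mul]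
    · congr 1
      rw [Finset.prod_mul_distrib, ← Real.exp_sum, ← Real.exp_sum, mul_right_comm, ← Real.exp_add]
      congr 2
      have e1 : ∑ c : Fin 3, -(p c * ((w - u) - ∑ i ∈ F c, (β i - α i)))
          = -((p 0 + p 1 + p 2) * (w - u)) + ∑ c : Fin 3, ∑ i ∈ F c, p c * (β i - α i) := by
        simp only [Fin.sum_univ_three, Finset.mul_sum, mul_sub]
        ring
      have e2 : ∑ c : Fin 3, ∑ i ∈ F c, p c * (β i - α i) = ∑ i, p (γ i) * (β i - α i) := by
        rw [← Finset.sum_fiberwise_of_maps_to (s := Finset.univ) (t := (Finset.univ : Finset (Fin 3)))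
          (g := γ) (fun x _ => Finset.mem_univ _) (fun i => p (γ i) * (β i - α i))]
        refine Finset.sum_congr rfl (fun c _ => ?_)
        refine Finset.sum_congr rfl (fun i hi => ?_)
        have : γ i = c := by simpa using hi
        rw [this]
      rw [e1, e2, hp.sum, Finset.sum_neg_distrib]
      ring
    · exact Finset.prod_nonneg (fun i _ => mul_nonneg (Real.exp_pos _).le
        (mul_nonneg (hp.pos _).le (by linarith [(h1 i).2.1])))
    · intro c _
      exact (Real.exp_pos _).le
    · intro i _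
      exact mul_nonneg (Real.exp_pos _).le
        (mul_nonneg (hp.pos _).le (by linarith [(h1 i).2.1]))
  · intro j
    exact ⟨{vv j}, measurableSet_singleton _, rfl⟩

end Pool.SM3
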