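/-
SM3.E3a : sorted configurations: uniqueness and existence.
PROOF. `isConf_unique`: two strictly sorted lists with the same elements are equal (nodup, permutation: `List.Perm.eq_of_pairwise` /
`List.eq_of_perm_of_sorted`).
`isConf_exists`: `Win Y u w` is finite with distinct positions: sort the finite set (e.g. `Finset.sort` of the positions, attach the colour;
or induction on the cardinality, or `exists_list` + `List.insertionSort` by the first coordinate).
-/
import Pool.Agent.Lib.SM3.EDefs

set_option autoImplicit false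

open MeasureTheory Set

namespace Pool.SM3

theorem isConf_unique {Y : Set Pt} {u w : ℝ} {l l' : List Pt} (h : IsConf Y u w l)
    (h' : IsConf Y u w l') : l = l' := by
  have hn : ∀ {l : List Pt}, l.Pairwise (fun x y => x.1 < y.1) → l.Nodup := fun hl =>
    hl.imp fun hxy => by
      rintro rfl
      exact lt_irrefl _ hxy
  have hp : l.Perm l' := (List.perm_ext_iff_of_nodup (hn h.1) (hn h'.1)).2 fun a => by
    rw [h.2, h'.2]
  exact hp.eq_of_pairwise (fun a b _ _ h1 h2 => absurd h1 (not_lt.2 h2.le)) h.1 h'.1

theorem isConf_exists {Y : Set Pt} {u w : ℝ} (hf : (Win Y u w).Finite) (hi : PosInj (Win Y u w)) :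
    ∃ l, IsConf Y u w l := by
  classical
  haveI : Std.Total (fun x y : Pt => x.1 ≤ y.1) := ⟨fun x y => le_total x.1 y.1⟩
  haveI : IsTrans Pt (fun x y : Pt => x.1 ≤ y.1) := ⟨fun x y z h h' => le_trans h h'⟩
  have hp := List.perm_insertionSort (fun x y : Pt => x.1 ≤ y.1) hf.toFinset.toList
  have hs := List.pairwise_insertionSort (fun x y : Pt => x.1 ≤ y.1) hf.toFinset.toList
  have hnd : (List.insertionSort (fun x y : Pt => x.1 ≤ y.1) hf.toFinset.toList).Nodup :=
    hp.nodup_iff.2 (Finset.nodup_toList _)
  have hm : ∀ y, y ∈ List.insertionSort (fun x y : Pt => x.1 ≤ y.1) hf.toFinset.toList ↔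
      y ∈ Win Y u w := by
    intro y
    rw [hp.mem_iff, Finset.mem_toList, Set.Finite.mem_toFinset]
  refine ⟨_, ?_, hm⟩
  refine (hs.and hnd).imp_of_mem ?_
  intro a b ha hb hab
  exact lt_of_le_of_ne hab.1 fun h => hab.2 (hi a ((hm a).1 ha) b ((hm b).1 hb) h)

end Pool.SM3
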