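/-
SM3.E3b : the boxes generate the trace sigma-algebra on sorted tuples.
PROOF. The class of sets `A` with `A ∩ SortedIn n u w` `m`-measurable is closed under complements (`hs`) and countable unions, so it is enough to treat open
sets `U` (Borel sigma-algebra of `Fin n → Pt`, a second countable space: `BorelSpace`; `borel_eq_generateFrom`..).  Each `v ∈ U ∩ SortedIn n u w` lies in a box with RATIONAL
`α i, β i` contained in `U`: positions are strictly increasing in `(u,w)`, choose rational `u < α i < (v i).1 < β i < w` close to `(v i).1` with `β i < α j` for `i < j` and such that the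
box is contained in `U`.  There are countably many rational boxes, all contained in `SortedIn n u w`, so `U ∩ SortedIn` is a countable union of elements of `Boxes n u w`.
Also useful (second statement): `SortedIn n u w` itself is the union of a countable family of boxes.
-/
import Pool.Agent.Lib.SM3.EDefs

set_option autoImplicit false

open MeasureTheory Set

namespace Pool.SM3

/-- the box with data `γ, a, b` (rational) -/
private def RB {n : ℕ} (q : (Fin n → Fin 3) × (Fin n → ℚ) × (Fin n → ℚ)) : Set (Fin n → Pt) :=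
  {v | ∀ i, (q.2.1 i : ℝ) < (v i).1 ∧ (v i).1 < (q.2.2 i : ℝ) ∧ (v i).2 = q.1 i}

theorem E3b_subset_sorted {n : ℕ} {u w : ℝ} {B : Set (Fin n → Pt)} (h : B ∈ Boxes n u w) :
    B ⊆ SortedIn n u w := by
  obtain ⟨γ, α, β, h1, h2, rfl⟩ := h
  intro v hv
  refine ⟨fun i => ⟨(h1 i).1.trans_lt (hv i).1, (hv i).2.1.trans_le (h1 i).2.2⟩, ?_⟩
  intro i j hij
  exact ((hv i).2.1.trans_le (h2 i j hij)).trans (hv j).1

private theorem key (n : ℕ) (u w : ℝ) {U : Set (Fin n → Pt)} (hU : IsOpen U) {v : Fin n → Pt}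
    (hv : v ∈ U) (hs : v ∈ SortedIn n u w) :
    ∃ q : (Fin n → Fin 3) × (Fin n → ℚ) × (Fin n → ℚ), v ∈ RB q ∧ RB q ∈ Boxes n u w ∧ RB q ⊆ U := by
  obtain ⟨hs1, hs2⟩ := hs
  obtain ⟨I, V, hV, hVU⟩ := isOpen_pi_iff.1 hU v hv
  have e1 : ∀ᶠ δ in nhdsWithin (0 : ℝ) (Ioi 0), ∀ i : Fin n, u + δ < (v i).1 ∧ (v i).1 + δ < w := by
    rw [Filter.eventually_all]
    intro i
    have h1 : 0 < min ((v i).1 - u) (w - (v i).1) := lt_min (by linarith [(hs1 i).1]) (by linarith [(hs1 i).2])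
    filter_upwards [Ioo_mem_nhdsGT h1] with δ hδ
    have := lt_min_iff.1 hδ.2
    constructor <;> linarith [this.1, this.2]
  have e2 : ∀ᶠ δ in nhdsWithin (0 : ℝ) (Ioi 0), ∀ i j : Fin n, i < j → (v i).1 + δ < (v j).1 - δ := by
    rw [Filter.eventually_all]
    intro i
    rw [Filter.eventually_all]
    intro j
    by_cases hij : i < j
    · have h0 : (v i).1 < (v j).1 := hs2 hij
      have h1 : 0 < ((v j).1 - (v i).1) / 2 := by linarith
      filter_upwards [Ioo_mem_nhdsGT h1] with δ hδ _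
      linarith [hδ.2]
    · filter_upwards with δ h
      exact absurd h hij
  have e3 : ∀ᶠ δ in nhdsWithin (0 : ℝ) (Ioi 0), ∀ i : Fin n, i ∈ I → ∀ x : ℝ,
      (v i).1 - δ < x → x < (v i).1 + δ → (x, (v i).2) ∈ V i := by
    rw [Filter.eventually_all]
    intro i
    by_cases hi : i ∈ I
    · obtain ⟨hVo, hVm⟩ := hV i hi
      have hc : Continuous (fun x : ℝ => ((x, (v i).2) : Pt)) := by fun_prop
      have ho : IsOpen ((fun x : ℝ => ((x, (v i).2) : Pt)) ⁻¹' V i) := hVo.preimage hc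
      have hm : (v i).1 ∈ ((fun x : ℝ => ((x, (v i).2) : Pt)) ⁻¹' V i) := hVm
      obtain ⟨ε, hε, hb⟩ := Metric.isOpen_iff.1 ho _ hm
      filter_upwards [Ioo_mem_nhdsGT hε] with δ hδ _ x hx1 hx2
      apply hb
      rw [Metric.mem_ball, Real.dist_eq, abs_lt]
      constructor <;> linarith [hδ.2]
    · filter_upwards with δ h
      exact absurd h hi
  have e4 : ∀ᶠ δ in nhdsWithin (0 : ℝ) (Ioi 0), (0 : ℝ) < δ := self_mem_nhdsWithin
  obtain ⟨δ, h1, h2, h3, h4⟩ := (e1.and (e2.and (e3.and e4))).exists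
  have hα : ∀ i, ∃ a : ℚ, (v i).1 - δ < a ∧ (a : ℝ) < (v i).1 := fun i =>
    exists_rat_btwn (by linarith)
  have hβ : ∀ i, ∃ b : ℚ, (v i).1 < b ∧ (b : ℝ) < (v i).1 + δ := fun i =>
    exists_rat_btwn (by linarith)
  choose a ha1 ha2 using hα
  choose b hb1 hb2 using hβ
  refine ⟨(fun i => (v i).2, a, b), fun i => ⟨ha2 i, hb1 i, rfl⟩, ?_, ?_⟩
  · refine ⟨fun i => (v i).2, fun i => a i, fun i => b i, fun i => ⟨?_, ?_, ?_⟩, fun i j hij => ?_, rfl⟩
    · have := (h1 i).1
      have := ha1 i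
      linarith
    · exact (ha2 i).trans (hb1 i)
    · have := (h1 i).2
      have := hb2 i
      linarith
    · have := h2 i j hij
      have := hb2 i
      have := ha1 j
      show (b i : ℝ) ≤ a j
      linarith
  · intro v' hv'
    apply hVU
    intro i hi
    have hx := hv' i
    have h5 : v' i = ((v' i).1, (v i).2) := by
      have h6 : (v' i).2 = (v i).2 := hx.2.2
      rw [← h6]
    rw [h5]
    exact h3 i hi _ ((ha1 i).trans hx.1) (hx.2.1.trans (hb2 i))

private theorem pi_eq (n : ℕ) : (MeasurableSpace.pi : MeasurableSpace (Fin n → Pt)) =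
    MeasurableSpace.generateFrom {U : Set (Fin n → Pt) | IsOpen U} :=
  BorelSpace.measurable_eq

theorem boxes_generate (n : ℕ) (u w : ℝ) {A : Set (Fin n → Pt)} (hA : MeasurableSet A)
    (m : MeasurableSpace (Fin n → Pt))
    (hm : ∀ B ∈ Boxes n u w, @MeasurableSet _ m B)
    (hs : @MeasurableSet _ m (SortedIn n u w)) : @MeasurableSet _ m (A ∩ SortedIn n u w) := by
  have hA' : @MeasurableSet _ (MeasurableSpace.generateFrom {U : Set (Fin n → Pt) | IsOpen U}) A := by
    rw [← pi_eq]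
    exact hA
  refine @MeasurableSpace.generateFrom_induction _ {U : Set (Fin n → Pt) | IsOpen U}
    (fun A _ => @MeasurableSet _ m (A ∩ SortedIn n u w)) ?_ ?_ ?_ ?_ A hA'
  · intro U hU _
    have hU' : IsOpen U := hU
    have : U ∩ SortedIn n u w = ⋃ q : {q : (Fin n → Fin 3) × (Fin n → ℚ) × (Fin n → ℚ) //
        RB q ∈ Boxes n u w ∧ RB q ⊆ U}, RB q.1 := by
      ext v
      simp only [mem_inter_iff, mem_iUnion]
      constructor
      · rintro ⟨h1, h2⟩
        obtain ⟨q, hq1, hq2, hq3⟩ := key n u w hU' h1 h2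
        exact ⟨⟨q, hq2, hq3⟩, hq1⟩
      · rintro ⟨⟨q, hq1, hq2⟩, hq3⟩
        exact ⟨hq2 hq3, E3b_subset_sorted hq1 hq3⟩
    rw [this]
    exact @MeasurableSet.iUnion _ _ m _ _ (fun q => hm _ q.2.1)
  · rw [Set.empty_inter]
    exact @MeasurableSet.empty _ m
  · intro A _ ih
    have h2 : Aᶜ ∩ SortedIn n u w = SortedIn n u w \ (A ∩ SortedIn n u w) := by
      ext v
      simp only [mem_inter_iff, mem_compl_iff, mem_sdiff]
      tauto
    rw [h2]
    exact @MeasurableSet.diff _ m _ _ hs ih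
  · intro f _ ih
    rw [Set.iUnion_inter]
    exact @MeasurableSet.iUnion _ _ m _ _ ih

theorem sorted_cover (n : ℕ) (u w : ℝ) :
    ∃ F : ℕ → Set (Fin n → Pt), (∀ k, F k ∈ Boxes n u w ∨ F k = ∅) ∧ SortedIn n u w = ⋃ k, F k := by
  classical
  obtain ⟨e, he⟩ := exists_surjective_nat ((Fin n → Fin 3) × (Fin n → ℚ) × (Fin n → ℚ))
  refine ⟨fun k => if RB (e k) ∈ Boxes n u w then RB (e k) else ∅, fun k => ?_, ?_⟩
  · by_cases h : RB (e k) ∈ Boxes n u w
    · simp [h]
    · simp [h]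
  · ext v
    simp only [mem_iUnion]
    constructor
    · intro hv
      obtain ⟨q, hq1, hq2, -⟩ := key n u w isOpen_univ (mem_univ v) hv
      obtain ⟨k, rfl⟩ := he q
      exact ⟨k, by rw [if_pos hq2]; exact hq1⟩
    · rintro ⟨k, hk⟩
      by_cases h : RB (e k) ∈ Boxes n u w
      · rw [if_pos h] at hk
        exact E3b_subset_sorted h hk
      · rw [if_neg h] at hk
        exact absurd hk (by simp)

theorem boxes_inter (n : ℕ) (u w : ℝ) {B B' : Set (Fin n → Pt)} (h : B ∈ Boxes n u w)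
    (h' : B' ∈ Boxes n u w) (hne : (B ∩ B').Nonempty) : B ∩ B' ∈ Boxes n u w := by
  obtain ⟨γ, α, β, h1, h2, rfl⟩ := h
  obtain ⟨γ', α', β', h1', h2', rfl⟩ := h'
  obtain ⟨v, hv, hv'⟩ := hne
  have hγ : γ' = γ := by
    funext i
    rw [← (hv i).2.2, ← (hv' i).2.2]
  subst hγ
  refine ⟨γ', fun i => max (α i) (α' i), fun i => min (β i) (β' i), fun i => ⟨?_, ?_, ?_⟩,
    fun i j hij => ?_, ?_⟩
  · exact le_max_of_le_left (h1 i).1
  · exact (max_lt (hv i).1 (hv' i).1).trans (lt_min (hv i).2.1 (hv' i).2.1)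
  · exact min_le_of_left_le (h1 i).2.2
  · exact (min_le_left _ _).trans ((h2 i j hij).trans (le_max_left _ _))
  · ext x
    simp only [mem_inter_iff, mem_ofPred_eq, max_lt_iff, lt_min_iff]
    constructor
    · rintro ⟨ha, hb⟩ i
      exact ⟨⟨(ha i).1, (hb i).1⟩, ⟨(ha i).2.1, (hb i).2.1⟩, (ha i).2.2⟩
    · intro ha
      exact ⟨fun i => ⟨(ha i).1.1, (ha i).2.1.1, (ha i).2.2⟩,
        fun i => ⟨(ha i).1.2, (ha i).2.1.2, (ha i).2.2⟩⟩

end Pool.SM3
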