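/-
SM3.E3 : the sorted configuration is a measurable random list.
PROOF. Let `G` be a measurable set of full measure on which the colours are disjoint (from E1: complement of
`toMeasurable`).  On `G` `isConf_exists` gives the sorted list `conf ω` of `Win (SS S ω) u w` (finite by Hyp.fin); put `conf ω = []` off `G`.
Measurability: `{conf ω has length n} ∩ G = {∑ counts on (u,w) = n} ∩ G` is measurable; for a box `B ∈ Boxes n u w` (data γ, α, β):
`{ω ∈ G | ∃ v ∈ B, conf ω = ofFn v} = G ∩ {(∀ i, (S (γ i) ω ∩ Ioo (α i) (β i)).ncard = 1) ∧ total = n}` is measurable (Hyp.meas).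
For fixed `n` let `m` be the sigma-algebra of all `B : Set (Fin n → Pt)` such that `{ω ∈ G | conf ω ∈ ofFn '' (B ∩ SortedIn n u w)}` is measurable (closed under
complement because `{length = n}` is measurable, and countable unions; an explicit `MeasurableSpace`); by `boxes_generate` it contains all Borel sets intersected with
`SortedIn`.  Then for a measurable `A ⊆ List Pt`: `conf ⁻¹' A ∩ G = ⋃ n, {ω ∈ G | conf ω ∈ ofFn '' ((ofFn ⁻¹' A) ∩ SortedIn n u w)}`.
(If `w ≤ u` the window is empty and `conf = []`.)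
-/
import Pool.Agent.Lib.SM3.A1
import Pool.Agent.Lib.SM3.A3
import Pool.Agent.Lib.SM3.E1
import Pool.Agent.Lib.SM3.E3a
import Pool.Agent.Lib.SM3.E3b

set_option autoImplicit false

open MeasureTheory Set

namespace Pool.SM3

/-- the window of the coloured set is finite -/
theorem E3_finite {p : Fin 3 → ℝ} {Ω : Type} [MeasurableSpace Ω] {P : Measure Ω}
    {S : Fin 3 → Ω → Set ℝ} (h : Hyp p P S) (ω : Ω) (u w : ℝ) : (Win (SS S ω) u w).Finite := by
  have h1 : Win (SS S ω) u w ⊆ ⋃ c : Fin 3, (fun x : ℝ => ((x, c) : Pt)) '' (S c ω ∩ Ioo u w) := by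
    rintro ⟨x, c⟩ ⟨hx, hu, hw⟩
    exact mem_iUnion.2 ⟨c, x, ⟨hx, hu, hw⟩, rfl⟩
  exact (Set.finite_iUnion fun c => (h.fin c ω _ (Metric.isBounded_Ioo u w)).image _).subset h1

theorem E3_length {Ω : Type} {S : Fin 3 → Ω → Set ℝ} {ω : Ω} {u w : ℝ} {l : List Pt}
    (hc : IsConf (SS S ω) u w l) : ∑ c : Fin 3, (S c ω ∩ Ioo u w).ncard = l.length := by
  classical
  obtain ⟨h1, h2⟩ := hc
  have hnd : l.Nodup := h1.imp (fun {a b} hab => by rintro rfl; exact lt_irrefl _ hab)
  rw [← List.toFinset_card_of_nodup hnd,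
    Finset.card_eq_sum_card_fiberwise (f := fun y : Pt => y.2) (t := Finset.univ)
      (fun x _ => Finset.mem_coe.2 (Finset.mem_univ _))]
  refine Finset.sum_congr rfl fun c _ => ?_
  have h3 : S c ω ∩ Ioo u w = (fun y : Pt => y.1) '' ((l.toFinset.filter (fun y => y.2 = c) : Finset Pt) : Set Pt) := by
    ext x
    simp only [mem_inter_iff, mem_Ioo, mem_image, Finset.coe_filter, List.mem_toFinset, mem_ofPred_eq]
    constructor
    · rintro ⟨hx, hu, hw⟩
      exact ⟨(x, c), ⟨(h2 _).2 ⟨hx, hu, hw⟩, rfl⟩, rfl⟩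
    · rintro ⟨⟨y, d⟩, ⟨hy, hd⟩, rfl⟩
      have := (h2 _).1 hy
      simp only at hd
      subst hd
      exact ⟨this.1, this.2.1, this.2.2⟩
  rw [h3, Set.ncard_image_of_injOn, Set.ncard_coe_finset]
  rintro ⟨x, c1⟩ hx ⟨y, c2⟩ hy hxy
  simp only [Finset.coe_filter, mem_ofPred_eq] at hx hy hxy
  rw [hxy, hx.2, hy.2]

theorem E3_box {Ω : Type} {S : Fin 3 → Ω → Set ℝ} {ω : Ω} {u w : ℝ} {l : List Pt}
    (hc : IsConf (SS S ω) u w l) {n : ℕ} (γ : Fin n → Fin 3) (α β : Fin n → ℝ)
    (h1 : ∀ i, u ≤ α i ∧ α i < β i ∧ β i ≤ w) (h2 : ∀ i j, i < j → β i ≤ α j) :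
    (∃ v : Fin n → Pt, (∀ i, α i < (v i).1 ∧ (v i).1 < β i ∧ (v i).2 = γ i) ∧ l = List.ofFn v) ↔
      ((∀ i, (S (γ i) ω ∩ Ioo (α i) (β i)).ncard = 1) ∧
        ∑ c : Fin 3, (S c ω ∩ Ioo u w).ncard = n) := by
  rw [E3_length hc]
  constructor
  · rintro ⟨v, hv, rfl⟩
    refine ⟨fun i => ?_, List.length_ofFn⟩
    rw [Set.ncard_eq_one]
    refine ⟨(v i).1, ?_⟩
    ext x
    simp only [mem_inter_iff, mem_Ioo, mem_singleton_iff]
    constructor
    · rintro ⟨hx, hα, hβ⟩
      have hm : ((x, γ i) : Pt) ∈ List.ofFn v :=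
        (hc.2 _).2 ⟨hx, (h1 i).1.trans_lt hα, hβ.trans_le (h1 i).2.2⟩
      obtain ⟨j, hj⟩ := List.mem_ofFn.1 hm
      have hj1 : (v j).1 = x := by rw [hj]
      rcases lt_trichotomy i j with hij | hij | hij
      · have := h2 i j hij
        have := (hv j).1
        linarith
      · subst hij
        exact hj1.symm
      · have := h2 j i hij
        have := (hv j).2.1
        linarith
    · rintro rfl
      have hm : v i ∈ List.ofFn v := List.mem_ofFn.2 ⟨i, rfl⟩
      have := (hc.2 _).1 hm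
      have h3 : (v i).1 ∈ S (v i).2 ω := this.1
      rw [(hv i).2.2] at h3
      exact ⟨h3, (hv i).1, (hv i).2.1⟩
  · rintro ⟨h3, h4⟩
    have h5 : ∀ i, ∃ x, x ∈ S (γ i) ω ∩ Ioo (α i) (β i) := fun i => by
      obtain ⟨a, ha⟩ := Set.ncard_eq_one.1 (h3 i)
      exact ⟨a, by rw [ha]; rfl⟩
    choose x hx using h5
    refine ⟨fun i => (x i, γ i), fun i => ⟨(hx i).2.1, (hx i).2.2, rfl⟩, ?_⟩
    have hs : (List.ofFn (fun i => ((x i, γ i) : Pt))).Pairwise (fun x y => x.1 < y.1) := by
      rw [List.pairwise_ofFn]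
      intro i j hij
      exact ((hx i).2.2.trans_le (h2 i j hij)).trans (hx j).2.1
    have hnd : (List.ofFn (fun i => ((x i, γ i) : Pt))).Nodup :=
      hs.imp (fun {a b} hab => by rintro rfl; exact lt_irrefl _ hab)
    have hsub : List.ofFn (fun i => ((x i, γ i) : Pt)) ⊆ l := by
      intro y hy
      obtain ⟨i, rfl⟩ := List.mem_ofFn.1 hy
      exact (hc.2 _).2 ⟨(hx i).1, (h1 i).1.trans_lt (hx i).2.1, (hx i).2.2.trans_le (h1 i).2.2⟩
    have hsp : (List.ofFn (fun i => ((x i, γ i) : Pt))).Subperm l := List.subperm_of_subset hnd hsub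
    have hp : (List.ofFn (fun i => ((x i, γ i) : Pt))).Perm l :=
      hsp.perm_of_length_le (by rw [List.length_ofFn]; exact h4.le)
    exact (isConf_unique (Y := SS S ω) (u := u) (w := w)
      ⟨hs, fun y => by rw [← hc.2 y]; exact hp.mem_iff⟩ hc).symm

theorem exists_conf {p : Fin 3 → ℝ} (hp : PV p) {Ω : Type} [MeasurableSpace Ω] {P : Measure Ω}
    [IsProbabilityMeasure P] {S : Fin 3 → Ω → Set ℝ} (h : Hyp p P S) (u w : ℝ) :
    ∃ conf : Ω → List Pt, Measurable conf ∧ ∀ᵐ ω ∂P, IsConf (SS S ω) u w (conf ω) := by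
  classical
  have hae := ae_disjoint hp h
  obtain ⟨G, hGm, hG0, hG⟩ : ∃ G : Set Ω, MeasurableSet G ∧ P Gᶜ = 0 ∧
      ∀ ω ∈ G, ∀ i j : Fin 3, i ≠ j → Disjoint (S i ω) (S j ω) := by
    refine ⟨(toMeasurable P {ω | ¬ ∀ i j : Fin 3, i ≠ j → Disjoint (S i ω) (S j ω)})ᶜ,
      (measurableSet_toMeasurable _ _).compl, ?_, ?_⟩
    · rw [compl_compl, measure_toMeasurable]
      exact hae
    · intro ω hω
      by_contra hcon
      exact hω (subset_toMeasurable _ _ hcon)
  have hex : ∀ ω ∈ G, ∃ l, IsConf (SS S ω) u w l := by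
    intro ω hω
    refine isConf_exists (E3_finite h ω u w) ?_
    rintro ⟨x, c⟩ hx ⟨y, d⟩ hy hxy
    simp only at hxy
    subst hxy
    by_cases hcd : c = d
    · rw [hcd]
    · exact absurd hy.1 (Set.disjoint_left.1 (hG ω hω c d hcd) hx.1)
  choose! f hf using hex
  have hcG : ∀ ω ∈ G, IsConf (SS S ω) u w (if ω ∈ G then f ω else []) := fun ω hω => by
    rw [if_pos hω]; exact hf ω hω
  refine ⟨fun ω => if ω ∈ G then f ω else [], ?_, ?_⟩
  swap
  · have : ∀ᵐ ω ∂P, ω ∈ G := by
      rw [ae_iff]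
      exact hG0
    filter_upwards [this] with ω hω using hcG ω hω
  · -- measurability
    have hlen : ∀ n : ℕ, MeasurableSet {ω | ω ∈ G ∧ (f ω).length = n} := by
      intro n
      have : {ω | ω ∈ G ∧ (f ω).length = n} = G ∩ {ω | ∑ c : Fin 3, (S c ω ∩ Ioo u w).ncard = n} := by
        ext ω
        simp only [mem_ofPred_eq, mem_inter_iff]
        refine and_congr_right fun hω => ?_
        rw [E3_length (hf ω hω)]
      rw [this]
      refine hGm.inter ?_
      have hm : Measurable (fun ω => ∑ c : Fin 3, (S c ω ∩ Ioo u w).ncard) :=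
        Finset.measurable_sum _ (fun c _ => h.meas c _ measurableSet_Ioo (Metric.isBounded_Ioo u w))
      exact hm (measurableSet_singleton n)
    have hbox : ∀ (n : ℕ) (B : Set (Fin n → Pt)), B ∈ Boxes n u w →
        MeasurableSet {ω | ω ∈ G ∧ ∃ v : Fin n → Pt, v ∈ B ∧ f ω = List.ofFn v} := by
      rintro n B ⟨γ, α, β, h1, h2, rfl⟩
      have : {ω | ω ∈ G ∧ ∃ v : Fin n → Pt, v ∈ {v : Fin n → Pt | ∀ i, α i < (v i).1 ∧ (v i).1 < β i ∧ (v i).2 = γ i} ∧
          f ω = List.ofFn v} = G ∩ ((⋂ i, {ω | (S (γ i) ω ∩ Ioo (α i) (β i)).ncard = 1}) ∩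
          {ω | ∑ c : Fin 3, (S c ω ∩ Ioo u w).ncard = n}) := by
        ext ω
        simp only [mem_ofPred_eq, mem_inter_iff, mem_iInter]
        refine and_congr_right fun hω => ?_
        exact E3_box (hf ω hω) γ α β h1 h2
      rw [this]
      refine hGm.inter (MeasurableSet.inter (MeasurableSet.iInter fun i => ?_) ?_)
      · exact (h.meas (γ i) _ measurableSet_Ioo (Metric.isBounded_Ioo _ _)) (measurableSet_singleton 1)
      · have hm : Measurable (fun ω => ∑ c : Fin 3, (S c ω ∩ Ioo u w).ncard) :=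
          Finset.measurable_sum _ (fun c _ => h.meas c _ measurableSet_Ioo (Metric.isBounded_Ioo u w))
        exact hm (measurableSet_singleton n)
    have hsort : ∀ ω ∈ G, ∀ n : ℕ, (f ω).length = n → ∃ v : Fin n → Pt, v ∈ SortedIn n u w ∧ f ω = List.ofFn v := by
      rintro ω hω n rfl
      refine ⟨(f ω).get, ⟨fun i => ?_, ?_⟩, (List.ofFn_get (f ω)).symm⟩
      · have := (hf ω hω).2 ((f ω).get i)
        have h3 := this.1 (List.get_mem _ _)
        exact ⟨h3.2.1, h3.2.2⟩
      · intro i j hij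
        have := (hf ω hω).1
        rw [List.pairwise_iff_get] at this
        exact this i j hij
    have hgen : ∀ (n : ℕ) (A : Set (Fin n → Pt)), MeasurableSet A →
        MeasurableSet {ω | ω ∈ G ∧ ∃ v : Fin n → Pt, v ∈ A ∩ SortedIn n u w ∧ f ω = List.ofFn v} := by
      intro n A hA
      let m : MeasurableSpace (Fin n → Pt) :=
        { MeasurableSet' := fun A => MeasurableSet {ω | ω ∈ G ∧ ∃ v : Fin n → Pt, v ∈ A ∩ SortedIn n u w ∧ f ω = List.ofFn v}
          measurableSet_empty := by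
            have : {ω | ω ∈ G ∧ ∃ v : Fin n → Pt, v ∈ (∅ : Set (Fin n → Pt)) ∩ SortedIn n u w ∧ f ω = List.ofFn v} = ∅ := by
              ext ω; simp
            rw [this]; exact MeasurableSet.empty
          measurableSet_compl := by
            intro A hA
            have : {ω | ω ∈ G ∧ ∃ v : Fin n → Pt, v ∈ Aᶜ ∩ SortedIn n u w ∧ f ω = List.ofFn v} =
                {ω | ω ∈ G ∧ (f ω).length = n} \ {ω | ω ∈ G ∧ ∃ v : Fin n → Pt, v ∈ A ∩ SortedIn n u w ∧ f ω = List.ofFn v} := by
              ext ω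
              constructor
              · rintro ⟨hω, v, ⟨hv, hs⟩, he⟩
                refine ⟨⟨hω, by rw [he, List.length_ofFn]⟩, ?_⟩
                rintro ⟨_, v', ⟨hv', hs'⟩, he'⟩
                have : v = v' := List.ofFn_injective (he.symm.trans he')
                rw [this] at hv
                exact hv hv'
              · rintro ⟨⟨hω, hl⟩, hn⟩
                obtain ⟨v, hs, he⟩ := hsort ω hω n hl
                refine ⟨hω, v, ⟨fun hv => hn ⟨hω, v, ⟨hv, hs⟩, he⟩, hs⟩, he⟩
            rw [this]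
            exact (hlen n).diff hA
          measurableSet_iUnion := by
            intro F hF
            have : {ω | ω ∈ G ∧ ∃ v : Fin n → Pt, v ∈ (⋃ i, F i) ∩ SortedIn n u w ∧ f ω = List.ofFn v} =
                ⋃ i, {ω | ω ∈ G ∧ ∃ v : Fin n → Pt, v ∈ F i ∩ SortedIn n u w ∧ f ω = List.ofFn v} := by
              ext ω
              simp only [mem_ofPred_eq, mem_iUnion, mem_inter_iff]
              constructor
              · rintro ⟨hω, v, ⟨⟨i, hi⟩, hs⟩, he⟩
                exact ⟨i, hω, v, ⟨hi, hs⟩, he⟩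
              · rintro ⟨i, hω, v, ⟨hi, hs⟩, he⟩
                exact ⟨hω, v, ⟨⟨i, hi⟩, hs⟩, he⟩
            rw [this]
            exact MeasurableSet.iUnion hF }
      have hb : ∀ B ∈ Boxes n u w, @MeasurableSet _ m B := by
        intro B hB
        show MeasurableSet {ω | ω ∈ G ∧ ∃ v : Fin n → Pt, v ∈ B ∩ SortedIn n u w ∧ f ω = List.ofFn v}
        rw [Set.inter_eq_left.2 (E3b_subset_sorted hB)]
        exact hbox n B hB
      have hs : @MeasurableSet _ m (SortedIn n u w) := by
        show MeasurableSet {ω | ω ∈ G ∧ ∃ v : Fin n → Pt, v ∈ SortedIn n u w ∩ SortedIn n u w ∧ f ω = List.ofFn v}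
        have : {ω | ω ∈ G ∧ ∃ v : Fin n → Pt, v ∈ SortedIn n u w ∩ SortedIn n u w ∧ f ω = List.ofFn v} =
            {ω | ω ∈ G ∧ (f ω).length = n} := by
          ext ω
          constructor
          · rintro ⟨hω, v, _, he⟩
            exact ⟨hω, by rw [he, List.length_ofFn]⟩
          · rintro ⟨hω, hl⟩
            obtain ⟨v, hs, he⟩ := hsort ω hω n hl
            exact ⟨hω, v, ⟨hs, hs⟩, he⟩
        rw [this]
        exact hlen n
      have := @boxes_generate n u w A hA m hb hs
      have h2 : MeasurableSet {ω | ω ∈ G ∧ ∃ v : Fin n → Pt, v ∈ (A ∩ SortedIn n u w) ∩ SortedIn n u w ∧ f ω = List.ofFn v} := this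
      rw [Set.inter_assoc, Set.inter_self] at h2
      exact h2
    intro A hA
    have hA' : (fun ω => if ω ∈ G then f ω else []) ⁻¹' A =
        (⋃ n : ℕ, {ω | ω ∈ G ∧ ∃ v : Fin n → Pt, v ∈ ((fun v : Fin n → Pt => List.ofFn v) ⁻¹' A) ∩ SortedIn n u w ∧
          f ω = List.ofFn v}) ∪ (if ([] : List Pt) ∈ A then Gᶜ else ∅) := by
      ext ω
      simp only [mem_preimage, mem_union, mem_iUnion, mem_ofPred_eq, mem_inter_iff]
      by_cases hω : ω ∈ G
      · rw [if_pos hω]
        constructor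
        · intro hA1
          obtain ⟨v, hs, he⟩ := hsort ω hω _ rfl
          exact Or.inl ⟨_, hω, v, ⟨by rw [← he]; exact hA1, hs⟩, he⟩
        · rintro (⟨n, _, v, ⟨hv, hs⟩, he⟩ | h2)
          · rw [he]; exact hv
          · split_ifs at h2 with h3
            · exact absurd hω h2
            · exact absurd h2 (by simp)
      · rw [if_neg hω]
        constructor
        · intro hA1
          right
          rw [if_pos hA1]
          exact hω
        · rintro (⟨n, h1, _⟩ | h2)
          · exact absurd h1 hω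
          · split_ifs at h2 with h3
            · exact h3
            · exact absurd h2 (by simp)
    rw [hA']
    refine MeasurableSet.union (MeasurableSet.iUnion fun n => hgen n _ (measurableSet_list_iff.1 hA n)) ?_
    split_ifs
    · exact hGm.compl
    · exact MeasurableSet.empty

end Pool.SM3
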