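/-
SM3.E4 : the law of the sorted configuration is `Pm`.
PROOF. For each `n` compare the two finite measures on `Fin n → Pt`: `μ B = P {ω | ∃ v ∈ B ∩ SortedIn n u w, conf ω = ofFn v}` and
`ν B = e^{-(w-u)} (pi (muP p)) (B ∩ SortedIn n u w)`.  On a box `B ∈ Boxes n u w` (⊆ SortedIn): `μ B = P {∀ i, (S (γ i) ω ∩ Ioo ..).ncard = 1, total = n}`
(a.s. equal events) `= e^{-(w-u)} ∏ p (γ i) (β i - α i)` by box_prob, and `ν B` is the same by `Measure.pi_pi` (a box is a product of sets
`Ioo (α i) (β i) ×ˢ {γ i}`).  Boxes together with `∅` are a π-system (the intersection of two boxes with the same colours is a box or empty) generating the trace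
σ-algebra, and `SortedIn n u w` is a countable union of boxes: `Measure.ext_of_generateFrom_of_iUnion`/`_of_cover`; (or
`MeasurableSpace.induction_on_inter` on `A ↦ A ∩ SortedIn`).  Summing over `n` gives `P.map conf = Pm p u w`
(`Pm p u w A = ∑_n e^{-(w-u)} pi (ofFn ⁻¹' A ∩ SortedIn n u w)`).
-/
import Pool.Agent.Lib.SM3.A4
import Pool.Agent.Lib.SM3.E2
import Pool.Agent.Lib.SM3.E3

set_option autoImplicit false

open MeasureTheory Set

namespace Pool.SM3

/-- the first `n` entries of a list -/
private noncomputable def gn (n : ℕ) (l : List Pt) : Fin n → Pt := fun i => l.getD i (0, 0)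

private theorem gn_ofFn {n : ℕ} (v : Fin n → Pt) : gn n (List.ofFn v) = v := by
  funext i
  unfold gn
  rw [List.getD_eq_getElem _ _ (by rw [List.length_ofFn]; exact i.2)]
  simp

private theorem ofFn_gn {n : ℕ} {l : List Pt} (h : l.length = n) : List.ofFn (gn n l) = l := by
  subst h
  have : gn l.length l = l.get := by
    funext i
    unfold gn
    rw [List.getD_eq_getElem _ _ i.2]
    rfl
  rw [this]
  exact List.ofFn_get l

private theorem measurable_gn (n : ℕ) : Measurable (gn n) := by
  rw [measurable_pi_iff]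
  intro i A hA
  rw [measurableSet_list_iff]
  intro m
  have : Measurable (fun v : Fin m → Pt => (List.ofFn v).getD i (0, 0)) := by
    by_cases him : (i : ℕ) < m
    · have : (fun v : Fin m → Pt => (List.ofFn v).getD i (0, 0)) = fun v => v ⟨i, him⟩ := by
        funext v
        rw [List.getD_eq_getElem _ _ (by rw [List.length_ofFn]; exact him)]
        simp
      rw [this]
      exact measurable_pi_apply _
    · have : (fun v : Fin m → Pt => (List.ofFn v).getD i (0, 0)) = fun v => (0, 0) := by
        funext v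
        exact List.getD_eq_default _ _ (by rw [List.length_ofFn]; omega)
      rw [this]
      exact measurable_const
  exact this hA

private theorem measurableSet_len (n : ℕ) : MeasurableSet {l : List Pt | l.length = n} := by
  rw [measurableSet_list_iff]
  intro m
  by_cases h : m = n
  · have : (fun v : Fin m → Pt => List.ofFn v) ⁻¹' {l : List Pt | l.length = n} = univ := by
      ext v
      simp [h]
    rw [this]
    exact MeasurableSet.univ
  · have : (fun v : Fin m → Pt => List.ofFn v) ⁻¹' {l : List Pt | l.length = n} = ∅ := by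
      ext v
      simp [h]
    rw [this]
    exact MeasurableSet.empty

private theorem pi_box {p : Fin 3 → ℝ} (hp : PV p) {n : ℕ} (γ : Fin n → Fin 3) (α β : Fin n → ℝ)
    (h1 : ∀ i, α i < β i) :
    Measure.pi (fun _ : Fin n => muP p) {v : Fin n → Pt | ∀ i, α i < (v i).1 ∧ (v i).1 < β i ∧ (v i).2 = γ i}
      = ENNReal.ofReal (∏ i, (p (γ i) * (β i - α i))) := by
  have h2 : {v : Fin n → Pt | ∀ i, α i < (v i).1 ∧ (v i).1 < β i ∧ (v i).2 = γ i} =
      Set.univ.pi (fun i => Ioo (α i) (β i) ×ˢ ({γ i} : Set (Fin 3))) := by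
    ext v
    simp only [mem_ofPred_eq, Set.mem_pi, mem_univ, forall_true_left, mem_prod, mem_Ioo,
      mem_singleton_iff, and_assoc]
  rw [h2, Measure.pi_pi, ENNReal.ofReal_prod_of_nonneg]
  · refine Finset.prod_congr rfl fun i _ => ?_
    rw [muP, Measure.prod_prod, Real.volume_Ioo, mul_comm, ENNReal.ofReal_mul (hp.pos _).le]
    congr 1
    rw [colM, Measure.coe_finsetSum, Finset.sum_apply, Finset.sum_eq_single (γ i)]
    · simp
    · intro c _ hc
      simp [hc]
    · intro h
      exact absurd (Finset.mem_univ _) h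
  · intro i _
    exact mul_nonneg (hp.pos _).le (by linarith [h1 i])

private theorem level {p : Fin 3 → ℝ} (hp : PV p) {Ω : Type} [MeasurableSpace Ω] {P : Measure Ω}
    [IsProbabilityMeasure P] {S : Fin 3 → Ω → Set ℝ} (h : Hyp p P S) {u w : ℝ} (huw : u < w)
    {conf : Ω → List Pt} (hm : Measurable conf) (hc : ∀ᵐ ω ∂P, IsConf (SS S ω) u w (conf ω))
    (n : ℕ) : (P.restrict {ω | (conf ω).length = n}).map (fun ω => gn n (conf ω)) =
      ENNReal.ofReal (Real.exp (-(w - u))) •
        (Measure.pi (fun _ : Fin n => muP p)).restrict (SortedIn n u w) := by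
  have hT : MeasurableSet {ω | (conf ω).length = n} := hm (measurableSet_len n)
  have hg : Measurable (fun ω => gn n (conf ω)) := (measurable_gn n).comp hm
  have hSm := measurableSet_SortedIn n u w
  -- both vanish off the sorted tuples
  have hμ0 : ((P.restrict {ω | (conf ω).length = n}).map (fun ω => gn n (conf ω))) (SortedIn n u w)ᶜ = 0 := by
    rw [Measure.map_apply hg hSm.compl, Measure.restrict_apply (hg hSm.compl)]
    have : ∀ᵐ ω ∂P, ¬ (ω ∈ (fun ω => gn n (conf ω)) ⁻¹' (SortedIn n u w)ᶜ ∩ {ω | (conf ω).length = n}) := by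
      filter_upwards [hc] with ω hω
      rintro ⟨h1, h2⟩
      apply h1
      have h2' : (conf ω).length = n := h2
      subst h2'
      have h3 : gn (conf ω).length (conf ω) = (conf ω).get := by
        apply List.ofFn_injective
        rw [ofFn_gn rfl, List.ofFn_get]
      change gn (conf ω).length (conf ω) ∈ SortedIn (conf ω).length u w
      rw [h3]
      refine ⟨fun i => ?_, ?_⟩
      · have h3 := (hω.2 ((conf ω).get i)).1 (List.get_mem _ _)
        exact ⟨h3.2.1, h3.2.2⟩
      · intro i j hij
        have := hω.1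
        rw [List.pairwise_iff_get] at this
        exact this i j hij
    rw [ae_iff] at this
    refine Eq.trans (congrArg P ?_) this
    ext ω
    simp only [not_not, mem_ofPred_eq]
  have hν0 : (ENNReal.ofReal (Real.exp (-(w - u))) •
        (Measure.pi (fun _ : Fin n => muP p)).restrict (SortedIn n u w)) (SortedIn n u w)ᶜ = 0 := by
    rw [Measure.smul_apply, Measure.restrict_apply hSm.compl]
    simp
  -- boxes
  have hbox : ∀ B ∈ Boxes n u w,
      ((P.restrict {ω | (conf ω).length = n}).map (fun ω => gn n (conf ω))) B =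
      (ENNReal.ofReal (Real.exp (-(w - u))) •
        (Measure.pi (fun _ : Fin n => muP p)).restrict (SortedIn n u w)) B ∧ MeasurableSet B := by
    intro B hB
    have hBs := E3b_subset_sorted hB
    obtain ⟨γ, α, β, h1, h2, rfl⟩ := hB
    have hBm : MeasurableSet {v : Fin n → Pt | ∀ i, α i < (v i).1 ∧ (v i).1 < β i ∧ (v i).2 = γ i} := by
      have h3 : {v : Fin n → Pt | ∀ i, α i < (v i).1 ∧ (v i).1 < β i ∧ (v i).2 = γ i} =
          Set.univ.pi (fun i => Ioo (α i) (β i) ×ˢ ({γ i} : Set (Fin 3))) := by
        ext v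
        simp only [mem_ofPred_eq, Set.mem_pi, mem_univ, forall_true_left, mem_prod, mem_Ioo,
          mem_singleton_iff, and_assoc]
      rw [h3]
      exact MeasurableSet.univ_pi fun i => measurableSet_Ioo.prod (measurableSet_singleton _)
    refine ⟨?_, hBm⟩
    rw [Measure.map_apply hg hBm, Measure.restrict_apply (hg hBm), Measure.smul_apply,
      Measure.restrict_apply hBm, Set.inter_eq_left.2 hBs,
      pi_box hp γ α β (fun i => (h1 i).2.1), smul_eq_mul, ← ENNReal.ofReal_mul (Real.exp_nonneg _),
      ← box_prob hp h huw n γ α β h1 h2]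
    apply measure_congr
    filter_upwards [hc] with ω hω
    apply propext
    have hbx := E3_box hω γ α β h1 h2
    constructor
    · rintro ⟨ha, hb⟩
      exact hbx.1 ⟨gn n (conf ω), ha, (ofFn_gn hb).symm⟩
    · intro ha
      obtain ⟨v, hv, he⟩ := hbx.2 ha
      refine ⟨?_, ?_⟩
      · change gn n (conf ω) ∈ {v : Fin n → Pt | ∀ i, α i < (v i).1 ∧ (v i).1 < β i ∧ (v i).2 = γ i}
        rw [he, gn_ofFn]
        exact hv
      · show (conf ω).length = n
        rw [he, List.length_ofFn]
  have hfin : IsFiniteMeasure ((P.restrict {ω | (conf ω).length = n}).map (fun ω => gn n (conf ω))) := by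
    infer_instance
  obtain ⟨F, hF, hcov⟩ := sorted_cover n u w
  have hle : ∀ (μ : Measure (Fin n → Pt)) (A : Set (Fin n → Pt)), μ (SortedIn n u w)ᶜ = 0 →
      A ⊆ (SortedIn n u w)ᶜ → μ A = 0 := fun μ A h0 hA => measure_mono_null hA h0
  refine Measure.ext_of_generateFrom_of_iUnion
    (C := Boxes n u w ∪ {A | MeasurableSet A ∧ A ⊆ (SortedIn n u w)ᶜ})
    (B := fun k => Nat.casesOn k (SortedIn n u w)ᶜ F) ?_ ?_ ?_ ?_ ?_ ?_
  · apply le_antisymm
    · intro A hA
      have hsm : @MeasurableSet _ (MeasurableSpace.generateFrom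
          (Boxes n u w ∪ {A | MeasurableSet A ∧ A ⊆ (SortedIn n u w)ᶜ})) (SortedIn n u w) := by
        have : @MeasurableSet _ (MeasurableSpace.generateFrom
          (Boxes n u w ∪ {A | MeasurableSet A ∧ A ⊆ (SortedIn n u w)ᶜ})) (SortedIn n u w)ᶜ :=
          MeasurableSpace.measurableSet_generateFrom (Or.inr ⟨hSm.compl, subset_rfl⟩)
        have h2 := @MeasurableSet.compl _ _ (MeasurableSpace.generateFrom
          (Boxes n u w ∪ {A | MeasurableSet A ∧ A ⊆ (SortedIn n u w)ᶜ})) this
        rwa [compl_compl] at h2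
      have h1 := boxes_generate n u w hA (MeasurableSpace.generateFrom
        (Boxes n u w ∪ {A | MeasurableSet A ∧ A ⊆ (SortedIn n u w)ᶜ}))
        (fun B hB => MeasurableSpace.measurableSet_generateFrom (Or.inl hB)) hsm
      have h2 : @MeasurableSet _ (MeasurableSpace.generateFrom
          (Boxes n u w ∪ {A | MeasurableSet A ∧ A ⊆ (SortedIn n u w)ᶜ})) (A ∩ (SortedIn n u w)ᶜ) :=
        MeasurableSpace.measurableSet_generateFrom (Or.inr ⟨hA.inter hSm.compl, Set.inter_subset_right⟩)
      have h3 : A = (A ∩ SortedIn n u w) ∪ (A ∩ (SortedIn n u w)ᶜ) := (Set.inter_union_compl A _).symm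
      rw [h3]
      exact @MeasurableSet.union _ (MeasurableSpace.generateFrom
          (Boxes n u w ∪ {A | MeasurableSet A ∧ A ⊆ (SortedIn n u w)ᶜ})) _ _ h1 h2
    · apply MeasurableSpace.generateFrom_le
      rintro A (hA | ⟨hA, _⟩)
      · exact (hbox A hA).2
      · exact hA
  · rintro A (hA | ⟨hA, hA'⟩) B (hB | ⟨hB, hB'⟩) hne
    · exact Or.inl (boxes_inter n u w hA hB hne)
    · exact Or.inr ⟨(hbox A hA).2.inter hB, Set.inter_subset_right.trans hB'⟩
    · exact Or.inr ⟨hA.inter (hbox B hB).2, Set.inter_subset_left.trans hA'⟩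
    · exact Or.inr ⟨hA.inter hB, Set.inter_subset_left.trans hA'⟩
  · ext v
    simp only [mem_iUnion, mem_univ, iff_true]
    by_cases hv : v ∈ SortedIn n u w
    · rw [hcov] at hv
      obtain ⟨k, hk⟩ := mem_iUnion.1 hv
      exact ⟨k + 1, hk⟩
    · exact ⟨0, hv⟩
  · intro k
    cases k with
    | zero => exact Or.inr ⟨hSm.compl, subset_rfl⟩
    | succ k =>
      rcases hF k with h1 | h1
      · exact Or.inl h1
      · refine Or.inr ?_
        show MeasurableSet (F k) ∧ F k ⊆ (SortedIn n u w)ᶜ
        rw [h1]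
        exact ⟨MeasurableSet.empty, Set.empty_subset _⟩
  · intro k
    exact measure_ne_top _ _
  · rintro A (hA | ⟨hA, hA'⟩)
    · exact (hbox A hA).1
    · rw [hle _ A hμ0 hA', hle _ A hν0 hA']

theorem map_conf {p : Fin 3 → ℝ} (hp : PV p) {Ω : Type} [MeasurableSpace Ω] {P : Measure Ω}
    [IsProbabilityMeasure P] {S : Fin 3 → Ω → Set ℝ} (h : Hyp p P S) {u w : ℝ} (huw : u < w)
    {conf : Ω → List Pt} (hm : Measurable conf) (hc : ∀ᵐ ω ∂P, IsConf (SS S ω) u w (conf ω)) :
    P.map conf = Pm p u w := by
  ext A hA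
  rw [Measure.map_apply hm hA, Pm, Measure.smul_apply, Measure.sum_apply _ hA, smul_eq_mul]
  have h1 : conf ⁻¹' A = ⋃ n : ℕ, (conf ⁻¹' A ∩ {ω | (conf ω).length = n}) := by
    rw [← Set.inter_iUnion]
    have : (⋃ n : ℕ, {ω | (conf ω).length = n}) = univ := by
      ext ω
      simp
    rw [this, Set.inter_univ]
  rw [h1, measure_iUnion]
  · rw [← ENNReal.tsum_mul_left]
    congr 1
    funext n
    have h2 := level hp h huw hm hc n
    have hpre : MeasurableSet ((fun v : Fin n → Pt => List.ofFn v) ⁻¹' A) := measurableSet_list_iff.1 hA n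
    have h3 := congrArg (fun μ : Measure (Fin n → Pt) => μ ((fun v : Fin n → Pt => List.ofFn v) ⁻¹' A)) h2
    change (P.restrict {ω | (conf ω).length = n}).map (fun ω => gn n (conf ω)) ((fun v : Fin n → Pt => List.ofFn v) ⁻¹' A) =
      (ENNReal.ofReal (Real.exp (-(w - u))) •
        (Measure.pi (fun _ : Fin n => muP p)).restrict (SortedIn n u w)) ((fun v : Fin n → Pt => List.ofFn v) ⁻¹' A) at h3
    have hg : Measurable (fun ω => gn n (conf ω)) := (measurable_gn n).comp hm
    rw [Measure.map_apply hg hpre, Measure.restrict_apply (hg hpre), Measure.smul_apply, smul_eq_mul] at h3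
    rw [Jm, Measure.map_apply (measurable_ofFn n) hA, ← h3]
    congr 1
    ext ω
    simp only [mem_inter_iff, mem_preimage, mem_ofPred_eq]
    refine and_congr_left fun hl => ?_
    rw [ofFn_gn hl]
  · intro i j hij
    refine Set.disjoint_left.2 fun ω h2 h3 => hij ?_
    have h4 : (conf ω).length = i := h2.2
    have h5 : (conf ω).length = j := h3.2
    omega
  · intro n
    exact (hm hA).inter (hm (measurableSet_len n))

end Pool.SM3
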