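/-
SM3.E5 : probabilities of window events.
PROOF. Take `conf` from exists_conf; a.s. `{y | y ∈ conf ω} = Win (SS S ω) u w` and `conf ω` is sorted, so a.s.
`Q (Win (SS S ω) u w) ↔ conf ω ∈ A`; `P (conf ⁻¹' A) = Pm p u w A` by map_conf.
-/
import Pool.Agent.Lib.SM3.E4

set_option autoImplicit false

open MeasureTheory Set

namespace Pool.SM3

theorem window_event {p : Fin 3 → ℝ} (hp : PV p) {Ω : Type} [MeasurableSpace Ω] {P : Measure Ω}
    [IsProbabilityMeasure P] {S : Fin 3 → Ω → Set ℝ} (h : Hyp p P S) {u w : ℝ} (huw : u < w)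
    {Q : Set Pt → Prop} (hA : MeasurableSet {l : List Pt | Q {y | y ∈ l}}) :
    NullMeasurableSet {ω | Q (Win (SS S ω) u w)} P ∧
      P {ω | Q (Win (SS S ω) u w)} = Pm p u w {l | Q {y | y ∈ l}} := by
  obtain ⟨conf, hm, hc⟩ := exists_conf hp h u w
  have hset : ∀ᵐ ω ∂P, {y | y ∈ conf ω} = Win (SS S ω) u w := by
    filter_upwards [hc] with ω hω
    ext y
    exact hω.2 y
  have hae : {ω | Q (Win (SS S ω) u w)} =ᵐ[P] conf ⁻¹' {l : List Pt | Q {y | y ∈ l}} := by
    filter_upwards [hset] with ω hω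
    apply propext
    show Q (Win (SS S ω) u w) ↔ Q {y | y ∈ conf ω}
    rw [hω]
  refine ⟨(hm hA).nullMeasurableSet.congr hae.symm, ?_⟩
  rw [measure_congr hae, ← map_conf hp h huw hm hc, Measure.map_apply hm hA]

end Pool.SM3
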