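/-
SM3.E6 : the probability that there is no long gap.
PROOF. Measurable: finite intersection of `measurableSet_exists_mem`.  Induction on `m`: split `(t, t + (m+1) r)` at `s = t + m r`
(lintegral_Pm_append): for a.e. `l₁` (points in `(t,s)`), `l₂` (points in `(s, s+r)`): `Full t r (m+1) {l₁ ++ l₂} ↔ Full t r m {l₁} ∧ l₂ ≠ []`, and
`Pm p s (s+r) {l₂ ≠ []} = 1 - Pm p s (s+r) {[]} = 1 - e^{-r}` (Jm of order 0 is dirac at `[]`).  For `m = 0` the set is `univ`.
`P_full`: for `m ≥ 1` window_event with `Q Y = Full t r m Y` on `(t, t + m r)`; `Full t r m (Win Y t (t+mr)) ↔ Full t r m Y`.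
-/
import Pool.Agent.Lib.SM3.A2
import Pool.Agent.Lib.SM3.A7
import Pool.Agent.Lib.SM3.E5

set_option autoImplicit false

open MeasureTheory Set

namespace Pool.SM3

theorem measurableSet_Full (t : ℝ) (r m : ℕ) : MeasurableSet {l : List Pt | Full t r m {y | y ∈ l}} := by
  have h1 : ∀ i : ℕ, MeasurableSet {l : List Pt | ∃ y ∈ l, t + i * r < y.1 ∧ y.1 < t + (i + 1) * r} := by
    intro i
    have hQ : MeasurableSet {q : Unit × Pt | t + i * r < q.2.1 ∧ q.2.1 < t + (i + 1) * r} := by
      have hm : Measurable (fun q : Unit × Pt => q.2.1) := measurable_fst.comp measurable_snd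
      exact (measurableSet_lt measurable_const hm).inter (measurableSet_lt hm measurable_const)
    have h := measurableSet_exists_mem (Θ := Unit)
      (Q := fun _ y => t + i * r < y.1 ∧ y.1 < t + (i + 1) * r) hQ
    have h2 : Measurable (fun l : List Pt => ((), l)) := measurable_const.prodMk measurable_id
    exact h2 h
  have h3 : {l : List Pt | Full t r m {y | y ∈ l}}
      = ⋂ i : ℕ, ⋂ _ : i < m, {l : List Pt | ∃ y ∈ l, t + i * r < y.1 ∧ y.1 < t + (i + 1) * r} := by
    ext l
    simp only [mem_iInter]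
    exact Iff.rfl
  rw [h3]
  exact MeasurableSet.iInter fun i => MeasurableSet.iInter fun _ => h1 i

private theorem e6_nil (p : Fin 3 → ℝ) (u w : ℝ) :
    Pm p u w {l | l = []} = ENNReal.ofReal (Real.exp (-(w - u))) := by
  have hm : MeasurableSet ({l | l.length = 0} : Set (List Pt)) :=
    measurable_lengthL (MeasurableSet.of_discrete (s := {k : ℕ | k = 0}))
  have hs : ({l | l = []} : Set (List Pt)) = {l | l.length = 0} := by
    ext l
    exact List.length_eq_zero_iff.symm
  have hm' : MeasurableSet ({l | l = []} : Set (List Pt)) := by rw [hs]; exact hm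
  rw [← lintegral_indicator_one hm', lintegral_Pm]
  have h0 : ∀ n : ℕ, n ≠ 0 → ∫⁻ l, ({l | l = []} : Set (List Pt)).indicator 1 l ∂(Jm p n u w) = 0 := by
    intro n hn
    have h1 : ∀ᵐ l ∂(Jm p n u w), ({l | l = []} : Set (List Pt)).indicator (1 : List Pt → ENNReal) l = 0 := by
      filter_upwards [ae_Jm p n u w] with l hl
      refine Set.indicator_of_notMem ?_ _
      intro hl'
      have h2 : l = [] := hl'
      have h3 := hl.2
      rw [h2] at h3
      exact hn h3.symm
    rw [lintegral_congr_ae h1, lintegral_zero]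
  rw [tsum_eq_single 0 h0, lintegral_Jm_zero p u w (measurable_one.indicator hm')]
  rw [Set.indicator_of_mem (show ([] : List Pt) ∈ {l | l = []} from rfl)]
  simp

private theorem e6_ne {p : Fin 3 → ℝ} (hp : PV p) {u w : ℝ} (h : u ≤ w) :
    Pm p u w {l | l ≠ []} = ENNReal.ofReal (1 - Real.exp (-(w - u))) := by
  haveI := isProb_Pm hp h
  have hm : MeasurableSet ({l | l.length = 0} : Set (List Pt)) :=
    measurable_lengthL (MeasurableSet.of_discrete (s := {k : ℕ | k = 0}))
  have hs : ({l | l = []} : Set (List Pt)) = {l | l.length = 0} := by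
    ext l
    exact List.length_eq_zero_iff.symm
  have hm' : MeasurableSet ({l | l = []} : Set (List Pt)) := by rw [hs]; exact hm
  have h1 : ({l | l ≠ []} : Set (List Pt)) = ({l | l = []} : Set (List Pt))ᶜ := rfl
  rw [h1, prob_compl_eq_one_sub hm', e6_nil, ENNReal.ofReal_sub _ (Real.exp_pos _).le,
    ENNReal.ofReal_one]

private theorem e6_full {t : ℝ} {r m : ℕ} (hr : 0 < r) {l₁ l₂ : List Pt}
    (h1 : SL t (t + m * r) l₁) (h2 : SL (t + m * r) (t + ((m + 1 : ℕ) : ℝ) * r) l₂) :
    Full t r (m + 1) {y | y ∈ l₁ ++ l₂} ↔ (Full t r m {y | y ∈ l₁} ∧ l₂ ≠ []) := by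
  have hr' : (0 : ℝ) < r := by exact_mod_cast hr
  constructor
  · intro h
    refine ⟨fun i hi => ?_, ?_⟩
    · obtain ⟨y, hy, hy1, hy2⟩ := h i (by omega)
      have hy' : y ∈ l₁ ∨ y ∈ l₂ := List.mem_append.1 hy
      rcases hy' with hy' | hy'
      · exact ⟨y, hy', hy1, hy2⟩
      · exfalso
        have h3 := (h2.2 y hy').1
        have h4 : ((i : ℝ) + 1) * r ≤ m * r := by
          refine mul_le_mul_of_nonneg_right ?_ hr'.le
          exact_mod_cast hi
        linarith
    · obtain ⟨y, hy, hy1, hy2⟩ := h m (by omega)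
      have hy' : y ∈ l₁ ∨ y ∈ l₂ := List.mem_append.1 hy
      rcases hy' with hy' | hy'
      · exfalso
        have h3 := (h1.2 y hy').2
        linarith
      · exact List.ne_nil_of_mem hy'
  · rintro ⟨h, hne⟩ i hi
    by_cases him : i < m
    · obtain ⟨y, hy, hy1, hy2⟩ := h i him
      exact ⟨y, List.mem_append.2 (Or.inl hy), hy1, hy2⟩
    · have him' : i = m := by omega
      subst him'
      obtain ⟨y, hy⟩ := List.exists_mem_of_ne_nil l₂ hne
      refine ⟨y, List.mem_append.2 (Or.inr hy), (h2.2 y hy).1, ?_⟩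
      have := (h2.2 y hy).2
      push_cast at this
      exact this

theorem Pm_Full {p : Fin 3 → ℝ} (hp : PV p) (t : ℝ) {r : ℕ} (hr : 0 < r) (m : ℕ) :
    Pm p t (t + m * r) {l | Full t r m {y | y ∈ l}}
      = ENNReal.ofReal ((1 - Real.exp (-(r : ℝ))) ^ m) := by
  have hr' : (0 : ℝ) < r := by exact_mod_cast hr
  induction m with
  | zero =>
    haveI := isProb_Pm hp (le_refl t)
    have h : {l : List Pt | Full t r 0 {y | y ∈ l}} = univ := by
      ext l
      exact ⟨fun _ => trivial, fun _ i hi => absurd hi (Nat.not_lt_zero i)⟩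
    rw [h]
    have : t + ((0 : ℕ) : ℝ) * r = t := by push_cast; ring
    rw [this, measure_univ]
    simp
  | succ m ih =>
    have hs1 : t ≤ t + m * r := by nlinarith [Nat.cast_nonneg (α := ℝ) m]
    have hs2 : t + m * r ≤ t + ((m + 1 : ℕ) : ℝ) * r := by push_cast; nlinarith
    have hM := measurableSet_Full t r (m + 1)
    have hM0 := measurableSet_Full t r m
    rw [← lintegral_indicator_one hM,
      lintegral_Pm_append p hs1 hs2 (measurable_one.indicator hM)]
    have hne : MeasurableSet ({l | l ≠ []} : Set (List Pt)) := by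
      have hm : MeasurableSet ({l | l.length = 0} : Set (List Pt)) :=
        measurable_lengthL (MeasurableSet.of_discrete (s := {k : ℕ | k = 0}))
      have hs : ({l | l ≠ []} : Set (List Pt)) = ({l | l.length = 0} : Set (List Pt))ᶜ := by
        ext l
        simp
      rw [hs]
      exact hm.compl
    have e1 : ∀ᵐ l₁ ∂(Pm p t (t + m * r)),
        ∫⁻ l₂, ({l : List Pt | Full t r (m + 1) {y | y ∈ l}}).indicator (1 : List Pt → ENNReal) (l₁ ++ l₂)
            ∂(Pm p (t + m * r) (t + ((m + 1 : ℕ) : ℝ) * r))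
          = ({l : List Pt | Full t r m {y | y ∈ l}}).indicator (1 : List Pt → ENNReal) l₁
            * ENNReal.ofReal (1 - Real.exp (-(r : ℝ))) := by
      filter_upwards [ae_Pm p t (t + m * r)] with l₁ hl₁
      have e2 : ∀ᵐ l₂ ∂(Pm p (t + m * r) (t + ((m + 1 : ℕ) : ℝ) * r)),
          ({l : List Pt | Full t r (m + 1) {y | y ∈ l}}).indicator (1 : List Pt → ENNReal) (l₁ ++ l₂)
            = ({l : List Pt | Full t r m {y | y ∈ l}}).indicator (1 : List Pt → ENNReal) l₁
              * ({l | l ≠ []} : Set (List Pt)).indicator (1 : List Pt → ENNReal) l₂ := by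
        filter_upwards [ae_Pm p (t + m * r) (t + ((m + 1 : ℕ) : ℝ) * r)] with l₂ hl₂
        have h := e6_full hr hl₁ hl₂
        by_cases hF : Full t r m {y | y ∈ l₁}
        · by_cases hn : l₂ ≠ []
          · have hF' : (l₁ ++ l₂) ∈ {l : List Pt | Full t r (m + 1) {y | y ∈ l}} := h.2 ⟨hF, hn⟩
            rw [indicator_of_mem hF',
              indicator_of_mem (show l₁ ∈ {l : List Pt | Full t r m {y | y ∈ l}} from hF),
              indicator_of_mem (show l₂ ∈ ({l | l ≠ []} : Set (List Pt)) from hn)]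
            simp
          · have hF' : (l₁ ++ l₂) ∉ {l : List Pt | Full t r (m + 1) {y | y ∈ l}} :=
              fun hc => hn (h.1 hc).2
            rw [indicator_of_notMem hF',
              indicator_of_notMem (show l₂ ∉ ({l | l ≠ []} : Set (List Pt)) from hn)]
            simp
        · have hF' : (l₁ ++ l₂) ∉ {l : List Pt | Full t r (m + 1) {y | y ∈ l}} :=
            fun hc => hF (h.1 hc).1
          rw [indicator_of_notMem hF',
            indicator_of_notMem (show l₁ ∉ {l : List Pt | Full t r m {y | y ∈ l}} from hF)]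
          simp
      rw [lintegral_congr_ae e2, lintegral_const_mul _ (measurable_one.indicator hne),
        lintegral_indicator_one hne, e6_ne hp hs2]
      congr 3
      push_cast
      ring_nf
    rw [lintegral_congr_ae e1, lintegral_mul_const _ (measurable_one.indicator hM0),
      lintegral_indicator_one hM0, ih, ← ENNReal.ofReal_mul, pow_succ]
    have : Real.exp (-(r : ℝ)) ≤ 1 := Real.exp_le_one_iff.2 (by linarith)
    exact pow_nonneg (by linarith) m

theorem P_Full {p : Fin 3 → ℝ} (hp : PV p) {Ω : Type} [MeasurableSpace Ω] {P : Measure Ω}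
    [IsProbabilityMeasure P] {S : Fin 3 → Ω → Set ℝ} (h : Hyp p P S) (t : ℝ) {r : ℕ} (hr : 0 < r)
    (m : ℕ) : P {ω | Full t r m (SS S ω)} = ENNReal.ofReal ((1 - Real.exp (-(r : ℝ))) ^ m) := by
  have hr' : (0 : ℝ) < r := by exact_mod_cast hr
  rcases Nat.eq_zero_or_pos m with hm | hm
  · subst hm
    have h1 : {ω | Full t r 0 (SS S ω)} = univ := by
      ext ω
      exact ⟨fun _ => trivial, fun _ i hi => absurd hi (Nat.not_lt_zero i)⟩
    rw [h1, measure_univ]
    simp
  · have hm' : (0 : ℝ) < m := by exact_mod_cast hm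
    have huw : t < t + m * r := by nlinarith
    have h1 := (window_event hp h huw (Q := fun Y => Full t r m Y) (measurableSet_Full t r m)).2
    rw [← Pm_Full hp t hr m, ← h1]
    congr 1
    ext ω
    constructor
    · intro hF i hi
      obtain ⟨y, hy, hy1, hy2⟩ := hF i hi
      refine ⟨y, ⟨hy, ?_, ?_⟩, hy1, hy2⟩
      · have : (0 : ℝ) ≤ i * r := by positivity
        linarith
      · have : ((i : ℝ) + 1) * r ≤ m * r := by
          refine mul_le_mul_of_nonneg_right ?_ hr'.le
          exact_mod_cast hi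
        linarith
    · intro hF i hi
      obtain ⟨y, hy, hy1, hy2⟩ := hF i hi
      exact ⟨y, hy.1, hy1, hy2⟩

end Pool.SM3
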