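/-
SM3.E7 : cuts isolate windows (deterministic).
PROOF. `cut_of_empty`: if `x.1 ≤ g + r/2` then `x.1 ≤ g`, if `g + r/2 ≤ y.1` then `g + r ≤ y.1`.
`exists_cut`: `¬ Full t r m Y` gives `i < m` with no point in `(t + i r, t + (i+1) r)`.
`Mt_win`: `Mt_restrict` (B2) with `H = Win Y c₁ c₂`: if `x ∈ H`, `M x z`, `|x-z| < r` then `z ∈ Y` (Rec) and `z ∈ H` by the cuts.  If `x ∉ Y` or `y ∉ Y` both sides
are False.
`Fr_win`: a partner at distance `< r` of a point of the window lies in the window; `Mt_win`.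
`Fr_win_win`: `Fr_win` for `Y' = Win Y u w`, `M = Mt Y'` (Mt_rec, Mt_symm), `Win Y' c₁ c₂ = Win Y c₁ c₂`.
-/
import Pool.Agent.Lib.SM3.B2
import Pool.Agent.Lib.SM3.EDefs

set_option autoImplicit false

open MeasureTheory Set

namespace Pool.SM3

theorem cut_of_empty {Y : Set Pt} {g r : ℝ} (hr : 0 < r) (h : ∀ y ∈ Y, ¬ (g < y.1 ∧ y.1 < g + r)) :
    Cut Y r (g + r / 2) := by
  intro x hx y hy h1 h2
  have hx' : x.1 ≤ g := by
    by_contra hc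
    exact h x hx ⟨not_le.1 hc, by linarith⟩
  have hy' : g + r ≤ y.1 := by
    by_contra hc
    exact h y hy ⟨by linarith, not_le.1 hc⟩
  linarith

theorem Cut.mono {Y : Set Pt} {r r' c : ℝ} (h : Cut Y r c) (hr : r' ≤ r) : Cut Y r' c :=
  fun x hx y hy h1 h2 => le_trans hr (h x hx y hy h1 h2)

theorem Cut.subset {Y Y' : Set Pt} {r c : ℝ} (h : Cut Y r c) (hY : Y' ⊆ Y) : Cut Y' r c :=
  fun x hx y hy h1 h2 => h x (hY hx) y (hY hy) h1 h2

theorem exists_cut {Y : Set Pt} {t : ℝ} {r m : ℕ} (hr : 0 < r) (h : ¬ Full t r m Y) :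
    ∃ c, t < c ∧ c < t + m * r ∧ Cut Y r c := by
  unfold Full at h
  push Not at h
  obtain ⟨i, hi, hempty⟩ := h
  have hr' : (0 : ℝ) < r := by exact_mod_cast hr
  refine ⟨t + i * r + r / 2, ?_, ?_, ?_⟩
  · have : (0 : ℝ) ≤ (i : ℝ) * r := by positivity
    linarith
  · have : (i : ℝ) + 1 ≤ m := by exact_mod_cast hi
    have h2 : ((i : ℝ) + 1) * r ≤ m * r := mul_le_mul_of_nonneg_right this hr'.le
    nlinarith
  · refine cut_of_empty hr' (fun y hy hc => ?_)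
    have := hempty y hy hc.1
    nlinarith [hc.2]

private theorem E7_hiso {Y : Set Pt} {r c₁ c₂ : ℝ} {M : Pt → Pt → Prop} (hM : Rec Y r M)
    (h1 : Cut Y r c₁) (h2 : Cut Y r c₂) :
    ∀ x ∈ Win Y c₁ c₂, ∀ z, M x z → |x.1 - z.1| < r → z ∈ Win Y c₁ c₂ := by
  intro x hx z hxz hd
  have hz : z ∈ Y := ((hM x z hd).1 hxz).2.1
  refine ⟨hz, ?_, ?_⟩
  · by_contra hc
    have := h1 z hz x hx.1 (not_lt.1 hc) hx.2.1.le
    rw [abs_lt] at hd
    linarith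
  · by_contra hc
    have := h2 x hx.1 z hz hx.2.2.le (not_lt.1 hc)
    rw [abs_lt] at hd
    linarith

theorem Mt_win {Y : Set Pt} {r c₁ c₂ : ℝ} {M : Pt → Pt → Prop} (hM : Rec Y r M)
    (hs : ∀ x y, M x y → M y x) (h1 : Cut Y r c₁) (h2 : Cut Y r c₂)
    (hf : (Win Y c₁ c₂).Finite) {x y : Pt} (hx : c₁ < x.1 ∧ x.1 < c₂) (hy : c₁ < y.1 ∧ y.1 < c₂)
    (hxy : |x.1 - y.1| < r) : M x y ↔ Mt (Win Y c₁ c₂) x y := by
  by_cases hxY : x ∈ Y
  · by_cases hyY : y ∈ Y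
    · exact Mt_restrict (fun z hz => hz.1) hf hM hs (E7_hiso hM h1 h2) ⟨hxY, hx⟩ ⟨hyY, hy⟩ hxy
    · constructor
      · intro hh
        exact absurd ((hM x y hxy).1 hh).2.1 hyY
      · intro hh
        exact absurd (Mt_mem hh).2.1.1 hyY
  · constructor
    · intro hh
      exact absurd ((hM x y hxy).1 hh).1 hxY
    · intro hh
      exact absurd (Mt_mem hh).1.1 hxY

theorem Fr_win {Y : Set Pt} {r c₁ c₂ : ℝ} {M : Pt → Pt → Prop} (hM : Rec Y r M)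
    (hs : ∀ x y, M x y → M y x) (h1 : Cut Y r c₁) (h2 : Cut Y r c₂)
    (hf : (Win Y c₁ c₂).Finite) {x : Pt} (hx : c₁ < x.1 ∧ x.1 < c₂) :
    (∀ y, M x y → r ≤ |x.1 - y.1|) ↔ Fr (Win Y c₁ c₂) r x := by
  constructor
  · intro hfr y hy
    by_contra hc
    push Not at hc
    have hyW := (Mt_mem hy).2.1
    exact absurd (hfr y ((Mt_win hM hs h1 h2 hf hx hyW.2 hc).2 hy)) (not_le.2 hc)
  · intro hfr y hy
    by_contra hc
    push Not at hc
    have hxY : x ∈ Y := ((hM x y hc).1 hy).1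
    have hyW := E7_hiso hM h1 h2 x ⟨hxY, hx⟩ y hy hc
    exact absurd (hfr y ((Mt_win hM hs h1 h2 hf hx hyW.2 hc).1 hy)) (not_le.2 hc)

theorem Fr_win_win {Y : Set Pt} {r c₁ c₂ u w : ℝ} (hf : (Win Y u w).Finite)
    (h1 : Cut (Win Y u w) r c₁) (h2 : Cut (Win Y u w) r c₂) (hu : u ≤ c₁) (hw : c₂ ≤ w) {x : Pt}
    (hx : c₁ < x.1 ∧ x.1 < c₂) : Fr (Win Y u w) r x ↔ Fr (Win Y c₁ c₂) r x := by
  have hW : Win (Win Y u w) c₁ c₂ = Win Y c₁ c₂ := by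
    ext z
    constructor
    · intro hz
      exact ⟨hz.1.1, hz.2⟩
    · intro hz
      exact ⟨⟨hz.1, lt_of_le_of_lt hu hz.2.1, lt_of_lt_of_le hz.2.2 hw⟩, hz.2⟩
  have := Fr_win (Y := Win Y u w) (Mt_rec hf r) (fun x y => Mt_symm) h1 h2
    (hf.subset (fun z hz => hz.1)) hx
  rw [hW] at this
  exact this

private theorem E7_side {Z H : Set Pt} (hf : Z.Finite) (hH : H ⊆ Z) {r : ℝ}
    (hiso : ∀ x ∈ H, ∀ z ∈ Z, |x.1 - z.1| < r → z ∈ H) {x : Pt} (hx : x ∈ Z → x ∈ H) :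
    Fr Z r x ↔ Fr H r x := by
  have hiso' : ∀ x ∈ H, ∀ z, Mt Z x z → |x.1 - z.1| < r → z ∈ H :=
    fun x hx z hz hd => hiso x hx z (Mt_mem hz).2.1 hd
  constructor
  · intro hfr y hy
    by_contra hc
    push Not at hc
    have hm := Mt_mem hy
    exact absurd (hfr y ((Mt_restrict hH (hf.subset hH) (Mt_rec hf r) (fun _ _ => Mt_symm) hiso'
      hm.1 hm.2.1 hc).2 hy)) (not_le.2 hc)
  · intro hfr y hy
    by_contra hc
    push Not at hc
    have hm := Mt_mem hy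
    have hyH := hiso' x (hx hm.1) y hy hc
    exact absurd (hfr y ((Mt_restrict hH (hf.subset hH) (Mt_rec hf r) (fun _ _ => Mt_symm) hiso'
      (hx hm.1) hyH hc).1 hy)) (not_le.2 hc)

/-- one-sided version: the point `x = (t,a)` is the left end -/
theorem Fr_right_win {Z : Set Pt} (hf : Z.Finite) {t r c : ℝ} {a : Fin 3}
    (hZ : ∀ y ∈ Z, t ≤ y.1) (h1 : Cut Z r c) (hc : t < c) :
    Fr Z r (t, a) ↔ Fr {y | y ∈ Z ∧ y.1 < c} r (t, a) := by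
  refine E7_side hf (fun y hy => hy.1) ?_ (fun hx => ⟨hx, hc⟩)
  intro x hx z hz hd
  refine ⟨hz, ?_⟩
  by_contra hcc
  have := h1 x hx.1 z hz hx.2.le (not_lt.1 hcc)
  rw [abs_lt] at hd
  linarith

/-- one-sided version: the point `x = (t,a)` is the right end -/
theorem Fr_left_win {Z : Set Pt} (hf : Z.Finite) {t r c : ℝ} {a : Fin 3}
    (hZ : ∀ y ∈ Z, y.1 ≤ t) (h1 : Cut Z r c) (hc : c < t) :
    Fr Z r (t, a) ↔ Fr {y | y ∈ Z ∧ c < y.1} r (t, a) := by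
  refine E7_side hf (fun y hy => hy.1) ?_ (fun hx => ⟨hx, hc⟩)
  intro x hx z hz hd
  refine ⟨hz, ?_⟩
  by_contra hcc
  have := h1 z hz x hx.1 (not_lt.1 hcc) hx.2.le
  rw [abs_lt] at hd
  linarith

end Pool.SM3
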