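/-
SM3.E10 : almost every configuration is good.
PROOF. `fin`: Hyp.fin (`Win (SS S ω) u w` is the union over the three colours of images of finite sets).
`noIso`: for `N ≥ 1` window_event on `(-N, N)` with `Q = NoIso`: `{l | NoIso {y | y ∈ l}}` is measurable (a finite-type condition: `measurableSet_forall_mem` three
times) and has full measure by ae_generic (subset of a closed system); an isosceles triple lies in some window.
`right`: for `r ∈ ℕ`, `r ≥ 1`, `j ∈ ℤ`: `P {Full j r m (SS S ω)} = (1 - e^{-r})^m → 0` (P_Full), so a.s. some `m` with `¬ Full`, exists_cut; countably many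
`(r, j)`; for real `r, t` take `r' ≥ max r 1`, `j ≥ t` (Cut.mono).  `left`: `Full (j - m r) r m`.
Integers: Hyp.law for `A = {j}` (volume 0): the count is `0` a.s.
-/
import Pool.Agent.Lib.SM3.A11
import Pool.Agent.Lib.SM3.E6
import Pool.Agent.Lib.SM3.E7

set_option autoImplicit false

open MeasureTheory Set

namespace Pool.SM3

private theorem E10_meas : MeasurableSet {l : List Pt | NoIso {y | y ∈ l}} := by
  obtain ⟨R, hR⟩ : ∃ R : Pt → Pt → Pt → Prop,
      R = fun x y z => |x.1 - y.1| = |x.1 - z.1| → y = z := ⟨_, rfl⟩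
  have m0 : MeasurableSet {q : (Pt × Pt) × Pt | R q.1.1 q.1.2 q.2} := by
    have e1 : {q : (Pt × Pt) × Pt | R q.1.1 q.1.2 q.2}
        = {q : (Pt × Pt) × Pt | |q.1.1.1 - q.1.2.1| = |q.1.1.1 - q.2.1|}ᶜ ∪
          ({q : (Pt × Pt) × Pt | q.1.2.1 = q.2.1} ∩ {q : (Pt × Pt) × Pt | q.1.2.2 = q.2.2}) := by
      ext q
      simp only [hR, mem_ofPred_eq, mem_union, mem_compl_iff, mem_inter_iff]
      rw [← Prod.ext_iff]
      tauto
    rw [e1]
    have a1 : Measurable (fun q : (Pt × Pt) × Pt => q.1.1.1) := measurable_fst.fst.fst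
    have a2 : Measurable (fun q : (Pt × Pt) × Pt => q.1.2.1) := measurable_fst.snd.fst
    have a3 : Measurable (fun q : (Pt × Pt) × Pt => q.2.1) := measurable_snd.fst
    have a4 : Measurable (fun q : (Pt × Pt) × Pt => q.1.2.2) := measurable_fst.snd.snd
    have a5 : Measurable (fun q : (Pt × Pt) × Pt => q.2.2) := measurable_snd.snd
    refine MeasurableSet.union (MeasurableSet.compl ?_) (MeasurableSet.inter ?_ ?_)
    · exact measurableSet_eq_fun ((a1.sub a2).abs) ((a1.sub a3).abs)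
    · exact measurableSet_eq_fun a2 a3
    · exact measurableSet_eq_fun a4 a5
  have m3 : MeasurableSet {q : (Pt × Pt) × List Pt | ∀ z ∈ q.2, R q.1.1 q.1.2 z} :=
    measurableSet_forall_mem (Θ := Pt × Pt) (Q := fun θ z => R θ.1 θ.2 z) m0
  have m2 : MeasurableSet {q : (Pt × List Pt) × List Pt | ∀ y ∈ q.2, ∀ z ∈ q.1.2, R q.1.1 y z} := by
    refine measurableSet_forall_mem (Θ := Pt × List Pt)
      (Q := fun θ y => ∀ z ∈ θ.2, R θ.1 y z) ?_
    have hf : Measurable (fun q : (Pt × List Pt) × Pt => ((q.1.1, q.2), q.1.2)) :=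
      (measurable_fst.fst.prodMk measurable_snd).prodMk measurable_fst.snd
    exact hf m3
  have m1 : MeasurableSet {q : (List Pt × List Pt) × List Pt |
      ∀ x ∈ q.2, ∀ y ∈ q.1.1, ∀ z ∈ q.1.2, R x y z} := by
    refine measurableSet_forall_mem (Θ := List Pt × List Pt)
      (Q := fun θ x => ∀ y ∈ θ.1, ∀ z ∈ θ.2, R x y z) ?_
    have hf : Measurable (fun q : (List Pt × List Pt) × Pt => ((q.2, q.1.2), q.1.1)) :=
      (measurable_snd.prodMk measurable_fst.snd).prodMk measurable_fst.fst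
    exact hf m2
  have hf : Measurable (fun l : List Pt => ((l, l), l)) :=
    (measurable_id.prodMk measurable_id).prodMk measurable_id
  have h := hf m1
  have e : {l : List Pt | NoIso {y | y ∈ l}} = (fun l : List Pt => ((l, l), l)) ⁻¹'
      {q : (List Pt × List Pt) × List Pt | ∀ x ∈ q.2, ∀ y ∈ q.1.1, ∀ z ∈ q.1.2, R x y z} := by
    ext l
    simp only [NoIso, hR, mem_ofPred_eq, mem_preimage]
  rw [e]
  exact h

private theorem E10_noIso {p : Fin 3 → ℝ} (hp : PV p) {Ω : Type} [MeasurableSpace Ω] {P : Measure Ω}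
    [IsProbabilityMeasure P] {S : Fin 3 → Ω → Set ℝ} (h : Hyp p P S) :
    ∀ᵐ ω ∂P, NoIso (SS S ω) := by
  have h1 : ∀ N : ℕ, ∀ᵐ ω ∂P, NoIso (Win (SS S ω) (-((N : ℝ) + 1)) ((N : ℝ) + 1)) := by
    intro N
    have hN : (0 : ℝ) ≤ N := Nat.cast_nonneg N
    have huw : -((N : ℝ) + 1) < (N : ℝ) + 1 := by linarith
    have h2 := (window_event hp h huw (Q := fun Y => ¬ NoIso Y) E10_meas.compl).2
    rw [ae_iff, h2]
    have h3 := ae_generic p huw 0 0
    have h4 : ∀ᵐ l ∂(Pm p (-((N : ℝ) + 1)) ((N : ℝ) + 1)), NoIso {y | y ∈ l} := by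
      filter_upwards [h3] with l hl
      intro x hx y hy z hz
      refine hl.1 x ?_ y ?_ z ?_
      · exact List.mem_cons_of_mem _ (List.mem_cons_of_mem _ hx)
      · exact List.mem_cons_of_mem _ (List.mem_cons_of_mem _ hy)
      · exact List.mem_cons_of_mem _ (List.mem_cons_of_mem _ hz)
    exact ae_iff.mp h4
  filter_upwards [ae_all_iff.mpr h1] with ω hω
  intro x hx y hy z hz
  obtain ⟨N, hN⟩ := exists_nat_gt (|x.1| + |y.1| + |z.1|)
  have ax := abs_nonneg x.1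
  have ay := abs_nonneg y.1
  have az := abs_nonneg z.1
  have hw : ∀ t : Pt, t ∈ SS S ω → |t.1| ≤ |x.1| + |y.1| + |z.1| →
      t ∈ Win (SS S ω) (-((N : ℝ) + 1)) ((N : ℝ) + 1) := by
    intro t ht hle
    have h3 := abs_le.mp (le_refl |t.1|)
    exact ⟨ht, by linarith [h3.1], by linarith [h3.2]⟩
  exact hω N x (hw x hx (by linarith)) y (hw y hy (by linarith)) z (hw z hz (by linarith))

private theorem E10_full {p : Fin 3 → ℝ} (hp : PV p) {Ω : Type} [MeasurableSpace Ω] {P : Measure Ω}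
    [IsProbabilityMeasure P] {S : Fin 3 → Ω → Set ℝ} (h : Hyp p P S) (t : ℕ → ℝ) {r : ℕ}
    (hr : 0 < r) : ∀ᵐ ω ∂P, ∃ m, ¬ Full (t m) r m (SS S ω) := by
  rw [ae_iff]
  have hT : Filter.Tendsto (fun m : ℕ => ENNReal.ofReal ((1 - Real.exp (-(r : ℝ))) ^ m))
      Filter.atTop (nhds 0) := by
    have h1 : Filter.Tendsto (fun m : ℕ => (1 - Real.exp (-(r : ℝ))) ^ m) Filter.atTop (nhds 0) := by
      refine tendsto_pow_atTop_nhds_zero_of_lt_one ?_ ?_
      · have : Real.exp (-(r : ℝ)) ≤ 1 := Real.exp_le_one_iff.mpr (by simp)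
        linarith
      · have := Real.exp_pos (-(r : ℝ))
        linarith
    have h2 := ENNReal.tendsto_ofReal h1
    rwa [ENNReal.ofReal_zero] at h2
  refine le_antisymm (ge_of_tendsto' hT ?_) zero_le
  intro m
  rw [← P_Full hp h (t m) hr m]
  refine measure_mono ?_
  intro ω hω
  by_contra hc
  exact hω ⟨m, hc⟩

theorem ae_good {p : Fin 3 → ℝ} (hp : PV p) {Ω : Type} [MeasurableSpace Ω] {P : Measure Ω}
    [IsProbabilityMeasure P] {S : Fin 3 → Ω → Set ℝ} (h : Hyp p P S) :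
    ∀ᵐ ω ∂P, Good (SS S ω) := by
  have hR : ∀ᵐ ω ∂P, ∀ (r : ℕ) (j : ℤ), ∃ m, ¬ Full ((j : ℝ)) (r + 1) m (SS S ω) := by
    refine ae_all_iff.mpr fun r => ae_all_iff.mpr fun j => ?_
    exact E10_full hp h (fun _ => (j : ℝ)) (Nat.succ_pos r)
  have hL : ∀ᵐ ω ∂P, ∀ (r : ℕ) (j : ℤ), ∃ m : ℕ,
      ¬ Full ((j : ℝ) - m * ((r + 1 : ℕ) : ℝ)) (r + 1) m (SS S ω) := by
    refine ae_all_iff.mpr fun r => ae_all_iff.mpr fun j => ?_
    exact E10_full hp h (fun m => (j : ℝ) - m * ((r + 1 : ℕ) : ℝ)) (Nat.succ_pos r)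
  filter_upwards [E10_noIso hp h, hR, hL] with ω h1 h2 h3
  refine ⟨h1, ?_, ?_, ?_⟩
  · intro u w
    have hsub : Win (SS S ω) u w ⊆ ⋃ c : Fin 3, (fun x : ℝ => ((x, c) : Pt)) '' (S c ω ∩ Ioo u w) := by
      intro y hy
      refine mem_iUnion.mpr ⟨y.2, y.1, ⟨hy.1, hy.2⟩, rfl⟩
    refine Set.Finite.subset (Set.finite_iUnion fun c => ?_) hsub
    exact (h.fin c ω (Ioo u w) (Metric.isBounded_Ioo u w)).image _
  · intro r t
    obtain ⟨r', hr'⟩ := exists_nat_ge r
    obtain ⟨m, hm⟩ := h2 r' ⌈t⌉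
    obtain ⟨c, hc1, _, hc3⟩ := exists_cut (Nat.succ_pos r') hm
    refine ⟨c, lt_of_le_of_lt (Int.le_ceil t) hc1, hc3.mono ?_⟩
    push_cast
    linarith
  · intro r t
    obtain ⟨r', hr'⟩ := exists_nat_ge r
    obtain ⟨m, hm⟩ := h3 r' ⌊t⌋
    obtain ⟨c, _, hc2, hc3⟩ := exists_cut (Nat.succ_pos r') hm
    refine ⟨c, ?_, hc3.mono ?_⟩
    · have := Int.floor_le t
      linarith
    · push_cast
      linarith

theorem ae_no_int {p : Fin 3 → ℝ} (hp : PV p) {Ω : Type} [MeasurableSpace Ω] {P : Measure Ω}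
    [IsProbabilityMeasure P] {S : Fin 3 → Ω → Set ℝ} (h : Hyp p P S) :
    ∀ᵐ ω ∂P, ∀ (j : ℤ) (i : Fin 3), (j : ℝ) ∉ S i ω := by
  refine ae_all_iff.mpr fun j => ae_all_iff.mpr fun i => ?_
  rw [ae_iff]
  have h1 := h.law i {(j : ℝ)} (measurableSet_singleton _) Bornology.isBounded_singleton 1
  have h2 : P {ω | (S i ω ∩ {(j : ℝ)}).ncard = 1} = 0 := by
    rw [h1]
    simp
  refine measure_mono_null ?_ h2
  intro ω hω
  have hj : (j : ℝ) ∈ S i ω := by
    by_contra hc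
    exact hω hc
  have : S i ω ∩ {(j : ℝ)} = {(j : ℝ)} := by
    ext x
    simp only [mem_inter_iff, mem_singleton_iff]
    constructor
    · exact fun hx => hx.2
    · rintro rfl
      exact ⟨hj, rfl⟩
  show (S i ω ∩ {(j : ℝ)}).ncard = 1
  rw [this, Set.ncard_singleton]

end Pool.SM3
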