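/-
SM3.E11 : window events: probability, independence, symmetry.
PROOF. `Ev a j r m Y ↔ Q j (Win Y (j - rm) (j+1+rm))` with
`Q j Z := ∃ x ∈ Z, x.2 = a ∧ j < x.1 ∧ x.1 < j+1 ∧ Fr Z r x`.
`{l | Q j {y | y ∈ l}}` is measurable (measurableSet_exists_mem with parameter `l`,
measurableSet_Fr).  window_event; then shift by `j` (lintegral_Pm_shift; `Fr_image` for
`φ y = (y.1 + j, y.2)`, `c = 1`).
`Ev_indep`: window_event on the big window `(j - rm, j' + 1 + rm)` with
`Q Z = Q j (Win Z ..) ∧ Q j' (Win Z ..)`, and lintegral_Pm_wf2 (wf_set).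
`al_swap`: lintegral_Pm_colour with `σ = swap 1 2`, Fr_image.
-/
import Pool.Agent.Lib.SM3.A8
import Pool.Agent.Lib.SM3.A9
import Pool.Agent.Lib.SM3.B5
import Pool.Agent.Lib.SM3.B6
import Pool.Agent.Lib.SM3.E5

set_option autoImplicit false

open MeasureTheory Set

namespace Pool.SM3

private def Q11 (a : Fin 3) (j : ℤ) (r : ℕ) (Z : Set Pt) : Prop :=
  ∃ x ∈ Z, x.2 = a ∧ (j : ℝ) < x.1 ∧ x.1 < j + 1 ∧ Fr Z r x

private theorem Ev_iff11 (a : Fin 3) (j : ℤ) (r m : ℕ) (Y : Set Pt) :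
    Ev a j r m Y ↔ Q11 a j r (Win Y ((j : ℝ) - r * m) (j + 1 + r * m)) := by
  have hrm : (0 : ℝ) ≤ (r : ℝ) * m := by positivity
  constructor
  · rintro ⟨x, hx, ha, h1, h2, h3⟩
    exact ⟨x, ⟨hx, by linarith, by linarith⟩, ha, h1, h2, h3⟩
  · rintro ⟨x, hx, ha, h1, h2, h3⟩
    exact ⟨x, hx.1, ha, h1, h2, h3⟩

private theorem meas11 (a : Fin 3) (j : ℤ) (r : ℕ) :
    MeasurableSet {l : List Pt | Q11 a j r {y | y ∈ l}} := by
  have h1 : MeasurableSet {q : List Pt × Pt | q.2.2 = a ∧ (j : ℝ) < q.2.1 ∧ q.2.1 < j + 1 ∧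
      Fr {y | y ∈ q.1} r q.2} := by
    have hm1 : Measurable (fun q : List Pt × Pt => q.2.1) := measurable_fst.comp measurable_snd
    have hm2 : Measurable (fun q : List Pt × Pt => q.2.2) := measurable_snd.comp measurable_snd
    have hF : Measurable (fun q : List Pt × Pt => ((q.1, (r : ℝ), q.2) : List Pt × ℝ × Pt)) :=
      measurable_fst.prodMk (measurable_const.prodMk measurable_snd)
    refine MeasurableSet.inter (s₁ := {q : List Pt × Pt | q.2.2 = a}) ?_ ?_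
    · exact hm2 (measurableSet_singleton a)
    · refine MeasurableSet.inter (s₁ := {q : List Pt × Pt | (j : ℝ) < q.2.1}) ?_ ?_
      · exact measurableSet_lt measurable_const hm1
      · refine MeasurableSet.inter (s₁ := {q : List Pt × Pt | q.2.1 < (j : ℝ) + 1}) ?_ ?_
        · exact measurableSet_lt hm1 measurable_const
        · exact hF measurableSet_Fr
  have h2 := measurableSet_exists_mem (Q := fun (l : List Pt) (y : Pt) => y.2 = a ∧ (j : ℝ) < y.1 ∧
    y.1 < j + 1 ∧ Fr {z | z ∈ l} r y) h1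
  have h3 : Measurable (fun l : List Pt => ((l, l) : List Pt × List Pt)) :=
    measurable_id.prodMk measurable_id
  exact h3 h2

private theorem shift_meas : ∀ h : ℝ,
    Measurable (fun l : List Pt => l.map (fun y : Pt => (y.1 + h, y.2))) := by
  intro h
  exact measurable_mapL ((measurable_fst.add_const h).prodMk measurable_snd)

private theorem Pm_shift11 (p : Fin 3 → ℝ) (h u w : ℝ) {A : Set (List Pt)} (hA : MeasurableSet A) :
    Pm p (u + h) (w + h) A
      = Pm p u w {l | l.map (fun y : Pt => (y.1 + h, y.2)) ∈ A} := by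
  have hB : MeasurableSet {l : List Pt | l.map (fun y : Pt => (y.1 + h, y.2)) ∈ A} :=
    shift_meas h hA
  rw [← lintegral_indicator_one hA, lintegral_Pm_shift p h u w (measurable_one.indicator hA),
    ← lintegral_indicator_one hB]
  rfl

private noncomputable def shiftE (h : ℝ) : Pt ≃ Pt where
  toFun y := (y.1 + h, y.2)
  invFun y := (y.1 - h, y.2)
  left_inv y := by simp
  right_inv y := by simp

private theorem Fr_shift11 (h : ℝ) (l : List Pt) (r : ℝ) (x : Pt) :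
    Fr {y | y ∈ l.map (fun y : Pt => ((y.1 + h, y.2) : Pt))} r (x.1 + h, x.2) ↔
      Fr {y | y ∈ l} r x := by
  have h1 := Fr_image (shiftE h) (c := 1) one_pos
    (fun x y => by simp only [shiftE, Equiv.coe_fn_mk, one_mul]; congr 1; ring)
    (fun x y => Iff.rfl) {y | y ∈ l} r x
  rw [one_mul] at h1
  rw [← h1]
  have h2 : {y | y ∈ l.map (fun y : Pt => ((y.1 + h, y.2) : Pt))} = shiftE h '' {y | y ∈ l} := by
    ext y
    simp only [List.mem_map, mem_ofPred_eq, mem_image]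
    rfl
  rw [h2]
  rfl

private theorem Q_shift11 (a : Fin 3) (j : ℤ) (r : ℕ) (l : List Pt) :
    Q11 a j r {y | y ∈ l.map (fun y : Pt => ((y.1 + (j : ℝ), y.2) : Pt))} ↔
      ∃ x ∈ l, x.2 = a ∧ 0 < x.1 ∧ x.1 < 1 ∧ Fr {y | y ∈ l} r x := by
  constructor
  · rintro ⟨x, hx, ha, h1, h2, h3⟩
    obtain ⟨y, hy, rfl⟩ := List.mem_map.1 hx
    refine ⟨y, hy, ha, ?_, ?_, (Fr_shift11 _ _ _ _).1 h3⟩
    · simp only at h1
      linarith
    · simp only at h2
      linarith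
  · rintro ⟨y, hy, ha, h1, h2, h3⟩
    refine ⟨(y.1 + (j : ℝ), y.2), List.mem_map.2 ⟨y, hy, rfl⟩, ha, ?_, ?_,
      (Fr_shift11 _ _ _ _).2 h3⟩
    · simp only
      linarith
    · simp only
      linarith

private theorem Pm_Q11 (p : Fin 3 → ℝ) (a : Fin 3) (j : ℤ) (r m : ℕ) :
    (Pm p ((j : ℝ) - r * m) (j + 1 + r * m)).real {l | Q11 a j r {y | y ∈ l}} = al p a r m := by
  have h1 : ((j : ℝ) - r * m) = -((r : ℝ) * m) + j := by ring
  have h2 : ((j : ℝ) + 1 + r * m) = (1 + (r : ℝ) * m) + j := by ring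
  rw [h1, h2, Measure.real, Pm_shift11 p _ _ _ (meas11 a j r), al, Measure.real]
  congr 2
  ext l
  exact Q_shift11 a j r l

theorem Ev_null {p : Fin 3 → ℝ} (hp : PV p) {Ω : Type} [MeasurableSpace Ω] {P : Measure Ω}
    [IsProbabilityMeasure P] {S : Fin 3 → Ω → Set ℝ} (h : Hyp p P S) (a : Fin 3) (j : ℤ) (r m : ℕ) :
    NullMeasurableSet {ω | Ev a j r m (SS S ω)} P := by
  have hrm : (0 : ℝ) ≤ (r : ℝ) * m := by positivity
  have hw := window_event hp h (u := (j : ℝ) - r * m) (w := j + 1 + r * m) (by linarith)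
    (meas11 a j r)
  simp only [Ev_iff11]
  exact hw.1

theorem Ev_prob {p : Fin 3 → ℝ} (hp : PV p) {Ω : Type} [MeasurableSpace Ω] {P : Measure Ω}
    [IsProbabilityMeasure P] {S : Fin 3 → Ω → Set ℝ} (h : Hyp p P S) (a : Fin 3) (j : ℤ) (r m : ℕ) :
    P.real {ω | Ev a j r m (SS S ω)} = al p a r m := by
  have hrm : (0 : ℝ) ≤ (r : ℝ) * m := by positivity
  have hw := window_event hp h (u := (j : ℝ) - r * m) (w := j + 1 + r * m) (by linarith)
    (meas11 a j r)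
  simp only [Ev_iff11]
  rw [Measure.real, hw.2, ← Pm_Q11 p a j r m, Measure.real]

private theorem Win_Win11 (Y : Set Pt) {u w u' w' : ℝ} (h1 : u ≤ u') (h2 : w' ≤ w) :
    Win (Win Y u w) u' w' = Win Y u' w' := by
  ext y
  constructor
  · rintro ⟨⟨h, _, _⟩, h5, h6⟩
    exact ⟨h, h5, h6⟩
  · rintro ⟨h, h5, h6⟩
    exact ⟨⟨h, by linarith, by linarith⟩, h5, h6⟩

theorem Ev_indep {p : Fin 3 → ℝ} (hp : PV p) {Ω : Type} [MeasurableSpace Ω] {P : Measure Ω}
    [IsProbabilityMeasure P] {S : Fin 3 → Ω → Set ℝ} (h : Hyp p P S) (a a' : Fin 3) {j j' : ℤ}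
    (r m : ℕ) (hj : j + 1 + 2 * r * m ≤ j') :
    P.real ({ω | Ev a j r m (SS S ω)} ∩ {ω | Ev a' j' r m (SS S ω)})
      = al p a r m * al p a' r m := by
  have hrm : (0 : ℝ) ≤ (r : ℝ) * m := by positivity
  have hj' : (j : ℝ) + 1 + 2 * (r * m) ≤ j' := by
    have : ((j + 1 + 2 * r * m : ℤ) : ℝ) ≤ (j' : ℝ) := by exact_mod_cast hj
    push_cast at this
    linarith
  obtain ⟨A, hA⟩ : ∃ A : Set (List Pt), A = {l | Q11 a j r {y | y ∈ l}} := ⟨_, rfl⟩
  obtain ⟨B, hB⟩ : ∃ B : Set (List Pt), B = {l | Q11 a' j' r {y | y ∈ l}} := ⟨_, rfl⟩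
  have hAm : MeasurableSet A := by rw [hA]; exact meas11 a j r
  have hBm : MeasurableSet B := by rw [hB]; exact meas11 a' j' r
  have hset : {l : List Pt | Q11 a j r (Win {y | y ∈ l} ((j : ℝ) - r * m) (j + 1 + r * m)) ∧
      Q11 a' j' r (Win {y | y ∈ l} ((j' : ℝ) - r * m) (j' + 1 + r * m))} =
      (wf ((j : ℝ) - r * m) (j + 1 + r * m) ⁻¹' A) ∩
        (wf ((j' : ℝ) - r * m) (j' + 1 + r * m) ⁻¹' B) := by
    ext l
    simp only [mem_ofPred_eq, mem_inter_iff, mem_preimage, hA, hB, wf_set]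
  have hm : MeasurableSet {l : List Pt |
      Q11 a j r (Win {y | y ∈ l} ((j : ℝ) - r * m) (j + 1 + r * m)) ∧
      Q11 a' j' r (Win {y | y ∈ l} ((j' : ℝ) - r * m) (j' + 1 + r * m))} := by
    rw [hset]
    exact (measurable_wf _ _ hAm).inter (measurable_wf _ _ hBm)
  have hw := window_event hp h (u := (j : ℝ) - r * m) (w := j' + 1 + r * m) (by linarith)
    (Q := fun Z => Q11 a j r (Win Z ((j : ℝ) - r * m) (j + 1 + r * m)) ∧
      Q11 a' j' r (Win Z ((j' : ℝ) - r * m) (j' + 1 + r * m))) hm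
  have hE : {ω | Ev a j r m (SS S ω)} ∩ {ω | Ev a' j' r m (SS S ω)} =
      {ω | Q11 a j r (Win (Win (SS S ω) ((j : ℝ) - r * m) (j' + 1 + r * m)) ((j : ℝ) - r * m)
        (j + 1 + r * m)) ∧ Q11 a' j' r (Win (Win (SS S ω) ((j : ℝ) - r * m) (j' + 1 + r * m))
          ((j' : ℝ) - r * m) (j' + 1 + r * m))} := by
    ext ω
    simp only [mem_ofPred_eq, mem_inter_iff, Ev_iff11]
    rw [Win_Win11 _ le_rfl (by linarith), Win_Win11 _ (by linarith) le_rfl]
  rw [hE, Measure.real, hw.2, hset]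
  have hI := lintegral_Pm_wf2 hp (u := (j : ℝ) - r * m) (u₁ := (j : ℝ) - r * m)
    (w₁ := j + 1 + r * m) (u₂ := (j' : ℝ) - r * m) (w₂ := j' + 1 + r * m) (w := j' + 1 + r * m)
    le_rfl (by linarith) (by linarith) (by linarith) le_rfl
    (Φ := A.indicator 1) (Ψ := B.indicator 1) (measurable_one.indicator hAm)
    (measurable_one.indicator hBm)
  rw [lintegral_indicator_one hAm, lintegral_indicator_one hBm] at hI
  have hI2 : ∫⁻ l, A.indicator 1 (wf ((j : ℝ) - r * m) (j + 1 + r * m) l) *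
      B.indicator 1 (wf ((j' : ℝ) - r * m) (j' + 1 + r * m) l)
        ∂(Pm p ((j : ℝ) - r * m) (j' + 1 + r * m))
      = Pm p ((j : ℝ) - r * m) (j' + 1 + r * m)
        ((wf ((j : ℝ) - r * m) (j + 1 + r * m) ⁻¹' A) ∩
          (wf ((j' : ℝ) - r * m) (j' + 1 + r * m) ⁻¹' B)) := by
    rw [← lintegral_indicator_one ((measurable_wf _ _ hAm).inter (measurable_wf _ _ hBm)),
      inter_indicator_one]
    rfl
  rw [← hI2, hI, ENNReal.toReal_mul, hA, hB]
  have h3 := Pm_Q11 p a j r m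
  have h4 := Pm_Q11 p a' j' r m
  rw [Measure.real] at h3 h4
  rw [h3, h4]

private theorem al_le (p : Fin 3 → ℝ) {a b : Fin 3} (σ : Equiv.Perm (Fin 3))
    (hσ : ∀ c, p (σ c) = p c) (hab : σ b = a) (r m : ℕ) : al p a r m = al p b r m := by
  have hA : MeasurableSet {l : List Pt | ∃ x ∈ l, x.2 = a ∧ 0 < x.1 ∧ x.1 < 1 ∧
      Fr {y | y ∈ l} r x} := by
    have h := meas11 a 0 r
    simpa only [Q11, Int.cast_zero, zero_add, mem_ofPred_eq] using h
  have hmap : Measurable (fun l : List Pt => l.map (fun y : Pt => (y.1, σ y.2))) :=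
    measurable_mapL (measurable_fst.prodMk ((measurable_of_finite σ).comp measurable_snd))
  have hB := hmap hA
  have e1 : ∀ l : List Pt, {y | y ∈ l.map (fun y : Pt => ((y.1, σ y.2) : Pt))} =
      (Equiv.prodCongr (Equiv.refl ℝ) σ) '' {y | y ∈ l} := by
    intro l
    ext y
    simp only [List.mem_map, mem_ofPred_eq, mem_image]
    rfl
  have e2 : ∀ (l : List Pt) (x : Pt), Fr {y | y ∈ l.map (fun y : Pt => ((y.1, σ y.2) : Pt))} r
      (x.1, σ x.2) ↔ Fr {y | y ∈ l} r x := by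
    intro l x
    have h1 := Fr_image (Equiv.prodCongr (Equiv.refl ℝ) σ : Pt ≃ Pt) (c := 1) one_pos
      (fun x y => by simp)
      (fun x y => by simp) {y | y ∈ l} r x
    rw [one_mul] at h1
    rw [← h1, e1]
    rfl
  unfold al
  rw [Measure.real, Measure.real, ← lintegral_indicator_one hA,
    lintegral_Pm_colour p σ hσ _ _ (measurable_one.indicator hA)]
  have e3 : ∀ l : List Pt, ({l : List Pt | ∃ x ∈ l, x.2 = a ∧ 0 < x.1 ∧ x.1 < 1 ∧
      Fr {y | y ∈ l} r x}.indicator 1 (l.map (fun y : Pt => (y.1, σ y.2))) : ENNReal) =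
      {l : List Pt | ∃ x ∈ l, x.2 = b ∧ 0 < x.1 ∧ x.1 < 1 ∧ Fr {y | y ∈ l} r x}.indicator 1 l := by
    intro l
    by_cases hl : ∃ x ∈ l, x.2 = b ∧ 0 < x.1 ∧ x.1 < 1 ∧ Fr {y | y ∈ l} r x
    · rw [indicator_of_mem (show l ∈ {l : List Pt | ∃ x ∈ l, x.2 = b ∧ 0 < x.1 ∧ x.1 < 1 ∧
        Fr {y | y ∈ l} r x} from hl)]
      obtain ⟨x, hx, hxb, h1, h2, h3⟩ := hl
      rw [indicator_of_mem (show l.map (fun y : Pt => (y.1, σ y.2)) ∈
        {l : List Pt | ∃ x ∈ l, x.2 = a ∧ 0 < x.1 ∧ x.1 < 1 ∧ Fr {y | y ∈ l} r x} from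
        ⟨(x.1, σ x.2), List.mem_map.2 ⟨x, hx, rfl⟩, by rw [hxb]; exact hab, h1, h2, (e2 l x).2 h3⟩)]
      rfl
    · rw [indicator_of_notMem (show l ∉ {l : List Pt | ∃ x ∈ l, x.2 = b ∧ 0 < x.1 ∧ x.1 < 1 ∧
        Fr {y | y ∈ l} r x} from hl), indicator_of_notMem]
      rintro ⟨x, hx, hxa, h1, h2, h3⟩
      obtain ⟨y, hy, rfl⟩ := List.mem_map.1 hx
      refine hl ⟨y, hy, σ.injective ?_, h1, h2, (e2 l y).1 h3⟩
      rw [hab]
      exact hxa
  simp only [e3]
  rw [lintegral_indicator_one]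
  have h := meas11 b 0 r
  simpa only [Q11, Int.cast_zero, zero_add, mem_ofPred_eq] using h

theorem al_swap {p : Fin 3 → ℝ} (hq : p 1 = p 2) (r m : ℕ) : al p 1 r m = al p 2 r m := by
  refine al_le p (Equiv.swap 1 2) ?_ (by simp) r m
  intro c
  fin_cases c
  · simp only [Fin.zero_eta, Fin.isValue]
    rw [Equiv.swap_apply_of_ne_of_ne (by decide) (by decide)]
  · simp only [Fin.mk_one, Fin.isValue, Equiv.swap_apply_left]
    exact hq.symm
  · simp only [Fin.reduceFinMk, Fin.isValue, Equiv.swap_apply_right]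
    exact hq

end Pool.SM3
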