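/-
SM3.E8 : the matching on the line.
PROOF. KEY: let `Good Y`, `r : ℝ`, `x y : Pt`, `|x.1-y.1| < r`; choose cuts `c₁ < min x.1 y.1`, `c₂ > max x.1 y.1` at level `r` (Good.left/right).  For
`n` with `(c₁, c₂) ⊆ (-n, n)`: `Mt (Win Y (-n) n) x y ↔ Mt (Win Y c₁ c₂) x y` (Mt_win for `Y' = Win Y (-n) n`, `M = Mt Y'`).
So `MS Y x y ↔ Mt (Win Y c₁ c₂) x y` for all `x, y` in `(c₁,c₂)` at distance `< r`, and a partner at distance `< r` of a point of the window is in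
the window.  `MS_rec`: apply Mt_rec to `Win Y c₁ c₂` (for `z` with `|x-z| < |x-y|` and `MS Y x z`: `z ∈ Y` and `z` is in the window).
`MS_eq`: choose `r > |x-y|` and cuts: `M x y ↔ Mt (Win Y c₁ c₂) x y` by Mt_win.
`MS_Fr`: Fr_win with `M = MS Y`, and Fr_win_win.
-/
import Pool.Agent.Lib.SM3.E7

set_option autoImplicit false

open MeasureTheory Set

namespace Pool.SM3

theorem MS_symm {Y : Set Pt} {x y : Pt} (h : MS Y x y) : MS Y y x := by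
  obtain ⟨N, hN⟩ := h
  exact ⟨N, fun n hn => Mt_symm (hN n hn)⟩

theorem MS_mem {Y : Set Pt} {x y : Pt} (h : MS Y x y) : x ∈ Y ∧ y ∈ Y ∧ x.2 ≠ y.2 := by
  obtain ⟨N, hN⟩ := h
  have := Mt_mem (hN N le_rfl)
  exact ⟨this.1.1, this.2.1.1, this.2.2⟩

private theorem E8_win_win {Y : Set Pt} {u w c₁ c₂ : ℝ} (hu : u ≤ c₁) (hw : c₂ ≤ w) :
    Win (Win Y u w) c₁ c₂ = Win Y c₁ c₂ := by
  ext z
  constructor
  · intro hz
    exact ⟨hz.1.1, hz.2⟩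
  · intro hz
    exact ⟨⟨hz.1, lt_of_le_of_lt hu hz.2.1, lt_of_lt_of_le hz.2.2 hw⟩, hz.2⟩

private theorem E8_key {Y : Set Pt} (h : Good Y) {r c₁ c₂ : ℝ} (h1 : Cut Y r c₁) (h2 : Cut Y r c₂)
    {x y : Pt} (hx : c₁ < x.1 ∧ x.1 < c₂) (hy : c₁ < y.1 ∧ y.1 < c₂) (hxy : |x.1 - y.1| < r) :
    MS Y x y ↔ Mt (Win Y c₁ c₂) x y := by
  obtain ⟨N, hN⟩ := exists_nat_gt (max (-c₁) c₂)
  have hcore : ∀ n : ℕ, N ≤ n → (Mt (Win Y (-(n : ℝ)) n) x y ↔ Mt (Win Y c₁ c₂) x y) := by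
    intro n hn
    have hn' : (N : ℝ) ≤ n := by exact_mod_cast hn
    have hu : -(n : ℝ) ≤ c₁ := by
      have := lt_of_le_of_lt (le_max_left (-c₁) c₂) hN
      linarith
    have hw : c₂ ≤ (n : ℝ) := by
      have := lt_of_le_of_lt (le_max_right (-c₁) c₂) hN
      linarith
    have hsub : Win Y (-(n : ℝ)) n ⊆ Y := fun z hz => hz.1
    have := Mt_win (Y := Win Y (-(n : ℝ)) n) (Mt_rec (h.fin _ _) r) (fun _ _ => Mt_symm)
      (h1.subset hsub) (h2.subset hsub) ((h.fin (-(n : ℝ)) n).subset (fun z hz => hz.1)) hx hy hxy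
    rw [E8_win_win hu hw] at this
    exact this
  constructor
  · rintro ⟨N', hN'⟩
    exact (hcore (max N N') (le_max_left _ _)).1 (hN' _ (le_max_right _ _))
  · intro hm
    exact ⟨N, fun n hn => (hcore n hn).2 hm⟩

private theorem E8_in {Y : Set Pt} {r c₁ c₂ : ℝ} (h1 : Cut Y r c₁) (h2 : Cut Y r c₂)
    {x z : Pt} (hxY : x ∈ Y) (hx : c₁ < x.1 ∧ x.1 < c₂) (hz : z ∈ Y) (hd : |x.1 - z.1| < r) :
    c₁ < z.1 ∧ z.1 < c₂ := by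
  rw [abs_lt] at hd
  constructor
  · by_contra hc
    have := h1 z hz x hxY (not_lt.1 hc) hx.1.le
    linarith
  · by_contra hc
    have := h2 x hxY z hz hx.2.le (not_lt.1 hc)
    linarith

private theorem E8_cuts {Y : Set Pt} (h : Good Y) (r : ℝ) (x y : Pt) :
    ∃ c₁ c₂, Cut Y r c₁ ∧ Cut Y r c₂ ∧ (c₁ < x.1 ∧ x.1 < c₂) ∧ (c₁ < y.1 ∧ y.1 < c₂) := by
  obtain ⟨c₁, hc1, h1⟩ := h.left r (min x.1 y.1)
  obtain ⟨c₂, hc2, h2⟩ := h.right r (max x.1 y.1)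
  exact ⟨c₁, c₂, h1, h2,
    ⟨lt_of_lt_of_le hc1 (min_le_left _ _), lt_of_le_of_lt (le_max_left _ _) hc2⟩,
    ⟨lt_of_lt_of_le hc1 (min_le_right _ _), lt_of_le_of_lt (le_max_right _ _) hc2⟩⟩

theorem MS_rec {Y : Set Pt} (h : Good Y) (r : ℝ) : Rec Y r (MS Y) := by
  intro x y hxy
  obtain ⟨c₁, c₂, h1, h2, hx, hy⟩ := E8_cuts h r x y
  rw [E8_key h h1 h2 hx hy hxy, Mt_rec (h.fin c₁ c₂) r x y hxy]
  constructor
  · rintro ⟨hxm, hym, hc, hA, hB⟩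
    refine ⟨hxm.1, hym.1, hc, ?_, ?_⟩
    · intro z hz hm
      have hzr : |x.1 - z.1| < r := hz.trans hxy
      have hzw := E8_in h1 h2 hxm.1 hx (MS_mem hm).2.1 hzr
      exact hA z hz ((E8_key h h1 h2 hx hzw hzr).1 hm)
    · intro z hz hm
      have hzr : |y.1 - z.1| < r := hz.trans hxy
      have hzw := E8_in h1 h2 hym.1 hy (MS_mem hm).2.1 hzr
      exact hB z hz ((E8_key h h1 h2 hy hzw hzr).1 hm)
  · rintro ⟨hxm, hym, hc, hA, hB⟩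
    refine ⟨⟨hxm, hx⟩, ⟨hym, hy⟩, hc, ?_, ?_⟩
    · intro z hz hm
      exact hA z hz ((E8_key h h1 h2 hx (Mt_mem hm).2.1.2 (hz.trans hxy)).2 hm)
    · intro z hz hm
      exact hB z hz ((E8_key h h1 h2 hy (Mt_mem hm).2.1.2 (hz.trans hxy)).2 hm)

theorem MS_eq {Y : Set Pt} (h : Good Y) {M : Pt → Pt → Prop} (hM : ∀ r, Rec Y r M)
    (hs : ∀ x y, M x y → M y x) (x y : Pt) : M x y ↔ MS Y x y := by
  have hxy : |x.1 - y.1| < |x.1 - y.1| + 1 := by linarith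
  obtain ⟨c₁, c₂, h1, h2, hx, hy⟩ := E8_cuts h (|x.1 - y.1| + 1) x y
  rw [E8_key h h1 h2 hx hy hxy]
  exact Mt_win (hM _) hs h1 h2 (h.fin _ _) hx hy hxy

theorem MS_Fr {Y : Set Pt} (h : Good Y) {r c₁ c₂ u w : ℝ} (h1 : Cut Y r c₁) (h2 : Cut Y r c₂)
    (hu : u ≤ c₁) (hw : c₂ ≤ w) {x : Pt} (hx : c₁ < x.1 ∧ x.1 < c₂) :
    (∀ y, MS Y x y → r ≤ |x.1 - y.1|) ↔ Fr (Win Y u w) r x := by
  have hsub : Win Y u w ⊆ Y := fun z hz => hz.1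
  rw [Fr_win_win (h.fin u w) (h1.subset hsub) (h2.subset hsub) hu hw hx]
  exact Fr_win (MS_rec h r) (fun _ _ => MS_symm) h1 h2 (h.fin _ _) hx

end Pool.SM3
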