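/-
SM3.E12 : window events approximate the events on the line.
PROOF. `Ev_close`: on Good, if `¬ Full (j+1) r m` and `¬ Full (j - r m) r m` then exists_cut gives cuts `c₂ ∈ (j+1, j+1+rm)` and `c₁ ∈ (j-rm, j)`, and
MS_Fr gives the equivalence for every `x` with `j < x.1 < j+1`.  So the exceptional set is contained (a.s.) in the union of the two Full events (P_Full).
`UE_iff`: `→` clear.  `←`: if every `x ∈ Y` of colour `a` in `(j,j+1)` (finitely many: Good.fin) has a partner `y_x`, take a natural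
`r > max |x.1 - (y_x).1|`; then `UEr a j r Y` fails.
`UEr_anti`: clear.
-/
import Pool.Agent.Lib.SM3.E8
import Pool.Agent.Lib.SM3.E10

set_option autoImplicit false

open MeasureTheory Set

namespace Pool.SM3

private theorem E12_nonneg (r m : ℕ) : 0 ≤ (1 - Real.exp (-(r : ℝ))) ^ m := by
  refine pow_nonneg ?_ m
  have h : Real.exp (-(r : ℝ)) ≤ 1 := Real.exp_le_one_iff.2 (by
    have := Nat.cast_nonneg (α := ℝ) r
    linarith)
  linarith

private theorem E12_equiv {Y : Set Pt} (hY : Good Y) {a : Fin 3} {j : ℤ} {r m : ℕ} {c₁ c₂ : ℝ}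
    (h1 : Cut Y r c₁) (h2 : Cut Y r c₂) (hu : (j : ℝ) - r * m ≤ c₁) (hj1 : c₁ ≤ j)
    (hw : c₂ ≤ j + 1 + r * m) (hj2 : (j : ℝ) + 1 ≤ c₂) :
    Ev a j r m Y ↔ UEr a j r Y := by
  have key : ∀ x : Pt, (j : ℝ) < x.1 → x.1 < j + 1 →
      ((∀ y, MS Y x y → (r : ℝ) ≤ |x.1 - y.1|) ↔
        Fr (Win Y ((j : ℝ) - r * m) (j + 1 + r * m)) r x) := by
    intro x hx1 hx2
    exact MS_Fr hY h1 h2 hu hw ⟨by linarith, by linarith⟩
  constructor
  · rintro ⟨x, hx, ha, hx1, hx2, hF⟩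
    exact ⟨x, hx, ha, hx1, hx2, (key x hx1 hx2).2 hF⟩
  · rintro ⟨x, hx, ha, hx1, hx2, hF⟩
    exact ⟨x, hx, ha, hx1, hx2, (key x hx1 hx2).1 hF⟩

private theorem E12_bound {α : Type*} {s : Set α} (hs : s.Finite) (Q : α → ℕ → Prop)
    (hmono : ∀ x m n, m ≤ n → Q x m → Q x n) (hex : ∀ x ∈ s, ∃ n, Q x n) :
    ∃ n, ∀ x ∈ s, Q x n := by
  induction s, hs using Set.Finite.induction_on with
  | empty => exact ⟨0, fun x hx => absurd hx (Set.notMem_empty x)⟩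
  | @insert x s hx hs ih =>
    obtain ⟨n, hn⟩ := ih (fun y hy => hex y (Set.mem_insert_of_mem x hy))
    obtain ⟨k, hk⟩ := hex x (Set.mem_insert x s)
    refine ⟨max n k, fun y hy => ?_⟩
    rcases Set.mem_insert_iff.1 hy with rfl | hy
    · exact hmono _ k _ (le_max_right n k) hk
    · exact hmono _ n _ (le_max_left n k) (hn y hy)

theorem Ev_close {p : Fin 3 → ℝ} (hp : PV p) {Ω : Type} [MeasurableSpace Ω] {P : Measure Ω}
    [IsProbabilityMeasure P] {S : Fin 3 → Ω → Set ℝ} (h : Hyp p P S) (a : Fin 3) (j : ℤ) {r : ℕ}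
    (hr : 0 < r) (m : ℕ) :
    P {ω | ¬ (Ev a j r m (SS S ω) ↔ UEr a j r (SS S ω))}
      ≤ ENNReal.ofReal (2 * (1 - Real.exp (-(r : ℝ))) ^ m) := by
  have hsub : ∀ᵐ ω ∂P, ω ∈ {ω | ¬ (Ev a j r m (SS S ω) ↔ UEr a j r (SS S ω))} →
      ω ∈ ({ω | Full ((j : ℝ) + 1) r m (SS S ω)} ∪ {ω | Full ((j : ℝ) - r * m) r m (SS S ω)} :
        Set Ω) := by
    filter_upwards [ae_good hp h] with ω hω hne
    by_contra hcon
    apply hne
    have hc1 : ¬ Full ((j : ℝ) + 1) r m (SS S ω) := fun hc => hcon (Or.inl hc)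
    have hc2 : ¬ Full ((j : ℝ) - r * m) r m (SS S ω) := fun hc => hcon (Or.inr hc)
    obtain ⟨c₂, h1, h2, h3⟩ := exists_cut hr hc1
    obtain ⟨c₁, h4, h5, h6⟩ := exists_cut hr hc2
    exact E12_equiv hω h6 h3 (by linarith) (by linarith [mul_comm (m : ℝ) (r : ℝ)])
      (by linarith [mul_comm (m : ℝ) (r : ℝ)]) (by linarith)
  refine (measure_mono_ae hsub).trans ((measure_union_le _ _).trans ?_)
  rw [P_Full hp h _ hr, P_Full hp h _ hr, ← ENNReal.ofReal_add (E12_nonneg r m) (E12_nonneg r m),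
    ← two_mul]

theorem UE_iff {Y : Set Pt} (h : Good Y) (a : Fin 3) (j : ℤ) :
    UE a j Y ↔ ∀ r : ℕ, UEr a j r Y := by
  constructor
  · rintro ⟨x, hx, h1, h2, h3, h4⟩ r
    exact ⟨x, hx, h1, h2, h3, fun y hy => absurd hy (h4 y)⟩
  · intro hU
    by_contra hcon
    have hall : ∀ x ∈ Win Y (j : ℝ) (j + 1), x.2 = a → ∃ y, MS Y x y := by
      intro x hx hxa
      by_contra hno
      push Not at hno
      exact hcon ⟨x, hx.1, hxa, hx.2.1, hx.2.2, hno⟩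
    have hex : ∃ r : ℕ, ∀ x ∈ Win Y (j : ℝ) (j + 1), x.2 = a →
        ∃ y, MS Y x y ∧ |x.1 - y.1| < r := by
      have hf := h.fin (j : ℝ) (j + 1)
      refine E12_bound hf (fun x n => x.2 = a → ∃ y, MS Y x y ∧ |x.1 - y.1| < n) ?_ ?_
      · intro x m n hmn hx hxa
        obtain ⟨y, hy, hd⟩ := hx hxa
        exact ⟨y, hy, hd.trans_le (by exact_mod_cast hmn)⟩
      · intro x hx
        by_cases hxa : x.2 = a
        · obtain ⟨y, hy⟩ := hall x hx hxa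
          obtain ⟨n, hn⟩ := exists_nat_gt |x.1 - y.1|
          exact ⟨n, fun _ => ⟨y, hy, hn⟩⟩
        · exact ⟨0, fun hc => absurd hc hxa⟩
    obtain ⟨r, hr⟩ := hex
    obtain ⟨x, hx, h1, h2, h3, h4⟩ := hU r
    obtain ⟨y, hy, hd⟩ := hr x ⟨hx, h2, h3⟩ h1
    exact absurd (h4 y hy) (not_le.2 hd)

theorem UEr_anti {Y : Set Pt} {a : Fin 3} {j : ℤ} {r r' : ℕ} (hr : r ≤ r') (h : UEr a j r' Y) :
    UEr a j r Y := by
  obtain ⟨x, hx, h1, h2, h3, h4⟩ := h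
  exact ⟨x, hx, h1, h2, h3, fun y hy => le_trans (by exact_mod_cast hr) (h4 y hy)⟩

end Pool.SM3
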