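/-
SM3.E13 : the events `UE a j` all have the same probability and are approximated by window events.
PROOF. Fix `a`.  Let `γ = 1 - e^{-r} < 1` (r ≥ 1).  `UEr a j r`:
`∑_m P {¬ (Ev ↔ UEr)} ≤ ∑ 2 γ^m < ∞`, so by Borel-Cantelli
(`measure_limsup_atTop_eq_zero`) a.s. `UEr a j r ↔ (Ev a j r m for all large m)`: null
measurable; and `|P.real (UEr a j r) - al p a r m| ≤ 2 γ^m`, so
`P.real (UEr a j r) = lim_m al p a r m =: β_r` does not depend on `j`.  By UE_iff (on Good) and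
UEr_anti `UE a j` is a.s. the decreasing intersection of the `UEr a j r`, so it is null measurable
and `P.real (UE a j) = lim_r β_r =: υ`, and `β_r ≥ υ`, `P.real (UEr \ UE) = β_r - υ`.
Given `ε`: `r₀` with `β_r - υ ≤ ε/4` for `r ≥ r₀`, then `m₀` with `2 γ^m ≤ ε/4`.
-/
import Pool.Agent.Lib.SM3.E11
import Pool.Agent.Lib.SM3.E12

set_option autoImplicit false

open MeasureTheory Set

namespace Pool.SM3

private noncomputable def ga (r : ℕ) : ℝ := 1 - Real.exp (-(r : ℝ))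

private theorem ga_nonneg (r : ℕ) : 0 ≤ ga r := by
  unfold ga
  have : Real.exp (-(r : ℝ)) ≤ 1 := Real.exp_le_one_iff.2 (by simp)
  linarith

private theorem ga_lt (r : ℕ) : ga r < 1 := by
  unfold ga
  have : 0 < Real.exp (-(r : ℝ)) := Real.exp_pos _
  linarith

private theorem close13 {p : Fin 3 → ℝ} (hp : PV p) {Ω : Type} [MeasurableSpace Ω] {P : Measure Ω}
    [IsProbabilityMeasure P] {S : Fin 3 → Ω → Set ℝ} (h : Hyp p P S) (a : Fin 3) (j : ℤ) {r : ℕ}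
    (hr : 0 < r) (m : ℕ) :
    P.real {ω | ¬ (Ev a j r m (SS S ω) ↔ UEr a j r (SS S ω))} ≤ 2 * ga r ^ m := by
  have h1 := Ev_close hp h a j hr m
  have h2 : 0 ≤ 2 * ga r ^ m := mul_nonneg zero_le_two (pow_nonneg (ga_nonneg r) m)
  exact ENNReal.toReal_le_of_le_ofReal h2 h1

private theorem UEr_null {p : Fin 3 → ℝ} (hp : PV p) {Ω : Type} [MeasurableSpace Ω] {P : Measure Ω}
    [IsProbabilityMeasure P] {S : Fin 3 → Ω → Set ℝ} (h : Hyp p P S) (a : Fin 3) (j : ℤ) {r : ℕ}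
    (hr : 0 < r) : NullMeasurableSet {ω | UEr a j r (SS S ω)} P := by
  have hsum : ∑' m : ℕ, P {ω | ¬ (Ev a j r m (SS S ω) ↔ UEr a j r (SS S ω))} ≠ ⊤ := by
    refine ne_top_of_le_ne_top ?_ (ENNReal.tsum_le_tsum fun m => Ev_close hp h a j hr m)
    have hs : Summable (fun m : ℕ => 2 * (1 - Real.exp (-(r : ℝ))) ^ m) :=
      (summable_geometric_of_lt_one (ga_nonneg r) (ga_lt r)).mul_left 2
    exact hs.tsum_ofReal_ne_top
  have hae := ae_eventually_notMem hsum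
  have hset : {ω | UEr a j r (SS S ω)} =ᵐ[P]
      ⋃ N : ℕ, ⋂ m : ℕ, {ω | N ≤ m → Ev a j r m (SS S ω)} := by
    filter_upwards [hae] with ω hω
    obtain ⟨N, hN⟩ := Filter.eventually_atTop.1 hω
    apply propext
    show UEr a j r (SS S ω) ↔ ω ∈ ⋃ N : ℕ, ⋂ m : ℕ, {ω | N ≤ m → Ev a j r m (SS S ω)}
    simp only [mem_iUnion, mem_iInter, mem_ofPred_eq]
    constructor
    · intro hU
      refine ⟨N, fun m hm => ?_⟩
      have h1 := hN m hm
      simp only [not_not] at h1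
      exact h1.2 hU
    · rintro ⟨N', hN'⟩
      have h1 := hN (max N N') (le_max_left _ _)
      simp only [not_not] at h1
      exact h1.1 (hN' _ (le_max_right _ _))
  refine NullMeasurableSet.congr ?_ hset.symm
  refine NullMeasurableSet.iUnion fun N => NullMeasurableSet.iInter fun m => ?_
  by_cases hNm : N ≤ m
  · simp only [hNm, true_imp_iff]
    exact Ev_null hp h a j r m
  · simp only [hNm, false_imp_iff, ofPred_true]
    exact nullMeasurableSet_univ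

private theorem abs_sub_le13 {Ω : Type} [MeasurableSpace Ω] {P : Measure Ω}
    [IsProbabilityMeasure P] {A B : Ω → Prop} {δ : ℝ} (h : P.real {ω | ¬ (A ω ↔ B ω)} ≤ δ) :
    |P.real {ω | A ω} - P.real {ω | B ω}| ≤ δ := by
  have h1 : P.real {ω | A ω} ≤ P.real {ω | B ω} + P.real {ω | ¬ (A ω ↔ B ω)} := by
    refine le_trans (measureReal_mono ?_) (measureReal_union_le _ _)
    intro ω hω
    by_cases hB : B ω
    · exact Or.inl hB
    · exact Or.inr (fun hh => hB (hh.1 hω))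
  have h2 : P.real {ω | B ω} ≤ P.real {ω | A ω} + P.real {ω | ¬ (A ω ↔ B ω)} := by
    refine le_trans (measureReal_mono ?_) (measureReal_union_le _ _)
    intro ω hω
    by_cases hB : A ω
    · exact Or.inl hB
    · exact Or.inr (fun hh => hB (hh.2 hω))
  rw [abs_le]
  constructor <;> linarith

private theorem UEr_al {p : Fin 3 → ℝ} (hp : PV p) {Ω : Type} [MeasurableSpace Ω] {P : Measure Ω}
    [IsProbabilityMeasure P] {S : Fin 3 → Ω → Set ℝ} (h : Hyp p P S) (a : Fin 3) (j : ℤ) {r : ℕ}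
    (hr : 0 < r) (m : ℕ) :
    |al p a r m - P.real {ω | UEr a j r (SS S ω)}| ≤ 2 * ga r ^ m := by
  rw [← Ev_prob hp h a j r m]
  exact abs_sub_le13 (close13 hp h a j hr m)

private theorem ga_pow {r : ℕ} {δ : ℝ} (hδ : 0 < δ) : ∃ m₀ : ℕ, ∀ m : ℕ, m₀ ≤ m →
    2 * ga r ^ m ≤ δ := by
  obtain ⟨n, hn⟩ := exists_pow_lt_of_lt_one (show (0 : ℝ) < δ / 2 by linarith) (ga_lt r)
  refine ⟨n, fun m hm => ?_⟩
  have h1 : ga r ^ m ≤ ga r ^ n := pow_le_pow_of_le_one (ga_nonneg r) (ga_lt r).le hm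
  linarith

private theorem UEr_eq {p : Fin 3 → ℝ} (hp : PV p) {Ω : Type} [MeasurableSpace Ω] {P : Measure Ω}
    [IsProbabilityMeasure P] {S : Fin 3 → Ω → Set ℝ} (h : Hyp p P S) (a : Fin 3) (j : ℤ) {r : ℕ}
    (hr : 0 < r) :
    P.real {ω | UEr a j r (SS S ω)} = P.real {ω | UEr a 0 r (SS S ω)} := by
  rw [← sub_eq_zero, ← abs_eq_zero]
  refine le_antisymm (le_of_forall_pos_le_add fun ε hε => ?_) (abs_nonneg _)
  obtain ⟨m, hm⟩ := ga_pow (r := r) (show 0 < ε / 2 by linarith)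
  have h0 := hm m le_rfl
  have h1 := abs_le.1 (UEr_al hp h a j hr m)
  have h2 := abs_le.1 (UEr_al hp h a 0 hr m)
  rw [abs_le]
  constructor <;> linarith [h1.1, h1.2, h2.1, h2.2]

private theorem UE_ae {p : Fin 3 → ℝ} (hp : PV p) {Ω : Type} [MeasurableSpace Ω] {P : Measure Ω}
    [IsProbabilityMeasure P] {S : Fin 3 → Ω → Set ℝ} (h : Hyp p P S) (a : Fin 3) (j : ℤ) :
    {ω | UE a j (SS S ω)} =ᵐ[P] ⋂ r : ℕ, {ω | UEr a j (r + 1) (SS S ω)} := by
  filter_upwards [ae_good hp h] with ω hω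
  apply propext
  show UE a j (SS S ω) ↔ ω ∈ ⋂ r : ℕ, {ω | UEr a j (r + 1) (SS S ω)}
  rw [UE_iff hω, mem_iInter]
  constructor
  · intro hU r
    exact hU (r + 1)
  · intro hU r
    exact UEr_anti (Nat.le_succ r) (hU r)

theorem UE_null {p : Fin 3 → ℝ} (hp : PV p) {Ω : Type} [MeasurableSpace Ω] {P : Measure Ω}
    [IsProbabilityMeasure P] {S : Fin 3 → Ω → Set ℝ} (h : Hyp p P S) (a : Fin 3) (j : ℤ) :
    NullMeasurableSet {ω | UE a j (SS S ω)} P :=
  (NullMeasurableSet.iInter fun r => UEr_null hp h a j (Nat.succ_pos r)).congr (UE_ae hp h a j).symm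

private theorem UE_tend {p : Fin 3 → ℝ} (hp : PV p) {Ω : Type} [MeasurableSpace Ω] {P : Measure Ω}
    [IsProbabilityMeasure P] {S : Fin 3 → Ω → Set ℝ} (h : Hyp p P S) (a : Fin 3) (j : ℤ) :
    Filter.Tendsto (fun r : ℕ => P.real {ω | UEr a j (r + 1) (SS S ω)}) Filter.atTop
      (nhds (P.real {ω | UE a j (SS S ω)})) := by
  have h1 : Filter.Tendsto (fun r : ℕ => P {ω | UEr a j (r + 1) (SS S ω)}) Filter.atTop
      (nhds (P (⋂ r : ℕ, {ω | UEr a j (r + 1) (SS S ω)}))) := by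
    refine tendsto_measure_iInter_atTop (fun r => UEr_null hp h a j (Nat.succ_pos r)) ?_
      ⟨0, measure_ne_top _ _⟩
    intro r r' hrr ω hω
    exact UEr_anti (Nat.succ_le_succ hrr) hω
  rw [← measure_congr (UE_ae hp h a j)] at h1
  exact (ENNReal.tendsto_toReal (measure_ne_top _ _)).comp h1

theorem UE_prob_eq {p : Fin 3 → ℝ} (hp : PV p) {Ω : Type} [MeasurableSpace Ω] {P : Measure Ω}
    [IsProbabilityMeasure P] {S : Fin 3 → Ω → Set ℝ} (h : Hyp p P S) (a : Fin 3) (j : ℤ) :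
    P.real {ω | UE a j (SS S ω)} = P.real {ω | UE a 0 (SS S ω)} := by
  refine tendsto_nhds_unique (UE_tend hp h a j) ?_
  have h1 := UE_tend hp h a 0
  refine h1.congr fun r => ?_
  exact (UEr_eq hp h a j (Nat.succ_pos r)).symm

private theorem UEr_diff {p : Fin 3 → ℝ} (hp : PV p) {Ω : Type} [MeasurableSpace Ω] {P : Measure Ω}
    [IsProbabilityMeasure P] {S : Fin 3 → Ω → Set ℝ} (h : Hyp p P S) (a : Fin 3) (j : ℤ) (r : ℕ) :
    P.real ({ω | UEr a j r (SS S ω)} \ {ω | UE a j (SS S ω)}) =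
      P.real {ω | UEr a j r (SS S ω)} - P.real {ω | UE a j (SS S ω)} := by
  have h1 := measure_inter_add_sdiff₀ (μ := P) {ω | UEr a j r (SS S ω)} (UE_null hp h a j)
  have h2 : ({ω | UEr a j r (SS S ω)} ∩ {ω | UE a j (SS S ω)} : Set Ω) =ᵐ[P]
      {ω | UE a j (SS S ω)} := by
    filter_upwards [ae_good hp h] with ω hω
    apply propext
    show (UEr a j r (SS S ω) ∧ UE a j (SS S ω)) ↔ UE a j (SS S ω)
    exact ⟨fun hh => hh.2, fun hh => ⟨(UE_iff hω a j).1 hh r, hh⟩⟩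
  rw [measure_congr h2] at h1
  simp only [Measure.real]
  rw [← h1, ENNReal.toReal_add (measure_ne_top _ _) (measure_ne_top _ _)]
  ring

theorem UE_approx {p : Fin 3 → ℝ} (hp : PV p) {Ω : Type} [MeasurableSpace Ω] {P : Measure Ω}
    [IsProbabilityMeasure P] {S : Fin 3 → Ω → Set ℝ} (h : Hyp p P S) (a : Fin 3) {ε : ℝ}
    (hε : 0 < ε) : ∃ r₀ : ℕ, 0 < r₀ ∧ ∀ r : ℕ, r₀ ≤ r → ∃ m₀ : ℕ, ∀ m : ℕ, m₀ ≤ m →
      |al p a r m - P.real {ω | UE a 0 (SS S ω)}| ≤ ε ∧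
      ∀ j : ℤ, P.real ({ω | Ev a j r m (SS S ω)} \ {ω | UE a j (SS S ω)}) ≤ ε := by
  have ht := UE_tend hp h a 0
  obtain ⟨r₁, hr₁⟩ := (Metric.tendsto_atTop.1 ht) (ε / 4) (by linarith)
  refine ⟨r₁ + 1, Nat.succ_pos _, fun r hr => ?_⟩
  have hr0 : 0 < r := by omega
  have hβ : |P.real {ω | UEr a 0 r (SS S ω)} - P.real {ω | UE a 0 (SS S ω)}| < ε / 4 := by
    have h1 := hr₁ (r - 1) (by omega)
    rw [Nat.sub_add_cancel hr0, Real.dist_eq] at h1
    exact h1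
  obtain ⟨m₀, hm₀⟩ := ga_pow (r := r) (show 0 < ε / 4 by linarith)
  refine ⟨m₀, fun m hm => ⟨?_, fun j => ?_⟩⟩
  · have h1 := abs_le.1 (UEr_al hp h a 0 hr0 m)
    have h2 := abs_lt.1 hβ
    have h3 := hm₀ m hm
    rw [abs_le]
    constructor <;> linarith [h1.1, h1.2, h2.1, h2.2]
  · have h1 : P.real ({ω | Ev a j r m (SS S ω)} \ {ω | UE a j (SS S ω)}) ≤
        P.real {ω | ¬ (Ev a j r m (SS S ω) ↔ UEr a j r (SS S ω))} +
        P.real ({ω | UEr a j r (SS S ω)} \ {ω | UE a j (SS S ω)}) := by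
      refine le_trans (measureReal_mono ?_) (measureReal_union_le _ _)
      rintro ω ⟨hω1, hω2⟩
      by_cases hB : UEr a j r (SS S ω)
      · exact Or.inr ⟨hB, hω2⟩
      · exact Or.inl (fun hh => hB (hh.1 hω1))
    rw [UEr_diff, UEr_eq hp h a j hr0, UE_prob_eq hp h a j] at h1
    have h2 := abs_lt.1 hβ
    have h3 := hm₀ m hm
    have h4 := close13 hp h a j hr0 m
    linarith [h2.1, h2.2]
    · exact hp
    · exact h

end Pool.SM3
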