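/-
SM3.E14 : zero-one law.
PROOF. Fix `J` (countably many).  Let `υ = P.real {UE a 0} > 0`.  For `N ≥ 1` and `0 < ε ≤ υ/2` take `r, m` from UE_approx; `α = al p a r m ≥ υ/2`; `K = 2 r m + 1`,
`E_i = {Ev a (J + i K) r m}`, `i < N`: pairwise independent (Ev_indep) of probability `α`.  `X = ∑ 1_{E_i}`, `P (X = 0) ≤ Var X/(E X)² ≤ N α/(N α)² = 1/(N α) ≤
2/(N υ)`.  So `P (no UE a j, j ≥ J) ≤ 2/(N υ) + ∑_{i<N} P (E_i \ UE a (J+iK)) ≤ 2/(N υ) + N ε`.  Let first `ε → 0`, then `N → ∞`.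
-/
import Pool.Agent.Lib.SM3.E13

set_option autoImplicit false

open MeasureTheory Set

namespace Pool.SM3

/-- Chebyshev for pairwise independent events -/
theorem pairwise_indep_bound {Ω : Type} [MeasurableSpace Ω] {P : Measure Ω}
    [IsProbabilityMeasure P] {N : ℕ} (hN : 0 < N) {α : ℝ} (hα : 0 < α) (E : ℕ → Set Ω)
    (hE : ∀ i, NullMeasurableSet (E i) P) (h1 : ∀ i, P.real (E i) = α)
    (h2 : ∀ i j, i < j → P.real (E i ∩ E j) = α * α) :
    P.real {ω | ∀ i, i < N → ω ∉ E i} ≤ 1 / (N * α) := by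
  classical
  have hN' : (0 : ℝ) < N := by exact_mod_cast hN
  set Z : Set Ω := {ω | ∀ i, i < N → ω ∉ E i} with hZ
  have hZm : NullMeasurableSet Z P := by
    have h3 : Z = ⋂ i : ℕ, ⋂ (_ : i < N), (E i)ᶜ := by
      ext ω
      simp [hZ]
    rw [h3]
    exact NullMeasurableSet.iInter fun i => NullMeasurableSet.iInter fun _ => (hE i).compl
  -- integrals of indicators
  have hint : ∀ A : Set Ω, NullMeasurableSet A P →
      Integrable (A.indicator (fun _ => (1 : ℝ))) P := fun A hA =>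
    (integrable_const (1 : ℝ)).indicator₀ hA
  have hval : ∀ A : Set Ω, NullMeasurableSet A P →
      ∫ ω, A.indicator (fun _ => (1 : ℝ)) ω ∂P = P.real A := by
    intro A hA
    rw [integral_indicator₀ hA, setIntegral_const, smul_eq_mul, mul_one]
  have hEE : ∀ i j, NullMeasurableSet (E i ∩ E j) P := fun i j => (hE i).inter (hE j)
  have hpp : ∀ i j, P.real (E i ∩ E j) = α * α + if i = j then α - α * α else 0 := by
    intro i j
    rcases lt_trichotomy i j with h3 | h3 | h3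
    · rw [h2 i j h3, if_neg (by omega), add_zero]
    · subst h3
      rw [inter_self, h1, if_pos rfl]
      ring
    · rw [inter_comm, h2 j i h3, if_neg (by omega), add_zero]
  -- pointwise inequality
  have hpt : ∀ ω, Z.indicator (fun _ => (1 : ℝ)) ω * (N * α) ^ 2 ≤
      (∑ i ∈ Finset.range N, ∑ j ∈ Finset.range N, (E i ∩ E j).indicator (fun _ => (1 : ℝ)) ω) -
        2 * (N * α) * (∑ i ∈ Finset.range N, (E i).indicator (fun _ => (1 : ℝ)) ω) +
        (N * α) ^ 2 := by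
    intro ω
    have h3 : (∑ i ∈ Finset.range N, ∑ j ∈ Finset.range N,
        (E i ∩ E j).indicator (fun _ => (1 : ℝ)) ω) =
        (∑ i ∈ Finset.range N, (E i).indicator (fun _ => (1 : ℝ)) ω) ^ 2 := by
      rw [sq, Finset.sum_mul_sum]
      refine Finset.sum_congr rfl fun i _ => Finset.sum_congr rfl fun j _ => ?_
      by_cases hi : ω ∈ E i <;> by_cases hj : ω ∈ E j <;> simp [hi, hj]
    rw [h3]
    by_cases hω : ω ∈ Z
    · have h4 : ∑ i ∈ Finset.range N, (E i).indicator (fun _ => (1 : ℝ)) ω = 0 := by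
        refine Finset.sum_eq_zero fun i hi => ?_
        exact indicator_of_notMem (hω i (Finset.mem_range.1 hi)) _
      rw [h4, indicator_of_mem hω]
      linarith
    · rw [indicator_of_notMem hω]
      nlinarith [sq_nonneg ((∑ i ∈ Finset.range N, (E i).indicator (fun _ => (1 : ℝ)) ω) - N * α)]
  have hI1 : Integrable (fun ω => ∑ i ∈ Finset.range N, ∑ j ∈ Finset.range N,
      (E i ∩ E j).indicator (fun _ => (1 : ℝ)) ω) P :=
    integrable_finsetSum _ fun i _ => integrable_finsetSum _ fun j _ => hint _ (hEE i j)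
  have hI2 : Integrable (fun ω => ∑ i ∈ Finset.range N, (E i).indicator (fun _ => (1 : ℝ)) ω) P :=
    integrable_finsetSum _ fun i _ => hint _ (hE i)
  have hmono := integral_mono ((hint Z hZm).mul_const ((N * α) ^ 2))
    ((hI1.sub (hI2.const_mul (2 * (N * α)))).add (integrable_const ((N * α) ^ 2))) hpt
  have hR : ∫ ω, ((∑ i ∈ Finset.range N, ∑ j ∈ Finset.range N,
      (E i ∩ E j).indicator (fun _ => (1 : ℝ)) ω) -
        2 * (N * α) * (∑ i ∈ Finset.range N, (E i).indicator (fun _ => (1 : ℝ)) ω) +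
        (N * α) ^ 2) ∂P = N * α - N * (α * α) := by
    have e1 := integral_add (μ := P) (f := fun ω => (∑ i ∈ Finset.range N, ∑ j ∈ Finset.range N,
      (E i ∩ E j).indicator (fun _ => (1 : ℝ)) ω) -
        2 * (N * α) * (∑ i ∈ Finset.range N, (E i).indicator (fun _ => (1 : ℝ)) ω))
      (g := fun _ => (N * α) ^ 2) (hI1.sub (hI2.const_mul (2 * (N * α)))) (integrable_const _)
    have e2 := integral_sub (μ := P) hI1 (hI2.const_mul (2 * (N * α)))
    rw [e1, e2, integral_const_mul, integral_const, probReal_univ,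
      one_smul, integral_finsetSum _ (fun i _ => integrable_finsetSum _
        fun j _ => hint _ (hEE i j)), integral_finsetSum _ (fun i _ => hint _ (hE i))]
    have h3 : ∀ i ∈ Finset.range N, ∫ ω, ∑ j ∈ Finset.range N,
        (E i ∩ E j).indicator (fun _ => (1 : ℝ)) ω ∂P = N * (α * α) + (α - α * α) := by
      intro i hi
      rw [integral_finsetSum _ (fun j _ => hint _ (hEE i j))]
      have h4 : ∀ j ∈ Finset.range N, ∫ ω, (E i ∩ E j).indicator (fun _ => (1 : ℝ)) ω ∂P =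
          α * α + if i = j then α - α * α else 0 := fun j _ => by rw [hval _ (hEE i j), hpp]
      rw [Finset.sum_congr rfl h4, Finset.sum_add_distrib, Finset.sum_const, Finset.card_range,
        nsmul_eq_mul, Finset.sum_ite_eq, if_pos hi]
    have h5 : ∀ i ∈ Finset.range N, ∫ ω, (E i).indicator (fun _ => (1 : ℝ)) ω ∂P = α :=
      fun i _ => by rw [hval _ (hE i), h1]
    rw [Finset.sum_congr rfl h3, Finset.sum_congr rfl h5, Finset.sum_const, Finset.sum_const,
      Finset.card_range, nsmul_eq_mul, nsmul_eq_mul]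
    ring
  have hL : ∫ ω, Z.indicator (fun _ => (1 : ℝ)) ω * (N * α) ^ 2 ∂P = P.real Z * (N * α) ^ 2 := by
    rw [integral_mul_const, hval _ hZm]
  have hfin : P.real Z * (N * α) ^ 2 ≤ N * α - N * (α * α) := by
    rw [← hL, ← hR]
    exact hmono
  have hNα : 0 < N * α := mul_pos hN' hα
  rw [le_div_iff₀ hNα]
  have h6 : P.real Z * (N * α) ^ 2 ≤ 1 * (N * α) := by
    have : 0 ≤ N * (α * α) := by positivity
    linarith
  have h7 : (P.real Z * (N * α)) * (N * α) ≤ 1 * (N * α) := by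
    calc (P.real Z * (N * α)) * (N * α) = P.real Z * (N * α) ^ 2 := by ring
      _ ≤ _ := h6
  exact le_of_mul_le_mul_right h7 hNα

theorem UE_zero_one {p : Fin 3 → ℝ} (hp : PV p) {Ω : Type} [MeasurableSpace Ω] {P : Measure Ω}
    [IsProbabilityMeasure P] {S : Fin 3 → Ω → Set ℝ} (h : Hyp p P S) (a : Fin 3)
    (hpos : 0 < P.real {ω | UE a 0 (SS S ω)}) :
    ∀ᵐ ω ∂P, ∀ J : ℤ, ∃ j : ℤ, J ≤ j ∧ UE a j (SS S ω) := by
  rw [ae_all_iff]
  intro J
  rw [ae_iff]
  set B : Set Ω := {ω | ¬ ∃ j : ℤ, J ≤ j ∧ UE a j (SS S ω)} with hB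
  set υ := P.real {ω | UE a 0 (SS S ω)} with hυ
  suffices hs : ∀ δ : ℝ, 0 < δ → P.real B ≤ δ by
    have h0 : P.real B = 0 :=
      le_antisymm (le_of_forall_pos_le_add fun δ hδ => by simpa using hs δ hδ) measureReal_nonneg
    exact (measureReal_eq_zero_iff (measure_ne_top P B)).1 h0
  intro δ hδ
  obtain ⟨N, hN⟩ := exists_nat_gt (4 / (δ * υ))
  have hN0 : (0 : ℝ) < N := lt_of_le_of_lt (by positivity) hN
  have hNn : 0 < N := by exact_mod_cast hN0
  have hε : 0 < min (υ / 2) (δ / (2 * N)) := lt_min (by positivity) (by positivity)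
  obtain ⟨r₀, _, hr⟩ := UE_approx hp h a hε
  obtain ⟨m₀, hm⟩ := hr r₀ le_rfl
  obtain ⟨hal, hEU⟩ := hm m₀ le_rfl
  rw [← hυ] at hal
  have hα : υ / 2 ≤ al p a r₀ m₀ := by
    have h3 := (abs_le.1 hal).1
    have h4 := min_le_left (υ / 2) (δ / (2 * N))
    linarith
  have hα0 : 0 < al p a r₀ m₀ := lt_of_lt_of_le (by positivity) hα
  obtain ⟨K, hK⟩ : ∃ K : ℤ, K = 2 * r₀ * m₀ + 1 := ⟨_, rfl⟩
  have hK0 : 0 < K := by rw [hK]; positivity
  have hcheb := pairwise_indep_bound (P := P) hNn hα0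
    (fun i : ℕ => {ω | Ev a (J + i * K) r₀ m₀ (SS S ω)})
    (fun i => Ev_null hp h a _ r₀ m₀) (fun i => Ev_prob hp h a _ r₀ m₀)
    (fun i j hij => by
      refine Ev_indep hp h a a r₀ m₀ ?_
      have h3 : (i : ℤ) + 1 ≤ j := by exact_mod_cast hij
      have h4 : ((i : ℤ) + 1) * K ≤ j * K := mul_le_mul_of_nonneg_right h3 hK0.le
      have h5 : (J + (i : ℤ) * K) + 1 + 2 * r₀ * m₀ = J + ((i : ℤ) + 1) * K := by rw [hK]; ring
      rw [h5]
      linarith)
  have hsub : B ⊆ {ω | ∀ i, i < N → ω ∉ {ω | Ev a (J + (i : ℕ) * K) r₀ m₀ (SS S ω)}} ∪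
      ⋃ i ∈ Finset.range N, ({ω | Ev a (J + (i : ℕ) * K) r₀ m₀ (SS S ω)} \
        {ω | UE a (J + (i : ℕ) * K) (SS S ω)}) := by
    intro ω hω
    by_cases h3 : ∀ i, i < N → ω ∉ {ω | Ev a (J + (i : ℕ) * K) r₀ m₀ (SS S ω)}
    · exact Or.inl h3
    · right
      push Not at h3
      obtain ⟨i, hi, hEv⟩ := h3
      refine mem_iUnion₂.2 ⟨i, Finset.mem_range.2 hi, hEv, fun hU => ?_⟩
      exact hω ⟨J + i * K, by have := mul_nonneg (Int.natCast_nonneg i) hK0.le; linarith, hU⟩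
  have hfinal : P.real B ≤ 1 / (N * al p a r₀ m₀) + N * (δ / (2 * N)) := by
    refine (measureReal_mono hsub).trans ((measureReal_union_le _ _).trans ?_)
    refine add_le_add hcheb ?_
    refine (measureReal_biUnion_finset_le _ _).trans ?_
    calc ∑ i ∈ Finset.range N, P.real ({ω | Ev a (J + (i : ℕ) * K) r₀ m₀ (SS S ω)} \
          {ω | UE a (J + (i : ℕ) * K) (SS S ω)}) ≤ ∑ _i ∈ Finset.range N, (δ / (2 * N)) :=
          Finset.sum_le_sum fun i _ => (hEU _).trans (min_le_right _ _)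
      _ = N * (δ / (2 * N)) := by rw [Finset.sum_const, Finset.card_range, nsmul_eq_mul]
  refine hfinal.trans ?_
  have h8 : (N : ℝ) * (δ / (2 * N)) = δ / 2 := by field_simp
  have h9 : 1 / (N * al p a r₀ m₀) ≤ δ / 2 := by
    rw [div_le_iff₀ (mul_pos hN0 hα0)]
    rw [div_lt_iff₀ (mul_pos hδ hpos)] at hN
    have h10 : δ * (N * (υ / 2)) ≤ δ * (N * al p a r₀ m₀) := by gcongr
    nlinarith
  linarith

end Pool.SM3
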