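/-
SM3.E15 : in the symmetric case no point of colour 2 or 3 (index 1, 2) is unmatched.
PROOF. By al_swap and UE_approx (for `a = 1` and `a = 2`, same `r`, `m`): `|P.real {UE 1 0} - P.real {UE 2 0}| ≤ 2ε` for all `ε`, so they are equal.  If they were `> 0`,
by UE_zero_one a.s. there are `j, j'` with `UE 1 j` and `UE 2 j'`: two unmatched points of different colours; contradiction to MS_rec (on
Good; `r > |x.1 - y.1|`: the recursion gives `MS Y x y`).  UE_prob_eq for the other `j`.
-/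
import Pool.Agent.Lib.SM3.E14

set_option autoImplicit false

open MeasureTheory Set

namespace Pool.SM3

theorem no_two_colours {Y : Set Pt} (h : Good Y) {a b : Fin 3} (hab : a ≠ b) {j j' : ℤ}
    (h1 : UE a j Y) (h2 : UE b j' Y) : False := by
  obtain ⟨x, hx, hxa, _, _, hxn⟩ := h1
  obtain ⟨y, hy, hyb, _, _, hyn⟩ := h2
  have hr := MS_rec h (|x.1 - y.1| + 1) x y (lt_add_one _)
  refine hxn y (hr.2 ⟨hx, hy, ?_, fun z _ => hxn z, fun z _ => hyn z⟩)
  rw [hxa, hyb]
  exact hab

theorem UE_colour_zero {p : Fin 3 → ℝ} (hp : PV p) (hq : p 1 = p 2) {Ω : Type} [MeasurableSpace Ω]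
    {P : Measure Ω} [IsProbabilityMeasure P] {S : Fin 3 → Ω → Set ℝ} (h : Hyp p P S) {a : Fin 3}
    (ha : a ≠ 0) (j : ℤ) : P {ω | UE a j (SS S ω)} = 0 := by
  have heq : P.real {ω | UE 1 0 (SS S ω)} = P.real {ω | UE 2 0 (SS S ω)} := by
    have hle : ∀ ε : ℝ, 0 < ε →
        |P.real {ω | UE 1 0 (SS S ω)} - P.real {ω | UE 2 0 (SS S ω)}| ≤ ε := by
      intro ε hε
      obtain ⟨r₁, _, h1⟩ := UE_approx hp h 1 (half_pos hε)
      obtain ⟨r₂, _, h2⟩ := UE_approx hp h 2 (half_pos hε)
      obtain ⟨m₁, h3⟩ := h1 (max r₁ r₂) (le_max_left _ _)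
      obtain ⟨m₂, h4⟩ := h2 (max r₁ r₂) (le_max_right _ _)
      have h5 := (h3 (max m₁ m₂) (le_max_left _ _)).1
      have h6 := (h4 (max m₁ m₂) (le_max_right _ _)).1
      rw [al_swap hq] at h5
      rw [abs_le] at h5 h6 ⊢
      constructor
      · linarith [h5.1, h5.2, h6.1, h6.2]
      · linarith [h5.1, h5.2, h6.1, h6.2]
    have h0 : |P.real {ω | UE 1 0 (SS S ω)} - P.real {ω | UE 2 0 (SS S ω)}| ≤ 0 :=
      le_of_forall_pos_le_add fun ε hε => by
        rw [zero_add]
        exact hle ε hε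
    exact sub_eq_zero.1 (abs_nonpos_iff.1 h0)
  have hzero : P.real {ω | UE 1 0 (SS S ω)} = 0 := by
    by_contra hne
    have hpos : 0 < P.real {ω | UE 1 0 (SS S ω)} :=
      lt_of_le_of_ne measureReal_nonneg (Ne.symm hne)
    have hpos2 : 0 < P.real {ω | UE 2 0 (SS S ω)} := by
      rw [← heq]
      exact hpos
    have hF : ∀ᵐ ω ∂P, False := by
      filter_upwards [ae_good hp h, UE_zero_one hp h 1 hpos, UE_zero_one hp h 2 hpos2]
        with ω hg h1 h2
      obtain ⟨j1, _, hj1⟩ := h1 0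
      obtain ⟨j2, _, hj2⟩ := h2 0
      exact no_two_colours hg (by decide) hj1 hj2
    rw [ae_iff] at hF
    simp only [not_false_eq_true] at hF
    have hu : P univ = 0 := hF
    rw [measure_univ] at hu
    exact one_ne_zero hu
  have ha12 : a = 1 ∨ a = 2 := by
    fin_cases a
    · exact absurd rfl ha
    · exact Or.inl rfl
    · exact Or.inr rfl
  have h0 : P.real {ω | UE a 0 (SS S ω)} = 0 := by
    rcases ha12 with rfl | rfl
    · exact hzero
    · rw [← heq]
      exact hzero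
  have hj : P.real {ω | UE a j (SS S ω)} = 0 := by
    rw [UE_prob_eq hp h a j]
    exact h0
  exact (measureReal_eq_zero_iff (measure_ne_top P _)).1 hj

end Pool.SM3
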