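/-
SM3.E16 : two unmatched points on the line bound a closed system with free ends (deterministic).
PROOF. Let `x` (in `(i,i+1)`) and `y` (in `(j,j+1)`) be unmatched of colour `a`, `x.1 < y.1`; let `H = {z ∈ Y | x.1 ≤ z.1 ≤ y.1}` (finite).  No pair of `MS Y` leaves `H`: for `v ∈ H`, `MS Y v z`:
if `z.1 < x.1` then `v ≠ x`, `z.1 < x.1 < v.1`, contradiction to no_cross (`M = MS Y`, `r` large, MS_rec); same at `y`.  So by Mt_restrict `MS Y = Mt H` on `H`, and `x, y` are unmatched in
`H`.  If `l = l₁ ++ x :: l₃ ++ y :: l₄` is the sorted list of the points of `Y` in a window containing `x, y` then `H = cl x.1 a y.1 a l₃`.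
`pair_split`: for the sorted list `l` of `Win Y i (j+1)`: `l = l₁ ++ x :: (l₃ ++ y :: l₄)`, and the term of the double splitSum at this splitting is `1`
(splitSum is `≥` each of its terms: `le_splitSum`).
-/
import Pool.Agent.Lib.SM3.B3
import Pool.Agent.Lib.SM3.E8

set_option autoImplicit false

open MeasureTheory Set

namespace Pool.SM3

theorem le_splitSum (Ψ : List Pt → Pt → List Pt → ENNReal) (l₁ : List Pt) (y : Pt) (l₂ : List Pt) :
    Ψ l₁ y l₂ ≤ splitSum Ψ (l₁ ++ y :: l₂) := by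
  induction l₁ generalizing Ψ with
  | nil =>
    rw [List.nil_append, splitSum]
    exact le_self_add
  | cons z l₁ ih =>
    rw [List.cons_append, splitSum]
    exact le_trans (ih (fun l₁ w l₂ => Ψ (z :: l₁) w l₂)) le_add_self

private theorem ind_true {P : Prop} (h : P) : ind P = 1 := by
  unfold ind
  rw [if_pos h]

theorem pair_split {Y : Set Pt} (h : Good Y) (a : Fin 3) {i j : ℤ} (hij : i < j)
    (h1 : UE a i Y) (h2 : UE a j Y) {l : List Pt} (hl : IsConf Y i (j + 1) l) :
    1 ≤ splitSum (fun _ x l₂ => ind (x.2 = a ∧ (i : ℝ) < x.1 ∧ x.1 < i + 1) *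
      splitSum (fun l₃ y _ => ind (y.2 = a ∧ (j : ℝ) < y.1 ∧ y.1 < j + 1 ∧
        Gd x.1 a y.1 a (y.1 - x.1) l₃)) l₂) l := by
  obtain ⟨x, hxY, hxa, hx1, hx2, hxu⟩ := h1
  obtain ⟨y, hyY, hya, hy1, hy2, hyu⟩ := h2
  obtain ⟨hlp, hlm⟩ := hl
  have hij' : (i : ℝ) + 1 ≤ j := by exact_mod_cast hij
  have hxy : x.1 < y.1 := by linarith
  have hinj : PosInj Y := h.noIso.posInj
  have hxl : x ∈ l := (hlm x).2 ⟨hxY, by linarith, by linarith⟩
  have hyl : y ∈ l := (hlm y).2 ⟨hyY, by linarith, by linarith⟩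
  obtain ⟨l₁, l', rfl⟩ := List.append_of_mem hxl
  rw [List.pairwise_append, List.pairwise_cons] at hlp
  obtain ⟨_, ⟨hx', hp'⟩, hcr⟩ := hlp
  have hyl' : y ∈ l' := by
    rw [List.mem_append, List.mem_cons] at hyl
    rcases hyl with hyl | hyl | hyl
    · have := hcr y hyl x (List.mem_cons_self)
      linarith
    · rw [hyl] at hxy
      exact absurd hxy (lt_irrefl _)
    · exact hyl
  obtain ⟨l₃, l₄, rfl⟩ := List.append_of_mem hyl'
  rw [List.pairwise_append, List.pairwise_cons] at hp'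
  obtain ⟨_, ⟨hy', _⟩, hcr'⟩ := hp'
  have hxe : (x.1, a) = x := by rw [← hxa]
  have hye : (y.1, a) = y := by rw [← hya]
  have hH : ∀ z, z ∈ cl x.1 a y.1 a l₃ ↔ z ∈ Y ∧ x.1 ≤ z.1 ∧ z.1 ≤ y.1 := by
    intro z
    unfold cl
    rw [Set.mem_ofPred_eq, List.mem_cons, List.mem_cons, hxe, hye]
    constructor
    · rintro (rfl | rfl | hz)
      · exact ⟨hxY, le_rfl, hxy.le⟩
      · exact ⟨hyY, hxy.le, le_rfl⟩
      · refine ⟨((hlm z).1 ?_).1, ?_, ?_⟩
        · rw [List.mem_append, List.mem_cons, List.mem_append]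
          exact Or.inr (Or.inr (Or.inl hz))
        · exact (hx' z (List.mem_append.2 (Or.inl hz))).le
        · exact (hcr' z hz y (List.mem_cons_self)).le
    · rintro ⟨hzY, hz1, hz2⟩
      rcases hz1.lt_or_eq with hz1 | hz1
      swap
      · exact Or.inl (hinj z hzY x hxY hz1.symm)
      rcases hz2.lt_or_eq with hz2 | hz2
      swap
      · exact Or.inr (Or.inl (hinj z hzY y hyY hz2))
      refine Or.inr (Or.inr ?_)
      have hzl : z ∈ l₁ ++ x :: (l₃ ++ y :: l₄) :=
        (hlm z).2 ⟨hzY, by linarith, by linarith⟩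
      rw [List.mem_append, List.mem_cons, List.mem_append, List.mem_cons] at hzl
      rcases hzl with hz | hz | hz | hz | hz
      · have := hcr z hz x (List.mem_cons_self)
        linarith
      · rw [hz] at hz1
        exact absurd hz1 (lt_irrefl _)
      · exact hz
      · rw [hz] at hz2
        exact absurd hz2 (lt_irrefl _)
      · have := hy' z hz
        linarith
  have hHY : cl x.1 a y.1 a l₃ ⊆ Y := fun z hz => ((hH z).1 hz).1
  have hHf : (cl x.1 a y.1 a l₃).Finite := by
    unfold cl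
    exact List.finite_toSet _
  have hxH : x ∈ cl x.1 a y.1 a l₃ := (hH x).2 ⟨hxY, le_rfl, hxy.le⟩
  have hyH : y ∈ cl x.1 a y.1 a l₃ := (hH y).2 ⟨hyY, hxy.le, le_rfl⟩
  have hsym : ∀ x y, MS Y x y → MS Y y x := fun _ _ h => MS_symm h
  have hiso : ∀ v ∈ cl x.1 a y.1 a l₃, ∀ z, MS Y v z → z ∈ cl x.1 a y.1 a l₃ := by
    intro v hv z hvz
    obtain ⟨hvY, hv1, hv2⟩ := (hH v).1 hv
    obtain ⟨_, hzY, _⟩ := MS_mem hvz
    rw [hH z]
    refine ⟨hzY, ?_, ?_⟩
    · by_contra hlt
      push Not at hlt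
      have hvx : x.1 < v.1 := by
        rcases hv1.lt_or_eq with h' | h'
        · exact h'
        · have := hinj v hvY x hxY h'.symm
          rw [this] at hvz
          exact absurd hvz (hxu z)
      exact no_cross (MS_rec h (|z.1 - v.1| + 1)) hsym hxY
        (fun w hw => absurd hw (hxu w)) (MS_symm hvz) (by linarith) hlt hvx
    · by_contra hlt
      push Not at hlt
      have hvy : v.1 < y.1 := by
        rcases hv2.lt_or_eq with h' | h'
        · exact h'
        · have := hinj v hvY y hyY h'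
          rw [this] at hvz
          exact absurd hvz (hyu z)
      exact no_cross (MS_rec h (|v.1 - z.1| + 1)) hsym hyY
        (fun w hw => absurd hw (hyu w)) hvz (by linarith) hvy hlt
  have hGd : Gd x.1 a y.1 a (y.1 - x.1) l₃ := by
    constructor
    · intro z hz
      rw [hxe] at hz
      obtain ⟨_, hzH, _⟩ := Mt_mem hz
      have := (Mt_restrict hHY hHf (MS_rec h (|x.1 - z.1| + 1)) hsym
        (fun v hv w hvw _ => hiso v hv w hvw) hxH hzH (by linarith)).2 hz
      exact absurd this (hxu z)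
    · intro z hz
      rw [hye] at hz
      obtain ⟨_, hzH, _⟩ := Mt_mem hz
      have := (Mt_restrict hHY hHf (MS_rec h (|y.1 - z.1| + 1)) hsym
        (fun v hv w hvw _ => hiso v hv w hvw) hyH hzH (by linarith)).2 hz
      exact absurd this (hyu z)
  refine le_trans ?_ (le_splitSum _ l₁ x (l₃ ++ y :: l₄))
  rw [ind_true ⟨hxa, hx1, hx2⟩, one_mul]
  refine le_trans ?_ (le_splitSum _ l₃ y l₄)
  rw [ind_true ⟨hya, hy1, hy2, hGd⟩]

end Pool.SM3
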