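/-
SM3.E17 : Mecke's formula twice.
PROOF. The set on the left is a.s. contained in `{conf ω ∈ A}`, `A = {l | 1 ≤ double splitSum}` (pair_split with `conf` from exists_conf on `(i, j+1)`), and by Markov its probability is `≤` the integral of the
double splitSum over `Pm p i (j+1)` (map_conf; measurable by measurable_splitSum, measurableSet_Gd).  `mecke` (outer): `∫⁻ x in Ioo i (j+1), ∑ c, ofReal (p c) ind (c = a ∧ i < x < i+1) * ∫⁻ l₂, splitSum .. l₂
∂Pm p x (j+1)` (`Pm p i x` is a probability measure), `mecke` (inner): `∫⁻ y in Ioo x (j+1), ofReal (p a) ind (j < y < j+1) * Pm p x y {l₃ | Gd x a y a (y-x) l₃}`, and the last factor times `p a` is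
`ofReal (Kf p a (y - x))` by the shift (lintegral_Pm_shift, Gd_shift).
-/
import Pool.Agent.Lib.SM3.C5
import Pool.Agent.Lib.SM3.E4
import Pool.Agent.Lib.SM3.E10
import Pool.Agent.Lib.SM3.E16

set_option autoImplicit false

open MeasureTheory Set

namespace Pool.SM3

private noncomputable def InPsi (a : Fin 3) (j : ℤ) (x : Pt) (l₃ : List Pt) (y : Pt)
    (_l₄ : List Pt) : ENNReal :=
  ind (y.2 = a ∧ (j : ℝ) < y.1 ∧ y.1 < j + 1 ∧ Gd x.1 a y.1 a (y.1 - x.1) l₃)

private noncomputable def OutPsi (a : Fin 3) (i j : ℤ) (_l₁ : List Pt) (x : Pt)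
    (l₂ : List Pt) : ENNReal :=
  ind (x.2 = a ∧ (i : ℝ) < x.1 ∧ x.1 < i + 1) * splitSum (InPsi a j x) l₂

private theorem meas_In (a : Fin 3) (j : ℤ) : Measurable
    (fun q : Pt × List Pt × Pt × List Pt => InPsi a j q.1 q.2.1 q.2.2.1 q.2.2.2) := by
  unfold InPsi
  apply measurable_ind
  have m1 : Measurable (fun q : Pt × List Pt × Pt × List Pt => q.1.1) := by fun_prop
  have m2 : Measurable (fun q : Pt × List Pt × Pt × List Pt => q.2.2.1.1) := by fun_prop
  have m3 : Measurable (fun q : Pt × List Pt × Pt × List Pt => q.2.2.1.2) := by fun_prop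
  have m4 : Measurable (fun q : Pt × List Pt × Pt × List Pt => q.2.1) := by fun_prop
  have s1 : MeasurableSet {q : Pt × List Pt × Pt × List Pt | q.2.2.1.2 = a} :=
    m3 (measurableSet_singleton a)
  have s2 : MeasurableSet {q : Pt × List Pt × Pt × List Pt | (j : ℝ) < q.2.2.1.1} :=
    measurableSet_lt measurable_const m2
  have s3 : MeasurableSet {q : Pt × List Pt × Pt × List Pt | q.2.2.1.1 < (j : ℝ) + 1} :=
    measurableSet_lt m2 measurable_const
  have s4 := measurableSet_Gd (Θ := Pt × List Pt × Pt × List Pt) (a := fun _ => a)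
    (b := fun _ => a) m1 m2 (m2.sub m1) measurable_const measurable_const m4
  exact s1.inter (s2.inter (s3.inter s4))

private theorem meas_Out (a : Fin 3) (i j : ℤ) : Measurable
    (fun q : List Pt × Pt × List Pt => OutPsi a i j q.1 q.2.1 q.2.2) := by
  unfold OutPsi
  apply Measurable.mul
  · apply measurable_ind
    have m2 : Measurable (fun q : List Pt × Pt × List Pt => q.2.1.1) := by fun_prop
    have m3 : Measurable (fun q : List Pt × Pt × List Pt => q.2.1.2) := by fun_prop
    have s1 : MeasurableSet {q : List Pt × Pt × List Pt | q.2.1.2 = a} :=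
      m3 (measurableSet_singleton a)
    have s2 : MeasurableSet {q : List Pt × Pt × List Pt | (i : ℝ) < q.2.1.1} :=
      measurableSet_lt measurable_const m2
    have s3 : MeasurableSet {q : List Pt × Pt × List Pt | q.2.1.1 < (i : ℝ) + 1} :=
      measurableSet_lt m2 measurable_const
    exact s1.inter (s2.inter s3)
  · exact (measurable_splitSum (meas_In a j)).comp measurable_snd

private theorem meas_splitOut (a : Fin 3) (i j : ℤ) :
    Measurable (fun l : List Pt => splitSum (OutPsi a i j) l) := by
  have h : Measurable (fun q : Unit × List Pt => splitSum (OutPsi a i j) q.2) := by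
    have := measurable_splitSum (Θ := Unit) (Ψ := fun _ => OutPsi a i j)
      ((meas_Out a i j).comp measurable_snd)
    exact this
  exact h.comp (measurable_const.prodMk measurable_id : Measurable (fun l : List Pt => ((), l)))

private theorem ind_le_one (Q : Prop) : ind Q ≤ 1 := by
  unfold ind
  split_ifs <;> simp

private theorem ind_of_not {Q : Prop} (h : ¬ Q) : ind Q = 0 := by
  unfold ind
  rw [if_neg h]

private theorem ind_of {Q : Prop} (h : Q) : ind Q = 1 := by
  unfold ind
  rw [if_pos h]

private theorem Pm_Gd_eq (p : Fin 3 → ℝ) (hp : PV p) (a : Fin 3) {x y : ℝ} (hxy : x < y) :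
    ENNReal.ofReal (p a) * Pm p x y {l | Gd x a y a (y - x) l}
      = ENNReal.ofReal (Kf p a (y - x)) := by
  have hms : ∀ u w r : ℝ, MeasurableSet {l : List Pt | Gd u a w a r l} := by
    intro u w r
    exact measurableSet_Gd (Θ := List Pt) (u := fun _ => u) (w := fun _ => w) (r := fun _ => r)
      (a := fun _ => a) (b := fun _ => a) (l := fun l => l) measurable_const measurable_const
      measurable_const measurable_const measurable_const measurable_id
  have hshift : Pm p x y {l | Gd x a y a (y - x) l}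
      = Pm p 0 (y - x) {l | Gd 0 a (y - x) a (y - x) l} := by
    rw [← lintegral_indicator_one (hms x y (y - x)),
      ← lintegral_indicator_one (hms 0 (y - x) (y - x))]
    have h1 := lintegral_Pm_shift p x 0 (y - x)
      (Φ := {l | Gd x a y a (y - x) l}.indicator 1)
      (measurable_one.indicator (hms x y (y - x)))
    rw [zero_add, sub_add_cancel] at h1
    rw [h1]
    apply lintegral_congr
    intro l
    have h2 := Gd_shift x 0 (y - x) a a (y - x) l
    rw [zero_add, sub_add_cancel] at h2
    by_cases h : Gd 0 a (y - x) a (y - x) l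
    · have h3 := h2.2 h
      rw [indicator_of_mem (show _ ∈ {l | Gd x a y a (y - x) l} from h3),
        indicator_of_mem (show l ∈ {l | Gd 0 a (y - x) a (y - x) l} from h)]
      rfl
    · have h3 := fun h' => h (h2.1 h')
      rw [indicator_of_notMem (show _ ∉ {l | Gd x a y a (y - x) l} from h3),
        indicator_of_notMem (show l ∉ {l | Gd 0 a (y - x) a (y - x) l} from h)]
  rw [hshift]
  unfold Kf
  have := isProb_Pm hp (sub_pos.2 hxy).le
  rw [ENNReal.ofReal_mul (hp.pos a).le, ofReal_measureReal]

private theorem inner_le (p : Fin 3 → ℝ) (hp : PV p) (a : Fin 3) {i j : ℤ} (hij : i < j) {t : ℝ}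
    (h2 : t < (i : ℝ) + 1) :
    ∫⁻ l₂, splitSum (InPsi a j (t, a)) l₂ ∂(Pm p t (j + 1))
      ≤ ∫⁻ y in Ioo (j : ℝ) (j + 1), ENNReal.ofReal (Kf p a (y - t)) := by
  have hm : Measurable (fun q : List Pt × Pt × List Pt => InPsi a j (t, a) q.1 q.2.1 q.2.2) :=
    (meas_In a j).comp ((measurable_const (a := ((t, a) : Pt))).prodMk measurable_id :
      Measurable (fun q : List Pt × Pt × List Pt => (((t, a) : Pt), q)))
  rw [mecke p t (j + 1) hm]
  have hij' : (i : ℝ) + 1 ≤ j := by exact_mod_cast hij
  have hti : t < (j : ℝ) := lt_of_lt_of_le h2 hij'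
  have hsub : Ioo (j : ℝ) (j + 1) ⊆ Ioo t (j + 1) := Ioo_subset_Ioo_left hti.le
  have hpt : ∀ y ∈ Ioo t ((j : ℝ) + 1), (∑ c : Fin 3, ENNReal.ofReal (p c) *
      ∫⁻ l₁, ∫⁻ l₂, InPsi a j (t, a) l₁ (y, c) l₂ ∂(Pm p y (j + 1)) ∂(Pm p t y))
      ≤ (Ioo (j : ℝ) (j + 1)).indicator (fun y => ENNReal.ofReal (Kf p a (y - t))) y := by
    intro y hy
    have := isProb_Pm hp hy.2.le
    have := isProb_Pm hp hy.1.le
    have hterm : ∀ c : Fin 3, (∫⁻ l₁, ∫⁻ l₂, InPsi a j (t, a) l₁ (y, c) l₂
        ∂(Pm p y (j + 1)) ∂(Pm p t y)) = ∫⁻ l₁, InPsi a j (t, a) l₁ (y, c) [] ∂(Pm p t y) := by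
      intro c
      apply lintegral_congr
      intro l₁
      have : (fun l₂ => InPsi a j (t, a) l₁ (y, c) l₂) = fun _ => InPsi a j (t, a) l₁ (y, c) [] := by
        funext l₂
        rfl
      rw [this, lintegral_const, measure_univ, mul_one]
    simp_rw [hterm]
    rw [Finset.sum_eq_single a]
    · by_cases hy' : y ∈ Ioo (j : ℝ) (j + 1)
      · rw [indicator_of_mem hy', ← Pm_Gd_eq p hp a hy.1]
        gcongr
        have hms : MeasurableSet {l : List Pt | Gd t a y a (y - t) l} :=
          measurableSet_Gd (Θ := List Pt) (u := fun _ => t) (w := fun _ => y)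
            (r := fun _ => y - t)
            (a := fun _ => a) (b := fun _ => a) (l := fun l => l) measurable_const measurable_const
            measurable_const measurable_const measurable_const measurable_id
        rw [← lintegral_indicator_one hms]
        apply lintegral_mono
        intro l
        show InPsi a j (t, a) l (y, a) [] ≤ _
        unfold InPsi
        by_cases h : Gd t a y a (y - t) l
        · rw [indicator_of_mem (show l ∈ {l | Gd t a y a (y - t) l} from h)]
          exact ind_le_one _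
        · rw [ind_of_not (fun h' => h h'.2.2.2)]
          exact bot_le
      · rw [indicator_of_notMem hy']
        have : ∀ l, InPsi a j (t, a) l (y, a) [] = 0 := by
          intro l
          unfold InPsi
          apply ind_of_not
          rintro ⟨-, h1, h2, -⟩
          exact hy' ⟨h1, h2⟩
        simp_rw [this]
        simp
    · intro c _ hc
      have : ∀ l, InPsi a j (t, a) l (y, c) [] = 0 := by
        intro l
        unfold InPsi
        apply ind_of_not
        rintro ⟨h1, -⟩
        exact hc h1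
      simp_rw [this]
      simp
    · intro h
      exact absurd (Finset.mem_univ _) h
  calc _ ≤ ∫⁻ y in Ioo t ((j : ℝ) + 1),
        (Ioo (j : ℝ) (j + 1)).indicator (fun y => ENNReal.ofReal (Kf p a (y - t))) y :=
        setLIntegral_mono' measurableSet_Ioo hpt
    _ = ∫⁻ y in Ioo (j : ℝ) (j + 1), ENNReal.ofReal (Kf p a (y - t)) := by
        rw [lintegral_indicator measurableSet_Ioo, Measure.restrict_restrict measurableSet_Ioo,
          inter_eq_left.2 hsub]

theorem pair_bound {p : Fin 3 → ℝ} (hp : PV p) {Ω : Type} [MeasurableSpace Ω] {P : Measure Ω}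
    [IsProbabilityMeasure P] {S : Fin 3 → Ω → Set ℝ} (h : Hyp p P S) (a : Fin 3) {i j : ℤ}
    (hij : i < j) :
    P ({ω | UE a i (SS S ω)} ∩ {ω | UE a j (SS S ω)})
      ≤ ∫⁻ x in Ioo (i : ℝ) (i + 1), ∫⁻ y in Ioo (j : ℝ) (j + 1),
          ENNReal.ofReal (p a) * ENNReal.ofReal (Kf p a (y - x)) := by
  have hij' : (i : ℝ) + 1 ≤ j := by exact_mod_cast hij
  have huw : (i : ℝ) < (j : ℝ) + 1 := by linarith
  obtain ⟨conf, hcm, hcc⟩ := exists_conf hp h (i : ℝ) ((j : ℝ) + 1)
  have hmap := map_conf hp h huw hcm hcc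
  have hgood := ae_good hp h
  have step1 : P ({ω | UE a i (SS S ω)} ∩ {ω | UE a j (SS S ω)})
      ≤ P {ω | 1 ≤ splitSum (OutPsi a i j) (conf ω)} := by
    apply measure_mono_ae
    filter_upwards [hcc, hgood] with ω h1 h2 h3
    exact pair_split h2 a hij h3.1 h3.2 h1
  have hmF : Measurable (fun ω => splitSum (OutPsi a i j) (conf ω)) :=
    (meas_splitOut a i j).comp hcm
  have step2 : P {ω | 1 ≤ splitSum (OutPsi a i j) (conf ω)}
      ≤ ∫⁻ ω, splitSum (OutPsi a i j) (conf ω) ∂P := by
    have := mul_meas_ge_le_lintegral hmF 1 (μ := P)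
    rwa [one_mul] at this
  have step3 : ∫⁻ ω, splitSum (OutPsi a i j) (conf ω) ∂P
      = ∫⁻ l, splitSum (OutPsi a i j) l ∂(Pm p i (j + 1)) := by
    rw [← hmap, lintegral_map (meas_splitOut a i j) hcm]
  refine step1.trans (step2.trans (step3.le.trans ?_))
  rw [mecke p i (j + 1) (meas_Out a i j)]
  have hsub : Ioo (i : ℝ) (i + 1) ⊆ Ioo (i : ℝ) (j + 1) := Ioo_subset_Ioo_right (by linarith)
  have hKm : Measurable (Kf p a) := measurable_Kf p a
  have hpt : ∀ x ∈ Ioo (i : ℝ) ((j : ℝ) + 1), (∑ c : Fin 3, ENNReal.ofReal (p c) *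
      ∫⁻ l₁, ∫⁻ l₂, OutPsi a i j l₁ (x, c) l₂ ∂(Pm p x (j + 1)) ∂(Pm p i x))
      ≤ (Ioo (i : ℝ) (i + 1)).indicator (fun x => ∫⁻ y in Ioo (j : ℝ) (j + 1),
          ENNReal.ofReal (p a) * ENNReal.ofReal (Kf p a (y - x))) x := by
    intro x hx
    have := isProb_Pm hp hx.2.le
    have := isProb_Pm hp hx.1.le
    have hterm : ∀ c : Fin 3, (∫⁻ l₁, ∫⁻ l₂, OutPsi a i j l₁ (x, c) l₂
        ∂(Pm p x (j + 1)) ∂(Pm p i x)) = ∫⁻ l₂, OutPsi a i j [] (x, c) l₂ ∂(Pm p x (j + 1)) := by
      intro c
      have : (fun l₁ => ∫⁻ l₂, OutPsi a i j l₁ (x, c) l₂ ∂(Pm p x (j + 1)))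
          = fun _ => ∫⁻ l₂, OutPsi a i j [] (x, c) l₂ ∂(Pm p x (j + 1)) := by
        funext l₁
        rfl
      rw [this, lintegral_const, measure_univ, mul_one]
    simp_rw [hterm]
    rw [Finset.sum_eq_single a]
    · by_cases hx' : x ∈ Ioo (i : ℝ) (i + 1)
      · rw [indicator_of_mem hx', lintegral_const_mul]
        · gcongr
          calc _ ≤ ∫⁻ l₂, splitSum (InPsi a j (x, a)) l₂ ∂(Pm p x (j + 1)) := by
                apply lintegral_mono
                intro l
                show OutPsi a i j [] (x, a) l ≤ _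
                unfold OutPsi
                calc _ ≤ 1 * splitSum (InPsi a j (x, a)) l := by
                      gcongr
                      exact ind_le_one _
                  _ = _ := one_mul _
            _ ≤ _ := inner_le p hp a hij hx'.2
        · exact ENNReal.measurable_ofReal.comp (hKm.comp (measurable_id.sub measurable_const))
      · rw [indicator_of_notMem hx']
        have : ∀ l, OutPsi a i j [] (x, a) l = 0 := by
          intro l
          unfold OutPsi
          rw [ind_of_not, zero_mul]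
          rintro ⟨-, h1, h2⟩
          exact hx' ⟨h1, h2⟩
        simp_rw [this]
        simp
    · intro c _ hc
      have : ∀ l, OutPsi a i j [] (x, c) l = 0 := by
        intro l
        unfold OutPsi
        rw [ind_of_not, zero_mul]
        rintro ⟨h1, -⟩
        exact hc h1
      simp_rw [this]
      simp
    · intro h
      exact absurd (Finset.mem_univ _) h
  calc _ ≤ ∫⁻ x in Ioo (i : ℝ) ((j : ℝ) + 1),
        (Ioo (i : ℝ) (i + 1)).indicator (fun x => ∫⁻ y in Ioo (j : ℝ) (j + 1),
          ENNReal.ofReal (p a) * ENNReal.ofReal (Kf p a (y - x))) x :=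
        setLIntegral_mono' measurableSet_Ioo hpt
    _ = _ := by
        rw [lintegral_indicator measurableSet_Ioo, Measure.restrict_restrict measurableSet_Ioo,
          inter_eq_left.2 hsub]

end Pool.SM3
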