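/-
SM3.E18 : the second moment argument.
PROOF. Let `υ = P.real {UE a 0}`; by UE_prob_eq all `P.real {UE a j} = υ`.  `X_N = ∑_{i<N} 1_{UE a i}`: `(N υ)² = (E X_N)² ≤ E X_N²
= N υ + 2 ∑_{i<j<N} P.real (UE a i ∩ UE a j)`.  By pair_bound, for fixed `i`: `∑_{i<j<N} ≤ ∫⁻ x in Ioo i (i+1), ∫⁻ y in Ioo (i+1) N, ofReal (Kf p a (y-x))
≤ ∫⁻ x in Ioo i (i+1), ofReal (∫_0^{N} Kf) ≤ C` (`p a ≤ 1`, `Kf ≥ 0` on `(0,∞)`, `0 < y - x < N`).  So `υ² N² ≤ N + 2 N C` for all `N`, hence `υ = 0`.
-/
import Pool.Agent.Lib.SM3.E13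
import Pool.Agent.Lib.SM3.E17

set_option autoImplicit false

open MeasureTheory Set

namespace Pool.SM3

theorem e18_cs {Ω : Type} [MeasurableSpace Ω] (P : Measure Ω) [IsProbabilityMeasure P]
    {V : ℕ → Set Ω} (hV : ∀ i, MeasurableSet (V i)) (N : ℕ) :
    (∑ i ∈ Finset.range N, P.real (V i)) ^ 2
      ≤ ∑ i ∈ Finset.range N, ∑ j ∈ Finset.range N, P.real (V i ∩ V j) := by
  classical
  set f : ℕ → Ω → ℝ := fun i => (V i).indicator (fun _ => (1 : ℝ)) with hf
  set c : ℝ := ∑ i ∈ Finset.range N, P.real (V i) with hc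
  have hint : ∀ i, Integrable (f i) P := fun i =>
    (integrable_const (1 : ℝ)).indicator (hV i)
  have hfi : ∀ i, ∫ ω, f i ω ∂P = P.real (V i) := by
    intro i
    rw [hf]
    simp only
    rw [integral_indicator_const (1 : ℝ) (hV i), smul_eq_mul, mul_one]
  have hff : ∀ i j ω, f i ω * f j ω = (V i ∩ V j).indicator (fun _ => (1 : ℝ)) ω := by
    intro i j ω
    rw [hf]
    by_cases h1 : ω ∈ V i <;> by_cases h2 : ω ∈ V j <;> simp [h1, h2]
  have hint2 : ∀ i j, Integrable (fun ω => f i ω * f j ω) P := by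
    intro i j
    simp only [hff]
    exact (integrable_const (1 : ℝ)).indicator ((hV i).inter (hV j))
  have hfij : ∀ i j, ∫ ω, f i ω * f j ω ∂P = P.real (V i ∩ V j) := by
    intro i j
    simp only [hff]
    rw [integral_indicator_const (1 : ℝ) ((hV i).inter (hV j)), smul_eq_mul, mul_one]
  have h0 : 0 ≤ ∫ ω, (∑ i ∈ Finset.range N, f i ω - c) ^ 2 ∂P :=
    integral_nonneg fun ω => sq_nonneg _
  have h1 : ∀ ω, (∑ i ∈ Finset.range N, f i ω - c) ^ 2
      = (∑ i ∈ Finset.range N, ∑ j ∈ Finset.range N, f i ω * f j ω)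
        - 2 * c * (∑ i ∈ Finset.range N, f i ω) + c ^ 2 := by
    intro ω
    have : (∑ i ∈ Finset.range N, ∑ j ∈ Finset.range N, f i ω * f j ω)
        = (∑ i ∈ Finset.range N, f i ω) * (∑ i ∈ Finset.range N, f i ω) := by
      rw [Finset.sum_mul_sum]
    rw [this]
    ring
  have hI1 : Integrable (fun ω => ∑ i ∈ Finset.range N, f i ω) P :=
    integrable_finsetSum _ fun i _ => hint i
  have hI2 : Integrable (fun ω => ∑ i ∈ Finset.range N, ∑ j ∈ Finset.range N, f i ω * f j ω) P :=
    integrable_finsetSum _ fun i _ => integrable_finsetSum _ fun j _ => hint2 i j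
  simp only [h1] at h0
  have hI3 : Integrable (fun ω => 2 * c * (∑ i ∈ Finset.range N, f i ω)) P := hI1.const_mul _
  have hI4 : Integrable (fun ω => (∑ i ∈ Finset.range N, ∑ j ∈ Finset.range N, f i ω * f j ω)
      - 2 * c * (∑ i ∈ Finset.range N, f i ω)) P := hI2.sub hI3
  rw [integral_add hI4 (integrable_const _), integral_sub hI2 hI3, integral_const_mul,
    integral_finsetSum _ (fun i _ => hint i),
    integral_finsetSum _ (fun i _ => integrable_finsetSum _ fun j _ => hint2 i j)] at h0
  simp only [hfi] at h0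
  have h2 : ∀ i, ∫ ω, ∑ j ∈ Finset.range N, f i ω * f j ω ∂P
      = ∑ j ∈ Finset.range N, P.real (V i ∩ V j) := by
    intro i
    rw [integral_finsetSum _ (fun j _ => hint2 i j)]
    exact Finset.sum_congr rfl fun j _ => hfij i j
  simp only [h2] at h0
  rw [← hc] at h0
  simp only [integral_const, smul_eq_mul] at h0
  have h3 : P.real (univ : Set Ω) = 1 := by simp
  rw [h3] at h0
  nlinarith [h0]

theorem e18_shift {f : ℝ → ENNReal} (hf : Measurable f) (x N : ℝ) :
    ∫⁻ y in Ioo x (x + N), f (y - x) = ∫⁻ z in Ioo 0 N, f z := by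
  rw [← lintegral_indicator measurableSet_Ioo, ← lintegral_indicator measurableSet_Ioo]
  rw [← lintegral_sub_right_eq_self (fun z => (Ioo 0 N).indicator (fun z => f z) z) x]
  refine lintegral_congr fun y => ?_
  by_cases hy : y ∈ Ioo x (x + N)
  · have hy2 : y - x ∈ Ioo 0 N := ⟨by linarith [hy.1], by linarith [hy.2]⟩
    rw [indicator_of_mem hy, indicator_of_mem hy2]
  · have hy2 : y - x ∉ Ioo 0 N := fun h => hy ⟨by linarith [h.1], by linarith [h.2]⟩
    rw [indicator_of_notMem hy, indicator_of_notMem hy2]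

theorem e18_Kf {p : Fin 3 → ℝ} (hp : PV p) (a : Fin 3)
    {C : ℝ} (hC : ∀ T : ℝ, 0 < T → (∫ z in (0:ℝ)..T, Kf p a z) ≤ C) {T : ℝ} (hT : 0 < T) :
    ∫⁻ z in Ioo 0 T, ENNReal.ofReal (Kf p a z) ≤ ENNReal.ofReal C := by
  have hb : ∀ᵐ z ∂((volume : Measure ℝ).restrict (Ioo 0 T)), ‖Kf p a z‖ ≤ 1 := by
    filter_upwards [ae_restrict_mem measurableSet_Ioo] with z hz
    have := Kf_bounds hp a hz.1
    rw [Real.norm_eq_abs, abs_of_nonneg this.1]
    exact this.2
  have hI : IntegrableOn (Kf p a) (Ioo 0 T) volume := by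
    refine Measure.integrableOn_of_bounded (M := 1) ?_
      (measurable_Kf p a).aestronglyMeasurable hb
    rw [Real.volume_Ioo]
    exact ENNReal.ofReal_ne_top
  rw [← ofReal_integral_eq_lintegral_ofReal hI]
  · refine ENNReal.ofReal_le_ofReal ?_
    rw [← integral_Ioc_eq_integral_Ioo, ← intervalIntegral.integral_of_le hT.le]
    exact hC T hT
  · filter_upwards [ae_restrict_mem measurableSet_Ioo] with z hz
    exact (Kf_bounds hp a hz.1).1

theorem e18_pa {p : Fin 3 → ℝ} (hp : PV p) (a : Fin 3) : p a ≤ 1 := by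
  have h0 := hp.pos 0
  have h1 := hp.pos 1
  have h2 := hp.pos 2
  have h := hp.sum
  fin_cases a
  · show p 0 ≤ 1
    linarith
  · show p 1 ≤ 1
    linarith
  · show p 2 ≤ 1
    linarith

theorem e18_row {p : Fin 3 → ℝ} (hp : PV p) {Ω : Type} [MeasurableSpace Ω]
    {P : Measure Ω} [IsProbabilityMeasure P] {S : Fin 3 → Ω → Set ℝ} (h : Hyp p P S) (a : Fin 3)
    {C : ℝ} (hC : ∀ T : ℝ, 0 < T → (∫ z in (0:ℝ)..T, Kf p a z) ≤ C) (i N : ℕ) :
    ∑ j ∈ (Finset.range N).filter (fun j => i < j),
      P ({ω | UE a (i : ℤ) (SS S ω)} ∩ {ω | UE a (j : ℤ) (SS S ω)}) ≤ ENNReal.ofReal C := by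
  rcases Nat.eq_zero_or_pos N with hN | hN
  · subst hN
    simp
  have hN' : (0 : ℝ) < N := by exact_mod_cast hN
  set F := (Finset.range N).filter (fun j => i < j) with hF
  set G : ℕ → ℝ → ENNReal := fun j x => ∫⁻ y in Ioo (j : ℝ) (j + 1),
    ENNReal.ofReal (p a) * ENNReal.ofReal (Kf p a (y - x)) with hG
  have hGm : ∀ j, Measurable (G j) := by
    intro j
    have hm : Measurable (fun q : ℝ × ℝ =>
        ENNReal.ofReal (p a) * ENNReal.ofReal (Kf p a (q.2 - q.1))) :=
      measurable_const.mul (ENNReal.measurable_ofReal.comp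
        ((measurable_Kf p a).comp (measurable_snd.sub measurable_fst)))
    exact hm.lintegral_prod_right'
  calc ∑ j ∈ F, P ({ω | UE a (i : ℤ) (SS S ω)} ∩ {ω | UE a (j : ℤ) (SS S ω)})
      ≤ ∑ j ∈ F, ∫⁻ x in Ioo (i : ℝ) (i + 1), G j x := by
        refine Finset.sum_le_sum fun j hj => ?_
        have hij : (i : ℤ) < (j : ℤ) := by
          have := (Finset.mem_filter.1 hj).2
          exact_mod_cast this
        have := pair_bound hp h a hij
        simpa only [Int.cast_natCast] using this
    _ = ∫⁻ x in Ioo (i : ℝ) (i + 1), ∑ j ∈ F, G j x :=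
        (lintegral_finsetSum _ fun j _ => hGm j).symm
    _ ≤ ∫⁻ x in Ioo (i : ℝ) (i + 1), ENNReal.ofReal C := by
        refine setLIntegral_mono' measurableSet_Ioo fun x hx => ?_
        have hx0 : (0 : ℝ) < x := lt_of_le_of_lt (Nat.cast_nonneg i) hx.1
        calc ∑ j ∈ F, G j x
            ≤ ∑ j ∈ F, ∫⁻ y in Ioo (j : ℝ) (j + 1), ENNReal.ofReal (Kf p a (y - x)) := by
              refine Finset.sum_le_sum fun j _ => ?_
              refine lintegral_mono fun y => ?_
              calc ENNReal.ofReal (p a) * ENNReal.ofReal (Kf p a (y - x))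
                  ≤ 1 * ENNReal.ofReal (Kf p a (y - x)) := by
                    gcongr
                    exact ENNReal.ofReal_le_one.2 (e18_pa hp a)
                _ = ENNReal.ofReal (Kf p a (y - x)) := one_mul _
          _ = ∫⁻ y in ⋃ j ∈ F, Ioo (j : ℝ) (j + 1), ENNReal.ofReal (Kf p a (y - x)) := by
              rw [lintegral_biUnion_finset]
              · intro j _ k _ hjk
                rw [Function.onFun, Set.disjoint_left]
                intro y hy1 hy2
                rcases lt_or_gt_of_ne hjk with h1 | h1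
                · have : ((j : ℝ) + 1) ≤ k := by exact_mod_cast h1
                  linarith [hy1.2, hy2.1]
                · have : ((k : ℝ) + 1) ≤ j := by exact_mod_cast h1
                  linarith [hy1.1, hy2.2]
              · intro j _
                exact measurableSet_Ioo
          _ ≤ ∫⁻ y in Ioo x (x + N), ENNReal.ofReal (Kf p a (y - x)) := by
              refine lintegral_mono_set ?_
              intro y hy
              simp only [mem_iUnion] at hy
              obtain ⟨j, hj, hy⟩ := hy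
              obtain ⟨hj1, hj2⟩ := Finset.mem_filter.1 hj
              have hj3 : ((j : ℝ) + 1) ≤ N := by exact_mod_cast Finset.mem_range.1 hj1
              have hj4 : ((i : ℝ) + 1) ≤ j := by exact_mod_cast hj2
              exact ⟨by linarith [hx.2, hy.1], by linarith [hy.2]⟩
          _ = ∫⁻ z in Ioo 0 (N : ℝ), ENNReal.ofReal (Kf p a z) :=
              e18_shift (f := fun z => ENNReal.ofReal (Kf p a z))
                (ENNReal.measurable_ofReal.comp (measurable_Kf p a)) x N
          _ ≤ ENNReal.ofReal C := e18_Kf hp a hC hN'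
    _ = ENNReal.ofReal C := by
        rw [setLIntegral_const, Real.volume_Ioo]
        simp

theorem UE_zero_of_integral {p : Fin 3 → ℝ} (hp : PV p) {Ω : Type} [MeasurableSpace Ω]
    {P : Measure Ω} [IsProbabilityMeasure P] {S : Fin 3 → Ω → Set ℝ} (h : Hyp p P S) (a : Fin 3)
    {C : ℝ} (hC : ∀ T : ℝ, 0 < T → (∫ z in (0:ℝ)..T, Kf p a z) ≤ C) (j : ℤ) :
    P {ω | UE a j (SS S ω)} = 0 := by
  classical
  have hV := fun i : ℕ => (UE_null hp h a (i : ℤ)).exists_measurable_superset_ae_eq
  choose V hV1 hV2 hV3 using hV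
  set υ : ℝ := P.real {ω | UE a 0 (SS S ω)} with hυ
  have hVυ : ∀ i : ℕ, P.real (V i) = υ := by
    intro i
    rw [measureReal_congr (hV3 i), UE_prob_eq hp h a (i : ℤ)]
  have hD : ∀ i j : ℕ, P.real (V i ∩ V j)
      = P.real ({ω | UE a (i : ℤ) (SS S ω)} ∩ {ω | UE a (j : ℤ) (SS S ω)}) := by
    intro i j
    exact measureReal_congr ((hV3 i).inter (hV3 j))
  set C' : ℝ := (ENNReal.ofReal C).toReal with hC'
  have hC'0 : 0 ≤ C' := ENNReal.toReal_nonneg
  have hrow : ∀ i N : ℕ, ∑ j ∈ Finset.range N, (if i < j then P.real (V i ∩ V j) else 0) ≤ C' := by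
    intro i N
    rw [← Finset.sum_filter]
    have h1 := e18_row hp h a hC i N
    have h2 := ENNReal.toReal_mono ENNReal.ofReal_ne_top h1
    rw [ENNReal.toReal_sum (fun j _ => measure_ne_top P _)] at h2
    refine le_trans (le_of_eq ?_) h2
    refine Finset.sum_congr rfl fun j _ => ?_
    rw [hD i j]
    rfl
  have htot : ∀ N : ℕ, ∑ i ∈ Finset.range N, ∑ j ∈ Finset.range N, P.real (V i ∩ V j)
      ≤ N * (1 + 2 * C') := by
    intro N
    have hsplit : ∀ i j : ℕ, P.real (V i ∩ V j)
        = (if i < j then P.real (V i ∩ V j) else 0)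
          + (if j < i then P.real (V j ∩ V i) else 0)
          + (if i = j then P.real (V i ∩ V j) else 0) := by
      intro i j
      rcases lt_trichotomy i j with h1 | h1 | h1
      · rw [if_pos h1, if_neg (by omega), if_neg (by omega)]
        ring
      · rw [if_neg (by omega), if_neg (by omega), if_pos h1]
        ring
      · rw [if_neg (by omega), if_pos h1, if_neg (by omega), inter_comm]
        ring
    have h1 : ∑ i ∈ Finset.range N, ∑ j ∈ Finset.range N, P.real (V i ∩ V j)
        = (∑ i ∈ Finset.range N, ∑ j ∈ Finset.range N,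
            (if i < j then P.real (V i ∩ V j) else 0))
          + (∑ i ∈ Finset.range N, ∑ j ∈ Finset.range N,
            (if j < i then P.real (V j ∩ V i) else 0))
          + (∑ i ∈ Finset.range N, ∑ j ∈ Finset.range N,
            (if i = j then P.real (V i ∩ V j) else 0)) := by
      rw [← Finset.sum_add_distrib, ← Finset.sum_add_distrib]
      refine Finset.sum_congr rfl fun i _ => ?_
      rw [← Finset.sum_add_distrib, ← Finset.sum_add_distrib]
      exact Finset.sum_congr rfl fun j _ => hsplit i j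
    have h2 : ∑ i ∈ Finset.range N, ∑ j ∈ Finset.range N,
            (if i < j then P.real (V i ∩ V j) else 0) ≤ N * C' := by
      calc ∑ i ∈ Finset.range N, ∑ j ∈ Finset.range N,
            (if i < j then P.real (V i ∩ V j) else 0) ≤ ∑ i ∈ Finset.range N, C' :=
            Finset.sum_le_sum fun i _ => hrow i N
        _ = N * C' := by rw [Finset.sum_const, Finset.card_range, nsmul_eq_mul]
    have h3 : ∑ i ∈ Finset.range N, ∑ j ∈ Finset.range N,
            (if j < i then P.real (V j ∩ V i) else 0) ≤ N * C' := by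
      rw [Finset.sum_comm]
      exact h2
    have h4 : ∑ i ∈ Finset.range N, ∑ j ∈ Finset.range N,
            (if i = j then P.real (V i ∩ V j) else 0) ≤ N := by
      calc ∑ i ∈ Finset.range N, ∑ j ∈ Finset.range N,
            (if i = j then P.real (V i ∩ V j) else 0) ≤ ∑ i ∈ Finset.range N, (1 : ℝ) := by
            refine Finset.sum_le_sum fun i hi => ?_
            rw [Finset.sum_ite_eq, if_pos hi]
            exact measureReal_le_one
        _ = N := by rw [Finset.sum_const, Finset.card_range, nsmul_eq_mul, mul_one]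
    rw [h1]
    linarith
  have hmain : ∀ N : ℕ, ((N : ℝ) * υ) ^ 2 ≤ N * (1 + 2 * C') := by
    intro N
    have h1 := e18_cs P hV2 N
    have h2 : ∑ i ∈ Finset.range N, P.real (V i) = N * υ := by
      simp only [hVυ]
      rw [Finset.sum_const, Finset.card_range, nsmul_eq_mul]
    rw [h2] at h1
    exact h1.trans (htot N)
  have hυ0 : υ = 0 := by
    by_contra hne
    have hpos : 0 < υ := lt_of_le_of_ne measureReal_nonneg (Ne.symm hne)
    obtain ⟨N, hN⟩ := exists_nat_gt ((1 + 2 * C') / υ ^ 2)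
    have hN0 : (0 : ℝ) < N := lt_of_le_of_lt (by positivity) hN
    have h1 := hmain N
    rw [div_lt_iff₀ (by positivity)] at hN
    have h2 : (N : ℝ) * (1 + 2 * C') < N * (N * υ ^ 2) := by
      exact mul_lt_mul_of_pos_left hN hN0
    have h3 : ((N : ℝ) * υ) ^ 2 = N * (N * υ ^ 2) := by ring
    rw [h3] at h1
    linarith
  have h5 : P.real {ω | UE a j (SS S ω)} = 0 := by
    rw [UE_prob_eq hp h a j]
    exact hυ0
  rwa [measureReal_eq_zero_iff] at h5

end Pool.SM3
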