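/-
SM3.E19 : decoupling of the two ends (prove Gd_decouple here; rhoP_close, rhoM_close are in E19a).
PROOF. Measurability of the events: measurableSet_Fr composed with cons.
`rhoP_close` (w.l.o.g. `s ≤ s'`): `rhoP p a r s = (Pm p 0 s').real {l | Fr {y | y ∈ (0,a) :: wf 0 s l} r (0,a)}` (lintegral_Pm_wf).  For a.e. `l` with `¬ Full 0 r m {y | y ∈ l}` there is a cut `c`, `0 < c < m r ≤ s`, of
`{y | y ∈ l}`, hence (all points `> 0`) of `Z = {(0,a)} ∪ l` and of its subset; by Fr_right_win both events are equivalent to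
`Fr {y ∈ Z | y.1 < c} r (0,a)`.  So the difference is `≤ (Pm p 0 s') {Full 0 r m} = (1 - e^{-r})^m` (Pm_Full and lintegral_Pm_wf: `Full 0 r m` only depends on `(0, m r)`).
(A cut of `{y | y ∈ l}` at level `r` with `c > 0` need not be a cut for the pair `(0,a)`, `y`: use the cut inside an EMPTY grid interval `(i r, (i+1) r)`: `cut_of_empty` applied to `Z` directly.)
`rhoM_close`: mirror image (the window `(s'-s, s')` and a shift by `s'-s`; grid at the right end: `Full (s' - m r) r m`).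
`Gd_decouple`: on `(0, 2s)`, if there are empty grid intervals in `(0, m r)` and in `(2s - m r, 2s)`, then `Gd 0 a (2s) a r l` implies `Fr {(0,a) :: wf 0 s l} r (0,a)` and
`Fr {(2s,a) :: wf s (2s) l} r (2s,a)`; these two are independent (lintegral_Pm_wf2), with probabilities `rhoP p a r s` and `rhoM p a r s` (shift).
-/
import Pool.Agent.Lib.SM3.A8
import Pool.Agent.Lib.SM3.A9
import Pool.Agent.Lib.SM3.B5
import Pool.Agent.Lib.SM3.B6
import Pool.Agent.Lib.SM3.E6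
import Pool.Agent.Lib.SM3.E7

set_option autoImplicit false

open MeasureTheory Set

namespace Pool.SM3

theorem E19_lint {μ : Measure (List Pt)} {Q : List Pt → Prop} (hQ : MeasurableSet {l | Q l}) :
    ∫⁻ l, ind (Q l) ∂μ = μ {l | Q l} := by
  classical
  have h : (fun l => ind (Q l)) = Set.indicator {l | Q l} 1 := by
    funext l
    by_cases hl : Q l
    · have h1 : l ∈ {l | Q l} := hl
      rw [Set.indicator_of_mem h1]
      simp [ind, hl]
    · have h1 : l ∉ {l | Q l} := hl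
      rw [Set.indicator_of_notMem h1]
      simp [ind, hl]
  rw [h, lintegral_indicator_one hQ]

theorem E19_pos {Q : Prop} (h : Q) : ind Q = 1 := by
  unfold ind
  rw [if_pos h]

theorem E19_neg {Q : Prop} (h : ¬ Q) : ind Q = 0 := by
  unfold ind
  rw [if_neg h]

theorem E19_left {s r c : ℝ} {a : Fin 3} {l : List Pt} (hl : SL 0 (2 * s) l) (hs : 0 < s)
    (hc : 0 < c) (hcs : c < s) (hcut : Cut (cl 0 a (2 * s) a l) r c)
    (h : Fr (cl 0 a (2 * s) a l) r (0, a)) :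
    Fr {y | y ∈ ((0 : ℝ), a) :: wf 0 s l} r (0, a) := by
  have hfin : (cl 0 a (2 * s) a l).Finite := List.finite_toSet _
  have hZ : ∀ y ∈ cl 0 a (2 * s) a l, (0 : ℝ) ≤ y.1 := by
    intro y hy
    have hy' : y ∈ ((0 : ℝ), a) :: (2 * s, a) :: l := hy
    rcases List.mem_cons.mp hy' with h1 | h1
    · rw [h1]
    · rcases List.mem_cons.mp h1 with h2 | h2
      · rw [h2]
        show (0 : ℝ) ≤ 2 * s
        linarith
      · exact (hl.2 y h2).1.le
  have hsub : {y | y ∈ ((0 : ℝ), a) :: wf 0 s l} ⊆ cl 0 a (2 * s) a l := by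
    intro y hy
    have hy' : y ∈ ((0 : ℝ), a) :: wf 0 s l := hy
    show y ∈ ((0 : ℝ), a) :: (2 * s, a) :: l
    rcases List.mem_cons.mp hy' with h1 | h1
    · rw [h1]; exact List.mem_cons_self
    · exact List.mem_cons_of_mem _ (List.mem_cons_of_mem _ (mem_wf.mp h1).1)
  have heq : {y | y ∈ cl 0 a (2 * s) a l ∧ y.1 < c} =
      {y | y ∈ {y | y ∈ ((0 : ℝ), a) :: wf 0 s l} ∧ y.1 < c} := by
    ext y
    constructor
    · rintro ⟨hy, hyc⟩
      refine ⟨?_, hyc⟩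
      have hy' : y ∈ ((0 : ℝ), a) :: (2 * s, a) :: l := hy
      show y ∈ ((0 : ℝ), a) :: wf 0 s l
      rcases List.mem_cons.mp hy' with h1 | h1
      · rw [h1]; exact List.mem_cons_self
      · rcases List.mem_cons.mp h1 with h2 | h2
        · exfalso
          rw [h2] at hyc
          have : (2 * s : ℝ) < c := hyc
          linarith
        · exact List.mem_cons_of_mem _ (mem_wf.mpr ⟨h2, (hl.2 y h2).1, hyc.trans hcs⟩)
    · rintro ⟨hy, hyc⟩
      exact ⟨hsub hy, hyc⟩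
  have h1 := (Fr_right_win hfin hZ hcut hc).1 h
  rw [heq] at h1
  exact (Fr_right_win (hfin.subset hsub) (fun y hy => hZ y (hsub hy)) (hcut.subset hsub) hc).2 h1

theorem E19_right {s r c : ℝ} {a : Fin 3} {l : List Pt} (hl : SL 0 (2 * s) l) (hs : 0 < s)
    (hc : s < c) (hcs : c < 2 * s) (hcut : Cut (cl 0 a (2 * s) a l) r c)
    (h : Fr (cl 0 a (2 * s) a l) r (2 * s, a)) :
    Fr {y | y ∈ ((2 * s : ℝ), a) :: wf s (2 * s) l} r (2 * s, a) := by
  have hfin : (cl 0 a (2 * s) a l).Finite := List.finite_toSet _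
  have hZ : ∀ y ∈ cl 0 a (2 * s) a l, y.1 ≤ 2 * s := by
    intro y hy
    have hy' : y ∈ ((0 : ℝ), a) :: (2 * s, a) :: l := hy
    rcases List.mem_cons.mp hy' with h1 | h1
    · rw [h1]
      show (0 : ℝ) ≤ 2 * s
      linarith
    · rcases List.mem_cons.mp h1 with h2 | h2
      · rw [h2]
      · exact (hl.2 y h2).2.le
  have hsub : {y | y ∈ ((2 * s : ℝ), a) :: wf s (2 * s) l} ⊆ cl 0 a (2 * s) a l := by
    intro y hy
    have hy' : y ∈ ((2 * s : ℝ), a) :: wf s (2 * s) l := hy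
    show y ∈ ((0 : ℝ), a) :: (2 * s, a) :: l
    rcases List.mem_cons.mp hy' with h1 | h1
    · rw [h1]; exact List.mem_cons_of_mem _ List.mem_cons_self
    · exact List.mem_cons_of_mem _ (List.mem_cons_of_mem _ (mem_wf.mp h1).1)
  have heq : {y | y ∈ cl 0 a (2 * s) a l ∧ c < y.1} =
      {y | y ∈ {y | y ∈ ((2 * s : ℝ), a) :: wf s (2 * s) l} ∧ c < y.1} := by
    ext y
    constructor
    · rintro ⟨hy, hyc⟩
      refine ⟨?_, hyc⟩
      have hy' : y ∈ ((0 : ℝ), a) :: (2 * s, a) :: l := hy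
      show y ∈ ((2 * s : ℝ), a) :: wf s (2 * s) l
      rcases List.mem_cons.mp hy' with h1 | h1
      · exfalso
        rw [h1] at hyc
        have : c < (0 : ℝ) := hyc
        linarith
      · rcases List.mem_cons.mp h1 with h2 | h2
        · rw [h2]; exact List.mem_cons_self
        · exact List.mem_cons_of_mem _ (mem_wf.mpr ⟨h2, hc.trans hyc, (hl.2 y h2).2⟩)
    · rintro ⟨hy, hyc⟩
      exact ⟨hsub hy, hyc⟩
  have h1 := (Fr_left_win hfin hZ hcut hcs).1 h
  rw [heq] at h1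
  exact (Fr_left_win (hfin.subset hsub) (fun y hy => hZ y (hsub hy)) (hcut.subset hsub) hcs).2 h1

theorem E19_cut {s : ℝ} {a : Fin 3} {l : List Pt} {t : ℝ} {r m : ℕ} (hr : 0 < r) (ht : 0 ≤ t)
    (htm : t + m * r ≤ 2 * s) (h : ¬ Full t r m {y | y ∈ l}) :
    ∃ c, t < c ∧ c < t + m * r ∧ Cut (cl 0 a (2 * s) a l) r c := by
  apply exists_cut hr
  intro hF
  apply h
  intro i hi
  obtain ⟨y, hy, h1, h2⟩ := hF i hi
  have hr0 : (0 : ℝ) ≤ (r : ℝ) := Nat.cast_nonneg r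
  have hi0 : (0 : ℝ) ≤ (i : ℝ) := Nat.cast_nonneg i
  have him : (i : ℝ) + 1 ≤ (m : ℝ) := by exact_mod_cast hi
  have h3 : (0 : ℝ) ≤ i * r := mul_nonneg hi0 hr0
  have h4 : ((i : ℝ) + 1) * r ≤ m * r := mul_le_mul_of_nonneg_right him hr0
  refine ⟨y, ?_, h1, h2⟩
  have hy' : y ∈ ((0 : ℝ), a) :: (2 * s, a) :: l := hy
  show y ∈ l
  rcases List.mem_cons.mp hy' with h5 | h5
  · exfalso
    rw [h5] at h1
    have : t + i * r < (0 : ℝ) := h1
    linarith
  · rcases List.mem_cons.mp h5 with h6 | h6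
    · exfalso
      rw [h6] at h2
      have : (2 * s : ℝ) < t + (i + 1) * r := h2
      linarith
    · exact h6

theorem E19_full {p : Fin 3 → ℝ} (hp : PV p) {s t : ℝ} {r : ℕ} (hr : 0 < r) (m : ℕ) (ht : 0 ≤ t)
    (htm : t + m * r ≤ 2 * s) :
    Pm p 0 (2 * s) {l | Full t r m {y | y ∈ l}}
      = ENNReal.ofReal ((1 - Real.exp (-(r : ℝ))) ^ m) := by
  have hr0 : (0 : ℝ) ≤ (r : ℝ) := Nat.cast_nonneg r
  have hset : {l : List Pt | Full t r m {y | y ∈ l}} =
      {l | Full t r m {y | y ∈ wf t (t + m * r) l}} := by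
    ext l
    constructor
    · intro h i hi
      obtain ⟨y, hy, h1, h2⟩ := h i hi
      have hi0 : (0 : ℝ) ≤ (i : ℝ) := Nat.cast_nonneg i
      have him : (i : ℝ) + 1 ≤ (m : ℝ) := by exact_mod_cast hi
      have h3 : (0 : ℝ) ≤ i * r := mul_nonneg hi0 hr0
      have h4 : ((i : ℝ) + 1) * r ≤ m * r := mul_le_mul_of_nonneg_right him hr0
      exact ⟨y, mem_wf.mpr ⟨hy, by linarith, by linarith⟩, h1, h2⟩
    · intro h i hi
      obtain ⟨y, hy, h1, h2⟩ := h i hi
      exact ⟨y, (mem_wf.mp hy).1, h1, h2⟩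
  have hmF := measurableSet_Full t r m
  have hmF' : MeasurableSet {l : List Pt | Full t r m {y | y ∈ wf t (t + m * r) l}} :=
    (measurable_wf t (t + m * r)) hmF
  have h0 : t ≤ t + m * r := by
    have : (0 : ℝ) ≤ m * r := mul_nonneg (Nat.cast_nonneg m) hr0
    linarith
  rw [hset, ← E19_lint hmF', ← Pm_Full hp t hr m, ← E19_lint hmF]
  exact lintegral_Pm_wf hp ht h0 htm (measurable_ind hmF)

theorem E19_shift (a : Fin 3) (s r : ℝ) (l : List Pt) :
    Fr {y | y ∈ ((2 * s : ℝ), a) :: l.map (fun y : Pt => (y.1 + s, y.2))} r (2 * s, a) ↔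
      Fr {y | y ∈ ((s : ℝ), a) :: l} r (s, a) := by
  let φ : Pt ≃ Pt :=
    { toFun := fun y => (y.1 + s, y.2)
      invFun := fun y => (y.1 - s, y.2)
      left_inv := fun y => by simp
      right_inv := fun y => by simp }
  have h := Fr_image φ (c := 1) one_pos (fun x y => by
      show |(x.1 + s) - (y.1 + s)| = 1 * |x.1 - y.1|
      rw [one_mul]
      congr 1
      ring) (fun x y => Iff.rfl) {y | y ∈ ((s : ℝ), a) :: l} r (s, a)
  rw [one_mul] at h
  have hφ : φ ((s : ℝ), a) = (2 * s, a) := by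
    show ((s + s : ℝ), a) = (2 * s, a)
    rw [two_mul]
  have hset : φ '' {y | y ∈ ((s : ℝ), a) :: l} =
      {y | y ∈ ((2 * s : ℝ), a) :: l.map (fun y : Pt => (y.1 + s, y.2))} := by
    ext y
    constructor
    · rintro ⟨z, hz, rfl⟩
      have hz' : z ∈ ((s : ℝ), a) :: l := hz
      show φ z ∈ ((2 * s : ℝ), a) :: l.map (fun y : Pt => (y.1 + s, y.2))
      rcases List.mem_cons.mp hz' with h1 | h1
      · rw [h1, hφ]; exact List.mem_cons_self
      · exact List.mem_cons_of_mem _ (List.mem_map.mpr ⟨z, h1, rfl⟩)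
    · intro hy
      have hy' : y ∈ ((2 * s : ℝ), a) :: l.map (fun y : Pt => (y.1 + s, y.2)) := hy
      rcases List.mem_cons.mp hy' with h1 | h1
      · exact ⟨((s : ℝ), a), List.mem_cons_self, by rw [hφ, h1]⟩
      · obtain ⟨z, hz, hzy⟩ := List.mem_map.mp h1
        exact ⟨z, List.mem_cons_of_mem _ hz, hzy⟩
  rw [hset, hφ] at h
  exact h

theorem Gd_decouple {p : Fin 3 → ℝ} (hp : PV p) (a : Fin 3) {r : ℕ} (hr : 0 < r) (m : ℕ) {s : ℝ}
    (hs : (m : ℝ) * r ≤ s) (h0 : 0 < s) :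
    (Pm p 0 (2 * s)).real {l | Gd 0 a (2 * s) a r l}
      ≤ rhoP p a r s * rhoM p a r s + 2 * (1 - Real.exp (-(r : ℝ))) ^ m := by
  have h2s : (0 : ℝ) ≤ 2 * s := by linarith
  haveI hPr : IsProbabilityMeasure (Pm p 0 (2 * s)) := isProb_Pm hp h2s
  -- measurability
  have hB1 : MeasurableSet {l : List Pt | Fr {y | y ∈ ((0 : ℝ), a) :: l} (r : ℝ) (0, a)} := by
    have hf : Measurable (fun l : List Pt => (((0 : ℝ), a) :: l, (r : ℝ), ((0 : ℝ), a))) :=
      (measurable_cons.comp (measurable_const.prodMk measurable_id)).prodMk measurable_const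
    exact hf measurableSet_Fr
  have hB2 : MeasurableSet {l : List Pt | Fr {y | y ∈ ((2 * s : ℝ), a) :: l} (r : ℝ) (2 * s, a)} := by
    have hf : Measurable (fun l : List Pt => (((2 * s : ℝ), a) :: l, (r : ℝ), ((2 * s : ℝ), a))) :=
      (measurable_cons.comp (measurable_const.prodMk measurable_id)).prodMk measurable_const
    exact hf measurableSet_Fr
  have hB3 : MeasurableSet {l : List Pt | Fr {y | y ∈ ((s : ℝ), a) :: l} (r : ℝ) (s, a)} := by
    have hf : Measurable (fun l : List Pt => (((s : ℝ), a) :: l, (r : ℝ), ((s : ℝ), a))) :=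
      (measurable_cons.comp (measurable_const.prodMk measurable_id)).prodMk measurable_const
    exact hf measurableSet_Fr
  -- the product
  have hprod : Pm p 0 (2 * s) {l | Fr {y | y ∈ ((0 : ℝ), a) :: wf 0 s l} (r : ℝ) (0, a) ∧
        Fr {y | y ∈ ((2 * s : ℝ), a) :: wf s (2 * s) l} (r : ℝ) (2 * s, a)}
      = Pm p 0 s {l | Fr {y | y ∈ ((0 : ℝ), a) :: l} (r : ℝ) (0, a)} *
        Pm p 0 s {l | Fr {y | y ∈ ((s : ℝ), a) :: l} (r : ℝ) (s, a)} := by
    have hm12 : MeasurableSet {l : List Pt |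
        Fr {y | y ∈ ((0 : ℝ), a) :: wf 0 s l} (r : ℝ) (0, a) ∧
        Fr {y | y ∈ ((2 * s : ℝ), a) :: wf s (2 * s) l} (r : ℝ) (2 * s, a)} :=
      ((measurable_wf 0 s) hB1).inter ((measurable_wf s (2 * s)) hB2)
    rw [← E19_lint hm12]
    have e1 : ∀ l : List Pt, ind (Fr {y | y ∈ ((0 : ℝ), a) :: wf 0 s l} (r : ℝ) (0, a) ∧
        Fr {y | y ∈ ((2 * s : ℝ), a) :: wf s (2 * s) l} (r : ℝ) (2 * s, a)) =
        (fun l : List Pt => ind (Fr {y | y ∈ ((0 : ℝ), a) :: l} (r : ℝ) (0, a))) (wf 0 s l) *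
        (fun l : List Pt => ind (Fr {y | y ∈ ((2 * s : ℝ), a) :: l} (r : ℝ) (2 * s, a)))
          (wf s (2 * s) l) := by
      intro l
      show ind _ = ind (Fr {y | y ∈ ((0 : ℝ), a) :: wf 0 s l} (r : ℝ) (0, a)) *
        ind (Fr {y | y ∈ ((2 * s : ℝ), a) :: wf s (2 * s) l} (r : ℝ) (2 * s, a))
      by_cases c1 : Fr {y | y ∈ ((0 : ℝ), a) :: wf 0 s l} (r : ℝ) (0, a)
      · by_cases c2 : Fr {y | y ∈ ((2 * s : ℝ), a) :: wf s (2 * s) l} (r : ℝ) (2 * s, a)
        · rw [E19_pos ⟨c1, c2⟩, E19_pos c1, E19_pos c2, one_mul]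
        · rw [E19_neg (fun h => c2 h.2), E19_neg c2, mul_zero]
      · rw [E19_neg (fun h => c1 h.1), E19_neg c1, zero_mul]
    rw [lintegral_congr e1]
    have hm1 : Measurable (fun l : List Pt =>
        ind (Fr {y | y ∈ ((0 : ℝ), a) :: l} (r : ℝ) (0, a))) := measurable_ind hB1
    have hm2 : Measurable (fun l : List Pt =>
        ind (Fr {y | y ∈ ((2 * s : ℝ), a) :: l} (r : ℝ) (2 * s, a))) := measurable_ind hB2
    rw [lintegral_Pm_wf2 hp (le_refl (0 : ℝ)) h0.le (le_refl s) (by linarith) (le_refl (2 * s))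
      hm1 hm2, E19_lint hB1]
    congr 1
    have hsh := lintegral_Pm_shift p s 0 s hm2
    rw [zero_add, ← two_mul] at hsh
    rw [hsh]
    have e2 : ∀ l : List Pt,
        (fun l : List Pt => ind (Fr {y | y ∈ ((2 * s : ℝ), a) :: l} (r : ℝ) (2 * s, a)))
          (l.map (fun y : Pt => (y.1 + s, y.2))) =
        ind (Fr {y | y ∈ ((s : ℝ), a) :: l} (r : ℝ) (s, a)) := by
      intro l
      show ind _ = ind _
      rw [propext (E19_shift a s r l)]
    rw [lintegral_congr e2, E19_lint hB3]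
  -- the inclusion
  have hsub : ∀ᵐ l ∂(Pm p 0 (2 * s)), l ∈ {l : List Pt | Gd 0 a (2 * s) a r l} →
      l ∈ ({l : List Pt | Full 0 r m {y | y ∈ l}} ∪
        {l : List Pt | Full (2 * s - m * r) r m {y | y ∈ l}}) ∪
        {l | Fr {y | y ∈ ((0 : ℝ), a) :: wf 0 s l} (r : ℝ) (0, a) ∧
        Fr {y | y ∈ ((2 * s : ℝ), a) :: wf s (2 * s) l} (r : ℝ) (2 * s, a)} := by
    filter_upwards [ae_Pm p 0 (2 * s)] with l hl hG
    by_cases c1 : Full 0 r m {y | y ∈ l}
    · exact Or.inl (Or.inl c1)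
    by_cases c2 : Full (2 * s - m * r) r m {y | y ∈ l}
    · exact Or.inl (Or.inr c2)
    right
    have hG' : Fr (cl 0 a (2 * s) a l) r (0, a) ∧ Fr (cl 0 a (2 * s) a l) r (2 * s, a) := hG
    obtain ⟨x, x1, x2, x3⟩ := E19_cut (s := s) (a := a) (t := 0) hr le_rfl (by linarith) c1
    obtain ⟨z, z1, z2, z3⟩ := E19_cut (s := s) (a := a) (t := 2 * s - m * r) hr (by linarith)
      (by linarith) c2
    exact ⟨E19_left hl h0 x1 (by linarith) x3 hG'.1,
      E19_right hl h0 (by linarith) (by linarith) z3 hG'.2⟩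
  have hle : Pm p 0 (2 * s) {l : List Pt | Gd 0 a (2 * s) a r l} ≤
      (ENNReal.ofReal ((1 - Real.exp (-(r : ℝ))) ^ m) +
        ENNReal.ofReal ((1 - Real.exp (-(r : ℝ))) ^ m)) +
      Pm p 0 s {l | Fr {y | y ∈ ((0 : ℝ), a) :: l} (r : ℝ) (0, a)} *
        Pm p 0 s {l | Fr {y | y ∈ ((s : ℝ), a) :: l} (r : ℝ) (s, a)} := by
    refine (measure_mono_ae hsub).trans ?_
    refine (measure_union_le _ _).trans ?_
    rw [hprod]
    refine add_le_add_left ?_ _
    refine (measure_union_le _ _).trans ?_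
    rw [E19_full hp hr m le_rfl (by linarith : (0 : ℝ) + m * r ≤ 2 * s),
      E19_full hp hr m (by linarith : (0 : ℝ) ≤ 2 * s - m * r)
        (by linarith : 2 * s - m * r + m * r ≤ 2 * s)]
  have hq : (0 : ℝ) ≤ 1 - Real.exp (-(r : ℝ)) := by
    have : Real.exp (-(r : ℝ)) ≤ 1 := Real.exp_le_one_iff.mpr (by
      have : (0 : ℝ) ≤ (r : ℝ) := Nat.cast_nonneg r
      linarith)
    linarith
  have hqm : (0 : ℝ) ≤ (1 - Real.exp (-(r : ℝ))) ^ m := pow_nonneg hq m
  haveI hPs : IsProbabilityMeasure (Pm p 0 s) := isProb_Pm hp h0.le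
  have hfin1 : Pm p 0 s {l | Fr {y | y ∈ ((0 : ℝ), a) :: l} (r : ℝ) (0, a)} ≠ ⊤ :=
    measure_ne_top _ _
  have hfin2 : Pm p 0 s {l | Fr {y | y ∈ ((s : ℝ), a) :: l} (r : ℝ) (s, a)} ≠ ⊤ :=
    measure_ne_top _ _
  have hR := ENNReal.toReal_mono (by
    refine ENNReal.add_ne_top.mpr ⟨ENNReal.add_ne_top.mpr
      ⟨ENNReal.ofReal_ne_top, ENNReal.ofReal_ne_top⟩, ENNReal.mul_ne_top hfin1 hfin2⟩) hle
  rw [ENNReal.toReal_add (ENNReal.add_ne_top.mpr ⟨ENNReal.ofReal_ne_top, ENNReal.ofReal_ne_top⟩)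
    (ENNReal.mul_ne_top hfin1 hfin2), ENNReal.toReal_add ENNReal.ofReal_ne_top
    ENNReal.ofReal_ne_top, ENNReal.toReal_ofReal hqm, ENNReal.toReal_mul] at hR
  have hP : rhoP p a r s = (Pm p 0 s {l | Fr {y | y ∈ ((0 : ℝ), a) :: l} (r : ℝ) (0, a)}).toReal :=
    rfl
  have hM : rhoM p a r s = (Pm p 0 s {l | Fr {y | y ∈ ((s : ℝ), a) :: l} (r : ℝ) (s, a)}).toReal :=
    rfl
  have hL : (Pm p 0 (2 * s)).real {l | Gd 0 a (2 * s) a r l} =
      (Pm p 0 (2 * s) {l : List Pt | Gd 0 a (2 * s) a r l}).toReal := rfl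
  rw [hL, hP, hM]
  linarith

end Pool.SM3
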