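/-
SM3.E19a : the one-sided probabilities become constant (rhoP_close and rhoM_close).
PROOF. Measurability of the events: measurableSet_Fr composed with cons.
`rhoP_close` (w.l.o.g. `s ≤ s'`): `rhoP p a r s = (Pm p 0 s').real {l | Fr {y | y ∈ (0,a) :: wf 0 s l} r (0,a)}`
(lintegral_Pm_wf).  For a.e. `l` with `¬ Full 0 r m {y | y ∈ l}` there is an empty grid interval `(i r, (i+1) r)` of
`{y | y ∈ l}`, hence of `Z = {(0,a)} ∪ l`, so a cut `c`, `0 < c < m r ≤ s`; by Fr_right_win both events are equivalent to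
`Fr {y ∈ Z | y.1 < c} r (0,a)`.  So the difference is at most `(Pm p 0 s') {Full 0 r m} = (1 - e^{-r})^m`.
`rhoM_close`: mirror image (the window `(s'-s, s')` and a shift by `s'-s`; grid at the right end).
-/
import Pool.Agent.Lib.SM3.A8
import Pool.Agent.Lib.SM3.A9
import Pool.Agent.Lib.SM3.B5
import Pool.Agent.Lib.SM3.B6
import Pool.Agent.Lib.SM3.E6
import Pool.Agent.Lib.SM3.E7

set_option autoImplicit false

open MeasureTheory Set

namespace Pool.SM3

private theorem E19a_real {α : Type*} [MeasurableSpace α] (μ : Measure α) [IsProbabilityMeasure μ]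
    {A B F : Set α} (h : ∀ᵐ x ∂μ, x ∉ F → (x ∈ A ↔ x ∈ B)) :
    |μ.real A - μ.real B| ≤ μ.real F := by
  have key : ∀ A B : Set α, (∀ᵐ x ∂μ, x ∉ F → (x ∈ A ↔ x ∈ B)) → μ.real A ≤ μ.real B + μ.real F := by
    intro A B h
    have h1 : μ A ≤ μ (B ∪ F) := by
      refine measure_mono_ae ?_
      filter_upwards [h] with x hx hxA
      by_cases hF : x ∈ F
      · exact Or.inr hF
      · exact Or.inl ((hx hF).1 hxA)
    have h2 : μ (B ∪ F) ≤ μ B + μ F := measure_union_le B F
    have h3 : μ A ≤ μ B + μ F := h1.trans h2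
    have h4 := ENNReal.toReal_mono (by finiteness) h3
    rw [ENNReal.toReal_add (by finiteness) (by finiteness)] at h4
    exact h4
  have h1 := key A B h
  have h2 := key B A (by
    filter_upwards [h] with x hx hF
    exact (hx hF).symm)
  exact abs_le.2 ⟨by linarith, by linarith⟩

private theorem E19a_wf {p : Fin 3 → ℝ} (hp : PV p) {u u' w' w : ℝ} (h1 : u ≤ u') (h2 : u' ≤ w')
    (h3 : w' ≤ w) {A : Set (List Pt)} (hA : MeasurableSet A) :
    (Pm p u w) (wf u' w' ⁻¹' A) = (Pm p u' w') A := by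
  have h4 := lintegral_Pm_wf hp h1 h2 h3 (Φ := A.indicator 1)
    (measurable_one.indicator hA)
  rw [lintegral_indicator_one hA] at h4
  rw [← h4, ← lintegral_indicator_one (measurable_wf u' w' hA)]
  rfl

private theorem E19a_measFr (a : Fin 3) (r t : ℝ) :
    MeasurableSet {l : List Pt | Fr {y | y ∈ ((t, a) : Pt) :: l} r (t, a)} := by
  have h1 : Measurable (fun l : List Pt => (((t, a) : Pt) :: l, r, ((t, a) : Pt))) := by
    refine Measurable.prodMk ?_ measurable_const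
    exact measurable_cons.comp (measurable_const.prodMk measurable_id)
  exact h1 measurableSet_Fr

private theorem E19a_full {p : Fin 3 → ℝ} (hp : PV p) {t u w : ℝ} {r : ℕ} (hr : 0 < r) (m : ℕ)
    (h1 : u ≤ t) (h2 : t + m * r ≤ w) :
    (Pm p u w).real {l | Full t r m {y | y ∈ l}} = (1 - Real.exp (-(r : ℝ))) ^ m := by
  have h0 : (0 : ℝ) ≤ (m : ℝ) * r := by positivity
  have h3 : {l : List Pt | Full t r m {y | y ∈ l}} =
      wf t (t + m * r) ⁻¹' {l : List Pt | Full t r m {y | y ∈ l}} := by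
    ext l
    simp only [mem_setOf_eq, mem_preimage, Full, mem_wf]
    refine forall₂_congr fun i hi => exists_congr fun y => ?_
    have h4 : (i : ℝ) + 1 ≤ m := by exact_mod_cast hi
    have h5 : (0 : ℝ) < r := by exact_mod_cast hr
    have h6 : (0 : ℝ) ≤ i := Nat.cast_nonneg i
    constructor
    · rintro ⟨h7, h8, h9⟩
      refine ⟨⟨h7, ?_, ?_⟩, h8, h9⟩
      · nlinarith
      · nlinarith
    · rintro ⟨⟨h7, _, _⟩, h8, h9⟩
      exact ⟨h7, h8, h9⟩
  have h4 : (Pm p u w) {l | Full t r m {y | y ∈ l}} =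
      ENNReal.ofReal ((1 - Real.exp (-(r : ℝ))) ^ m) := by
    rw [h3, E19a_wf hp h1 (by linarith) h2 (measurableSet_Full t r m)]
    exact Pm_Full hp t hr m
  rw [Measure.real, h4, ENNReal.toReal_ofReal]
  refine pow_nonneg ?_ m
  have : Real.exp (-(r : ℝ)) ≤ 1 := Real.exp_le_one_iff.2 (by simp)
  linarith

private theorem rhoP_aux {p : Fin 3 → ℝ} (hp : PV p) (a : Fin 3) {r : ℕ} (hr : 0 < r) (m : ℕ)
    {s s' : ℝ} (hs : (m : ℝ) * r ≤ s) (h0 : 0 < s) (hss : s ≤ s') :
    |rhoP p a r s - rhoP p a r s'| ≤ (1 - Real.exp (-(r : ℝ))) ^ m := by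
  have hr' : (0 : ℝ) < r := by exact_mod_cast hr
  set E : Set (List Pt) := {l : List Pt | Fr {y | y ∈ (((0 : ℝ), a) : Pt) :: l} (r : ℝ) (0, a)}
    with hE
  have mE : MeasurableSet E := E19a_measFr a r 0
  have e1 : rhoP p a r s = (Pm p 0 s').real (wf 0 s ⁻¹' E) := by
    rw [Measure.real, E19a_wf hp le_rfl h0.le hss mE]
    rfl
  have e2 : rhoP p a r s' = (Pm p 0 s').real E := rfl
  have hprob : IsProbabilityMeasure (Pm p 0 s') := isProb_Pm hp (h0.le.trans hss)
  rw [e1, e2, ← E19a_full hp (t := 0) (u := 0) (w := s') hr m le_rfl (by linarith)]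
  refine E19a_real (Pm p 0 s') ?_
  filter_upwards [ae_Pm p 0 s'] with l hl hF
  simp only [mem_setOf_eq, Full, not_forall] at hF
  obtain ⟨i, hi, hF⟩ := hF
  push Not at hF
  have hi0 : (0 : ℝ) ≤ i := Nat.cast_nonneg i
  have hi1 : (i : ℝ) + 1 ≤ m := by exact_mod_cast hi
  -- the empty interval
  have hcut : Cut {y | y ∈ (((0 : ℝ), a) : Pt) :: l} (r : ℝ) (0 + i * r + r / 2) := by
    refine cut_of_empty hr' fun y hy hy2 => ?_
    rcases List.mem_cons.1 hy with h | h
    · rw [h] at hy2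
      have := hy2.1
      have h3 : 0 ≤ (i : ℝ) * r := by positivity
      simp only at this
      linarith
    · have := hF y h hy2.1
      have h4 := hy2.2
      have h5 : (0 : ℝ) + (i + 1) * r = 0 + i * r + r := by ring
      linarith
  have hc0 : 0 < 0 + (i : ℝ) * r + r / 2 := by positivity
  have hcs : 0 + (i : ℝ) * r + r / 2 < s := by nlinarith
  have hpos : ∀ y ∈ {y | y ∈ (((0 : ℝ), a) : Pt) :: l}, (0 : ℝ) ≤ y.1 := by
    intro y hy
    rcases List.mem_cons.1 hy with h | h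
    · rw [h]
    · exact (hl.2 y h).1.le
  have hsub : {y | y ∈ (((0 : ℝ), a) : Pt) :: wf 0 s l} ⊆ {y | y ∈ (((0 : ℝ), a) : Pt) :: l} := by
    intro y hy
    rcases List.mem_cons.1 hy with h | h
    · exact List.mem_cons.2 (Or.inl h)
    · exact List.mem_cons.2 (Or.inr (mem_wf.1 h).1)
  have k1 := Fr_right_win (Z := {y | y ∈ (((0 : ℝ), a) : Pt) :: l}) (a := a)
    (List.finite_toSet _) hpos hcut hc0
  have k2 := Fr_right_win (Z := {y | y ∈ (((0 : ℝ), a) : Pt) :: wf 0 s l}) (a := a)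
    (List.finite_toSet _) (fun y hy => hpos y (hsub hy)) (hcut.subset hsub) hc0
  have k3 : {y | y ∈ {y | y ∈ (((0 : ℝ), a) : Pt) :: wf 0 s l} ∧ y.1 < 0 + (i : ℝ) * r + r / 2} =
      {y | y ∈ {y | y ∈ (((0 : ℝ), a) : Pt) :: l} ∧ y.1 < 0 + (i : ℝ) * r + r / 2} := by
    ext y
    simp only [mem_setOf_eq, List.mem_cons, mem_wf]
    constructor
    · rintro ⟨h | h, h2⟩
      · exact ⟨Or.inl h, h2⟩
      · exact ⟨Or.inr h.1, h2⟩
    · rintro ⟨h | h, h2⟩
      · exact ⟨Or.inl h, h2⟩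
      · exact ⟨Or.inr ⟨h, (hl.2 y h).1, by linarith⟩, h2⟩
  show Fr _ _ _ ↔ Fr _ _ _
  rw [k1, k2, k3]

theorem rhoP_close {p : Fin 3 → ℝ} (hp : PV p) (a : Fin 3) {r : ℕ} (hr : 0 < r) (m : ℕ) {s s' : ℝ}
    (hs : (m : ℝ) * r ≤ s) (hs' : (m : ℝ) * r ≤ s') (h0 : 0 < s) (h0' : 0 < s') :
    |rhoP p a r s - rhoP p a r s'| ≤ (1 - Real.exp (-(r : ℝ))) ^ m := by
  rcases le_total s s' with h | h
  · exact rhoP_aux hp a hr m hs h0 h
  · rw [abs_sub_comm]
    exact rhoP_aux hp a hr m hs' h0' h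

private theorem rhoM_aux {p : Fin 3 → ℝ} (hp : PV p) (a : Fin 3) {r : ℕ} (hr : 0 < r) (m : ℕ)
    {s s' : ℝ} (hs : (m : ℝ) * r ≤ s) (h0 : 0 < s) (hss : s ≤ s') :
    |rhoM p a r s - rhoM p a r s'| ≤ (1 - Real.exp (-(r : ℝ))) ^ m := by
  have hr' : (0 : ℝ) < r := by exact_mod_cast hr
  set E : Set (List Pt) := {l : List Pt | Fr {y | y ∈ ((s', a) : Pt) :: l} (r : ℝ) (s', a)}
    with hE
  have mE : MeasurableSet E := E19a_measFr a r s'
  have e0 : (Pm p 0 s) {l : List Pt | Fr {y | y ∈ ((s, a) : Pt) :: l} (r : ℝ) (s, a)} =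
      (Pm p (s' - s) s') E := by
    have h1 := lintegral_Pm_shift p (s' - s) 0 s (Φ := E.indicator 1)
      (measurable_one.indicator mE)
    rw [show (0 : ℝ) + (s' - s) = s' - s by ring, show s + (s' - s) = s' by ring,
      lintegral_indicator_one mE] at h1
    rw [h1, ← lintegral_indicator_one (E19a_measFr a r s)]
    refine lintegral_congr fun l => ?_
    have h2 : (l ∈ {l : List Pt | Fr {y | y ∈ ((s, a) : Pt) :: l} (r : ℝ) (s, a)}) ↔
        (l.map (fun y : Pt => (y.1 + (s' - s), y.2))) ∈ E := by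
      let φ : Pt ≃ Pt :=
        { toFun := fun y => (y.1 + (s' - s), y.2)
          invFun := fun y => (y.1 - (s' - s), y.2)
          left_inv := fun y => by simp
          right_inv := fun y => by simp }
      have h3 := Fr_image φ one_pos (fun x y => by simp [φ]) (fun x y => by simp [φ])
        {y | y ∈ ((s, a) : Pt) :: l} (r : ℝ) (s, a)
      have h4 : φ '' {y | y ∈ ((s, a) : Pt) :: l} =
          {y | y ∈ ((s', a) : Pt) :: l.map (fun y : Pt => (y.1 + (s' - s), y.2))} := by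
        ext z
        simp only [mem_image, mem_setOf_eq, List.mem_cons, List.mem_map]
        constructor
        · rintro ⟨y, h | h, rfl⟩
          · left
            rw [h]
            simp [φ]
          · exact Or.inr ⟨y, h, rfl⟩
        · rintro (h | ⟨y, h, rfl⟩)
          · refine ⟨(s, a), Or.inl rfl, ?_⟩
            rw [h]
            simp [φ]
          · exact ⟨y, Or.inr h, rfl⟩
      have h5 : φ (s, a) = (s', a) := by simp [φ]
      rw [h4, h5, one_mul] at h3
      exact h3.symm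
    by_cases h6 : l ∈ {l : List Pt | Fr {y | y ∈ ((s, a) : Pt) :: l} (r : ℝ) (s, a)}
    · rw [indicator_of_mem h6, indicator_of_mem (h2.1 h6)]
      rfl
    · rw [indicator_of_notMem h6, indicator_of_notMem (fun h => h6 (h2.2 h))]
  have e1 : rhoM p a r s = (Pm p 0 s').real (wf (s' - s) s' ⁻¹' E) := by
    rw [Measure.real, E19a_wf hp (by linarith) (by linarith) le_rfl mE, ← e0]
    rfl
  have e2 : rhoM p a r s' = (Pm p 0 s').real E := rfl
  have hprob : IsProbabilityMeasure (Pm p 0 s') := isProb_Pm hp (h0.le.trans hss)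
  rw [e1, e2, ← E19a_full hp (t := s' - m * r) (u := 0) (w := s') hr m (by linarith) (by linarith)]
  refine E19a_real (Pm p 0 s') ?_
  filter_upwards [ae_Pm p 0 s'] with l hl hF
  simp only [mem_setOf_eq, Full, not_forall] at hF
  obtain ⟨i, hi, hF⟩ := hF
  push Not at hF
  have hi0 : (0 : ℝ) ≤ i := Nat.cast_nonneg i
  have hi1 : (i : ℝ) + 1 ≤ m := by exact_mod_cast hi
  have hir : ((i : ℝ) + 1) * r ≤ m * r := mul_le_mul_of_nonneg_right hi1 hr'.le
  -- the empty interval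
  have hcut : Cut {y | y ∈ ((s', a) : Pt) :: l} (r : ℝ) (s' - m * r + i * r + r / 2) := by
    refine cut_of_empty hr' fun y hy hy2 => ?_
    rcases List.mem_cons.1 hy with h | h
    · rw [h] at hy2
      have := hy2.2
      simp only at this
      nlinarith
    · have := hF y h hy2.1
      have h4 := hy2.2
      have h5 : s' - (m : ℝ) * r + (i + 1) * r = s' - m * r + i * r + r := by ring
      linarith
  have hc0 : s' - (m : ℝ) * r + (i : ℝ) * r + r / 2 < s' := by nlinarith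
  have hcs : s' - s < s' - (m : ℝ) * r + (i : ℝ) * r + r / 2 := by nlinarith
  have hpos : ∀ y ∈ {y | y ∈ ((s', a) : Pt) :: l}, y.1 ≤ s' := by
    intro y hy
    rcases List.mem_cons.1 hy with h | h
    · rw [h]
    · exact (hl.2 y h).2.le
  have hsub : {y | y ∈ ((s', a) : Pt) :: wf (s' - s) s' l} ⊆ {y | y ∈ ((s', a) : Pt) :: l} := by
    intro y hy
    rcases List.mem_cons.1 hy with h | h
    · exact List.mem_cons.2 (Or.inl h)
    · exact List.mem_cons.2 (Or.inr (mem_wf.1 h).1)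
  have k1 := Fr_left_win (Z := {y | y ∈ ((s', a) : Pt) :: l}) (a := a)
    (List.finite_toSet _) hpos hcut hc0
  have k2 := Fr_left_win (Z := {y | y ∈ ((s', a) : Pt) :: wf (s' - s) s' l}) (a := a)
    (List.finite_toSet _) (fun y hy => hpos y (hsub hy)) (hcut.subset hsub) hc0
  have k3 : {y | y ∈ {y | y ∈ ((s', a) : Pt) :: wf (s' - s) s' l} ∧
        s' - (m : ℝ) * r + (i : ℝ) * r + r / 2 < y.1} =
      {y | y ∈ {y | y ∈ ((s', a) : Pt) :: l} ∧
        s' - (m : ℝ) * r + (i : ℝ) * r + r / 2 < y.1} := by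
    ext y
    simp only [mem_setOf_eq, List.mem_cons, mem_wf]
    constructor
    · rintro ⟨h | h, h2⟩
      · exact ⟨Or.inl h, h2⟩
      · exact ⟨Or.inr h.1, h2⟩
    · rintro ⟨h | h, h2⟩
      · exact ⟨Or.inl h, h2⟩
      · exact ⟨Or.inr ⟨h, by linarith, (hl.2 y h).2⟩, h2⟩
  show Fr _ _ _ ↔ Fr _ _ _
  rw [k1, k2, k3]

theorem rhoM_close {p : Fin 3 → ℝ} (hp : PV p) (a : Fin 3) {r : ℕ} (hr : 0 < r) (m : ℕ) {s s' : ℝ}
    (hs : (m : ℝ) * r ≤ s) (hs' : (m : ℝ) * r ≤ s') (h0 : 0 < s) (h0' : 0 < s') :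
    |rhoM p a r s - rhoM p a r s'| ≤ (1 - Real.exp (-(r : ℝ))) ^ m := by
  rcases le_total s s' with h | h
  · exact rhoM_aux hp a hr m hs h0 h
  · rw [abs_sub_comm]
    exact rhoM_aux hp a hr m hs' h0' h

end Pool.SM3
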