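/-
SM3.E20a : expected number of free points (prove count_eq here).
PROOF. `count_eq`: `mecke`; for a.e. `l₁` (left of `x`), `l₂` (right): `{z | z ∈ l₁ ++ (x,a) :: l₂}` is finite with distinct positions, so by Fr_iff_cut
`Fr .. r (x,a) ↔ Fr {z | z ∈ (x,a) :: l₁} r (x,a) ∧ Fr {z | z ∈ (x,a) :: l₂} r (x,a)` (`Lef`, `Rig` of the set); the double integral factorises; shift by `-R`
(left part: `(−R,x) → (0,x+R)`) resp. by `x` (right part: `(x,1+R) → (0,1+R-x)`), with Fr_image.
`al_ge`: the splitSum is the number `N_f(l)` of points `y ∈ l` with the property; `N_f ≤ (δ N² + δ⁻¹ ind (∃ ..))/2` with `N` = the number of points in `(0,1)` = length of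
`wf 0 1 l` (if `N_f ≥ 1`: `N_f ≤ N`, `2 N ≤ δ N² + δ⁻¹`); `∫⁻ N² ∂Pm = 2` (lintegral_Pm_wf, lintegral_length_sq).  So `c ≤ δ + al/(2δ)`; take `δ = c/2`.
-/
import Pool.Agent.Lib.SM3.A6
import Pool.Agent.Lib.SM3.A8
import Pool.Agent.Lib.SM3.A9
import Pool.Agent.Lib.SM3.B3
import Pool.Agent.Lib.SM3.B5
import Pool.Agent.Lib.SM3.B6
import Pool.Agent.Lib.SM3.EDefs

set_option autoImplicit false

open MeasureTheory Set

namespace Pool.SM3

/-- integral of an indicator -/
private theorem lintegral_indQ {μ : Measure (List Pt)} {Q : List Pt → Prop}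
    (hQ : MeasurableSet {l | Q l}) : ∫⁻ l, ind (Q l) ∂μ = μ {l | Q l} := by
  rw [← lintegral_indicator_one hQ]
  refine lintegral_congr fun l => ?_
  by_cases h : Q l
  · have h' : l ∈ {l | Q l} := h
    rw [indicator_of_mem h', ind, if_pos h]
    rfl
  · have h' : l ∉ {l | Q l} := h
    rw [indicator_of_notMem h', ind, if_neg h]

private theorem ind_and (P Q : Prop) : ind (P ∧ Q) = ind P * ind Q := by
  unfold ind
  by_cases hP : P <;> by_cases hQ : Q <;> simp [hP, hQ]

/-- the set of configurations such that `(x, a)` is free in `(x, a) :: l` -/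
private def FS (x : ℝ) (a : Fin 3) (r : ℝ) : Set (List Pt) :=
  {l | Fr {y | y ∈ (x, a) :: l} r (x, a)}

private theorem meas_FS (x : ℝ) (a : Fin 3) (r : ℝ) : MeasurableSet (FS x a r) := by
  have h1 : Measurable (fun l : List Pt => ((x, a) :: l : List Pt)) :=
    measurable_cons.comp (measurable_const.prodMk measurable_id)
  have h2 : Measurable (fun l : List Pt => (((x, a) :: l : List Pt), r, ((x, a) : Pt))) :=
    h1.prodMk measurable_const
  exact h2 measurableSet_Fr

/-- the shift as an equivalence -/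
private def shiftE (h : ℝ) : Pt ≃ Pt where
  toFun y := (y.1 + h, y.2)
  invFun y := (y.1 - h, y.2)
  left_inv y := by simp
  right_inv y := by simp

private theorem Pm_FS_shift (p : Fin 3 → ℝ) (h u w x : ℝ) (a : Fin 3) (r : ℝ) :
    Pm p (u + h) (w + h) (FS (x + h) a r) = Pm p u w (FS x a r) := by
  have h1 : Measurable (fun l : List Pt => ind (l ∈ FS (x + h) a r)) :=
    measurable_ind (meas_FS (x + h) a r)
  have e1 : ∫⁻ l, ind (l ∈ FS (x + h) a r) ∂(Pm p (u + h) (w + h)) =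
      Pm p (u + h) (w + h) (FS (x + h) a r) := lintegral_indQ (meas_FS (x + h) a r)
  have e2 : ∫⁻ l, ind (l ∈ FS x a r) ∂(Pm p u w) = Pm p u w (FS x a r) :=
    lintegral_indQ (meas_FS x a r)
  rw [← e1, lintegral_Pm_shift p h u w h1, ← e2]
  refine lintegral_congr fun l => ?_
  have h2 : {y | y ∈ ((x + h, a) :: l.map (fun y : Pt => (y.1 + h, y.2)) : List Pt)} =
      shiftE h '' {y | y ∈ (x, a) :: l} := by
    ext y
    constructor
    · intro hy
      rcases List.mem_cons.1 hy with hy | hy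
      · exact ⟨(x, a), List.mem_cons.2 (Or.inl rfl), hy.symm⟩
      · obtain ⟨z, hz, rfl⟩ := List.mem_map.1 hy
        exact ⟨z, List.mem_cons.2 (Or.inr hz), rfl⟩
    · rintro ⟨z, hz, rfl⟩
      rcases List.mem_cons.1 hz with hz | hz
      · rw [hz]
        exact List.mem_cons.2 (Or.inl rfl)
      · exact List.mem_cons.2 (Or.inr (List.mem_map.2 ⟨z, hz, rfl⟩))
  have h3 : Fr {y | y ∈ ((x + h, a) :: l.map (fun y : Pt => (y.1 + h, y.2)) : List Pt)} r (x + h, a) ↔
      Fr {y | y ∈ (x, a) :: l} r (x, a) := by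
    rw [h2]
    have h4 := Fr_image (shiftE h) (c := 1) one_pos (fun x y => by
      show |(x.1 + h) - (y.1 + h)| = 1 * |x.1 - y.1|
      rw [add_sub_add_right_eq_sub, one_mul]) (fun x y => Iff.rfl) {y | y ∈ (x, a) :: l} r (x, a)
    rw [one_mul] at h4
    exact h4
  have h5 : (l.map (fun y : Pt => (y.1 + h, y.2)) ∈ FS (x + h) a r) = (l ∈ FS x a r) := propext h3
  rw [h5]

private theorem posInj_of_pairwise {l : List Pt} (h : l.Pairwise (fun x y => x.1 < y.1)) :
    PosInj {y | y ∈ l} := by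
  have h1 : l.Pairwise (fun x y : Pt => x.1 = y.1 → x = y) :=
    h.imp (fun {x y} hxy he => absurd he hxy.ne)
  intro x hx y hy
  have h2 : Std.Symm (fun x y : Pt => x.1 = y.1 → x = y) :=
    ⟨fun x y hxy he => (hxy he.symm).symm⟩
  exact h1.forall_of_forall (fun x _ _ => rfl) hx hy

/-- the cut at the point `(t, a)` -/
private theorem cut_iff {u t w : ℝ} {a : Fin 3} {l₁ l₂ : List Pt} (h1 : SL u t l₁) (h2 : SL t w l₂)
    (r : ℝ) : Fr {z | z ∈ l₁ ++ (t, a) :: l₂} r (t, a) ↔ l₁ ∈ FS t a r ∧ l₂ ∈ FS t a r := by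
  have hp : (l₁ ++ (t, a) :: l₂).Pairwise (fun x y : Pt => x.1 < y.1) := by
    rw [List.pairwise_append]
    refine ⟨h1.1, List.pairwise_cons.2 ⟨fun y hy => (h2.2 y hy).1, h2.1⟩, fun x hx y hy => ?_⟩
    rcases List.mem_cons.1 hy with hy | hy
    · rw [hy]
      exact (h1.2 x hx).2
    · exact (h1.2 x hx).2.trans (h2.2 y hy).1
  have hm : ((t, a) : Pt) ∈ {z | z ∈ l₁ ++ (t, a) :: l₂} :=
    List.mem_append_right _ (List.mem_cons.2 (Or.inl rfl))
  rw [Fr_iff_cut (List.finite_toSet _) (posInj_of_pairwise hp) hm]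
  have e1 : Lef {z | z ∈ l₁ ++ (t, a) :: l₂} ((t, a) : Pt).1 = {z | z ∈ (t, a) :: l₁} := by
    ext y
    constructor
    · rintro ⟨hy, hy2⟩
      rcases List.mem_append.1 hy with hy | hy
      · exact List.mem_cons.2 (Or.inr hy)
      · rcases List.mem_cons.1 hy with hy | hy
        · exact List.mem_cons.2 (Or.inl hy)
        · exact absurd (h2.2 y hy).1 (not_lt.2 hy2)
    · intro hy
      rcases List.mem_cons.1 hy with hy | hy
      · rw [hy]
        exact ⟨hm, le_rfl⟩
      · exact ⟨List.mem_append_left _ hy, (h1.2 y hy).2.le⟩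
  have e2 : Rig {z | z ∈ l₁ ++ (t, a) :: l₂} ((t, a) : Pt).1 = {z | z ∈ (t, a) :: l₂} := by
    ext y
    constructor
    · rintro ⟨hy, hy2⟩
      rcases List.mem_append.1 hy with hy | hy
      · exact absurd (h1.2 y hy).2 (not_lt.2 hy2)
      · exact hy
    · intro hy
      rcases List.mem_cons.1 hy with hy' | hy'
      · rw [hy']
        exact ⟨hm, le_rfl⟩
      · exact ⟨List.mem_append_right _ hy, (h2.2 y hy').1.le⟩
  rw [e1, e2]
  exact Iff.rfl

private theorem meas_Psi (a : Fin 3) (r : ℝ) :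
    MeasurableSet {q : List Pt × Pt × List Pt | q.2.1.2 = a ∧ 0 < q.2.1.1 ∧ q.2.1.1 < 1 ∧
      Fr {z | z ∈ q.1 ++ q.2.1 :: q.2.2} r q.2.1} := by
  have h0 : Measurable (fun q : List Pt × Pt × List Pt => q.2.1) :=
    measurable_fst.comp measurable_snd
  have h1 : Measurable (fun q : List Pt × Pt × List Pt => q.2.1.1) := measurable_fst.comp h0
  have h2 : Measurable (fun q : List Pt × Pt × List Pt => q.2.1.2) := measurable_snd.comp h0
  have h3 : Measurable (fun q : List Pt × Pt × List Pt => q.2.1 :: q.2.2) :=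
    measurable_cons.comp measurable_snd
  have h4 : Measurable (fun q : List Pt × Pt × List Pt => q.1 ++ q.2.1 :: q.2.2) :=
    measurable_append.comp (measurable_fst.prodMk h3)
  have h5 : Measurable (fun q : List Pt × Pt × List Pt => (q.1 ++ q.2.1 :: q.2.2, r, q.2.1)) :=
    h4.prodMk (measurable_const.prodMk h0)
  exact (h2 (measurableSet_singleton a)).inter ((measurableSet_lt measurable_const h1).inter
    ((measurableSet_lt h1 measurable_const).inter (h5 measurableSet_Fr)))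

theorem count_eq {p : Fin 3 → ℝ} (hp : PV p) (a : Fin 3) (r : ℝ) {R : ℝ} (hR : 0 < R) :
    ∫⁻ l, splitSum (fun l₁ y l₂ => ind (y.2 = a ∧ 0 < y.1 ∧ y.1 < 1 ∧
        Fr {z | z ∈ l₁ ++ y :: l₂} r y)) l ∂(Pm p (-R) (1 + R))
      = ∫⁻ x in Ioo (0 : ℝ) 1, ENNReal.ofReal (p a) *
          (ENNReal.ofReal (rhoM p a r (x + R)) * ENNReal.ofReal (rhoP p a r (1 + R - x))) := by
  have hmi : ∀ t : ℝ, Measurable (fun l : List Pt => ind (l ∈ FS t a r)) := fun t =>
    measurable_ind (meas_FS t a r)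
  rw [mecke p (-R) (1 + R) (measurable_ind (meas_Psi a r)), ← lintegral_indicator measurableSet_Ioo,
    ← lintegral_indicator measurableSet_Ioo]
  refine lintegral_congr fun t => ?_
  by_cases ht : t ∈ Ioo (0 : ℝ) 1
  · have ht' : t ∈ Ioo (-R) (1 + R) := ⟨by linarith [ht.1], by linarith [ht.2]⟩
    rw [indicator_of_mem ht, indicator_of_mem ht', Finset.sum_eq_single a]
    · congr 1
      have e1 : ∫⁻ l₁, ∫⁻ l₂, ind (((t, a) : Pt).2 = a ∧ 0 < ((t, a) : Pt).1 ∧ ((t, a) : Pt).1 < 1 ∧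
          Fr {z | z ∈ l₁ ++ (t, a) :: l₂} r (t, a)) ∂(Pm p t (1 + R)) ∂(Pm p (-R) t) =
          ∫⁻ l₁, Pm p t (1 + R) (FS t a r) * ind (l₁ ∈ FS t a r) ∂(Pm p (-R) t) := by
        refine lintegral_congr_ae ?_
        filter_upwards [ae_Pm p (-R) t] with l₁ h1
        have e2 : ∫⁻ l₂, ind (((t, a) : Pt).2 = a ∧ 0 < ((t, a) : Pt).1 ∧ ((t, a) : Pt).1 < 1 ∧
          Fr {z | z ∈ l₁ ++ (t, a) :: l₂} r (t, a)) ∂(Pm p t (1 + R)) =
            ∫⁻ l₂, ind (l₁ ∈ FS t a r) * ind (l₂ ∈ FS t a r) ∂(Pm p t (1 + R)) := by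
          refine lintegral_congr_ae ?_
          filter_upwards [ae_Pm p t (1 + R)] with l₂ h2
          have h3 : (((t, a) : Pt).2 = a ∧ 0 < ((t, a) : Pt).1 ∧ ((t, a) : Pt).1 < 1 ∧
              Fr {z | z ∈ l₁ ++ (t, a) :: l₂} r (t, a)) = (l₁ ∈ FS t a r ∧ l₂ ∈ FS t a r) := by
            rw [← propext (cut_iff h1 h2 r)]
            exact propext ⟨fun h => h.2.2.2, fun h => ⟨rfl, ht.1, ht.2, h⟩⟩
          rw [h3, ind_and]
        have e3 : ∫⁻ l₂, ind (l₂ ∈ FS t a r) ∂(Pm p t (1 + R)) = Pm p t (1 + R) (FS t a r) :=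
          lintegral_indQ (meas_FS t a r)
        rw [e2, lintegral_const_mul _ (hmi t), e3, mul_comm]
      have e4 : ∫⁻ l₁, ind (l₁ ∈ FS t a r) ∂(Pm p (-R) t) = Pm p (-R) t (FS t a r) :=
        lintegral_indQ (meas_FS t a r)
      refine e1.trans ?_
      rw [lintegral_const_mul _ (hmi t), e4, mul_comm]
      have i1 := isProb_Pm hp (u := 0) (w := t + R) (by linarith [ht.1])
      have i2 := isProb_Pm hp (u := 0) (w := 1 + R - t) (by linarith [ht.2])
      have h5 := Pm_FS_shift p (-R) 0 (t + R) (t + R) a r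
      rw [zero_add, add_neg_cancel_right] at h5
      have h6 := Pm_FS_shift p t 0 (1 + R - t) 0 a r
      rw [zero_add, sub_add_cancel] at h6
      rw [h5, h6]
      congr 1
      · exact (ENNReal.ofReal_toReal (measure_ne_top _ _)).symm
      · exact (ENNReal.ofReal_toReal (measure_ne_top _ _)).symm
    · intro c _ hc
      have h1 : ∀ l₁ l₂ : List Pt, ind (((t, c) : Pt).2 = a ∧ 0 < ((t, c) : Pt).1 ∧
          ((t, c) : Pt).1 < 1 ∧ Fr {z | z ∈ l₁ ++ (t, c) :: l₂} r (t, c)) = 0 := by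
        intro l₁ l₂
        rw [ind, if_neg]
        exact fun h => hc h.1
      simp only [h1, lintegral_zero, mul_zero]
    · intro h
      exact absurd (Finset.mem_univ a) h
  · rw [indicator_of_notMem ht]
    by_cases ht' : t ∈ Ioo (-R) (1 + R)
    · rw [indicator_of_mem ht']
      refine Finset.sum_eq_zero fun c _ => ?_
      have h1 : ∀ l₁ l₂ : List Pt, ind (((t, c) : Pt).2 = a ∧ 0 < ((t, c) : Pt).1 ∧
          ((t, c) : Pt).1 < 1 ∧ Fr {z | z ∈ l₁ ++ (t, c) :: l₂} r (t, c)) = 0 := by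
        intro l₁ l₂
        rw [ind, if_neg]
        exact fun h => ht ⟨h.2.1, h.2.2.1⟩
      simp only [h1, lintegral_zero, mul_zero]
    · rw [indicator_of_notMem ht']

end Pool.SM3
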