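/-
SM3.E20b : lower bound for `al` (prove al_ge here).
PROOF. `count_eq`: `mecke`; for a.e. `l₁` (left of `x`), `l₂` (right): `{z | z ∈ l₁ ++ (x,a) :: l₂}` is finite with distinct positions, so by Fr_iff_cut
`Fr .. r (x,a) ↔ Fr {z | z ∈ (x,a) :: l₁} r (x,a) ∧ Fr {z | z ∈ (x,a) :: l₂} r (x,a)` (`Lef`, `Rig` of the set); the double integral factorises; shift by `-R`
(left part: `(−R,x) → (0,x+R)`) resp. by `x` (right part: `(x,1+R) → (0,1+R-x)`), with Fr_image.
`al_ge`: the splitSum is the number `N_f(l)` of points `y ∈ l` with the property; `N_f ≤ (δ N² + δ⁻¹ ind (∃ ..))/2` with `N` = the number of points in `(0,1)` = length of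
`wf 0 1 l` (if `N_f ≥ 1`: `N_f ≤ N`, `2 N ≤ δ N² + δ⁻¹`); `∫⁻ N² ∂Pm = 2` (lintegral_Pm_wf, lintegral_length_sq).  So `c ≤ δ + al/(2δ)`; take `δ = c/2`.
-/
import Pool.Agent.Lib.SM3.A6
import Pool.Agent.Lib.SM3.A8
import Pool.Agent.Lib.SM3.A9
import Pool.Agent.Lib.SM3.B3
import Pool.Agent.Lib.SM3.B8
import Pool.Agent.Lib.SM3.B5
import Pool.Agent.Lib.SM3.B6
import Pool.Agent.Lib.SM3.EDefs

set_option autoImplicit false

open MeasureTheory Set

namespace Pool.SM3

private theorem e20_len (a : Fin 3) (Q : Pt → Prop) : ∀ l : List Pt,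
    (l.map (fun y => ind (y.2 = a ∧ 0 < y.1 ∧ y.1 < 1 ∧ Q y))).sum ≤ ((wf 0 1 l).length : ENNReal)
  | [] => by simp [wf]
  | y :: l => by
    have ih := e20_len a Q l
    rw [List.map_cons, List.sum_cons]
    unfold wf at ih ⊢
    by_cases h : (0 : ℝ) < y.1 ∧ y.1 < 1
    · rw [List.filter_cons_of_pos (by simpa using h), List.length_cons, Nat.cast_add, Nat.cast_one,
        add_comm]
      refine add_le_add ih ?_
      unfold ind
      split_ifs
      · exact le_rfl
      · exact zero_le_one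
    · rw [List.filter_cons_of_neg (by simpa using h)]
      have h1 : ind (y.2 = a ∧ 0 < y.1 ∧ y.1 < 1 ∧ Q y) = 0 := by
        unfold ind
        exact if_neg fun h2 => h ⟨h2.2.1, h2.2.2.1⟩
      rw [h1, zero_add]
      exact ih

private theorem e20_num {c : ℝ} (hc : 0 < c) (n : ℕ) :
    (n : ENNReal) ≤ ENNReal.ofReal (c / 4) * (n : ENNReal) ^ 2 + ENNReal.ofReal (1 / c) := by
  have h1 : (n : ℝ) ≤ c / 4 * (n : ℝ) ^ 2 + 1 / c := by
    have h2 : 0 ≤ (c * n - 2) ^ 2 / (4 * c) := by positivity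
    have h3 : (c * n - 2) ^ 2 / (4 * c) = c / 4 * (n : ℝ) ^ 2 - n + 1 / c := by
      field_simp
      ring
    linarith
  have h4 := ENNReal.ofReal_le_ofReal h1
  rw [ENNReal.ofReal_natCast, ENNReal.ofReal_add (by positivity) (by positivity),
    ENNReal.ofReal_mul (by positivity), ENNReal.ofReal_pow (by positivity),
    ENNReal.ofReal_natCast] at h4
  exact h4

theorem al_ge {p : Fin 3 → ℝ} (hp : PV p) (a : Fin 3) (r m : ℕ) {c : ℝ} (hc : 0 < c)
    (h : ENNReal.ofReal c ≤ ∫⁻ l, splitSum (fun l₁ y l₂ => ind (y.2 = a ∧ 0 < y.1 ∧ y.1 < 1 ∧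
        Fr {z | z ∈ l₁ ++ y :: l₂} r y)) l ∂(Pm p (-((r : ℝ) * m)) (1 + (r : ℝ) * m))) :
    c ^ 2 / 2 ≤ al p a r m := by
  have hrm : (0 : ℝ) ≤ (r : ℝ) * m := by positivity
  have hP : IsProbabilityMeasure (Pm p (-((r : ℝ) * m)) (1 + (r : ℝ) * m)) :=
    isProb_Pm hp (by linarith)
  obtain ⟨D, hD⟩ : ∃ D : Set (List Pt), D = {l | ∃ x ∈ l, x.2 = a ∧ 0 < x.1 ∧ x.1 < 1 ∧
    Fr {y | y ∈ l} r x} := ⟨_, rfl⟩
  have hDm : MeasurableSet D := by
    have h1 : MeasurableSet {q : List Pt × Pt | q.2.2 = a ∧ 0 < q.2.1 ∧ q.2.1 < 1 ∧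
        Fr {y | y ∈ q.1} r q.2} := by
      have h2 : MeasurableSet {q : List Pt × Pt | q.2.2 = a} :=
        (measurable_snd.comp measurable_snd) (measurableSet_singleton a)
      have h3 : MeasurableSet {q : List Pt × Pt | 0 < q.2.1} :=
        measurableSet_lt measurable_const (measurable_fst.comp measurable_snd)
      have h4 : MeasurableSet {q : List Pt × Pt | q.2.1 < 1} :=
        measurableSet_lt (measurable_fst.comp measurable_snd) measurable_const
      have h5 : MeasurableSet {q : List Pt × Pt | Fr {y | y ∈ q.1} r q.2} := by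
        have h6 : Measurable (fun q : List Pt × Pt => (q.1, ((r : ℝ), q.2))) :=
          measurable_fst.prodMk (measurable_const.prodMk measurable_snd)
        exact h6 measurableSet_Fr
      exact h2.inter (h3.inter (h4.inter h5))
    have h7 := measurableSet_exists_mem (Θ := List Pt) (Q := fun l y => y.2 = a ∧ 0 < y.1 ∧
      y.1 < 1 ∧ Fr {z | z ∈ l} r y) h1
    rw [hD]
    exact (measurable_id.prodMk measurable_id) h7
  have hpt : ∀ l : List Pt, splitSum (fun l₁ y l₂ => ind (y.2 = a ∧ 0 < y.1 ∧ y.1 < 1 ∧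
      Fr {z | z ∈ l₁ ++ y :: l₂} r y)) l ≤
      ENNReal.ofReal (c / 4) * ((wf 0 1 l).length : ENNReal) ^ 2 +
        D.indicator (fun _ => ENNReal.ofReal (1 / c)) l := by
    intro l
    have h1 : splitSum (fun l₁ y l₂ => ind (y.2 = a ∧ 0 < y.1 ∧ y.1 < 1 ∧
        Fr {z | z ∈ l₁ ++ y :: l₂} r y)) l =
        (l.map (fun y => ind (y.2 = a ∧ 0 < y.1 ∧ y.1 < 1 ∧ Fr {z | z ∈ l} r y))).sum := by
      rw [← splitSum_elem]
      refine splitSum_congr fun l₁ y l₂ h => ?_
      rw [← h]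
    rw [h1]
    by_cases hl : l ∈ D
    · rw [Set.indicator_of_mem hl]
      exact (e20_len a _ l).trans (e20_num hc _)
    · rw [Set.indicator_of_notMem hl, add_zero]
      have h2 : (l.map (fun y => ind (y.2 = a ∧ 0 < y.1 ∧ y.1 < 1 ∧ Fr {z | z ∈ l} r y))).sum =
          0 := by
        refine List.sum_eq_zero fun v hv => ?_
        obtain ⟨y, hy, rfl⟩ := List.mem_map.1 hv
        unfold ind
        refine if_neg fun h3 => hl ?_
        rw [hD]
        exact ⟨y, hy, h3⟩
      rw [h2]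
      exact zero_le
  have hm1 : Measurable (fun l : List Pt => (l.length : ENNReal) ^ 2) :=
    (measurable_from_nat.comp measurable_lengthL).pow_const 2
  have hm2 : Measurable (fun l : List Pt => ((wf 0 1 l).length : ENNReal) ^ 2) :=
    hm1.comp (measurable_wf 0 1)
  have h1 := h.trans (lintegral_mono hpt)
  rw [lintegral_add_left (hm2.const_mul _), lintegral_const_mul _ hm2,
    lintegral_Pm_wf hp (by linarith) zero_le_one (by linarith) hm1, lintegral_length_sq hp,
    lintegral_indicator_const hDm, ← ofReal_measureReal] at h1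
  have h2 : (Pm p (-((r : ℝ) * m)) (1 + (r : ℝ) * m)).real D = al p a r m := by
    rw [hD]
    rfl
  have hal : 0 ≤ al p a r m := by rw [← h2]; exact measureReal_nonneg
  have h3 : (2 : ENNReal) = ENNReal.ofReal 2 := by simp
  rw [h2, h3, ← ENNReal.ofReal_mul (by positivity), ← ENNReal.ofReal_mul (by positivity),
    ← ENNReal.ofReal_add (by positivity) (by positivity),
    ENNReal.ofReal_le_ofReal_iff (by positivity)] at h1
  have h4 : c * c ≤ c * (c / 4 * 2 + 1 / c * al p a r m) := mul_le_mul_of_nonneg_left h1 hc.le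
  have h5 : c * (c / 4 * 2 + 1 / c * al p a r m) = c ^ 2 / 2 + al p a r m := by
    field_simp
    ring
  rw [h5] at h4
  nlinarith

end Pool.SM3
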