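/-
SM3.E21 : a uniform lower bound in the phase `p 1 < p 0`.
PROOF. Let `κ = (p 0 - p 1)²/2`, `r ≥ 1`, `γ = 1 - e^{-r}`, `m` with `8 γ^m ≤ κ` and `r m > 0`.  By Kf_large there is `z ≥ 2 (m r) + r` with `κ < Kf p 0 z =
p 0 (Pm p 0 z).real {Gd 0 0 z 0 z} ≤ (Pm p 0 z).real {Gd 0 0 z 0 r}` (`r ≤ z`: Fr.mono; `p 0 ≤ 1`).  With `s = z/2 ≥ m r`: Gd_decouple:
`κ/(p 0) < rhoP s * rhoM s + 2γ^m` (keep the factor `p 0`: `κ < p 0 (rhoP s rhoM s) + 2 γ^m`), and for all `s', s'' ≥ m r`: `rhoP s' rhoM s'' ≥ rhoP s rhoM s - 2γ^m`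
(rhoP_close, rhoM_close, all in `[0,1]`).  With `R = r m` and `x ∈ (0,1)`: `x + R ≥ m r`, `1 + R - x ≥ m r`: the integrand in count_eq is
`≥ κ - 4γ^m ≥ κ/2`, so al_ge with `c = κ/2` gives `al p 0 r m ≥ κ²/8`.
-/
import Pool.Agent.Lib.SM3.D15
import Pool.Agent.Lib.SM3.E19
import Pool.Agent.Lib.SM3.E19a
import Pool.Agent.Lib.SM3.E20a
import Pool.Agent.Lib.SM3.E20b

set_option autoImplicit false

open MeasureTheory Set

namespace Pool.SM3

theorem al_lower {p : Fin 3 → ℝ} (hp : PV p) (hq : p 1 = p 2) (h : p 1 < p 0) {r : ℕ} (hr : 0 < r) :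
    ∃ m₀ : ℕ, ∀ m : ℕ, m₀ ≤ m → ((p 0 - p 1) ^ 2 / 2) ^ 2 / 8 ≤ al p 0 r m := by
  set κ : ℝ := (p 0 - p 1) ^ 2 / 2 with hκ
  have hκ0 : 0 < κ := by
    have : 0 < p 0 - p 1 := sub_pos.2 h
    positivity
  set γ : ℝ := 1 - Real.exp (-(r : ℝ)) with hγ
  have hr' : (0:ℝ) < r := Nat.cast_pos.2 hr
  have hγ0 : 0 ≤ γ := by
    have : Real.exp (-(r : ℝ)) ≤ 1 := Real.exp_le_one_iff.2 (by linarith)
    simp only [hγ]; linarith
  have hγ1 : γ < 1 := by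
    have := Real.exp_pos (-(r : ℝ))
    simp only [hγ]; linarith
  have hp0 : 0 < p 0 := hp.pos 0
  have hp1 : p 0 ≤ 1 := by have := hp.sum; have := hp.pos 1; have := hp.pos 2; linarith
  obtain ⟨m₁, hm₁⟩ : ∃ m₁ : ℕ, ∀ m, m₁ ≤ m → γ ^ m ≤ κ / 8 := by
    have ht := tendsto_pow_atTop_nhds_zero_of_lt_one hγ0 hγ1
    have := (ht.eventually (gt_mem_nhds (show (0:ℝ) < κ / 8 by positivity)))
    obtain ⟨N, hN⟩ := Filter.eventually_atTop.1 this
    exact ⟨N, fun m hm => (hN m hm).le⟩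
  refine ⟨max m₁ 1, fun m hm => ?_⟩
  have hmγ : γ ^ m ≤ κ / 8 := hm₁ m (le_trans (le_max_left _ _) hm)
  have hm1 : 1 ≤ m := le_trans (le_max_right _ _) hm
  have hm1' : (1:ℝ) ≤ m := by exact_mod_cast hm1
  have hγm : 0 ≤ γ ^ m := pow_nonneg hγ0 m
  have hR : 0 < (r : ℝ) * m := by positivity
  obtain ⟨z, hz, hz0, hzK⟩ := Kf_large hp hq h (2 * ((m : ℝ) * r) + r)
  have hrz : (r : ℝ) ≤ z := by nlinarith
  have : IsProbabilityMeasure (Pm p 0 z) := isProb_Pm hp hz0.le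
  set s : ℝ := z / 2 with hs
  have hs0 : 0 < s := by positivity
  have hsm : (m : ℝ) * r ≤ s := by simp only [hs]; linarith
  have hsz : 2 * s = z := by simp only [hs]; ring
  -- bounds
  have rP0 : ∀ t, 0 ≤ rhoP p 0 r t := fun t => measureReal_nonneg
  have rM0 : ∀ t, 0 ≤ rhoM p 0 r t := fun t => measureReal_nonneg
  have rP1 : ∀ t, 0 < t → rhoP p 0 r t ≤ 1 := by
    intro t ht
    have : IsProbabilityMeasure (Pm p 0 t) := isProb_Pm hp ht.le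
    exact measureReal_le_one
  have rM1 : ∀ t, 0 < t → rhoM p 0 r t ≤ 1 := by
    intro t ht
    have : IsProbabilityMeasure (Pm p 0 t) := isProb_Pm hp ht.le
    exact measureReal_le_one
  have hdec := Gd_decouple hp 0 hr m hsm hs0
  rw [hsz] at hdec
  have hK1 : Kf p 0 z ≤ p 0 * (rhoP p 0 r s * rhoM p 0 r s) + 2 * γ ^ m := by
    have h1 : (Pm p 0 z).real {l | Gd 0 0 z 0 z l} ≤ (Pm p 0 z).real {l | Gd 0 0 z 0 r l} := by
      refine measureReal_mono ?_ (measure_ne_top _ _)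
      rintro l ⟨h1, h2⟩
      exact ⟨h1.mono hrz, h2.mono hrz⟩
    have h2 : Kf p 0 z ≤ p 0 * (rhoP p 0 r s * rhoM p 0 r s + 2 * γ ^ m) :=
      mul_le_mul_of_nonneg_left (h1.trans hdec) hp0.le
    have h3 : p 0 * (2 * γ ^ m) ≤ 1 * (2 * γ ^ m) :=
      mul_le_mul_of_nonneg_right hp1 (by positivity)
    linarith [mul_add (p 0) (rhoP p 0 r s * rhoM p 0 r s) (2 * γ ^ m)]
  have hlow : ∀ s' s'' : ℝ, (m : ℝ) * r ≤ s' → (m : ℝ) * r ≤ s'' → 0 < s' → 0 < s'' →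
      κ / 2 ≤ p 0 * (rhoM p 0 r s' * rhoP p 0 r s'') := by
    intro s' s'' h1 h2 h3 h4
    have e1 := rhoM_close hp 0 hr m hsm h1 hs0 h3
    have e2 := rhoP_close hp 0 hr m hsm h2 hs0 h4
    rw [abs_le] at e1 e2
    have a1 := rM0 s'
    have a2 := rM1 s' h3
    have a3 := rP0 s
    have a4 := rP1 s hs0
    have e3 : rhoP p 0 r s * rhoM p 0 r s - 2 * γ ^ m ≤ rhoM p 0 r s' * rhoP p 0 r s'' := by
      have u1 : rhoM p 0 r s' * (rhoP p 0 r s'' - rhoP p 0 r s) ≥ - γ ^ m := by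
        have : -γ ^ m ≤ rhoP p 0 r s'' - rhoP p 0 r s := by linarith [e2.2]
        nlinarith
      have u2 : rhoP p 0 r s * (rhoM p 0 r s' - rhoM p 0 r s) ≥ - γ ^ m := by
        have : -γ ^ m ≤ rhoM p 0 r s' - rhoM p 0 r s := by linarith [e1.2]
        nlinarith
      nlinarith
    have e4 : p 0 * (rhoP p 0 r s * rhoM p 0 r s) - 2 * γ ^ m
        ≤ p 0 * (rhoM p 0 r s' * rhoP p 0 r s'') := by
      have := mul_le_mul_of_nonneg_left e3 hp0.le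
      have h5 : p 0 * (2 * γ ^ m) ≤ 1 * (2 * γ ^ m) :=
        mul_le_mul_of_nonneg_right hp1 (by positivity)
      nlinarith
    linarith
  have hal : (κ / 2) ^ 2 / 2 ≤ al p 0 r m := by
    refine al_ge hp 0 r m (by positivity) ?_
    rw [count_eq hp 0 (r : ℝ) hR]
    calc ENNReal.ofReal (κ / 2) = ∫⁻ _ in Ioo (0 : ℝ) 1, ENNReal.ofReal (κ / 2) := by
          rw [setLIntegral_const, Real.volume_Ioo]; simp
      _ ≤ _ := by
          refine setLIntegral_mono' measurableSet_Ioo ?_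
          intro x hx
          have hx1 : 0 < x + (r : ℝ) * m := by linarith [hx.1]
          have hx2 : 0 < 1 + (r : ℝ) * m - x := by linarith [hx.2]
          have := hlow (x + (r : ℝ) * m) (1 + (r : ℝ) * m - x) (by linarith [hx.1])
            (by linarith [hx.2]) hx1 hx2
          rw [← ENNReal.ofReal_mul (rM0 _), ← ENNReal.ofReal_mul hp0.le]
          exact ENNReal.ofReal_le_ofReal this
  calc κ ^ 2 / 8 = (κ / 2) ^ 2 / 2 := by ring
    _ ≤ _ := hal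

end Pool.SM3
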