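/-
SM3.E9 : stable matchings in the sense of the problem are `MS`.
PROOF. Let `Y = {y | y.1 ∈ T y.2}`; by NoIso positions are distinct, so the colour of a position is unique.
`stable_MS`: symmetric (MS_symm); memberships (MS_mem; `x ≠ y` because the colours differ and positions determine colours);
unique partner: `MS (x,i) (y,j)`, `MS (x,i') (z,l)`: `i = i'`; if `|x-y| ≠ |x-z|` the recursion (MS_rec) is violated, else NoIso gives
`y = z`; no blocking pair: if `x ≠ y` are compatible with colours `i ≠ j` and have no closer partners then MS_rec gives `MS (x,i) (y,j)`, so `dist x y < dist x y`.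
`stable_iff`: from a stable `M` define `M' x y := M x.1 y.1 ∧ x ∈ Y ∧ y ∈ Y ∧ x.2 ≠ y.2`; it is symmetric and `Rec Y r M'` for all `r`:
`→` unique partner; `←`: the pair is compatible and (no blocking) say `∃ z, M x z ∧ dist x z ≤ dist x y` (or the same for `y`); `z` is in `Y` with some
colour `≠`; it is not closer (hypothesis), so `dist x z = dist x y` and NoIso gives `z = y`.  Then `M' = MS Y` by MS_eq.
-/
import Pool.Agent.Lib.SM3.E8

set_option autoImplicit false

open MeasureTheory Set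

namespace Pool.SM3

private theorem pos_inj {Y : Set Pt} (h : NoIso Y) {x y : Pt} (hx : x ∈ Y) (hy : y ∈ Y)
    (hxy : x.1 = y.1) : x = y := h x hx x hx y hy (by rw [hxy])

theorem stable_MS {T : Fin 3 → Set ℝ} (h : Good {y : Pt | y.1 ∈ T y.2}) :
    Stable T (fun x y => ∃ i j : Fin 3, MS {y : Pt | y.1 ∈ T y.2} (x, i) (y, j)) := by
  refine ⟨?_, ?_, ?_, ?_⟩
  · rintro x y ⟨i, j, hxy⟩
    exact ⟨j, i, MS_symm hxy⟩
  · rintro x y ⟨i, j, hxy⟩
    obtain ⟨h1, h2, h3⟩ := MS_mem hxy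
    refine ⟨?_, i, j, h3, h1, h2⟩
    rintro rfl
    have := pos_inj h.noIso h1 h2 rfl
    exact h3 (congrArg Prod.snd this)
  · rintro x y z ⟨i, j, hxy⟩ ⟨i', l, hxz⟩
    obtain ⟨h1, h2, h3⟩ := MS_mem hxy
    obtain ⟨h1', h2', h3'⟩ := MS_mem hxz
    have hii : i = i' := congrArg Prod.snd (pos_inj h.noIso h1 h1' rfl)
    subst hii
    rcases lt_trichotomy |x - y| |x - z| with hlt | heq | hgt
    · exfalso
      have := (MS_rec h (|x - z| + 1) (x, i) (z, l) (by simp)).1 hxz
      exact this.2.2.2.1 (y, j) hlt hxy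
    · exact congrArg Prod.fst (h.noIso _ h1 _ h2 _ h2' heq)
    · exfalso
      have := (MS_rec h (|x - y| + 1) (x, i) (y, j) (by simp)).1 hxy
      exact this.2.2.2.1 (z, l) hgt hxz
  · rintro x y hxy ⟨i, j, hij, hx, hy⟩ ⟨h1, h2⟩
    have hM : MS {y : Pt | y.1 ∈ T y.2} (x, i) (y, j) := by
      refine (MS_rec h (|x - y| + 1) (x, i) (y, j) (by simp)).2 ⟨hx, hy, hij, ?_, ?_⟩
      · intro z hz hMz
        have := h1 z.1 ⟨i, z.2, hMz⟩
        rw [Real.dist_eq, Real.dist_eq] at this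
        exact absurd this (not_lt.2 (le_of_lt hz))
      · intro z hz hMz
        have := h2 z.1 ⟨j, z.2, hMz⟩
        rw [Real.dist_eq, Real.dist_eq] at this
        exact absurd this (not_lt.2 (le_of_lt hz))
    exact lt_irrefl _ (h1 y ⟨i, j, hM⟩)

theorem stable_iff {T : Fin 3 → Set ℝ} (h : Good {y : Pt | y.1 ∈ T y.2}) {M : ℝ → ℝ → Prop}
    (hM : Stable T M) {i : Fin 3} {x : ℝ} (hx : x ∈ T i) :
    (∃ y, M x y) ↔ ∃ z : Pt, MS {y : Pt | y.1 ∈ T y.2} (x, i) z := by
  obtain ⟨hsym, hmem, huni, hblk⟩ := hM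
  set Y : Set Pt := {y : Pt | y.1 ∈ T y.2} with hY
  -- partners of a point of `Y`
  have hpart : ∀ a : Pt, a ∈ Y → ∀ z : ℝ, M a.1 z → ∃ c : Fin 3, (z, c) ∈ Y ∧ a.2 ≠ c := by
    intro a ha z haz
    obtain ⟨-, i', j', hij, hi', hj'⟩ := hmem _ _ haz
    have : a = (a.1, i') := pos_inj h.noIso ha (show (a.1, i') ∈ Y from hi') rfl
    refine ⟨j', hj', ?_⟩
    rw [congrArg Prod.snd this]
    exact hij
  have hrec : ∀ r, Rec Y r (fun a b => M a.1 b.1 ∧ a ∈ Y ∧ b ∈ Y ∧ a.2 ≠ b.2) := by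
    intro r a b _
    constructor
    · rintro ⟨h1, h2, h3, h4⟩
      refine ⟨h2, h3, h4, ?_, ?_⟩
      · rintro z hz ⟨h5, -⟩
        have := huni _ _ _ h1 h5
        rw [this] at hz
        exact lt_irrefl _ hz
      · rintro z hz ⟨h5, -⟩
        have := huni _ _ _ (hsym _ _ h1) h5
        rw [← this, abs_sub_comm] at hz
        exact lt_irrefl _ hz
    · rintro ⟨h2, h3, h4, h5, h6⟩
      refine ⟨?_, h2, h3, h4⟩
      by_contra hnot
      have hne : a.1 ≠ b.1 := by
        intro hab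
        exact h4 (congrArg Prod.snd (pos_inj h.noIso h2 h3 hab))
      refine hblk a.1 b.1 hne ⟨a.2, b.2, h4, h2, h3⟩ ⟨?_, ?_⟩
      · intro z hz
        obtain ⟨c, hc, hac⟩ := hpart a h2 z hz
        rw [Real.dist_eq, Real.dist_eq]
        refine lt_of_le_of_ne (not_lt.1 fun hlt => h5 (z, c) hlt ⟨hz, h2, hc, hac⟩) ?_
        intro heq
        have := h.noIso a h2 b h3 (z, c) hc heq
        apply hnot
        rw [this]
        exact hz
      · intro z hz
        obtain ⟨c, hc, hac⟩ := hpart b h3 z hz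
        rw [Real.dist_eq, Real.dist_eq]
        refine lt_of_le_of_ne (not_lt.1 fun hlt => h6 (z, c) hlt ⟨hz, h3, hc, hac⟩) ?_
        intro heq
        rw [abs_sub_comm] at heq
        have := h.noIso b h3 a h2 (z, c) hc heq
        apply hnot
        apply hsym
        rw [this]
        exact hz
  have hiff := MS_eq h hrec (fun a b hab => ⟨hsym _ _ hab.1, hab.2.2.1, hab.2.1,
    fun he => hab.2.2.2 he.symm⟩)
  constructor
  · rintro ⟨y, hxy⟩
    obtain ⟨c, hc, hac⟩ := hpart (x, i) hx y hxy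
    exact ⟨(y, c), (hiff (x, i) (y, c)).1 ⟨hxy, hx, hc, hac⟩⟩
  · rintro ⟨z, hz⟩
    exact ⟨z.1, ((hiff (x, i) z).2 hz).1⟩

end Pool.SM3
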