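/-
SM3.E22 : the theorems on the line.
PROOF. Q1 (`p 0 < p 1`): by Kf_integral_le and UE_zero_of_integral (colour 0) and UE_colour_zero (colours 1, 2): a.s. no `UE a j` holds.  With ae_good and ae_no_int: every
`x ∈ S i ω` lies in some open interval `(j, j+1)`, so `(x,i)` has an `MS`-partner; stable_MS (existence) and stable_iff.
Q2 (`p 1 < p 0`): al_lower and UE_approx (with `ε = κ²/16`, `κ²/8` the lower bound) give `P.real {UE 0 0} > 0`, UE_zero_one: a.s. `UE 0 j` for arbitrarily large `j`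
(so the set of unmatched points is unbounded, hence infinite); stable_iff.
-/
import Pool.Agent.Lib.SM3.E9
import Pool.Agent.Lib.SM3.E15
import Pool.Agent.Lib.SM3.E18
import Pool.Agent.Lib.SM3.E21

set_option autoImplicit false

open MeasureTheory Set

namespace Pool.SM3

theorem line_Q1 {p : Fin 3 → ℝ} (hp : PV p) (hq : p 1 = p 2) (hlt : p 0 < p 1) {Ω : Type}
    [MeasurableSpace Ω] {P : Measure Ω} [IsProbabilityMeasure P] {S : Fin 3 → Ω → Set ℝ}
    (h : Hyp p P S) :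
    ∀ᵐ ω ∂P, (∃ M, Stable (fun i => S i ω) M) ∧
      ∀ M, Stable (fun i => S i ω) M → ∀ (i : Fin 3) (x : ℝ), x ∈ S i ω → ∃ y, M x y := by
  have h0 : ∀ (a : Fin 3) (j : ℤ), P {ω | UE a j (SS S ω)} = 0 := by
    intro a j
    by_cases ha : a = 0
    · subst ha
      exact UE_zero_of_integral hp h 0 (C := 1 / (2 * (p 1 - p 0)))
        (fun T hT => Kf_integral_le hp hq hlt hT) j
    · exact UE_colour_zero hp hq h ha j
  have hall : ∀ᵐ ω ∂P, ∀ (a : Fin 3) (j : ℤ), ¬ UE a j (SS S ω) := by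
    rw [ae_all_iff]
    intro a
    rw [ae_all_iff]
    intro j
    exact measure_eq_zero_iff_ae_notMem.1 (h0 a j)
  filter_upwards [ae_good hp h, ae_no_int hp h, hall] with ω h1 h2 h3
  refine ⟨⟨_, stable_MS (T := fun i => S i ω) h1⟩, fun M hM i x hx => ?_⟩
  rw [stable_iff (T := fun i => S i ω) h1 hM hx]
  by_contra hcon
  push Not at hcon
  refine h3 i ⌊x⌋ ⟨(x, i), hx, rfl, ?_, Int.lt_floor_add_one x, hcon⟩
  refine lt_of_le_of_ne (Int.floor_le x) fun he => h2 ⌊x⌋ i ?_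
  rw [he]
  exact hx

theorem line_Q2 {p : Fin 3 → ℝ} (hp : PV p) (hq : p 1 = p 2) (hlt : p 1 < p 0) {Ω : Type}
    [MeasurableSpace Ω] {P : Measure Ω} [IsProbabilityMeasure P] {S : Fin 3 → Ω → Set ℝ}
    (h : Hyp p P S) :
    ∀ᵐ ω ∂P, (∃ M, Stable (fun i => S i ω) M) ∧
      ∀ M, Stable (fun i => S i ω) M → {x : ℝ | x ∈ S 0 ω ∧ ∀ y, ¬ M x y}.Infinite := by
  have hκ : 0 < ((p 0 - p 1) ^ 2 / 2) ^ 2 := by
    have : 0 < p 0 - p 1 := sub_pos.2 hlt
    positivity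
  have hpos : 0 < P.real {ω | UE 0 0 (SS S ω)} := by
    obtain ⟨r₀, hr₀, hr⟩ := UE_approx hp h 0 (ε := ((p 0 - p 1) ^ 2 / 2) ^ 2 / 16) (by positivity)
    obtain ⟨m₀, hm⟩ := hr r₀ le_rfl
    obtain ⟨m₁, hm'⟩ := al_lower hp hq hlt hr₀
    have h1 := (hm (max m₀ m₁) (le_max_left _ _)).1
    have h2 := hm' (max m₀ m₁) (le_max_right _ _)
    rw [abs_le] at h1
    linarith [h1.2]
  filter_upwards [ae_good hp h, UE_zero_one hp h 0 hpos] with ω h1 h2
  refine ⟨⟨_, stable_MS (T := fun i => S i ω) h1⟩, fun M hM => ?_⟩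
  refine Set.infinite_of_not_bddAbove ?_
  rintro ⟨b, hb⟩
  obtain ⟨j, hj, x, hxY, hx0, hjx, -, hx⟩ := h2 ⌈b⌉
  have hxS : x.1 ∈ S 0 ω := by
    have : x.1 ∈ S x.2 ω := hxY
    rwa [hx0] at this
  have hmem : x.1 ∈ {x : ℝ | x ∈ S 0 ω ∧ ∀ y, ¬ M x y} := by
    refine ⟨hxS, fun y hy => ?_⟩
    obtain ⟨z, hz⟩ := (stable_iff (T := fun i => S i ω) h1 hM hxS).1 ⟨y, hy⟩
    have hxe : x = (x.1, 0) := by rw [← hx0]
    rw [← hxe] at hz
    exact hx z hz
  have h3 : x.1 ≤ b := hb hmem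
  have h4 : (⌈b⌉ : ℝ) ≤ j := by exact_mod_cast hj
  have h5 := Int.le_ceil b
  linarith

end Pool.SM3
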