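/-
SM3.E23 : transfer to `EuclideanSpace ℝ (Fin 1)` (format of the frozen statement S19495 with d = 1).
PROOF. `e : EuclideanSpace ℝ (Fin 1) ≃ ℝ`, `e x = x 0`, is an isometry (`EuclideanSpace.dist_eq`, `Fin.sum_univ_one`) and preserves the volume
(`EuclideanSpace.volume_preserving_symm_measurableEquiv_toLp`-like lemma + `volume_preserving_funUnique`).  Put `S' i ω = e '' S i ω`;
`(S' i ω ∩ A).ncard = (S i ω ∩ e ⁻¹' A).ncard`, so `Hyp p P S'`.  A relation `M` on `EuclideanSpace ℝ (Fin 1)` satisfies the four conditions for `S` iff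
`M' x y = M (e.symm x) (e.symm y)` is `Stable` for `S'`.  Apply line_Q1, line_Q2.
-/
import Pool.Agent.Lib.SM3.E22

set_option autoImplicit false

open MeasureTheory Set

namespace Pool.SM3

private def E23_St {X : Type} [MetricSpace X] (T : Fin 3 → Set X) (M : X → X → Prop) : Prop :=
  (∀ x y, M x y → M y x) ∧
  (∀ x y, M x y → x ≠ y ∧ ∃ i j : Fin 3, i ≠ j ∧ x ∈ T i ∧ y ∈ T j) ∧
  (∀ x y z, M x y → M x z → y = z) ∧
  (∀ x y, x ≠ y → (∃ i j : Fin 3, i ≠ j ∧ x ∈ T i ∧ y ∈ T j) →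
    ¬ ((∀ z, M x z → dist x y < dist x z) ∧ (∀ z, M y z → dist x y < dist y z)))

private theorem E23_pull {X Y : Type} [MetricSpace X] [MetricSpace Y] {φ : Y → X} (hi : Isometry φ)
    (hs : Function.Surjective φ) {T : Fin 3 → Set X} {M : X → X → Prop} (h : E23_St T M) :
    E23_St (fun i => φ ⁻¹' (T i)) (fun s t => M (φ s) (φ t)) := by
  obtain ⟨h1, h2, h3, h4⟩ := h
  refine ⟨fun x y hxy => h1 _ _ hxy, fun x y hxy => ?_, fun x y z hxy hxz => hi.injective (h3 _ _ _ hxy hxz),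
    fun x y hxy hij hcon => ?_⟩
  · obtain ⟨h5, i, j, hne, h6, h7⟩ := h2 _ _ hxy
    exact ⟨fun hh => h5 (congrArg φ hh), i, j, hne, h6, h7⟩
  · obtain ⟨i, j, hne, h6, h7⟩ := hij
    refine h4 (φ x) (φ y) (fun hh => hxy (hi.injective hh)) ⟨i, j, hne, h6, h7⟩ ⟨fun z hz => ?_, fun z hz => ?_⟩
    · obtain ⟨z', rfl⟩ := hs z
      rw [hi.dist_eq, hi.dist_eq]
      exact hcon.1 z' hz
    · obtain ⟨z', rfl⟩ := hs z
      rw [hi.dist_eq, hi.dist_eq]
      exact hcon.2 z' hz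

private noncomputable def E23_f (x : EuclideanSpace ℝ (Fin 1)) : ℝ := x 0

private noncomputable def E23_g (t : ℝ) : EuclideanSpace ℝ (Fin 1) := WithLp.toLp 2 (fun _ => t)

private theorem E23_fg (t : ℝ) : E23_f (E23_g t) = t := rfl

private theorem E23_gf (x : EuclideanSpace ℝ (Fin 1)) : E23_g (E23_f x) = x := by
  ext i
  rw [Subsingleton.elim i 0]
  rfl

private theorem E23_isof : Isometry E23_f := by
  refine Isometry.of_dist_eq fun x y => ?_
  rw [EuclideanSpace.dist_eq, Fin.sum_univ_one, Real.sqrt_sq dist_nonneg]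
  rfl

private theorem E23_isog : Isometry E23_g := by
  refine Isometry.of_dist_eq fun s t => ?_
  rw [← E23_isof.dist_eq, E23_fg, E23_fg]

private theorem E23_surf : Function.Surjective E23_f := fun t => ⟨E23_g t, E23_fg t⟩

private theorem E23_surg : Function.Surjective E23_g := fun x => ⟨E23_f x, E23_gf x⟩

private theorem E23_mp : MeasurePreserving E23_f volume volume := by
  have h1 := EuclideanSpace.volume_preserving_symm_measurableEquiv_toLp (Fin 1)
  have h2 := volume_preserving_funUnique (Fin 1) ℝ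
  exact h2.comp h1

private theorem E23_inter (S : Set (EuclideanSpace ℝ (Fin 1))) (A : Set ℝ) :
    (E23_g ⁻¹' S) ∩ A = E23_g ⁻¹' (S ∩ E23_f ⁻¹' A) := by
  ext t
  simp only [mem_inter_iff, mem_preimage, E23_fg]

private theorem E23_ncard (S : Set (EuclideanSpace ℝ (Fin 1))) (A : Set ℝ) :
    ((E23_g ⁻¹' S) ∩ A).ncard = (S ∩ E23_f ⁻¹' A).ncard := by
  rw [E23_inter]
  refine Set.ncard_preimage_of_injective_subset_range E23_isog.injective ?_
  rw [E23_surg.range_eq]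
  exact subset_univ _

private theorem E23_hyp {p : Fin 3 → ℝ} {Ω : Type} [MeasurableSpace Ω] {P : MeasureTheory.Measure Ω}
    {S : Fin 3 → Ω → Set (EuclideanSpace ℝ (Fin 1))}
    (h1 : ∀ (i : Fin 3) (ω : Ω) (A : Set (EuclideanSpace ℝ (Fin 1))),
        Bornology.IsBounded A → (S i ω ∩ A).Finite)
    (h2 : ∀ (i : Fin 3) (A : Set (EuclideanSpace ℝ (Fin 1))), MeasurableSet A →
        Bornology.IsBounded A → Measurable (fun ω => (S i ω ∩ A).ncard))
    (h3 : ∀ (i : Fin 3) (A : Set (EuclideanSpace ℝ (Fin 1))), MeasurableSet A →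
        Bornology.IsBounded A → ∀ k : ℕ,
        P {ω | (S i ω ∩ A).ncard = k} =
          ENNReal.ofReal (Real.exp (-(p i * (MeasureTheory.volume A).toReal)) *
            (p i * (MeasureTheory.volume A).toReal) ^ k / (k.factorial : ℝ)))
    (h4 : ∀ (n : ℕ) (c : Fin n → Fin 3) (A : Fin n → Set (EuclideanSpace ℝ (Fin 1))),
        (∀ j, MeasurableSet (A j) ∧ Bornology.IsBounded (A j)) →
        (∀ j k, j ≠ k → c j = c k → Disjoint (A j) (A k)) →
        ProbabilityTheory.iIndepFun (fun j ω => (S (c j) ω ∩ A j).ncard) P) :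
    Hyp p P (fun i ω => E23_g ⁻¹' (S i ω)) where
  fin i ω A hA := by
    rw [E23_inter]
    exact (h1 i ω _ (E23_isof.antilipschitz.isBounded_preimage hA)).preimage E23_isog.injective.injOn
  meas i A hm hA := by
    simp only [E23_ncard]
    exact h2 i _ (E23_mp.measurable hm) (E23_isof.antilipschitz.isBounded_preimage hA)
  law i A hm hA k := by
    simp only [E23_ncard]
    have h5 := h3 i _ (E23_mp.measurable hm) (E23_isof.antilipschitz.isBounded_preimage hA) k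
    rwa [E23_mp.measure_preimage hm.nullMeasurableSet] at h5
  ind n c A hA hd := by
    simp only [E23_ncard]
    exact h4 n c (fun j => E23_f ⁻¹' (A j)) (fun j => ⟨E23_mp.measurable (hA j).1,
      E23_isof.antilipschitz.isBounded_preimage (hA j).2⟩)
      (fun j k hjk hc => (hd j k hjk hc).preimage _)

private theorem E23_exists {T : Fin 3 → Set (EuclideanSpace ℝ (Fin 1))}
    (h : ∃ M, Stable (fun i => E23_g ⁻¹' (T i)) M) : ∃ M, E23_St T M := by
  obtain ⟨M, hM⟩ := h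
  have h1 : E23_St (fun i => E23_g ⁻¹' (T i)) M := hM
  have h2 := E23_pull E23_isof E23_surf h1
  refine ⟨fun x y => M (E23_f x) (E23_f y), ?_⟩
  have h3 : (fun i => E23_f ⁻¹' (E23_g ⁻¹' (T i))) = T := by
    funext i
    ext x
    simp only [mem_preimage, E23_gf]
  rw [h3] at h2
  exact h2

private theorem E23_stable {T : Fin 3 → Set (EuclideanSpace ℝ (Fin 1))}
    {M : EuclideanSpace ℝ (Fin 1) → EuclideanSpace ℝ (Fin 1) → Prop} (h : E23_St T M) :
    Stable (fun i => E23_g ⁻¹' (T i)) (fun s t => M (E23_g s) (E23_g t)) :=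
  E23_pull E23_isog E23_surg h

/-- Q1 in dimension one, in the format of the frozen statement -/
theorem dim_one_Q1 :
  ∀ (p : Fin 3 → ℝ), (∀ i, 0 < p i) → p 0 + p 1 + p 2 = 1 →
    p 0 < p 1 → p 1 = p 2 →
  ∀ (Ω : Type) [MeasurableSpace Ω] (P : MeasureTheory.Measure Ω),
    MeasureTheory.IsProbabilityMeasure P →
  ∀ (S : Fin 3 → Ω → Set (EuclideanSpace ℝ (Fin 1))),
    (∀ (i : Fin 3) (ω : Ω) (A : Set (EuclideanSpace ℝ (Fin 1))),
        Bornology.IsBounded A → (S i ω ∩ A).Finite) →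
    (∀ (i : Fin 3) (A : Set (EuclideanSpace ℝ (Fin 1))), MeasurableSet A →
        Bornology.IsBounded A → Measurable (fun ω => (S i ω ∩ A).ncard)) →
    (∀ (i : Fin 3) (A : Set (EuclideanSpace ℝ (Fin 1))), MeasurableSet A →
        Bornology.IsBounded A → ∀ k : ℕ,
        P {ω | (S i ω ∩ A).ncard = k} =
          ENNReal.ofReal (Real.exp (-(p i * (MeasureTheory.volume A).toReal)) *
            (p i * (MeasureTheory.volume A).toReal) ^ k / (k.factorial : ℝ))) →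
    (∀ (n : ℕ) (c : Fin n → Fin 3) (A : Fin n → Set (EuclideanSpace ℝ (Fin 1))),
        (∀ j, MeasurableSet (A j) ∧ Bornology.IsBounded (A j)) →
        (∀ j k, j ≠ k → c j = c k → Disjoint (A j) (A k)) →
        ProbabilityTheory.iIndepFun (fun j ω => (S (c j) ω ∩ A j).ncard) P) →
    ∀ᵐ ω ∂P,
      (∃ M : EuclideanSpace ℝ (Fin 1) → EuclideanSpace ℝ (Fin 1) → Prop,
        (∀ x y, M x y → M y x) ∧
        (∀ x y, M x y → x ≠ y ∧ ∃ i j : Fin 3, i ≠ j ∧ x ∈ S i ω ∧ y ∈ S j ω) ∧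
        (∀ x y z, M x y → M x z → y = z) ∧
        (∀ x y, x ≠ y → (∃ i j : Fin 3, i ≠ j ∧ x ∈ S i ω ∧ y ∈ S j ω) →
          ¬ ((∀ z, M x z → dist x y < dist x z) ∧ (∀ z, M y z → dist x y < dist y z)))) ∧
      (∀ M : EuclideanSpace ℝ (Fin 1) → EuclideanSpace ℝ (Fin 1) → Prop,
        ((∀ x y, M x y → M y x) ∧
        (∀ x y, M x y → x ≠ y ∧ ∃ i j : Fin 3, i ≠ j ∧ x ∈ S i ω ∧ y ∈ S j ω) ∧
        (∀ x y z, M x y → M x z → y = z) ∧
        (∀ x y, x ≠ y → (∃ i j : Fin 3, i ≠ j ∧ x ∈ S i ω ∧ y ∈ S j ω) →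
          ¬ ((∀ z, M x z → dist x y < dist x z) ∧ (∀ z, M y z → dist x y < dist y z)))) →
        ∀ (i : Fin 3) (x : EuclideanSpace ℝ (Fin 1)), x ∈ S i ω → ∃ y, M x y) := by
  intro p hp hsum hlt heq Ω _ P hP S h1 h2 h3 h4
  have := hP
  have hH : Hyp p P (fun i ω => E23_g ⁻¹' (S i ω)) := E23_hyp h1 h2 h3 h4
  filter_upwards [line_Q1 ⟨hp, hsum⟩ heq hlt hH] with ω hω
  refine ⟨E23_exists (T := fun i => S i ω) hω.1, fun M hM i x hx => ?_⟩
  have h5 := hω.2 _ (E23_stable (T := fun i => S i ω) hM) i (E23_f x)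
    (by rw [mem_preimage, E23_gf]; exact hx)
  obtain ⟨s, hs⟩ := h5
  rw [E23_gf] at hs
  exact ⟨_, hs⟩

/-- Q2 in dimension one -/
theorem dim_one_Q2 :
  ∀ (p : Fin 3 → ℝ), (∀ i, 0 < p i) → p 0 + p 1 + p 2 = 1 →
    p 1 < p 0 → p 1 = p 2 →
  ∀ (Ω : Type) [MeasurableSpace Ω] (P : MeasureTheory.Measure Ω),
    MeasureTheory.IsProbabilityMeasure P →
  ∀ (S : Fin 3 → Ω → Set (EuclideanSpace ℝ (Fin 1))),
    (∀ (i : Fin 3) (ω : Ω) (A : Set (EuclideanSpace ℝ (Fin 1))),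
        Bornology.IsBounded A → (S i ω ∩ A).Finite) →
    (∀ (i : Fin 3) (A : Set (EuclideanSpace ℝ (Fin 1))), MeasurableSet A →
        Bornology.IsBounded A → Measurable (fun ω => (S i ω ∩ A).ncard)) →
    (∀ (i : Fin 3) (A : Set (EuclideanSpace ℝ (Fin 1))), MeasurableSet A →
        Bornology.IsBounded A → ∀ k : ℕ,
        P {ω | (S i ω ∩ A).ncard = k} =
          ENNReal.ofReal (Real.exp (-(p i * (MeasureTheory.volume A).toReal)) *
            (p i * (MeasureTheory.volume A).toReal) ^ k / (k.factorial : ℝ))) →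
    (∀ (n : ℕ) (c : Fin n → Fin 3) (A : Fin n → Set (EuclideanSpace ℝ (Fin 1))),
        (∀ j, MeasurableSet (A j) ∧ Bornology.IsBounded (A j)) →
        (∀ j k, j ≠ k → c j = c k → Disjoint (A j) (A k)) →
        ProbabilityTheory.iIndepFun (fun j ω => (S (c j) ω ∩ A j).ncard) P) →
    ∀ᵐ ω ∂P,
      (∃ M : EuclideanSpace ℝ (Fin 1) → EuclideanSpace ℝ (Fin 1) → Prop,
        (∀ x y, M x y → M y x) ∧
        (∀ x y, M x y → x ≠ y ∧ ∃ i j : Fin 3, i ≠ j ∧ x ∈ S i ω ∧ y ∈ S j ω) ∧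
        (∀ x y z, M x y → M x z → y = z) ∧
        (∀ x y, x ≠ y → (∃ i j : Fin 3, i ≠ j ∧ x ∈ S i ω ∧ y ∈ S j ω) →
          ¬ ((∀ z, M x z → dist x y < dist x z) ∧ (∀ z, M y z → dist x y < dist y z)))) ∧
      (∀ M : EuclideanSpace ℝ (Fin 1) → EuclideanSpace ℝ (Fin 1) → Prop,
        ((∀ x y, M x y → M y x) ∧
        (∀ x y, M x y → x ≠ y ∧ ∃ i j : Fin 3, i ≠ j ∧ x ∈ S i ω ∧ y ∈ S j ω) ∧
        (∀ x y z, M x y → M x z → y = z) ∧
        (∀ x y, x ≠ y → (∃ i j : Fin 3, i ≠ j ∧ x ∈ S i ω ∧ y ∈ S j ω) →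
          ¬ ((∀ z, M x z → dist x y < dist x z) ∧ (∀ z, M y z → dist x y < dist y z)))) →
        {x : EuclideanSpace ℝ (Fin 1) | x ∈ S 0 ω ∧ ∀ y, ¬ M x y}.Infinite) := by
  intro p hp hsum hlt heq Ω _ P hP S h1 h2 h3 h4
  have := hP
  have hH : Hyp p P (fun i ω => E23_g ⁻¹' (S i ω)) := E23_hyp h1 h2 h3 h4
  filter_upwards [line_Q2 ⟨hp, hsum⟩ heq hlt hH] with ω hω
  refine ⟨E23_exists (T := fun i => S i ω) hω.1, fun M hM hfin => ?_⟩
  refine hω.2 _ (E23_stable (T := fun i => S i ω) hM) ((hfin.preimage E23_isog.injective.injOn).subset ?_)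
  rintro t ⟨ht1, ht2⟩
  refine ⟨ht1, fun y hy => ht2 (E23_f y) ?_⟩
  rw [E23_gf]
  exact hy

end Pool.SM3
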